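import Pool.Agent.P.MP_1a0ecf_al.K.Act

/-! Package Act2: the longest element, idempotents, one-element families. -/

namespace Pool.Agent.P.MP_1a0ecf_al.K

open scoped Classical

set_option linter.unusedSectionVars false

noncomputable section

variable {X : F.Cox} {Γ : Type} [AddCommGroup Γ] [LinearOrder Γ] [IsOrderedAddMonoid Γ]
  {L : Fin X.n → Γ}

variable {lam : Γ →+ ℂ} {D : F.KL X Γ L}

private theorem lead_ze (i : Fin X.n) : lead lam 1 (D.toHA.ze i) (2 * lam (L i)) := by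
  have h := lead_vU (lam := lam) (L i) (-L i)
  rw [map_neg, sub_neg_eq_add, ← two_mul] at h
  exact h

private theorem lead_word (κ : F.Wt X) (hκ : ∀ i, κ (X.s i) = lam (L i) / 2) (l : List (Fin X.n))
    (h : X.cs.IsReduced l) :
    Lead lam D 1 (D.T (X.cs.wordProd l) * D.T (X.cs.wordProd l)⁻¹ - 1)
      ((X.cs.leftInvSeq l).map fun t => (4 * κ t) • X.gA t).sum := by
  induction l with
  | nil => simpa [D.T_one] using Lead.zero (lam := lam) (D := D) 1
  | cons i l ih =>
    have h1 : X.cs.IsReduced l := h.drop 1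
    have h2 : X.len (X.cs.wordProd l) < X.len (X.s i * X.cs.wordProd l) := by
      have := h.eq
      rw [X.cs.wordProd_cons] at this
      rw [F.Cox0.len, F.Cox0.len, this, h1.eq]
      exact Nat.lt_succ_self _
    have h3 : X.len (X.cs.wordProd l)⁻¹ < X.len ((X.cs.wordProd l)⁻¹ * X.s i) := by
      rwa [F.Cox0.s, ← X.cs.inv_simple i, ← mul_inv_rev, F.Cox0.len, F.Cox0.len, X.cs.length_inv,
        X.cs.length_inv]
    have a1 := (Lead.smul (lead_ze (lam := lam) (D := D) i) (Lead.T (X.s i))).add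
      (((Lead.T (X.s i)).mul (ih h1)).mul (Lead.T (X.s i)))
    have h5 : ∀ M : List X.W, (∀ t ∈ M, X.cs.IsReflection t) →
        X.gA (X.s i) * (M.map fun t => (4 * κ t) • X.gA t).sum * X.gA (X.s i) =
        ((M.map (MulAut.conj (X.s i))).map fun t => (4 * κ t) • X.gA t).sum := fun M hM => by
      induction M with
      | nil => simp
      | cons t M ih =>
        simp only [List.map_cons, List.sum_cons, MulAut.conj_apply]
        rw [mul_add, add_mul, ih fun u hu => hM u (List.mem_cons_of_mem _ hu),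
          κ.cl t _ (hM t List.mem_cons_self), X.cs.inv_simple, mul_smul_comm, smul_mul_assoc,
          ← map_mul, ← map_mul]
    rw [h5 _ fun _ => X.cs.isReflection_of_mem_leftInvSeq l] at a1
    convert a1 using 1
    · rw [X.cs.wordProd_cons, mul_inv_rev, X.cs.inv_simple, ← D.toHA.Ts_up h2, ← D.T_up _ _ h3,
        mul_sub, sub_mul, mul_one, D.toHA.Ts_sq]
      simp only [mul_assoc]
      abel
    · rw [CoxeterSystem.leftInvSeq, List.map_cons, List.sum_cons, hκ]
      congr 2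
      ring

/-- `T w0 * T (word) = T (w0 * word) + ∑ ze • ...` by induction on a reduced word of `w0`; every
reflection occurs once (`leftInvSeq_w0`); compare `expand` in the file K5 of the parent folder. -/
theorem Lead.w0 (κ : F.Wt X) (hκ : ∀ i, κ (X.s i) = lam (L i) / 2) :
    Lead lam D 1 (D.T X.w0 * D.T X.w0 - 1) ((4 : ℂ) • X.omA κ) := by
  obtain ⟨l, l1, l2⟩ := X.cs.exists_isReduced X.w0
  have h := lead_word (lam := lam) (D := D) κ hκ l l1
  rw [← List.sum_toFinset _ l1.nodup_leftInvSeq, X.leftInvSeq_w0 l1 l2.symm, ← l2,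
    inv_eq_of_mul_eq_one_right X.w0_mul_self] at h
  rw [F.Cox.omA, Finset.smul_sum]
  simpa only [smul_smul] using h

theorem act2_rho_hom {S : Finset X.W} (hS : D.Cvx S) :
    ∃ (ρ : MonoidAlgebra ℂ X.W →ₐ[ℂ] Matrix S S ℂ) (f : D.H →+* MonoidAlgebra ℂ X.W),
      (∀ a, rho D S a = ρ a) ∧ (∀ w, f (D.T w) = X.gA w) ∧
      ∀ a, ρ (f a) = (D.lm S a).map (F.spc Γ) := by
  obtain ⟨f, h1, h2, -⟩ := D.toHA.exists_spec (F.spc Γ) fun i => F.spc_vU (L i)
  obtain ⟨ρ, hρ⟩ := D.exists_rep hS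
  refine ⟨ρ, f, fun a => ?_, h2, hρ f h1 h2⟩
  conv_rhs => rw [t1_eq_sum a]
  simp only [rho, map_sum, map_smul, ← h2, hρ f h1 h2]

theorem rho_mul {S : Finset X.W} (hS : D.Cvx S) (a b : MonoidAlgebra ℂ X.W) :
    rho D S (a * b) = rho D S a * rho D S b := by
  obtain ⟨ρ, -, h, -⟩ := act2_rho_hom hS
  rw [h, h, h, map_mul]

/-- the unit is the sum of the central idempotents -/
theorem act2_sum_idem (W : Type) [Group W] [Fintype W] :
    ∃ s : Finset (W → ℂ), (∀ χ ∈ s, IsIrr χ) ∧ ∑ χ ∈ s, idem χ = 1 := by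
  obtain ⟨l, hl, e⟩ := (isCh_perm (MulAction.toPermHom W W)).exists_list
  refine ⟨l.toFinset, fun χ h => hl χ (List.mem_toFinset.1 h), ?_⟩
  rw [← sub_eq_zero]
  refine eq_zero_of_chx fun ψ hψ b => ?_
  have hm : ψ ∈ l.toFinset := by
    rw [List.mem_toFinset, ← T0.ip_mem hl hψ, ← e, ip, Finset.sum_eq_single 1]
    · simpa using hψ.one_ne
    · intro u _ hu
      simp [hu]
    · simp
  rw [sub_mul, one_mul, map_sub, Finset.sum_mul, map_sum, Finset.sum_eq_single ψ,
    hψ.chx_mul hψ.idem_center, chx_idem, hψ.ip_eq hψ, if_pos rfl, mul_one, div_self hψ.one_ne,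
    one_mul, sub_self]
  · intro χ hχ n
    have h := hl χ (List.mem_toFinset.1 hχ)
    rw [hψ.chx_mul h.idem_center, chx_idem, hψ.ip_eq h, if_neg n.symm, mul_zero, zero_div,
      zero_mul]
  · exact fun n => absurd hm n

/-- `1` is the sum of the `idem χ` over the finitely many irreducible `χ`; `KL.ip_ch_ne`. -/
theorem rho_eq_zero {z : X.W} {a : MonoidAlgebra ℂ X.W}
    (h : ∀ χ, IsIrr χ → D.Fam z χ → idem χ * a = 0) : rho D (D.cell z) a = 0 := by
  obtain ⟨s, hs, e⟩ := act2_sum_idem X.W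
  obtain ⟨ρ, f, h1, h2, h3⟩ := act2_rho_hom (D.cvx_cell z)
  rw [h1, ← one_mul a, ← e, Finset.sum_mul, map_sum]
  refine Finset.sum_eq_zero fun χ hχ => ?_
  by_cases c : D.Fam z χ
  · rw [h χ (hs χ hχ) c, map_zero]
  · have k := not_not.1 (mt (D.ip_ch_ne (D.cvx_cell z) (hs χ hχ)).2 c)
    have k2 : ρ (idem χ) = 0 := by
      simp only [idem, map_smul, map_sum, ← h3, h2] at k ⊢
      rw [k, smul_zero]
    rw [map_mul, k2, zero_mul]

/-- The Casimir elements `∑ T w * T x * T w⁻¹` are central (`HA.casimir`), their specialisations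
span the centre, so `idem χ` acts on the cell module by a scalar. -/
theorem fam_single {z : X.W}
    (h : ∀ a : D.H, (∀ b, a * b = b * a) → ∃ r : F.ZG Γ, D.lm (D.cell z) a = r • 1)
    {χ χ' : X.W → ℂ} (hχ : IsIrr χ) (hχ' : IsIrr χ') (h1 : D.Fam z χ) (h2 : D.Fam z χ') :
    χ = χ' := by
  obtain ⟨ρ, f, k1, k2, k3⟩ := act2_rho_hom (D.cvx_cell z)
  have key : ∀ x, ∃ c : ℂ, ∀ ψ, IsIrr ψ → D.Fam z ψ → ψ x = c * ψ 1 := fun x => by
    obtain ⟨r, hr⟩ := h (∑ w, D.T w * D.T x * D.T w⁻¹) fun b => (D.toHA.casimir _ b).symm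
    have e := k3 (∑ w, D.T w * D.T x * D.T w⁻¹)
    have e2 : ((r • 1 : Matrix (D.cell z) (D.cell z) (F.ZG Γ))).map (F.spc Γ) = F.spc Γ r • 1 := by
      ext u v
      simp only [Matrix.map_apply, Matrix.smul_apply, Matrix.one_apply, smul_eq_mul]
      split_ifs <;> simp
    rw [hr, e2, ← k1] at e
    refine ⟨F.spc Γ r / Fintype.card X.W, fun ψ hψ hz => ?_⟩
    have e3 := D.chx_of_scalar hψ hz e
    simp only [map_sum, map_mul f, k2, hψ.t1_conj, chx_of, Finset.sum_const, Finset.card_univ,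
      nsmul_eq_mul] at e3
    have c : (Fintype.card X.W : ℂ) ≠ 0 := by simp
    field_simp
    linear_combination e3
  by_contra n
  have e : χ = (χ 1 / χ' 1) • χ' := funext fun x => by
    obtain ⟨c, hc⟩ := key x
    have := hχ'.one_ne
    rw [Pi.smul_apply, smul_eq_mul, hc χ hχ h1, hc χ' hχ' h2]
    field_simp
  have e2 := hχ.ip_eq hχ'
  rw [if_neg n, e, ip_smul, hχ'.ip_eq hχ', if_pos rfl, mul_one] at e2
  exact div_ne_zero hχ.one_ne hχ'.one_ne e2

end

end Pool.Agent.P.MP_1a0ecf_al.K
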