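import Pool.Agent.P.MP_1a0ecf_al.K.V2

/-! Package Lin: determinants, the wedge lemma. -/

namespace Pool.Agent.P.MP_1a0ecf_al.K

open scoped Classical

set_option linter.unusedSectionVars false

noncomputable section

variable {Γ : Type} [AddCommGroup Γ] [LinearOrder Γ] [IsOrderedAddMonoid Γ]


/-- Leibniz formula; for `σ ≠ 1` take a moved point that is minimal for `lt`. -/
theorem det_tri {ι R : Type} [Fintype ι] [CommRing R] (M : Matrix ι ι R) (lt : ι → ι → Prop)
    (tr : ∀ a b c, lt a b → lt b c → lt a c) (ir : ∀ a, ¬ lt a a)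
    (h : ∀ i j, M i j ≠ 0 → i = j ∨ lt i j) : M.det = ∏ i, M i i := by
  have : IsTrans ι lt := ⟨tr⟩
  have : Std.Irrefl lt := ⟨ir⟩
  rw [Matrix.det_apply', Finset.sum_eq_single 1]
  · simp
  · intro σ _ hσ
    by_contra hc
    have h1 : ∀ i, M (σ i) i ≠ 0 := fun i e =>
      hc (mul_eq_zero_of_right _ (Finset.prod_eq_zero (Finset.mem_univ i) e))
    have hne : {i | σ i ≠ i}.Nonempty := by
      by_contra h2
      refine hσ (Equiv.ext fun i => ?_)
      by_contra h3
      exact h2 ⟨i, h3⟩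
    obtain ⟨i, hi, hm⟩ := (Finite.wellFounded_of_trans_of_irrefl lt).has_min _ hne
    exact hm (σ i) (fun e => hi (σ.injective e)) ((h _ _ (h1 i)).resolve_left hi)
  · simp

theorem det_mem {ι F : Type} [Fintype ι] [CommRing F] (R : Subring F) (M : Matrix ι ι F)
    (h : ∀ i j, M i j ∈ R) : M.det ∈ R := by
  rw [Matrix.det_apply']
  exact R.sum_mem fun σ _ => R.mul_mem (intCast_mem R _) (R.prod_mem fun i _ => h _ _)

theorem det_mul_expand {ι W F : Type} [Fintype ι] [Fintype W] [CommRing F] (A : Matrix ι W F)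
    (M : Matrix W ι F) :
    (A * M).det = ∑ g : ι → W, (∏ i, A i (g i)) * (M.submatrix g id).det := by
  have e : A * M = fun i => ∑ w, A i w • M w := by
    ext i j
    simp [Matrix.mul_apply, Finset.sum_apply]
  have h1 := (Matrix.detRowAlternating (n := ι) (R := F)).toMultilinearMap.map_sum
    (fun i w => A i w • M w)
  rw [e]
  refine h1.trans (Finset.sum_congr rfl fun g _ => ?_)
  exact (Matrix.detRowAlternating (n := ι) (R := F)).toMultilinearMap.map_smul_univ
    (fun i => A i (g i)) fun i => M (g i)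

theorem submat_mul {ι W W' κ F : Type} [Fintype W] [CommRing F] (Z : Matrix W' W F)
    (M : Matrix W κ F) (g : ι → W') : (Z * M).submatrix g id = Z.submatrix g id * M := rfl

/-- `det` is multilinear in the rows (`Matrix.detRowAlternating`, `MultilinearMap.map_sum`). -/
theorem minors_mul {ι W W' F : Type} [Fintype ι] [Fintype W] [CommRing F] (R : Subring F)
    (Z : Matrix W' W F) (hZ : ∀ i j, Z i j ∈ R) (M : Matrix W ι F) (c : F)
    (h : ∀ g : ι → W, c * (M.submatrix g id).det ∈ R) (g : ι → W') :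
    c * ((Z * M).submatrix g id).det ∈ R := by
  rw [submat_mul, det_mul_expand, Finset.mul_sum]
  refine R.sum_mem fun k _ => ?_
  rw [mul_left_comm]
  exact R.mul_mem (R.prod_mem fun i _ => hZ _ _) (h k)

/-- all entries have degree at most zero -/
def OM {α β : Type} (M : Matrix α β (KK Γ)) : Prop := ∀ i j, Le (M i j) 0

/-- the matrix of residues -/
def rsM {α β : Type} (M : Matrix α β (KK Γ)) : Matrix α β ℚ := fun i j => co (M i j) 0

theorem le_rat (r : ℚ) : Le (r : KK Γ) 0 := le_iff.2 (Or.inr (deg_rat r).le)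

theorem OM.mul {α β κ : Type} [Fintype β] {M : Matrix α β (KK Γ)} {N : Matrix β κ (KK Γ)}
    (h : OM M) (h' : OM N) : OM (M * N) := fun i j =>
  Le.sum fun k _ => by simpa using (h i k).mul (h' k j)

theorem rs_mul {α β κ : Type} [Fintype β] {M : Matrix α β (KK Γ)} {N : Matrix β κ (KK Γ)}
    (h : OM M) (h' : OM N) : rsM (M * N) = rsM M * rsM N := by
  ext i j
  simp only [rsM, Matrix.mul_apply]
  rw [co_sum]
  exact Finset.sum_congr rfl fun k _ => by simpa using co_mul_top (h i k) (h' k j)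

theorem OM.tr {α β : Type} {M : Matrix α β (KK Γ)} (h : OM M) : OM M.transpose := fun i j => h j i

theorem rs_tr {α β : Type} (M : Matrix α β (KK Γ)) : rsM M.transpose = (rsM M).transpose := rfl

theorem om_rat {α β : Type} (B : Matrix α β ℚ) : OM (B.map fun r => (r : KK Γ)) := fun _ _ =>
  le_rat _

theorem rs_rat {α β : Type} (B : Matrix α β ℚ) : rsM (B.map fun r => (r : KK Γ)) = B := by
  ext i j
  simp [rsM, co_rat]

theorem one_rat {α : Type} : (1 : Matrix α α (KK Γ)) = (1 : Matrix α α ℚ).map fun r => (r : KK Γ) :=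
  (Matrix.map_one _ Rat.cast_zero Rat.cast_one).symm

theorem om_one {α : Type} : OM (1 : Matrix α α (KK Γ)) := by rw [one_rat]; exact om_rat _

theorem rs_one {α : Type} : rsM (1 : Matrix α α (KK Γ)) = 1 := by rw [one_rat]; exact rs_rat _

theorem gram_res {W : Type} {G : Matrix W W (KK Γ)}
    (hG : ∀ x y, Lt (G x y - if x = y then 1 else 0) 0) : OM G ∧ rsM G = 1 := by
  have e : ∀ x y, G x y = (G x y - if x = y then 1 else 0) + (1 : Matrix W W (KK Γ)) x y :=
    fun x y => by rw [Matrix.one_apply, sub_add_cancel]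
  refine ⟨fun x y => ?_, ?_⟩
  · rw [e]; exact (hG x y).le.add (om_one x y)
  · ext x y
    show co (G x y) 0 = _
    rw [e, co_add, hG x y 0 le_rfl, zero_add]
    exact congrFun (congrFun rs_one x) y

theorem co_det {ι : Type} [Fintype ι] {M : Matrix ι ι (KK Γ)} (h : OM M) :
    co M.det 0 = (rsM M).det := by
  let M' : Matrix ι ι (OO Γ) := Matrix.of fun i j => ⟨M i j, h i j⟩
  have e1 : ((M'.det : OO Γ) : KK Γ) = M.det := (OO Γ).subtype.map_det M'
  rw [← e1]
  exact (res Γ).map_det M'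

theorem det_tr_mul_ne {ι W : Type} [Fintype ι] [Fintype W] (B : Matrix W ι ℚ) (g : ι → W)
    (hB : B.submatrix g id = 1) : (B.transpose * B).det ≠ 0 := by
  intro h
  obtain ⟨v, hv, h1⟩ := Matrix.exists_mulVec_eq_zero_iff.2 h
  have h2 : B.mulVec v ⬝ᵥ B.mulVec v = 0 := by
    rw [Matrix.dotProduct_mulVec, ← Matrix.mulVec_transpose, Matrix.mulVec_mulVec, h1,
      zero_dotProduct]
  rw [dotProduct_self_eq_zero] at h2
  apply hv
  rw [← Matrix.one_mulVec v, ← hB]
  ext i
  exact congrFun h2 (g i)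

theorem gram_unit {ι W : Type} [Fintype ι] [Fintype W] {B : Matrix W ι (KK Γ)} (hO : OM B)
    {g : ι → W} (hB : (rsM B).submatrix g id = 1) {G : Matrix W W (KK Γ)}
    (hG : ∀ x y, Lt (G x y - if x = y then 1 else 0) 0) :
    Le (B.transpose * G * B).det 0 ∧ co (B.transpose * G * B).det 0 ≠ 0 := by
  obtain ⟨h1, h2⟩ := gram_res hG
  have h3 := (hO.tr.mul h1).mul hO
  refine ⟨det_mem (OO Γ) _ h3, ?_⟩
  rw [co_det h3, rs_mul (hO.tr.mul h1) hO, rs_mul hO.tr h1, h2, Matrix.mul_one, rs_tr]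
  exact det_tr_mul_ne _ g hB

theorem deg_squeeze {a m u w : Γ} (h1 : a ≤ m) (h2 : m + m + u + w ≤ 0)
    (h3 : 0 ≤ w + (a + (a + u))) : a = m ∧ w + (a + (a + u)) ≤ 0 := by
  have e : w + (a + (a + u)) = a + a + u + w := by abel
  rw [e] at h3 ⊢
  refine ⟨le_antisymm h1 (not_lt.1 fun h => ?_), le_trans (by gcongr) h2⟩
  have : a + a + u + w < m + m + u + w := by gcongr
  exact absurd (h3.trans_lt (this.trans_le h2)) (lt_irrefl _)

/-- The wedge lemma (section 0 of the notes). `b g = c * det (F.submatrix g id)`, `bK (b g) = u * b g`,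
`u = det U * bK c / c`; `deg det (Fᵀ G F) + 2 deg c = 2 m` for the maximal degree `m`, so `wd (b g) ≤ 0`
and all nonzero `b g` are integer multiples of `mK m` (`eq_mono_of_wd`).
Some `b g ≠ 0` because `F` has full column rank (`Matrix.exists_submatrix_succ_det_ne_zero` style,
or: if all minors vanish, `minors_mul` with `R = ⊥`-like argument gives `det (Fᵀ G F) = 0`). Take
`g` with `deg (b g)` maximal among the nonzero ones, `B = F * (F.submatrix g id)⁻¹`; by Cramer
`B w j = b (Function.update g j w) / b g`. Lift `B`, `G` to `OO`, apply `res`: the residue of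
`det (Bᵀ G B)` is `det (βᵀ β) ≠ 0` because `β.submatrix g id = 1` makes `βᵀ β` positive definite. -/
theorem wedge {ι W : Type} [Fintype ι] [Fintype W] (F : Matrix W ι (KK Γ)) (G : Matrix W W (KK Γ))
    (U : Matrix ι ι (KK Γ)) (c : KK Γ) (hc : c ≠ 0)
    (hint : ∀ g : ι → W, c * (F.submatrix g id).det ∈ AA Γ)
    (hbar : F.map (bK Γ) = F * U)
    (hG : ∀ x y, Lt (G x y - if x = y then 1 else 0) 0)
    (h0 : (F.transpose * G * F).det ≠ 0)
    (hdeg : deg (F.transpose * G * F).det + deg U.det + wd c ≤ 0) :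
    ∃ (B : Matrix W ι ℚ) (g : ι → W), B.submatrix g id = 1 ∧
      F = B.map (fun r => (r : KK Γ)) * F.submatrix g id ∧ (F.submatrix g id).det ≠ 0 := by
  obtain ⟨d, hd⟩ : ∃ d : (ι → W) → KK Γ, ∀ g, d g = (F.submatrix g id).det := ⟨_, fun _ => rfl⟩
  have hne : (Finset.univ.filter fun g => d g ≠ 0).Nonempty := by
    by_contra hc
    apply h0
    rw [det_mul_expand]
    refine Finset.sum_eq_zero fun g _ => ?_
    rw [← hd, not_not.1 fun h => hc ⟨g, Finset.mem_filter.2 ⟨Finset.mem_univ _, h⟩⟩, mul_zero]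
  obtain ⟨g, hg, hm⟩ := Finset.exists_max_image _ (fun g => deg (d g)) hne
  have hg0 : d g ≠ 0 := (Finset.mem_filter.1 hg).2
  have hm' : ∀ k, d k ≠ 0 → deg (d k) ≤ deg (d g) := fun k hk =>
    hm k (Finset.mem_filter.2 ⟨Finset.mem_univ _, hk⟩)
  have hu : IsUnit (F.submatrix g id).det := by rw [← hd]; exact hg0.isUnit
  obtain ⟨B, hB⟩ : ∃ B : Matrix W ι (KK Γ), B = F * (F.submatrix g id)⁻¹ := ⟨_, rfl⟩
  have e1 : B * F.submatrix g id = F := by
    rw [hB, Matrix.mul_assoc, Matrix.nonsing_inv_mul _ hu, Matrix.mul_one]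
  have e2 : B.submatrix g id = 1 := by rw [hB, submat_mul, Matrix.mul_nonsing_inv _ hu]
  have e3 : ∀ w j, B w j = d (Function.update g j w) / d g := fun w j => by
    rw [eq_div_iff hg0, hd, hd, ← smul_eq_mul,
      ← Matrix.det_updateRow_sum (F.submatrix g id) j (B w)]
    congr 1
    ext i k
    by_cases hi : i = j
    · subst hi
      rw [Matrix.updateRow_self, Matrix.submatrix_apply, Function.update_self, id,
        ← congrFun (congrFun e1 w) k, Matrix.mul_apply, Finset.sum_apply]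
      rfl
    · rw [Matrix.updateRow_ne hi, Matrix.submatrix_apply, Matrix.submatrix_apply,
        Function.update_of_ne hi]
  have hO : OM B := fun w j => by
    rw [e3]
    rcases eq_or_ne (d (Function.update g j w)) 0 with h | h
    · rw [h, zero_div]; exact Le.zero _
    · refine le_iff.2 (Or.inr ?_)
      rw [div_eq_mul_inv, deg_mul h (inv_ne_zero hg0), deg_inv, ← sub_eq_add_neg, sub_nonpos]
      exact hm' _ h
  obtain ⟨k1, k2⟩ := gram_unit hO (g := g) (by
    rw [← rs_one (Γ := Γ), ← e2]; rfl) hG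
  obtain ⟨k3, k4, -⟩ := deg_eq_of k1 k2
  have e4 : deg (F.transpose * G * F).det = deg (d g) + deg (d g) := by
    have : F.transpose * G * F =
        (F.submatrix g id).transpose * (B.transpose * G * B) * F.submatrix g id := by
      conv_lhs => rw [← e1]
      simp only [Matrix.transpose_mul, Matrix.mul_assoc]
    rw [this, Matrix.det_mul, Matrix.det_mul, Matrix.det_transpose, ← hd,
      deg_mul (mul_ne_zero hg0 k3) hg0, deg_mul hg0 k3, k4, add_zero]
  have e5 : ∀ k, bK Γ (d k) = d k * U.det := fun k => by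
    rw [hd, RingHom.map_det, ← Matrix.det_mul, ← submat_mul, ← hbar]
    rfl
  have hU : U.det ≠ 0 := fun h => (map_ne_zero (bK Γ)).2 hg0 (by rw [e5, h, mul_zero])
  rw [e4] at hdeg
  have e6 : ∀ k, d k ≠ 0 → ∃ n : ℤ, c * d k = n * (mK (deg c + deg (d g)) : KK Γ) := fun k hk => by
    have hA : c * d k ∈ AA Γ := by rw [hd]; exact hint k
    have h1 : wd (c * d k) = wd c + (deg (d k) + (deg (d k) + deg U.det)) := by
      rw [wd_mul hc hk, ← deg_mul hk hU, ← e5]; rfl
    obtain ⟨h2, h3⟩ := deg_squeeze (hm' k hk) hdeg (h1 ▸ wd_nonneg hA)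
    obtain ⟨n, hn⟩ := eq_mono_of_wd hA (h1 ▸ h3)
    exact ⟨n, by rw [← h2, ← deg_mul hc hk]; exact hn⟩
  have e7 : ∀ w j, ∃ r : ℚ, B w j = r := fun w j => by
    rw [e3]
    rcases eq_or_ne (d (Function.update g j w)) 0 with h | h
    · exact ⟨0, by rw [h, zero_div, Rat.cast_zero]⟩
    · obtain ⟨n, hn⟩ := e6 _ h
      obtain ⟨m, hm⟩ := e6 _ hg0
      refine ⟨n / m, ?_⟩
      rw [← mul_div_mul_left _ _ hc, hn, hm, mul_div_mul_right _ _ (Units.ne_zero _)]
      push_cast
      rfl
  choose B0 hB0 using e7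
  have e8 : (Matrix.of B0).map (fun r => (r : KK Γ)) = B := by
    ext w j
    exact (hB0 w j).symm
  refine ⟨Matrix.of B0, g, ?_, by rw [e8, e1], hd g ▸ hg0⟩
  rw [← rs_rat (Γ := Γ) (Matrix.of B0), e8, ← rs_one (Γ := Γ), ← e2]
  rfl

/-- `P i i = ∑ j, P i j ^ 2` over the integers. -/
theorem diag01 {W : Type} [Fintype W] (P : Matrix W W ℚ) (hs : P.transpose = P) (hi : P * P = P)
    (hz : ∀ i j, ∃ n : ℤ, P i j = n) (i j : W) :
    P i j = 0 ∨ (i = j ∧ P i j = 1) := by
  have h1 : P i i = P i i * P i i + ∑ k ∈ Finset.univ.erase i, P i k * P i k := by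
    rw [Finset.add_sum_erase _ (fun k => P i k * P i k) (Finset.mem_univ i)]
    conv_lhs => rw [← hi, Matrix.mul_apply]
    exact Finset.sum_congr rfl fun k _ => by rw [← congrFun (congrFun hs i) k]; rfl
  obtain ⟨n, hn⟩ := hz i i
  have h2 : P i i ≤ P i i * P i i := by
    rw [hn]; exact_mod_cast Int.le_self_sq n |>.trans (sq n).le
  have h3 : 0 ≤ ∑ k ∈ Finset.univ.erase i, P i k * P i k :=
    Finset.sum_nonneg fun k _ => mul_self_nonneg _
  have h4 : ∑ k ∈ Finset.univ.erase i, P i k * P i k = 0 := by linarith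
  by_cases hij : i = j
  · subst hij
    rw [h4, add_zero] at h1
    rcases eq_or_ne (P i i) 0 with h | h
    · exact Or.inl h
    · exact Or.inr ⟨rfl, mul_left_cancel₀ h (by rw [mul_one]; exact h1.symm)⟩
  · rw [Finset.sum_eq_zero_iff_of_nonneg fun k _ => mul_self_nonneg _] at h4
    exact Or.inl (mul_self_eq_zero.1 (h4 j (Finset.mem_erase.2 ⟨Ne.symm hij, Finset.mem_univ _⟩)))

/-- `E = B (Bᵀ G B)⁻¹ Bᵀ G` has entries in `OO`; its residue `P` is symmetric, idempotent, integral,
`P B = B` and `P = B * _`. So `P` is diagonal, `Y = {w | P w w = 1}`, the rows of `B` outside `Y`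
vanish and each basis vector of index in `Y` is `B * (rational vector)`. -/
theorem coord_mat {ι W : Type} [Fintype ι] [Fintype W] (B : Matrix W ι ℚ) (g : ι → W)
    (hB : B.submatrix g id = 1) (G E : Matrix W W (KK Γ))
    (hG : ∀ x y, Lt (G x y - if x = y then 1 else 0) 0) (hGs : G.transpose = G)
    (hE : E.transpose * G = G * E) (hEB : E * B.map (fun r => (r : KK Γ)) = B.map fun r => (r : KK Γ))
    (hEi : ∃ N : Matrix ι W (KK Γ), E = B.map (fun r => (r : KK Γ)) * N)
    (hz : ∀ x y, E x y ∈ ZZ Γ) :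
    ∃ Y : Set W, (∀ w ∉ Y, ∀ i, B w i = 0) ∧
      ∀ w ∈ Y, ∃ r : ι → ℚ, B.mulVec r = Pi.single w 1 := by
  obtain ⟨N, hN⟩ := hEi
  obtain ⟨B', hB'⟩ : ∃ B' : Matrix W ι (KK Γ), B' = B.map fun r => (r : KK Γ) := ⟨_, rfl⟩
  rw [← hB'] at hEB hN
  have hO : OM B' := hB' ▸ om_rat B
  have hr : rsM B' = B := hB' ▸ rs_rat B
  obtain ⟨g1, g2⟩ := gram_res hG
  obtain ⟨k1, k2⟩ := gram_unit hO (g := g) (hr ▸ hB) hG
  obtain ⟨-, k3, k4⟩ := un_OO k1 k2
  have hH := (hO.tr.mul g1).mul hO
  have e1 : B'.transpose * G * B' * N = B'.transpose * G := by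
    rw [Matrix.mul_assoc, ← hN, Matrix.mul_assoc, ← hE, ← Matrix.mul_assoc,
      ← Matrix.transpose_mul, hEB]
  have hI : OM (B'.transpose * G * B')⁻¹ := fun i j => by
    rw [Matrix.inv_def, Ring.inverse_eq_inv', Matrix.smul_apply, smul_eq_mul,
      Matrix.adjugate_apply]
    refine (OO Γ).mul_mem k3 (det_mem (OO Γ) _ fun a b => ?_)
    rw [Matrix.updateRow_apply]
    split_ifs
    · rw [Pi.single_apply]
      split_ifs
      · exact (OO Γ).one_mem
      · exact (OO Γ).zero_mem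
    · exact hH a b
  have hON : OM N := by
    have : N = (B'.transpose * G * B')⁻¹ * (B'.transpose * G) := by
      nth_rewrite 2 [← e1]
      rw [← Matrix.mul_assoc, Matrix.nonsing_inv_mul _ k4.isUnit, Matrix.one_mul]
    rw [this]
    exact hI.mul (hO.tr.mul g1)
  have hOE : OM E := hN ▸ hO.mul hON
  have p1 : rsM E = B * rsM N := by rw [hN, rs_mul hO hON, hr]
  have p2 : rsM E * B = B := by rw [← hr, ← rs_mul hOE hO, hEB]
  have p3 : (rsM E).transpose = rsM E := by
    have := congrArg rsM hE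
    rwa [rs_mul hOE.tr g1, rs_mul g1 hOE, g2, Matrix.mul_one, Matrix.one_mul, rs_tr] at this
  have p4 : rsM E * rsM E = rsM E := by
    nth_rewrite 2 [p1]
    rw [← Matrix.mul_assoc, p2, p1]
  have p5 := diag01 (rsM E) p3 p4 fun i j => hz i j 0
  refine ⟨{w | rsM E w w = 1}, fun w hw i => ?_, fun w hw => ⟨fun i => rsM N i w, ?_⟩⟩
  · rw [← p2, Matrix.mul_apply]
    refine Finset.sum_eq_zero fun k _ => ?_
    rcases p5 w k with h | ⟨rfl, h⟩
    · rw [h, zero_mul]
    · exact absurd h hw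
  · ext x
    have : B.mulVec (fun i => rsM N i w) x = rsM E x w := by rw [p1]; rfl
    rw [this, Pi.single_apply]
    split_ifs with h
    · rw [h]; exact hw
    · exact (p5 x w).resolve_right fun k => h k.1

theorem sym_nil {W : Type} [Fintype W] (L : Matrix W W ℚ) (hs : L.transpose = L) (d : ℕ)
    (h : L ^ d = 0) : L = 0 := by
  induction d with
  | zero => rw [← mul_one L, ← pow_zero L, h, mul_zero]
  | succ d ih =>
    rcases d with _ | d
    · simpa using h
    · apply ih
      have h1 : L ^ (d + 1) * (L ^ (d + 1)).transpose = 0 := by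
        rw [Matrix.transpose_pow, hs, ← pow_add, show d + 1 + (d + 1) = d + 1 + 1 + d by ring,
          pow_add, h, zero_mul]
      ext i
      have h2 : (L ^ (d + 1)) i ⬝ᵥ (L ^ (d + 1)) i = 0 := congrFun (congrFun h1 i) i
      rw [dotProduct_self_eq_zero.1 h2]
      rfl

theorem om_pow {W : Type} [Fintype W] {Z : Matrix W W (KK Γ)} (h : OM Z) (k : ℕ) :
    OM (Z ^ k) ∧ rsM (Z ^ k) = rsM Z ^ k := by
  induction k with
  | zero => rw [pow_zero, pow_zero]; exact ⟨om_one, rs_one⟩
  | succ k ih => rw [pow_succ, pow_succ, rs_mul ih.1 h, ih.2]; exact ⟨ih.1.mul h, rfl⟩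

theorem rs_symm {W : Type} [Fintype W] {Z G : Matrix W W (KK Γ)}
    (hG : ∀ x y, Lt (G x y - if x = y then 1 else 0) 0) (hZ : Z.transpose * G = G * Z)
    (h : OM Z) : (rsM Z).transpose = rsM Z := by
  obtain ⟨g1, g2⟩ := gram_res hG
  have := congrArg rsM hZ
  rwa [rs_mul h.tr g1, rs_mul g1 h, g2, Matrix.mul_one, Matrix.one_mul, rs_tr] at this

/-- If some entry has positive degree, let `m` be the largest degree and `L` the rational matrix
of coefficients at `m`: `L` is symmetric, nonzero, and `L ^ natDegree f = 0` (top coefficient of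
`aeval Z f = 0`), impossible. -/
theorem sym_const {W : Type} [Fintype W] (Z G : Matrix W W (KK Γ))
    (hG : ∀ x y, Lt (G x y - if x = y then 1 else 0) 0) (hZ : Z.transpose * G = G * Z)
    (hA : ∀ x y, Z x y ∈ AA Γ) (hb : ∀ x y, bK Γ (Z x y) = Z x y) (f : Polynomial ℤ)
    (hf : f.Monic) (h0 : Polynomial.aeval Z f = 0) (x y : W) : Z x y = Z y x := by
  have hO : OM Z := by
    by_contra hc
    obtain ⟨a, b, hab⟩ : ∃ a b, ¬ Le (Z a b) 0 := by
      by_contra h1
      exact hc fun a b => not_not.1 fun h2 => h1 ⟨a, b, h2⟩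
    rw [le_iff, not_or, not_le] at hab
    obtain ⟨p, hp, hm⟩ := (Finset.univ.filter fun p : W × W => Z p.1 p.2 ≠ 0).exists_max_image
      (fun p => deg (Z p.1 p.2)) ⟨(a, b), Finset.mem_filter.2 ⟨Finset.mem_univ _, hab.1⟩⟩
    obtain ⟨m, hm0⟩ : ∃ m, m = deg (Z p.1 p.2) := ⟨_, rfl⟩
    rw [← hm0] at hm
    have h1 : 0 < m := hab.2.trans_le (hm (a, b) (Finset.mem_filter.2 ⟨Finset.mem_univ _, hab.1⟩))
    obtain ⟨t, ht⟩ : ∃ t : KK Γ, t = (mK (-m) : KK Γ) := ⟨_, rfl⟩
    have t1 : Le t (-m) := le_iff.2 (Or.inr (by rw [ht, deg_mK]))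
    have t2 : Lt t 0 := t1.lt (neg_lt_zero.2 h1)
    have t3 : ∀ k : ℕ, Lt (t ^ (k + 1)) 0 := fun k => by
      rw [pow_succ']
      simpa using t2.mul_le ((OO Γ).pow_mem t2.le k)
    have h2 : OM (t • Z) := fun i j => by
      have : Le (Z i j) m := by
        rcases eq_or_ne (Z i j) 0 with h | h
        · rw [h]; exact Le.zero _
        · exact le_iff.2 (Or.inr (hm (i, j) (Finset.mem_filter.2 ⟨Finset.mem_univ _, h⟩)))
      simpa using t1.mul this
    have h3 := rs_symm hG (Z := t • Z)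
      (by rw [Matrix.transpose_smul, Matrix.smul_mul, Matrix.mul_smul, hZ]) h2
    have h4 : (t • Z) ^ f.natDegree = -∑ i ∈ Finset.range f.natDegree,
        ((f.coeff i : KK Γ) * t ^ (f.natDegree - i)) • (t • Z) ^ i := by
      rw [Polynomial.aeval_eq_sum_range, Finset.sum_range_succ, hf.coeff_natDegree,
        add_comm, add_eq_zero_iff_eq_neg] at h0
      simp only [Algebra.smul_def, eq_intCast, Int.cast_one, one_mul] at h0
      simp only [← zsmul_eq_mul] at h0
      rw [smul_pow, h0, smul_neg, Finset.smul_sum]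
      congr 1
      refine Finset.sum_congr rfl fun i hi => ?_
      rw [smul_pow, smul_smul, mul_assoc, ← pow_add,
        Nat.sub_add_cancel (Finset.mem_range.1 hi).le, ← Int.cast_smul_eq_zsmul (KK Γ), smul_smul,
        mul_comm]
    have h5 : rsM (t • Z) ^ f.natDegree = 0 := by
      rw [← (om_pow h2 _).2, h4]
      ext i j
      refine Lt.neg (γ := 0) ?_ 0 le_rfl
      rw [Matrix.sum_apply]
      refine Lt.sum fun k hk => ?_
      obtain ⟨e, he⟩ : ∃ e, f.natDegree - k = e + 1 :=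
        ⟨f.natDegree - k - 1, by have := Finset.mem_range.1 hk; omega⟩
      rw [he]
      have := (Le.mul_lt (intCast_mem (OO Γ) (f.coeff k)) (t3 e)).mul_le ((om_pow h2 k).1 i j)
      simpa using this
    have h6 : co (t * Z p.1 p.2) 0 = 0 := congrFun (congrFun (sym_nil _ h3 _ h5) p.1) p.2
    rw [ht, co_mK_mul, zero_sub, neg_neg, hm0, co_deg] at h6
    exact lc_ne_zero (Finset.mem_filter.1 hp).2 h6
  have e : ∀ a b, Z a b = (rsM Z a b : KK Γ) := fun a b => by
    obtain ⟨n, hn⟩ := const_of_fix (hA a b) (hb a b) (hO a b)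
    show _ = ((co (Z a b) 0 : ℚ) : KK Γ)
    rw [hn, ← Rat.cast_intCast, co_rat, if_pos rfl]
  rw [e, e y, ← congrFun (congrFun (rs_symm hG hZ hO) x) y]
  rfl

end

end Pool.Agent.P.MP_1a0ecf_al.K
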