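import Pool.Agent.P.MP_1a0ecf_al.K.Gam
import Pool.Agent.P.MP_1a0ecf_al.K.Lin

/-! Package Fam: integral families and minors. -/

namespace Pool.Agent.P.MP_1a0ecf_al.K

open Sn
open scoped Classical

set_option linter.unusedSectionVars false

noncomputable section

variable {F H : Type} [Field F] [Ring H] [Algebra F H]


theorem fam_mem {lv : Bool} {k : ℕ} {U : List Box → Prop} {p : List Box × List Box} :
    p ∈ Ix lv k U ↔ (p.1.length = k ∧ Std lv p.1) ∧ (p.2.length = k ∧ Std lv p.2) ∧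
      p.1.Perm p.2 ∧ U p.1 := by
  rw [Ix, Finset.mem_filter, Finset.mem_product, mem_tabs, mem_tabs, and_assoc]

theorem fam_det {ι : Type} [Fintype ι] [de : DecidableEq ι] (lt : ι → ι → Prop)
    (tr : ∀ a b c, lt a b → lt b c → lt a c)
    (ir : ∀ a, ¬ lt a a) (g m : ι → H) (c : ι → F) (φ : ι → H →ₗ[F] F)
    (h : ∀ j, m j - c j • g j ∈ Submodule.span F (g '' {i | lt i j})) (R : Subring F)
    (hR : ∀ i j, φ i (m j) ∈ R) : (Matrix.of fun i j => φ i (g j)).det * ∏ j, c j ∈ R := by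
  obtain rfl : de = fun a b => Classical.propDecidable (a = b) := Subsingleton.elim _ _
  have h1 : ∀ j, ∃ d : ι → F, ∑ i with lt i j, d i • g i = m j - c j • g j := fun j =>
    (Submodule.mem_span_image_finset_iff_exists_fun' F).1 (by rw [Finset.coe_filter_univ]; exact h j)
  choose d hd using h1
  have e := det_tri (Matrix.of fun i j => (if i = j then c j else 0) + if lt i j then d j i else 0)
    lt tr ir fun i j h0 => by
      by_contra hc
      rw [not_or] at hc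
      exact h0 (by simp [hc.1, hc.2])
  simp only [Matrix.of_apply, if_true, ir, if_false, add_zero] at e
  rw [← e, ← Matrix.det_mul]
  refine det_mem R _ fun i j => ?_
  convert hR i j using 1
  rw [Matrix.mul_apply, eq_add_of_sub_eq' (hd j).symm, map_add, map_sum, Finset.sum_filter]
  simp only [Matrix.of_apply, mul_comm (φ i _), add_mul, Finset.sum_add_distrib, ite_mul, zero_mul,
    map_smul, Finset.sum_ite_eq', Finset.mem_univ, if_true, smul_eq_mul]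

namespace Tw

variable {t : Tw F H}

/-- For `(s, u)` in `Ix` let `m (s, u) = Tp (pth s) * y (bt s) * Tq (pth u) ∈ HR`, `y` from `HasY`.
Then `m j = ∑ i, M i j • g i` where `M` is triangular for the order `ω s < ω s'`, or `s'.Perm s` and
`inv s' + inv u' < inv s + inv u` (`Ok.Tp_E_Tq`; for `s' ≠ bt s` the term `Tp * E s' * Tq` is a
combination of the `g` of the shape of `s'`, `Ok.expand`), with diagonal `c (bt s)`. So
`det (φ (m j)) = mn * ∏ c (bt s)` (`det_tri`, `det_mem`); use `un_ga` and `ga_Nm`. -/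
theorem Lat.mn_mem {Γ : Type} [LinearOrder Γ] (Λ : Lat t) {o : Bool} {r : Box → Box → Prop}
    (h : Λ.H1 o r) {k : ℕ} (hk : k ≤ t.n) {ω : List Box → Γ} (hy : Λ.HasY o k ω)
    {U : List Box → Prop} (hU : Up ω U) {φ : List Box × List Box → H →ₗ[F] F}
    (hφ : ∀ i, ∀ a ∈ Λ.HR, φ i a ∈ Λ.R) : t.cf r o k U * t.mn o k U φ ∈ Λ.R := by
  have hb : ∀ j : Ix t.lv k U, bt t.lv o j.1.1 ∈ tabs t.lv k := fun j => by
    obtain ⟨a, -⟩ := fam_mem.1 j.2
    exact mem_tabs.2 ⟨(bt_perm o a.2).length_eq.trans a.1, (bt_spec o a.2).1⟩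
  choose c c1 c2 c3 using fun j : Ix t.lv k U =>
    hy _ (hb j) (bt_spec o (fam_mem.1 j.2).1.2).2.1
  have e := fam_det (fun i j : Ix t.lv k U => ω j.1.1 < ω i.1.1 ∨ (ω i.1.1 = ω j.1.1 ∧
      inv o i.1.1 + inv o i.1.2 < inv o j.1.1 + inv o j.1.2))
    (fun a b c h1 h2 => by
      rcases h1 with h1 | h1 <;> rcases h2 with h2 | h2
      exacts [Or.inl (h2.trans h1), Or.inl (h2.1 ▸ h1), Or.inl (h1.1 ▸ h2),
        Or.inr ⟨h1.1.trans h2.1, h1.2.trans h2.2⟩])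
    (fun a h1 => h1.elim (lt_irrefl _) fun h2 => lt_irrefl _ h2.2)
    (fun i => t.g o i.1.1 i.1.2)
    (fun j => t.dat.Tp (pth t.lv o j.1.1) * (∑ s ∈ tabs t.lv k, c j s • t.E s) *
      t.dat.Tq (pth t.lv o j.1.2))
    (fun j => c j (bt t.lv o j.1.1)) (fun i => φ i.1) (fun j => by
      obtain ⟨a1, a2, a3, a4⟩ := fam_mem.1 j.2
      rw [Finset.mul_sum, Finset.sum_mul, ← Finset.add_sum_erase _ _ (hb j), add_sub_right_comm,
        mul_smul_comm, smul_mul_assoc, ← smul_sub]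
      refine add_mem (Submodule.smul_mem _ _ (Submodule.span_mono ?_
        (t.ok.Tp_E_Tq o t.flo a1.2 a2.2 a3 (a1.1.trans_le hk)))) (Submodule.sum_mem _ fun s hs => ?_)
      · rintro _ ⟨u, v, b1, b2, b3, b4, b5, rfl⟩
        exact ⟨⟨(u, v), fam_mem.2 ⟨⟨b3.length_eq.trans a1.1, b1⟩, ⟨b4.length_eq.trans a1.1, b2⟩,
          b3.trans b4.symm, hU.perm _ _ b3.symm a4⟩⟩, Or.inr ⟨hU.om _ _ b3, b5⟩, rfl⟩
      obtain ⟨s1, s2⟩ := Finset.mem_erase.1 hs
      by_cases h0 : c j s = 0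
      · simp [h0]
      have s3 : ω j.1.1 < ω s :=
        hU.om _ _ (bt_perm o a1.2) ▸ (c2 j s s2 h0).resolve_left s1
      have s4 := (mem_tabs.1 s2).1
      have m1 := t.ok.Tp_mem (bt_spec o a1.2).2.2 (mem_tabs.1 (hb j)).1.le
      have m2 := t.ok.Tq_mem (bt_spec o a2.2).2.2 ((bt_perm o a2.2).length_eq.trans a2.1).le
      rw [mul_smul_comm, smul_mul_assoc]
      refine Submodule.smul_mem _ _ ?_
      obtain ⟨d, d1, d2⟩ := t.ok.expand o hk (mul_mem (mul_mem m1 (t.ok.E_mem s4.le)) m2)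
      rw [d2]
      refine Submodule.sum_mem _ fun v hv => Submodule.sum_mem _ fun w hw => ?_
      obtain ⟨w1, w2⟩ := Finset.mem_filter.1 hw
      have v1 := mem_tabs.1 hv
      by_cases p : v.Perm s
      · have q : ω j.1.1 < ω v := hU.om _ _ p ▸ s3
        exact Submodule.smul_mem _ _ (Submodule.subset_span ⟨⟨(v, w), fam_mem.2 ⟨v1, mem_tabs.1 w1,
          w2, hU.up _ _ (a1.1.trans v1.1.symm) q a4⟩⟩, Or.inl q, rfl⟩)
      · rw [← d1 v hv w w1 w2, ← mul_assoc, ← mul_assoc, (t.ok.s2 hk m1 v1.1 s4).1 p, zero_mul,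
          zero_mul]
        exact zero_mem _) Λ.R fun i j =>
      hφ _ _ (mul_mem (mul_mem (Dat.Tp_mem Λ.hT _) (c1 j)) (Dat.Tq_mem Λ.hT _))
  have u : ∀ j : Ix t.lv k U, t.ga r j.1.1 / t.Nm o j.1.1 =
      t.ga r j.1.1 / t.ga (fun x z => Fst o z x) j.1.1 *
        (c j (bt t.lv o j.1.1) / t.ga (fun x z => Fst o z x) (bt t.lv o j.1.1))⁻¹ *
          c j (bt t.lv o j.1.1) := fun j => by
    have a := (fam_mem.1 j.2).1.2
    have b := div_ne_zero_iff.1 (c3 j).2.2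
    have d : t.Nm o j.1.1 ≠ 0 := t.ok.Nm_ne o a
    rw [t.ga_Nm o a]
    field_simp [b.1, b.2]
  rw [cf, ← Finset.prod_coe_sort, Finset.prod_congr rfl fun j _ => u j, Finset.prod_mul_distrib,
    mul_assoc, mul_comm _ (t.mn o k U φ)]
  exact mul_mem (Un.prod fun j _ => (Λ.un_ga h (fam_mem.1 j.2).1.2).mul (c3 j).inv).1 e

/-- `g o' s u = μ s u • g o s u` (`Ok.EaE`), `μ ^ 2 * Nm o s * Nm o u = Nm o' s * Nm o' u` (`gram`),
so the product of the `μ s u * Nm o s / Nm o' s` over `Ix` has square one (swap `s` and `u`). -/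
theorem mn_flip (t : Tw F H) (r : Box → Box → Prop) (o o' : Bool) {k : ℕ} (hk : k ≤ t.n)
    {U : List Box → Prop} (hU : ∀ s u : List Box, s.Perm u → U s → U u) :
    ∃ ε : F, (ε = 1 ∨ ε = -1) ∧ ∀ φ : List Box × List Box → H →ₗ[F] F,
      t.cf r o' k U * t.mn o' k U φ = ε * (t.cf r o k U * t.mn o k U φ) := by
  have h1 : ∀ j : Ix t.lv k U, ∃ μ : F, t.g o' j.1.1 j.1.2 = μ • t.g o j.1.1 j.1.2 := fun j => by
    obtain ⟨a1, a2, a3, -⟩ := fam_mem.1 j.2
    have := t.ok.EaE o hk (t.ok.g_mem o' a1.2 a2.2 a1.1.le a2.1.le) a1.2 a2.2 a1.1 a3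
    rwa [t.ok.E_g o' a1.2, t.ok.g_E o' _ a2.2] at this
  choose μ hμ using h1
  have n1 : ∀ o (j : Ix t.lv k U), t.Nm o j.1.1 ≠ 0 := fun o j => t.ok.Nm_ne o (fam_mem.1 j.2).1.2
  have n2 : ∀ o (j : Ix t.lv k U), t.Nm o j.1.2 ≠ 0 := fun o j => t.ok.Nm_ne o (fam_mem.1 j.2).2.1.2
  have h2 : ∀ j : Ix t.lv k U, (μ j * (t.Nm o j.1.1 / t.Nm o' j.1.1)) ^ 2 *
      (t.Nm o j.1.2 / t.Nm o' j.1.2) = t.Nm o j.1.1 / t.Nm o' j.1.1 := fun j => by
    obtain ⟨a1, -⟩ := fam_mem.1 j.2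
    have b := t.gram o' hk j j
    rw [hμ, map_smul, smul_mul_assoc, mul_smul_comm, map_smul, map_smul, t.gram o hk j j,
      if_pos rfl, if_pos rfl, smul_eq_mul, smul_eq_mul, ← mul_assoc, ← mul_assoc] at b
    have c := mul_right_cancel₀ (t.tau_E_ne a1.2 (a1.1.trans_le hk)) b
    have := n1 o' j
    have := n2 o' j
    field_simp
    linear_combination t.Nm o j.1.1 * c
  have h3 : ∏ j : Ix t.lv k U, t.Nm o j.1.2 / t.Nm o' j.1.2 =
      ∏ j : Ix t.lv k U, t.Nm o j.1.1 / t.Nm o' j.1.1 := by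
    rw [Finset.prod_coe_sort (Ix t.lv k U) fun p => t.Nm o p.2 / t.Nm o' p.2,
      Finset.prod_coe_sort (Ix t.lv k U) fun p => t.Nm o p.1 / t.Nm o' p.1]
    refine Finset.prod_equiv (Equiv.prodComm _ _) (fun p => ?_) fun _ _ => rfl
    rw [fam_mem, fam_mem]
    exact ⟨fun a => ⟨a.2.1, a.1, a.2.2.1.symm, hU _ _ a.2.2.1 a.2.2.2⟩,
      fun a => ⟨a.2.1, a.1, a.2.2.1.symm, hU _ _ a.2.2.1 a.2.2.2⟩⟩
  refine ⟨∏ j, μ j * (t.Nm o j.1.1 / t.Nm o' j.1.1), sq_eq_one_iff.1 ?_, fun φ => ?_⟩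
  · have e := Finset.prod_congr (rfl : (Finset.univ : Finset (Ix t.lv k U)) = _) fun j _ => h2 j
    rw [Finset.prod_mul_distrib, h3, Finset.prod_pow] at e
    exact (mul_eq_right₀ (Finset.prod_ne_zero_iff.2 fun j _ => div_ne_zero (n1 o j) (n1 o' j))).1 e
  · have e : t.mn o' k U φ = (∏ j, μ j) * t.mn o k U φ := by
      rw [mn, mn, ← Matrix.det_mul_row]
      simp only [hμ, map_smul, smul_eq_mul, Matrix.of_apply]
    rw [e, cf, cf, ← Finset.prod_coe_sort, ← Finset.prod_coe_sort (Ix t.lv k U), ← mul_assoc,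
      ← mul_assoc, ← Finset.prod_mul_distrib, ← Finset.prod_mul_distrib]
    congr 1
    refine Finset.prod_congr rfl fun j _ => ?_
    have := n1 o j
    have := n1 o' j
    field_simp

end Tw

end

end Pool.Agent.P.MP_1a0ecf_al.K
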