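import Pool.Agent.P.MP_1a0ecf_al.K.V1

/-! Package V2: the bar involution, widths, integral expansions, specialisation. -/

namespace Pool.Agent.P.MP_1a0ecf_al.K

open scoped Classical

set_option linter.unusedSectionVars false

noncomputable section

variable {Γ : Type} [AddCommGroup Γ] [LinearOrder Γ] [IsOrderedAddMonoid Γ]


theorem bA_single (γ : Γ) (n : ℤ) :
    bA Γ (AddMonoidAlgebra.single γ n) = AddMonoidAlgebra.single (-γ) n :=
  AddMonoidAlgebra.mapDomain_single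

theorem bA_coeff (a : GA Γ) (γ : Γ) : (bA Γ a).coeff γ = a.coeff (-γ) := by
  induction a using AddMonoidAlgebra.induction_linear with
  | zero => simp
  | add a b ha hb => simp [ha, hb]
  | single δ n =>
    rw [bA_single, AddMonoidAlgebra.coeff_single, AddMonoidAlgebra.coeff_single,
      Finsupp.single_apply, Finsupp.single_apply]
    simp only [neg_eq_iff_eq_neg]

theorem bA_bA (a : GA Γ) : bA Γ (bA Γ a) = a :=
  AddMonoidAlgebra.coeff_injective (Finsupp.ext fun γ => by rw [bA_coeff, bA_coeff, neg_neg])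

theorem bK_alg (a : GA Γ) :
    bK Γ (algebraMap (GA Γ) (KK Γ) a) = algebraMap (GA Γ) (KK Γ) (bA Γ a) := IsFractionRing.lift_algebraMap _ a

theorem bK_bK (x : KK Γ) : bK Γ (bK Γ x) = x := by
  have : (bK Γ).comp (bK Γ) = RingHom.id _ :=
    IsLocalization.ringHom_ext (nonZeroDivisors (GA Γ)) (RingHom.ext fun a => by
      simp only [RingHom.comp_apply, RingHom.id_apply, bK_alg, bA_bA])
  exact RingHom.congr_fun this x

theorem bK_mK (γ : Γ) : bK Γ (mK γ : KK Γ) = (mK (-γ) : KK Γ) := by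
  change bK Γ (algebraMap (GA Γ) (KK Γ) _) = algebraMap (GA Γ) (KK Γ) _
  rw [bK_alg, bA_single]

theorem bK_mem {x : KK Γ} (h : x ∈ AA Γ) : bK Γ x ∈ AA Γ := by
  obtain ⟨a, rfl⟩ := h
  exact ⟨_, (bK_alg a).symm⟩

theorem co_bK {x : KK Γ} (h : x ∈ AA Γ) (γ : Γ) : co (bK Γ x) γ = co x (-γ) := by
  obtain ⟨a, rfl⟩ := h
  rw [bK_alg, co_alg, co_alg, bA_coeff]

theorem wd_mul {x y : KK Γ} (hx : x ≠ 0) (hy : y ≠ 0) : wd (x * y) = wd x + wd y := by
  rw [wd, wd, wd, map_mul, deg_mul hx hy, deg_mul ((map_ne_zero _).2 hx) ((map_ne_zero _).2 hy)]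
  abel

theorem wd_inv (x : KK Γ) : wd x⁻¹ = -wd x := by
  rw [wd, wd, map_inv₀, deg_inv, deg_inv, neg_add]

theorem wd_neg (x : KK Γ) : wd (-x) = wd x := by
  rw [wd, wd, map_neg, deg_neg, deg_neg]

theorem wd_mK (γ : Γ) : wd (mK γ : KK Γ) = 0 := by
  rw [wd, bK_mK, deg_mK, deg_mK, add_neg_cancel]

theorem wd_rat (r : ℚ) : wd (r : KK Γ) = 0 := by
  rw [wd, map_ratCast, deg_rat, add_zero]

theorem wd_zpow (x : KK Γ) (k : ℤ) : wd (x ^ k) = k • wd x := by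
  rw [wd, wd, map_zpow₀, deg_zpow, deg_zpow, smul_add]

theorem wd_prod {ι : Type} (s : Finset ι) (f : ι → KK Γ) (h : ∀ i ∈ s, f i ≠ 0) :
    wd (∏ i ∈ s, f i) = ∑ i ∈ s, wd (f i) := by
  rw [wd, map_prod, deg_prod s f h, deg_prod s _ fun i hi => (map_ne_zero _).2 (h i hi),
    ← Finset.sum_add_distrib]
  rfl

theorem le_of_co {x : KK Γ} {δ : Γ} (h : co x δ ≠ 0) : δ ≤ deg x :=
  not_lt.1 fun h' => h (le_deg x δ h')

theorem co_int (n : ℤ) (γ : Γ) : co (n : KK Γ) γ = if γ = 0 then (n : ℚ) else 0 := by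
  rw [← co_rat, Rat.cast_intCast]

theorem co_int_mul (n : ℤ) (x : KK Γ) (γ : Γ) : co ((n : KK Γ) * x) γ = n * co x γ := by
  rw [← co_rat_mul, Rat.cast_intCast]

theorem wd_nonneg {x : KK Γ} (h : x ∈ AA Γ) : 0 ≤ wd x := by
  rcases eq_or_ne x 0 with rfl | h0
  · rw [wd, map_zero, deg_zero, add_zero]
  · have h1 : co (bK Γ x) (-deg x) ≠ 0 := by
      rw [co_bK h, neg_neg, co_deg]
      exact lc_ne_zero h0
    exact neg_le_iff_add_nonneg'.1 (le_of_co h1)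

/-- `co x (deg x) ≠ 0`, and `co x δ ≠ 0` gives `-deg (bK x) ≤ δ ≤ deg x`. -/
theorem eq_mono_of_wd {x : KK Γ} (h : x ∈ AA Γ) (h' : wd x ≤ 0) :
    ∃ n : ℤ, x = (n : KK Γ) * (mK (deg x) : KK Γ) := by
  obtain ⟨a, ha⟩ := id h
  refine ⟨a.coeff (deg x), co_ext fun γ => ?_⟩
  rw [co_int_mul, co_mK]
  split_ifs with e
  · rw [mul_one, e, ← co_alg, ha]
  · rw [mul_zero]
    by_contra h1
    have h2 : co (bK Γ x) (-γ) ≠ 0 := by rwa [co_bK h, neg_neg]
    have h3 : deg x + -γ ≤ 0 := (add_le_add le_rfl (le_of_co h2)).trans h'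
    exact e (le_antisymm (le_of_co h1) (add_neg_nonpos_iff.1 h3))

theorem eq_zero_of_fix {x : KK Γ} (h : x ∈ AA Γ) (hb : bK Γ x = x) (h' : Lt x 0) : x = 0 := by
  refine co_ext fun γ => ?_
  rw [co_zero]
  rcases le_total 0 γ with h1 | h1
  · exact h' γ h1
  · rw [← hb, co_bK h]
    exact h' _ (neg_nonneg.2 h1)

theorem const_of_fix {x : KK Γ} (h : x ∈ AA Γ) (hb : bK Γ x = x) (h' : Le x 0) :
    ∃ n : ℤ, x = n := by
  obtain ⟨a, ha⟩ := id h
  refine ⟨a.coeff 0, co_ext fun γ => ?_⟩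
  rw [co_int]
  split_ifs with e
  · rw [e, ← co_alg, ha]
  · rcases lt_or_gt_of_ne e with h1 | h1
    · rw [← hb, co_bK h]
      exact h' _ (neg_pos.2 h1)
    · exact h' γ h1

theorem binom0 {γ δ : Γ} (h : δ < γ) {r : ℚ} (hr : r ≠ 0) (r' : ℚ) :
    (r : KK Γ) * (mK γ : KK Γ) - (r' : KK Γ) * (mK δ : KK Γ) ≠ 0 ∧
      deg ((r : KK Γ) * (mK γ : KK Γ) - (r' : KK Γ) * (mK δ : KK Γ)) = γ ∧
      lc ((r : KK Γ) * (mK γ : KK Γ) - (r' : KK Γ) * (mK δ : KK Γ)) = r := by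
  have h1 : co ((r : KK Γ) * (mK γ : KK Γ) - (r' : KK Γ) * (mK δ : KK Γ)) γ = r := by
    rw [co_sub, co_rat_mul, co_rat_mul, co_mK, co_mK, if_pos rfl, if_neg h.ne']
    ring
  have h2 : Le ((r : KK Γ) * (mK γ : KK Γ) - (r' : KK Γ) * (mK δ : KK Γ)) γ := fun η hη => by
    rw [co_sub, co_rat_mul, co_rat_mul, co_mK, co_mK, if_neg hη.ne', if_neg (h.trans hη).ne']
    ring
  have h3 := deg_eq_of h2 (by rwa [h1])
  rwa [h1] at h3

/-- degree, leading coefficient and width of a difference of signed monomials -/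
theorem binom {γ δ : Γ} (h : δ < γ) {ε ε' : KK Γ} (hε : ε = 1 ∨ ε = -1) (hε' : ε' = 1 ∨ ε' = -1) :
    ε * (mK γ : KK Γ) - ε' * (mK δ : KK Γ) ≠ 0 ∧ deg (ε * (mK γ : KK Γ) - ε' * (mK δ : KK Γ)) = γ ∧
      (lc (ε * (mK γ : KK Γ) - ε' * (mK δ : KK Γ)) = 1 ∨ lc (ε * (mK γ : KK Γ) - ε' * (mK δ : KK Γ)) = -1) ∧
      wd (ε * (mK γ : KK Γ) - ε' * (mK δ : KK Γ)) = γ - δ := by
  have hs : ∀ e : KK Γ, e = 1 ∨ e = -1 → ∃ r : ℚ, (r = 1 ∨ r = -1) ∧ e = r := by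
    rintro _ (rfl | rfl)
    · exact ⟨1, Or.inl rfl, by simp⟩
    · exact ⟨-1, Or.inr rfl, by simp⟩
  obtain ⟨r, hr, rfl⟩ := hs ε hε
  obtain ⟨r', hr', rfl⟩ := hs ε' hε'
  have h0 : r ≠ 0 := by rcases hr with rfl | rfl <;> norm_num
  have h0' : r' ≠ 0 := by rcases hr' with rfl | rfl <;> norm_num
  obtain ⟨h1, h2, h3⟩ := binom0 h h0 r'
  refine ⟨h1, h2, by rwa [h3], ?_⟩
  rw [wd, h2, map_sub, map_mul, map_mul, map_ratCast, map_ratCast, bK_mK, bK_mK, ← neg_sub, deg_neg,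
    (binom0 (neg_lt_neg h) h0' r).2.1, sub_eq_add_neg]

/-- Hint: `IsZ x` iff `hK x` is the image of a Hahn series over `ℤ` (`HahnSeries.map`); or use
`HahnSeries.coeff_mul` (a finite sum). -/
theorem IsZ.mul {x y : KK Γ} (h : IsZ x) (h' : IsZ y) : IsZ (x * y) := by
  intro γ
  have : co (x * y) γ ∈ (Int.castRingHom ℚ).range := by
    rw [co, map_mul, HahnSeries.coeff_mul]
    refine Subring.sum_mem _ fun p _ => Subring.mul_mem _ ?_ ?_
    · obtain ⟨n, hn⟩ := h (-p.1)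
      rw [co, neg_neg] at hn
      exact ⟨n, hn.symm⟩
    · obtain ⟨n, hn⟩ := h' (-p.2)
      rw [co, neg_neg] at hn
      exact ⟨n, hn.symm⟩
  obtain ⟨n, hn⟩ := this
  exact ⟨n, hn.symm⟩

variable (Γ) in
/-- elements whose expansion has integer coefficients -/
def ZZ : Subring (KK Γ) where
  carrier := {x | IsZ x}
  mul_mem' ha hb := IsZ.mul ha hb
  one_mem' γ := ⟨if γ = 0 then 1 else 0, by
    have := co_rat (Γ := Γ) 1 γ
    rw [Rat.cast_one] at this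
    rw [this]; split_ifs <;> simp⟩
  add_mem' ha hb γ := by
    obtain ⟨m, hm⟩ := ha γ
    obtain ⟨n, hn⟩ := hb γ
    exact ⟨m + n, by rw [co_add, hm, hn, Int.cast_add]⟩
  zero_mem' γ := ⟨0, by rw [co_zero, Int.cast_zero]⟩
  neg_mem' ha γ := by
    obtain ⟨m, hm⟩ := ha γ
    exact ⟨-m, by rw [co_neg, hm, Int.cast_neg]⟩

theorem AA_le_ZZ : AA Γ ≤ ZZ Γ := by
  rintro _ ⟨a, rfl⟩ γ
  exact ⟨_, co_alg a γ⟩

/-- Hint: `HahnSeries.isUnit_iff` over `ℤ`. -/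
theorem un_ZZ {x : KK Γ} (h : x ∈ ZZ Γ) (h' : lc x = 1 ∨ lc x = -1) : Un (ZZ Γ) x := by
  have h0 : x ≠ 0 := by
    rintro rfl
    rw [← co_deg, co_zero] at h'
    norm_num at h'
  refine ⟨h, ?_, h0⟩
  let ι : ℤ →ₙ+* ℚ := Int.castRingHom ℚ
  let z : HahnSeries Γ ℤ := (hK Γ x).map (⟨Rat.num, rfl⟩ : ZeroHom ℚ ℤ)
  have hz : ∀ γ, (z.coeff γ : ℚ) = (hK Γ x).coeff γ := fun γ => by
    obtain ⟨n, hn⟩ := h (-γ)
    rw [co, neg_neg] at hn
    change (((hK Γ x).coeff γ).num : ℚ) = _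
    rw [hn, Rat.num_intCast]
  have hm : z.map ι = hK Γ x := HahnSeries.ext (funext hz)
  have hx0 : hK Γ x ≠ 0 := (map_ne_zero _).2 h0
  have hz0 : z ≠ 0 := fun e => hx0 (by rw [← hm, e]; ext; simp)
  have ho : z.order = (hK Γ x).order := by
    refine le_antisymm (HahnSeries.order_le_of_coeff_ne_zero fun e => ?_)
      (HahnSeries.order_le_of_coeff_ne_zero fun e => ?_)
    · exact HahnSeries.coeff_order_eq_zero.not.2 hx0 (by rw [← hz, e, Int.cast_zero])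
    · exact HahnSeries.coeff_order_eq_zero.not.2 hz0 (by rw [← hz] at e; exact_mod_cast e)
  have hl : (z.leadingCoeff : ℚ) = lc x := by
    rw [lc, HahnSeries.leadingCoeff_eq, HahnSeries.leadingCoeff_eq, hz, ho]
  have hu : IsUnit z := by
    rw [HahnSeries.isUnit_iff, Int.isUnit_iff]
    rw [← hl] at h'
    exact_mod_cast h'
  obtain ⟨w, hw⟩ := hu.exists_right_inv
  have h1 : hK Γ x * w.map ι = 1 := by
    rw [← hm, ← HahnSeries.map_mul, hw]
    ext γ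
    simp only [HahnSeries.map_coeff, HahnSeries.coeff_one]
    split_ifs
    · exact Int.cast_one
    · exact Int.cast_zero
  intro γ
  rw [co, map_inv₀, ← eq_inv_of_mul_eq_one_right h1]
  exact ⟨w.coeff (-γ), rfl⟩

theorem exists_den {ι : Type} [Finite ι] (f : ι → KK Γ) :
    ∃ c ∈ AA Γ, c ≠ 0 ∧ ∀ i, c * f i ∈ AA Γ := by
  obtain ⟨b, hb⟩ := IsLocalization.exist_integer_multiples_of_finite (nonZeroDivisors (GA Γ)) f
  refine ⟨algebraMap (GA Γ) (KK Γ) b, ⟨_, rfl⟩,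
    IsFractionRing.to_map_ne_zero_of_mem_nonZeroDivisors b.2, fun i => ?_⟩
  obtain ⟨a, ha⟩ := hb i
  exact ⟨a, by rw [ha, Algebra.smul_def]⟩

theorem co_half (x : KK Γ) (γ : Γ) : co (x / 2) γ = co x γ / 2 := by
  rw [show x / 2 = ((1 / 2 : ℚ) : KK Γ) * x by push_cast; ring, co_rat_mul]
  ring

theorem half_mem {x : KK Γ} (h : x ∈ AA Γ) (h' : x / 2 ∈ ZZ Γ) : x / 2 ∈ AA Γ := by
  obtain ⟨a, rfl⟩ := h
  refine ⟨AddMonoidAlgebra.ofCoeff (Finsupp.mapRange (fun n : ℤ => n / 2) rfl a.coeff),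
    co_ext fun γ => ?_⟩
  obtain ⟨m, hm⟩ := h' γ
  rw [co_alg, hm]
  rw [co_half, co_alg, div_eq_iff two_ne_zero] at hm
  have h1 : a.coeff γ = m * 2 := by exact_mod_cast hm
  simp [h1]

/-- Clear denominators, then divide by two as long as all coefficients are even (induction on the
absolute value of one nonzero coefficient). -/
theorem exists_odd {ι : Type} [Finite ι] (f : ι → KK Γ) (h : ∃ i, f i ≠ 0) :
    ∃ c : KK Γ, (∀ i, c * f i ∈ AA Γ) ∧ ∃ i, c * f i / 2 ∉ ZZ Γ := by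
  obtain ⟨i₀, h0⟩ := h
  have key : ∀ (N : ℕ) (c : KK Γ) (γ : Γ), (∀ i, c * f i ∈ AA Γ) → co (c * f i₀) γ ≠ 0 →
      |co (c * f i₀) γ| < N → ∃ c : KK Γ, (∀ i, c * f i ∈ AA Γ) ∧ ∃ i, c * f i / 2 ∉ ZZ Γ := by
    intro N
    induction N with
    | zero => exact fun c γ _ _ h => absurd h (by simp)
    | succ N ih =>
      intro c γ h1 h2 h3
      by_cases h4 : ∀ i, c * f i / 2 ∈ ZZ Γ
      · have e : ∀ i, c / 2 * f i = c * f i / 2 := fun i => by ring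
        refine ih (c / 2) γ (fun i => e i ▸ half_mem (h1 i) (h4 i)) ?_ ?_
        · rw [e, co_half]
          exact div_ne_zero h2 two_ne_zero
        · obtain ⟨m, hm⟩ := h4 i₀ γ
          rw [e, hm]
          rw [co_half, div_eq_iff two_ne_zero] at hm
          rw [hm] at h2 h3
          have h5 : m ≠ 0 := by
            rintro rfl
            simp at h2
          have h6 : (1 : ℚ) ≤ |(m : ℚ)| := by exact_mod_cast Int.one_le_abs h5
          rw [abs_mul, abs_two, Nat.cast_succ] at h3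
          linarith
      · exact ⟨c, h1, not_forall.1 h4⟩
  obtain ⟨c, -, hc, h1⟩ := exists_den f
  obtain ⟨N, hN⟩ := exists_nat_gt |co (c * f i₀) (deg (c * f i₀))|
  exact key N c _ h1 (by rw [co_deg]; exact lc_ne_zero (mul_ne_zero hc h0)) hN

theorem sp_alg (a : GA Γ) : sp (algebraMap (GA Γ) (KK Γ) a) = spA a := by
  have h : algebraMap (GA Γ) (KK Γ) a ∈ AA Γ := ⟨a, rfl⟩
  rw [sp, dif_pos h, IsFractionRing.injective (GA Γ) (KK Γ) h.choose_spec]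

theorem spA_eq (a : GA Γ) : spA a = a.coeff.sum fun _ n => (n : ℂ) := by
  simp [spA, AddMonoidAlgebra.lift_apply]

theorem sp_zero : sp (0 : KK Γ) = 0 := by
  simpa using sp_alg (0 : GA Γ)

theorem sp_one : sp (1 : KK Γ) = 1 := by
  simpa using sp_alg (1 : GA Γ)

theorem sp_int (n : ℤ) : sp (n : KK Γ) = n := by
  simpa using sp_alg (n : GA Γ)

theorem sp_mK (γ : Γ) : sp (mK γ : KK Γ) = 1 := by
  refine (sp_alg _).trans ?_
  simp [spA]

theorem sp_add {x y : KK Γ} (hx : x ∈ AA Γ) (hy : y ∈ AA Γ) : sp (x + y) = sp x + sp y := by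
  obtain ⟨a, rfl⟩ := hx
  obtain ⟨b, rfl⟩ := hy
  rw [← map_add, sp_alg, sp_alg, sp_alg, map_add]

theorem sp_sub {x y : KK Γ} (hx : x ∈ AA Γ) (hy : y ∈ AA Γ) : sp (x - y) = sp x - sp y := by
  obtain ⟨a, rfl⟩ := hx
  obtain ⟨b, rfl⟩ := hy
  rw [← map_sub, sp_alg, sp_alg, sp_alg, map_sub]

theorem sp_mul {x y : KK Γ} (hx : x ∈ AA Γ) (hy : y ∈ AA Γ) : sp (x * y) = sp x * sp y := by
  obtain ⟨a, rfl⟩ := hx
  obtain ⟨b, rfl⟩ := hy
  rw [← map_mul, sp_alg, sp_alg, sp_alg, map_mul]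

theorem sp_sum {ι : Type} (s : Finset ι) (f : ι → KK Γ) (h : ∀ i ∈ s, f i ∈ AA Γ) :
    sp (∑ i ∈ s, f i) = ∑ i ∈ s, sp (f i) := by
  induction s using Finset.induction_on with
  | empty => simp [sp_zero]
  | insert i s hi ih =>
    rw [Finset.sum_insert hi, Finset.sum_insert hi, sp_add (h i (Finset.mem_insert_self _ _))
      (Subring.sum_mem _ fun j hj => h j (Finset.mem_insert_of_mem hj)),
      ih fun j hj => h j (Finset.mem_insert_of_mem hj)]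

section Units

variable {F : Type} [Field F] {R : Subring F}

theorem Un.one : Un R 1 := ⟨R.one_mem, by rw [inv_one]; exact R.one_mem, one_ne_zero⟩

theorem Un.mul {x y : F} (h : Un R x) (h' : Un R y) : Un R (x * y) :=   ⟨R.mul_mem h.1 h'.1, by rw [mul_inv]; exact R.mul_mem h.2.1 h'.2.1, mul_ne_zero h.2.2 h'.2.2⟩

theorem Un.inv {x : F} (h : Un R x) : Un R x⁻¹ := ⟨h.2.1, by rw [inv_inv]; exact h.1, inv_ne_zero h.2.2⟩

theorem Un.neg {x : F} (h : Un R x) : Un R (-x) := ⟨R.neg_mem h.1, by rw [inv_neg]; exact R.neg_mem h.2.1, neg_ne_zero.2 h.2.2⟩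

theorem Un.zpow {x : F} (h : Un R x) (k : ℤ) : Un R (x ^ k) := by
  have hp : ∀ n : ℕ, Un R (x ^ n) := fun n =>
    ⟨R.pow_mem h.1 n, by rw [← inv_pow]; exact R.pow_mem h.2.1 n, pow_ne_zero n h.2.2⟩
  obtain ⟨n, rfl | rfl⟩ := k.eq_nat_or_neg
  · rw [zpow_natCast]
    exact hp n
  · rw [zpow_neg, zpow_natCast]
    exact (hp n).inv

theorem Un.prod {ι : Type} {s : Finset ι} {f : ι → F} (h : ∀ i ∈ s, Un R (f i)) :
    Un R (∏ i ∈ s, f i) := Finset.prod_induction f (Un R) (fun _ _ => Un.mul) Un.one h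

theorem Un.mono {R' : Subring F} {x : F} (h : Un R x) (h' : R ≤ R') : Un R' x := ⟨h' h.1, h' h.2.1, h.2.2⟩

end Units

theorem un_mK (γ : Γ) : Un (AA Γ) (mK γ : KK Γ) := by
  refine ⟨mK_mem γ, ?_, Units.ne_zero _⟩
  rw [← Units.val_inv_eq_inv_val, ← mK_neg]
  exact mK_mem _

end

end Pool.Agent.P.MP_1a0ecf_al.K
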