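import Pool.Agent.P.MP_1a0ecf_al.K.Tw
import Pool.Agent.P.MP_1a0ecf_al.K.V2

/-! Package Prime: the generic ring in two variables and its localisations. -/

namespace Pool.Agent.P.MP_1a0ecf_al.K

open Sn
open scoped Classical

set_option linter.unusedSectionVars false

noncomputable section

variable {Γ : Type} [AddCommGroup Γ] [LinearOrder Γ] [IsOrderedAddMonoid Γ]


abbrev G2 : Type := ℤ ×ₗ ℤ

/-- the exponent of `Q` -/
def eQ : G2 := toLex (1, 0)

/-- the exponent of `q` -/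
def eq' : G2 := toLex (0, 1)

/-- `Q ^ 2 * q ^ (2 * k) + 1` -/
def piA (k : ℤ) : GA G2 := AddMonoidAlgebra.single (toLex (2, 2 * k)) 1 + 1

/-- `Q ↦ I * q ^ (-k)` -/
def psi (k : ℤ) : GA G2 →+* AddMonoidAlgebra ℂ ℤ :=
  (AddMonoidAlgebra.lift ℤ (AddMonoidAlgebra ℂ ℤ) G2
    { toFun := fun γ => AddMonoidAlgebra.single ((ofLex γ.toAdd).2 - k * (ofLex γ.toAdd).1)
        (Complex.I ^ (ofLex γ.toAdd).1)
      map_one' := by
        rw [toAdd_one, ofLex_zero, Prod.fst_zero, Prod.snd_zero, mul_zero, sub_zero, zpow_zero]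
        rfl
      map_mul' := fun x y => by
        rw [AddMonoidAlgebra.single_mul_single, toAdd_mul, ofLex_add, Prod.fst_add, Prod.snd_add,
          zpow_add₀ Complex.I_ne_zero]
        congr 1
        ring }).toRingHom

/-- `(i, j) ↦ i b + j a` -/
def f2 (a b : Γ) : G2 →+ Γ where
  toFun γ := (ofLex γ).1 • b + (ofLex γ).2 • a
  map_zero' := by simp
  map_add' x y := by
    rw [ofLex_add, Prod.fst_add, Prod.snd_add, add_smul, add_smul]
    abel

/-- the specialisation of the generic ring -/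
def ph2 (a b : Γ) : GA G2 →+* GA Γ := AddMonoidAlgebra.mapDomainRingHom ℤ (f2 a b)

/-- denominators in a multiplicative set -/
def Den (P : Submonoid (GA Γ)) : Subring (KK Γ) where
  carrier := {x | ∃ s ∈ P, algebraMap (GA Γ) (KK Γ) s * x ∈ AA Γ}
  mul_mem' := by
    rintro x y ⟨s, hs, hx⟩ ⟨u, hu, hy⟩
    exact ⟨s * u, mul_mem hs hu, by rw [map_mul, mul_mul_mul_comm]; exact mul_mem hx hy⟩
  one_mem' := ⟨1, one_mem _, by simp⟩
  add_mem' := by
    rintro x y ⟨s, hs, hx⟩ ⟨u, hu, hy⟩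
    refine ⟨s * u, mul_mem hs hu, ?_⟩
    rw [map_mul, mul_add, mul_right_comm, mul_assoc _ _ y]
    exact add_mem (mul_mem hx ⟨u, rfl⟩) (mul_mem ⟨s, rfl⟩ hy)
  zero_mem' := ⟨1, one_mem _, by simp⟩
  neg_mem' := by
    rintro x ⟨s, hs, hx⟩
    exact ⟨s, hs, by rw [mul_neg]; exact neg_mem hx⟩

/-- all `piA k` are inverted -/
def Rq : Subring (KK G2) := Den (Submonoid.closure (Set.range piA))

/-- the localisation at `piA k` -/
def Rp (k : ℤ) : Subring (KK G2) := Den ((nonZeroDivisors (AddMonoidAlgebra ℂ ℤ)).comap (psi k))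

theorem AA_le_Den (P : Submonoid (GA Γ)) : AA Γ ≤ Den P := fun x hx =>
  ⟨1, one_mem _, by rwa [map_one, one_mul]⟩

theorem eq'_pos : 0 < eq' := by
  rw [eq', ← toLex_zero, Prod.Lex.toLex_lt_toLex]
  exact Or.inr ⟨rfl, zero_lt_one⟩

theorem PrP.f2_app (a b : Γ) (i j : ℤ) : f2 a b (toLex (i, j)) = i • b + j • a := rfl

theorem f2_eQ (a b : Γ) : f2 a b eQ = b := by
  rw [eQ, PrP.f2_app, one_smul, zero_smul, add_zero]

theorem f2_eq' (a b : Γ) : f2 a b eq' = a := by
  rw [eq', PrP.f2_app, one_smul, zero_smul, zero_add]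

theorem PrP.psi_single (k i j n : ℤ) :
    psi k (AddMonoidAlgebra.single (toLex (i, j)) n) =
      AddMonoidAlgebra.single (j - k * i) ((n : ℂ) * Complex.I ^ i) := by
  simp only [psi, AlgHom.toRingHom_eq_coe, RingHom.coe_coe, AddMonoidAlgebra.lift_single,
    MonoidHom.coe_mk, OneHom.coe_mk, toAdd_ofAdd, ofLex_toLex]
  rw [AddMonoidAlgebra.smul_single, zsmul_eq_mul]

theorem psi_pi {j k : ℤ} : psi k (piA j) = 0 ↔ j = k := by
  have h1 : ((1 : ℤ) : ℂ) * Complex.I ^ (2 : ℤ) = -1 := by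
    rw [Int.cast_one, one_mul, zpow_ofNat, Complex.I_sq]
  rw [piA, map_add, map_one, PrP.psi_single, h1, AddMonoidAlgebra.one_def]
  constructor
  · intro h
    by_contra hne
    have h2 := congrArg (fun z : AddMonoidAlgebra ℂ ℤ => z.coeff 0) h
    have h3 : 2 * j - k * 2 ≠ 0 := by omega
    simp [h3] at h2
  · rintro rfl
    rw [show 2 * j - j * 2 = 0 by ring, ← AddMonoidAlgebra.single_add, neg_add_cancel,
      AddMonoidAlgebra.single_zero]

/-- the elements free of `Q` -/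
def PrP.emb : AddMonoidAlgebra ℤ ℤ →+* GA G2 :=
  AddMonoidAlgebra.mapDomainRingHom ℤ
    ({ toFun := fun j => toLex (0, j)
       map_zero' := rfl
       map_add' := fun _ _ => by rw [← toLex_add, Prod.mk_add_mk, add_zero] } : ℤ →+ G2)

theorem PrP.emb_single (j n : ℤ) :
    PrP.emb (AddMonoidAlgebra.single j n) = AddMonoidAlgebra.single (toLex (0, j)) n :=
  AddMonoidAlgebra.mapDomain_single

theorem PrP.psi_emb (k : ℤ) (u : AddMonoidAlgebra ℤ ℤ) (j : ℤ) :
    (psi k (PrP.emb u)).coeff j = (u.coeff j : ℂ) := by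
  induction u using AddMonoidAlgebra.induction_linear with
  | zero => simp
  | add a b ha hb => simp [ha, hb]
  | single i n =>
    rw [PrP.emb_single, PrP.psi_single, AddMonoidAlgebra.coeff_single,
      AddMonoidAlgebra.coeff_single, Finsupp.single_apply, Finsupp.single_apply]
    simp

/-- `(Q * q ^ k) ^ i` -/
def PrP.pw (k i : ℤ) : GA G2 := AddMonoidAlgebra.single (toLex (i, k * i)) 1

theorem PrP.pw_add (k i j : ℤ) : PrP.pw k (i + j) = PrP.pw k i * PrP.pw k j := by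
  rw [PrP.pw, PrP.pw, PrP.pw, AddMonoidAlgebra.single_mul_single, ← toLex_add, Prod.mk_add_mk,
    mul_add, one_mul]

theorem PrP.pw_zero (k : ℤ) : PrP.pw k 0 = 1 := by
  rw [PrP.pw, mul_zero]
  rfl

theorem PrP.pi_eq (k : ℤ) : piA k = PrP.pw k 1 * PrP.pw k 1 + 1 := by
  rw [← PrP.pw_add, piA, PrP.pw, one_add_one_eq_two, mul_comm]

theorem PrP.red_pw (k i : ℤ) (v : AddMonoidAlgebra ℤ ℤ) :
    ∃ u w, piA k ∣ PrP.pw k i * PrP.emb v - (PrP.emb u + PrP.pw k 1 * PrP.emb w) := by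
  have h0 : PrP.pw k (-1) * PrP.pw k 1 = 1 := by rw [← PrP.pw_add, neg_add_cancel, PrP.pw_zero]
  induction i using Int.induction_on with
  | zero => exact ⟨v, 0, by rw [PrP.pw_zero, map_zero]; exact ⟨0, by ring⟩⟩
  | succ i ih =>
    obtain ⟨u, w, c, hc⟩ := ih
    refine ⟨-w, u, PrP.pw k 1 * c + PrP.emb w, ?_⟩
    rw [PrP.pw_add, map_neg]
    rw [PrP.pi_eq] at hc ⊢
    linear_combination PrP.pw k 1 * hc
  | pred i ih =>
    obtain ⟨u, w, c, hc⟩ := ih
    refine ⟨w, -u, PrP.pw k (-1) * (c + PrP.emb u), ?_⟩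
    rw [sub_eq_add_neg (-(i : ℤ)), PrP.pw_add, map_neg]
    rw [PrP.pi_eq] at hc ⊢
    linear_combination PrP.pw k (-1) * hc + (PrP.emb w - PrP.pw k 1 * PrP.emb u) * h0

theorem PrP.red (k : ℤ) (r : GA G2) :
    ∃ u w, piA k ∣ r - (PrP.emb u + PrP.pw k 1 * PrP.emb w) := by
  induction r using AddMonoidAlgebra.induction_linear with
  | zero => exact ⟨0, 0, 0, by simp⟩
  | add a b ha hb =>
    obtain ⟨u, w, h⟩ := ha
    obtain ⟨u', w', h'⟩ := hb
    refine ⟨u + u', w + w', ?_⟩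
    convert dvd_add h h' using 1
    rw [map_add, map_add]
    ring
  | single γ n =>
    obtain ⟨⟨i, j⟩, rfl⟩ := toLex.surjective γ
    have := PrP.red_pw k i (AddMonoidAlgebra.single (j - k * i) n)
    rwa [PrP.emb_single, PrP.pw, AddMonoidAlgebra.single_mul_single, ← toLex_add, Prod.mk_add_mk,
      add_zero, add_sub_cancel, one_mul] at this

/-- Modulo `piA k` every element is `u + Q * w` with `u`, `w` free of `Q`; the coefficients of its
image are `m + n * I` with integers `m`, `n`. -/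
theorem dvd_of_psi {k : ℤ} {r : GA G2} (h : psi k r = 0) : piA k ∣ r := by
  obtain ⟨u, w, c, hc⟩ := PrP.red k r
  have h1 := congrArg (psi k) hc
  rw [map_sub, map_mul, psi_pi.2 rfl, zero_mul, h, zero_sub, neg_eq_zero, map_add, map_mul, PrP.pw,
    PrP.psi_single, sub_self, Int.cast_one, one_mul, zpow_one] at h1
  have h2 : ∀ j, (u.coeff j : ℂ) + Complex.I * (w.coeff j : ℂ) = 0 := fun j => by
    have := congrArg (fun z : AddMonoidAlgebra ℂ ℤ => z.coeff j) h1
    simp only [AddMonoidAlgebra.coeff_add, Finsupp.add_apply, AddMonoidAlgebra.coeff_single_zero_mul,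
      PrP.psi_emb] at this
    exact this
  have h3 : u = 0 := AddMonoidAlgebra.coeff_injective (Finsupp.ext fun j => by
    simpa using congrArg Complex.re (h2 j))
  have h4 : w = 0 := AddMonoidAlgebra.coeff_injective (Finsupp.ext fun j => by
    simpa using congrArg Complex.im (h2 j))
  rw [h3, h4, map_zero, mul_zero, add_zero, sub_zero] at hc
  exact ⟨c, hc⟩

theorem ph2_pi {a b : Γ} {k : ℤ} (h : b + k • a = 0) : ph2 a b (piA k) = 2 := by
  have h1 : ph2 a b (AddMonoidAlgebra.single (toLex (2, 2 * k)) 1) =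
      AddMonoidAlgebra.single (f2 a b (toLex (2, 2 * k))) 1 := AddMonoidAlgebra.mapDomain_single
  rw [piA, map_add, map_one, h1, PrP.f2_app, mul_smul, ← smul_add, h, smul_zero,
    ← AddMonoidAlgebra.one_def, one_add_one_eq_two]

theorem PrP.un_Den {P : Submonoid (GA Γ)} {s : GA Γ} (hs : s ∈ P) (h0 : s ≠ 0) :
    Un (Den P) (algebraMap (GA Γ) (KK Γ) s) := by
  have h1 : algebraMap (GA Γ) (KK Γ) s ≠ 0 :=
    (map_ne_zero_iff _ (IsFractionRing.injective (GA Γ) (KK Γ))).2 h0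
  exact ⟨AA_le_Den P ⟨s, rfl⟩, ⟨s, hs, by rw [mul_inv_cancel₀ h1]; exact one_mem _⟩, h1⟩

theorem PrP.pi_ne (k : ℤ) : piA k ≠ 0 := fun h => by
  have : psi (k + 1) (piA k) = 0 := by rw [h, map_zero]
  have := psi_pi.1 this
  omega

theorem PrP.xi_true (c : ℤ) : xi (mK eQ) (mK eq') (true, c) =
    algebraMap (GA G2) (KK G2) (AddMonoidAlgebra.single (toLex (1, 2 * c)) 1) := by
  have h : eQ + (2 * c) • eq' = toLex (1, 2 * c) := by
    change toLex (((1 : ℤ), (0 : ℤ)) + (2 * c) • ((0 : ℤ), (1 : ℤ))) = _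
    simp
  rw [xi, if_pos rfl, ← mK_zsmul, ← Units.val_mul, ← mK_add, h]
  rfl

theorem PrP.xi_false (c : ℤ) : xi (mK eQ) (mK eq') (false, c) =
    -algebraMap (GA G2) (KK G2) (AddMonoidAlgebra.single (toLex (-1, 2 * c)) 1) := by
  have h : -eQ + (2 * c) • eq' = toLex (-1, 2 * c) := by
    change toLex (-((1 : ℤ), (0 : ℤ)) + (2 * c) • ((0 : ℤ), (1 : ℤ))) = _
    simp
  rw [xi, if_neg Bool.false_ne_true, neg_mul, ← mK_zsmul, ← mK_neg, ← Units.val_mul, ← mK_add, h]
  rfl

theorem un_Rq (c c' : ℤ) :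
    Un Rq (xi (mK eQ) (mK eq') (true, c) - xi (mK eQ) (mK eq') (false, c')) := by
  have h1 : xi (mK eQ) (mK eq') (true, c) - xi (mK eQ) (mK eq') (false, c') =
      (mK (toLex (-1, 2 * c') : G2) : KK G2) * algebraMap (GA G2) (KK G2) (piA (c - c')) := by
    rw [PrP.xi_true, PrP.xi_false, sub_neg_eq_add, ← map_add]
    change _ = algebraMap (GA G2) (KK G2) _ * _
    rw [← map_mul, piA, mul_add, mul_one, AddMonoidAlgebra.single_mul_single, ← toLex_add,
      Prod.mk_add_mk, one_mul, show (-1 : ℤ) + 2 = 1 by norm_num,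
      show 2 * c' + 2 * (c - c') = 2 * c by ring]
  rw [h1]
  exact ((un_mK _).mono (AA_le_Den _)).mul
    (PrP.un_Den (Submonoid.subset_closure ⟨_, rfl⟩) (PrP.pi_ne _))

theorem PrP.xi_psi (k : ℤ) (x : Box) : ∃ r : GA G2,
    xi (mK eQ) (mK eq') x = algebraMap (GA G2) (KK G2) r ∧
      psi k r = AddMonoidAlgebra.single (2 * rs k x - k) Complex.I := by
  obtain ⟨_ | _, c⟩ := x
  · refine ⟨-AddMonoidAlgebra.single (toLex (-1, 2 * c)) 1, by rw [PrP.xi_false, map_neg], ?_⟩
    rw [map_neg, PrP.psi_single, rs, if_neg Bool.false_ne_true, ← AddMonoidAlgebra.single_neg,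
      Int.cast_one, one_mul, zpow_neg_one, Complex.inv_I, neg_neg]
    congr 1
    ring
  · refine ⟨_, PrP.xi_true c, ?_⟩
    rw [PrP.psi_single, rs, if_pos rfl, Int.cast_one, one_mul, zpow_one, mul_one]

theorem un_Rp {k : ℤ} {x y : Box} (h : rs k x ≠ rs k y) :
    Un (Rp k) (xi (mK eQ) (mK eq') x - xi (mK eQ) (mK eq') y) := by
  obtain ⟨r, hr, hr'⟩ := PrP.xi_psi k x
  obtain ⟨s, hs, hs'⟩ := PrP.xi_psi k y
  have h1 : psi k (r - s) ≠ 0 := fun h0 => by
    rw [map_sub, hr', hs', sub_eq_zero] at h0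
    have h2 := congrArg (fun z : AddMonoidAlgebra ℂ ℤ => z.coeff (2 * rs k x - k)) h0
    have h3 : 2 * rs k y - k ≠ 2 * rs k x - k := by omega
    simp only [AddMonoidAlgebra.coeff_single, Finsupp.single_apply, if_neg h3, if_true] at h2
    exact Complex.I_ne_zero h2
  rw [hr, hs, ← map_sub]
  exact PrP.un_Den (mem_nonZeroDivisors_of_ne_zero h1) fun h0 => h1 (by rw [h0, map_zero])

/-- remove the factors `piA k`, `k ∉ S`, one at a time -/
theorem remove (S : Set ℤ) {x : KK G2} (hq : x ∈ Rq) (hk : ∀ k ∉ S, x ∈ Rp k) :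
    x ∈ Den (Submonoid.closure (piA '' S)) := by
  obtain ⟨s, hs, hx⟩ := hq
  have inj := IsFractionRing.injective (GA G2) (KK G2)
  have key : ∀ t ∈ Submonoid.closure (piA '' S),
      algebraMap (GA G2) (KK G2) (s * t) * x ∈ AA G2 → x ∈ Den (Submonoid.closure (piA '' S)) := by
    clear hx
    induction hs using Submonoid.closure_induction_left with
    | one => exact fun t ht h => ⟨t, ht, by rwa [one_mul] at h⟩
    | mul_left p hp s _ ih =>
      obtain ⟨k, rfl⟩ := hp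
      intro t ht h
      by_cases hS : k ∈ S
      · refine ih (piA k * t) (mul_mem (Submonoid.subset_closure ⟨k, hS, rfl⟩) ht) ?_
        rwa [mul_left_comm, ← mul_assoc]
      · obtain ⟨e, he, b, hb⟩ := hk k hS
        obtain ⟨a, ha⟩ := h
        have h1 : e * a = piA k * (s * t * b) := inj (by
          rw [map_mul, ha, ← mul_assoc (piA k), map_mul _ _ b, hb, mul_assoc (piA k)]
          ring)
        have h2 : psi k a = 0 := by
          have h3 := congrArg (psi k) h1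
          rw [map_mul, map_mul, psi_pi.2 rfl, zero_mul] at h3
          exact (mul_eq_zero.1 h3).resolve_left (nonZeroDivisors.ne_zero he)
        obtain ⟨a', rfl⟩ := dvd_of_psi h2
        refine ih t ht ⟨a', ?_⟩
        have h4 : algebraMap (GA G2) (KK G2) (piA k) ≠ 0 :=
          (map_ne_zero_iff _ inj).2 (PrP.pi_ne k)
        refine mul_left_cancel₀ h4 ?_
        rw [← map_mul, ha, mul_assoc (piA k), map_mul, mul_assoc]
  exact key 1 (one_mem _) (by rwa [mul_one])

end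

end Pool.Agent.P.MP_1a0ecf_al.K
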