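import Pool.Agent.P.MP_1a0ecf_al.K.Gam
import Pool.Agent.P.MP_1a0ecf_al.K.Prime

/-! Package Spc: specialisation of towers. -/

namespace Pool.Agent.P.MP_1a0ecf_al.K

open Sn
open scoped Classical

set_option linter.unusedSectionVars false

noncomputable section

section Aux

variable {A B : Type} [Ring A] [Ring B] (S : Subring (A × B))

private theorem spc_mul {a a' : A} {b b' : B} (h : (a, b) ∈ S) (h' : (a', b') ∈ S) :
    (a * a', b * b') ∈ S := S.mul_mem h h'

private theorem spc_add {a a' : A} {b b' : B} (h : (a, b) ∈ S) (h' : (a', b') ∈ S) :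
    (a + a', b + b') ∈ S := S.add_mem h h'

private theorem spc_sub {a a' : A} {b b' : B} (h : (a, b) ∈ S) (h' : (a', b') ∈ S) :
    (a - a', b - b') ∈ S := S.sub_mem h h'

private theorem spc_neg {a : A} {b : B} (h : (a, b) ∈ S) : (-a, -b) ∈ S := S.neg_mem h

private theorem spc_pow {a : A} {b : B} (h : (a, b) ∈ S) (n : ℕ) : (a ^ n, b ^ n) ∈ S :=
  S.pow_mem h n

end Aux

private theorem spc_prod {A B ι : Type} [CommRing A] [CommRing B] (S : Subring (A × B)) (s : Finset ι)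
    {f : ι → A} {g : ι → B} (h : ∀ i ∈ s, (f i, g i) ∈ S) : (∏ i ∈ s, f i, ∏ i ∈ s, g i) ∈ S := by
  have e : (∏ i ∈ s, f i, ∏ i ∈ s, g i) = ∏ i ∈ s, (f i, g i) :=
    Prod.ext (by simp [Prod.fst_prod]) (by simp [Prod.snd_prod])
  rw [e]
  exact S.prod_mem h

private theorem spc_det {A B ι : Type} [CommRing A] [CommRing B] [Fintype ι] [DecidableEq ι]
    (S : Subring (A × B)) {M : Matrix ι ι A} {N : Matrix ι ι B} (h : ∀ i j, (M i j, N i j) ∈ S) :
    (M.det, N.det) ∈ S := by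
  let L : Matrix ι ι S := Matrix.of fun i j => ⟨(M i j, N i j), h i j⟩
  have e1 : ((RingHom.fst A B).comp S.subtype) L.det = M.det := by
    rw [RingHom.map_det]
    rfl
  have e2 : ((RingHom.snd A B).comp S.subtype) L.det = N.det := by
    rw [RingHom.map_det]
    rfl
  rw [← e1, ← e2]
  exact L.det.2

section Pair

variable {F H F' H' : Type} [Field F] [Ring H] [Algebra F H] [Field F'] [Ring H'] [Algebra F' H']

/-- a specialisation relation between two towers -/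
structure Pair (t' : Tw F' H') (t : Tw F H) where
  S0 : Subring (F' × F)
  S1 : Subring (H' × H)
  n : t'.n = t.n
  lv : t'.lv = t.lv
  inv : ∀ x y, (x, y) ∈ S0 → y ≠ 0 → (x⁻¹, y⁻¹) ∈ S0
  smul : ∀ x y a b, (x, y) ∈ S0 → (a, b) ∈ S1 → (x • a, y • b) ∈ S1
  Q : ((t'.Q : F'), (t.Q : F)) ∈ S0
  q : ((t'.q : F'), (t.q : F)) ∈ S0
  T : ∀ k, (t'.T k, t.T k) ∈ S1
  X0 : (t'.X0, t.X0) ∈ S1

namespace Pair

variable {t' : Tw F' H'} {t : Tw F H} (P : Pair t' t)

private theorem zpw {a : F'} {b : F} (h : (a, b) ∈ P.S0) (hb : b ≠ 0) (n : ℤ) :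
    (a ^ n, b ^ n) ∈ P.S0 := by
  obtain n | n := n
  · simpa using spc_pow P.S0 h n
  · rw [zpow_negSucc, zpow_negSucc]
    exact P.inv _ _ (spc_pow P.S0 h _) (pow_ne_zero _ hb)

private theorem dv {a a' : F'} {b b' : F} (h : (a, b) ∈ P.S0) (h' : (a', b') ∈ P.S0) (hb : b' ≠ 0) :
    (a / a', b / b') ∈ P.S0 := by
  rw [div_eq_mul_inv, div_eq_mul_inv]
  exact spc_mul P.S0 h (P.inv _ _ h' hb)

private theorem qi : (((t'.q⁻¹ : F'ˣ) : F'), ((t.q⁻¹ : Fˣ) : F)) ∈ P.S0 := by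
  rw [Units.val_inv_eq_inv_val, Units.val_inv_eq_inv_val]
  exact P.inv _ _ P.q t.q.ne_zero

theorem xi (x : Box) : (t'.ξ x, t.ξ x) ∈ P.S0 := by
  unfold Tw.ξ K.xi
  refine spc_mul P.S0 ?_ ?_
  · split_ifs
    · exact P.Q
    · rw [Units.val_inv_eq_inv_val, Units.val_inv_eq_inv_val]
      exact spc_neg P.S0 (P.inv _ _ P.Q t.Q.ne_zero)
  · rw [Units.val_zpow_eq_zpow_val, Units.val_zpow_eq_zpow_val]
    exact P.zpw P.q t.q.ne_zero _

private theorem X (k : ℕ) : (t'.X k, t.X k) ∈ P.S1 := by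
  induction k with
  | zero => exact P.X0
  | succ k ih => exact spc_mul P.S1 (spc_mul P.S1 (P.T k) ih) (P.T k)

private theorem am {a : F'} {b : F} (h : (a, b) ∈ P.S0) :
    (algebraMap F' H' a, algebraMap F H b) ∈ P.S1 := by
  rw [Algebra.algebraMap_eq_smul_one, Algebra.algebraMap_eq_smul_one]
  exact P.smul _ _ _ _ h P.S1.one_mem

theorem pr (k : ℕ) (x : Box) : (t'.pr k x, t.pr k x) ∈ P.S1 := by
  unfold Tw.pr
  rw [P.n]
  split_ifs with h
  · let A : Subring (Polynomial F' × Polynomial F) := P.S1.comap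
      (RingHom.prodMap (Polynomial.aeval (t'.X k) : Polynomial F' →ₐ[F'] H').toRingHom
        (Polynomial.aeval (t.X k) : Polynomial F →ₐ[F] H).toRingHom)
    have hA : ∀ p' p, (p', p) ∈ A ↔
        (Polynomial.aeval (t'.X k) p', Polynomial.aeval (t.X k) p) ∈ P.S1 := fun _ _ => Iff.rfl
    rw [← hA, Lagrange.basis, Lagrange.basis]
    refine spc_prod A _ fun y hy => ?_
    rw [hA, Lagrange.basisDivisor, Lagrange.basisDivisor]
    simp only [map_mul, map_sub, Polynomial.aeval_C, Polynomial.aeval_X]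
    exact spc_mul P.S1 (P.am (P.inv _ _ (spc_sub P.S0 (P.xi x) (P.xi y))
      (t.xi_sub_ne (Finset.ne_of_mem_erase hy).symm))) (spc_sub P.S1 (P.X k) (P.am (P.xi y)))
  · exact P.S1.zero_mem

theorem E (s : List Box) : (t'.E s, t.E s) ∈ P.S1 := by
  induction s with
  | nil => exact P.S1.one_mem
  | cons x l ih => exact spc_mul P.S1 (P.pr _ x) ih

private theorem ups (b : List Box) (ps : List Step) : (t'.dat.ups b ps, t.dat.ups b ps) ∈ P.S1 := by
  induction ps with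
  | nil => exact P.E b
  | cons p ps ih => exact spc_mul P.S1 (spc_mul P.S1 (P.E _) (P.T _)) ih

private theorem dns (b : List Box) (ps : List Step) : (t'.dat.dns b ps, t.dat.dns b ps) ∈ P.S1 := by
  induction ps with
  | nil => exact P.E b
  | cons p ps ih => exact spc_mul P.S1 (spc_mul P.S1 ih (P.T _)) (P.E _)

theorem g (o : Bool) (s u : List Box) : (t'.g o s u, t.g o s u) ∈ P.S1 := by
  unfold Tw.g Dat.g Dat.U Dat.V
  rw [P.lv]
  exact spc_mul P.S1 (P.ups _ _) (P.dns _ _)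

private theorem al {x y : Box} (h : x ≠ y) : (t'.dat.al x y, t.dat.al x y) ∈ P.S0 :=
  P.dv (spc_mul P.S0 (spc_sub P.S0 P.q P.qi) (P.xi y)) (spc_sub P.S0 (P.xi y) (P.xi x))
    (t.xi_sub_ne h.symm)

private theorem N {x y : Box} (h : x ≠ y) : (t'.dat.N x y, t.dat.N x y) ∈ P.S0 :=
  spc_mul P.S0 (spc_sub P.S0 P.q (P.al h)) (spc_add P.S0 (P.al h) P.qi)

private theorem Nms {o : Bool} {b s : List Box} {ps : List Step} (h : IsPath o b ps s) :
    (t'.dat.Nms ps, t.dat.Nms ps) ∈ P.S0 := by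
  induction h with
  | nil => exact P.S0.one_mem
  | cons _ hf _ ih => exact spc_mul P.S0 (P.N hf.ne) ih

theorem Nm (o : Bool) {s : List Box} (hs : Std t.lv s) : (t'.Nm o s, t.Nm o s) ∈ P.S0 := by
  unfold Tw.Nm Dat.Nm
  rw [P.lv]
  exact P.Nms (bt_spec o hs).2.2

theorem ga {r : Box → Box → Prop} (hr : ∀ x, ¬ r x x) (s : List Box) :
    (t'.ga r s, t.ga r s) ∈ P.S0 := by
  induction s with
  | nil => exact P.S0.one_mem
  | cons z l ih =>
    refine spc_mul P.S0 ih ?_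
    unfold gp
    rw [P.lv]
    refine spc_prod P.S0 _ fun x _ => ?_
    split_ifs with e
    · exact P.zpw (spc_sub P.S0 (P.xi z) (P.xi x))
        (t.xi_sub_ne fun e' => hr x (by rwa [e'] at e)) _
    · exact P.S0.one_mem

theorem cf {r : Box → Box → Prop} (hr : ∀ x, ¬ r x x) (o : Bool) (k : ℕ) (U : List Box → Prop) :
    (t'.cf r o k U, t.cf r o k U) ∈ P.S0 := by
  have e : Ix t'.lv k U = Ix t.lv k U := by rw [P.lv]
  unfold Tw.cf
  rw [e]
  refine spc_prod P.S0 _ fun p hp => ?_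
  have hs : Std t.lv p.1 :=
    (Finset.mem_filter.1 (Finset.mem_product.1 (Finset.mem_filter.1 hp).1).1).2
  exact P.dv (P.ga hr _) (P.Nm o hs) (t.ok.Nm_ne o hs)

/-- the determinant over the product ring, `RingHom.map_det` for the two projections -/
theorem mn (o : Bool) (k : ℕ) (U : List Box → Prop) {φ' : List Box × List Box → H' →ₗ[F'] F'}
    {φ : List Box × List Box → H →ₗ[F] F}
    (h : ∀ i a b, (a, b) ∈ P.S1 → (φ' i a, φ i b) ∈ P.S0) :
    (t'.mn o k U φ', t.mn o k U φ) ∈ P.S0 := by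
  have key : ∀ (I' I : Finset (List Box × List Box)), I' = I →
      ((Matrix.of fun i j : I' => φ' i.1 (t'.g o j.1.1 j.1.2)).det,
        (Matrix.of fun i j : I => φ i.1 (t.g o j.1.1 j.1.2)).det) ∈ P.S0 := by
    rintro I _ rfl
    exact spc_det P.S0 fun i j => h _ _ _ (P.g o _ _)
  exact key _ _ (by rw [P.lv])

end Pair

end Pair

variable {Γ Γ' : Type} [AddCommGroup Γ] [LinearOrder Γ] [IsOrderedAddMonoid Γ]
  [AddCommGroup Γ'] [LinearOrder Γ'] [IsOrderedAddMonoid Γ']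

/-- the graph of the specialisation of fractions -/
theorem exists_SP (φ : GA Γ' →+* GA Γ) : ∃ S : Subring (KK Γ' × KK Γ),
    (∀ r, (algebraMap (GA Γ') (KK Γ') r, algebraMap (GA Γ) (KK Γ) (φ r)) ∈ S) ∧
    (∀ x y, (x, y) ∈ S → y ≠ 0 → (x⁻¹, y⁻¹) ∈ S) ∧
    ∀ x y r, (x, y) ∈ S → x = algebraMap (GA Γ') (KK Γ') r → y = algebraMap (GA Γ) (KK Γ) (φ r) := by
  set i' := algebraMap (GA Γ') (KK Γ') with hi'
  set ψ : GA Γ' →+* KK Γ := (algebraMap (GA Γ) (KK Γ)).comp φ with hψ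
  have inj : Function.Injective i' := IsFractionRing.injective _ _
  let S : Subring (KK Γ' × KK Γ) :=
    { carrier := {p | ∃ a b, ψ b ≠ 0 ∧ p.1 * i' b = i' a ∧ p.2 * ψ b = ψ a}
      mul_mem' := by
        rintro p p' ⟨a, b, h0, h1, h2⟩ ⟨a', b', h0', h1', h2'⟩
        refine ⟨a * a', b * b', by rw [map_mul]; exact mul_ne_zero h0 h0', ?_, ?_⟩
        · rw [map_mul, map_mul, ← h1, ← h1', Prod.fst_mul]
          ring
        · rw [map_mul, map_mul, ← h2, ← h2', Prod.snd_mul]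
          ring
      one_mem' := ⟨1, 1, by simp, by simp, by simp⟩
      add_mem' := by
        rintro p p' ⟨a, b, h0, h1, h2⟩ ⟨a', b', h0', h1', h2'⟩
        refine ⟨a * b' + a' * b, b * b', by rw [map_mul]; exact mul_ne_zero h0 h0', ?_, ?_⟩
        · rw [map_add, map_mul, map_mul, map_mul, ← h1, ← h1', Prod.fst_add]
          ring
        · rw [map_add, map_mul, map_mul, map_mul, ← h2, ← h2', Prod.snd_add]
          ring
      zero_mem' := ⟨0, 1, by simp, by simp, by simp⟩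
      neg_mem' := by
        rintro p ⟨a, b, h0, h1, h2⟩
        refine ⟨-a, b, h0, ?_, ?_⟩
        · rw [map_neg, ← h1, Prod.fst_neg, neg_mul]
        · rw [map_neg, ← h2, Prod.snd_neg, neg_mul] }
  refine ⟨S, fun r => ⟨r, 1, by simp, by simp, by simp [hψ]⟩, ?_, ?_⟩
  · rintro x y ⟨a, b, h0, h1, h2⟩ hy
    simp only at h1 h2
    have ha : ψ a ≠ 0 := h2 ▸ mul_ne_zero hy h0
    have hx : x ≠ 0 := by
      rintro rfl
      rw [zero_mul, eq_comm, ← map_zero i'] at h1
      exact ha (by rw [inj h1, map_zero])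
    refine ⟨b, a, ha, ?_, ?_⟩
    · simp only
      rw [← h1, inv_mul_cancel_left₀ hx]
    · simp only
      rw [← h2, inv_mul_cancel_left₀ hy]
  · rintro x y r ⟨a, b, h0, h1, h2⟩ rfl
    simp only at h1 h2
    rw [← map_mul] at h1
    rw [← inj h1, map_mul] at h2
    exact mul_right_cancel₀ h0 h2

end

end Pool.Agent.P.MP_1a0ecf_al.K
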