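import Pool.Agent.P.MP_1a0ecf_al.K.KB
import Pool.Agent.P.MP_1a0ecf_al.F.Face

/-! Package Act: leading terms and the action on specialised cell modules. -/

namespace Pool.Agent.P.MP_1a0ecf_al.K

open scoped Classical

set_option linter.unusedSectionVars false

noncomputable section

section

variable {Γ : Type} [AddCommGroup Γ] {lam : Γ →+ ℂ}

theorem lead_iff {j : ℕ} {r : F.ZG Γ} {c : ℂ} : lead lam j r c ↔
    ∃ y : PowerSeries ℂ, ps lam r = PowerSeries.X ^ j * y ∧ PowerSeries.constantCoeff y = c := by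
  have k : ∀ y : PowerSeries ℂ, PowerSeries.coeff j (PowerSeries.X ^ j * y) =
      PowerSeries.constantCoeff y := fun y => by
    have := PowerSeries.coeff_X_pow_mul y j 0
    rwa [zero_add, PowerSeries.coeff_zero_eq_constantCoeff] at this
  constructor
  · rintro ⟨h1, h2⟩
    obtain ⟨y, hy⟩ := PowerSeries.X_pow_dvd_iff.2 h1
    exact ⟨y, hy, by rw [← h2, hy, k]⟩
  · rintro ⟨y, hy, hc⟩
    exact ⟨PowerSeries.X_pow_dvd_iff.1 ⟨y, hy⟩, by rw [hy, k, hc]⟩

private theorem ps_single (γ : Γ) (n : ℤ) : ps lam (AddMonoidAlgebra.single γ n) =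
    n • PowerSeries.rescale (lam γ) (PowerSeries.exp ℂ) :=
  AddMonoidAlgebra.lift_single _ γ n

private theorem cc_ps (r : F.ZG Γ) : PowerSeries.constantCoeff (ps lam r) = F.spc Γ r := by
  induction r using AddMonoidAlgebra.induction_linear with
  | zero => simp only [map_zero]
  | add x y hx hy => simp only [map_add, hx, hy]
  | single γ n =>
    have e : F.spc Γ (AddMonoidAlgebra.single γ n) = n • (1 : ℂ) :=
      AddMonoidAlgebra.lift_single _ γ n
    rw [ps_single, map_zsmul, e, ← PowerSeries.coeff_zero_eq_constantCoeff_apply,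
      PowerSeries.coeff_rescale]
    simp

theorem lead_zero (r : F.ZG Γ) : lead lam 0 r (F.spc Γ r) :=
  lead_iff.2 ⟨ps lam r, by rw [pow_zero, one_mul], cc_ps r⟩

theorem lead.unique {j : ℕ} {r : F.ZG Γ} {c c' : ℂ} (h : lead lam j r c) (h' : lead lam j r c') :
    c = c' := h.2.symm.trans h'.2

theorem lead.zero (j : ℕ) : lead lam j 0 0 :=
  ⟨fun _ _ => by rw [map_zero, map_zero], by rw [map_zero, map_zero]⟩

theorem lead.add {j : ℕ} {r r' : F.ZG Γ} {c c' : ℂ} (h : lead lam j r c) (h' : lead lam j r' c') :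
    lead lam j (r + r') (c + c') :=
  ⟨fun i hi => by rw [map_add, map_add, h.1 i hi, h'.1 i hi, add_zero],
    by rw [map_add, map_add, h.2, h'.2]⟩

theorem lead.neg {j : ℕ} {r : F.ZG Γ} {c : ℂ} (h : lead lam j r c) : lead lam j (-r) (-c) :=
  ⟨fun i hi => by rw [map_neg, map_neg, h.1 i hi, neg_zero], by rw [map_neg, map_neg, h.2]⟩

theorem lead.mul {j j' : ℕ} {r r' : F.ZG Γ} {c c' : ℂ} (h : lead lam j r c)
    (h' : lead lam j' r' c') : lead lam (j + j') (r * r') (c * c') := by
  obtain ⟨y, hy, rfl⟩ := lead_iff.1 h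
  obtain ⟨y', hy', rfl⟩ := lead_iff.1 h'
  exact lead_iff.2 ⟨y * y', by rw [map_mul, hy, hy']; ring, map_mul _ _ _⟩

theorem lead.pow {j : ℕ} {r : F.ZG Γ} {c : ℂ} (h : lead lam j r c) (k : ℕ) :
    lead lam (j * k) (r ^ k) (c ^ k) := by
  obtain ⟨y, hy, rfl⟩ := lead_iff.1 h
  exact lead_iff.2 ⟨y ^ k, by rw [map_pow, hy, mul_pow, ← pow_mul], map_pow _ _ _⟩

theorem lead.sum {ι : Type} (s : Finset ι) {j : ℕ} {r : ι → F.ZG Γ} {c : ι → ℂ}
    (h : ∀ i ∈ s, lead lam j (r i) (c i)) : lead lam j (∑ i ∈ s, r i) (∑ i ∈ s, c i) := by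
  induction s using Finset.induction_on with
  | empty => simpa using lead.zero j
  | insert a s ha ih =>
    rw [Finset.sum_insert ha, Finset.sum_insert ha]
    exact (h a (Finset.mem_insert_self a s)).add
      (ih fun i hi => h i (Finset.mem_insert_of_mem hi))

theorem lead.list {ι : Type} (s : List ι) {j : ℕ} {r : ι → F.ZG Γ} {c : ι → ℂ}
    (h : ∀ i ∈ s, lead lam j (r i) (c i)) : lead lam j (s.map r).sum (s.map c).sum := by
  induction s with
  | nil => simpa using lead.zero j
  | cons a s ih =>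
    rw [List.map_cons, List.map_cons, List.sum_cons, List.sum_cons]
    exact (h a List.mem_cons_self).add (ih fun i hi => h i (List.mem_cons_of_mem a hi))

theorem lead_vU (γ δ : Γ) :
    lead lam 1 ((F.vU γ : F.ZG Γ) - (F.vU δ : F.ZG Γ)) (lam γ - lam δ) := by
  have k : ∀ γ : Γ, ps lam (F.vU γ : F.ZG Γ) = PowerSeries.rescale (lam γ) (PowerSeries.exp ℂ) :=
    fun γ => (ps_single γ 1).trans (one_smul _ _)
  refine ⟨fun i hi => ?_, ?_⟩
  · obtain rfl : i = 0 := by omega
    rw [map_sub, map_sub, k, k, PowerSeries.coeff_rescale, PowerSeries.coeff_rescale]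
    simp
  · rw [map_sub, map_sub, k, k, PowerSeries.coeff_rescale, PowerSeries.coeff_rescale]
    simp

/-- divide the matrix `ps (r • 1 - M)` by `X ^ j` and take constant coefficients -/
theorem lead_det {ι : Type} [Fintype ι] {j : ℕ} {r : F.ZG Γ} {c : ℂ} {M : Matrix ι ι (F.ZG Γ)}
    (hr : lead lam j r c) (hM : ∀ x y, lead lam j (M x y) 0)
    (h : (r • (1 : Matrix ι ι (F.ZG Γ)) - M).det = 0) : c = 0 := by
  obtain ⟨y, hy, rfl⟩ := lead_iff.1 hr
  choose Y hY hY0 using fun x y => lead_iff.1 (hM x y)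
  have e : (ps lam).mapMatrix (r • (1 : Matrix ι ι (F.ZG Γ)) - M) =
      (PowerSeries.X ^ j : PowerSeries ℂ) • (y • (1 : Matrix ι ι (PowerSeries ℂ)) - Matrix.of Y) := by
    ext1 a b
    simp only [RingHom.mapMatrix_apply, Matrix.map_apply, Matrix.sub_apply, Matrix.smul_apply,
      Matrix.one_apply, smul_eq_mul, Matrix.of_apply, map_sub, hY]
    split_ifs
    · rw [mul_one, mul_one, hy, mul_sub]
    · simp
  have h1 := congrArg (ps lam) h
  rw [RingHom.map_det, e, Matrix.det_smul, map_zero] at h1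
  have h2 := (mul_eq_zero.1 h1).resolve_left (pow_ne_zero _ (pow_ne_zero _ PowerSeries.X_ne_zero))
  have h3 := congrArg (PowerSeries.constantCoeff (R := ℂ)) h2
  have e' : (PowerSeries.constantCoeff (R := ℂ)).mapMatrix
      (y • (1 : Matrix ι ι (PowerSeries ℂ)) - Matrix.of Y) =
      PowerSeries.constantCoeff y • (1 : Matrix ι ι ℂ) := by
    ext1 a b
    simp only [RingHom.mapMatrix_apply, Matrix.map_apply, Matrix.sub_apply, Matrix.smul_apply,
      Matrix.one_apply, smul_eq_mul, Matrix.of_apply, map_sub, hY0]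
    split_ifs <;> simp
  rw [RingHom.map_det, e', Matrix.det_smul, Matrix.det_one, mul_one, map_zero] at h3
  exact eq_zero_of_pow_eq_zero h3

end

/-- interpolate the indicator function of a value by a polynomial -/
theorem perm_of_psum {s t : List ℂ} (h : ∀ j : ℕ, (s.map (· ^ j)).sum = (t.map (· ^ j)).sum) :
    s.Perm t := by
  have h1 : ∀ p : Polynomial ℂ, (s.map fun x => p.eval x).sum = (t.map fun x => p.eval x).sum := by
    intro p
    induction p using Polynomial.induction_on' with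
    | add p q hp hq => simp only [Polynomial.eval_add, List.sum_map_add, hp, hq]
    | monomial n a => simp only [Polynomial.eval_monomial, List.sum_map_mul_left, h n]
  have h2 : ∀ (a : ℂ) (f : ℂ → ℂ) (l : List ℂ), (∀ b ∈ l, b ≠ a → f b = 0) →
      (l.map f).sum = l.count a * f a := by
    intro a f l hl
    induction l with
    | nil => simp
    | cons b l ih =>
      rw [List.map_cons, List.sum_cons, ih fun c hc => hl c (List.mem_cons_of_mem b hc),
        List.count_cons]
      by_cases e : b = a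
      · simp [e, add_mul, add_comm]
      · simp [e, hl b List.mem_cons_self e]
  refine List.perm_iff_count.2 fun a => ?_
  let p : Polynomial ℂ := ∏ b ∈ (s ++ t).toFinset.erase a, (Polynomial.X - Polynomial.C b)
  have h3 : ∀ b ∈ s ++ t, b ≠ a → p.eval b = 0 := fun b hb e => by
    rw [Polynomial.eval_prod]
    exact Finset.prod_eq_zero (Finset.mem_erase.2 ⟨e, List.mem_toFinset.2 hb⟩) (by simp)
  have h4 : p.eval a ≠ 0 := by
    rw [Polynomial.eval_prod]
    refine Finset.prod_ne_zero_iff.2 fun b hb => ?_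
    simpa [sub_eq_zero] using (Finset.mem_erase.1 hb).1.symm
  have h5 := h1 p
  rw [h2 a _ s fun b hb => h3 b (List.mem_append_left _ hb),
    h2 a _ t fun b hb => h3 b (List.mem_append_right _ hb)] at h5
  exact_mod_cast mul_right_cancel₀ h4 h5

variable {X : F.Cox} {Γ : Type} [AddCommGroup Γ] [LinearOrder Γ] [IsOrderedAddMonoid Γ]
  {L : Fin X.n → Γ}

variable {lam : Γ →+ ℂ} {D : F.KL X Γ L}

private theorem ex_f : ∃ f : D.H →+* MonoidAlgebra ℂ X.W, (∀ w, f (D.T w) = X.gA w) ∧
    ∀ h, Lead lam D 0 h (f h) := by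
  obtain ⟨f, -, h2, h3⟩ := D.toHA.exists_spec (F.spc Γ) fun i => F.spc_vU (L i)
  exact ⟨f, h2, fun h w => (h3 h w).symm ▸ lead_zero _⟩

private theorem ga_sum (a : MonoidAlgebra ℂ X.W) : a = ∑ w, a.coeff w • X.gA w := by
  ext w
  simp [MonoidAlgebra.coeff_sum]

theorem Lead.T (w : X.W) : Lead lam D 0 (D.T w) (X.gA w) := by
  obtain ⟨f, h1, h2⟩ := ex_f (lam := lam) (D := D)
  exact h1 w ▸ h2 _

theorem Lead.one : Lead lam D 0 1 1 := by
  obtain ⟨f, -, h2⟩ := ex_f (lam := lam) (D := D)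
  exact map_one f ▸ h2 1

theorem Lead.zero (j : ℕ) : Lead lam D j 0 0 := fun w => by
  simpa using lead.zero j

theorem Lead.add {j : ℕ} {h h' : D.H} {a a' : MonoidAlgebra ℂ X.W} (e : Lead lam D j h a)
    (e' : Lead lam D j h' a') : Lead lam D j (h + h') (a + a') := fun w => by
  simpa using (e w).add (e' w)

theorem Lead.sub {j : ℕ} {h h' : D.H} {a a' : MonoidAlgebra ℂ X.W} (e : Lead lam D j h a)
    (e' : Lead lam D j h' a') : Lead lam D j (h - h') (a - a') := fun w => by
  simpa [sub_eq_add_neg] using (e w).add (e' w).neg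

theorem Lead.smul {j j' : ℕ} {r : F.ZG Γ} {c : ℂ} {h : D.H} {a : MonoidAlgebra ℂ X.W}
    (e : lead lam j r c) (e' : Lead lam D j' h a) : Lead lam D (j + j') (r • h) (c • a) :=
  fun w => by simpa using e.mul (e' w)

private theorem Lead.sum' {ι : Type} (s : Finset ι) {j : ℕ} {h : ι → D.H}
    {a : ι → MonoidAlgebra ℂ X.W} (e : ∀ i ∈ s, Lead lam D j (h i) (a i)) :
    Lead lam D j (∑ i ∈ s, h i) (∑ i ∈ s, a i) := by
  induction s using Finset.induction_on with
  | empty => simpa using Lead.zero j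
  | insert b s hb ih =>
    rw [Finset.sum_insert hb, Finset.sum_insert hb]
    exact (e b (Finset.mem_insert_self b s)).add
      (ih fun i hi => e i (Finset.mem_insert_of_mem hi))

/-- expand both factors in the basis `T`; `spc (co (T x * T y) w) = [x * y = w]` by `exists_spec` -/
theorem Lead.mul {j j' : ℕ} {h h' : D.H} {a a' : MonoidAlgebra ℂ X.W} (e : Lead lam D j h a)
    (e' : Lead lam D j' h' a') : Lead lam D (j + j') (h * h') (a * a') := by
  obtain ⟨f, h1, h2⟩ := ex_f (lam := lam) (D := D)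
  have k : Lead lam D (j + (j' + 0))
      (∑ x, ∑ y, D.T.repr h x • D.T.repr h' y • (D.T x * D.T y))
      (∑ x, ∑ y, a.coeff x • a'.coeff y • (X.gA x * X.gA y)) :=
    Lead.sum' _ fun x _ => Lead.sum' _ fun y _ => Lead.smul (e x) (Lead.smul (e' y) (by
      rw [← h1, ← h1, ← map_mul f]
      exact h2 _))
  have e1 : h * h' = ∑ x, ∑ y, D.T.repr h x • D.T.repr h' y • (D.T x * D.T y) := by
    conv_lhs => rw [← D.T.sum_repr h, ← D.T.sum_repr h', Finset.sum_mul_sum]
    simp only [smul_mul_smul_comm, smul_smul]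
  have e2 : a * a' = ∑ x, ∑ y, a.coeff x • a'.coeff y • (X.gA x * X.gA y) := by
    conv_lhs => rw [ga_sum a, ga_sum a', Finset.sum_mul_sum]
    simp only [smul_mul_smul_comm, smul_smul]
  rw [e1, e2]
  exact k

theorem Lead.pow {j : ℕ} {h : D.H} {a : MonoidAlgebra ℂ X.W} (e : Lead lam D j h a) (k : ℕ) :
    Lead lam D (j * k) (h ^ k) (a ^ k) := by
  induction k with
  | zero => simpa using Lead.one
  | succ k ih =>
    rw [pow_succ, pow_succ, Nat.mul_succ]
    exact ih.mul e

theorem Lead.sum {ι : Type} (s : Finset ι) {j : ℕ} {h : ι → D.H} {a : ι → MonoidAlgebra ℂ X.W}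
    (e : ∀ i ∈ s, Lead lam D j (h i) (a i)) : Lead lam D j (∑ i ∈ s, h i) (∑ i ∈ s, a i) :=
  Lead.sum' s e

theorem Lead.lm {j : ℕ} {h : D.H} {a : MonoidAlgebra ℂ X.W} (e : Lead lam D j h a)
    (S : Finset X.W) (x y : S) : lead lam j (D.lm S h x y) (rho D S a x y) := by
  have e1 : D.lm S h x y = ∑ w, D.T.repr h w * D.lm S (D.T w) x y := by
    simp only [F.KL.lm, Matrix.of_apply]
    conv_lhs => rw [← D.T.sum_repr h]
    simp only [Finset.sum_mul, smul_mul_assoc, map_sum, map_smul, Finsupp.coe_finsetSum,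
      Finset.sum_apply, Finsupp.smul_apply, smul_eq_mul]
  have e2 : rho D S a x y = ∑ w, a.coeff w * F.spc Γ (D.lm S (D.T w) x y) := by
    simp only [rho, Matrix.sum_apply, Matrix.smul_apply, Matrix.map_apply, smul_eq_mul]
  rw [e1, e2]
  exact lead.sum _ fun w _ => (e w).mul (lead_zero _)

theorem Lead.chx {j : ℕ} {h : D.H} {a : MonoidAlgebra ℂ X.W} (e : Lead lam D j h a) {z : X.W}
    {r : F.ZG Γ} {c : ℂ} (hr : lead lam j r c) (hl : D.lm (D.cell z) h = r • 1) {χ : X.W → ℂ}
    (hχ : IsIrr χ) (hz : D.Fam z χ) : chx χ a = c * χ 1 := by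
  refine D.chx_of_scalar hχ hz ?_
  ext x y
  refine (e.lm (D.cell z) x y).unique ?_
  rw [hl]
  simp only [Matrix.smul_apply, Matrix.one_apply, smul_eq_mul]
  split_ifs
  · simpa using hr
  · simpa using lead.zero j

end

end Pool.Agent.P.MP_1a0ecf_al.K
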