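import Pool.Agent.P.MP_1a0ecf_al.K.T3
import Pool.Agent.P.MP_1a0ecf_al.K.Act

/-! Package T4: residues, classes, doubled lists. -/

namespace Pool.Agent.P.MP_1a0ecf_al.K

open Sn
open scoped Classical

set_option linter.unusedSectionVars false

noncomputable section

variable {Γ : Type} [AddCommGroup Γ] [LinearOrder Γ] [IsOrderedAddMonoid Γ]


variable {lv : Bool} {l s u : List Box} {x y : Box} {k : ℤ}

theorem rs_eq_iff : rs k x = rs k y ↔ y = x ∨ y = par k x := by
  obtain ⟨a, b⟩ := x
  obtain ⟨c, d⟩ := y
  cases a <;> cases c <;> simp [rs, par] <;> omega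

theorem par_par (k : ℤ) (x : Box) : par k (par k x) = x := by
  obtain ⟨a, b⟩ := x
  cases a <;> simp [par]

theorem par_fst (k : ℤ) (x : Box) : (par k x).1 = !x.1 := by
  obtain ⟨a, b⟩ := x
  cases a <;> simp [par]

theorem par_ne (k : ℤ) (x : Box) : par k x ≠ x := fun h => by
  have := congrArg Prod.fst h
  rw [par_fst] at this
  simp at this

theorem par_not_nb (k : ℤ) (x : Box) : ¬ Nb x (par k x) := fun h => by
  have := (nb_iff.1 h).1
  rw [par_fst] at this
  simp at this

theorem par_zero (x : Box) : par 0 x = br x := by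
  obtain ⟨a, b⟩ := x
  cases a <;> simp [par, br]

theorem rs_zero (x : Box) : rs 0 x = x.2 := by
  simp [rs]

theorem br_br (x : Box) : br (br x) = x := by
  simp [br]

theorem dd_lt {a : Γ} (ha : 0 < a) (b : Γ) (h : x.1 = y.1) : dd a b x < dd a b y ↔ x.2 < y.2 := by
  unfold dd
  rw [h, add_lt_add_iff_left, zsmul_lt_zsmul_iff_left ha]
  omega

theorem dd_par (a b : Γ) (k : ℤ) (h : x.1 = true) :
    dd a b x = dd a b (par k x) + 2 • (b + k • a) := by
  obtain ⟨c, d⟩ := x
  simp only at h
  subst h
  simp only [dd, par, if_true, Bool.false_eq_true, if_false]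
  module

theorem dd_eq_rs {a b : Γ} (ha : 0 < a) (h : b + k • a = 0) :
    dd a b x = dd a b y ↔ rs k x = rs k y := by
  have hb : b = -(k • a) := eq_neg_of_add_eq_zero_left h
  have e : ∀ z : Box, dd a b z = (2 * rs k z - k) • a := by
    rintro ⟨c, d⟩
    cases c
    · simp only [dd, rs, hb, Bool.false_eq_true, if_false]
      module
    · simp only [dd, rs, hb, if_true]
      module
  rw [e, e, zsmul_left_inj ha]
  omega

theorem dd_inj {a b : Γ} (ha : 0 < a) (h : ∀ k : ℤ, b + k • a ≠ 0) :
    Function.Injective (dd a b) := by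
  have k1 : ∀ c d : ℤ, dd a b (true, c) ≠ dd a b (false, d) := by
    intro c d e
    simp only [dd, if_true, Bool.false_eq_true, if_false] at e
    have e2 : 2 • (b + (c - d) • a) = (b + (2 * c) • a) - (-b + (2 * d) • a) := by module
    rw [e, sub_self] at e2
    exact h (c - d) ((nsmul_eq_zero_iff_right (by norm_num)).1 e2)
  have k2 : ∀ (i : Bool) (c d : ℤ), dd a b (i, c) = dd a b (i, d) → c = d := by
    intro i c d e
    have h1 := dd_lt (x := (i, c)) (y := (i, d)) ha b rfl
    have h2 := dd_lt (x := (i, d)) (y := (i, c)) ha b rfl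
    rw [e] at h1 h2
    simp only [lt_self_iff_false, false_iff] at h1 h2
    omega
  rintro ⟨i, c⟩ ⟨j, d⟩ e
  cases i <;> cases j
  · rw [k2 _ _ _ e]
  · exact (k1 _ _ e.symm).elim
  · exact (k1 _ _ e).elim
  · rw [k2 _ _ _ e]

section Cl

variable {α β : Type} {κ : Box → α} {κ' : Box → β}

theorem Cl.refl (κ : Box → α) (s : List Box) : Cl κ s s := List.Perm.refl _

theorem Cl.symm (h : Cl κ s u) : Cl κ u s := List.Perm.symm h

theorem Cl.trans (h : Cl κ s u) (h' : Cl κ u l) : Cl κ s l := List.Perm.trans h h'

theorem Cl.of_perm (κ : Box → α) (h : s.Perm u) : Cl κ s u := h.map κ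

theorem Cl.length (h : Cl κ s u) : s.length = u.length := by
  have := List.Perm.length_eq h
  simpa using this

theorem Cl.cons_iff (h : κ x = κ y) : Cl κ (x :: s) (y :: u) ↔ Cl κ s u := by
  unfold Cl
  rw [List.map_cons, List.map_cons, h, List.perm_cons]

private theorem cl_split (h : Cl κ (x :: s) u) :
    ∃ y v w, u = v ++ y :: w ∧ κ y = κ x ∧ Cl κ s (v ++ w) := by
  have h1 : κ x ∈ u.map κ := (List.Perm.mem_iff h).1 (by simp)
  obtain ⟨y, hy, e⟩ := List.mem_map.1 h1
  obtain ⟨v, w, rfl⟩ := List.append_of_mem hy
  exact ⟨y, v, w, rfl, e, (Cl.cons_iff e.symm).1 (h.trans (Cl.of_perm κ List.perm_middle))⟩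

private theorem cl_imp (h : ∀ x y, κ x = κ y → κ' x = κ' y) (h' : Cl κ s u) : Cl κ' s u := by
  induction s generalizing u with
  | nil =>
    have := h'.length
    rw [List.length_eq_zero_iff.1 this.symm]
    exact Cl.refl _ _
  | cons x s ih =>
    obtain ⟨y, v, w, rfl, e, h1⟩ := cl_split h'
    exact ((Cl.cons_iff (h _ _ e.symm)).2 (ih h1)).trans (Cl.of_perm κ' List.perm_middle.symm)

theorem Cl.congr (h : ∀ x y, κ x = κ y ↔ κ' x = κ' y) : Cl κ s u ↔ Cl κ' s u :=
  ⟨cl_imp fun x y => (h x y).1, cl_imp fun x y => (h x y).2⟩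

theorem Cl.perm (h : Cl κ s u) (hi : ∀ x ∈ s, ∀ y ∈ u, κ x = κ y → x = y) : s.Perm u := by
  induction s generalizing u with
  | nil =>
    have := h.length
    rw [List.length_eq_zero_iff.1 this.symm]
  | cons x s ih =>
    obtain ⟨y, v, w, rfl, e, h1⟩ := cl_split h
    have e' : x = y := hi x (by simp) y (by simp) e.symm
    subst e'
    refine ((ih h1 fun a ha b hb => hi a (by simp [ha]) b ?_).cons x).trans List.perm_middle.symm
    rcases List.mem_append.1 hb with hb | hb <;> simp [hb]

theorem Cl.two {x' y' : Box} (h : Cl κ (y' :: x' :: s) (y :: x :: u)) (h' : Cl κ s u)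
    (e : κ y = κ x) : κ x' = κ x ∧ κ y' = κ x := by
  have h1 := List.Perm.count_eq h (κ x)
  have h2 := List.Perm.count_eq h' (κ x)
  simp only [List.map_cons, List.count_cons, e, beq_self_eq_true, if_true, beq_iff_eq] at h1
  split_ifs at h1 with a b b
  · exact ⟨a, b⟩
  all_goals omega

end Cl

theorem Cl.om {a b : Γ} (h : Cl (dd a b) s u) : om a b s = om a b u := List.Perm.sum_eq h

theorem up_gt (a b c : Γ) : Up (om a b) fun s => c < om a b s :=
  ⟨fun _ _ h => (Cl.of_perm _ h).om, fun _ _ h h' => h'.trans_eq (Cl.of_perm _ h).om,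
    fun _ _ _ h h' => h'.trans h⟩

theorem up_ge (a b : Γ) (u : List Box) :
    Up (om a b) fun s => om a b u < om a b s ∨ Cl (dd a b) s u := by
  refine ⟨fun _ _ h => (Cl.of_perm _ h).om, fun s t h h' => ?_, fun s t _ h h' => Or.inl ?_⟩
  · rcases h' with h' | h'
    · exact Or.inl (h'.trans_eq (Cl.of_perm _ h).om)
    · exact Or.inr ((Cl.of_perm _ h.symm).trans h')
  · rcases h' with h' | h'
    · exact h'.trans h
    · exact h'.om ▸ h

private theorem count_rs (k : ℤ) (s : List Box) (x : Box) :
    (s.map (rs k)).count (rs k x) = s.count x + s.count (par k x) := by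
  induction s with
  | nil => simp
  | cons y s ih =>
    simp only [List.map_cons, List.count_cons, ih, beq_iff_eq]
    have h1 : rs k y = rs k x ↔ y = x ∨ y = par k x := by rw [eq_comm, rs_eq_iff]
    by_cases a : y = x
    · have b : ¬ y = par k x := fun b => par_ne k x (b.symm.trans a)
      rw [if_pos (h1.2 (Or.inl a)), if_pos a, if_neg b]
      omega
    · by_cases b : y = par k x
      · rw [if_pos (h1.2 (Or.inr b)), if_neg a, if_pos b]
        omega
      · rw [if_neg fun c => (h1.1 c).elim a b, if_neg a, if_neg b]
        omega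

private theorem aa_count (lv : Bool) (s : List Box) (x : Box) : aa lv s x =
    aa lv 0 x - 2 * s.count x + s.count (dn x) + s.count (up x) := by
  induction s with
  | nil => simp
  | cons y s ih =>
    have e1 : y = dn x ↔ x = up y := by rw [eq_up_iff]
    have e2 : y = up x ↔ x = dn y := eq_up_iff
    have e3 : y = x ↔ x = y := eq_comm
    rw [aa_lcons, ih]
    simp only [List.count_cons, beq_iff_eq, e1, e2, e3]
    push_cast
    split_ifs <;> ring

private theorem par_up (k : ℤ) (x : Box) : par k (up x) = up (par k x) := by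
  obtain ⟨a, b⟩ := x
  cases a <;> simp [par, up] <;> ring

private theorem par_dn (k : ℤ) (x : Box) : par k (dn x) = dn (par k x) := by
  obtain ⟨a, b⟩ := x
  cases a <;> simp [par, dn] <;> ring

/-- `aa s x + aa s (par x)` is determined by the counts of the residues -/
theorem aa_par (h : Cl (rs k) s u) (x : Box) :
    aa true s x + aa true s (par k x) = aa true u x + aa true u (par k x) := by
  have e : ∀ z, s.count z + s.count (par k z) = u.count z + u.count (par k z) := fun z => by
    rw [← count_rs, ← count_rs]
    exact List.Perm.count_eq h _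
  have h1 := e x
  have h2 := e (up x)
  have h3 := e (dn x)
  rw [par_up] at h2
  rw [par_dn] at h3
  rw [aa_count true s, aa_count true s, aa_count true u, aa_count true u]
  omega

/-- the newest box of the component stays removable or is covered by a newer one -/
theorem exists_rem_comp (h : Std lv l) (hx : x ∈ l) : ∃ y : Box, y.1 = x.1 ∧ aa lv l y = -1 := by
  induction h with
  | nil => simp at hx
  | @cons l y _ hy ih =>
    by_cases e : y.1 = x.1
    · refine ⟨y, e, ?_⟩
      rw [← Multiset.cons_coe, aa_cons_self, hy]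
      rfl
    · rcases List.mem_cons.1 hx with rfl | hx
      · exact (e rfl).elim
      · obtain ⟨z, h1, h2⟩ := ih hx
        refine ⟨z, h1, ?_⟩
        rw [← Multiset.cons_coe, aa_cons_far _ (fun c => e (by rw [← c, h1]))
          fun c => e ((nb_iff.1 c).1.trans h1), h2]

private theorem br_inj : Function.Injective br := fun x y h => by rw [← br_br x, h, br_br]

private theorem count_br (l : List Box) (x : Box) : (l.map br).count (br x) = l.count x :=
  List.count_map_of_injective l br br_inj x

theorem aa_br (l : List Box) (x : Box) : aa true (l.map br : List Box) (br x) = aa true l x := by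
  have e1 : up (br x) = br (up x) := rfl
  have e2 : dn (br x) = br (dn x) := rfl
  rw [aa_count, aa_count true l, e1, e2, count_br, count_br, count_br, aa_zero, aa_zero]
  simp [br]

theorem std_br (h : Std true l) : Std true (l.map br) := by
  induction h with
  | nil => exact Std.nil
  | cons _ hy ih => exact Std.cons ih (by rw [aa_br, hy])

theorem ve_perm (hs : (s.map br).Perm s) (hu : (u.map br).Perm u) (h : Cl (rs 0) s u) :
    s.Perm u := by
  refine List.perm_iff_count.2 fun x => ?_
  have h1 := List.Perm.count_eq h (rs 0 x)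
  rw [count_rs, count_rs, par_zero] at h1
  have h2 := hs.count_eq (br x)
  have h3 := hu.count_eq (br x)
  rw [count_br] at h2 h3
  omega

theorem dbl_length (l : List Box) : (dbl l).length = 2 * l.length := by
  induction l with
  | nil => rfl
  | cons x l ih =>
    simp only [dbl, List.length_cons, ih]
    omega

theorem dbl_br (l : List Box) : ((dbl l).map br).Perm (dbl l) := by
  induction l with
  | nil => exact List.Perm.refl _
  | cons x l ih =>
    simp only [dbl, List.map_cons, br_br]
    exact (List.Perm.swap _ _ _).trans ((ih.cons _).cons _)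

/-- take the component `true` of the low list `bt true true s` (`low_split`) -/
theorem exists_dbl (h : Std true s) (hs : (s.map br).Perm s) :
    ∃ l, Std true (dbl l) ∧ (dbl l).Perm s := by
  induction hn : s.length using Nat.strong_induction_on generalizing s with
  | _ n ih =>
    obtain _ | ⟨y, s⟩ := s
    · exact ⟨[], Std.nil, List.Perm.refl _⟩
    · obtain ⟨h1, h2⟩ := std_cons.1 h
      have hne : y.1 ≠ (br y).1 := by simp [br]
      have h3 : aa true s (br y) = -1 := by
        have h4 := aa_br (y :: s) y
        rw [aa_perm hs, ← Multiset.cons_coe, aa_cons_self, h2,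
          aa_cons_far _ (fun c => hne (by rw [c])) fun c => hne (nb_iff.1 c).1] at h4
        rw [h4]
        rfl
      obtain ⟨v, h5, h6⟩ := h1.exists_rem h3
      have h7 : Std true ([y] ++ br y :: v) := Std.congr (u := [y]) h h5 h6.symm
      have h8 : (v.map br).Perm v := by
        have h9 : ((y :: br y :: v).map br).Perm (y :: br y :: v) :=
          ((h6.cons y).map br).trans (hs.trans (h6.cons y).symm)
        simp only [List.map_cons, br_br] at h9
        exact ((List.Perm.swap _ _ _).trans h9).cons_inv.cons_inv
      have hl : v.length < n := by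
        have := h6.length_eq
        simp only [List.length_cons] at this hn
        omega
      obtain ⟨m, hm, hp⟩ := ih _ hl (std_cons.1 h5).1 h8 rfl
      refine ⟨br y :: m, ?_, ?_⟩
      · simp only [dbl, br_br]
        exact Std.congr (u := [y, br y]) h7 hm hp.symm
      · simp only [dbl, br_br]
        exact ((hp.cons _).trans h6).cons y

/-- `perm_of_psum` for the contents of the two components -/
theorem br_of_psum {c : ℂ} (hc : c ≠ 0) (h : ∀ j : ℕ,
    (s.map fun x => (if x.1 = true then 1 else -1) * (c * x.2) ^ j).sum = 0) : (s.map br).Perm s := by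
  let A : Bool → List Box → List ℂ := fun i l =>
    (l.filter fun x => x.1 = i).map fun x => c * x.2
  have hA : ∀ (i : Bool) (x : Box) (l : List Box),
      A i (x :: l) = if x.1 = i then c * x.2 :: A i l else A i l := by
    intro i x l
    simp only [A, List.filter_cons, decide_eq_true_eq]
    split_ifs <;> simp
  have h1 : ∀ (j : ℕ) (l : List Box),
      (l.map fun x => (if x.1 = true then 1 else -1) * (c * x.2) ^ j).sum =
        ((A true l).map (· ^ j)).sum - ((A false l).map (· ^ j)).sum := by
    intro j l
    induction l with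
    | nil => simp [A]
    | cons x l ih =>
      rw [List.map_cons, List.sum_cons, ih, hA, hA]
      obtain ⟨i, d⟩ := x
      cases i <;> simp <;> ring
  have h2 : (A true s).Perm (A false s) :=
    perm_of_psum fun j => sub_eq_zero.1 ((h1 j s).symm.trans (h j))
  have h3 : ∀ (i : Bool) (d : ℤ) (l : List Box), (A i l).count (c * d) = l.count (i, d) := by
    intro i d l
    induction l with
    | nil => simp [A]
    | cons x l ih =>
      obtain ⟨i', d'⟩ := x
      rw [hA]
      by_cases e : i' = i
      · subst e
        simp [List.count_cons, ih, hc]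
      · simp [ih, e]
  refine List.perm_iff_count.2 fun x => ?_
  rw [← br_br x, count_br, br_br]
  obtain ⟨i, d⟩ := x
  have h4 := h2.count_eq (c * d)
  rw [h3, h3] at h4
  cases i
  · exact h4
  · exact h4.symm

end

end Pool.Agent.P.MP_1a0ecf_al.K
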