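import Pool.Agent.P.MP_1a0ecf_al.K.Gam
import Pool.Agent.P.MP_1a0ecf_al.K.T4

/-! Package Yq: integral elements at the two kinds of places. -/

namespace Pool.Agent.P.MP_1a0ecf_al.K

open Sn
open scoped Classical

set_option linter.unusedSectionVars false

noncomputable section

variable {F H : Type} [Field F] [Ring H] [Algebra F H]

variable {Γ : Type} [AddCommGroup Γ] [LinearOrder Γ] [IsOrderedAddMonoid Γ]


namespace Tw

section Gen

variable (t : Tw F H) (f : List Box → Box → H) (φ : List Box → Box → Box → F)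

/-- the product of the factors attached to the suffixes -/
def yy : List Box → H
  | [] => 1
  | z :: l => yy l * f l z

/-- the eigenvalue of `yy` -/
def cc : List Box → List Box → F
  | z :: l, x :: s => cc l s * φ l z x
  | _, _ => 1

variable {t f φ}

theorem yy_E (h : ∀ l z u x s, s.length = l.length →
    f l z * t.E (u ++ x :: s) = φ l z x • t.E (u ++ x :: s)) (b : List Box) :
    ∀ u s : List Box, s.length = b.length → yy f b * t.E (u ++ s) = cc φ b s • t.E (u ++ s) := by
  induction b with
  | nil =>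
    intro u s _
    simp [yy, cc]
  | cons z l ih =>
    intro u s hs
    obtain _ | ⟨x, s⟩ := s
    · simp at hs
    have hl : s.length = l.length := by simpa using hs
    have e := ih (u ++ [x]) s hl
    rw [List.append_assoc, List.singleton_append] at e
    rw [yy, cc, mul_assoc, h l z u x s hl, mul_smul_comm, e, smul_smul, mul_comm]

theorem yy_mem (Λ : Lat t) {b : List Box} (h : ∀ u z l, b = u ++ z :: l → f l z ∈ Λ.HR) :
    yy f b ∈ Λ.HR := by
  induction b with
  | nil => exact one_mem _
  | cons z l ih =>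
    exact mul_mem (ih fun u y m e => h (z :: u) y m (by rw [e]; rfl)) (h [] z l rfl)

theorem cc_un (Λ : Lat t) {r : Box → Box → Prop} {b : List Box}
    (h : ∀ u z l, b = u ++ z :: l → Un Λ.R (φ l z z / gp t.ξ t.lv r z l)) :
    Un Λ.R (cc φ b b / t.ga r b) := by
  induction b with
  | nil => simpa [cc, gam] using (Un.one : Un Λ.R (1 : F))
  | cons z l ih =>
    rw [cc, ga, gam, mul_div_mul_comm]
    exact (ih fun u y m e => h (z :: u) y m (by rw [e]; rfl)).mul (h [] z l rfl)

theorem sum_mem (Λ : Lat t) (h : ∀ l z u x s, s.length = l.length →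
    f l z * t.E (u ++ x :: s) = φ l z x • t.E (u ++ x :: s)) {k : ℕ} {b : List Box}
    (hb : b.length = k) (hy : yy f b ∈ Λ.HR) {U : List Box → Prop} [DecidablePred U]
    (hU : t.eU k U ∈ Λ.HR) :
    ∑ s ∈ tabs t.lv k, (if U s then cc φ b s else 0) • t.E s ∈ Λ.HR := by
  have e : yy f b * t.eU k U = ∑ s ∈ tabs t.lv k, (if U s then cc φ b s else 0) • t.E s := by
    rw [t.w3_ite, Finset.mul_sum]
    refine Finset.sum_congr rfl fun s hs => ?_
    split_ifs
    · exact yy_E h b [] s ((mem_tabs.1 hs).1.trans hb.symm)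
    · simp
  rw [← e]
  exact mul_mem hy hU

theorem Xs_E (t : Tw F H) (c : F) (u : List Box) (x : Box) {s : List Box} {k : ℕ}
    (hs : s.length = k) :
    (t.X k - c • 1) * t.E (u ++ x :: s) = (t.ξ x - c) • t.E (u ++ x :: s) := by
  subst hs
  rw [sub_mul, t.X_E, smul_mul_assoc, one_mul, sub_smul]

end Gen

variable {t : Tw F H} (Λ : Lat t)

theorem Lat.ze_mem : t.ze ∈ Λ.R := by
  refine sub_mem Λ.hq.1 ?_
  rw [Units.val_inv_eq_inv_val]
  exact Λ.hq.2.1

theorem Lat.xi_div (i : Bool) (c : ℤ) : t.ze⁻¹ * (t.ξ (i, c) - t.ξ (i, 0)) ∈ Λ.R := by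
  have key : ∀ x : Box, t.ze⁻¹ * (t.ξ (up x) - t.ξ x) ∈ Λ.R := fun x => by
    have e : t.ξ (up x) - t.ξ x = t.ze * ((t.q : F) * t.ξ x) := by
      rw [ξ, xi_up, ze, Units.val_inv_eq_inv_val]
      have := t.q.ne_zero
      field_simp
    rw [e, inv_mul_cancel_left₀ t.ze_ne]
    exact mul_mem Λ.hq.1 (Λ.un_xi x).1
  induction c using Int.induction_on with
  | zero => simp
  | succ c ih =>
    have := add_mem ih (key (i, c))
    rwa [← mul_add, add_comm, sub_add_sub_cancel] at this
  | pred c ih =>
    have := sub_mem ih (key (i, -(c : ℤ) - 1))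
    rw [← mul_sub] at this
    have e : up (i, -(c : ℤ) - 1) = (i, -(c : ℤ)) := by simp [up]
    rw [e] at this
    convert this using 2
    ring

theorem Lat.Ti_mem (k : ℕ) : t.T k - t.ze • 1 ∈ Λ.HR :=
  sub_mem (Λ.hT k) (Λ.one_smul Λ.ze_mem)

theorem X_succ' (t : Tw F H) (k : ℕ) : t.X (k + 1) =
    t.T k * t.X k * (t.T k - t.ze • 1) + t.ze • (t.T k * t.X k) := by
  rw [t.X_succ, mul_sub, mul_smul_comm, mul_one, sub_add_cancel]

theorem Lat.dv_one (hl : t.lv = false) {k : ℕ} (hk : k < t.n) :
    ∃ w ∈ Λ.HR, t.X k - (t.Q : F) • 1 = t.ze • w := by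
  induction k with
  | zero => exact ⟨0, zero_mem _, by rw [X, jm, t.X0_one hl, sub_self, smul_zero]⟩
  | succ k ih =>
    obtain ⟨w, hw, e⟩ := ih (by omega)
    refine ⟨t.T k * w * (t.T k - t.ze • 1) + t.T k * t.X k,
      add_mem (mul_mem (mul_mem (Λ.hT k) hw) (Λ.Ti_mem k)) (mul_mem (Λ.hT k) (Λ.X_mem k)), ?_⟩
    have e1 : t.X k = t.ze • w + (t.Q : F) • 1 := by rw [← e, sub_add_cancel]
    have e2 : t.T k * t.X k * (t.T k - t.ze • 1) =
        t.ze • (t.T k * w * (t.T k - t.ze • 1)) + (t.Q : F) • 1 := by
      rw [e1, mul_add, add_mul, mul_smul_comm, smul_mul_assoc, mul_smul_comm, mul_one,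
        smul_mul_assoc, t.T_inv hk]
    rw [X_succ', e2, smul_add]
    abel

theorem Lat.dv_two (hl : t.lv = true) {k : ℕ} (hk : k < t.n) :
    ∃ w ∈ Λ.HR, t.X k * t.X k - ((t.Q : F) - (t.Q⁻¹ : Fˣ)) • t.X k - 1 = t.ze • w := by
  have hc : (t.Q : F) - (t.Q⁻¹ : Fˣ) ∈ Λ.R := by
    refine sub_mem Λ.hQ.1 ?_
    rw [Units.val_inv_eq_inv_val]
    exact Λ.hQ.2.1
  induction k with
  | zero =>
    refine ⟨0, zero_mem _, ?_⟩
    rw [X, jm, t.X0_two hl hk, smul_zero]
    abel
  | succ k ih =>
    obtain ⟨w, hw, e⟩ := ih (by omega)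
    have h1 := t.T_inv hk
    have h2 := t.inv_T hk
    have hS := Λ.Ti_mem k
    have hT := Λ.hT k
    have hX := Λ.X_mem k
    rw [X_succ']
    generalize t.T k - t.ze • 1 = S at h1 h2 hS
    generalize t.T k = T at h1 h2 hT
    generalize t.X k = X at e hX
    generalize (t.Q : F) - (t.Q⁻¹ : Fˣ) = c at hc e
    have hY : T * X * S ∈ Λ.HR := mul_mem (mul_mem hT hX) hS
    have hV : T * X ∈ Λ.HR := mul_mem hT hX
    have e2 : T * X * S * (T * X * S) - c • (T * X * S) - 1 = t.ze • (T * w * S) := by
      have e3 : T * X * S * (T * X * S) = T * (X * X) * S := by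
        calc T * X * S * (T * X * S) = T * X * (S * T) * X * S := by simp only [mul_assoc]
          _ = _ := by rw [h2, mul_one]; simp only [mul_assoc]
      rw [← smul_mul_assoc t.ze, ← mul_smul_comm t.ze, ← e, e3, mul_sub,
        mul_sub, sub_mul, sub_mul, mul_one, h1, mul_smul_comm, smul_mul_assoc]
    refine ⟨T * w * S + (T * X * S * (T * X) + T * X * (T * X * S) + t.ze • (T * X * (T * X)) -
      c • (T * X)), add_mem (mul_mem (mul_mem hT hw) hS) (sub_mem (add_mem (add_mem
        (mul_mem hY hV) (mul_mem hV hY)) (Λ.smul _ Λ.ze_mem _ (mul_mem hV hV)))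
        (Λ.smul _ hc _ hV)), ?_⟩
    generalize T * X * S = Y at e2
    generalize T * X = V
    rw [smul_add t.ze, ← e2]
    simp only [add_mul, mul_add, smul_mul_assoc, mul_smul_comm, smul_add, smul_sub, smul_smul,
      mul_comm c]
    abel

/-- `X (k + 1) = T * X k * T⁻¹ + ze • T * X k`; the set of `ze • h`, `h ∈ HR`, is an ideal of `HR`;
`ξ x - ξ (x.1, 0)` lies in `ze * R`. -/
theorem Lat.div_mem {k : ℕ} (hk : k < t.n) {x : Box} (hx : K.ok t.lv x) :
    t.ze⁻¹ • ((t.X k - t.ξ x • 1) * if t.lv = true then t.X k - t.ξ (!x.1, 0) • 1 else 1) ∈ Λ.HR := by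
  obtain ⟨i, c⟩ := x
  have hd := Λ.xi_div i c
  have e0 : t.X k - t.ξ (i, c) • (1 : H) =
      t.X k - t.ξ (i, 0) • 1 - (t.ξ (i, c) - t.ξ (i, 0)) • 1 := by
    rw [sub_smul]; abel
  have x1 : t.ξ (true, 0) = t.Q := by simp [xi]
  have x2 : t.ξ (false, 0) = -((t.Q⁻¹ : Fˣ) : F) := by simp [xi]
  rw [e0, sub_mul, smul_sub, smul_mul_assoc, one_mul, smul_smul]
  split_ifs with hl
  · refine sub_mem ?_ (Λ.smul _ hd _ (sub_mem (Λ.X_mem k) (Λ.one_smul (Λ.un_xi _).1)))
    obtain ⟨w, hw, e⟩ := Λ.dv_two hl hk
    have e1 : (t.X k - t.ξ (i, 0) • 1) * (t.X k - t.ξ (!i, 0) • 1) =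
        t.X k * t.X k - ((t.Q : F) - (t.Q⁻¹ : Fˣ)) • t.X k - 1 := by
      have e2 : t.ξ (i, 0) * t.ξ (!i, 0) = -1 := by
        cases i <;> simp [x1, x2]
      have e3 : t.ξ (i, 0) + t.ξ (!i, 0) = (t.Q : F) - (t.Q⁻¹ : Fˣ) := by
        cases i
        · simp only [Bool.not_false, x1, x2]; ring
        · simp only [Bool.not_true, x1, x2]; ring
      rw [← e3, sub_mul, mul_sub, mul_sub, mul_smul_comm, mul_one, smul_mul_assoc, one_mul,
        smul_mul_assoc, one_mul, smul_smul, e2, add_smul, neg_smul, _root_.one_smul]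
      abel
    rw [e1, e, smul_smul, inv_mul_cancel₀ t.ze_ne, _root_.one_smul]
    exact hw
  · refine sub_mem ?_ (Λ.one_smul hd)
    have hi : i = true := hx.resolve_left hl
    subst hi
    obtain ⟨w, hw, e⟩ := Λ.dv_one (by simpa using hl) hk
    rw [mul_one, x1, e, smul_smul, inv_mul_cancel₀ t.ze_ne, _root_.one_smul]
    exact hw

theorem Lat.un_comp (h : t.lv = true → ∀ c c' : ℤ, Un Λ.R (t.ξ (true, c) - t.ξ (false, c')))
    {x y : Box} (hx : K.ok t.lv x) (hy : K.ok t.lv y) (e : x.1 ≠ y.1) :
    Un Λ.R (t.ξ x - t.ξ y) := by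
  obtain ⟨i, c⟩ := x
  obtain ⟨j, d⟩ := y
  cases i <;> cases j
  · exact (e rfl).elim
  · simpa using (h (hx.resolve_right (by simp)) d c).neg
  · exact h (hy.resolve_right (by simp)) c d
  · exact (e rfl).elim

theorem Lat.h1_q (h : t.lv = true → ∀ c c' : ℤ, Un Λ.R (t.ξ (true, c) - t.ξ (false, c')))
    {a : Γ} (ha : 0 < a) (b : Γ) : Λ.H1 true fun x z => dd a b x < dd a b z := by
  refine ⟨fun x => lt_irrefl _, fun x y hx hy hf => ?_⟩
  rcases hf with hf | hf
  · exact Or.inl (Λ.un_comp h hx hy (by rw [hf.1]; exact hf.2.symm))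
  · have := (dd_lt ha b hf.1.symm).2 hf.2
    exact Or.inr ⟨this, this.asymm⟩

/-- the factor `gp` up to units, two exceptional boxes -/
theorem Lat.un_gp {r : Box → Box → Prop} {z : Box} {l : List Box} (hl : Std t.lv l) {x0 x1 : Box}
    {A B : F} (h0 : A = 1 ∨ aa t.lv l x0 ≠ 0) (h1 : B = 1 ∨ aa t.lv l x1 ≠ 0)
    (h : ∀ x, Un Λ.R (((if x = x0 then A else 1) * if x = x1 then B else 1) /
      if r x z then (t.ξ z - t.ξ x) ^ aa t.lv l x else 1)) :
    Un Λ.R (A * B / gp t.ξ t.lv r z l) := by
  have k : ∀ {y : Box} {C : F}, C = 1 ∨ aa t.lv l y ≠ 0 →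
      C = ∏ x ∈ bx l.length, if x = y then C else 1 := by
    intro y C hC
    rcases hC with rfl | hC
    · simp
    · rw [Finset.prod_ite_eq', if_pos (mem_bx.2 (hl.abs_lt.2 y hC))]
  rw [k h0, k h1, gp, ← Finset.prod_mul_distrib, ← Finset.prod_div_distrib]
  exact Un.prod fun x _ => h x

theorem low_suffix {o : Bool} {u l : List Box} (h : Low o (u ++ l)) : Low o l :=
  List.IsChain.right_of_append h

/-- `y = eU k (same component sequence as b) * ∏`, one factor `div_mem` with `x = low l z.1` for
every suffix `z :: l` of `b` with `z ≠ low l z.1`. A nonzero coefficient gives `Surv s b`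
(`surv_om`). The coefficient of `E b` is compared step by step with `gp` (`low_struct`,
`below_low`, `ξ z - ξ (dn z) = ξ z * q⁻¹ * ze`). -/
theorem Lat.hasY_q (h : t.lv = true → ∀ c c' : ℤ, Un Λ.R (t.ξ (true, c) - t.ξ (false, c')))
    {a : Γ} (ha : 0 < a) (b : Γ) {k : ℕ} (hk : k ≤ t.n) : Λ.HasY true k (om a b) := by
  intro w hw hlow
  obtain ⟨hwk, hws⟩ := mem_tabs.1 hw
  let f : List Box → Box → H := fun l z => if z = low l z.1 then 1 else
    t.ze⁻¹ • ((t.X l.length - t.ξ (low l z.1) • 1) *
      if t.lv = true then t.X l.length - t.ξ (!z.1, 0) • 1 else 1)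
  let φ : List Box → Box → Box → F := fun l z x => if z = low l z.1 then 1 else
    t.ze⁻¹ * ((t.ξ x - t.ξ (low l z.1)) * if t.lv = true then t.ξ x - t.ξ (!z.1, 0) else 1)
  have hf : ∀ l z u x s, s.length = l.length →
      f l z * t.E (u ++ x :: s) = φ l z x • t.E (u ++ x :: s) := by
    intro l z u x s hs
    simp only [f, φ]
    split_ifs
    · simp
    · rw [smul_mul_assoc, mul_assoc, t.Xs_E _ u x hs, mul_smul_comm, t.Xs_E _ u x hs, smul_smul,
        smul_smul]
      congr 1; ring
    · rw [smul_mul_assoc, mul_one, t.Xs_E _ u x hs, smul_smul, mul_one]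
  have hsuf : ∀ u z l, w = u ++ z :: l → Std t.lv (z :: l) ∧ Low true (z :: l) ∧ l.length < t.n := by
    intro u z l e
    subst e
    refine ⟨hws.suffix, low_suffix hlow, ?_⟩
    simp only [List.length_append, List.length_cons] at hwk
    omega
  have hy : yy f w ∈ Λ.HR := by
    refine yy_mem Λ fun u z l e => ?_
    obtain ⟨h1, -, h3⟩ := hsuf u z l e
    simp only [f]
    split_ifs with c
    · exact one_mem _
    all_goals
      have := Λ.div_mem h3 (x := low l z.1) (ok_of_mem (x := z) h1 List.mem_cons_self)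
      simp only [*, if_true] at this ⊢
      exact this
  refine ⟨fun s => if s.map Prod.fst = w.map Prod.fst then cc φ w s else 0, sum_mem Λ hf hwk hy
    (U := fun s => s.map Prod.fst = w.map Prod.fst)
    (Λ.eU_mem Prod.fst (fun x y hx hy e => Λ.un_comp h hx hy e) hk fun s u e h => e.symm.trans h),
    ?_, ?_⟩
  · intro s hs hc
    beta_reduce at hc
    have key : ∀ u s : List Box, s.map Prod.fst = u.map Prod.fst → cc φ u s ≠ 0 → Surv s u := by
      intro u
      induction u with
      | nil =>
        intro s e _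
        rw [List.map_eq_nil_iff.1 e]
        exact Surv.nil
      | cons z l ih =>
        intro s e hc
        obtain _ | ⟨x, s⟩ := s
        · simp at e
        rw [List.map_cons, List.map_cons, List.cons.injEq] at e
        rw [cc] at hc
        refine Surv.cons (ih s e.2 (left_ne_zero_of_mul hc)) e.1 fun c e' => ?_
        apply right_ne_zero_of_mul hc
        simp only [φ]
        rw [if_neg c, e', sub_self, zero_mul, mul_zero]
    by_cases e : s.map Prod.fst = w.map Prod.fst
    · rw [if_pos e] at hc
      exact surv_om ha b (key w s e hc) (mem_tabs.1 hs).2 hws hlow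
    · exact (hc (if_neg e)).elim
  · beta_reduce
    rw [if_pos rfl]
    refine cc_un Λ fun u z l e => ?_
    obtain ⟨h1, h2, -⟩ := hsuf u z l e
    obtain ⟨h3, h4⟩ := std_cons.1 h1
    have oz : K.ok t.lv z := ok_of_aa h3 (by omega)
    have far : ∀ x : Box, z.1 ≠ x.1 → Un Λ.R ((1 : F) /
        if Fst true z x then (t.ξ z - t.ξ x) ^ aa t.lv l x else 1) := fun x e => by
      rw [one_div]
      refine Un.inv ?_
      split_ifs
      · by_cases c : aa t.lv l x = 0
        · rw [c, zpow_zero]; exact Un.one
        · exact (Λ.un_comp h oz (ok_of_aa h3 c) e).zpow _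
      · exact Un.one
    simp only [φ]
    split_ifs with c hl
    · have := Λ.un_gp (r := fun x z => Fst true z x) (z := z) h3 (x0 := z) (x1 := z) (A := 1)
        (B := 1) (Or.inl rfl) (Or.inl rfl) fun x => by
          rw [ite_self, one_mul]
          by_cases e : z.1 = x.1
          · split_ifs with hf
            · have h5 : x.2 < z.2 := by
                rcases hf with hf | hf
                · exact (hf.2 (e ▸ hf.1)).elim
                · exact hf.2
              rw [below_low h3 (by rw [← e, ← c]; exact h5), zpow_zero, div_one]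
              exact Un.one
            · rw [div_one]; exact Un.one
          · exact far x e
      rwa [one_mul] at this
    all_goals
      obtain ⟨h5, h6⟩ := low_struct h1 h2 c
      have n1 : low l z.1 ≠ dn z := fun e => by
        have := congrArg Prod.snd e
        simp only [dn] at this
        omega
      have a0 : aa t.lv l (low l z.1) = 1 := by rw [h6 (low l z.1) rfl (by omega), if_pos rfl]
      have a1 : aa t.lv l (dn z) = -1 := by
        rw [h6 (dn z) rfl (by simp [dn]), if_neg n1.symm, if_pos rfl]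
      have hA : t.ξ z - t.ξ (low l z.1) ≠ 0 := t.xi_sub_ne c
      have hB : t.ξ z - t.ξ (dn z) ≠ 0 := t.xi_sub_ne (dn_ne z).symm
      have h7 := Λ.un_gp (r := fun x z => Fst true z x) (z := z) h3 (x0 := low l z.1) (x1 := dn z)
        (A := t.ξ z - t.ξ (low l z.1)) (B := (t.ξ z - t.ξ (dn z))⁻¹) (Or.inr (by omega))
        (Or.inr (by omega)) fun x => by
          by_cases e0 : x = low l z.1
          · rw [if_pos e0, if_neg (e0 ▸ n1), e0,
              if_pos (show Fst true z (low l z.1) from Or.inr ⟨rfl, by omega⟩), a0, zpow_one,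
              mul_one, div_self hA]
            exact Un.one
          by_cases e1 : x = dn z
          · rw [if_neg e0, if_pos e1, e1,
              if_pos (show Fst true z (dn z) from Or.inr ⟨rfl, by simp [dn]⟩), a1, zpow_neg_one,
              one_mul, div_self (inv_ne_zero hB)]
            exact Un.one
          rw [if_neg e0, if_neg e1, one_mul]
          by_cases e : z.1 = x.1
          · split_ifs with hf
            · have h8 : x.2 < z.2 := by
                rcases hf with hf | hf
                · exact (hf.2 (e ▸ hf.1)).elim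
                · exact hf.2
              rw [h6 x e.symm h8, if_neg e0, if_neg e1, zpow_zero, div_one]
              exact Un.one
            · rw [div_one]; exact Un.one
          · exact far x e
      have e8 : t.ξ z - t.ξ (dn z) = t.ξ z * (t.q : F)⁻¹ * t.ze := by
        rw [ξ, xi_dn, ze, Units.val_inv_eq_inv_val]
        have := t.q.ne_zero
        field_simp
      have h9 := h7.mul ((Λ.un_xi z).mul Λ.hq.inv)
      have hz := t.ze_ne
      have hx : t.ξ z ≠ 0 := (Λ.un_xi z).2.2
      have hq := t.q.ne_zero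
    · convert h9.mul (Λ.un_comp h oz (y := (!z.1, 0)) (Or.inl hl) (by simp)) using 1
      rw [e8]
      field_simp
    · convert h9 using 1
      rw [e8]
      field_simp

theorem Lat.h1_p {m : ℤ} (h : ∀ x y, rs m x ≠ rs m y → Un Λ.R (t.ξ x - t.ξ y)) {a b : Γ} {o : Bool}
    (ho : o = true → 0 < b + m • a) (ho' : o = false → b + m • a < 0) :
    Λ.H1 o fun x z => dd a b x < dd a b z := by
  refine ⟨fun x => lt_irrefl _, fun x y _ _ hf => ?_⟩
  by_cases e : rs m x = rs m y
  swap
  · exact Or.inl (h x y e)
  have e1 : y = par m x := (rs_eq_iff.1 e).resolve_left hf.ne.symm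
  have e2 : x.1 = o := by
    rcases hf with hf | hf
    · exact hf.1
    · have := hf.1
      rw [e1, par_fst] at this
      simp at this
  have key : dd a b y < dd a b x := by
    cases o
    · have h1 : y.1 = true := by rw [e1, par_fst, e2]; rfl
      have h2 := dd_par a b m h1
      rw [e1, par_par, ← e1] at h2
      rw [h2, two_nsmul, add_lt_iff_neg_left]
      exact add_neg (ho' rfl) (ho' rfl)
    · rw [dd_par a b m e2, ← e1, two_nsmul, lt_add_iff_pos_right]
      exact add_pos (ho rfl) (ho rfl)
  exact Or.inr ⟨key, key.asymm⟩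

/-- `b = v ++ w` (`low_split`), `y = eU k (same residue sequence as b) * ∏ (j < w.length)
(X j - ξ (!o, 0))`; support by `res_om`, leading coefficient by `aa_of_empty`. -/
theorem Lat.hasY_p (hl : t.lv = true) {m : ℤ} (h : ∀ x y, rs m x ≠ rs m y → Un Λ.R (t.ξ x - t.ξ y))
    {a b : Γ} {o : Bool} (ho : o = true → 0 < b + m • a) (ho' : o = false → b + m • a < 0) {k : ℕ}
    (hk : k ≤ t.n) : Λ.HasY o k (om a b) := by
  intro p hp hlow
  obtain ⟨hpk, hps⟩ := mem_tabs.1 hp
  let f : List Box → Box → H := fun l z => if z.1 = o then t.X l.length - t.ξ (!o, 0) • 1 else 1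
  let φ : List Box → Box → Box → F := fun _ z x => if z.1 = o then t.ξ x - t.ξ (!o, 0) else 1
  have hf : ∀ l z u x s, s.length = l.length →
      f l z * t.E (u ++ x :: s) = φ l z x • t.E (u ++ x :: s) := by
    intro l z u x s hs
    simp only [f, φ]
    split_ifs
    · exact t.Xs_E _ u x hs
    · simp
  have hy : yy f p ∈ Λ.HR := by
    refine yy_mem Λ fun u z l _ => ?_
    simp only [f]
    split_ifs
    · exact sub_mem (Λ.X_mem _) (Λ.one_smul (Λ.un_xi _).1)
    · exact one_mem _
  refine ⟨fun s => if s.map (rs m) = p.map (rs m) then cc φ p s else 0, sum_mem Λ hf hpk hy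
    (U := fun s => s.map (rs m) = p.map (rs m))
    (Λ.eU_mem (rs m) (fun x y _ _ e => h x y e) hk fun s u e h => e.symm.trans h), ?_, ?_⟩
  · intro s hs hc
    beta_reduce at hc
    obtain ⟨hsk, hss⟩ := mem_tabs.1 hs
    by_cases e : s.map (rs m) = p.map (rs m)
    swap
    · exact (hc (if_neg e)).elim
    rw [if_pos e] at hc
    obtain ⟨v, w, rfl, hv, hw⟩ := low_split hlow
    have k1 : ∀ w w' : List Box, (∀ y ∈ w, y.1 = o) → w'.length = w.length → cc φ w w' ≠ 0 →
        (!o, 0) ∉ w' := by
      intro w
      induction w with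
      | nil =>
        intro w' _ e _
        rw [List.length_eq_zero_iff.1 e]
        exact List.not_mem_nil
      | cons z l ih =>
        intro w' hw e hc
        obtain _ | ⟨x, s⟩ := w'
        · simp at e
        rw [cc] at hc
        rw [List.mem_cons, not_or]
        refine ⟨fun e' => right_ne_zero_of_mul hc ?_, ih s (fun y hy => hw y (by simp [hy]))
          (by simpa using e) (left_ne_zero_of_mul hc)⟩
        simp only [φ]
        rw [if_pos (hw z List.mem_cons_self), ← e', sub_self]
    have k2 : ∀ v v' w' : List Box, v'.length = v.length → cc φ (v ++ w) (v' ++ w') ≠ 0 →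
        cc φ w w' ≠ 0 := by
      intro v
      induction v with
      | nil =>
        intro v' w' e hc
        rwa [List.length_eq_zero_iff.1 e] at hc
      | cons z l ih =>
        intro v' w' e hc
        obtain _ | ⟨x, s⟩ := v'
        · simp at e
        rw [List.cons_append, List.cons_append, cc] at hc
        exact ih s w' (by simpa using e) (left_ne_zero_of_mul hc)
    rw [List.length_append] at hpk
    have l1 : (s.take v.length).length = v.length := by rw [List.length_take]; omega
    have l2 : (s.drop v.length).length = w.length := by rw [List.length_drop]; omega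
    rw [← List.take_append_drop v.length s] at hc e hss ⊢
    rw [hl] at hss
    exact res_om ho ho' hss hv hw l2 e (k1 w _ hw l2 (k2 v _ _ l1 hc))
  · beta_reduce
    rw [if_pos rfl]
    refine cc_un Λ fun u z l e => ?_
    subst e
    obtain ⟨h3, h4⟩ := std_cons.1 hps.suffix
    have same : ∀ x : Box, z.1 = x.1 → Un Λ.R ((1 : F) /
        if Fst o z x then (t.ξ z - t.ξ x) ^ aa t.lv l x else 1) := fun x e => by
      rw [one_div]
      refine Un.inv ?_
      split_ifs with hf
      · refine (h z x fun c => ?_).zpow _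
        rcases rs_eq_iff.1 c with c | c
        · exact hf.ne c.symm
        · rw [c, par_fst] at e
          simp at e
      · exact Un.one
    simp only [φ]
    split_ifs with c
    · obtain ⟨v, w, e, hv, hw⟩ := low_split (low_suffix hlow)
      have hlo : ∀ y ∈ l, y.1 ≠ !o := by
        obtain _ | ⟨y, v⟩ := v
        · intro y hy
          rw [hw y (by rw [← List.nil_append w, ← e]; exact List.mem_cons_of_mem _ hy)]
          simp
        · rw [List.cons_append, List.cons.injEq] at e
          exact (hv y List.mem_cons_self (e.1 ▸ c)).elim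
      have ha : ∀ x : Box, x.1 = !o → aa t.lv l x = if x.2 = 0 then 1 else 0 := fun x e => by
        rw [aa_of_empty hlo e, aa_zero]
        simp [hl]
      have hA : t.ξ z - t.ξ (!o, 0) ≠ 0 := t.xi_sub_ne fun e => by
        rw [e] at c
        simp at c
      have := Λ.un_gp (r := fun x z => Fst o z x) (z := z) h3 (x0 := (!o, 0)) (x1 := z)
        (A := t.ξ z - t.ξ (!o, 0)) (B := 1) (Or.inr (by rw [ha _ rfl]; simp)) (Or.inl rfl)
        fun x => by
          rw [ite_self, mul_one]
          by_cases e0 : x = (!o, 0)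
          · rw [if_pos e0, e0, if_pos (show Fst o z (!o, 0) from Or.inl ⟨c, by simp⟩), ha _ rfl,
              if_pos rfl, zpow_one,
              div_self hA]
            exact Un.one
          rw [if_neg e0]
          by_cases e : z.1 = x.1
          · exact same x e
          · have e1 : x.1 = !o := by
              rw [c] at e
              exact Bool.eq_not.2 (Ne.symm e)
            rw [ha x e1, if_neg fun e2 => e0 (Prod.ext e1 e2), zpow_zero, ite_self, div_one]
            exact Un.one
      rwa [mul_one] at this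
    · have := Λ.un_gp (r := fun x z => Fst o z x) (z := z) h3 (x0 := z) (x1 := z) (A := 1)
        (B := 1) (Or.inl rfl) (Or.inl rfl) fun x => by
          rw [ite_self, one_mul]
          by_cases e : z.1 = x.1
          · exact same x e
          · rw [if_neg, div_one]
            · exact Un.one
            · rintro (hf | hf)
              · exact c hf.1
              · exact e hf.1
      rwa [one_mul] at this

end Tw

end

end Pool.Agent.P.MP_1a0ecf_al.K
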