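import Pool.Agent.P.MP_1a0ecf_al.K.IB
import Pool.Agent.P.MP_1a0ecf_al.K.Fam
import Pool.Agent.P.MP_1a0ecf_al.K.Yq
import Pool.Agent.P.MP_1a0ecf_al.K.Spc

/-! Package IntB: integrality of the minors. -/

namespace Pool.Agent.P.MP_1a0ecf_al.K

open Sn
open scoped Classical

set_option linter.unusedSectionVars false

noncomputable section

variable {X : F.Cox} {Γ : Type} [AddCommGroup Γ] [LinearOrder Γ] [IsOrderedAddMonoid Γ]
  {L : Fin X.n → Γ}


theorem bar_of_gen (B : KB X Γ L) (t : Tw (KK Γ) B.E.H) {a b : Γ} (hQ : t.Q = mK b) (hq : t.q = mK a)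
    (hT : ∀ k, ∃ w, w * w = 1 ∧ t.T k = B.E.T w) (hX : ∃ w, w * w = 1 ∧ t.X0 = B.E.T w) :
    Tw.Bar t (bK Γ) B.bk := by
  have key : ∀ w : X.W, w * w = 1 → B.bk (B.E.T w) * B.E.T w = 1 := fun w hw => by
    rw [B.bk_T, inv_eq_of_mul_eq_one_right hw, B.E.Ti_mul_T]
  refine ⟨B.bk_smul, by rw [hQ, bK_mK, mK_neg], by rw [hq, bK_mK, mK_neg], fun k _ => ?_, fun _ => ?_⟩
  · obtain ⟨w, hw, e⟩ := hT k
    rw [e, key w hw]
  · obtain ⟨w, hw, e⟩ := hX
    rw [e, key w hw]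

theorem IntP.sN_sq (k : ℕ) : X.sN k * X.sN k = 1 := by
  unfold F.Cox.sN
  split_ifs
  · exact X.cs.simple_mul_simple_self _
  · exact one_mul 1

theorem IntP.un_mK {R : Subring (KK Γ)} (hR : AA Γ ≤ R) (γ : Γ) : Un R (mK γ : KK Γ) :=
  ⟨hR (mK_mem γ), by rw [← Units.val_inv_eq_inv_val, ← mK_neg]; exact hR (mK_mem _),
    (mK γ).ne_zero⟩

/-- level one: the q-place with `R = AA Γ` (`mkLat`, `h1_q`, `hasY_q`, `mn_mem`), `N = 0` -/
theorem exists_KTA {a : Γ} (ha : 0 < a) (B : KB X Γ fun _ => a) (hX : X.Is (F.pathM 0 3)) :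
    ∃ t : KT B a 0, IsA B.E t.toTw := by
  obtain ⟨t, h, hQ, hq⟩ := exists_twA B.E hX (q0 := mK a) (fun _ => rfl)
    (by rw [← mK_zero]; exact xi_inj ha 0) (aniso B.E)
  have hQ' : t.Q = mK 0 := hQ.trans mK_zero.symm
  have hT : ∀ k, In B.E (AA Γ) (t.T k) := fun k => h.T k ▸ in_T B.E _ _
  have hX0 : In B.E (AA Γ) t.X0 := by rw [h.X0, ← B.E.T_one]; exact in_T B.E _ _
  let Λ : t.Lat := mkLat B.E t (AA Γ) (B.ze_mem le_rfl) (hQ' ▸ IntP.un_mK le_rfl 0)
    (by rw [hq]; exact IntP.un_mK le_rfl a) hT hX0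
  have hl : t.lv = true → ∀ c c' : ℤ, Un Λ.R (t.ξ (true, c) - t.ξ (false, c')) := fun e => by
    rw [h.lv] at e
    exact absurd e Bool.false_ne_true
  refine ⟨⟨t, ha, hQ', hq, h.τ, h.fl, bar_of_gen B t hQ' hq (fun k => ⟨_, IntP.sN_sq k, h.T k⟩)
    ⟨1, one_mul 1, h.X0.trans B.E.T_one.symm⟩, hT, hX0, fun k => ⟨_, h.Hk k⟩,
    fun k hk U hU => ⟨0, fun g => ?_⟩⟩, h⟩
  rw [pow_zero, one_mul]
  exact Λ.mn_mem (Λ.h1_q hl ha 0) hk (Λ.hasY_q hl ha 0 hk) hU fun i c hc => hc (g i)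

/-- The generic algebra. `x = cf * mn` lies in `Rq` (q-place) and in `Rp m` for `b + m • a ≠ 0`
(`h1_p`, `hasY_p` with `o = decide (0 < b + m • a)`, `mn_flip`); `remove`. -/
theorem int_generic {q : Fin X.n → (KK G2)ˣ} (E : F.HA X (KK G2) q) (hq : ∀ i, E.ze i ∈ AA G2)
    {t : Tw (KK G2) E.H} (h : IsB E t) (hQ : t.Q = mK eQ) (hq' : t.q = mK eq') {a : Γ} (ha : 0 < a)
    (b : Γ) {k : ℕ} (hk : k ≤ t.n) {U : List Box → Prop} (hU : Up (om a b) U)
    (g : List Box × List Box → X.W) :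
    t.cf (fun x z => dd a b x < dd a b z) true k U * t.mn true k U (fun i => E.T.coord (g i)) ∈
      Den (Submonoid.closure (piA '' {m | b + m • a = 0})) := by
  have hξ : t.ξ = xi (mK eQ) (mK eq') := by rw [Tw.ξ, hQ, hq']
  let Λ : ∀ P : Submonoid (GA G2), t.Lat := fun P =>
    mkLat E t (Den P) (fun i => AA_le_Den P (hq i)) (hQ ▸ IntP.un_mK (AA_le_Den P) eQ)
      (hq' ▸ IntP.un_mK (AA_le_Den P) eq') (fun k => h.T k ▸ in_T E _ _) (h.X0 ▸ in_T E _ _)
  refine remove _ ?_ fun m hm => ?_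
  · have hl : t.lv = true → ∀ c c' : ℤ, Un (Λ (Submonoid.closure (Set.range piA))).R
        (t.ξ (true, c) - t.ξ (false, c')) := fun _ c c' => by
      rw [hξ]
      exact un_Rq c c'
    exact (Λ _).mn_mem ((Λ _).h1_q hl ha b) hk ((Λ _).hasY_q hl ha b hk) hU fun i c hc => hc (g i)
  · have hl : ∀ x y, rs m x ≠ rs m y → Un (Λ ((nonZeroDivisors (AddMonoidAlgebra ℂ ℤ)).comap
        (psi m))).R (t.ξ x - t.ξ y) := fun x y e => by
      rw [hξ]
      exact un_Rp e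
    have ho : decide (0 < b + m • a) = true → 0 < b + m • a := of_decide_eq_true
    have ho' : decide (0 < b + m • a) = false → b + m • a < 0 := fun e =>
      lt_of_le_of_ne (not_lt.1 (of_decide_eq_false e)) hm
    obtain ⟨ε, hε, e⟩ := t.mn_flip (fun x z => dd a b x < dd a b z) (decide (0 < b + m • a)) true
      hk hU.perm
    have k1 := (Λ _).mn_mem ((Λ _).h1_p hl ho ho') hk ((Λ _).hasY_p h.lv hl ho ho' hk) hU
      (φ := fun i => E.T.coord (g i)) fun i c hc => hc (g i)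
    rw [e]
    rcases hε with rfl | rfl
    · rw [one_mul]
      exact k1
    · rw [neg_one_mul]
      exact neg_mem k1

/-- pairs of elements of two Hecke algebras whose coefficients are related -/
theorem IntP.exists_S1 {R0 F' F'' : Type} [CommRing R0] [Field F'] [Field F'']
    {q0 : Fin X.n → R0ˣ} {q' : Fin X.n → F'ˣ} {q'' : Fin X.n → F''ˣ} (D : F.HA X R0 q0)
    (E' : F.HA X F' q') (E : F.HA X F'' q'') (φ' : R0 →+* F') (φ : R0 →+* F'')
    (h' : ∀ i, φ' (q0 i) = q' i) (h : ∀ i, φ (q0 i) = q'' i) (S0 : Subring (F' × F''))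
    (hS : ∀ r, (φ' r, φ r) ∈ S0) : ∃ S1 : Subring (E'.H × E.H),
      ∀ a' a, (a', a) ∈ S1 ↔ ∀ w, (E'.co a' w, E.co a w) ∈ S0 := by
  obtain ⟨f', -, f1', f2'⟩ := D.exists_map E' φ' h'
  obtain ⟨f, -, f1, f2⟩ := D.exists_map E φ h
  have hm : ∀ {R : Type} [CommRing R] {q : Fin X.n → Rˣ} (D : F.HA X R q) (a b : D.H) (w : X.W),
      D.co (a * b) w = ∑ x, ∑ y, D.co a x * D.co b y * D.co (D.T x * D.T y) w := by
    intro R _ q D a b w
    conv_lhs => rw [← D.T.sum_repr a, ← D.T.sum_repr b, Finset.sum_mul_sum]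
    simp only [F.HA.co, map_sum, Finsupp.finsetSum_apply, smul_mul_smul_comm, map_smul,
      Finsupp.smul_apply, smul_eq_mul]
  have hT : ∀ c : D.H, ∀ w, (E'.co (f' c) w, E.co (f c) w) ∈ S0 := fun c w => by
    rw [f2', f2]
    exact hS _
  refine ⟨{ carrier := {p | ∀ w, (E'.co p.1 w, E.co p.2 w) ∈ S0}
            mul_mem' := fun {p p'} hp hp' w => ?_
            one_mem' := fun w => ?_
            add_mem' := fun {p p'} hp hp' w => ?_
            zero_mem' := fun w => ?_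
            neg_mem' := fun {p} hp w => ?_ }, fun _ _ => Iff.rfl⟩
  · have e : (E'.co (p * p').1 w, E.co (p * p').2 w) = ∑ x, ∑ y, (E'.co p.1 x, E.co p.2 x) *
        (E'.co p'.1 y, E.co p'.2 y) *
          (E'.co (f' (D.T x * D.T y)) w, E.co (f (D.T x * D.T y)) w) := by
      rw [Prod.fst_mul, Prod.snd_mul, hm, hm]
      refine Prod.ext ?_ ?_
      · simp only [Prod.fst_sum, Prod.fst_mul, map_mul, f1']
      · simp only [Prod.snd_sum, Prod.snd_mul, map_mul, f1]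
    rw [e]
    exact S0.sum_mem fun x _ => S0.sum_mem fun y _ =>
      S0.mul_mem (S0.mul_mem (hp x) (hp' y)) (hT _ w)
  · have := hT 1 w
    rwa [map_one, map_one] at this
  · simpa [F.HA.co] using S0.add_mem (hp w) (hp' w)
  · have := hT 0 w
    rwa [map_zero, map_zero] at this
  · simpa [F.HA.co] using S0.neg_mem (hp w)

theorem IntP.ph2_pow {a b : Γ} {s : GA G2}
    (hs : s ∈ Submonoid.closure (piA '' {m | b + m • a = 0})) : ∃ N : ℕ, ph2 a b s = 2 ^ N := by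
  induction hs using Submonoid.closure_induction with
  | mem x hx =>
    obtain ⟨m, hm, rfl⟩ := hx
    exact ⟨1, by rw [ph2_pi hm, pow_one]⟩
  | one => exact ⟨0, by rw [map_one, pow_zero]⟩
  | mul x y _ _ hx hy =>
    obtain ⟨M, hM⟩ := hx
    obtain ⟨N, hN⟩ := hy
    exact ⟨M + N, by rw [map_mul, hM, hN, pow_add]⟩

/-- one exponent for all choices of rows -/
theorem IntP.unif {α W R : Type} [Fintype W] [One W] [CommRing R] (S : Subring R) (I : Finset α)
    (x : (α → W) → R) (hx : ∀ g g', (∀ i ∈ I, g i = g' i) → x g = x g')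
    (h : ∀ g, ∃ N : ℕ, 2 ^ N * x g ∈ S) : ∃ N : ℕ, ∀ g, 2 ^ N * x g ∈ S := by
  choose N hN using h
  let e : (I → W) → α → W := fun g i => if h : i ∈ I then g ⟨i, h⟩ else 1
  refine ⟨Finset.univ.sup fun g => N (e g), fun g => ?_⟩
  obtain ⟨c, hc⟩ := Nat.exists_eq_add_of_le' (Finset.le_sup (f := fun g => N (e g))
    (Finset.mem_univ fun i : I => g i))
  rw [hc, pow_add, mul_assoc, hx g (e fun i : I => g i) fun i hi => by simp [e, hi]]
  exact S.mul_mem (S.pow_mem (ofNat_mem S 2) c) (hN _)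

/-- Specialise: `exists_HA` over `KK G2`, `exists_SP (ph2 a b)`, and the pairs whose coefficients
lie in `S0` form a subring `S1` (right multiplication by the generators). `ph2_pi` turns the
denominators into powers of two; `mn` depends only on the restriction of `g` to the finite set `Ix`,
so one exponent works for all `g`. -/
theorem exists_KTB {a : Γ} (ha : 0 < a) (b : Γ) (B : KB X Γ (LB X a b)) (hX : X.Is (F.pathM 0 4)) :
    ∃ t : KT B a b, IsB B.E t.toTw := by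
  obtain ⟨t, h, hQ, hq⟩ := exists_twB B.E hX (Q := mK b) (q0 := mK a)
    (fun i => by simp only [LB]; split_ifs <;> rfl) (xi_inj ha b) (aniso B.E)
  obtain ⟨D⟩ := F.exists_HA X (GA G2) (fun i => F.vU (LB X eq' eQ i)) fun i j e => by
    rw [show LB X eq' eQ i = LB X eq' eQ j from conj_B hX _ _ i j e]
  obtain ⟨E'⟩ := F.exists_HA X (KK G2) (fun i => mK (LB X eq' eQ i)) fun i j e => by
    rw [show LB X eq' eQ i = LB X eq' eQ j from conj_B hX _ _ i j e]
  obtain ⟨t', h', hQ', hq'⟩ := exists_twB E' hX (Q := mK eQ) (q0 := mK eq')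
    (fun i => by simp only [LB]; split_ifs <;> rfl) (xi_inj eq'_pos eQ) (aniso E')
  obtain ⟨S0, s1, s2, s3⟩ := exists_SP (ph2 a b)
  have hv : ∀ γ, algebraMap (GA Γ) (KK Γ) (ph2 a b (F.vU γ : F.ZG G2)) = (mK (f2 a b γ) : KK Γ) :=
    fun γ => congrArg _ (F.mapG_vU (f2 a b) γ)
  have hm : ∀ γ, ((mK γ : KK G2), (mK (f2 a b γ) : KK Γ)) ∈ S0 := fun γ => by
    rw [← hv]
    exact s1 _
  obtain ⟨S1, hS1⟩ := IntP.exists_S1 D E' B.E (algebraMap (GA G2) (KK G2))
    ((algebraMap (GA Γ) (KK Γ)).comp (ph2 a b)) (fun _ => rfl) (fun i => by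
      rw [RingHom.comp_apply, hv]
      simp only [LB]
      split_ifs
      · rw [f2_eQ]
      · rw [f2_eq']) S0 s1
  have hT : ∀ w, (E'.T w, B.E.T w) ∈ S1 := fun w => (hS1 _ _).2 fun x => by
    simp only [F.HA.co, Module.Basis.repr_self, Finsupp.single_apply]
    split_ifs
    exacts [S0.one_mem, S0.zero_mem]
  let P : Pair t' t :=
    { S0 := S0
      S1 := S1
      n := h'.n.trans h.n.symm
      lv := h'.lv.trans h.lv.symm
      inv := s2
      smul := fun x y c d hxy hcd => (hS1 _ _).2 fun w => by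
        simpa [F.HA.co] using S0.mul_mem hxy ((hS1 _ _).1 hcd w)
      Q := by rw [hQ', hQ, ← f2_eQ a b]; exact hm _
      q := by rw [hq', hq, ← f2_eq' a b]; exact hm _
      T := fun k => by rw [h'.T, h.T]; exact hT _
      X0 := by rw [h'.X0, h.X0]; exact hT _ }
  refine ⟨⟨t, ha, hQ, hq, h.τ, h.fl, bar_of_gen B t hQ hq (fun k => ⟨_, IntP.sN_sq _, h.T k⟩)
    ⟨_, IntP.sN_sq _, h.X0⟩, fun k => h.T k ▸ in_T B.E _ _, h.X0 ▸ in_T B.E _ _,
    fun k => ⟨_, h.Hk k⟩, fun k hk U hU => ?_⟩, h⟩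
  refine IntP.unif (AA Γ) (Ix t.lv k U) (fun g => t.cf (fun x z => dd a b x < dd a b z) true k U *
    t.mn true k U fun i => B.E.T.coord (g i)) (fun g g' e => ?_) fun g => ?_
  · congr 1
    unfold Tw.mn
    congr 1
    ext i j
    simp only [Matrix.of_apply, e i.1 i.2]
  · obtain ⟨s, hs, r, hr⟩ := int_generic E' (fun i => sub_mem (mK_mem _)
      (by rw [← mK_neg]; exact mK_mem _)) h' hQ' hq' ha b (hk.trans P.n.ge) hU g
    obtain ⟨N, hN⟩ := IntP.ph2_pow hs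
    have k1 := S0.mul_mem (s1 s) (S0.mul_mem (P.cf (r := fun x z => dd a b x < dd a b z)
      (fun _ => lt_irrefl _) true k U) (P.mn true k U (φ' := fun i => E'.T.coord (g i))
        (φ := fun i => B.E.T.coord (g i)) fun i c d hcd => (hS1 _ _).1 hcd (g i)))
    refine ⟨N, ph2 a b r, ?_⟩
    rw [← s3 _ _ r k1 hr.symm, hN, map_pow, map_ofNat]
    rfl

end

end Pool.Agent.P.MP_1a0ecf_al.K
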