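import Pool.Agent.P.MP_1a0ecf_al.K.Sep
import Pool.Agent.P.MP_1a0ecf_al.K.IntB
import Pool.Agent.P.MP_1a0ecf_al.K.Act2

/-! Package AB: families in types A and B. -/

namespace Pool.Agent.P.MP_1a0ecf_al.K

open Sn
open scoped Classical

set_option linter.unusedSectionVars false

noncomputable section

variable {X : F.Cox}

private abbrev lR : ℝ →+ ℂ := Complex.ofRealHom.toAddMonoidHom

private theorem sN_eq {k : ℕ} (hk : k < X.n) : X.sN k = X.s ⟨k, hk⟩ := dif_pos hk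

private theorem gA_mul (u w : X.W) : X.gA (u * w) = X.gA u * X.gA w :=
  map_mul (MonoidAlgebra.of ℂ X.W) u w

private theorem gA_sq (k : ℕ) : X.gA (X.sN k) * X.gA (X.sN k) = 1 := by
  rw [← map_mul]
  unfold F.Cox.sN
  split_ifs
  · rw [X.cs.simple_mul_simple_self, map_one]
  · rw [mul_one, map_one]

private theorem lead_sq {L : Fin X.n → ℝ} (D : F.KL X ℝ L) {k : ℕ} (hk : k < X.n) :
    ∃ r : F.ZG ℝ, lead lR 1 r (2 * (L ⟨k, hk⟩ : ℂ)) ∧
      D.T (X.sN k) * D.T (X.sN k) = 1 + r • D.T (X.sN k) := by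
  refine ⟨D.toHA.ze ⟨k, hk⟩, ?_, by rw [sN_eq hk]; exact D.toHA.Ts_sq _⟩
  have h := lead_vU (lam := lR) (L ⟨k, hk⟩) (-L ⟨k, hk⟩)
  rw [map_neg, sub_neg_eq_add, ← two_mul] at h
  exact h

private theorem lead_one (γ : ℝ) (j : ℕ) : lead lR j (((F.vU γ : F.ZG ℝ) - 1) ^ j) ((γ : ℂ) ^ j) := by
  have h := (lead_vU (lam := lR) γ 0).pow j
  rw [one_mul, map_zero, sub_zero] at h
  exact h

/-- the common part of the two eigenvalue computations -/
private theorem gen_cls {L : Fin X.n → ℝ} {B : KB X ℝ L} {a b : ℝ} (t : KT B a b) (j : ℕ)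
    (s : List Box) (f : Polynomial (KK ℝ)) (φ : ℝ → ℝ)
    (hf : ∀ u ∈ tabs t.lv t.n, ∀ x ∈ u, f.eval (t.toTw.ξ x) = (mK (φ (dd a b x)) : KK ℝ)) :
    ∃ r : GA ℝ, lead lR j r (s.map fun x => ((φ (dd a b x) : ℝ) : ℂ) ^ j).sum ∧
      (∑ k ∈ Finset.range t.n, (Polynomial.aeval (t.toTw.X k) f - 1) ^ j) * t.cls s =
        algebraMap (GA ℝ) (KK ℝ) r • t.cls s := by
  refine ⟨(s.map fun x => ((F.vU (φ (dd a b x)) : F.ZG ℝ) - 1) ^ j).sum,
    lead.list s fun x _ => lead_one _ j, ?_⟩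
  have h := t.aeval_cls ((f - 1) ^ j) s
    (algebraMap (GA ℝ) (KK ℝ) (s.map fun x => ((F.vU (φ (dd a b x)) : F.ZG ℝ) - 1) ^ j).sum)
    fun u hu c => by
      have e := (List.Perm.map (fun d => ((mK (φ d) : KK ℝ) - 1) ^ j) c).sum_eq
      rw [List.map_map, List.map_map] at e
      rw [map_list_sum, List.map_map]
      refine Eq.trans (congrArg List.sum (List.map_congr_left fun x hx => ?_))
        (e.trans (congrArg List.sum (List.map_congr_left fun x _ => ?_)))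
      · simp only [Function.comp_apply, Polynomial.eval_pow, Polynomial.eval_sub,
          Polynomial.eval_one, hf u hu x hx]
      · simp only [Function.comp_apply, map_pow, map_sub, map_one, alg_vU]
  simpa only [map_pow, map_sub, map_one] using h

private theorem chx_two {χ : X.W → ℂ} {u : ℕ → X.GA} {N j : ℕ} :
    chx χ (∑ i ∈ Finset.range N, ((2 : ℂ) • u i) ^ j) =
      2 ^ j * chx χ (∑ i ∈ Finset.range N, u i ^ j) := by
  simp only [smul_pow, ← Finset.smul_sum, map_smul, smul_eq_mul]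

theorem j_XB {L : Fin X.n → ℝ} {B : KB X ℝ L} {t : Tw (KK ℝ) B.E.H} (h : IsB B.E t) (k : ℕ) :
    B.j (XB B.toKL k) = t.X k := by
  induction k with
  | zero => exact (B.j_T _).trans h.X0.symm
  | succ k ih =>
    rw [t.X_succ, ← ih, h.T, ← B.j_T, ← map_mul, ← map_mul]
    rfl

theorem lead_XB0 {L : Fin X.n → ℝ} (D : F.KL X ℝ L) (k : ℕ) :
    Lead Complex.ofRealHom.toAddMonoidHom D 0 (XB D k) (X.gA (X.tB k)) := by
  induction k with
  | zero => exact Lead.T _
  | succ k ih =>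
    rw [F.Cox.tB, gA_mul, gA_mul]
    exact ((Lead.T _).mul ih).mul (Lead.T _)

/-- `X' * X' - 1 = T (X * X - 1) T + ze • T + ze • T X T X T` and `T X T X T = X T X T T`
(`X_comm` through `j_inj`) -/
theorem lead_XB {a b : ℝ} {B : KB X ℝ (LB X a b)} {t : Tw (KK ℝ) B.E.H} (h : IsB B.E t) {k : ℕ}
    (hk : k < X.n) : Lead Complex.ofRealHom.toAddMonoidHom B.toKL 1
      (XB B.toKL k * XB B.toKL k - 1) ((2 : ℂ) • X.uB a b k) := by
  induction k with
  | zero =>
    obtain ⟨r, h1, h2⟩ := lead_sq B.toKL hk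
    have e : XB B.toKL 0 * XB B.toKL 0 - 1 = r • B.T (X.sN 0) := sub_eq_iff_eq_add'.2 h2
    rw [e, F.Cox.uB, smul_smul]
    exact Lead.smul h1 (Lead.T _)
  | succ k ih =>
    obtain ⟨r, h1, h2⟩ := lead_sq B.toKL hk
    have c : XB B.toKL (k + 1) * XB B.toKL k = XB B.toKL k * XB B.toKL (k + 1) := B.j_inj (by
      rw [map_mul, map_mul, j_XB h, j_XB h]
      exact t.X_comm (hk.trans_eq h.n.symm) ((Nat.lt_of_succ_lt hk).trans_eq h.n.symm))
    have x := lead_XB0 B.toKL k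
    have y : Lead lR B.toKL 0 (B.T (X.sN (k + 1))) (X.gA (X.sN (k + 1))) := Lead.T _
    have a1 := ((y.mul (ih (by omega))).mul y).add
      ((Lead.smul h1 y).add (Lead.smul h1 ((((x.mul y).mul x).mul y).mul y)))
    have e0 : XB B.toKL (k + 1) = B.T (X.sN (k + 1)) * XB B.toKL k * B.T (X.sN (k + 1)) := rfl
    rw [e0] at c ⊢
    generalize B.T (X.sN (k + 1)) = T at *
    generalize XB B.toKL k = Y at *
    have e1 : T * Y * T * (T * Y * T) - 1 =
        T * (Y * Y - 1) * T + (r • T + r • (Y * T * Y * T * T)) := by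
      have e2 : T * Y * T * (T * Y * T) = T * Y * (T * T) * Y * T := by simp only [mul_assoc]
      have e3 : Y * T * Y * T * T = T * Y * T * Y * T := by rw [c]; simp only [mul_assoc]
      rw [e2, e3, mul_sub, sub_mul, mul_one, h2]
      simp only [mul_add, add_mul, mul_one, mul_smul_comm, smul_mul_assoc, mul_assoc]
      abel
    rw [e1]
    convert a1 using 1
    rw [F.Cox.uB, mul_assoc _ (X.gA (X.sN (k + 1))) (X.gA (X.sN (k + 1))), gA_sq, mul_one, gA_mul,
      gA_mul]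
    simp only [smul_add, smul_smul, mul_smul_comm, smul_mul_assoc]
    rfl

theorem lead_XA {a : ℝ} (D : F.KL X ℝ fun _ => a) {k : ℕ} (hk : k ≤ X.n) :
    Lead Complex.ofRealHom.toAddMonoidHom D 1 (XA D k - 1) ((2 : ℂ) • X.uA a k) := by
  induction k with
  | zero =>
    have e : XA D 0 - 1 = 0 := sub_self _
    rw [e, F.Cox.uA, smul_zero]
    exact Lead.zero 1
  | succ k ih =>
    obtain ⟨r, h1, h2⟩ := lead_sq D (show k < X.n from hk)
    have y : Lead lR D 0 (D.T (X.sN k)) (X.gA (X.sN k)) := Lead.T _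
    have a1 := ((y.mul (ih (by omega))).mul y).add (Lead.smul h1 y)
    have e0 : XA D (k + 1) = D.T (X.sN k) * XA D k * D.T (X.sN k) := rfl
    have e1 : XA D (k + 1) - 1 =
        D.T (X.sN k) * (XA D k - 1) * D.T (X.sN k) + r • D.T (X.sN k) := by
      rw [e0, mul_sub, sub_mul, mul_one, h2]
      abel
    rw [e1]
    convert a1 using 1
    rw [F.Cox.uA]
    simp only [smul_add, smul_smul, mul_smul_comm, smul_mul_assoc]

/-- the scalar by which `∑ (X k * X k - 1) ^ j` acts on a class -/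
theorem pow_cls {L : Fin X.n → ℝ} {B : KB X ℝ L} {a b : ℝ} (t : KT B a b) (j : ℕ) (s : List Box) :
    ∃ r : GA ℝ, lead Complex.ofRealHom.toAddMonoidHom j r
        (2 ^ j * (s.map fun x => ((dd a b x : ℝ) : ℂ) ^ j).sum) ∧
      (∑ k ∈ Finset.range t.n, (t.toTw.X k * t.toTw.X k - 1) ^ j) * t.cls s =
        algebraMap (GA ℝ) (KK ℝ) r • t.cls s := by
  obtain ⟨r, h1, h2⟩ := gen_cls t j s (Polynomial.X * Polynomial.X) (fun d => d + d)
    fun u _ x _ => by
      rw [Polynomial.eval_mul, Polynomial.eval_X, Tw.ξ, t.hQ, t.hq, xi_mK, mK_add, Units.val_mul]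
      split_ifs <;> ring
  refine ⟨r, ?_, by simpa only [map_mul, Polynomial.aeval_X] using h2⟩
  convert h1 using 1
  rw [← List.sum_map_mul_left]
  refine congrArg List.sum (List.map_congr_left fun x _ => ?_)
  rw [← mul_pow, two_mul, Complex.ofReal_add]

theorem sameP_iff {u : ℕ → X.GA} {N : ℕ} {χ χ' : X.W → ℂ} (hχ : IsIrr χ) (hχ' : IsIrr χ')
    {d : Box → ℝ} {s s' : List Box}
    (h : ∀ j, chx χ (∑ i ∈ Finset.range N, u i ^ j) = (s.map fun x => (d x : ℂ) ^ j).sum * χ 1)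
    (h' : ∀ j, chx χ' (∑ i ∈ Finset.range N, u i ^ j) = (s'.map fun x => (d x : ℂ) ^ j).sum * χ' 1) :
    F.Cox.SameP u N χ χ' ↔ Cl d s s' := by
  have k : Cl d s s' ↔ (s.map fun x => (d x : ℂ)).Perm (s'.map fun x => (d x : ℂ)) := by
    rw [Cl, ← List.map_perm_map_iff Complex.ofReal_injective, List.map_map, List.map_map]
    rfl
  rw [k]
  refine ⟨fun e => perm_of_psum fun j => ?_, fun e j => ?_⟩
  · have e1 := e j
    rw [h, h', mul_assoc, mul_assoc, mul_comm (χ' 1)] at e1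
    rw [List.map_map, List.map_map]
    exact mul_right_cancel₀ (mul_ne_zero hχ.one_ne hχ'.one_ne) e1
  · have e1 := (e.map (· ^ j)).sum_eq
    rw [List.map_map, List.map_map] at e1
    rw [h, h', mul_assoc, mul_assoc, mul_comm (χ' 1)]
    exact congrArg (· * _) e1

theorem rel_iff {L : Fin X.n → ℝ} {B : KB X ℝ L} {a b : ℝ} (t : KT B a b) {u : ℕ → X.GA} {N : ℕ}
    (h : ∀ z s χ, s ∈ tabs t.lv t.n → B.Blk z (t.cls s) → IsIrr χ → B.toKL.Fam z χ → ∀ j,
      chx χ (∑ i ∈ Finset.range N, u i ^ j) = (s.map fun x => ((dd a b x : ℝ) : ℂ) ^ j).sum * χ 1)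
    {χ χ' : X.W → ℂ} (hχ : IsIrr χ) (hχ' : IsIrr χ') :
    B.toKL.Rel χ χ' ↔ F.Cox.SameP u N χ χ' := by
  constructor
  · rintro ⟨z, h1, h2⟩
    obtain ⟨s, hs, hb⟩ := t.exists_blk z
    exact (sameP_iff hχ hχ' (h z s χ hs hb hχ h1) (h z s χ' hs hb hχ' h2)).2 (Cl.refl _ s)
  · intro e
    obtain ⟨z, h1⟩ := B.toKL.exists_fam hχ
    obtain ⟨z', h2⟩ := B.toKL.exists_fam hχ'
    obtain ⟨s, hs, hb⟩ := t.exists_blk z
    obtain ⟨s', hs', hb'⟩ := t.exists_blk z'
    have c := (sameP_iff hχ hχ' (h z s χ hs hb hχ h1) (h z' s' χ' hs' hb' hχ' h2)).1 e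
    rw [← t.cls_congr c] at hb'
    refine ⟨z, h1, ?_⟩
    rw [F.KL.Fam, B.toKL.cell_eq (B.sim_of_blk (t.prim s) hb hb')]
    exact h2

/-- here `ξ x = mK (dd a 0 x)` on allowed boxes; use `∑ (X k - 1) ^ j` -/
theorem klA (X : F.Cox) : X.KLA := by
  intro hX a ha D χ χ' hχ hχ'
  obtain ⟨B, rfl⟩ := exists_KB D fun _ _ _ => rfl
  obtain ⟨t, ht⟩ := exists_KTA ha B hX
  have jx : ∀ k, B.j (XA B.toKL k) = t.toTw.X k := fun k => by
    induction k with
    | zero => exact (map_one _).trans ht.X0.symm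
    | succ k ih =>
      rw [t.toTw.X_succ, ← ih, ht.T, ← B.j_T, ← map_mul, ← map_mul]
      rfl
  rw [rel_iff t (u := fun k => (2 : ℂ) • X.uA a k) (N := X.n + 1) ?_ hχ hχ']
  · refine forall_congr' fun j => ?_
    rw [chx_two, chx_two, mul_assoc, mul_assoc]
    exact mul_right_inj' (pow_ne_zero j two_ne_zero)
  · intro z s ψ _ hb hψ hz j
    obtain ⟨r, h1, h2⟩ := gen_cls t j s Polynomial.X id fun u hu x hx => by
      have o := ok_of_mem (mem_tabs.1 hu).2 hx
      rw [ok, ht.lv] at o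
      rw [Polynomial.eval_X, Tw.ξ, t.hQ, t.hq, xi_mK, if_pos (o.resolve_left (by decide)), one_mul,
        id]
    have l := Lead.sum (Finset.range (X.n + 1)) fun k hk =>
      (lead_XA B.toKL (Nat.lt_succ_iff.1 (Finset.mem_range.1 hk))).pow j
    rw [one_mul] at l
    refine l.chx h1 (B.lm_scalar hb ?_) hψ hz
    simpa only [map_sum, map_pow, map_sub, map_one, jx, Polynomial.aeval_X, ht.n] using h2

theorem klB_pos (hX : X.Is (F.pathM 0 4)) {a : ℝ} (ha : 0 < a) (b : ℝ) (D : F.KL X ℝ (LB X a b))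
    {χ χ' : X.W → ℂ} (hχ : IsIrr χ) (hχ' : IsIrr χ') :
    D.Rel χ χ' ↔ F.Cox.SameP (X.uB a b) X.n χ χ' := by
  obtain ⟨B, rfl⟩ := exists_KB D (conj_B hX a b)
  obtain ⟨t, ht⟩ := exists_KTB ha b B hX
  refine rel_iff t (fun z s ψ _ hb hψ hz j => ?_) hχ hχ'
  obtain ⟨r, h1, h2⟩ := pow_cls t j s
  have l := Lead.sum (Finset.range X.n) fun k hk => (lead_XB ht (Finset.mem_range.1 hk)).pow j
  rw [one_mul] at l
  have e := l.chx h1 (B.lm_scalar hb (by
    simpa only [map_sum, map_pow, map_sub, map_one, map_mul, j_XB ht, ht.n] using h2)) hψ hz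
  rw [chx_two, mul_assoc] at e
  exact mul_left_cancel₀ (pow_ne_zero j two_ne_zero) e

end

end Pool.Agent.P.MP_1a0ecf_al.K
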