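import Pool.Agent.P.MP_1a0ecf_al.F.L2

/-! Package I0: multiplication of the Kazhdan-Lusztig basis by a generator. -/

namespace Pool.Agent.P.MP_1a0ecf_al.F

open scoped Classical

noncomputable section

namespace I0

variable {Γ : Type} [AddCommGroup Γ]

/-- the monomial `v ^ γ` -/
def ev (γ : Γ) : ZG Γ := (vU γ : ZG Γ)

theorem ev_mul (γ δ : Γ) : ev γ * ev δ = ev (γ + δ) := by
  simp [ev, vU, AddMonoidAlgebra.single_mul_single]

theorem ev_zero : ev (0 : Γ) = 1 := rfl

theorem ev_inv (γ : Γ) : (((vU γ)⁻¹ : (ZG Γ)ˣ) : ZG Γ) = ev (-γ) := rfl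

theorem ev_bar (γ : Γ) : barG Γ (ev γ) = ev (-γ) := barG_vU γ

theorem ev_spc (γ : Γ) : spc Γ (ev γ) = 1 := spc_vU γ

theorem ev_cancel (γ : Γ) : ev (-γ) * ev γ = 1 := by rw [ev_mul, neg_add_cancel, ev_zero]

theorem ev_coeff (γ δ : Γ) (r : ZG Γ) : (ev γ * r).coeff δ = r.coeff (-γ + δ) := by
  simp [ev, vU, AddMonoidAlgebra.coeff_single_mul_apply]

variable [LinearOrder Γ] [IsOrderedAddMonoid Γ]

theorem neg_mul {γ : Γ} (h : γ ≤ 0) {r : ZG Γ} (hr : Neg r) : Neg (ev γ * r) := fun δ hδ => by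
  rw [ev_coeff]
  exact hr _ (add_nonneg (neg_nonneg.2 h) hδ)

omit [IsOrderedAddMonoid Γ] in
theorem neg_ev {γ : Γ} (h : γ < 0) : Neg (ev γ) := fun δ hδ => by
  simp [ev, vU, (h.trans_le hδ).ne]

omit [IsOrderedAddMonoid Γ] in
theorem not_neg {γ : Γ} (h : 0 ≤ γ) : ¬ Neg (ev γ) := fun e => by
  simpa [ev, vU] using e γ h

theorem ze_ne {γ : Γ} (h : 0 < γ) : ev γ - ev (-γ) ≠ 0 := fun e =>
  not_neg h.le (by rw [sub_eq_zero.1 e]; exact neg_ev (neg_lt_zero.2 h))

variable {X : Cox}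

theorem len_s (x : X.W) (i : Fin X.n) :
    X.len (X.s i * x) = X.len x + 1 ∨ X.len (X.s i * x) + 1 = X.len x :=
  X.cs.length_simple_mul x i

theorem ss (x : X.W) (i : Fin X.n) : X.s i * (X.s i * x) = x :=
  X.cs.simple_mul_simple_cancel_left i

theorem len_inv (x : X.W) : X.len x⁻¹ = X.len x := X.cs.length_inv x

theorem inv_s (x : X.W) (i : Fin X.n) : (X.s i * x)⁻¹ = x⁻¹ * X.s i := by
  rw [mul_inv_rev, X.cs.inv_simple]

end I0

namespace KL

open I0 L1P

variable {X : Cox} {Γ : Type} [AddCommGroup Γ] [LinearOrder Γ] [IsOrderedAddMonoid Γ]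
  {L : Fin X.n → Γ} (D : KL X Γ L)

/-- the bar invariant element attached to a generator -/
def iE (i : Fin X.n) : D.H := D.toHA.Ts i + ev (-L i) • 1

theorem i0_ze (i : Fin X.n) : D.toHA.ze i = ev (L i) - ev (-L i) := rfl

theorem i0_co (h : D.H) (i : Fin X.n) (w : X.W) : D.T.repr (D.toHA.Ts i * h) w =
    D.T.repr h (X.s i * w) +
      (if X.len (X.s i * w) < X.len w then ev (L i) - ev (-L i) else 0) * D.T.repr h w := by
  have e : D.T.coord w ∘ₗ LinearMap.mulLeft (ZG Γ) (D.toHA.Ts i) = D.T.coord (X.s i * w) +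
      (if X.len (X.s i * w) < X.len w then ev (L i) - ev (-L i) else 0) • D.T.coord w :=
    D.T.ext fun x => by
      have a : X.s i * x = w ↔ x = X.s i * w :=
        ⟨fun e => by rw [← e, ss], fun e => by rw [e, ss]⟩
      simp only [LinearMap.comp_apply, LinearMap.mulLeft_apply, Module.Basis.coord_apply,
        LinearMap.add_apply, LinearMap.smul_apply, smul_eq_mul]
      rcases len_s x i with k | k
      · rw [D.toHA.Ts_up (by omega)]
        simp only [Module.Basis.repr_self, Finsupp.single_apply, a]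
        by_cases e : x = w
        · subst e
          rw [if_neg (show ¬ X.len (X.s i * x) < X.len x by omega), zero_mul, add_zero]
        · rw [if_neg e, mul_zero, add_zero]
      · rw [D.toHA.Ts_down (by omega), i0_ze]
        simp only [map_add, map_smul, Module.Basis.repr_self, Finsupp.add_apply,
          Finsupp.smul_apply, Finsupp.single_apply, a, smul_eq_mul]
        by_cases e : x = w
        · subst e
          rw [if_pos (show X.len (X.s i * x) < X.len x by omega)]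
        · rw [if_neg e, mul_zero, mul_zero]
  exact LinearMap.congr_fun e h

theorem i0_coE (h : D.H) (i : Fin X.n) (w : X.W) : D.T.repr (D.iE i * h) w =
    D.T.repr h (X.s i * w) +
      ev (if X.len (X.s i * w) < X.len w then L i else -L i) * D.T.repr h w := by
  rw [iE, add_mul, map_add, Finsupp.add_apply, i0_co, smul_mul_assoc, one_mul, map_smul,
    Finsupp.smul_apply, smul_eq_mul]
  split_ifs <;> ring

theorem i0_barTs (i : Fin X.n) :
    D.bar (D.toHA.Ts i) = D.toHA.Ts i - (ev (L i) - ev (-L i)) • 1 := by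
  rw [D.bar_T', X.cs.inv_simple, D.toHA.Ti_s, i0_ze]

theorem i0_barE (i : Fin X.n) : D.bar (D.iE i) = D.iE i := by
  rw [iE, map_add, D.bar_smul, map_one, ev_bar, neg_neg, i0_barTs, sub_smul]
  abel

theorem i0_TsE (i : Fin X.n) : D.toHA.Ts i * D.iE i = ev (L i) • D.iE i := by
  rw [iE, mul_add, D.toHA.Ts_sq, i0_ze, mul_smul_comm, mul_one, smul_add, smul_smul, mul_comm,
    ev_cancel, one_smul, sub_smul]
  abel

theorem i0_p_self (x : X.W) : D.T.repr (D.C x) x = 1 := by
  have h := co_low D.toHA (D.C_tri x) rfl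
  rw [HA.co, map_sub, Finsupp.sub_apply, sub_eq_zero] at h
  rw [h, D.T.repr_self, Finsupp.single_eq_same]

theorem i0_p_neg {x y : X.W} (h : y ≠ x) : Neg (D.T.repr (D.C x) y) := by
  have k := D.C_neg x y
  rwa [map_sub, Finsupp.sub_apply, D.T.repr_self, Finsupp.single_eq_of_ne h, sub_zero] at k

theorem i0_p_zero {x y : X.W} (h : y ≠ x) (hl : X.len x ≤ X.len y) : D.T.repr (D.C x) y = 0 := by
  by_contra c
  refine absurd (D.toHA.mem_sp.1 (D.C_tri x) y ?_) (not_lt.2 hl)
  rwa [HA.co, map_sub, Finsupp.sub_apply, D.T.repr_self, Finsupp.single_eq_of_ne h, sub_zero]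

theorem i0_p_lt {x y : X.W} (hl : X.len x < X.len y) : D.T.repr (D.C x) y = 0 :=
  D.i0_p_zero (by rintro rfl; exact lt_irrefl _ hl) hl.le

theorem i0_p_mul {γ : Γ} (h : γ < 0) (x y : X.W) : Neg (ev γ * D.T.repr (D.C x) y) := by
  by_cases e : y = x
  · rw [e, i0_p_self, mul_one]
    exact neg_ev h
  · exact neg_mul h.le (D.i0_p_neg e)

theorem i0_mem_low {a : D.H} {n : ℕ} :
    a ∈ low D.toHA n ↔ ∀ w, n ≤ X.len w → D.T.repr a w = 0 :=
  D.toHA.mem_sp.trans ⟨fun h w hw => by_contra fun c => absurd (h w c) (not_lt.2 hw),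
    fun h w hw => not_le.1 fun c => hw (h w c)⟩

theorem i0_low {a : D.H} {n : ℕ} (hb : D.bar a = a) (ha : a ∈ low D.toHA (n + 1))
    (h : ∀ y, X.len y = n → Neg (D.T.repr a y)) : a ∈ low D.toHA n :=
  low_succ D.toHA ha fun w hw => (h w hw).eq_zero (by
    rw [← (lead D.toHA D.bar_smul D.bar_T' ha).2 w hw, hb])

theorem i0_ind {a : D.H}
    (h : ∀ n, a ∈ low D.toHA (n + 1) → a ∈ low D.toHA n) : a = 0 := by
  obtain ⟨n, hn⟩ := low_top D.toHA
  replace hn := hn a
  induction n with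
  | zero => exact low_zero D.toHA hn
  | succ n ih => exact ih (h n hn)

theorem i0_low_spC (n : ℕ) : low D.toHA n ≤ D.spC {y | X.len y < n} := by
  induction n with
  | zero => exact fun a ha => low_zero D.toHA ha ▸ zero_mem _
  | succ n ih =>
    refine Submodule.span_le.2 ?_
    rintro _ ⟨y, hy, rfl⟩
    have h1 := ih (low_mono D.toHA (Nat.lt_succ_iff.1 hy) (D.C_tri y))
    rw [← sub_sub_cancel (D.C y) (D.T y)]
    exact sub_mem (Submodule.subset_span ⟨y, hy, rfl⟩)
      (Submodule.span_mono (Set.image_mono fun w hw => Nat.lt_succ_of_lt hw) h1)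

theorem i0_repr_low {a : D.H} {n : ℕ} (ha : a ∈ low D.toHA n) {x : X.W} (hx : n ≤ X.len x) :
    D.C.repr a x = 0 :=
  by_contra fun c => absurd (D.mem_spC.1 (D.i0_low_spC n ha) x c) (not_lt.2 hx)

theorem i0_repr_top {a : D.H} {n : ℕ} (ha : a ∈ low D.toHA (n + 1)) {x : X.W}
    (hx : X.len x = n) : D.C.repr a x = D.T.repr a x := by
  induction ha using Submodule.span_induction with
  | mem b hb =>
    obtain ⟨y, hy, rfl⟩ := hb
    have h1 := D.i0_repr_low (D.C_tri y) (x := x) (hx ▸ Nat.lt_succ_iff.1 hy)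
    rw [map_sub, Finsupp.sub_apply, sub_eq_zero] at h1
    rw [← h1, D.C.repr_self, D.T.repr_self]
  | zero => simp
  | add b c _ _ hb hc => simp only [map_add, Finsupp.add_apply, hb, hc]
  | smul r b _ hb => simp only [map_smul, Finsupp.smul_apply, hb]

/-- descents -/
theorem i0_desc {i : Fin X.n} (hL : 0 < L i) {w : X.W} (hw : X.len (X.s i * w) < X.len w) :
    D.toHA.Ts i * D.C w = ev (L i) • D.C w := by
  have hb : D.bar (D.toHA.Ts i * D.C w - ev (L i) • D.C w) =
      D.toHA.Ts i * D.C w - ev (L i) • D.C w := by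
    rw [map_sub, map_mul, D.bar_smul, D.bar_C, i0_barTs, ev_bar, sub_mul, smul_mul_assoc, one_mul,
      sub_smul]
    abel
  have hc : ∀ y, D.T.repr (D.toHA.Ts i * D.C w - ev (L i) • D.C w) y =
      D.T.repr (D.C w) (X.s i * y) -
        ev (if X.len (X.s i * y) < X.len y then -L i else L i) * D.T.repr (D.C w) y := fun y => by
    rw [map_sub, Finsupp.sub_apply, i0_co, map_smul, Finsupp.smul_apply, smul_eq_mul]
    split_ifs <;> ring
  refine sub_eq_zero.1 (D.i0_ind fun n hn => D.i0_low hb hn fun y hy => ?_)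
  have k := len_s y i
  by_cases h : X.len (X.s i * y) < X.len y
  · rw [hc, if_pos h]
    refine (D.i0_p_neg ?_).sub (D.i0_p_mul (neg_lt_zero.2 hL) _ _)
    rintro rfl
    rw [ss] at hw
    omega
  · have h1 := D.i0_mem_low.1 hn (X.s i * y) (by omega)
    rw [hc, ss, if_pos (by omega), sub_eq_zero] at h1
    rw [hc, if_neg h, h1, ← mul_assoc, mul_comm (ev _), ev_cancel, one_mul, sub_self]
    exact Neg.zero

theorem i0_p_desc {i : Fin X.n} (hL : 0 < L i) {w y : X.W} (hw : X.len (X.s i * w) < X.len w)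
    (hy : X.len y < X.len (X.s i * y)) :
    D.T.repr (D.C w) y = ev (-L i) * D.T.repr (D.C w) (X.s i * y) := by
  have h := D.i0_co (D.C w) i y
  rw [D.i0_desc hL hw, if_neg (by omega), zero_mul, add_zero, map_smul, Finsupp.smul_apply,
    smul_eq_mul] at h
  rw [← h, ← mul_assoc, ev_cancel, one_mul]

theorem i0_supp {i : Fin X.n} (hL : 0 < L i) {h : D.H} (hh : D.toHA.Ts i * h = ev (L i) • h) :
    h ∈ D.spC {x | X.len (X.s i * x) < X.len x} := by
  set g := ∑ x with X.len (X.s i * x) < X.len x, D.C.repr h x • D.C x with hg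
  have h1 : D.toHA.Ts i * (h - g) = ev (L i) • (h - g) := by
    rw [mul_sub, smul_sub, hh, hg, Finset.mul_sum, Finset.smul_sum]
    congr 1
    refine Finset.sum_congr rfl fun x hx => ?_
    rw [mul_smul_comm, D.i0_desc hL (Finset.mem_filter.1 hx).2, smul_comm]
  have h2 : ∀ x, X.len (X.s i * x) < X.len x → D.C.repr (h - g) x = 0 := fun x hx => by
    simp [hg, Finsupp.single_apply, hx]
  have h3 : h - g = 0 := D.i0_ind fun n hn =>
    low_succ D.toHA hn fun y hy => by
      have k := len_s y i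
      by_cases e : X.len (X.s i * y) < X.len y
      · rw [HA.co, ← D.i0_repr_top hn hy, h2 y e]
      · have a := D.i0_co (h - g) i y
        rw [h1, if_neg e, zero_mul, add_zero, D.i0_mem_low.1 hn (X.s i * y) (by omega), map_smul,
          Finsupp.smul_apply, smul_eq_mul] at a
        rw [HA.co, ← one_mul (D.T.repr _ y), ← ev_cancel (L i), mul_assoc, a, mul_zero]
  rw [sub_eq_zero.1 h3, hg]
  exact Submodule.sum_mem _ fun x hx =>
    Submodule.smul_mem _ _ (Submodule.subset_span ⟨x, (Finset.mem_filter.1 hx).2, rfl⟩)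

theorem i0_suppE {i : Fin X.n} (hL : 0 < L i) (h : D.H) :
    D.iE i * h ∈ D.spC {x | X.len (X.s i * x) < X.len x} :=
  D.i0_supp hL (by rw [← mul_assoc, i0_TsE, smul_mul_assoc])

theorem i0_suppC {i : Fin X.n} (hL : 0 < L i) {w : X.W} (hw : X.len (X.s i * w) < X.len w)
    (h : D.H) : D.C w * h ∈ D.spC {x | X.len (X.s i * x) < X.len x} :=
  D.i0_supp hL (by rw [← mul_assoc, D.i0_desc hL hw, smul_mul_assoc])

/-- ascents -/
theorem i0_up {i : Fin X.n} {x : X.W} (h : X.len x < X.len (X.s i * x)) : D.Le (X.s i * x) x := by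
  have k := len_s x i
  refine D.le_of_repr (a := D.toHA.Ts i) (b := 1) ?_
  rw [mul_one, D.i0_repr_top (n := X.len x + 1) (D.i0_mem_low.2 fun w hw => ?_) (by omega), i0_co,
    ss, i0_p_self, D.i0_p_lt h, mul_zero, add_zero]
  · exact one_ne_zero
  · have k' := len_s w i
    rw [i0_co, D.i0_p_lt (by omega), D.i0_p_lt (by omega), mul_zero, add_zero]

/-- generators of weight zero -/
theorem i0_T0 {i : Fin X.n} (hL : L i = 0) (x : X.W) :
    D.toHA.Ts i * D.T x = D.T (X.s i * x) := by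
  rcases len_s x i with k | k
  · exact D.toHA.Ts_up (by omega)
  · rw [D.toHA.Ts_down (by omega), i0_ze, hL, neg_zero, sub_self, zero_smul, add_zero]

theorem i0_C0 {i : Fin X.n} (hL : L i = 0) (x : X.W) :
    D.toHA.Ts i * D.C x = D.C (X.s i * x) := by
  refine D.eq_C ?_ fun y => ?_
  · rw [map_mul, D.bar_C, i0_barTs, hL, neg_zero, sub_self, zero_smul, sub_zero]
  · rw [← D.i0_T0 hL, ← mul_sub, i0_co, hL, neg_zero, sub_self, ite_self, zero_mul, add_zero]
    exact D.C_neg _ _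

theorem i0_le0 {i : Fin X.n} (hL : L i = 0) (x : X.W) : D.Le (X.s i * x) x :=
  D.le_of_repr (a := D.toHA.Ts i) (b := 1) (by
    rw [mul_one, D.i0_C0 hL, D.C.repr_self, Finsupp.single_eq_same]
    exact one_ne_zero)

theorem i0_sim0 {i : Fin X.n} (hL : L i = 0) (x : X.W) : D.Sim (X.s i * x) x :=
  ⟨D.i0_le0 hL x, by simpa only [ss] using D.i0_le0 hL (X.s i * x)⟩

theorem i0_E_low {i : Fin X.n} (hL : 0 < L i) {y : X.W} (h : X.len y < X.len (X.s i * y)) :
    D.iE i * D.C y - D.C (X.s i * y) ∈ low D.toHA (X.len y) := by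
  have k := len_s y i
  refine D.i0_low (by rw [map_sub, map_mul, i0_barE, D.bar_C, D.bar_C])
    (D.i0_mem_low.2 fun w hw => ?_) fun w hw => ?_
  · have k' := len_s w i
    rw [map_sub, Finsupp.sub_apply, i0_coE, D.i0_p_lt (x := y) (y := w) hw, mul_zero, add_zero]
    by_cases e : w = X.s i * y
    · rw [e, ss, i0_p_self, i0_p_self, sub_self]
    · rw [D.i0_p_zero (fun c => e (by rw [← c, ss])) (by omega), D.i0_p_zero e (by omega), sub_self]
  · have k' := len_s w i
    rw [map_sub, Finsupp.sub_apply, i0_coE]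
    refine ((D.i0_p_neg ?_).add ?_).sub (D.i0_p_neg ?_)
    · rintro rfl
      omega
    · split_ifs with c
      · rw [D.i0_p_zero (by rintro rfl; omega) hw.ge, mul_zero]
        exact Neg.zero
      · exact D.i0_p_mul (neg_lt_zero.2 hL) _ _
    · rintro rfl
      omega

theorem i0_leE {i : Fin X.n} {x y : X.W} (h : D.C.repr (D.iE i * D.C y) x ≠ 0) : D.Le x y :=
  D.le_of_repr (a := D.iE i) (b := 1) (by rwa [mul_one])

/-- going down -/
theorem i0_down {i j : Fin X.n} (hi : 0 < L i) (hij : L i ≤ L j) {y : X.W}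
    (h1 : X.len (X.s i * y) < X.len y) (h2 : X.len y < X.len (X.s j * y))
    (h3 : X.len (X.s j * (X.s i * y)) < X.len (X.s i * y)) : D.Le (X.s i * y) y := by
  have k := len_s y i
  have a := D.i0_E_low (hi.trans_le hij) h2
  have ne : X.s i * y ≠ X.s j * y := fun e => by rw [e] at h1; omega
  rw [show X.len y = X.len (X.s i * y) + 1 by omega] at a
  have b := D.i0_repr_top a rfl
  refine D.i0_leE (i := j) fun c => not_neg (γ := L j + -L i) (by simpa using hij) ?_
  rw [map_sub, map_sub, Finsupp.sub_apply, Finsupp.sub_apply, c, D.C.repr_self,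
    Finsupp.single_eq_of_ne ne, i0_coE, if_pos h3, D.i0_p_desc hi h1 (y := X.s i * y) (by rwa [ss]),
    ss, i0_p_self, mul_one, ev_mul] at b
  have e : ev (L j + -L i) = D.T.repr (D.C (X.s j * y)) (X.s i * y) -
      D.T.repr (D.C y) (X.s j * (X.s i * y)) := by linear_combination -b
  rw [e]
  refine (D.i0_p_neg ne).sub (D.i0_p_neg fun c => ?_)
  rw [c] at h3
  omega

theorem i0_E_eq {i j : Fin X.n} (hi : 0 < L i) (hij : L i < L j) {x : X.W}
    (h1 : X.len (X.s j * x) < X.len x) (h2 : X.len x < X.len (X.s i * x))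
    (h3 : ∀ y, X.len (X.s i * y) < X.len y → X.len (X.s j * y) < X.len y → X.len x < X.len y) :
    D.iE i * D.C x = D.C (X.s i * x) := by
  refine D.eq_C (by rw [map_mul, i0_barE, D.bar_C]) fun y => ?_
  rw [map_sub, Finsupp.sub_apply, i0_coE, D.T.repr_self]
  by_cases e : y = X.s i * x
  · rw [e, ss, i0_p_self, D.i0_p_lt h2, Finsupp.single_eq_same, mul_zero, add_zero, sub_self]
    exact Neg.zero
  rw [Finsupp.single_eq_of_ne e, sub_zero]
  refine (D.i0_p_neg fun c => e (by rw [← c, ss])).add ?_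
  split_ifs with c
  · have k := len_s y j
    by_cases c' : X.len (X.s j * y) < X.len y
    · rw [D.i0_p_lt (h3 y c c'), mul_zero]
      exact Neg.zero
    · rw [D.i0_p_desc (hi.trans hij) h1 (y := y) (by omega), ← mul_assoc, ev_mul]
      exact D.i0_p_mul (by simpa using hij) _ _
  · exact D.i0_p_mul (neg_lt_zero.2 hi) _ _

/-- inversion -/
theorem i0_flat {S : Set X.W} (hS : ∀ x ∈ S, x⁻¹ ∈ S) {a : D.H} (ha : a ∈ D.spC S) :
    D.toHA.flat a ∈ D.spC S := by
  induction ha using Submodule.span_induction with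
  | mem b hb =>
    obtain ⟨y, hy, rfl⟩ := hb
    rw [D.flat_C]
    exact Submodule.subset_span ⟨_, hS y hy, rfl⟩
  | zero => simp
  | add b c _ _ hb hc => rw [map_add]; exact add_mem hb hc
  | smul r b _ hb => rw [map_smul]; exact Submodule.smul_mem _ _ hb

theorem i0_lower_l {S : Set X.W} (hS : ∀ x ∈ S, x⁻¹ ∈ S)
    (h : ∀ y ∈ S, ∀ i, D.toHA.Ts i * D.C y ∈ D.spC S) (x y : X.W) (hxy : D.Le x y) (hy : y ∈ S) :
    x ∈ S := by
  refine (D.lower_iff S).2 (fun y hy i => ⟨h y hy i, ?_⟩) x y hxy hy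
  have k := D.i0_flat hS (h _ (hS y hy) i)
  rwa [D.toHA.flat_mul, D.flat_C, D.toHA.flat_T, inv_inv, X.cs.inv_simple] at k

theorem i0_lower_r {S : Set X.W} (hS : ∀ x ∈ S, x⁻¹ ∈ S)
    (h : ∀ y ∈ S, ∀ i, D.C y * D.toHA.Ts i ∈ D.spC S) (x y : X.W) (hxy : D.Le x y) (hy : y ∈ S) :
    x ∈ S := by
  refine (D.lower_iff S).2 (fun y hy i => ⟨?_, h y hy i⟩) x y hxy hy
  have k := D.i0_flat hS (h _ (hS y hy) i)
  rwa [D.toHA.flat_mul, D.flat_C, D.toHA.flat_T, inv_inv, X.cs.inv_simple] at k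

theorem Sim.i0_symm {D : KL X Γ L} {x y : X.W} (h : D.Sim x y) : D.Sim y x := ⟨h.2, h.1⟩

theorem Sim.i0_trans {D : KL X Γ L} {x y z : X.W} (h : D.Sim x y) (h' : D.Sim y z) : D.Sim x z :=
  ⟨h.1.trans h'.1, h'.2.trans h.2⟩

theorem Sim.i0_inv {D : KL X Γ L} {x y : X.W} (h : D.Sim x y) : D.Sim x⁻¹ y⁻¹ :=
  ⟨D.le_inv h.1, D.le_inv h.2⟩

theorem i0_sim_refl (x : X.W) : D.Sim x x := ⟨D.le_refl x, D.le_refl x⟩

/-- character values -/
theorem i0_val {χ : X.W → ℂ} (hχ : IsIrr χ) {z : X.W} (hz : D.Fam z χ) {ι : Type} (s : Finset ι)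
    (w : ι → X.W) {c : ℂ} (h : ∀ x y, D.Sim x z → D.Sim y z →
      ∑ k ∈ s, spc Γ (D.C.repr (D.T (w k) * D.C y) x) = if x = y then c else 0) :
    ∑ k ∈ s, χ (w k) = c * χ 1 := by
  have e := D.chx_of_scalar hχ hz (a := ∑ k ∈ s, MonoidAlgebra.of ℂ X.W (w k)) (c := c) (by
    have a : ∀ (M : X.W → Matrix (D.cell z) (D.cell z) ℂ),
        ∑ u, (∑ k ∈ s, MonoidAlgebra.of ℂ X.W (w k)).coeff u • M u = ∑ k ∈ s, M (w k) := fun M => by
      simp only [MonoidAlgebra.coeff_sum, Finsupp.finsetSum_apply, Finset.sum_smul]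
      rw [Finset.sum_comm]
      refine Finset.sum_congr rfl fun k _ => ?_
      simp [Finsupp.single_apply]
    rw [a fun u => (D.lm (D.cell z) (D.T u)).map (spc Γ)]
    ext x y
    simp only [Matrix.sum_apply, Matrix.map_apply, lm, Matrix.of_apply, Matrix.smul_apply,
      Matrix.one_apply, smul_eq_mul, mul_ite, mul_one, mul_zero]
    rw [h x y (D.mem_cell.1 x.2) (D.mem_cell.1 y.2)]
    simp only [Subtype.coe_inj])
  simpa only [map_sum, chx_of] using e

theorem i0_val_desc {χ : X.W → ℂ} (hχ : IsIrr χ) {z : X.W} (hz : D.Fam z χ) {i : Fin X.n}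
    (hL : 0 < L i) (h : ∀ y, D.Sim y z → X.len (X.s i * y) < X.len y) : χ (X.s i) = χ 1 := by
  have e := D.i0_val hχ hz {()} (fun _ => X.s i) (c := 1) fun x y _ hy => by
    rw [Finset.sum_singleton, D.i0_desc hL (h y hy), map_smul, Finsupp.smul_apply, smul_eq_mul,
      map_mul, ev_spc, one_mul, D.C.repr_self, Finsupp.single_apply, apply_ite (spc Γ), map_one,
      map_zero]
    exact if_congr eq_comm rfl rfl
  simpa using e

theorem i0_val_asc {χ : X.W → ℂ} (hχ : IsIrr χ) {z : X.W} (hz : D.Fam z χ) {i : Fin X.n}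
    (hL : 0 < L i) (h : ∀ y, D.Sim y z → X.len y < X.len (X.s i * y)) : χ (X.s i) = -χ 1 := by
  have e := D.i0_val hχ hz {()} (fun _ => X.s i) (c := -1) fun x y hx _ => by
    have a : D.T (X.s i) * D.C y = D.iE i * D.C y - ev (-L i) • D.C y := by
      rw [iE, add_mul, smul_mul_assoc, one_mul, add_sub_cancel_right]
    have b : D.C.repr (D.iE i * D.C y) x = 0 :=
      by_contra fun c => lt_asymm (h x hx) (D.mem_spC.1 (D.i0_suppE hL _) x c)
    rw [Finset.sum_singleton, a, map_sub, Finsupp.sub_apply, b, zero_sub, map_neg, map_smul,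
      Finsupp.smul_apply, smul_eq_mul, map_mul, ev_spc, one_mul, D.C.repr_self,
      Finsupp.single_apply, apply_ite (spc Γ), map_one, map_zero, apply_ite fun c : ℂ => -c,
      neg_zero]
    exact if_congr eq_comm rfl rfl
  simpa using e

theorem i0_fam {χ : X.W → ℂ} {y z : X.W} (h : D.Sim y z) (hy : D.Fam y χ) : D.Fam z χ := by
  rwa [Fam, ← D.cell_eq h]

theorem i0_rel_iff (f : (X.W → ℂ) → ℂ) (ω : X.W → ℂ)
    (h1 : ∀ z χ, IsIrr χ → D.Fam z χ → f χ = ω z) (h2 : ∀ z z', ω z = ω z' → D.Sim z z')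
    {χ χ' : X.W → ℂ} (hχ : IsIrr χ) (hχ' : IsIrr χ') : D.Rel χ χ' ↔ f χ = f χ' := by
  refine ⟨fun ⟨z, a, b⟩ => by rw [h1 z χ hχ a, h1 z χ' hχ' b], fun e => ?_⟩
  obtain ⟨z, a⟩ := D.exists_fam hχ
  obtain ⟨z', b⟩ := D.exists_fam hχ'
  rw [h1 z χ hχ a, h1 z' χ' hχ' b] at e
  exact ⟨z', D.i0_fam (h2 z z' e) a, b⟩

end KL

end

end Pool.Agent.P.MP_1a0ecf_al.F
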