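import Pool.Agent.P.MP_1a0ecf_al.K.KB1
import Pool.Agent.P.MP_1a0ecf_al.K.I0

/-! Package KB4: multiplication of the basis by a generator; the sharing lemma. -/

namespace Pool.Agent.P.MP_1a0ecf_al.K

open scoped Classical

set_option linter.unusedSectionVars false

noncomputable section

variable {X : F.Cox} {Γ : Type} [AddCommGroup Γ] [LinearOrder Γ] [IsOrderedAddMonoid Γ]
  {L : Fin X.n → Γ}


section A

variable (D : F.KL X Γ L)

private theorem len_s (x : X.W) (i : Fin X.n) :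
    X.len (x * X.s i) = X.len x + 1 ∨ X.len (x * X.s i) + 1 = X.len x :=
  X.cs.length_mul_simple x i

private theorem inv_s (x : X.W) (i : Fin X.n) : X.s i * x⁻¹ = (x * X.s i)⁻¹ := by
  rw [mul_inv_rev, X.cs.inv_simple]

private theorem flat_Ts (i : Fin X.n) : D.toHA.flat (D.toHA.Ts i) = D.toHA.Ts i := by
  rw [D.toHA.flat_T, X.cs.inv_simple]

private theorem repr_flat (a : D.H) (x : X.W) :
    D.C.repr (D.toHA.flat a) x⁻¹ = D.C.repr a x := by
  have e : D.C.coord x⁻¹ ∘ₗ D.toHA.flat = D.C.coord x := D.C.ext fun y => by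
    simp [D.flat_C, Finsupp.single_apply]
  exact LinearMap.congr_fun e a

private theorem flat_inj {a b : D.H} (h : D.toHA.flat a = D.toHA.flat b) : a = b := by
  rw [← D.toHA.flat_flat a, h, D.toHA.flat_flat]

private theorem T_low (x : X.W) : D.T x ∈ F.L1P.low D.toHA (X.len x + 1) :=
  Submodule.subset_span ⟨x, Nat.lt_succ_self _, rfl⟩

theorem repr_tri (x y : X.W) (h : D.C.repr (D.T x) y ≠ 0) : y = x ∨ X.len y < X.len x := by
  by_contra c
  rw [not_or, not_lt] at c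
  refine h ?_
  rcases c.2.eq_or_lt with k | k
  · rw [D.i0_repr_top (T_low D x) k.symm, D.T.repr_self, Finsupp.single_eq_of_ne c.1]
  · exact D.i0_repr_low (T_low D x) k

theorem repr_self (x : X.W) : D.C.repr (D.T x) x = 1 := by
  rw [D.i0_repr_top (T_low D x) rfl, D.T.repr_self, Finsupp.single_eq_same]

/-- an element whose support has length at most the length of `y` -/
theorem repr_top {a : D.H} {y : X.W} (h : ∀ w, D.T.repr a w ≠ 0 → X.len w ≤ X.len y) :
    D.C.repr a y = D.T.repr a y :=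
  D.i0_repr_top (D.i0_mem_low.2 fun w hw => by_contra fun c => absurd (h w c) (not_le.2 hw)) rfl

private theorem up_left' {x : X.W} {i : Fin X.n} (h : X.len x < X.len (X.s i * x)) :
    D.C.repr (D.toHA.Ts i * D.C x) (X.s i * x) = 1 := by
  have k := F.I0.len_s x i
  rw [D.i0_repr_top (n := X.len x + 1) (D.i0_mem_low.2 fun w hw => ?_) (by omega), D.i0_co,
    F.I0.ss, D.i0_p_self, D.i0_p_lt h, mul_zero, add_zero]
  have k' := F.I0.len_s w i
  rw [D.i0_co, D.i0_p_lt (by omega), D.i0_p_lt (by omega), mul_zero, add_zero]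

theorem up_right {x : X.W} {i : Fin X.n} (h : X.len x < X.len (x * X.s i)) :
    D.C.repr (D.C x * D.toHA.Ts i) (x * X.s i) = 1 := by
  rw [← repr_flat, D.toHA.flat_mul, flat_Ts, D.flat_C, ← inv_s]
  exact up_left' D (by rwa [inv_s, F.I0.len_inv, F.I0.len_inv])

theorem up_left {x : X.W} {i : Fin X.n} (h : X.len x < X.len (X.s i * x)) :
    D.C.repr (D.toHA.Ts i * D.C x) (X.s i * x) = 1 := up_left' D h

theorem le_up_right {x : X.W} {i : Fin X.n} (h : X.len x < X.len (x * X.s i)) :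
    D.Le (x * X.s i) x :=
  D.le_of_repr (a := 1) (b := D.toHA.Ts i) (by rw [one_mul, up_right D h]; exact one_ne_zero)

theorem le_up_left {x : X.W} {i : Fin X.n} (h : X.len x < X.len (X.s i * x)) :
    D.Le (X.s i * x) x := D.i0_up h

theorem T_zero_right {i : Fin X.n} (h : L i = 0) (x : X.W) :
    D.T x * D.toHA.Ts i = D.T (x * X.s i) :=
  flat_inj D (by rw [D.toHA.flat_mul, flat_Ts, D.toHA.flat_T, D.toHA.flat_T, D.i0_T0 h, inv_s])

theorem T_zero_left {i : Fin X.n} (h : L i = 0) (x : X.W) :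
    D.toHA.Ts i * D.T x = D.T (X.s i * x) := D.i0_T0 h x

theorem zero_right {i : Fin X.n} (h : L i = 0) (x : X.W) :
    D.C x * D.toHA.Ts i = D.C (x * X.s i) :=
  flat_inj D (by rw [D.toHA.flat_mul, flat_Ts, D.flat_C, D.flat_C, D.i0_C0 h, inv_s])

theorem zero_left {i : Fin X.n} (h : L i = 0) (x : X.W) :
    D.toHA.Ts i * D.C x = D.C (X.s i * x) := D.i0_C0 h x

/-- `h = C w * (Ts i - v)` is fixed by `bar` and equals `∑ (y < y s) r y • (T (y s) - v • T y)` with
`r y = p y - v⁻¹ * p (y s)` negative. An element of maximal length in the support of `h` is some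
`y s`, its coefficient `r y` is fixed by `barG` (`Ti_tri`), so zero. -/
theorem desc_right {i : Fin X.n} (h : 0 < L i) {w : X.W} (hw : X.len (w * X.s i) < X.len w) :
    D.C w * D.toHA.Ts i = (F.vU (L i) : F.ZG Γ) • D.C w :=
  flat_inj D (by
    rw [D.toHA.flat_mul, flat_Ts, map_smul, D.flat_C]
    exact D.i0_desc h (by rwa [inv_s, F.I0.len_inv, F.I0.len_inv]))

theorem desc_left {i : Fin X.n} (h : 0 < L i) {w : X.W} (hw : X.len (X.s i * w) < X.len w) :
    D.toHA.Ts i * D.C w = (F.vU (L i) : F.ZG Γ) • D.C w := D.i0_desc h hw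

theorem C_simple {i : Fin X.n} (h : 0 < L i) :
    D.C (X.s i) = D.toHA.Ts i + (F.vU (-L i) : F.ZG Γ) • 1 := by
  have l1 : X.len 1 = 0 := X.cs.length_one
  have k := D.i0_E_low h (y := 1) (by have := F.I0.len_s (X := X) 1 i; omega)
  rw [l1, D.C_one, mul_one, mul_one] at k
  exact (sub_eq_zero.1 (F.L1P.low_zero D.toHA k)).symm

/-- one step of the left preorder -/
def LL (x y : X.W) : Prop := ∃ a, D.C.repr (a * D.C y) x ≠ 0

/-- the two consequences of positivity that are used -/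
def Pos : Prop := (∀ x y, D.Le y x → ∃ u, LL D u x ∧ ∃ a, D.C.repr (D.C u * a) y ≠ 0) ∧
  ∀ x u, LL D u x → D.Le x u → LL D x u

end A

namespace KB

variable (B : KB X Γ L)

/-- `lid e = {h | h * Ts i = v • h}`; for `⊆` take a longest `u` with `u < u s` and nonzero
coefficient and look at the coefficient of `CK (u s)` in `h * (Ts i - v)`. -/
theorem crd_simple {i : Fin X.n} (h : 0 < L i) :
    B.Crd (B.lid (((mK (L i) : KK Γ) + ((mK (L i))⁻¹ : (KK Γ)ˣ))⁻¹ •
      (B.E.Ts i + (((mK (L i))⁻¹ : (KK Γ)ˣ) : KK Γ) • 1))) := by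
  have hv : (mK (L i) : KK Γ) + ((mK (L i))⁻¹ : (KK Γ)ˣ) ≠ 0 := fun e => by
    rw [← mK_neg, ← alg_vU, ← alg_vU, ← map_add,
      map_eq_zero_iff _ (IsFractionRing.injective (GA Γ) (KK Γ))] at e
    refine F.I0.not_neg h.le ?_
    rw [F.I0.ev, eq_neg_of_add_eq_zero_left e]
    exact (F.I0.neg_ev (neg_lt_zero.2 h)).neg
  have hE : B.j (B.toKL.iE i) = B.E.Ts i + (((mK (L i))⁻¹ : (KK Γ)ˣ) : KK Γ) • 1 := by
    rw [F.KL.iE, map_add, B.j_smul, B.j_T, map_one, ← mK_neg, ← alg_vU, F.I0.ev]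
  refine ⟨{w | X.len (w * X.s i) < X.len w}, le_antisymm ?_ (Submodule.span_le.2 ?_)⟩
  · rintro _ ⟨x, rfl⟩
    obtain ⟨c, hc, a, ha⟩ := B.exists_den x
    rw [LinearMap.mulRight_apply, mul_smul_comm, ← hE]
    refine Submodule.smul_mem _ _ (B.mem_spK.2 fun w hw => ?_)
    have e := B.repr_j (a * B.toKL.iE i) w
    rw [map_mul, ha, smul_mul_assoc, map_smul, Finsupp.smul_apply, smul_eq_mul] at e
    have k : B.C.repr (a * B.toKL.iE i) w ≠ 0 := fun k => by
      rw [k, map_zero] at e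
      exact mul_ne_zero hc hw e
    have f1 : B.toHA.flat (B.toKL.iE i) = B.toKL.iE i := by
      rw [F.KL.iE, map_add, map_smul, flat_Ts, ← B.T_one, B.toHA.flat_T, inv_one]
    rw [← repr_flat, B.toHA.flat_mul, f1] at k
    have k' := B.toKL.mem_spC.1 (B.toKL.i0_suppE h _) _ k
    rwa [Set.mem_ofPred_eq, inv_s, F.I0.len_inv, F.I0.len_inv] at k'
  · rintro _ ⟨w, hw, rfl⟩
    refine ⟨B.CK w, ?_⟩
    have e : B.CK w * B.E.Ts i = (mK (L i) : KK Γ) • B.CK w := by
      rw [B.CK_eq, F.HA.Ts, ← B.j_T, ← map_mul, desc_right B.toKL h hw, B.j_smul, alg_vU]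
    rw [LinearMap.mulRight_apply, mul_smul_comm, mul_add, e, mul_smul_comm, mul_one, ← add_smul,
      smul_smul, inv_mul_cancel₀ hv, one_smul]

theorem ll_iff {x y : X.W} : LL B.toKL x y ↔ ∃ a, B.CK.repr (a * B.CK y) x ≠ 0 := by
  constructor
  · rintro ⟨a, ha⟩
    refine ⟨B.j a, ?_⟩
    rwa [B.CK_eq, ← map_mul, B.repr_j,
      map_ne_zero_iff _ (IsFractionRing.injective (GA Γ) (KK Γ))]
  · rintro ⟨a, ha⟩
    obtain ⟨c, hc, a', ha'⟩ := B.exists_den a
    refine ⟨a', fun k => ?_⟩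
    have e := B.repr_j (a' * B.C y) x
    rw [k, map_zero, map_mul, ha', ← B.CK_eq, smul_mul_assoc, map_smul] at e
    exact mul_ne_zero hc ha e

/-- Take `u`, `a` from `Pos` (`u ≤_L x`, `c = ` coefficient of `C y` in `C u * a`, nonzero; then
`x ≤_L u`). The coefficient of `CK y` in `(κ * CK u) * a` is `ν * c`: a term `u' ∈ Y'` with `u' ≤_L u`
and `y ≤ u'` would give `u ≤_L u'`, `u ∈ Y'`, `x ∈ Y'`. In `κ * (CK u * a)` it is `ν' * c`: a term
`w` with `y ≤_L w`, `w ≤ u ≤ y` has `w ≤_L y`, so it lies in the set of `y`. -/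
theorem share (hp : Pos B.toKL) {κ : B.E.H} {x y : X.W} {ν ν' : KK Γ} (h : B.toKL.Sim x y)
    (hx : B.Eig κ x ν) (hy : B.Eig κ y ν') : ν = ν' := by
  have low : ∀ {Y : Set X.W} {a b : X.W}, B.LLow Y → LL B.toKL a b → b ∈ Y → a ∈ Y :=
    fun hY hl hb => by
      obtain ⟨z, hz⟩ := B.ll_iff.1 hl
      exact B.mem_spK.1 (hY _ hb z) _ hz
  obtain ⟨u, hux, a, ha⟩ := hp.1 x y h.2
  have hu : B.toKL.Le u y := by
    obtain ⟨z, hz⟩ := hux
    exact (B.toKL.le_of_repr (a := z) (b := 1) (by rwa [mul_one])).trans h.1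
  have hxu : LL B.toKL x u :=
    hp.2 x u hux (h.1.trans (B.toKL.le_of_repr (a := 1) (b := a) (by rwa [one_mul])))
  have hc : B.CK.repr (B.CK u * B.j a) y ≠ 0 := by
    rwa [B.CK_eq, ← map_mul, B.repr_j,
      map_ne_zero_iff _ (IsFractionRing.injective (GA Γ) (KK Γ))]
  obtain ⟨Y, Y', hY, hY', hxY, hxY', hκ⟩ := hx
  obtain ⟨Z, Z', hZ, hZ', hyZ, hyZ', hκ'⟩ := hy
  have huY' : u ∉ Y' := fun k => hxY' (low hY' hxu k)
  have h1 : B.CK.repr ((κ * B.CK u - ν • B.CK u) * B.j a) y = 0 := by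
    rw [← B.CK.sum_repr (κ * B.CK u - ν • B.CK u), Finset.sum_mul, map_sum,
      Finsupp.finsetSum_apply]
    refine Finset.sum_eq_zero fun w _ => by_contra fun k => ?_
    rw [smul_mul_assoc, map_smul, Finsupp.smul_apply, smul_eq_mul] at k
    have k1 := left_ne_zero_of_mul k
    have hw : w ∈ Y' := B.mem_spK.1 (hκ u (low hY hux hxY)) w k1
    have ne : w ≠ u := fun e => huY' (e ▸ hw)
    rw [map_sub, map_smul, Finsupp.sub_apply, Finsupp.smul_apply, B.CK.repr_self,
      Finsupp.single_eq_of_ne ne, smul_zero, sub_zero] at k1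
    refine huY' (low hY' (hp.2 u w (B.ll_iff.2 ⟨κ, k1⟩) (hu.trans ?_)) hw)
    exact B.le_of_repr (a := 1) (b := B.j a) (by rw [one_mul]; exact right_ne_zero_of_mul k)
  have h2 : B.CK.repr (κ * (B.CK u * B.j a) - ν' • (B.CK u * B.j a)) y = 0 := by
    rw [← B.CK.sum_repr (B.CK u * B.j a), Finset.mul_sum, Finset.smul_sum, ← Finset.sum_sub_distrib,
      map_sum, Finsupp.finsetSum_apply]
    refine Finset.sum_eq_zero fun w _ => by_contra fun k => ?_
    rw [mul_smul_comm, smul_comm ν', ← smul_sub, map_smul, Finsupp.smul_apply, smul_eq_mul] at k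
    have k1 := right_ne_zero_of_mul k
    refine hyZ' (B.mem_spK.1 (hκ' w ?_) y k1)
    by_cases e : y = w
    · exact e ▸ hyZ
    rw [map_sub, map_smul, Finsupp.sub_apply, Finsupp.smul_apply, B.CK.repr_self,
      Finsupp.single_eq_of_ne e, smul_zero, sub_zero] at k1
    refine low hZ (hp.2 w y (B.ll_iff.2 ⟨κ, k1⟩) (F.KL.Le.trans ?_ hu)) hyZ
    exact B.le_of_repr (a := 1) (b := B.j a) (by rw [one_mul]; exact left_ne_zero_of_mul k)
  rw [sub_mul, mul_assoc, smul_mul_assoc] at h1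
  rw [map_sub, map_smul, Finsupp.sub_apply, Finsupp.smul_apply, smul_eq_mul, sub_eq_zero] at h1 h2
  exact mul_right_cancel₀ hc (h1.symm.trans h2)

end KB

end

end Pool.Agent.P.MP_1a0ecf_al.K
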