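import Pool.Agent.P.MP_1a0ecf_al.K.B0a
import Pool.Agent.P.MP_1a0ecf_al.K.KB4
import Pool.Agent.P.MP_1a0ecf_al.K.Act

/-! Package B0: type B with weight zero on the symmetric group. -/

namespace Pool.Agent.P.MP_1a0ecf_al.K

open Matrix Finset F
open scoped Classical

noncomputable section

variable {X : F.Cox} {L : Fin X.n → ℝ} (D : F.KL X ℝ L)

theorem b0_co {a : D.H} {i : Fin X.n}
    (h : ∀ u, D.T.repr a u ≠ 0 → D.T u * D.toHA.Ts i = D.T (u * X.s i)) (y : X.W) :
    D.T.repr (a * D.toHA.Ts i) y = D.T.repr a (y * X.s i) := by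
  have e : a * D.toHA.Ts i = ∑ u, D.T.repr a (u * X.s i) • D.T u := by
    conv_lhs => rw [← D.T.sum_repr a, sum_mul, ← Equiv.sum_comp (Equiv.mulRight (X.s i))]
    refine sum_congr rfl fun u _ => ?_
    rw [Equiv.coe_mulRight, smul_mul_assoc]
    by_cases c : D.T.repr a (u * X.s i) = 0
    · simp [c]
    · rw [h _ c, X.cs.simple_mul_simple_cancel_right]
  rw [e]
  exact congrFun (D.T.repr_sum_self _) y

namespace BF

variable {B : BF X} (hL : ∀ i, i ≠ B.o → L i = 0) (hb : 0 < L B.o)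

include hL in
theorem zero {w : X.W} {π : Equiv.Perm (Fin B.G.N)} (h : B.G.Act w π fun _ => 1) (x : X.W) :
    D.T x * D.T w = D.T (x * w) ∧ D.T w * D.T x = D.T (w * x) ∧
      D.C x * D.T w = D.C (x * w) ∧ D.T w * D.C x = D.C (w * x) := by
  revert x
  refine ind_one (p := fun w => ∀ x, D.T x * D.T w = D.T (x * w) ∧ D.T w * D.T x = D.T (w * x) ∧
    D.C x * D.T w = D.C (x * w) ∧ D.T w * D.C x = D.C (w * x)) (by simp [D.T_one])
    (fun w i hi ih x => ?_) h
  have z := hL i hi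
  rw [← T_zero_right D z w]
  refine ⟨?_, ?_, ?_, ?_⟩
  · rw [← mul_assoc, (ih x).1, T_zero_right D z, mul_assoc]
  · rw [mul_assoc, T_zero_left D z, (ih _).2.1, mul_assoc]
  · rw [← mul_assoc, (ih x).2.2.1, zero_right D z, mul_assoc]
  · rw [mul_assoc, zero_left D z, (ih _).2.2.2, mul_assoc]

variable (B) in
/-- the support condition -/
def Sup (w : X.W) : Prop := ∀ y, D.T.repr (D.C w) y ≠ 0 → ∀ k, B.Ng y k → B.Ng w k

include hb in
theorem up {w : X.W} (h : B.Sup D w) (hw : ¬ B.Ng w B.z) :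
    D.C w * D.C (X.s B.o) = D.C (w * X.s B.o) ∧ B.Sup D (w * X.s B.o) := by
  have e : ∀ y, D.T.repr (D.C w * D.C (X.s B.o)) y = D.T.repr (D.C w) (y * X.s B.o) +
      (vU (-L B.o) : ZG ℝ) * D.T.repr (D.C w) y := fun y => by
    rw [C_simple D hb, mul_add, map_add, Finsupp.add_apply, mul_smul_comm, mul_one, map_smul,
      b0_co D fun u hu => D.T_up u _ ((asc_o u).2 fun c => hw (h u hu _ c))]
    rfl
  have hQ : F.Neg (vU (-L B.o) : ZG ℝ) := fun γ hγ =>
    Finsupp.single_eq_of_ne (by linarith : γ ≠ -L B.o)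
  have e1 : D.C w * D.C (X.s B.o) = D.C (w * X.s B.o) := by
    refine D.eq_C (by rw [map_mul, D.bar_C, D.bar_C]) fun y => ?_
    have n1 := D.C_neg w (y * X.s B.o)
    have n2 := hQ.mul (D.C_neg w y)
    have n3 : F.Neg ((vU (-L B.o) : ZG ℝ) * D.T.repr (D.T w) y) := by
      rw [D.T.repr_self, Finsupp.single_apply]
      split_ifs
      · rwa [mul_one]
      · rw [mul_zero]
        exact Neg.zero
    have e2 : D.T.repr (D.T (w * X.s B.o)) y = D.T.repr (D.T w) (y * X.s B.o) := by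
      simp only [D.T.repr_self, Finsupp.single_apply]
      refine if_congr ⟨?_, ?_⟩ rfl rfl <;> rintro rfl <;>
        rw [X.cs.simple_mul_simple_cancel_right]
    convert n1.add (n2.add n3) using 1
    simp only [map_sub, Finsupp.sub_apply, e, e2]
    ring
  refine ⟨e1, fun y hy k hk => ?_⟩
  rw [← e1, e] at hy
  rw [s_o, ng_t]
  split_ifs with c
  · exact c ▸ hw
  by_cases c1 : D.T.repr (D.C w) y = 0
  · rw [c1, mul_zero, add_zero] at hy
    exact h _ hy k (by rwa [s_o, ng_t, if_neg c])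
  · exact h _ c1 k hk

include hL hb

theorem sup (w : X.W) : B.Sup D w := by
  induction hl : X.len w using Nat.strong_induction_on generalizing w with
  | _ n ih =>
    by_cases c : w = 1
    · intro y hy k hk
      rw [c, D.C_one, ← D.T_one, D.T.repr_self, Finsupp.single_apply] at hy
      rwa [c, of_not_not fun e => hy (if_neg e)]
    obtain ⟨i, hi⟩ := X.cs.exists_rightDescent_of_ne_one c
    have hi' : X.len (w * X.s i) < X.len w := hi
    have e := ih _ (hl ▸ hi') _ rfl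
    have ew : w = w * X.s i * X.s i := (X.cs.simple_mul_simple_cancel_right i).symm
    rw [ew]
    by_cases io : i = B.o
    · subst io
      exact (up D hb e ((asc_o _).1 (ew ▸ hi'))).2
    obtain ⟨ρ, hρ⟩ := B.hi i io
    intro y hy k hk
    rw [← zero_right D (hL i io), b0_co D fun u _ => T_zero_right D (hL i io) u] at hy
    rw [ng_mul hρ]
    refine e _ hy _ ?_
    rwa [← ng_mul hρ, X.cs.simple_mul_simple_cancel_right]

theorem mul_t (w : X.W) (k : Fin B.G.N) : D.C w * D.T (B.t k) =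
    if B.Ng w k then (vU (L B.o) : ZG ℝ) • D.C w
    else D.C (w * B.t k) - (vU (-L B.o) : ZG ℝ) • D.C w := by
  obtain ⟨u, hu⟩ := B.G.exists_perm (Equiv.swap B.z k)
  have hu' := zero D hL (act_inv hu)
  have e := t_conj hu B.z
  rw [Equiv.swap_apply_left, ← s_o] at e
  have e1 : B.Ng (w * u) B.z ↔ B.Ng w k := by rw [ng_mul hu, Equiv.swap_apply_left]
  rw [← e, ← (hu' _).1, ← (zero D hL hu _).2.1, ← mul_assoc, ← mul_assoc, (zero D hL hu _).2.2.1]
  split_ifs with c
  · rw [desc_right D hb (lt_of_le_of_ne (not_lt.1 fun c' => (asc_o _).1 c' (e1.2 c))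
      (X.cs.length_mul_simple_ne _ _)), smul_mul_assoc, (hu' _).2.2.1, mul_inv_cancel_right]
  · have e2 := (up D hb (sup D hL hb _) fun c' => c (e1.1 c')).1
    rw [C_simple D hb, mul_add, mul_smul_comm, mul_one] at e2
    rw [eq_sub_of_add_eq e2, sub_mul, smul_mul_assoc, (hu' _).2.2.1, (hu' _).2.2.1,
      mul_inv_cancel_right]
    simp only [mul_assoc]

theorem t_mul (w : X.W) (k : Fin B.G.N) : D.T (B.t k) * D.C w =
    if B.Ng w⁻¹ k then (vU (L B.o) : ZG ℝ) • D.C w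
    else D.C (B.t k * w) - (vU (-L B.o) : ZG ℝ) • D.C w := by
  have e := congrArg D.toHA.flat (mul_t D hL hb w⁻¹ k)
  rw [D.toHA.flat_mul, D.toHA.flat_T, D.flat_C, t_inv, inv_inv] at e
  rw [e]
  split_ifs <;> simp only [map_smul, map_sub, D.flat_C, _root_.mul_inv_rev, t_inv, inv_inv]

omit hL hb in
theorem r_t' {x : X.W} {k : Fin B.G.N} (h : ¬ B.Ng x⁻¹ k) : B.r (B.t k * x) = B.r x + 1 := by
  rw [← r_inv, _root_.mul_inv_rev, t_inv, r_t h, r_inv]

theorem r_le {x y : X.W} (h : D.Le x y) : B.r y ≤ B.r x := by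
  refine (D.lower_iff {w | B.r y ≤ B.r w}).2 (fun u hu i => ?_) x y h (le_refl (B.r y))
  have m : ∀ w, B.r u ≤ B.r w → D.C w ∈ D.spC {w | B.r y ≤ B.r w} := fun w hw =>
    Submodule.subset_span ⟨w, le_trans hu hw, rfl⟩
  by_cases io : i = B.o
  · rw [io, HA.Ts, s_o, mul_t D hL hb, t_mul D hL hb]
    constructor <;> split_ifs with c
    · exact Submodule.smul_mem _ _ (m u le_rfl)
    · exact sub_mem (m _ (by rw [r_t' c]; omega)) (Submodule.smul_mem _ _ (m u le_rfl))
    · exact Submodule.smul_mem _ _ (m u le_rfl)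
    · exact sub_mem (m _ (by rw [r_t c]; omega)) (Submodule.smul_mem _ _ (m u le_rfl))
  obtain ⟨ρ, hρ⟩ := B.hi i io
  rw [zero_left D (hL i io), zero_right D (hL i io)]
  refine ⟨m _ ?_, m _ (r_mul hρ u).ge⟩
  rw [← r_inv (X.s i * u), _root_.mul_inv_rev, X.cs.inv_simple, r_mul hρ, r_inv]

theorem sim_iff (x y : X.W) : D.Sim x y ↔ B.r x = B.r y := by
  have k : ∀ {x y}, B.r x = B.r y → D.Le y x := fun {x y} h => by
    obtain ⟨u, u', π, π', h1, h2, rfl⟩ := exists_eq h
    refine D.le_of_repr (a := D.T u) (b := D.T u') ?_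
    rw [(zero D hL h1 _).2.2.2, (zero D hL h2 _).2.2.1]
    simp
  exact ⟨fun h => le_antisymm (r_le D hL hb h.2) (r_le D hL hb h.1), fun h => ⟨k h.symm, k h⟩⟩

theorem chx_t {χ : X.W → ℂ} (hχ : IsIrr χ) {z : X.W} (hz : D.Fam z χ) :
    chx χ (∑ k, X.gA (B.t k)) = (2 * B.r z - B.G.N) * χ 1 := by
  have c0 : ∀ y, #{k | ¬ B.Ng y k} + B.r y = B.G.N := fun y => by
    rw [add_comm, r, card_filter_add_card_filter_not, card_univ, Fintype.card_fin]
  have e := Lead.chx (lam := 0) (Lead.sum univ fun k _ => Lead.T (D := D) (B.t k))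
    (lead_zero (B.r z • (vU (L B.o) : ZG ℝ) + (B.G.N - B.r z) • -(vU (-L B.o) : ZG ℝ))) (z := z)
    (Matrix.ext fun x y => ?_) hχ hz
  · rw [e, map_add, map_nsmul, map_nsmul, map_neg, spc_vU, spc_vU, nsmul_eq_mul, nsmul_eq_mul,
      Nat.cast_sub (by have := c0 z; omega)]
    ring
  have hx := (sim_iff D hL hb _ _).1 (D.mem_cell.1 x.2)
  have hy := (sim_iff D hL hb _ _).1 (D.mem_cell.1 y.2)
  have e1 : ∀ k, D.C.repr (D.T (B.t k) * D.C y) x =
      (if B.Ng (y : X.W)⁻¹ k then (vU (L B.o) : ZG ℝ) else -(vU (-L B.o) : ZG ℝ)) *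
        (1 : Matrix (D.cell z) (D.cell z) (ZG ℝ)) x y := fun k => by
    have e2 : D.C.repr (D.C y) x = (1 : Matrix (D.cell z) (D.cell z) (ZG ℝ)) x y := by
      rw [← D.lm_one, KL.lm, of_apply, one_mul]
    rw [t_mul D hL hb]
    split_ifs with c
    · rw [map_smul, Finsupp.smul_apply, e2, smul_eq_mul]
    · rw [map_sub, map_smul, Finsupp.sub_apply, Finsupp.smul_apply, e2, D.C.repr_self,
        Finsupp.single_eq_of_ne fun c' => by have := r_t' c; rw [← c'] at this; omega]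
      simp
  rw [KL.lm, of_apply, sum_mul, map_sum, Finsupp.finsetSum_apply, sum_congr rfl fun k _ => e1 k,
    ← sum_mul, sum_ite, sum_const, sum_const, Matrix.smul_apply, smul_eq_mul]
  congr 3
  · exact (r_inv _).trans hy
  · have := c0 (y : X.W)⁻¹
    rw [r_inv] at this
    omega

end BF

theorem uB_zero (b : ℂ) (k : ℕ) : X.uB 0 b k = b • X.gA (X.tB k) := by
  induction k with
  | zero => rfl
  | succ k ih => simp [Cox.uB, Cox.tB, ih]

theorem klB0 (h : X.Is (pathM 0 4)) (hn : 2 ≤ X.n) {a b : ℝ} (ha : a = 0) (hb : 0 < b)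
    (D : F.KL X ℝ fun i => if (i : ℕ) = 0 then b else a) {χ χ' : X.W → ℂ} (hχ : IsIrr χ)
    (hχ' : IsIrr χ') : D.Rel χ χ' ↔ Cox.SameP (X.uB a b) X.n χ χ' := by
  obtain ⟨B⟩ := exists_BF h hn
  have hL : ∀ i, i ≠ B.o → (if (i : ℕ) = 0 then b else a) = 0 := fun i hi => by
    rw [if_neg fun c => hi (Fin.ext (c.trans B.ho.symm)), ha]
  have hb' : 0 < if (B.o : ℕ) = 0 then b else a := by rwa [if_pos B.ho]
  have e : ∀ j, ∑ i ∈ range X.n, X.uB a b i ^ j = (b : ℂ) ^ j •
      if Even j then (B.G.N : ℂ) • 1 else ∑ k, X.gA (B.t k) := fun j => by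
    rw [← B.hN, ← Fin.sum_univ_eq_sum_range fun i => X.uB a b i ^ j, ha, Complex.ofReal_zero]
    simp only [uB_zero, smul_pow, ← smul_sum, ← map_pow]
    have sq : ∀ k, B.t k ^ 2 = 1 := fun k => by
      rw [sq, ← eq_inv_iff_mul_eq_one, BF.t_inv]
    congr 1
    split_ifs with c
    · obtain ⟨m, rfl⟩ := c
      simp only [← two_mul, pow_mul, sq, one_pow, map_one, sum_const, card_univ, Fintype.card_fin,
        Nat.cast_smul_eq_nsmul]
    · obtain ⟨m, rfl⟩ := Nat.not_even_iff_odd.1 c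
      simp [pow_succ, pow_mul, sq]
  have e' : Cox.SameP (X.uB a b) X.n χ χ' ↔
      chx χ (∑ k, X.gA (B.t k)) * χ' 1 = chx χ' (∑ k, X.gA (B.t k)) * χ 1 := by
    have hb0 : (b : ℂ) ≠ 0 := by exact_mod_cast hb.ne'
    refine ⟨fun c => ?_, fun c j => ?_⟩
    · have := c 1
      rw [e, if_neg (by simp), pow_one, map_smul, map_smul, smul_mul_assoc, smul_mul_assoc] at this
      exact smul_right_injective _ hb0 this
    · rw [e, map_smul, map_smul, smul_mul_assoc, smul_mul_assoc]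
      congr 1
      split_ifs
      · rw [map_smul, map_smul, ← map_one (MonoidAlgebra.of ℂ X.W), chx_of, chx_of]
        simp only [smul_eq_mul]
        ring
      · exact c
  rw [e']
  constructor
  · rintro ⟨z, h1, h2⟩
    rw [BF.chx_t D hL hb' hχ h1, BF.chx_t D hL hb' hχ' h2]
    ring
  · intro c
    obtain ⟨z, h1⟩ := D.exists_fam hχ
    obtain ⟨z', h2⟩ := D.exists_fam hχ'
    rw [BF.chx_t D hL hb' hχ h1, BF.chx_t D hL hb' hχ' h2, mul_assoc, mul_assoc,
      mul_comm (χ' 1)] at c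
    have c1 := mul_right_cancel₀ (mul_ne_zero hχ.one_ne hχ'.one_ne) c
    have c2 : B.r z = B.r z' := by
      have : (B.r z : ℂ) = B.r z' := by linear_combination c1 / 2
      exact_mod_cast this
    refine ⟨z, h1, ?_⟩
    rwa [KL.Fam, D.cell_eq ((BF.sim_iff D hL hb' _ _).2 c2)]

end

end Pool.Agent.P.MP_1a0ecf_al.K
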