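import Pool.Agent.P.MP_1a0ecf_al.K.KB4
import Pool.Agent.P.MP_1a0ecf_al.E6
import Pool.Agent.P.MP_1a0ecf_al.K3

/-! Package D5: the consequences of positivity. -/

namespace Pool.Agent.P.MP_1a0ecf_al.K

open scoped Classical

set_option linter.unusedSectionVars false

noncomputable section

variable {X : F.Cox} {Γ : Type} [AddCommGroup Γ] [LinearOrder Γ] [IsOrderedAddMonoid Γ]

namespace D5

/-- the same group as a Coxeter system of the parent folder -/
@[reducible] def old (X : F.Cox) (hM : ∀ i j, i ≠ j → X.M i j = 2 ∨ X.M i j = 3 ∨ X.M i j = 5) :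
    Pool.Agent.P.MP_1a0ecf_al.Cox where
  n := X.n
  M := X.M
  W := X.W
  cs := X.cs
  hM := hM

/-- the same algebra as a Hecke algebra of the parent folder -/
@[reducible] def hk (hM : ∀ i j, i ≠ j → X.M i j = 2 ∨ X.M i j = 3 ∨ X.M i j = 5)
    (D : F.KL X ℤ fun _ => 1) : Hk (old X hM) where
  H := D.H
  T := D.T
  T_one := D.T_one
  T_up := D.T_up
  T_down := D.T_down
  bar := D.bar
  bar_smul r h := by
    have e : F.barG ℤ r = LaurentPolynomial.invert r := by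
      ext k
      rw [F.barG_coeff, coeff_invert]
    rw [D.bar_smul, e]
  bar_T := D.bar_T

theorem pos_one (hM : ∀ i j, i ≠ j → X.M i j = 2 ∨ X.M i j = 3 ∨ X.M i j = 5)
    (D : F.KL X ℤ fun _ => 1) : Pos D := by
  obtain ⟨⟨H, C, kl, pp, hp⟩, e⟩ := (hk hM D).exists_KD
  obtain rfl : H = hk hM D := e
  obtain rfl : C = D.C := Module.Basis.eq_of_apply_eq fun x =>
    D.eq_C (kl x).1 fun y γ hγ => (kl x).2.1 y γ (by omega)
  let E : KD (old X hM) := ⟨hk hM D, D.C, kl, pp, hp⟩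
  have h2 : ∀ x y, D.Le y x → E.L2 y x := fun x y h => by
    induction h with
    | refl => exact (E.LL_refl _).l2
    | tail _ k ih => exact ih.trans (KD.L2_iff.2 k)
  refine ⟨fun x y h => ?_, fun x u ⟨a, ha⟩ h => ?_⟩
  · obtain ⟨u, ⟨w, hw⟩, w', hw'⟩ := h2 x y h
    exact ⟨u, ⟨D.C w, hw⟩, D.C w', hw'⟩
  · obtain ⟨w, hw⟩ := KD.LL_symm (D := E) (KD.LL_of_repr (D := E) ha) (h2 u x h)
    exact ⟨D.C w, hw⟩

end D5

/-- Take `D₀ : F.KL X ℤ (fun _ => 1)` (`F.exists_KL`); it gives an `Hk` of the parent folder for the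
same group, `Hk.exists_KD` gives `KD` with the same basis (`KL.eq_C`); `KD.L2_iff`, `KD.L2.trans`,
`KD.LL_of_repr`, `KD.LL_symm`. Transport along `k ↦ k • a` by `KL.exists_map`, `KL.le_map`
(expand `a` in the basis `T`). -/
theorem pos_of_eq (hM : ∀ i j, i ≠ j → X.M i j = 2 ∨ X.M i j = 3 ∨ X.M i j = 5) {a : Γ} (ha : 0 < a)
    (D : F.KL X Γ fun _ => a) : Pos D := by
  obtain ⟨D₀⟩ := F.exists_KL (X := X) (L := fun _ => (1 : ℤ)) fun _ _ _ => rfl
  have hf : StrictMono (zmultiplesHom Γ a) := zsmul_left_strictMono ha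
  have h1 : ∀ _ : Fin X.n, zmultiplesHom Γ a 1 = a := fun _ => one_zsmul a
  obtain ⟨j, -, hT, hC, hr⟩ := D₀.exists_map D _ hf h1
  have hl := D₀.le_map D _ hf h1
  have hn : ∀ b w, D.C.repr (j b) w ≠ 0 ↔ D₀.C.repr b w ≠ 0 := fun b w => by
    rw [hr, map_ne_zero_iff _ (F.mapG_inj hf.injective)]
  have hL : ∀ x y, LL D x y ↔ LL D₀ x y := fun x y => by
    constructor
    · rintro ⟨b, hb⟩
      rw [← D.T.sum_repr b, Finset.sum_mul, map_sum, Finsupp.finsetSum_apply] at hb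
      obtain ⟨w, -, hw⟩ := Finset.exists_ne_zero_of_sum_ne_zero hb
      rw [smul_mul_assoc, map_smul, Finsupp.smul_apply, smul_eq_mul, ← hT, ← hC, ← map_mul] at hw
      exact ⟨_, (hn _ _).1 (right_ne_zero_of_mul hw)⟩
    · rintro ⟨b, hb⟩
      refine ⟨j b, ?_⟩
      rw [← hC, ← map_mul]
      exact (hn _ _).2 hb
  obtain ⟨p1, p2⟩ := D5.pos_one hM D₀
  refine ⟨fun x y h => ?_, fun x u h h' => (hL _ _).2 (p2 x u ((hL _ _).1 h) ((hl _ _).2 h'))⟩
  obtain ⟨u, hu, b, hb⟩ := p1 x y ((hl _ _).2 h)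
  refine ⟨u, (hL _ _).2 hu, j b, ?_⟩
  rw [← hC, ← map_mul]
  exact (hn _ _).2 hb

end

end Pool.Agent.P.MP_1a0ecf_al.K
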