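import Pool.Agent.P.MP_1a0ecf_al.K.W3
import Pool.Agent.P.MP_1a0ecf_al.K.T4

/-! Package Kap: the very even block. -/

namespace Pool.Agent.P.MP_1a0ecf_al.K

open Sn
open scoped Classical

set_option linter.unusedSectionVars false

noncomputable section

variable {F H : Type} [Field F] [Ring H] [Algebra F H]


namespace Tw

variable {t : Tw F H} {θ : H →ₐ[F] H}

private theorem kap_cas (t : Tw F H) {s : List Box} (hs : s ∈ tabs t.lv t.n) (a : H) :
    ∃ c : List Box → List Box → F,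
      (∀ u ∈ (tabs t.lv t.n).filter (fun u => u.Perm s), t.g true s u * a =
        ∑ v ∈ (tabs t.lv t.n).filter (fun u => u.Perm s), (t.Nm true u * c u v) • t.g true s v) ∧
      ∀ v ∈ (tabs t.lv t.n).filter (fun u => u.Perm s), a * t.g true v s =
        ∑ u ∈ (tabs t.lv t.n).filter (fun u => u.Perm s), (t.Nm true v * c u v) • t.g true u s := by
  obtain ⟨c, hc, -⟩ := t.ok.expand true le_rfl (t.w3_top a)
  have h1 : ∑ l ∈ tabs t.lv t.n, t.E l = 1 := t.ok.sum_tabs le_rfl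
  obtain ⟨-, hs2⟩ := mem_tabs.1 hs
  refine ⟨c, fun u hu => ?_, fun v hv => ?_⟩
  · obtain ⟨hu, hp⟩ := Finset.mem_filter.1 hu
    obtain ⟨hu1, hu2⟩ := mem_tabs.1 hu
    have e : t.g true s u * t.E u = t.g true s u := t.ok.g_E true s hu2
    rw [← mul_one (t.g true s u * a), ← h1, Finset.mul_sum, Finset.sum_filter]
    refine Finset.sum_congr rfl fun v hv => ?_
    have e2 : t.g true s u * a * t.E v = t.g true s u * (t.E u * a * t.E v) := by
      rw [← mul_assoc, ← mul_assoc, e]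
    rw [e2]
    split_ifs with hq
    · rw [hc u hu v hv (hp.trans hq.symm), mul_smul_comm,
        t.ok.g_mul_g true hu2 hu2 rfl (bt_eq true hs2 hu2 hp.symm), if_pos rfl, smul_smul, mul_comm]
    · rw [(t.ok.s2 le_rfl (t.w3_top a) hu1 (mem_tabs.1 hv).1).1 fun e => hq (e.symm.trans hp),
        mul_zero]
  · obtain ⟨hv, hp⟩ := Finset.mem_filter.1 hv
    obtain ⟨hv1, hv2⟩ := mem_tabs.1 hv
    have e : t.E v * t.g true v s = t.g true v s := t.ok.E_g true hv2 s
    rw [← one_mul (a * t.g true v s), ← h1, Finset.sum_mul, Finset.sum_filter]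
    refine Finset.sum_congr rfl fun u hu => ?_
    have e2 : t.E u * (a * t.g true v s) = t.E u * a * t.E v * t.g true v s := by
      rw [mul_assoc _ (t.E v), e, mul_assoc]
    rw [e2]
    split_ifs with hq
    · rw [hc u hu v hv (hq.trans hp.symm), smul_mul_assoc,
        t.ok.g_mul_g true hv2 hv2 rfl (bt_eq true (mem_tabs.1 hu).2 hv2 (hq.trans hp.symm)),
        if_pos rfl, smul_smul, mul_comm]
    · rw [(t.ok.s2 le_rfl (t.w3_top a) (mem_tabs.1 hu).1 hv1).1 fun e => hq (e.trans hp),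
        zero_mul]

/-- With the matrix units `e s u = (Nm u)⁻¹ • g s u` and `w = g (s.map br) s`:
`κ = ∑ (u of the shape of s) θ (e u s) * w * e s u`. Then `κ * E s = w ≠ 0`; `κ * κ` is central;
`{κ * h}` is a two-sided ideal, so it contains the idempotent of the block and `κ * κ ≠ 0`;
`(θ κ - κ) * κ = 0`. -/
theorem Th.kap (h : Th t θ) {s : List Box} (hs : s ∈ tabs t.lv t.n) (hb : (s.map br).Perm s) :
    ∃ (κ : H) (μ : F), μ ≠ 0 ∧ (∀ a, κ * a = θ a * κ) ∧ θ κ = κ ∧
      κ * κ = μ • t.eU t.n (fun u => u.Perm s) ∧ κ * t.eU t.n (fun u => u.Perm s) = κ := by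
  obtain ⟨hs1, hs2⟩ := mem_tabs.1 hs
  have hs3 : Std t.lv (s.map br) := by
    have := hs2
    rw [h.lv] at this ⊢
    exact std_br this
  have hs4 : s.map br ∈ tabs t.lv t.n := mem_tabs.2 ⟨by rw [List.length_map, hs1], hs3⟩
  have hN : ∀ u, Std t.lv u → t.Nm true u ≠ 0 := fun u hu => t.ok.Nm_ne true hu
  obtain ⟨w, hw⟩ : ∃ w, w = t.g true (s.map br) s := ⟨_, rfl⟩
  obtain ⟨S, hS⟩ : ∃ S, S = (tabs t.lv t.n).filter (fun u => u.Perm s) := ⟨_, rfl⟩
  have hm : ∀ u ∈ S, (u.length = t.n ∧ Std t.lv u) ∧ u.Perm s := fun u hu => by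
    rw [hS, Finset.mem_filter, mem_tabs] at hu
    exact hu
  obtain ⟨κ, hκ⟩ : ∃ κ, κ = ∑ u ∈ S, (t.Nm true u)⁻¹ • (θ (t.g true u s) * w * t.g true s u) :=
    ⟨_, rfl⟩
  obtain ⟨e, he⟩ : ∃ e, e = t.eU t.n (fun u => u.Perm s) := ⟨_, rfl⟩
  have k1 : ∀ a, κ * a = θ a * κ := fun a => by
    obtain ⟨c, c1, c2⟩ := t.kap_cas hs a
    rw [← hS] at c1 c2
    have e1 : κ * a = ∑ u ∈ S, ∑ v ∈ S, c u v • (θ (t.g true u s) * w * t.g true s v) := by
      rw [hκ, Finset.sum_mul]
      refine Finset.sum_congr rfl fun u hu => ?_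
      rw [smul_mul_assoc, mul_assoc _ _ a, c1 u hu, Finset.mul_sum, Finset.smul_sum]
      refine Finset.sum_congr rfl fun v _ => ?_
      rw [mul_smul_comm, smul_smul, inv_mul_cancel_left₀ (hN u (hm u hu).1.2)]
    have e2 : θ a * κ = ∑ v ∈ S, ∑ u ∈ S, c u v • (θ (t.g true u s) * w * t.g true s v) := by
      rw [hκ, Finset.mul_sum]
      refine Finset.sum_congr rfl fun v hv => ?_
      rw [mul_smul_comm, ← mul_assoc, ← mul_assoc, ← map_mul, c2 v hv, map_sum, Finset.sum_mul,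
        Finset.sum_mul, Finset.smul_sum]
      refine Finset.sum_congr rfl fun u _ => ?_
      rw [map_smul, smul_mul_assoc, smul_mul_assoc, smul_smul,
        inv_mul_cancel_left₀ (hN v (hm v hv).1.2)]
    rw [e1, e2, Finset.sum_comm]
  have k2 : κ * e = κ := by
    rw [hκ, Finset.sum_mul]
    refine Finset.sum_congr rfl fun u hu => ?_
    have e1 : t.g true s u * t.E u = t.g true s u := t.ok.g_E true s (hm u hu).1.2
    have e2 : t.g true s u * e = t.g true s u := by
      rw [← e1, mul_assoc, he, t.E_eU _ (hm u hu).1.1, if_pos (hm u hu).2]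
    rw [smul_mul_assoc, mul_assoc _ _ e, e2]
  have g0 : t.g true s s = t.Nm true s • t.E s := t.ok.U_V true hs2
  have w1 : t.E (s.map br) * w = w := by rw [hw]; exact t.ok.E_g true hs3 s
  have w2 : w * t.E s = w := by rw [hw]; exact t.ok.g_E true _ hs2
  have k3 : κ * t.E s = t.Nm true s • w := by
    rw [hκ, Finset.sum_mul, Finset.sum_eq_single_of_mem s
      (by rw [hS]; exact Finset.mem_filter.2 ⟨hs, List.Perm.refl s⟩) fun u hu hne => ?_]
    · rw [g0, map_smul, h.E, smul_mul_assoc, smul_mul_assoc, smul_mul_assoc, smul_mul_assoc,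
        smul_smul, inv_mul_cancel₀ (hN s hs2), one_smul, w1, mul_smul_comm, smul_mul_assoc, w2, w2]
    · have e1 : t.g true s u * t.E u = t.g true s u := t.ok.g_E true s (hm u hu).1.2
      have e2 : t.E u * t.E s = 0 := t.ok.E_orth ((hm u hu).1.1.trans hs1.symm) hne
      rw [smul_mul_assoc, mul_assoc _ _ (t.E s), ← e1, mul_assoc _ (t.E u), e2, mul_zero, mul_zero,
        smul_zero]
  have k4 : ∀ a, κ * κ * a = a * (κ * κ) := fun a => by
    rw [mul_assoc, k1 a, ← mul_assoc, k1 (θ a), h.invol, mul_assoc]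
  obtain ⟨μ, hμ⟩ := t.cent_block k4 s
  rw [← he, mul_assoc, k2] at hμ
  have k5 : μ ≠ 0 := fun e0 => by
    rw [e0, zero_smul] at hμ
    have e1 : κ * t.E s * t.g true s (s.map br) * (κ * t.E s) = 0 := by
      rw [mul_assoc κ, k1, mul_assoc _ κ, ← mul_assoc κ, hμ, zero_mul, mul_zero]
    have e2 : w * t.g true s (s.map br) = (t.Nm true s * t.Nm true (s.map br)) • t.E (s.map br) := by
      rw [hw, t.ok.g_mul_g true hs2 hs2 rfl (bt_eq true hs3 hs2 hb), if_pos rfl,
        t.ok.U_V true hs3, smul_smul]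
    rw [k3, smul_mul_assoc, e2, smul_mul_assoc, smul_mul_assoc, mul_smul_comm, w1] at e1
    exact smul_ne_zero (hN s hs2) (smul_ne_zero (mul_ne_zero (hN s hs2) (hN _ hs3))
      (smul_ne_zero (hN s hs2) (hw ▸ t.g_ne true le_rfl hs4 hs hb))) e1
  have k6 : θ e = e := by
    rw [he, h.eU]
    refine t.eU_congr fun u _ => ⟨fun hu => ?_, fun hu => (hu.map br).trans hb⟩
    have := (hu.map br).trans hb
    rwa [List.map_map, show br ∘ br = id from funext w3_br, List.map_id] at this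
  refine ⟨κ, μ, k5, k1, ?_, he ▸ hμ, he ▸ k2⟩
  have e1 : θ κ * e = θ κ := by rw [← k6, ← map_mul, k2]
  refine smul_right_injective H k5 ?_
  show μ • θ κ = μ • κ
  calc μ • θ κ = θ κ * κ * κ := by rw [mul_assoc, hμ, mul_smul_comm, e1]
    _ = μ • κ := by rw [← k1, mul_assoc, hμ, mul_smul_comm, k2]

theorem Th.fk (h : Th t θ) (k : ℕ) : θ (t.fk k) = t.fk k := by
  rw [Tw.fk, map_smul, map_add, map_smul, map_one, h.T]

theorem Th.ep (h : Th t θ) (l : List Box) : θ (t.ep l) = t.ep l := by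
  induction l with
  | nil => exact map_one θ
  | cons x l ih =>
    rw [Tw.ep, map_mul, map_mul, map_add, map_mul, map_mul, ih, h.fk, h.pr, h.pr, h.pr, h.pr,
      w3_br, add_comm]

private theorem fk_mem (t : Tw F H) {k j : ℕ} (h : k + 1 < j) : t.fk k ∈ t.Hk j :=
  Subalgebra.smul_mem _ (add_mem (t.T_mem h) (Subalgebra.smul_mem _ (one_mem _) _)) _

theorem ep_mem (t : Tw F H) (l : List Box) : t.ep l ∈ t.Hk (2 * l.length) := by
  induction l with
  | nil => exact one_mem _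
  | cons x l ih =>
    rw [Tw.ep, List.length_cons]
    exact mul_mem (t.Hk_mono (by omega) ih) (mul_mem (add_mem
      (mul_mem (t.pr_mem _ (by omega)) (t.pr_mem _ (by omega)))
      (mul_mem (t.pr_mem _ (by omega)) (t.pr_mem _ (by omega)))) (t.fk_mem (by omega)))

private theorem br_ne (x : Box) : x ≠ br x := fun e => by
  have := congrArg Prod.fst e
  simp [br] at this

private theorem comm_fk (t : Tw F H) {k : ℕ} {a : H} (h : Commute a (t.T k)) :
    Commute a (t.fk k) :=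
  (h.add_right ((Commute.one_right a).smul_right _)).smul_right _

private theorem Hk_fk (t : Tw F H) {k : ℕ} (hk : k + 1 < t.n) {a : H} (ha : a ∈ t.Hk k) :
    Commute a (t.fk k) := t.comm_fk (t.Hk_T le_rfl hk ha)

private theorem Hk_P (t : Tw F H) {k : ℕ} {a : H} (ha : a ∈ t.Hk k) (x y : Box) :
    Commute a (t.pr k x * t.pr (k + 1) y) :=
  Commute.mul_right (t.ok.cent k k x le_rfl a ha) (t.ok.cent k (k + 1) y (by omega) a ha)

private theorem PP_mul (t : Tw F H) (k : ℕ) (x y x' y' : Box) :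
    t.pr k x * t.pr (k + 1) y * (t.pr k x' * t.pr (k + 1) y') =
      t.pr k x * t.pr k x' * (t.pr (k + 1) y * t.pr (k + 1) y') := by
  rw [mul_assoc, ← mul_assoc (t.pr (k + 1) y), t.pr_comm (k + 1) k y x', mul_assoc, mul_assoc]

private theorem PP_idem (t : Tw F H) (k : ℕ) (x y : Box) :
    t.pr k x * t.pr (k + 1) y * (t.pr k x * t.pr (k + 1) y) = t.pr k x * t.pr (k + 1) y := by
  rw [t.PP_mul, t.pr_idem, t.pr_idem]

private theorem PP_orth (t : Tw F H) (k : ℕ) {x x' : Box} (h : x ≠ x') (y y' : Box) :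
    t.pr k x * t.pr (k + 1) y * (t.pr k x' * t.pr (k + 1) y') = 0 := by
  rw [t.PP_mul, t.pr_orth h, zero_mul]

private theorem T_P (t : Tw F H) {k : ℕ} (hk : k + 1 < t.n) {x y : Box} (h : x ≠ y) :
    t.T k * (t.pr k x * t.pr (k + 1) y) = (t.pr k x * t.pr (k + 1) y + t.pr k y * t.pr (k + 1) x) *
      t.T k * (t.pr k x * t.pr (k + 1) y) := by
  have h1 : ∑ p ∈ bx t.n ×ˢ bx t.n, t.pr k p.1 * t.pr (k + 1) p.2 = 1 := by
    rw [Finset.sum_product' (f := fun a b => t.pr k a * t.pr (k + 1) b), ← Finset.sum_mul_sum,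
      t.sum_pr (by omega), t.sum_pr hk, one_mul]
  have h0 : ∀ a b : Box, (a, b) ∉ bx t.n ×ˢ bx t.n → t.pr k a * t.pr (k + 1) b = 0 := fun a b e => by
    rw [Finset.mem_product, not_and_or] at e
    rcases e with e | e
    · rw [show t.pr k a = 0 from t.ok.pr_zero e, zero_mul]
    · rw [show t.pr (k + 1) b = 0 from t.ok.pr_zero e, mul_zero]
  conv_lhs => rw [← one_mul (t.T k), ← h1, Finset.sum_mul, Finset.sum_mul]
  rw [add_mul, add_mul]
  refine Finset.sum_eq_add (x, y) (y, x) (fun e => h (Prod.ext_iff.1 e).1) (fun c _ hc => ?_)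
    (fun e => by rw [h0 _ _ e, zero_mul, zero_mul]) fun e => by rw [h0 _ _ e, zero_mul, zero_mul]
  exact t.ok.off k x y c.1 c.2 (fun e => hc.1 (Prod.ext e.1 e.2)) fun e => hc.2 (Prod.ext e.1 e.2)

private theorem PP_T (t : Tw F H) {k : ℕ} (hk : k + 1 < t.n) {x y : Box} (h : x ≠ y) :
    Commute (t.pr k x * t.pr (k + 1) y + t.pr k y * t.pr (k + 1) x) (t.T k) := by
  obtain ⟨Z, hZ⟩ : ∃ Z, Z = t.pr k x * t.pr (k + 1) y + t.pr k y * t.pr (k + 1) x := ⟨_, rfl⟩
  have e1 : t.T k * Z = Z * t.T k * Z := by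
    conv_lhs => rw [hZ, mul_add, t.T_P hk h, t.T_P hk h.symm, add_comm (t.pr k y * _), ← mul_add]
    rw [hZ]
  have e2 : t.fl Z = Z := by
    have f : ∀ j z, t.fl (t.pr j z) = t.pr j z := t.flo.pr
    rw [hZ, map_add, t.fl_mul, t.fl_mul, f, f, f, f, t.pr_comm (k + 1), t.pr_comm (k + 1)]
  have e3 := congrArg t.fl e1
  rw [t.fl_mul, t.fl_mul, t.fl_mul, e2, t.fl_T, ← mul_assoc, ← e1] at e3
  rw [← hZ]
  exact e3

private theorem PP_sq (t : Tw F H) (k : ℕ) {x y : Box} (h : x ≠ y) :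
    (t.pr k x * t.pr (k + 1) y + t.pr k y * t.pr (k + 1) x) *
      (t.pr k x * t.pr (k + 1) y + t.pr k y * t.pr (k + 1) x) =
      t.pr k x * t.pr (k + 1) y + t.pr k y * t.pr (k + 1) x := by
  rw [mul_add, add_mul, add_mul, t.PP_idem, t.PP_idem, t.PP_orth k h, t.PP_orth k h.symm, add_zero,
    zero_add]

theorem ep_idem (t : Tw F H) {l : List Box} (hn : 2 * l.length ≤ t.n) : t.ep l * t.ep l = t.ep l := by
  induction l with
  | nil => exact one_mul _
  | cons x l ih =>
    rw [List.length_cons] at hn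
    have hk : 2 * l.length + 1 < t.n := by omega
    have hm := t.ep_mem l
    have c1 := ((t.Hk_P hm x (br x)).add_right (t.Hk_P hm (br x) x)).mul_right (t.Hk_fk hk hm)
    have c2 := t.comm_fk (t.PP_T hk (br_ne x))
    rw [Tw.ep, c1.symm.mul_mul_mul_comm, ih (by omega), c2.symm.mul_mul_mul_comm,
      t.PP_sq _ (br_ne x), t.fk_idem hk]

private theorem P_fk (t : Tw F H) (k : ℕ) {x y : Box} (h : x ≠ y) :
    t.pr k x * t.pr (k + 1) y * t.fk k * (t.pr k x * t.pr (k + 1) y) =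
      (((t.q : F) + (t.q⁻¹ : Fˣ))⁻¹ * (t.dat.al x y + (t.q⁻¹ : Fˣ))) •
        (t.pr k x * t.pr (k + 1) y) := by
  have e : t.pr k x * t.pr (k + 1) y * t.T k * (t.pr k x * t.pr (k + 1) y) =
      t.dat.al x y • (t.pr k x * t.pr (k + 1) y) := t.ok.diag k x y h
  rw [Tw.fk, mul_smul_comm, smul_mul_assoc, mul_add, add_mul, e, mul_smul_comm, mul_one,
    smul_mul_assoc, t.PP_idem, ← add_smul, smul_smul]

private theorem two_by_two {P P' f : H} {a d : F} (h1 : P * P = P) (h2 : P' * P' = P')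
    (h3 : P * P' = 0) (h4 : P' * P = 0) (hc : (P + P') * f = f * (P + P')) (hf : f * f = f)
    (ha : P * f * P = a • P) (hd : P' * f * P' = d • P') (had : a + d = 1) :
    f * P * f = a • ((P + P') * f) := by
  have z : (P + P') * (P + P') = P + P' := by
    rw [mul_add, add_mul, add_mul, h1, h2, h3, h4, add_zero, zero_add]
  have zP : (P + P') * P = P := by rw [add_mul, h1, h4, add_zero]
  have Pz : P * (P + P') = P := by rw [mul_add, h1, h3, add_zero]
  have e1 : f * P * f = (P + P') * (f * P * f) * (P + P') := by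
    calc _ = f * ((P + P') * P * (P + P')) * f := by rw [zP, Pz]
      _ = f * (P + P') * P * ((P + P') * f) := by simp only [mul_assoc]
      _ = (P + P') * f * P * (f * (P + P')) := by rw [hc]
      _ = _ := by simp only [mul_assoc]
  have e2 : (P + P') * f = (P + P') * f * (P + P') := by
    rw [mul_assoc, ← hc, ← mul_assoc, z]
  have e3 : P' * (f * P * f) * P' = (a * d) • P' := by
    have e4 : P' * (f * (P + P') * f) * P' = d • P' := by
      rw [← hc, mul_assoc _ f f, hf, ← mul_assoc, mul_add, h4, h2, zero_add, hd]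
    have e5 : P' * (f * P' * f) * P' = (d * d) • P' := by
      rw [← mul_assoc, ← mul_assoc, hd, smul_mul_assoc, smul_mul_assoc, hd, smul_smul]
    rw [mul_add, add_mul, mul_add, add_mul, e5] at e4
    rw [eq_sub_of_add_eq e4, ← sub_smul]
    congr 1
    linear_combination (-d) * had
  have e6 : ∀ b, P * (f * P * f) * b = a • (P * f * b) := fun b => by
    rw [← mul_assoc, ← mul_assoc, ha, smul_mul_assoc, smul_mul_assoc]
  have e7 : P' * (f * P * f) * P = a • (P' * f * P) := by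
    calc _ = P' * f * (P * f * P) := by simp only [mul_assoc]
      _ = _ := by rw [ha, mul_smul_comm]
  rw [e1, e2, add_mul, add_mul, e6, mul_add (P' * _), e7, e3, add_mul, add_mul, mul_add (P' * f),
    hd, smul_add, smul_add, smul_smul]

private theorem br_dg (t : Tw F H) (x : Box) :
    ((t.q : F) + (t.q⁻¹ : Fˣ))⁻¹ * (t.dat.al x (br x) + (t.q⁻¹ : Fˣ)) ≠ 0 := by
  have h := t.ok.al_far x (br x) (br_ne x) fun e => by
    have := (nb_iff.1 e).1
    simp [br] at this
  exact mul_ne_zero (inv_ne_zero t.q_add) (right_ne_zero_of_mul h)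

private theorem fk_P_fk (t : Tw F H) {k : ℕ} (hk : k + 1 < t.n) {x y : Box} (h : x ≠ y) :
    t.fk k * (t.pr k x * t.pr (k + 1) y) * t.fk k =
      (((t.q : F) + (t.q⁻¹ : Fˣ))⁻¹ * (t.dat.al x y + (t.q⁻¹ : Fˣ))) •
        ((t.pr k x * t.pr (k + 1) y + t.pr k y * t.pr (k + 1) x) * t.fk k) := by
  refine two_by_two (t.PP_idem k x y) (t.PP_idem k y x) (t.PP_orth k h _ _) (t.PP_orth k h.symm _ _)
    (t.comm_fk (t.PP_T hk h)).eq (t.fk_idem hk) (t.P_fk k h) (t.P_fk k h.symm) ?_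
  have e : t.dat.al x y + t.dat.al y x = (t.q : F) - (t.q⁻¹ : Fˣ) := t.ok.al_add x y h
  rw [← mul_add, inv_mul_eq_one₀ t.q_add]
  linear_combination -e

private theorem E_dbl (t : Tw F H) (l : List Box) (x : Box) : t.E (dbl (x :: l)) =
    t.pr (2 * l.length) x * t.pr (2 * l.length + 1) (br x) * t.E (dbl l) := by
  rw [dbl, E, Dat.E, Dat.E, List.length_cons, dbl_length, ← mul_assoc, t.ok.comm]
  rfl

private theorem ep_fac (t : Tw F H) {l : List Box} (hn : 2 * l.length ≤ t.n) :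
    ∃ A B : H, B ∈ t.Hk (2 * l.length) ∧ t.ep l = A * t.E (dbl l) * B := by
  induction l with
  | nil => exact ⟨1, 1, one_mem _, by rw [mul_one, one_mul]; rfl⟩
  | cons x l ih =>
    rw [List.length_cons] at hn
    have hk : 2 * l.length + 1 < t.n := by omega
    obtain ⟨A, B, hB, e⟩ := ih (by omega)
    have hE : t.E (dbl l) ∈ t.Hk (2 * l.length) := t.ok.E_mem (dbl_length l).le
    have c1 := t.Hk_fk hk (mul_mem hE hB)
    have c2 := t.Hk_P (mul_mem hE hB) x (br x)
    refine ⟨(((t.q : F) + (t.q⁻¹ : Fˣ))⁻¹ * (t.dat.al x (br x) + (t.q⁻¹ : Fˣ)))⁻¹ •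
      (A * t.fk (2 * l.length)), B * t.fk (2 * l.length), ?_, ?_⟩
    · rw [List.length_cons]
      exact mul_mem (t.Hk_mono (by omega) hB) (t.fk_mem (by omega))
    · rw [smul_mul_assoc, smul_mul_assoc, eq_inv_smul_iff₀ (t.br_dg x), Tw.ep, ← mul_smul_comm,
        ← t.fk_P_fk hk (br_ne x), e, t.E_dbl]
      have c3 := (c1.mul_right c2).eq
      calc _ = A * (t.E (dbl l) * B * (t.fk (2 * l.length) * (t.pr (2 * l.length) x *
            t.pr (2 * l.length + 1) (br x)))) * t.fk (2 * l.length) := by simp only [mul_assoc]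
        _ = _ := by rw [c3]; simp only [mul_assoc]

private theorem ep_diag (t : Tw F H) {l : List Box} (hn : 2 * l.length ≤ t.n) :
    ∃ c : F, c ≠ 0 ∧ t.E (dbl l) * t.ep l * t.E (dbl l) = c • t.E (dbl l) := by
  induction l with
  | nil => exact ⟨1, one_ne_zero, by rw [one_smul, Tw.ep, mul_one]; exact t.ok.E_idem _⟩
  | cons x l ih =>
    rw [List.length_cons] at hn
    have hk : 2 * l.length + 1 < t.n := by omega
    obtain ⟨c, hc, e⟩ := ih (by omega)
    have hE : t.E (dbl l) ∈ t.Hk (2 * l.length) := t.ok.E_mem (dbl_length l).le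
    have hm := t.ep_mem l
    refine ⟨c * _, mul_ne_zero hc (t.br_dg x), ?_⟩
    rw [t.E_dbl, Tw.ep]
    have c1 := (t.Hk_P (mul_mem hE hm) x (br x)).eq
    have c2 := ((((t.Hk_P hE x (br x)).mul_right ((t.Hk_P hE x (br x)).add_right
      (t.Hk_P hE (br x) x))).mul_right (t.Hk_fk hk hE)).mul_right (t.Hk_P hE x (br x))).eq
    have c3 := (t.Hk_P hE x (br x)).eq
    have e1 := t.P_fk (2 * l.length) (br_ne x)
    have e2 := t.PP_idem (2 * l.length) x (br x)
    have e3 := t.PP_orth (2 * l.length) (br_ne x) (br x) x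
    generalize t.pr (2 * l.length) x * t.pr (2 * l.length + 1) (br x) = P at *
    generalize t.pr (2 * l.length) (br x) * t.pr (2 * l.length + 1) x = P' at *
    calc _ = P * (t.E (dbl l) * t.ep l) * ((P + P') * t.fk (2 * l.length) * P * t.E (dbl l)) := by
          simp only [mul_assoc]
      _ = t.E (dbl l) * t.ep l * (P * (P + P') * t.fk (2 * l.length) * P * t.E (dbl l)) := by
          rw [← c1]; simp only [mul_assoc]
      _ = t.E (dbl l) * t.ep l * t.E (dbl l) * (P * (P + P') * t.fk (2 * l.length) * P) := by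
          rw [← c2]; simp only [mul_assoc]
      _ = _ := by
          rw [e, mul_add, e2, e3, add_zero, e1, smul_mul_assoc, mul_smul_comm, smul_smul, c3]

/-- With `P = pr k x * pr (k + 1) (br x)`, `P'` its swap and `f = fk k`: `f * P * f = c • (P + P') * f`,
`c ≠ 0` the diagonal entry of `f`. So `ep l = c⁻¹ • G * E (dbl l) * G`, `G` the product of the `fk`,
and `E (dbl l) * G * ep l = ` a nonzero multiple of `E (dbl l) * G`. Use `Ok.s2`. -/
theorem ep_rank (t : Tw F H) {l : List Box} (hl : Std t.lv (dbl l)) (hn : 2 * l.length = t.n) :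
    t.ep l ≠ 0 ∧ ∀ a, ∃ c : F, t.ep l * a * t.ep l = c • t.ep l := by
  have hd : (dbl l).length = t.n := (dbl_length l).trans hn
  refine ⟨fun e0 => ?_, fun a => ?_⟩
  · obtain ⟨c, hc, e⟩ := t.ep_diag hn.le
    rw [e0, mul_zero, zero_mul] at e
    exact smul_ne_zero hc (t.E_ne hl hd.le) e.symm
  · obtain ⟨A, B, -, e⟩ := t.ep_fac hn.le
    obtain ⟨c, hc⟩ := (t.ok.s2 le_rfl (t.w3_top (B * a * A)) hd hd).2 rfl
    refine ⟨c, ?_⟩
    rw [e]
    calc _ = A * (t.E (dbl l) * (B * a * A) * t.E (dbl l)) * B := by simp only [mul_assoc]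
      _ = _ := by rw [hc, mul_smul_comm, smul_mul_assoc]

private theorem pj_two (t : Tw F H) (k : ℕ) (x : Box) :
    t.pj k (fun z => rs 0 z = rs 0 x) = t.pr k x + t.pr k (br x) := by
  rw [pj, Finset.sum_filter]
  have e : rs 0 (br x) = rs 0 x := by rw [rs_zero, rs_zero]; rfl
  refine (Finset.sum_eq_add x (br x) (br_ne x) (fun c _ hc => if_neg fun e => ?_)
    (fun e => by rw [show t.pr k x = 0 from t.ok.pr_zero e, ite_self])
    (fun e => by rw [show t.pr k (br x) = 0 from t.ok.pr_zero e, ite_self])).trans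
    (by rw [if_pos rfl, if_pos e])
  rcases rs_eq_iff.1 e.symm with e | e
  · exact hc.1 e
  · exact hc.2 (e.trans (par_zero x))

private theorem pj_top (t : Tw F H) {k : ℕ} (hk : k < t.n) : t.pj k (fun _ => True) = 1 := by
  rw [pj, Finset.filter_true, t.sum_pr hk]

private theorem eU_two (t : Tw F H) {k : ℕ} (hk : k + 1 < t.n) (u : List Box) (x : Box) :
    t.eU k (fun s => Cl (rs 0) s u) * t.eU (k + 2) (fun s => Cl (rs 0) s (br x :: x :: u)) =
      t.eU k (fun s => Cl (rs 0) s u) *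
        (t.pr k x * t.pr (k + 1) (br x) + t.pr k (br x) * t.pr (k + 1) x) := by
  have e : rs 0 (br x) = rs 0 x := by rw [rs_zero, rs_zero]; rfl
  have key : ∀ A : Box → Prop, t.pj (k + 1) A * (t.pj k A * t.eU k fun s => Cl (rs 0) s u) =
      t.eU (k + 2) fun s => ∃ y l, s = y :: l ∧ A y ∧ ∃ z l', l = z :: l' ∧ A z ∧ Cl (rs 0) l' u :=
    fun A => by rw [t.pj_eU (by omega), t.pj_eU hk]
  have k1 := key fun _ => True
  rw [t.pj_top hk, t.pj_top (by omega), one_mul, one_mul] at k1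
  have k2 := key fun z => rs 0 z = rs 0 x
  have s1 : t.pr k x * t.pr (k + 1) x = 0 := t.ok.same k x
  have s2 : t.pr k (br x) * t.pr (k + 1) (br x) = 0 := t.ok.same k (br x)
  rw [t.pj_two, t.pj_two, ← mul_assoc, add_mul, mul_add, mul_add, t.pr_comm (k + 1),
    t.pr_comm (k + 1), t.pr_comm (k + 1), t.pr_comm (k + 1), s1, s2, zero_add, add_zero,
    add_comm] at k2
  have hm : t.eU k (fun s => Cl (rs 0) s u) ∈ t.Hk k := t.eU_mem le_rfl _
  rw [((t.Hk_P hm x (br x)).add_right (t.Hk_P hm (br x) x)).eq, k2]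
  conv_lhs => rw [k1, t.eU_mul]
  refine t.eU_congr fun s _ => ⟨?_, ?_⟩
  · rintro ⟨⟨y, _, rfl, -, z, l, rfl, -, h1⟩, h2⟩
    obtain ⟨h3, h4⟩ := h2.two h1 e
    exact ⟨y, _, rfl, h4, z, l, rfl, h3, h1⟩
  · rintro ⟨y, _, rfl, h4, z, l, rfl, h3, h1⟩
    exact ⟨⟨y, _, rfl, trivial, z, l, rfl, trivial, h1⟩,
      (Cl.cons_iff (h4.trans e.symm)).2 ((Cl.cons_iff h3).2 h1)⟩

private theorem ep_step (t : Tw F H) {l : List Box} {x : Box} (hn : 2 * l.length + 2 ≤ t.n)
    (h : t.ep l * t.eU (2 * l.length) (fun s => Cl (rs 0) s (dbl l)) = t.ep l) :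
    t.ep (x :: l) = t.ep l * (t.eU (2 * l.length + 2) (fun s => Cl (rs 0) s (dbl (x :: l))) *
      t.fk (2 * l.length)) := by
  rw [Tw.ep, dbl, ← mul_assoc, ← mul_assoc, ← h, mul_assoc (t.ep l) (t.eU _ _),
    mul_assoc (t.ep l) (t.eU _ _), t.eU_two (by omega)]

private theorem ep_eU (t : Tw F H) {l : List Box} (hn : 2 * l.length ≤ t.n) :
    t.ep l * t.eU (2 * l.length) (fun s => Cl (rs 0) s (dbl l)) = t.ep l := by
  induction l with
  | nil =>
    rw [t.eU_congr (V := fun _ => True) fun s hs => ?_, t.eU_top hn, mul_one]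
    obtain rfl : s = [] := List.length_eq_zero_iff.1 (mem_tabs.1 hs).1
    exact iff_true_intro (Cl.refl _ _)
  | cons x l ih =>
    rw [List.length_cons, mul_add, mul_one] at hn ⊢
    have c := t.eU_cent hn (U := fun s => Cl (rs 0) s (dbl (x :: l)))
      (fun s u h1 h2 => (Cl.of_perm _ h1.symm).trans h2) (t.fk_mem (k := 2 * l.length) (by omega))
    rw [t.ep_step hn (ih (by omega)), mul_assoc, mul_assoc, ← c, ← mul_assoc (t.eU _ _), t.eU_mul]
    simp only [and_self]

/-- `Cl.two`, `Ok.E_same` -/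
theorem ep_cons (t : Tw F H) {l : List Box} {x : Box} (hn : 2 * l.length + 2 ≤ t.n) :
    t.ep (x :: l) = t.ep l * (t.eU (2 * l.length + 2) (fun s => Cl (rs 0) s (dbl (x :: l))) *
      t.fk (2 * l.length)) := t.ep_step hn (t.ep_eU (by omega))

theorem Th.ep_kap (h : Th t θ) {l : List Box} (hl : Std t.lv (dbl l)) (hn : 2 * l.length = t.n)
    {κ : H} {μ : F} (hμ : μ ≠ 0) (hκ : ∀ a, κ * a = θ a * κ)
    (h2 : κ * κ = μ • t.eU t.n fun u => u.Perm (dbl l)) :
    ∃ ν : F, ν ≠ 0 ∧ t.ep l * κ = ν • t.ep l := by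
  have hd : (dbl l).length = t.n := (dbl_length l).trans hn
  obtain ⟨ν, hν⟩ := (t.ep_rank hl hn).2 κ
  rw [mul_assoc, hκ, h.ep, ← mul_assoc, t.ep_idem hn.le] at hν
  refine ⟨ν, fun e0 => ?_, hν⟩
  obtain ⟨c, hc, e⟩ := t.ep_diag hn.le
  rw [e0, zero_smul] at hν
  have e1 : t.E (dbl l) * t.ep l * (κ * κ * t.E (dbl l)) = 0 := by
    calc _ = t.E (dbl l) * (t.ep l * κ) * (κ * t.E (dbl l)) := by simp only [mul_assoc]
      _ = 0 := by rw [hν, mul_zero, zero_mul]
  rw [h2, smul_mul_assoc, t.eU_E _ hd, if_pos (List.Perm.refl _), mul_smul_comm, e] at e1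
  exact smul_ne_zero hμ (smul_ne_zero hc (t.E_ne hl hd.le)) e1

end Tw

end

end Pool.Agent.P.MP_1a0ecf_al.K
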