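import Pool.Agent.P.MP_1a0ecf_al.K.D3
import Pool.Agent.P.MP_1a0ecf_al.K.D5
import Pool.Agent.P.MP_1a0ecf_al.K.Kap

/-! Package D6: the two very even cells are different. -/

namespace Pool.Agent.P.MP_1a0ecf_al.K

open Sn
open scoped Classical

set_option linter.unusedSectionVars false

noncomputable section

variable {X : F.Cox} {Γ : Type} [AddCommGroup Γ] [LinearOrder Γ] [IsOrderedAddMonoid Γ]
  {σ : X.W ≃* X.W} {a : Γ} {B : KB X Γ fun _ => a}

private theorem d6_alg {R : Type} [Ring R] {p ε c d f : R} (εp : ε * p = ε)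
    (cc : c * c = c) (dd : d * d = d) (cd : c * d = 0) (dc : d * c = 0) (ff : f * f = f)
    (h1 : Commute p c) (h2 : Commute p d) (h3 : Commute p f) (h4 : Commute ε c) (h5 : Commute ε d)
    (h6 : Commute ε f) (h7 : Commute c f) (h8 : Commute d f) :
    (c + d) * (c + d) = c + d ∧ (c + d) * f * ((c + d) * f) = (c + d) * f ∧
      ε * (d * f) * (p * ((c + d) * f)) = ε * (d * f) ∧
      p * ((c + d) * f) - ε * (d * f) = (c + d) * f * (p - ε) + ε * f * c ∧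
      c * (ε * (d * f)) = 0 := by
  have e1 : (c + d) * (c + d) = c + d := by rw [add_mul, mul_add, mul_add, cc, cd, dc, dd]; abel
  have h9 : Commute (c + d) f := h7.add_left h8
  refine ⟨e1, ?_, ?_, ?_, ?_⟩
  · rw [mul_assoc, ← mul_assoc f, ← h9.eq, mul_assoc, ff, ← mul_assoc, e1]
  · have e2 : d * f * ((c + d) * f) = d * f := by
      rw [mul_assoc, ← mul_assoc f, ← h9.eq, mul_assoc, ff, ← mul_assoc, mul_add, dc, dd, zero_add]
    rw [mul_assoc, ← mul_assoc (d * f), ← (h2.mul_right h3).eq, mul_assoc, e2, ← mul_assoc, εp]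
  · rw [mul_sub, ← ((h1.add_right h2).mul_right h3).eq, ← ((h4.add_right h5).mul_right h6).eq,
      mul_assoc ε, ← h7.eq, add_mul c d f, mul_add ε]
    abel
  · rw [← mul_assoc, ← h4.eq, mul_assoc, ← mul_assoc c, cd, zero_mul, mul_zero]

private theorem d6_mul {Y : Set X.W} (h : B.LLow Y) {v : B.E.H} (hv : v ∈ B.spK Y) (g : B.E.H) :
    g * v ∈ B.spK Y := by
  refine Submodule.span_induction (p := fun v _ => g * v ∈ B.spK Y) ?_ (by simp)
    (fun a b _ _ i1 i2 => by rw [mul_add]; exact add_mem i1 i2)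
    (fun c a _ i1 => by rw [mul_smul_comm]; exact Submodule.smul_mem _ c i1) hv
  rintro _ ⟨u, hu, rfl⟩
  exact h u hu g

namespace DJ

variable {Z : DJ X σ a B}

/-- Induction on `l` with `ep_cons`. For `x :: l`, `k = 2 * l.length`, `u = dbl (x :: l)` take the
preimages `c`, `c'`, `d`, `f` of `eU (k + 2)` for `om u < om · ∨ Cl · u`, `om u < om ·`, `Cl · u`
and of `fk k` (`crd_pre`, `crd_simple`); `p' = p * (c * f)`, `ε' = ε * (d * f)`,
`p' - ε' = c * f * (p - ε) + ε * f * c'`. -/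
theorem flag (Z : DJ X σ a B) {l : List Box} (hn : 2 * l.length ≤ X.n) :
    ∃ (p ε : B.E.H) (Y' : Set X.W), Z.J ε = Z.t.toTw.ep l ∧ Z.J p ∈ Z.t.toTw.Hk (2 * l.length) ∧
      p * p = p ∧ B.Crd (B.lid p) ∧ ε * p = ε ∧ B.LLow Y' ∧ p - ε ∈ B.spK Y' ∧
      ∀ h ∈ B.spK Y', h * ε = 0 := by
  induction l with
  | nil =>
    refine ⟨1, 1, ∅, by rw [map_one, Tw.ep], by rw [map_one]; exact one_mem _, one_mul 1,
      ⟨Set.univ, ?_⟩, one_mul 1, fun u hu => hu.elim, by rw [sub_self]; exact zero_mem _,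
      fun h hh => ?_⟩
    · ext h
      rw [B.mem_lid (one_mul 1), B.mem_spK]
      simp
    · rw [KB.spK, Set.image_empty, Submodule.span_empty, Submodule.mem_bot] at hh
      rw [hh, zero_mul]
  | cons x l ih =>
    rw [List.length_cons] at hn ⊢
    have hn' : 2 * l.length + 2 ≤ Z.t.n := by rw [Z.n_eq]; omega
    obtain ⟨p, ε, Y', hε, hp, pp, ⟨Y, hY⟩, εp, hl, hd, h0⟩ := ih (by omega)
    set k := 2 * l.length with hk
    set u := dbl (x :: l)
    have i1 : ∀ s s' : List Box, Cl (dd a 0) s s' → om a 0 u < om a 0 s → om a 0 u < om a 0 s' :=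
      fun s s' h hs => h.om ▸ hs
    have i2 : ∀ s s' : List Box, Cl (dd a 0) s s' → Cl (dd a 0) s u → Cl (dd a 0) s' u :=
      fun s s' h hs => h.symm.trans hs
    obtain ⟨c, hc⟩ := Z.exists_pre (k + 2) i1
    obtain ⟨d, hd'⟩ := Z.exists_pre (k + 2) i2
    have hcd : Z.J (c + d) =
        Z.t.toTw.eU (k + 2) fun s => om a 0 u < om a 0 s ∨ Cl (dd a 0) s u := by
      rw [map_add, hc, hd', Z.t.eU_ge]
    have hi : k + 1 < X.n := by omega
    set f : B.E.H := ((mK a : KK Γ) + ((mK a)⁻¹ : (KK Γ)ˣ))⁻¹ •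
      (B.E.Ts ⟨k + 1, hi⟩ + (((mK a)⁻¹ : (KK Γ)ˣ) : KK Γ) • 1) with hf0
    have hf : Z.J f = Z.t.toTw.fk k := by
      have e : X.s ⟨k + 1, hi⟩ = X.sN (k + 1) := by rw [F.Cox.sN, dif_pos hi]
      rw [hf0, map_smul, map_add, map_smul, map_one, F.HA.Ts, Z.J_T, e, Z.P.ιk, Tw.fk, Z.isB.T,
        Z.t.hq]
    have cj : ∀ {v w : B.E.H}, Z.J v * Z.J w = Z.J w * Z.J v → Commute v w := fun h =>
      Z.J_inj (by rw [map_mul, map_mul, h])
    have fm : Z.J f ∈ Z.t.toTw.Hk (k + 2) := by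
      rw [hf]
      exact Subalgebra.smul_mem _ (add_mem (Z.t.toTw.T_mem (by omega))
        (Subalgebra.smul_mem _ (one_mem _) _)) _
    have ce : ∀ {U : List Box → Prop} {v w : B.E.H},
        (∀ s s' : List Box, Cl (dd a 0) s s' → U s → U s') → Z.J w = Z.t.toTw.eU (k + 2) U →
        Z.J v ∈ Z.t.toTw.Hk (k + 2) → Commute v w := fun hU hw hv =>
      cj (by rw [hw, Z.t.toTw.eU_cent hn' (fun s s' h => hU s s' (Cl.of_perm _ h)) hv])
    have cf : ∀ {v : B.E.H}, Z.J v ∈ Z.t.toTw.Hk k → Commute v f := fun hv => cj (by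
      rw [hf, Tw.fk, mul_smul_comm, smul_mul_assoc, mul_add, add_mul, mul_smul_comm, smul_mul_assoc,
        mul_one, one_mul, Z.t.toTw.Hk_T le_rfl (by omega) hv])
    have hε' : Z.J ε ∈ Z.t.toTw.Hk k := hε ▸ Z.t.toTw.ep_mem l
    have mo := Z.t.toTw.Hk_mono (show k ≤ k + 2 by omega)
    have ne : ∀ s : List Box, om a 0 u < om a 0 s → ¬ Cl (dd a 0) s u := fun s h h' => h.ne' h'.om
    have cc : c * c = c := Z.J_inj (by rw [map_mul, hc, Tw.eU_mul]; simp only [and_self])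
    have dd' : d * d = d := Z.J_inj (by rw [map_mul, hd', Tw.eU_mul]; simp only [and_self])
    have cd : c * d = 0 := Z.J_inj (by
      rw [map_mul, hc, hd', Tw.eU_mul, map_zero, Z.t.toTw.eU_congr (V := fun _ => False)
        fun s _ => ⟨fun h => ne s h.1 h.2, False.elim⟩]
      simp [Tw.eU])
    have ff : f * f = f := Z.J_inj (by rw [map_mul, hf, Z.t.toTw.fk_idem (by omega)])
    have h1 := ce i1 hc (mo hp)
    have h2 := ce i2 hd' (mo hp)
    have h7 := (ce i1 hc fm).symm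
    have h8 := (ce i2 hd' fm).symm
    obtain ⟨e1, e2, e3, e4, e5⟩ := d6_alg εp cc dd' cd
      (by rw [(ce i1 hc (hd' ▸ Z.t.toTw.eU_mem le_rfl _)).eq, cd]) ff h1 h2 (cf hp)
      (ce i1 hc (mo hε')) (ce i2 hd' (mo hε')) (cf hε') h7 h8
    have h9 : Commute p ((c + d) * f) := (h1.add_right h2).mul_right (cf hp)
    obtain ⟨Y1, hY1⟩ := Z.crd_pre (k := k + 2) (by omega) (up_ge a 0 u)
      (fun s s' h hs => hs.imp (i1 s s' h) (i2 s s' h)) hcd
    obtain ⟨Y2, hY2⟩ := Z.crd_pre (k := k + 2) (by omega) (up_gt a 0 (om a 0 u)) i1 hc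
    obtain ⟨Y3, hY3⟩ : B.Crd (B.lid f) := B.crd_simple (i := ⟨k + 1, hi⟩) Z.t.ha
    have l2 := B.llow_of_lid hY2
    refine ⟨p * ((c + d) * f), ε * (d * f), Y' ∪ Y2, ?_, ?_, ?_, ⟨Y ∩ (Y1 ∩ Y3), ?_⟩, e3, ?_, ?_, ?_⟩
    · rw [map_mul, map_mul, hε, hd', hf, Z.t.toTw.ep_cons hn', Z.t.toTw.eU_congr fun s _ =>
        Cl.congr fun x y => dd_eq_rs (k := 0) Z.t.ha (by rw [zero_smul, add_zero])]
    · rw [map_mul, map_mul, show 2 * (l.length + 1) = k + 2 by omega]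
      exact mul_mem (mo hp) (mul_mem (hcd ▸ Z.t.toTw.eU_mem le_rfl _) fm)
    · rw [mul_assoc, ← mul_assoc ((c + d) * f), ← h9.eq, mul_assoc, e2, ← mul_assoc, pp]
    · rw [B.lid_mul pp e2 h9.eq, B.lid_mul e1 ff (h7.add_left h8).eq, hY, hY1, hY3, B.spK_inter,
        B.spK_inter]
    · intro w hw g
      rw [B.spK_union]
      exact hw.elim (fun hw => Submodule.mem_sup_left (hl w hw g))
        fun hw => Submodule.mem_sup_right (l2 w hw g)
    · rw [e4, B.spK_union]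
      exact add_mem (Submodule.mem_sup_left (d6_mul hl hd _))
        (Submodule.mem_sup_right (hY2 ▸ ⟨ε * f, rfl⟩))
    · intro h hh
      rw [B.spK_union] at hh
      obtain ⟨v, hv, w, hw, rfl⟩ := Submodule.mem_sup.1 hh
      rw [← hY2] at hw
      obtain ⟨g, rfl⟩ := hw
      rw [add_mul, ← mul_assoc, h0 v hv, zero_mul, zero_add, LinearMap.mulRight_apply, mul_assoc,
        e5, mul_zero]

/-- `exists_dbl`, `Th.kap` (`κ = J κ₀`, `κ₀` central, `S κ₀ = -κ₀`), `Th.ep_kap`, `flag`: some `x` has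
`Eig κ₀ x ν`, `ν ≠ 0`; the diagonal coefficient `ν` of `κ₀` shows `Cls x s`. If `z ∼ σ z` then
`x ∼ σ x` and `share`, `eig_S` give `ν = -ν`. -/
theorem Cls.not_sim {z : X.W} {s : List Box} (h : Z.Cls z s) (hv : VE a X.n s) :
    ¬ B.toKL.Sim z (σ z) := by
  intro hs
  obtain ⟨hst, e, he, -⟩ := id h
  have hlv : Z.t.lv = true := Z.isB.lv
  obtain ⟨hl, hstd⟩ := mem_tabs.1 hst
  obtain ⟨l, hl1, hl2⟩ := exists_dbl hstd (hv s hst (Cl.refl _ _))
  have h2n : 2 * l.length = Z.t.n := by rw [← dbl_length, hl2.length_eq, hl, Z.n_eq]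
  have hl1' : Std Z.t.lv (dbl l) := by rw [hlv]; exact hl1
  obtain ⟨κ, μ, hμ, hκ, hθ, h2, h3⟩ :=
    Z.th.kap (mem_tabs.2 ⟨(dbl_length l).trans h2n, hl1'⟩) (dbl_br l)
  obtain ⟨ν, hν, hεκ⟩ := Z.th.ep_kap hl1' h2n hμ hκ h2
  obtain ⟨κ, rfl⟩ := Z.exists_J hθ
  obtain ⟨p, ε, Y', hε, -, pp, ⟨Y, hY⟩, εp, hl', hd, h0⟩ :=
    Z.flag (l := l) (h2n.trans Z.n_eq).le
  have cen : ∀ g, κ * g = g * κ := fun g => Z.J_inj (by rw [map_mul, map_mul, hκ, Z.θ_J])
  have hS : Z.S κ = -κ := Z.J_inj (by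
    rw [Z.J_S, map_neg, mul_assoc, hκ, Z.th.X0, neg_mul, mul_neg, ← mul_assoc, Z.X0_sq, one_mul])
  have εκ : ε * κ = ν • ε := Z.J_inj (by rw [map_mul, map_smul, hε, hεκ])
  obtain ⟨x, hx, hx'⟩ : ∃ x ∈ Y, x ∉ Y' := by
    by_contra hc
    push Not at hc
    have e1 : ε ∈ B.spK Y' :=
      Submodule.span_mono (Set.image_mono hc) (show ε ∈ B.spK Y from hY ▸ (B.mem_lid pp).2 εp)
    have e2 := congrArg Z.J (h0 ε e1)
    rw [map_mul, hε, Z.t.toTw.ep_idem h2n.le, map_zero] at e2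
    exact (Z.t.toTw.ep_rank hl1' h2n).1 e2
  have key : ∀ u ∈ Y, κ * B.CK u - ν • B.CK u ∈ B.spK Y' := fun u hu => by
    have e1 : B.CK u * p = B.CK u := (B.mem_lid pp).1 (hY ▸ B.CK_mem_spK.2 hu)
    have e2 : κ * B.CK u - ν • B.CK u = (κ * B.CK u - ν • B.CK u) * (p - ε) := by
      rw [mul_sub, sub_mul, sub_mul, mul_assoc, smul_mul_assoc, e1, cen (B.CK u), mul_assoc, cen ε,
        εκ, mul_smul_comm, smul_mul_assoc, sub_self, sub_zero]
    rw [e2]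
    exact d6_mul hl' hd _
  have hE : B.Eig κ x ν := ⟨Y, Y', B.llow_of_lid hY, hl', hx, hx', key⟩
  have κe : κ * e = κ := Z.J_inj (by
    rw [map_mul, he, ← h3, mul_assoc, KT.cls, Tw.eU_mul, Z.t.toTw.eU_congr
      (V := fun u => u.Perm (dbl l)) fun u _ => ⟨fun h => h.1, fun h => ⟨h, Cl.of_perm _ (h.trans hl2)⟩⟩])
  have hxs : Z.Cls x s := ⟨hst, e, he, (Z.blk_or he x).resolve_right fun hz => by
    have e1 : B.lmK (B.toKL.cell x) κ = 0 := by
      rw [← κe, B.lmK_mul (B.toKL.cvx_cell x), hz, mul_zero]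
    have hm : x ∈ B.toKL.cell x := B.toKL.mem_cell.2 ⟨B.toKL.le_refl x, B.toKL.le_refl x⟩
    have e2 : B.CK.repr (κ * B.CK x) x = 0 := congrFun (congrFun e1 ⟨x, hm⟩) ⟨x, hm⟩
    have e3 : B.CK.repr (κ * B.CK x - ν • B.CK x) x = 0 := by
      by_contra hc
      exact hx' (B.mem_spK.1 (key x hx) x hc)
    rw [map_sub, Finsupp.sub_apply, e2, map_smul, B.CK.repr_self] at e3
    exact hν (by simpa using e3)⟩
  have s1 : B.toKL.Sim x z := (hxs.sim_or h).elim id fun e => ⟨e.1.trans hs.2, hs.1.trans e.2⟩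
  have s2 : B.toKL.Sim x (σ x) :=
    ⟨s1.1.trans (hs.1.trans (Z.le_sw.2 s1.2)), ((Z.le_sw.2 s1.1).trans hs.2).trans s1.2⟩
  obtain ⟨Y1, Y2, a1, a2, a3, a4, a5⟩ := Z.eig_S hE
  have hE' : B.Eig κ (σ x) (-ν) := ⟨Y1, Y2, a1, a2, a3, a4, fun u hu => by
    have := neg_mem (a5 u hu)
    rwa [hS, neg_mul, neg_sub', neg_neg, ← neg_smul] at this⟩
  have := B.share (pos_of_eq (bonds_D Z.P.hX) Z.t.ha B.toKL) s2 hE hE'
  exact hν (by linear_combination this / 2)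

end DJ

end

end Pool.Agent.P.MP_1a0ecf_al.K
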