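import Pool.Agent.P.MP_1a0ecf_al.K.D4
import Pool.Agent.P.MP_1a0ecf_al.K.D6

/-! Package D7: families in type D. -/

namespace Pool.Agent.P.MP_1a0ecf_al.K

open Sn
open scoped Classical

set_option linter.unusedSectionVars false

noncomputable section

namespace D7

variable {X : F.Cox} {σ : X.W ≃* X.W}

theorem irr_comp (σ : X.W ≃* X.W) {χ : X.W → ℂ} (h : IsIrr χ) : IsIrr (χ ∘ σ) := by
  refine (h.isCh.comp σ.toMonoidHom).vc.isIrr ?_ ?_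
  · have e := h.ip_eq h
    rw [if_pos rfl] at e
    rw [← e, ip, ip]
    congr 1
    exact Fintype.sum_equiv σ.toEquiv _ _ fun w => by simp
  · obtain ⟨m, h1, h2⟩ := h.one
    simp only [Function.comp, map_one, h2]
    exact_mod_cast h1

theorem fam_sim {a : ℝ} {D : F.KL X ℝ fun _ => a} {y z : X.W} (h : D.Sim y z) {χ : X.W → ℂ}
    (hy : D.Fam y χ) : D.Fam z χ := by
  rwa [F.KL.Fam, ← D.cell_eq h]

theorem sim_trans {a : ℝ} {D : F.KL X ℝ fun _ => a} {x y z : X.W} (h : D.Sim x y)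
    (h' : D.Sim y z) : D.Sim x z := ⟨h.1.trans h'.1, h'.2.trans h.2⟩

theorem same_iff {a : ℝ} {B : KB X ℝ fun _ => a} (Z : DJ X σ a B) {z z' : X.W} {χ χ' : X.W → ℂ}
    (hχ : IsIrr χ) (hχ' : IsIrr χ') (h : B.toKL.Fam z χ) (h' : B.toKL.Fam z' χ') :
    F.Cox.SameP (X.uD a) X.n χ χ' ↔ B.toKL.Sim z' z ∨ B.toKL.Sim z' (σ z) := by
  obtain ⟨s, hs⟩ := Z.exists_cls z
  obtain ⟨s', hs'⟩ := Z.exists_cls z'
  rw [sameP_iff hχ hχ' (hs.chx hχ h) (hs'.chx hχ' h')]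
  exact ⟨fun c => hs'.sim_or (hs.congr hs'.1 c), fun c =>
    c.elim (fun c => (hs.sim c).unique hs') fun c => (hs.sw.sim c).unique hs'⟩

end D7

open D7 in
/-- Take `z`, `z'` with `Fam z χ`, `Fam z' χ'` and classes `s`, `s'`; `SameP ↔ Cl s s'` (`sameP_iff`,
`Cls.chx`), and `Cl s s' ↔ z' ∼ z ∨ z' ∼ σ z`. If `z ∼ σ z` there is a stable character (`stab_or`,
`not_sim`). If not, no character of the family is stable (`fam_sw`, `fam_unique`), so `VE` holds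
and the families of `z`, `σ z` are `{χ}`, `{χ ∘ σ}` (`Cls.single`). -/
theorem klD (X : F.Cox) : X.KLD := by
  intro hX h4 σ hσ a ha D χ χ' hχ hχ'
  obtain ⟨B, rfl⟩ := exists_KB D fun _ _ _ => rfl
  obtain ⟨Z⟩ := exists_DJ hX (by omega) hσ ha B
  obtain ⟨z, hz⟩ := B.toKL.exists_fam hχ
  obtain ⟨z', hz'⟩ := B.toKL.exists_fam hχ'
  obtain ⟨s, hs⟩ := Z.exists_cls z
  have rel : B.toKL.Rel χ χ' ↔ B.toKL.Sim z' z :=
    ⟨fun ⟨y, h1, h2⟩ => sim_trans (B.toKL.fam_unique hχ' hz' h2) (B.toKL.fam_unique hχ h1 hz),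
      fun h => ⟨z, hz, fam_sim h hz'⟩⟩
  have st : ∀ χ₀, IsIrr χ₀ → χ₀ ∘ σ = χ₀ → B.toKL.Fam z χ₀ → B.toKL.Sim z (σ z) :=
    fun χ₀ h1 h2 h3 => B.toKL.fam_unique h1 h3 ((Z.fam_sw z χ₀).2 (h2.symm ▸ h3))
  rw [rel, same_iff Z hχ hχ' hz hz']
  by_cases hc : B.toKL.Sim z (σ z)
  · obtain ⟨χ₀, h1, h2, h3⟩ := hs.stab_or.resolve_right fun hv => hs.not_sim hv hc
    have hS : F.Cox.Stab σ a χ :=
      ⟨χ₀, h1, h2, (same_iff Z hχ h1 hz h3).2 (Or.inl ⟨B.toKL.le_refl z, B.toKL.le_refl z⟩)⟩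
    exact ⟨⟨fun h => ⟨Or.inl h, Or.inr hS⟩, fun h => h.1.elim id fun h => sim_trans h hc.symm⟩,
      Or.inl hS⟩
  · have hv : VE a X.n s := hs.stab_or.resolve_left fun ⟨χ₀, h1, h2, h3⟩ => hc (st χ₀ h1 h2 h3)
    have e1 : B.toKL.Sim z' z → χ = χ' := fun h => hs.single hv hc hχ hχ' hz (fam_sim h hz')
    refine ⟨⟨fun h => ⟨Or.inl h, Or.inl (e1 h)⟩, ?_⟩, Or.inr fun h => h.imp (fun h => (e1 h).symm)
      fun h => ?_⟩
    · rintro ⟨-, rfl | ⟨χ₀, h1, h2, h3⟩⟩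
      · exact B.toKL.fam_unique hχ hz' hz
      · obtain ⟨y, hy⟩ := B.toKL.exists_fam h1
        refine (hc (st χ₀ h1 h2 ?_)).elim
        rcases (same_iff Z hχ h1 hz hy).1 h3 with h | h
        · exact fam_sim h hy
        · exact h2 ▸ (Z.fam_sw z χ₀).1 (fam_sim h hy)
    · rw [hs.single hv hc hχ (irr_comp σ hχ') hz ((Z.fam_sw z χ').1 (fam_sim h hz'))]
      exact funext fun w => congrArg χ' (sw_sw hσ w).symm

end

end Pool.Agent.P.MP_1a0ecf_al.K
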