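import Pool.Agent.P.MP_1a0ecf_al.K.I1
import Pool.Agent.P.MP_1a0ecf_al.F.I1

/-! Package I2: Lusztig families of dihedral groups. -/

namespace Pool.Agent.P.MP_1a0ecf_al.F

open scoped Classical

noncomputable section

open I0

theorem KL.i2_trace {X : Cox} {Γ : Type} [AddCommGroup Γ] [LinearOrder Γ] [IsOrderedAddMonoid Γ]
    {L : Fin X.n → Γ} (D : KL X Γ L) {i : Fin X.n} (hL : L i = 0) (z : X.W) {c : ℂ} (hc : c ≠ 0) :
    ∃ χ, IsIrr χ ∧ D.Fam z χ ∧ χ (X.s i) ≠ c * χ 1 := by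
  by_contra hn
  push Not at hn
  obtain ⟨l, hl, e⟩ := (D.isCh_ch (D.cvx_cell z)).exists_list
  have a : ∀ l' : List (X.W → ℂ), (∀ χ ∈ l', χ (X.s i) = c * χ 1) →
      l'.sum (X.s i) = c * l'.sum 1 := fun l' h => by
    induction l' with
    | nil => simp
    | cons ψ l' ih =>
      rw [List.sum_cons, Pi.add_apply, Pi.add_apply, h ψ List.mem_cons_self,
        ih fun χ k => h χ (List.mem_cons_of_mem _ k), mul_add]
  have b := a l fun χ k => hn χ (hl χ k) (by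
    rw [KL.Fam, e]
    exact (T0.ip_mem hl (hl χ k)).2 k)
  have e1 : D.ch (D.cell z) 1 = (D.cell z).card := by simp [KL.ch, D.T_one]
  have e2 : D.ch (D.cell z) (X.s i) = 0 := Finset.sum_eq_zero fun y _ => by
    have k := len_s y i
    rw [D.i0_C0 hL, D.C.repr_self, Finsupp.single_eq_of_ne fun d => by rw [← d] at k; omega,
      map_zero]
  rw [← e, e1, e2, eq_comm, mul_eq_zero_iff_left hc, Nat.cast_eq_zero, Finset.card_eq_zero] at b
  exact Finset.notMem_empty z (b ▸ D.mem_cell.2 (D.i0_sim_refl z))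

/-- what is used about the characters -/
structure DihCh (X : Cox) (i j : Fin X.n) : Prop where
  cases : ∀ χ : X.W → ℂ, IsIrr χ → (χ 1 = 1 ∧ (χ (X.s i) = 1 ∨ χ (X.s i) = -1) ∧
    (χ (X.s j) = 1 ∨ χ (X.s j) = -1)) ∨ (χ (X.s i) = 0 ∧ χ (X.s j) = 0)
  uniq : ∀ χ χ' : X.W → ℂ, IsIrr χ → IsIrr χ' → χ 1 = 1 → χ' 1 = 1 → χ (X.s i) = χ' (X.s i) →
    χ (X.s j) = χ' (X.s j) → χ = χ'

theorem DihCh.symm {X : Cox} {i j : Fin X.n} (G : DihCh X i j) : DihCh X j i :=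
  ⟨fun χ h => (G.cases χ h).imp (fun a => ⟨a.1, a.2.2, a.2.1⟩) And.symm,
    fun χ χ' h h' a b c d => G.uniq χ χ' h h' a b d c⟩

theorem DihCh.pos {X : Cox} {i j : Fin X.n} (G : DihCh X i j) {χ : X.W → ℂ} (h : IsIrr χ)
    (e : χ (X.s j) = χ 1) : χ 1 = 1 :=
  ((G.cases χ h).resolve_right fun a => h.one_ne (e ▸ a.2)).1

theorem DihCh.neg {X : Cox} {i j : Fin X.n} (G : DihCh X i j) {χ : X.W → ℂ} (h : IsIrr χ)
    (e : χ (X.s j) = -χ 1) : χ 1 = 1 :=
  ((G.cases χ h).resolve_right fun a => h.one_ne (neg_eq_zero.1 (e ▸ a.2))).1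

namespace Dih

variable {X : Cox} {i j : Fin X.n} {w : X.W} (H : Dih X i j w) (G : DihCh X i j)
  {L : Fin X.n → ℝ} (D : KL X ℝ L)

include H

theorem cell_one (hi : 0 < L i) (hj : 0 < L j) {y : X.W} (h : D.Sim y 1) : y = 1 :=
  by_contra fun c => H.lower4 D hi hj h.2 c rfl

theorem val_one (hi : 0 < L i) (hj : 0 < L j) {χ : X.W → ℂ} (h : IsIrr χ) (e : D.Fam 1 χ) :
    χ (X.s i) = -χ 1 := D.i0_val_asc h e hi fun y hy => by
  rw [H.cell_one D hi hj hy, mul_one, len_one, len_simple]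
  exact one_pos

theorem val_top (hi : 0 < L i) (hj : 0 < L j) {χ : X.W → ℂ} (h : IsIrr χ) (e : D.Fam w χ) :
    χ (X.s i) = χ 1 := D.i0_val_desc h e hi fun y hy => by
  have := H.desc i
  rw [H.lower1 D hi hj hy.1]
  omega

theorem ne_top : (1 : X.W) ≠ w ∧ X.s i ≠ w ∧ (1 : X.W) ≠ X.s i * w ∧ X.s i ≠ X.s i * w ∧
    X.s i ≠ 1 ∧ X.s i * w ≠ w := by
  have a := H.desc i
  have b := H.three
  have c := len_simple i
  have d := len_one (X := X)
  refine ⟨?_, ?_, ?_, ?_, ?_, ?_⟩ <;> intro e <;> have := congrArg X.len e <;> omega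

include G

omit H in
theorem sim_of {z z₀ : X.W} {χ χ₀ : X.W → ℂ} (h : IsIrr χ) (h₀ : IsIrr χ₀) (e : D.Fam z χ)
    (e₀ : D.Fam z₀ χ₀) (a : χ 1 = 1) (a₀ : χ₀ 1 = 1) (b : χ (X.s i) = χ₀ (X.s i))
    (c : χ (X.s j) = χ₀ (X.s j)) : D.Sim z z₀ :=
  D.fam_unique h e (G.uniq χ χ₀ h h₀ a a₀ b c ▸ e₀)

theorem rel_eq (hi : 0 < L i) (hij : L i = L j) {χ χ' : X.W → ℂ} (hχ : IsIrr χ) (hχ' : IsIrr χ') :
    D.Rel χ χ' ↔ L i * χ (X.s i) + L j * χ (X.s j) = L i * χ' (X.s i) + L j * χ' (X.s j) := by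
  have hj : 0 < L j := hij ▸ hi
  have n := H.ne_top.1
  have v1 : ∀ χ, IsIrr χ → D.Fam 1 χ → χ 1 = 1 ∧ χ (X.s i) = -1 ∧ χ (X.s j) = -1 :=
    fun χ h e => by
      have a := H.val_one D hi hj h e
      have b := H.symm.val_one D hj hi h e
      rw [G.neg h b] at a b
      exact ⟨G.neg h (H.symm.val_one D hj hi h e), a, b⟩
  have v2 : ∀ χ, IsIrr χ → D.Fam w χ → χ 1 = 1 ∧ χ (X.s i) = 1 ∧ χ (X.s j) = 1 :=
    fun χ h e => by
      have a := H.val_top D hi hj h e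
      have b := H.symm.val_top D hj hi h e
      rw [G.pos h b] at a b
      exact ⟨G.pos h (H.symm.val_top D hj hi h e), a, b⟩
  refine D.i0_rel_iff (fun χ => L i * χ (X.s i) + L j * χ (X.s j))
    (fun z => ((if z = 1 then -(2 * L i) else if z = w then 2 * L i else 0 : ℝ) : ℂ))
    (fun z χ h e => ?_) (fun z z' e => ?_) hχ hχ'
  · rw [← hij]
    split_ifs with c1 c2
    · obtain ⟨-, a, b⟩ := v1 χ h (c1 ▸ e)
      rw [a, b]
      push_cast
      ring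
    · obtain ⟨-, a, b⟩ := v2 χ h (c2 ▸ e)
      rw [a, b]
      push_cast
      ring
    obtain ⟨χ₁, h₁, e₁⟩ := D.exists_irr 1
    obtain ⟨χ₂, h₂, e₂⟩ := D.exists_irr w
    obtain ⟨a₁, b₁, d₁⟩ := v1 χ₁ h₁ e₁
    obtain ⟨a₂, b₂, d₂⟩ := v2 χ₂ h₂ e₂
    rcases G.cases χ h with ⟨a, b | b, d | d⟩ | ⟨b, d⟩
    · exact absurd (H.lower1 D hi hj (sim_of G D h h₂ e e₂ a a₂ (b.trans b₂.symm)
        (d.trans d₂.symm)).1) c2
    · simp [b, d]
    · simp [b, d]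
    · exact absurd (H.cell_one D hi hj (sim_of G D h h₁ e e₁ a a₁ (b.trans b₁.symm)
        (d.trans d₁.symm))) c1
    · simp [b, d]
  · rw [Complex.ofReal_inj] at e
    split_ifs at e with c1 c2 c3 c4 c5 c6 c7 c8
    any_goals (exfalso; linarith)
    · rw [c1, c2]
      exact D.i0_sim_refl _
    · rw [c4, c6]
      exact D.i0_sim_refl _
    · exact (H.sim_eq D hi.le hij c1 c4).i0_trans (H.sim_eq D hi.le hij c7 c8).i0_symm

theorem rel_ne (hi : 0 ≤ L i) (hij : L i < L j) (hc : X.s i * w = w * X.s i) {χ χ' : X.W → ℂ}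
    (hχ : IsIrr χ) (hχ' : IsIrr χ') :
    D.Rel χ χ' ↔ L i * χ (X.s i) + L j * χ (X.s j) = L i * χ' (X.s i) + L j * χ' (X.s j) := by
  have hj := hi.trans_lt hij
  obtain ⟨n1, n2, n3, n4, n5, n6⟩ := H.ne_top
  have k1 : ∀ {y z}, D.Sim y z → z = 1 ∨ z = X.s i → y = 1 ∨ y = X.s i := fun h hz => by
    by_contra c
    have := H.lower3 D hi hij h.2 (not_or.1 c)
    tauto
  have u1 : ∀ z χ, IsIrr χ → D.Fam z χ → z = 1 ∨ z = X.s i → χ 1 = 1 ∧ χ (X.s j) = -1 :=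
    fun z χ h e hz => by
      have a := D.i0_val_asc h e hj fun y hy => by
        rcases k1 hy hz with rfl | rfl
        · rw [mul_one, len_one, len_simple]
          exact one_pos
        · rw [H.len_two, len_simple]
          exact one_lt_two
      exact ⟨G.neg h a, by rw [a, G.neg h a]⟩
  have u2 : ∀ z χ, IsIrr χ → D.Fam z χ → z = w ∨ z = X.s i * w → χ 1 = 1 ∧ χ (X.s j) = 1 :=
    fun z χ h e hz => by
      have a := D.i0_val_desc h e hj fun y hy => by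
        rcases H.lower2 D hi hij hc hy.1 hz with rfl | rfl
        · have := H.desc j
          omega
        · exact H.desc_sw
      exact ⟨G.pos h a, by rw [a, G.pos h a]⟩
  have v2 : 0 < L i → ∀ χ, IsIrr χ → D.Fam (X.s i) χ → χ (X.s i) = χ 1 := fun hi' χ h e =>
    D.i0_val_desc h e hi' fun y hy => by
      rcases k1 hy (Or.inr rfl) with rfl | rfl
      · exact absurd (H.cell_one D hi' hj hy.i0_symm) n5
      · rw [s_eq_one.2 rfl, len_one, len_simple]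
        exact one_pos
  have v3 : 0 < L i → ∀ χ, IsIrr χ → D.Fam (X.s i * w) χ → χ (X.s i) = -χ 1 := fun hi' χ h e =>
    D.i0_val_asc h e hi' fun y hy => by
      rcases H.lower2 D hi hij hc hy.1 (Or.inr rfl) with rfl | rfl
      · exact absurd (H.lower1 D hi' hj hy.2) n6
      · have := H.desc i
        rw [ss]
        omega
  have x0 : L i = 0 → ∀ z (η : ℂ), η = 1 ∨ η = -1 → (∀ χ, IsIrr χ → D.Fam z χ → χ 1 = 1 ∧
      χ (X.s j) ≠ 0) → ∃ χ, IsIrr χ ∧ D.Fam z χ ∧ χ (X.s i) = η := fun hi' z η hη hz => by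
    obtain ⟨χ, h, e, a⟩ := D.i2_trace hi' z (c := -η) (by rcases hη with rfl | rfl <;> simp)
    obtain ⟨b, c⟩ := hz χ h e
    refine ⟨χ, h, e, ?_⟩
    rw [b, mul_one] at a
    rcases G.cases χ h with ⟨-, d | d, -⟩ | d
    · rcases hη with rfl | rfl
      · exact d
      · exact absurd (by rw [d, neg_neg]) a
    · rcases hη with rfl | rfl
      · exact absurd d a
      · exact d
    · exact absurd d.2 c
  have x1 : ∀ η : ℂ, η = 1 ∨ η = -1 → ∃ z χ, (z = 1 ∨ z = X.s i) ∧ IsIrr χ ∧ D.Fam z χ ∧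
      χ (X.s i) = η := fun η hη => by
    rcases hi.eq_or_lt with f | f
    · obtain ⟨χ, a⟩ := x0 f.symm 1 η hη fun χ h e => by
        obtain ⟨a, b⟩ := u1 1 χ h e (Or.inl rfl)
        exact ⟨a, by simp [b]⟩
      exact ⟨1, χ, Or.inl rfl, a⟩
    rcases hη with rfl | rfl
    · obtain ⟨χ, h, e⟩ := D.exists_irr (X.s i)
      exact ⟨_, χ, Or.inr rfl, h, e, by rw [v2 f χ h e, (u1 _ χ h e (Or.inr rfl)).1]⟩
    · obtain ⟨χ, h, e⟩ := D.exists_irr 1
      exact ⟨_, χ, Or.inl rfl, h, e, by rw [H.val_one D f hj h e, (u1 _ χ h e (Or.inl rfl)).1]⟩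
  have x2 : ∀ η : ℂ, η = 1 ∨ η = -1 → ∃ z χ, (z = w ∨ z = X.s i * w) ∧ IsIrr χ ∧ D.Fam z χ ∧
      χ (X.s i) = η := fun η hη => by
    rcases hi.eq_or_lt with f | f
    · obtain ⟨χ, a⟩ := x0 f.symm w η hη fun χ h e => by
        obtain ⟨a, b⟩ := u2 w χ h e (Or.inl rfl)
        exact ⟨a, by simp [b]⟩
      exact ⟨w, χ, Or.inl rfl, a⟩
    rcases hη with rfl | rfl
    · obtain ⟨χ, h, e⟩ := D.exists_irr w
      exact ⟨_, χ, Or.inl rfl, h, e, by rw [H.val_top D f hj h e, (u2 _ χ h e (Or.inl rfl)).1]⟩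
    · obtain ⟨χ, h, e⟩ := D.exists_irr (X.s i * w)
      exact ⟨_, χ, Or.inr rfl, h, e, by rw [v3 f χ h e, (u2 _ χ h e (Or.inr rfl)).1]⟩
  have y0 : ∀ c d : ℂ, (0 < L i → c = d) → L i * c = L i * d := fun c d h => by
    rcases hi.eq_or_lt with f | f
    · simp [← f]
    · rw [h f]
  refine D.i0_rel_iff (fun χ => L i * χ (X.s i) + L j * χ (X.s j))
    (fun z => ((if z = 1 then -L i - L j else if z = X.s i then L i - L j else
      if z = w then L i + L j else if z = X.s i * w then -L i + L j else 0 : ℝ) : ℂ))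
    (fun z χ h e => ?_) (fun z z' e => ?_) hχ hχ'
  · split_ifs with c1 c2 c3 c4
    · obtain ⟨a, b⟩ := u1 z χ h e (Or.inl c1)
      rw [y0 _ _ fun f => H.val_one D f hj h (c1 ▸ e), a, b]
      push_cast
      ring
    · obtain ⟨a, b⟩ := u1 z χ h e (Or.inr c2)
      rw [y0 _ _ fun f => v2 f χ h (c2 ▸ e), a, b]
      push_cast
      ring
    · obtain ⟨a, b⟩ := u2 z χ h e (Or.inl c3)
      rw [y0 _ _ fun f => H.val_top D f hj h (c3 ▸ e), a, b]
      push_cast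
      ring
    · obtain ⟨a, b⟩ := u2 z χ h e (Or.inr c4)
      rw [y0 _ _ fun f => v3 f χ h (c4 ▸ e), a, b]
      push_cast
      ring
    rcases G.cases χ h with ⟨a, b, d | d⟩ | ⟨b, d⟩
    · obtain ⟨z₀, χ₀, p, h₀, e₀, q⟩ := x2 _ b
      obtain ⟨r, r'⟩ := u2 z₀ χ₀ h₀ e₀ p
      have := H.lower2 D hi hij hc (sim_of G D h h₀ e e₀ a r q.symm (d.trans r'.symm)).1 p
      tauto
    · obtain ⟨z₀, χ₀, p, h₀, e₀, q⟩ := x1 _ b
      obtain ⟨r, r'⟩ := u1 z₀ χ₀ h₀ e₀ p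
      have := k1 (sim_of G D h h₀ e e₀ a r q.symm (d.trans r'.symm)) p
      tauto
    · simp [b, d]
  · rw [Complex.ofReal_inj] at e
    have s1 : L i = 0 → D.Sim (X.s i) 1 := fun f => by simpa using D.i0_sim0 f 1
    have s2 : L i = 0 → D.Sim (X.s i * w) w := fun f => D.i0_sim0 f w
    by_cases c : z = z'
    · rw [c]
      exact D.i0_sim_refl _
    split_ifs at e with c1 c2 c3 c4 c5 c6 c7 c8 c9 c10 c11 c12 c13 c14 c15 c16 c17 c18 c19 c20
      c21 c22 c23 c24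
    any_goals (exfalso; linarith)
    · exact absurd (c1.trans c2.symm) c
    · rw [c1, c3]
      exact (s1 (by linarith)).i0_symm
    · rw [c6, c7]
      exact s1 (by linarith)
    · exact absurd (c6.trans c8.symm) c
    · exact absurd (c11.trans c14.symm) c
    · rw [c11, c15]
      exact (s2 (by linarith)).i0_symm
    · rw [c16, c19]
      exact s2 (by linarith)
    · exact absurd (c16.trans c20.symm) c
    · exact (H.sim_ne D hi hij hc c1 c6 c11 c16).i0_trans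
        (H.sim_ne D hi hij hc c21 c22 c23 c24).i0_symm

theorem rel (hi : 0 ≤ L i) (hij : L i ≤ L j) (hc : IsConj (X.s i) (X.s j) → L i = L j)
    {χ χ' : X.W → ℂ} (hχ : IsIrr χ) (hχ' : IsIrr χ') :
    D.Rel χ χ' ↔ L i * χ (X.s i) + L j * χ (X.s j) = L i * χ' (X.s i) + L j * χ' (X.s j) := by
  rcases hij.eq_or_lt with e | e
  · rcases hi.eq_or_lt with f | f
    · refine iff_of_true (D.rel_of_zero (fun k => ?_) hχ hχ') (by simp [← e, ← f])
      rcases H.all k with rfl | rfl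
      · exact f.symm
      · exact e ▸ f.symm
    · exact H.rel_eq G D f e hχ hχ'
  · exact H.rel_ne G D hi e (H.comm fun c => e.ne (hc c)) hχ hχ'

end Dih

end

end Pool.Agent.P.MP_1a0ecf_al.F

namespace Pool.Agent.P.MP_1a0ecf_al.K

open F F.Cox

/-- Lusztig families in the dihedral types -/
theorem klI (X : F.Cox) : X.KLI := by
  intro m hm h hn L hL κ hκ D χ χ' hχ hχ'
  obtain ⟨i, hi⟩ : ∃ i : Fin X.n, (i : ℕ) = 0 := ⟨⟨0, by omega⟩, rfl⟩
  obtain ⟨j, hj⟩ : ∃ j : Fin X.n, (j : ℕ) = 1 := ⟨⟨1, by omega⟩, rfl⟩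
  have e0 : X.sN 0 = X.s i := by rw [← hi]; exact dif_pos i.2
  have e1 : X.sN 1 = X.s j := by rw [← hj]; exact dif_pos j.2
  obtain ⟨w, H⟩ := exists_dih (X := X) (i := i) (j := j) (fun e => by rw [e] at hi; omega)
    (fun k => by have := k.2; simp only [Fin.ext_iff]; omega) (by
      rw [h, hi, hj]
      simp only [pathM]
      simp
      omega)
  have a0 : X.rot ^ 0 * X.sN 0 = X.s i := by rw [pow_zero, one_mul, e0]
  have a1 : X.rot ^ 1 * X.sN 0 = X.s i * X.s j * (X.s i)⁻¹ := by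
    rw [pow_one, rot, e0, e1, X.cs.inv_simple]
  have b1 : ∀ {χ : X.W → ℂ} {η₀ η₁ : ℂ}, IsIrr χ → IsLin χ η₀ η₁ →
      χ 1 = 1 ∧ χ (X.s i) = η₀ ∧ χ (X.s j) = η₁ := fun {χ η₀ η₁} hχ e => by
    refine ⟨by simpa using (e.2.2 0).1, by simpa [e0] using (e.2.2 0).2, ?_⟩
    rw [← hχ.isCh.isCl _ (X.s i), ← a1, (e.2.2 1).2]
    rcases e.1 with rfl | rfl <;> simp
  have b2 : ∀ {χ : X.W → ℂ} {k : ℕ}, IsIrr χ → IsTwo χ m k →
      χ 1 = 2 ∧ χ (X.s i) = 0 ∧ χ (X.s j) = 0 := fun {χ k} hχ e =>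
    ⟨by simpa using (e 0).1, a0 ▸ (e 0).2, by rw [← hχ.isCh.isCl _ (X.s i), ← a1, (e 1).2]⟩
  have G : DihCh X i j := by
    refine ⟨fun χ hχ => ?_, fun χ χ' hχ hχ' c c' d d' => ?_⟩
    · rcases irr_cases h hn hχ with ⟨η₀, η₁, -, e⟩ | ⟨k, -, -, e⟩
      · obtain ⟨c1, c2, c3⟩ := b1 hχ e
        exact Or.inl ⟨c1, c2 ▸ e.1, c3 ▸ e.2.1⟩
      · exact Or.inr (b2 hχ e).2
    · rcases irr_cases h hn hχ with ⟨η₀, η₁, -, e⟩ | ⟨k, -, -, e⟩
      swap
      · exact absurd (c.symm.trans (b2 hχ e).1) (by norm_num)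
      rcases irr_cases h hn hχ' with ⟨η₀', η₁', -, e'⟩ | ⟨k, -, -, e'⟩
      swap
      · exact absurd (c'.symm.trans (b2 hχ' e').1) (by norm_num)
      obtain ⟨-, c2, c3⟩ := b1 hχ e
      obtain ⟨-, c4, c5⟩ := b1 hχ' e'
      rw [← c4, ← c5, ← d, ← d', c2, c3] at e'
      exact IsLin.unique h hn e e'
  have ho : ∀ {χ : X.W → ℂ}, IsIrr χ →
      X.om κ χ = (m / 4 : ℂ) * (L i * χ (X.s i) + L j * χ (X.s j)) := fun {χ} hχ => by
    rcases irr_cases h hn hχ with ⟨η₀, η₁, c, e⟩ | ⟨k, -, -, e⟩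
    · obtain ⟨-, c2, c3⟩ := b1 hχ e
      rw [IsLin.om h hn c e, e0, e1, hκ, hκ, c2, c3]
      ring
    · obtain ⟨-, c2, c3⟩ := b2 hχ e
      rw [IsTwo.om h hn e, c2, c3]
      ring
  have hc : IsConj (X.s i) (X.s j) → L i = L j := fun c => by
    obtain ⟨u, hu⟩ := isConj_iff.1 c
    have d := κ.cl _ u (X.cs.isReflection_simple i)
    rw [hu] at d
    change κ (X.s j) = κ (X.s i) at d
    rw [hκ, hκ, div_left_inj' two_ne_zero, Complex.ofReal_inj] at d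
    exact d.symm
  have m0 : (m / 4 : ℂ) ≠ 0 := div_ne_zero (Nat.cast_ne_zero.2 (by omega)) (by norm_num)
  rw [ho hχ, ho hχ', mul_right_inj' m0]
  rcases le_total (L i) (L j) with c | c
  · exact H.rel G D (hL i) c hc hχ hχ'
  · rw [add_comm, add_comm (L i * χ' _ : ℂ)]
    exact H.symm.rel G.symm D (hL j) c (fun d => (hc d.symm).symm) hχ hχ'

end Pool.Agent.P.MP_1a0ecf_al.K
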