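import Pool.Agent.P.MP_1a0ecf_al.K.AB
import Pool.Agent.P.MP_1a0ecf_al.K.B0
import Pool.Agent.P.MP_1a0ecf_al.K.D7
import Pool.Agent.P.MP_1a0ecf_al.K.I2
import Pool.Agent.P.MP_1a0ecf_al.F.Top
import Pool.Agent.P.MP_1a0ecf_al.F.T4f

/-! Assembly of the classical types. -/

namespace Pool.Agent.P.MP_1a0ecf_al.K

open scoped Classical

noncomputable section

theorem klB (X : F.Cox) : X.KLB := by
  intro h hn a b ha hb D χ χ' hχ hχ'
  rcases ha.eq_or_lt with ha | ha
  swap
  · exact klB_pos h ha b D hχ hχ'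
  rcases hb.eq_or_lt with hb | hb
  swap
  · exact klB0 h hn ha.symm hb D hχ hχ'
  subst ha hb
  refine iff_of_true (D.rel_of_zero (fun i => ite_self _) hχ hχ') fun j => ?_
  simp only [Complex.ofReal_zero, uB_zero, zero_smul, Finset.sum_const, map_nsmul]
  cases j with
  | zero =>
    rw [pow_zero, ← map_one (MonoidAlgebra.of ℂ X.W), chx_of, chx_of, smul_mul_assoc,
      smul_mul_assoc, mul_comm]
  | succ j => simp

theorem gm_of_F4 (hF : ∀ X : F.Cox, X.KLF) (n : ℕ) (M : CoxeterMatrix (Fin n)) :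
    S.GordonMartino M :=
  F.gm_all klA klB klD klI (F.goodF hF) n M

end

end Pool.Agent.P.MP_1a0ecf_al.K
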