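import Pool.Agent.P.MP_1a0ecf_al.F.Fr5
import Pool.Agent.P.MP_1a0ecf_al.F.Fr1

/-! Package B0a: signed permutations. -/

namespace Pool.Agent.P.MP_1a0ecf_al.K

open Matrix Finset F
open scoped Classical

noncomputable section

/-- a frame of type B -/
structure BF (X : F.Cox) where
  G : Fr X
  hs : G.sg = -1
  hN : G.N = X.n
  o : Fin X.n
  ho : (o : ℕ) = 0
  z : Fin G.N
  h0 : X.eb o = ((√2 : ℝ) : ℂ) • G.ε z
  hi : ∀ i, i ≠ o → ∃ ρ, G.Act (X.s i) ρ fun _ => 1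
  pos : ∀ j, ∃ β, 0 ≤ β ∧ X.vK ℂ β = ((√2 : ℝ) : ℂ) • G.ε j
  tk : ∀ k : Fin G.N, G.Act (X.tB k) 1 fun m => if m = k then -1 else 1

variable {X : F.Cox}

theorem exists_BF (h : X.Is (pathM 0 4)) (hn : 2 ≤ X.n) : Nonempty (BF X) := by
  have h0 : 0 < X.n := by omega
  obtain ⟨G, e, hs, hN, he, hk, hz⟩ := Fr5.exists_BD _ (Fr5.dot_B h) (Or.inr ⟨⟨0, h0⟩, rfl⟩)
  have ht : ∀ m < X.n, Fr5.Rt (X.tB m) (((√2 : ℝ) : ℂ) • e m) := by
    intro m hm
    induction m with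
    | zero =>
      rw [Cox.tB, Fr5.sN_mk hm, ← (hz ⟨0, hm⟩ rfl).2 rfl]
      exact Fr5.Rt.simple _
    | succ m ih =>
      have := (ih (by omega)).conj_s ⟨m + 1, hm⟩
      rwa [mulVec_smul, Fr5.s_act hN he hk hm (by omega), if_pos rfl, ← Fr5.sN_mk hm] at this
  have hp : ∀ m < X.n, ∃ β, 0 ≤ β ∧ X.vK ℂ β = ((√2 : ℝ) : ℂ) • e m := by
    intro m hm
    induction m with
    | zero =>
      exact ⟨X.al ⟨0, hm⟩, Pi.single_nonneg.2 zero_le_one,
        (X.vK_al ℂ _).trans ((hz ⟨0, hm⟩ rfl).2 rfl)⟩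
    | succ m ih =>
      obtain ⟨β, b1, b2⟩ := ih (by omega)
      refine ⟨β + √2 • X.al ⟨m + 1, hm⟩, add_nonneg b1
        (smul_nonneg (Real.sqrt_nonneg 2) (Pi.single_nonneg.2 zero_le_one)), ?_⟩
      rw [eq_add_of_sub_eq (hk ⟨m + 1, hm⟩ m rfl).symm, smul_add, ← b2, Cox.eb, ← X.vK_al ℂ]
      funext i
      simp [Cox.vK, add_comm]
  refine ⟨⟨G, hs, hN, ⟨0, h0⟩, rfl, ⟨0, by omega⟩, by rw [he]; exact (hz ⟨0, h0⟩ rfl).2 rfl,
    fun i hi => ?_, fun j => he j ▸ hp j (hN ▸ j.2),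
    fun k => Fr5.act_sign G hs (by rw [he]; exact ht k (hN ▸ k.2))⟩⟩
  obtain ⟨m, hm⟩ := Nat.exists_eq_succ_of_ne_zero fun c : (i : ℕ) = 0 => hi (Fin.ext c)
  have := i.2
  exact ⟨_, Fr5.act_swap G (i := ⟨m, by omega⟩) (j := ⟨m + 1, by omega⟩) (by simp)
    (by rw [he, he]; exact hk i m hm)⟩

namespace BF

variable (B : BF X)

/-- `w` sends the vector `k` to a negative vector -/
def Ng (w : X.W) (k : Fin B.G.N) : Prop := ∃ j, X.σK ℂ w *ᵥ B.G.ε k = -B.G.ε j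

/-- the number of sign changes -/
def r (w : X.W) : ℕ := #{k | B.Ng w k}

/-- the sign changes -/
abbrev t (k : Fin B.G.N) : X.W := X.tB k

variable {B} {w w' : X.W} {π : Equiv.Perm (Fin B.G.N)} {η : Fin B.G.N → ℂ}

theorem pm (h : B.G.Act w π η) (k : Fin B.G.N) : η k = 1 ∨ η k = -1 := B.hs ▸ h.1 k

theorem ext (h : B.G.Act w π η) (h' : B.G.Act w' π η) : w = w' := by
  have e : toLin' (X.σK ℂ w) = toLin' (X.σK ℂ w') :=
    LinearMap.ext_on_range (top_le_iff.1 B.G.span) fun i => by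
      rw [toLin'_apply, toLin'_apply, h.2, h'.2]
  refine X.σ_injective (Matrix.ext fun i j => ?_)
  exact Complex.ofReal_injective (congrFun (congrFun (toLin'.injective e) i) j)

theorem ng_iff (h : B.G.Act w π η) (k : Fin B.G.N) : B.Ng w k ↔ η k = -1 := by
  refine ⟨fun ⟨j, e⟩ => (pm h k).resolve_left fun c => ?_,
    fun c => ⟨π k, by rw [h.2, c, neg_one_smul]⟩⟩
  rw [h.2, c, one_smul] at e
  have e1 := congrArg (fun v => X.BK ℂ v (B.G.ε (π k))) e
  simp only [Fr1.B_neg, B.G.gram, Fr1.g0 B.G B.hs, if_true] at e1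
  split_ifs at e1 <;> norm_num at e1

theorem act_inv (h : B.G.Act w π η) : B.G.Act w⁻¹ π⁻¹ fun k => η (π⁻¹ k) := by
  refine ⟨fun _ => h.1 _, fun k => ?_⟩
  have e := congrArg (X.σK ℂ w⁻¹ *ᵥ ·) (h.2 (π⁻¹ k))
  have e1 : π (π⁻¹ k) = k := π.apply_symm_apply k
  simp only [← X.c1_mul, inv_mul_cancel, map_one, one_mulVec, mulVec_smul, e1] at e
  rw [e, smul_smul]
  rcases pm h (π⁻¹ k) with c | c <;> simp only [c] <;> simp

theorem ng_mul (h : B.G.Act w π fun _ => 1) (x : X.W) (k : Fin B.G.N) :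
    B.Ng (x * w) k ↔ B.Ng x (π k) := by
  simp only [Ng, X.c1_mul, h.2, one_smul]

theorem r_inv (w : X.W) : B.r w⁻¹ = B.r w := by
  obtain ⟨π, η, h⟩ := B.G.exists_act w
  refine card_equiv π⁻¹ fun k => ?_
  simp only [mem_filter, mem_univ, true_and, ng_iff h, ng_iff (act_inv h)]

theorem r_mul (h : B.G.Act w π fun _ => 1) (x : X.W) : B.r (x * w) = B.r x :=
  card_equiv π fun k => by simp only [mem_filter, mem_univ, true_and, ng_mul h]

theorem ng_t (x : X.W) (k m : Fin B.G.N) :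
    B.Ng (x * B.t k) m ↔ if m = k then ¬ B.Ng x m else B.Ng x m := by
  obtain ⟨π, η, h⟩ := B.G.exists_act x
  rw [ng_iff (Fr1.act_mul h (B.tk k)), ng_iff h]
  split_ifs
  · rcases pm h m with c | c <;> simp [c] <;> norm_num
  · simp

theorem r_t {x : X.W} {k : Fin B.G.N} (h : ¬ B.Ng x k) : B.r (x * B.t k) = B.r x + 1 := by
  rw [r, r, ← card_insert_of_notMem (a := k) (by simpa using h)]
  congr 1
  ext m
  simp only [mem_filter, mem_univ, true_and, mem_insert, ng_t]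
  by_cases c : m = k <;> simp [c, h]

theorem t_inv (k : Fin B.G.N) : (B.t k)⁻¹ = B.t k :=
  ext (act_inv (B.tk k)) (by simpa using B.tk k)

theorem t_conj (h : B.G.Act w π fun _ => 1) (k : Fin B.G.N) : w * B.t k * w⁻¹ = B.t (π k) := by
  have e := Fr1.act_mul (Fr1.act_mul h (B.tk k)) (act_inv h)
  refine ext ?_ (B.tk (π k))
  simpa [Equiv.symm_apply_eq] using e

theorem s_o : X.s B.o = B.t B.z :=
  ext (Fr5.act_sign B.G B.hs (B.h0 ▸ Fr5.Rt.simple B.o)) (B.tk B.z)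

theorem asc_o (w : X.W) : X.len w < X.len (w * X.s B.o) ↔ ¬ B.Ng w B.z := by
  obtain ⟨π, η, h⟩ := B.G.exists_act w
  obtain ⟨β, b1, b2⟩ := B.pos (π B.z)
  have e : X.vK ℂ (X.σ w *ᵥ X.al B.o) = η B.z • X.vK ℂ β := by
    rw [← X.σK_vK ℂ, X.vK_al ℂ, b2, smul_comm, ← h.2, ← mulVec_smul, ← B.h0]
  rw [X.asc_iff, ng_iff h]
  rcases pm h B.z with c | c
  · have e1 : X.σ w *ᵥ X.al B.o = β := funext fun i => by simpa [c, Cox.vK] using congrFun e i
    rw [e1, c]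
    exact iff_of_true b1 (by norm_num)
  · have e1 : X.σ w *ᵥ X.al B.o = -β := funext fun i => by
      have := congrFun e i
      simp only [c, Cox.vK, Pi.smul_apply, smul_eq_mul, neg_one_mul] at this
      exact_mod_cast this
    refine iff_of_false (fun c' => X.root_ne_zero w B.o ?_) (not_not.2 c)
    exact le_antisymm (e1 ▸ neg_nonpos.2 b1) c'

/-- elements without sign changes are products of the generators other than `o` -/
theorem ind_one {p : X.W → Prop} (h1 : p 1) (hm : ∀ w i, i ≠ B.o → p w → p (w * X.s i))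
    (h : B.G.Act w π fun _ => 1) : p w := by
  induction hl : X.len w using Nat.strong_induction_on generalizing w π with
  | _ n ih =>
    by_cases c : w = 1
    · exact c ▸ h1
    obtain ⟨i, hi⟩ := X.cs.exists_rightDescent_of_ne_one c
    have hi' : X.len (w * X.s i) < X.len w := hi
    have io : i ≠ B.o := by
      rintro rfl
      exact absurd ((asc_o w).2 (by rw [ng_iff h]; norm_num)) (not_lt.2 hi'.le)
    obtain ⟨ρ, hρ⟩ := B.hi i io
    have e := hm _ i io (ih _ (hl ▸ hi') (by simpa using Fr1.act_mul h hρ) rfl)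
    rwa [X.cs.simple_mul_simple_cancel_right] at e

theorem exists_eq {x y : X.W} (h : B.r x = B.r y) : ∃ u u' π π', B.G.Act u π (fun _ => 1) ∧
    B.G.Act u' π' (fun _ => 1) ∧ y = u * x * u' := by
  obtain ⟨π, η, hx⟩ := B.G.exists_act x
  obtain ⟨π', η', hy⟩ := B.G.exists_act y
  obtain ⟨ρ, hρ⟩ := Equiv.Perm.exists_map_finset_eq _ _ h.symm
  have e : ∀ k, η' k = η (ρ k) := fun k => by
    have e1 : B.Ng y k ↔ B.Ng x (ρ k) := by
      have := mem_map' (s := {k | B.Ng y k}) (a := k) ρ.toEmbedding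
      rw [hρ] at this
      simpa using this.symm
    rw [ng_iff hx, ng_iff hy] at e1
    rcases pm hx (ρ k) with c | c
    · rw [c] at e1 ⊢
      exact (pm hy k).resolve_right fun c' => absurd (e1.1 c') (by norm_num)
    · rw [c, e1.2 c]
  obtain ⟨u, hu⟩ := B.G.exists_perm (π' * ρ⁻¹ * π⁻¹)
  obtain ⟨u', hu'⟩ := B.G.exists_perm ρ
  refine ⟨u, u', _, _, hu, hu', ext hy ?_⟩
  simpa [← e] using Fr1.act_mul (Fr1.act_mul hu hx) hu'

end BF

end

end Pool.Agent.P.MP_1a0ecf_al.K
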