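import Pool.Agent.P.MP_1a0ecf_al.K.Inst
import Pool.Agent.P.MP_1a0ecf_al.F.G6

/-! Package D1: the Coxeter group of type D inside type B. -/

namespace Pool.Agent.P.MP_1a0ecf_al.K

open Sn Matrix
open scoped Classical

set_option linter.unusedSectionVars false

noncomputable section

variable {X Y : F.Cox}

theorem d1_cover {G W : Type} [Group G] [Group W] {n : ℕ} {M : CoxeterMatrix (Fin n)}
    (cs : CoxeterSystem M G) (ι : W →* G) {t : G} (ht : t * t = 1) (h : ∀ i, cs.simple i = t ∨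
      (∃ w, cs.simple i = ι w) ∧ ∃ w, t * cs.simple i * t = ι w) (y : G) :
    ∃ w, y = ι w ∨ y = ι w * t := by
  induction y using cs.simple_induction_right with
  | one => exact ⟨1, Or.inl (map_one ι).symm⟩
  | mul_simple_right y i ih =>
    obtain ⟨w, rfl | rfl⟩ := ih <;> rcases h i with e | ⟨⟨u, e⟩, u', e'⟩
    · exact ⟨w, Or.inr (by rw [e])⟩
    · exact ⟨w * u, Or.inl (by rw [e, map_mul])⟩
    · exact ⟨w, Or.inl (by rw [e, mul_assoc, ht, mul_one])⟩
    · exact ⟨w * u', Or.inr (by rw [map_mul, ← e']; simp only [mul_assoc, ht, mul_one])⟩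

theorem d1_comm {G : Type} [Group G] {n : ℕ} {M : CoxeterMatrix (Fin n)} (cs : CoxeterSystem M G)
    {i j : Fin n} (h : M i j = 2) : cs.simple i * cs.simple j = cs.simple j * cs.simple i := by
  have e := cs.simple_mul_simple_pow i j
  rw [h, sq, ← eq_inv_iff_mul_eq_one, _root_.mul_inv_rev, cs.inv_simple, cs.inv_simple] at e
  exact e

theorem d1_s (i : Fin X.n) : X.s i = X.sN i := by simp [F.Cox.sN]

theorem d1_sN {k : ℕ} (h : k < X.n) : X.sN k = X.s ⟨k, h⟩ := dif_pos h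

theorem d1_sq (k : ℕ) : X.sN k * X.sN k = 1 := by
  unfold F.Cox.sN
  split_ifs
  · exact X.cs.simple_mul_simple_self _
  · exact mul_one _

theorem d1_commB (h : Y.Is (F.pathM 0 4)) {i j : ℕ} (hij : i + 2 ≤ j) :
    Y.sN i * Y.sN j = Y.sN j * Y.sN i := by
  by_cases hj : j < Y.n
  · rw [d1_sN hj, d1_sN (by omega : i < Y.n)]
    refine d1_comm _ ((h _ _).trans ?_)
    simp only [F.pathM]
    rw [if_neg (by omega), if_neg (by omega)]
  · simp [F.Cox.sN, hj]

theorem d1_ind {p : X.W → Prop} (h1 : p 1) (hm : ∀ x y, p x → p y → p (x * y)) (h0 : p (X.sN 0))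
    (h1' : p (X.sN 1)) (h2 : ∀ k, p (X.sN (k + 2))) (w : X.W) : p w := by
  refine X.cs.simple_induction w (fun i => ?_) h1 hm
  rw [show X.cs.simple i = X.sN i from d1_s i]
  rcases (i : ℕ) with _ | _ | k
  exacts [h0, h1', h2 k]

/-- `Y.W` is the group presented by the matrix of type B. `ι` is a lift; every element is `ι w` or
`ι w * t` (closed under right multiplication by the generators), so the group is finite. -/
theorem exists_DB (hX : X.Is F.dM) (h2 : 2 ≤ X.n) : ∃ Y, Nonempty (DB X Y) := by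
  let M : CoxeterMatrix (Fin X.n) := ⟨fun i j => F.pathM 0 4 i j,
    Matrix.IsSymm.ext fun i j => by simp only [F.pathM, eq_comm, or_comm, min_comm],
    fun i => by simp [F.pathM], fun i j hij => by
      simp only [F.pathM, if_neg (Fin.val_ne_of_ne hij)]
      split_ifs <;> omega⟩
  have hM : ∀ i j, M i j = F.pathM 0 4 i j := fun _ _ => rfl
  let cs := M.toCoxeterSystem
  let o : Fin X.n := ⟨0, by omega⟩
  let p : Fin X.n := ⟨1, by omega⟩
  let f : Fin X.n → M.Group := fun i =>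
    if i = o then cs.simple o * cs.simple p * cs.simple o else cs.simple i
  have tt := cs.simple_mul_simple_self o
  have c2 : ∀ j : Fin X.n, 2 ≤ (j : ℕ) → cs.simple o * cs.simple j * cs.simple o = cs.simple j :=
    fun j hj => by
    rw [d1_comm cs (i := o) (j := j) (by
      simp only [hM, F.pathM, o]; rw [if_neg (by omega), if_neg (by omega)]), mul_assoc, tt, mul_one]
  have ff : ∀ i, f i * f i = 1 := fun i => by
    simp only [f]
    split_ifs <;> simp [mul_assoc]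
  have h0 : ∀ j, j ≠ o → (f o * f j) ^ X.M o j = 1 := fun j hj => by
    simp only [f, if_true, if_neg hj]
    by_cases c : j = p
    · have e := cs.simple_mul_simple_pow o p
      rw [show M o p = 2 * 2 from rfl, pow_mul] at e
      rw [c, hX, show F.dM o p = 2 from rfl, ← e, sq (cs.simple o * _), mul_assoc (_ * _)]
    · have hj2 : 2 ≤ (j : ℕ) := by
        have : (j : ℕ) ≠ 0 := fun c => hj (Fin.ext c)
        have : (j : ℕ) ≠ 1 := fun c' => c (Fin.ext c')
        omega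
      have e := cs.simple_mul_simple_pow p j
      have e1 : X.M o j = M p j := by
        simp only [hX o j, hM, F.dM, F.pathM, o, p]
        split_ifs <;> omega
      have e2 : cs.simple o * cs.simple p * cs.simple o * cs.simple j =
          cs.simple o * (cs.simple p * cs.simple j) * (cs.simple o)⁻¹ := by
        conv_lhs => rw [← c2 j hj2]
        simp [mul_assoc]
      rw [e1, e2, conj_pow, e, mul_one, mul_inv_cancel]
  have hl : X.M.IsLiftable f := fun i j => by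
    by_cases c : i = j
    · rw [c, X.M.diagonal, pow_one, ff]
    by_cases ci : i = o
    · rw [ci]
      exact h0 j fun c' => c (ci.trans c'.symm)
    by_cases cj : j = o
    · rw [cj, X.M.symmetric, ← inv_eq_one, ← inv_pow, _root_.mul_inv_rev,
        inv_eq_of_mul_eq_one_right (ff i), inv_eq_of_mul_eq_one_right (ff o)]
      exact h0 i ci
    · have e1 : X.M i j = M i j := by
        have : (i : ℕ) ≠ 0 := fun c => ci (Fin.ext c)
        have : (j : ℕ) ≠ 0 := fun c => cj (Fin.ext c)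
        simp only [hX i j, hM, F.dM, F.pathM]
        split_ifs <;> omega
      simp only [f, if_neg ci, if_neg cj, e1]
      exact cs.simple_mul_simple_pow i j
  have hι : ∀ i, X.cs.lift ⟨f, hl⟩ (X.s i) = f i := X.cs.lift_apply_simple hl
  have cov := d1_cover cs (X.cs.lift ⟨f, hl⟩) tt fun i => by
    by_cases ci : i = o
    · exact Or.inl (by rw [ci])
    refine Or.inr ⟨⟨X.s i, by simp only [hι, f, if_neg ci]⟩, ?_⟩
    by_cases c : i = p
    · exact ⟨X.s o, by simp only [hι, f, if_true, c]⟩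
    · have : (i : ℕ) ≠ 0 := fun c => ci (Fin.ext c)
      have : (i : ℕ) ≠ 1 := fun c' => c (Fin.ext c')
      exact ⟨X.s i, by simp only [hι, f, if_neg ci, c2 i (by omega)]⟩
  have fin : Finite M.Group := Finite.of_surjective (α := X.W ⊕ X.W)
    (Sum.elim (X.cs.lift ⟨f, hl⟩) fun w => X.cs.lift ⟨f, hl⟩ w * cs.simple o) fun y => by
      obtain ⟨w, e | e⟩ := cov y
      exacts [⟨Sum.inl w, e.symm⟩, ⟨Sum.inr w, e.symm⟩]
  let _ := Fintype.ofFinite M.Group
  let Y : F.Cox := { n := X.n, M := M, W := M.Group, cs := cs, hM := F.bond_ne_zero cs }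
  refine ⟨Y, ⟨⟨rfl, h2, hX, hM, X.cs.lift ⟨f, hl⟩, ?_, fun k => ?_⟩⟩⟩
  · rw [d1_sN o.2, hι, d1_sN (X := Y) o.2, d1_sN (X := Y) p.2]
    exact if_pos rfl
  · by_cases c : k + 1 < X.n
    · rw [d1_sN c, hι, d1_sN (X := Y) c]
      exact if_neg fun c' => by simpa [o] using congrArg Fin.val c'
    · rw [F.Cox.sN, F.Cox.sN, dif_neg c, dif_neg c, map_one]

theorem sw_sw {σ : X.W ≃* X.W} (h : F.Cox.IsSw σ) (w : X.W) : σ (σ w) = w := by
  refine d1_ind (p := fun w => σ (σ w) = w) (by simp)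
    (fun x y hx hy => by rw [map_mul, map_mul, hx, hy]) ?_ ?_ (fun k => ?_) w
  · rw [h.1, h.2.1]
  · rw [h.2.1, h.1]
  · rw [h.2.2 _ (by omega), h.2.2 _ (by omega)]

theorem sw_gen {σ : X.W ≃* X.W} (h : F.Cox.IsSw σ) (h2 : 2 ≤ X.n) :
    ∃ e : Fin X.n → Fin X.n, ∀ i, σ (X.s i) = X.s (e i) := by
  refine ⟨fun i => if (i : ℕ) = 0 then ⟨1, h2⟩ else if (i : ℕ) = 1 then ⟨0, by omega⟩ else i,
    fun i => ?_⟩
  simp only [d1_s]
  split_ifs with c c'
  · rw [c, h.1]
  · rw [c', h.2.1]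
  · exact h.2.2 _ (by omega)

theorem bonds_D (hX : X.Is F.dM) (i j : Fin X.n) (h : i ≠ j) :
    X.M i j = 2 ∨ X.M i j = 3 ∨ X.M i j = 5 := by
  rw [hX, F.dM, if_neg (Fin.val_ne_of_ne h)]
  split_ifs <;> simp

namespace DB

variable (P : DB X Y)

theorem t_sq : Y.sN 0 * Y.sN 0 = 1 := by
  exact d1_sq 0

theorem ι_sw {σ : X.W ≃* X.W} (h : F.Cox.IsSw σ) (w : X.W) :
    P.ι (σ w) = Y.sN 0 * P.ι w * Y.sN 0 := by
  refine d1_ind (p := fun w => P.ι (σ w) = Y.sN 0 * P.ι w * Y.sN 0) (by simp [d1_sq])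
    (fun x y hx hy => ?_) ?_ ?_ (fun k => ?_) w
  · rw [map_mul, map_mul, hx, hy, map_mul]
    simp only [mul_assoc]
    rw [← mul_assoc (Y.sN 0) (Y.sN 0), d1_sq, one_mul]
  · rw [h.1, P.ι0, P.ιk 0]
    simp only [mul_assoc, d1_sq, mul_one]
    rw [← mul_assoc, d1_sq, one_mul]
  · rw [h.2.1, P.ι0, P.ιk 0]
  · rw [h.2.2 _ (by omega), P.ιk, d1_commB P.hY (by omega), mul_assoc, d1_sq, mul_one]

theorem cover (y : Y.W) : ∃ w, y = P.ι w ∨ y = P.ι w * Y.sN 0 := by
  refine d1_cover Y.cs P.ι (d1_sq 0) (fun i => ?_) y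
  rw [show Y.cs.simple i = Y.sN i from d1_s i]
  rcases (i : ℕ) with _ | _ | k
  · exact Or.inl rfl
  · exact Or.inr ⟨⟨_, (P.ιk 0).symm⟩, _, P.ι0.symm⟩
  · exact Or.inr ⟨⟨_, (P.ιk _).symm⟩, X.sN (k + 2), by
      rw [P.ιk, d1_commB P.hY (by omega), mul_assoc, d1_sq, mul_one]⟩

/-- the simple reflections of `X` as conjugates in `Y` -/
theorem d1_gen (i : Fin X.n) : ∃ (u : Y.W) (j : Fin Y.n), P.ι (X.s i) = u * Y.s j * u⁻¹ ∧
    ((i : ℕ) = 0 ∧ u = Y.sN 0 ∧ (j : ℕ) = 1 ∨ (i : ℕ) ≠ 0 ∧ u = 1 ∧ (j : ℕ) = i) := by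
  have := P.n
  have := P.two
  obtain ⟨_ | k, hi⟩ := i
  · refine ⟨_, ⟨1, by omega⟩, ?_, Or.inl ⟨rfl, rfl, rfl⟩⟩
    rw [d1_s, d1_s, P.ι0, inv_eq_of_mul_eq_one_right (d1_sq 0)]
  · exact ⟨1, ⟨k + 1, by omega⟩, by rw [d1_s, d1_s, P.ιk]; simp, Or.inr ⟨by simp, rfl, rfl⟩⟩

theorem d1_asc (w : X.W) {i : Fin X.n} {u : Y.W} {j : Fin Y.n}
    (e : (i : ℕ) = 0 ∧ u = Y.sN 0 ∧ (j : ℕ) = 1 ∨ (i : ℕ) ≠ 0 ∧ u = 1 ∧ (j : ℕ) = i) :
    X.len w < X.len (w * X.s i) ↔ Y.len (P.ι w * u) < Y.len (P.ι w * u * Y.s j) := by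
  have hn := P.n
  have h2 := P.two
  choose U J h1 h3 using P.d1_gen
  let β : Fin X.n → Fin Y.n → ℝ := fun i => Y.σ (U i) *ᵥ Y.al (J i)
  let o : Fin Y.n := ⟨0, by omega⟩
  have KK : ∀ (i k : Fin X.n) (j l : Fin Y.n), F.pathM 0 4 j l = F.dM i k → Y.K j l = X.K i k :=
    fun i k j l c => by rw [F.Cox0.K, F.Cox0.K, P.hX, P.hY, c]
  have one : ∀ i k : Fin X.n, (i : ℕ) = 0 → (k : ℕ) ≠ 0 → Y.B (β i) (β k) = X.K i k := by
    intro i k hi hk
    obtain ⟨-, u1, j1⟩ := (h3 i).resolve_right fun c => c.1 hi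
    obtain ⟨-, u2, j2⟩ := (h3 k).resolve_left fun c => hk c.1
    replace u1 : U i = Y.s o := u1.trans (d1_sN o.2)
    simp only [β, u1, u2, F.Cox.G3.mv_one, Y.σ_simple_mulVec, Y.B_al_al]
    rw [F.Cox0.B, sub_dotProduct, smul_dotProduct, ← F.Cox0.B, ← F.Cox0.B, Y.B_al_al, Y.B_al_al]
    by_cases c : (k : ℕ) = 1
    · rw [show J k = J i from Fin.ext (by omega), Y.K_diag, X.K_two (by rw [P.hX, hi, c]; rfl),
        F.Cox0.K, P.hY, j1, show F.pathM 0 4 o 1 = 4 from rfl, Nat.cast_ofNat,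
        Real.cos_pi_div_four, smul_eq_mul]
      linear_combination -Real.mul_self_sqrt (zero_le_two (α := ℝ))
    · rw [Y.K_two (i := o) (j := J k) (by
        simp only [P.hY o, F.pathM, o]; rw [if_neg (by omega), if_neg (by omega)]), smul_zero,
        sub_zero]
      refine KK _ _ _ _ ?_
      simp only [F.dM, F.pathM, hi, j1, j2]
      split_ifs <;> omega
  have hB : ∀ i k, Y.B (β i) (β k) = X.K i k := fun i k => by
    by_cases c : i = k
    · rw [c, X.K_diag]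
      exact F.Cox.G3.B_root Y _ _
    have := Fin.val_ne_of_ne c
    by_cases hi : (i : ℕ) = 0
    · exact one i k hi (by omega)
    by_cases hk : (k : ℕ) = 0
    · rw [Y.B_symm, one k i hk hi, ← X.B_al_al, X.B_symm, X.B_al_al]
    obtain ⟨-, u1, j1⟩ := (h3 i).resolve_left fun c => hi c.1
    obtain ⟨-, u2, j2⟩ := (h3 k).resolve_left fun c => hk c.1
    simp only [β, u1, u2, F.Cox.G3.mv_one, Y.B_al_al]
    refine KK _ _ _ _ ?_
    simp only [F.dM, F.pathM, j1, j2]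
    split_ifs <;> omega
  have pos : ∀ i, 0 ≤ β i := fun i => Y.pos_of_asc (by
    rcases h3 i with ⟨-, u1, j1⟩ | ⟨-, u1, -⟩ <;> rw [u1]
    · rw [d1_sN o.2]
      exact Y.g6_asc fun c => by simpa [j1] using congrArg Fin.val c
    · simp [F.Cox0.len])
  let ex : (Fin X.n → ℝ) →ₗ[ℝ] Fin Y.n → ℝ := (Pi.basisFun ℝ (Fin X.n)).constr ℝ β
  have e1 : ∀ v, ex v = ∑ i, v i • β i := fun v => by simp [ex]
  have e2 : ∀ i, ex (X.al i) = β i := fun i => by simp [e1, Pi.single_apply]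
  have e3 : ∀ w v, Y.σ (P.ι w) *ᵥ ex v = ex (X.σ w *ᵥ v) := fun w => by
    refine X.cs.simple_induction (p := fun w => ∀ v, Y.σ (P.ι w) *ᵥ ex v = ex (X.σ w *ᵥ v)) w
      (fun i v => ?_) (by simp) fun x y hx hy v => by
        rw [map_mul, F.Cox.G3.mv_mul Y, hy, hx, F.Cox.G3.mv_mul X]
    rw [h1, Y.σ_conj_simple, X.σ_simple_mulVec, map_sub, map_smul, e2]
    congr 2
    rw [e1, F.Cox0.B, mulVec_sum, dotProduct_sum, F.Cox0.B, single_dotProduct, one_mul, mulVec,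
      dotProduct]
    refine Finset.sum_congr rfl fun k _ => ?_
    rw [mulVec_smul, dotProduct_smul, ← F.Cox0.B, hB, smul_eq_mul, mul_comm]
  have e4 : Y.σ (P.ι w * u) *ᵥ Y.al j = ∑ k, (X.σ w *ᵥ X.al i) k • β k := by
    rw [← e1, ← e3, e2, F.Cox.G3.mv_mul Y]
    rcases h3 i with ⟨c, u1, j1⟩ | ⟨c, u1, j1⟩ <;> rcases e with ⟨c', u2, j2⟩ | ⟨c', u2, j2⟩
    · simp only [β, u1, u2, show J i = j from Fin.ext (by omega)]
    · exact absurd c c'
    · exact absurd c' c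
    · simp only [β, u1, u2, show J i = j from Fin.ext (by omega)]
  rw [Y.asc_iff]
  refine ⟨fun c => e4 ▸ Finset.sum_nonneg fun k _ => smul_nonneg (X.pos_of_asc c k) (pos k),
    fun c => by_contra fun c' => Y.root_ne_zero _ j (le_antisymm ?_ c)⟩
  have := X.neg_of_desc (lt_of_le_of_ne (not_lt.1 c') (X.cs.length_mul_simple_ne w i))
  exact e4 ▸ Finset.sum_nonpos fun k _ => smul_nonpos_of_nonpos_of_nonneg (this k) (pos k)

/-- The linear map `ext` with `al 0 ↦ al 1 + √2 al 0 = t (al 1)`, `al k ↦ al k` intertwines the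
reflection representations and preserves `0 ≤ ·` and `· ≤ 0`; `asc_iff`. -/
theorem asc_succ (w : X.W) {k : ℕ} (hk : k + 1 < X.n) : X.len w < X.len (w * X.sN (k + 1)) ↔
    Y.len (P.ι w) < Y.len (P.ι w * Y.sN (k + 1)) := by
  have := P.n
  have e := P.d1_asc w (i := ⟨k + 1, hk⟩) (j := ⟨k + 1, by omega⟩) (Or.inr ⟨by simp, rfl, rfl⟩)
  rwa [mul_one, d1_s, d1_s] at e

theorem asc_zero (w : X.W) : X.len w < X.len (w * X.sN 0) ↔
    Y.len (P.ι w * Y.sN 0) < Y.len (P.ι w * Y.sN 0 * Y.sN 1) := by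
  have := P.n
  have := P.two
  have e := P.d1_asc w (i := ⟨0, by omega⟩) (j := ⟨1, by omega⟩) (Or.inl ⟨rfl, rfl, rfl⟩)
  rwa [d1_s, d1_s] at e

theorem inj : Function.Injective P.ι := by
  refine (injective_iff_map_eq_one _).2 fun w hw => by_contra fun c => ?_
  obtain ⟨i, hi⟩ := X.cs.exists_rightDescent_of_ne_one c
  obtain ⟨u, j, -, e⟩ := P.d1_gen i
  refine not_lt.2 (le_of_lt hi) ((P.d1_asc w e).2 ?_)
  have := P.n
  have := P.two
  rw [hw, one_mul]
  rcases e with ⟨-, rfl, j1⟩ | ⟨-, rfl, -⟩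
  · rw [d1_sN (by omega)]
    exact Y.g6_asc fun c => by simpa [j1] using congrArg Fin.val c
  · simp [F.Cox0.len]

/-- the homomorphism `t ↦ -1`, `s k ↦ 1` -/
theorem ι_ne (w w' : X.W) : P.ι w * Y.sN 0 ≠ P.ι w' := by
  have hl : Y.M.IsLiftable fun i => if (i : ℕ) = 0 then (-1 : ℤˣ) else 1 := fun i j => by
    rw [P.hY, F.pathM]
    beta_reduce
    split_ifs <;> first | omega | decide
  have e : ∀ k, Y.cs.lift ⟨_, hl⟩ (Y.sN (k + 1)) = 1 := fun k => by
    unfold F.Cox.sN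
    split_ifs
    · exact Y.cs.lift_apply_simple hl _
    · exact map_one _
  have e0 : Y.cs.lift ⟨_, hl⟩ (Y.sN 0) = -1 := by
    rw [d1_sN (by have := P.n; have := P.two; omega)]
    exact Y.cs.lift_apply_simple hl _
  have e1 : ∀ w, Y.cs.lift ⟨_, hl⟩ (P.ι w) = 1 :=
    d1_ind (by simp) (fun x y hx hy => by rw [map_mul, map_mul, hx, hy, mul_one])
      (by rw [P.ι0, map_mul, map_mul, e0, e 0]; rfl) (by rw [P.ιk, e]) fun k => by rw [P.ιk, e]
  intro c
  have := congrArg (Y.cs.lift ⟨_, hl⟩) c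
  rw [map_mul, e1, e1, e0] at this
  exact absurd this (by decide)

theorem ι_mD {k : ℕ} (hk : k + 1 < X.n) : P.ι (X.mD k) = Y.tB k * Y.sN (k + 1) * Y.tB k := by
  induction k with
  | zero => exact P.ι0
  | succ k ih =>
    have hn := P.n
    have c : ∀ m j, m + 2 ≤ j → Commute (Y.tB m) (Y.sN j) := fun m j => by
      induction m with
      | zero => exact d1_commB P.hY
      | succ m ih =>
        intro hj
        have e : Commute (Y.sN (m + 1)) (Y.sN j) := d1_commB P.hY hj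
        exact (e.mul_left (ih (by omega))).mul_left e
    have b : Y.sN (k + 2) * (Y.sN (k + 1) * Y.sN (k + 2)) =
        Y.sN (k + 1) * (Y.sN (k + 2) * Y.sN (k + 1)) := by
      have e := Y.cs.simple_mul_simple_pow ⟨k + 1, by omega⟩ ⟨k + 2, by omega⟩
      rw [P.hY, show F.pathM 0 4 (k + 1) (k + 2) = 3 by simp [F.pathM]] at e
      rw [d1_sN (by omega : k + 1 < Y.n), d1_sN (by omega : k + 2 < Y.n), eq_comm,
        ← mul_inv_eq_one, ← e]
      simp [pow_succ, mul_assoc]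
    rw [F.Cox.mD, F.Cox.tB]
    simp only [map_mul, P.ιk, ih (by omega), mul_assoc]
    have c1 : ∀ z, Y.sN (k + 2) * (Y.tB k * z) = Y.tB k * (Y.sN (k + 2) * z) := fun z => by
      rw [← mul_assoc, ← (c k _ le_rfl).eq, mul_assoc]
    have b1 : ∀ z, Y.sN (k + 1) * (Y.sN (k + 2) * (Y.sN (k + 1) * z)) =
        Y.sN (k + 2) * (Y.sN (k + 1) * (Y.sN (k + 2) * z)) := fun z => by
      simpa only [mul_assoc] using congrArg (· * z) b.symm
    rw [b1 (Y.tB k * _), c1, c1]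

theorem map_uD (a : ℂ) {k : ℕ} (hk : k < X.n) :
    MonoidAlgebra.mapDomain P.ι (X.uD a k) = Y.uB a 0 k := by
  change MonoidAlgebra.mapDomainAlgHom ℂ ℂ P.ι _ = _
  have e : ∀ w, MonoidAlgebra.mapDomainAlgHom ℂ ℂ P.ι (X.gA w) = Y.gA (P.ι w) := fun w => by simp
  induction k with
  | zero => simp [F.Cox.uD, F.Cox.uB]
  | succ k ih =>
    simp only [F.Cox.uD, F.Cox.uB, map_add, map_mul, map_smul, e, ih (by omega), P.ιk, P.ι_mD hk]

end DB

end

end Pool.Agent.P.MP_1a0ecf_al.K
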