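import Pool.Agent.P.MP_1a0ecf_al.K.D1
import Pool.Agent.P.MP_1a0ecf_al.K.IntB
import Pool.Agent.P.MP_1a0ecf_al.K.KB4

/-! Package D2: the Hecke algebra of type D inside type B. -/

namespace Pool.Agent.P.MP_1a0ecf_al.K

open Sn
open scoped Classical

set_option linter.unusedSectionVars false

noncomputable section

variable {X : F.Cox} {Γ : Type} [AddCommGroup Γ] [LinearOrder Γ] [IsOrderedAddMonoid Γ]
  {σ : X.W ≃* X.W} {a : Γ} {B : KB X Γ fun _ => a}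

namespace D2P

section

variable {X Y : F.Cox} {R : Type} [CommRing R] {q : Fin X.n → Rˣ} {q' : Fin Y.n → Rˣ}

theorem len_cases (w : X.W) (i : Fin X.n) :
    X.len w < X.len (w * X.s i) ∨ X.len (w * X.s i) < X.len w := by
  rcases X.cs.length_mul_simple w i with k | k
  · left; simp only [F.Cox0.len, F.Cox0.s]; omega
  · right; simp only [F.Cox0.len, F.Cox0.s]; omega

theorem len_cases' (w : X.W) (i : Fin X.n) :
    X.len w < X.len (X.s i * w) ∨ X.len (X.s i * w) < X.len w := by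
  rcases X.cs.length_simple_mul w i with k | k
  · left; simp only [F.Cox0.len, F.Cox0.s]; omega
  · right; simp only [F.Cox0.len, F.Cox0.s]; omega

theorem sN_mk {k : ℕ} (h : k < X.n) : X.sN k = X.s ⟨k, h⟩ := dif_pos h

theorem sN_sq (k : ℕ) : X.sN k * X.sN k = 1 := by
  unfold F.Cox.sN
  split_ifs
  exacts [X.cs.simple_mul_simple_self _, one_mul 1]

theorem alg_of (D : F.HA X R q) {A : Type} [Ring A] [Algebra R A] (t : X.W → A) (h1 : t 1 = 1)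
    (hu : ∀ w i, X.len w < X.len (w * X.s i) → t w * t (X.s i) = t (w * X.s i))
    (hd : ∀ w i, X.len (w * X.s i) < X.len w →
      t w * t (X.s i) = t (w * X.s i) + D.ze i • t w) :
    ∃ f : D.H →ₐ[R] A, ∀ w, f (D.T w) = t w := by
  let f : D.H →ₗ[R] A := D.T.constr R t
  have hf : ∀ w, f (D.T w) = t w := D.T.constr_basis R t
  have h0 : f 1 = 1 := by rw [← D.T_one, hf, h1]
  have hs : ∀ i a, f (a * D.Ts i) = f a * f (D.Ts i) := fun i a => by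
    have : f ∘ₗ LinearMap.mulRight R (D.Ts i) = LinearMap.mulRight R (f (D.Ts i)) ∘ₗ f :=
      D.T.ext fun w => by
        simp only [LinearMap.comp_apply, LinearMap.mulRight_apply, hf]
        rcases len_cases w i with k | k
        · rw [D.T_up w i k, hf, hu w i k]
        · rw [D.T_down w i k, map_add, map_smul, hf, hf, hd w i k]
    exact LinearMap.congr_fun this a
  refine ⟨AlgHom.ofLinearMap f h0 fun a b => ?_, hf⟩
  induction b using D.induction with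
  | h1 => rw [mul_one, h0, mul_one]
  | ha b c hb hc => rw [mul_add, map_add, map_add, mul_add, hb, hc]
  | hs r b hb => rw [mul_smul_comm, map_smul, map_smul, hb, mul_smul_comm]
  | hm b i hb => rw [← mul_assoc, hs, hs, hb, mul_assoc]

theorem T_z (D : F.HA X R q) {i : Fin X.n} (h : q i = 1) (w : X.W) :
    D.T w * D.T (X.s i) = D.T (w * X.s i) := by
  rcases len_cases w i with k | k
  · exact D.T_up w i k
  · rw [D.T_down w i k, h]; simp

theorem z_T (D : F.HA X R q) {i : Fin X.n} (h : q i = 1) (w : X.W) :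
    D.T (X.s i) * D.T w = D.T (X.s i * w) := by
  rcases len_cases' w i with k | k
  · exact D.Ts_up k
  · rw [D.Ts_down k, F.HA.ze, h]; simp

theorem exists_J0 (P : DB X Y) (D : F.HA X R q) (D' : F.HA Y R q') (u : Rˣ) (hq : ∀ i, q i = u)
    (h0 : ∀ i : Fin Y.n, (i : ℕ) = 0 → q' i = 1) (h1 : ∀ i : Fin Y.n, (i : ℕ) ≠ 0 → q' i = u) :
    ∃ J : D.H →ₐ[R] D'.H, ∀ w, J (D.T w) = D'.T (P.ι w) := by
  have hn := P.n
  have h2 := P.two
  have y0 : 0 < Y.n := by omega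
  have y1 : 1 < Y.n := by omega
  have tz : ∀ y, D'.T y * D'.T (Y.sN 0) = D'.T (y * Y.sN 0) := fun y => by
    rw [sN_mk y0]; exact T_z D' (h0 _ rfl) y
  have zt : ∀ y, D'.T (Y.sN 0) * D'.T y = D'.T (Y.sN 0 * y) := fun y => by
    rw [sN_mk y0]; exact z_T D' (h0 _ rfl) y
  have e0 : ∀ y, D'.T y * D'.T (P.ι (X.sN 0)) =
      D'.T (y * Y.sN 0) * D'.T (Y.sN 1) * D'.T (Y.sN 0) := fun y => by
    rw [P.ι0, ← tz (_ * _), ← zt, ← mul_assoc, ← mul_assoc, tz]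
  refine alg_of D _ (by rw [map_one, D'.T_one]) (fun w i k => ?_) fun w i k => ?_
  · obtain ⟨_ | i, hi⟩ := i
    · rw [← sN_mk hi] at k ⊢
      have k' := (P.asc_zero w).1 k
      rw [sN_mk y1] at k'
      rw [e0, sN_mk y1, D'.T_up _ _ k', tz, map_mul P.ι, P.ι0, sN_mk y1]
      simp only [mul_assoc]
    · rw [← sN_mk hi] at k ⊢
      have k' := (P.asc_succ w hi).1 k
      have hi' : i + 1 < Y.n := by omega
      rw [map_mul, P.ιk]
      rw [sN_mk hi'] at k' ⊢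
      exact D'.T_up _ _ k'
  · obtain ⟨_ | i, hi⟩ := i
    · have k0 := k.not_gt
      rw [← sN_mk hi] at k0 ⊢
      have k' := mt (P.asc_zero w).2 k0
      rw [sN_mk y1] at k'
      rw [e0, sN_mk y1, D'.T_down _ _ ((len_cases _ _).resolve_left k'), add_mul, smul_mul_assoc,
        tz, tz, map_mul P.ι, P.ι0, sN_mk y1, mul_assoc (P.ι w) (Y.sN 0) (Y.sN 0), sN_sq, mul_one,
        F.HA.ze, hq, h1 _ one_ne_zero]
      simp only [mul_assoc]
    · have k0 := k.not_gt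
      rw [← sN_mk hi] at k0 ⊢
      have k' := mt (P.asc_succ w hi).2 k0
      have hi' : i + 1 < Y.n := by omega
      rw [map_mul, P.ιk]
      rw [sN_mk hi'] at k' ⊢
      rw [D'.T_down _ _ ((len_cases _ _).resolve_left k'), F.HA.ze, hq, h1 _ (Nat.succ_ne_zero i)]

theorem t_ι (P : DB X Y) {σ : X.W ≃* X.W} (h : F.Cox.IsSw σ) (w : X.W) :
    Y.sN 0 * P.ι w = P.ι (σ w) * Y.sN 0 := by
  rw [P.ι_sw h, mul_assoc, sN_sq, mul_one]

/-- the sign character -/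
def ep (P : DB X Y) (y : Y.W) : ℤ := if y ∈ P.ι.range then 1 else -1

theorem ep_ι (P : DB X Y) (w : X.W) : ep P (P.ι w) = 1 := if_pos ⟨w, rfl⟩

theorem ep_t (P : DB X Y) (w : X.W) : ep P (P.ι w * Y.sN 0) = -1 :=
  if_neg fun ⟨w', e⟩ => P.ι_ne w w' e.symm

theorem ep_mul (P : DB X Y) {σ : X.W ≃* X.W} (h : F.Cox.IsSw σ) (y z : Y.W) :
    ep P (y * z) = ep P y * ep P z := by
  obtain ⟨w, rfl | rfl⟩ := P.cover y <;> obtain ⟨w', rfl | rfl⟩ := P.cover z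
  · rw [← map_mul, ep_ι, ep_ι, ep_ι, mul_one]
  · rw [← mul_assoc, ← map_mul, ep_t, ep_ι, ep_t, one_mul]
  · rw [mul_assoc, t_ι P h, ← mul_assoc, ← map_mul, ep_t, ep_t, ep_ι, mul_one]
  · rw [mul_assoc, ← mul_assoc (Y.sN 0), ← mul_assoc, mul_assoc (P.ι w), ← P.ι_sw h, ← map_mul,
      ep_ι, ep_t, ep_t]
    rfl

theorem ep_zero (P : DB X Y) : ep P (Y.sN 0) = -1 := by
  simpa using ep_t P 1

theorem ep_succ (P : DB X Y) (k : ℕ) : ep P (Y.sN (k + 1)) = 1 := by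
  rw [← P.ιk, ep_ι]

theorem exists_θ (P : DB X Y) {σ : X.W ≃* X.W} (h : F.Cox.IsSw σ) (D : F.HA Y R q')
    (h0 : ∀ i : Fin Y.n, (i : ℕ) = 0 → q' i = 1) :
    ∃ θ : D.H →ₐ[R] D.H, ∀ y, θ (D.T y) = ep P y • D.T y := by
  refine alg_of D _ (by rw [← map_one P.ι, ep_ι, map_one, one_smul, D.T_one]) (fun w i k => ?_)
    fun w i k => ?_
  · rw [smul_mul_smul_comm, D.T_up w i k, ep_mul P h]
  · rw [smul_mul_smul_comm, D.T_down w i k, ep_mul P h, smul_add]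
    congr 1
    obtain ⟨_ | i, hi⟩ := i
    · rw [F.HA.ze, h0 _ rfl]
      simp
    · rw [← sN_mk hi, ep_succ, mul_one, smul_comm]

end

theorem conj_LB {X Y : F.Cox} (P : DB X Y) {σ : X.W ≃* X.W} (h : F.Cox.IsSw σ) {Γ : Type}
    [AddCommGroup Γ] (a b : Γ) (i j : Fin Y.n) (hc : IsConj (Y.s i) (Y.s j)) :
    (if (i : ℕ) = 0 then b else a) = if (j : ℕ) = 0 then b else a := by
  have e : ep P (Y.s i) = ep P (Y.s j) := by
    obtain ⟨c, hc⟩ := isConj_iff.1 hc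
    have h1 : ep P c * ep P c⁻¹ = 1 := by rw [← ep_mul P h, mul_inv_cancel, ← map_one P.ι, ep_ι]
    rw [← hc, ep_mul P h, ep_mul P h, mul_right_comm, h1, one_mul]
  obtain ⟨_ | i, hi⟩ := i <;> obtain ⟨_ | j, hj⟩ := j
  · rfl
  · rw [← sN_mk hi, ← sN_mk hj, ep_zero, ep_succ] at e
    omega
  · rw [← sN_mk hi, ← sN_mk hj, ep_zero, ep_succ] at e
    omega
  · rfl

end D2P

open D2P

/-- `J` is the linear map `T w ↦ T (ι w)`; it is multiplicative by `asc_succ`, `asc_zero` and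
`T x * T t = T (x * t)` (weight zero). `θ` from `HA.exists_hom`, `S` from `HA.exists_aut`. -/
theorem exists_DJ (hX : X.Is F.dM) (h2 : 2 ≤ X.n) (h : F.Cox.IsSw σ) (ha : 0 < a)
    (B : KB X Γ fun _ => a) : Nonempty (DJ X σ a B) := by
  obtain ⟨Y, ⟨P⟩⟩ := exists_DB hX h2
  obtain ⟨D⟩ := F.exists_KL (X := Y) (L := LB Y a 0) (conj_LB P h a 0)
  obtain ⟨BY, -⟩ := exists_KB D (conj_LB P h a 0)
  obtain ⟨t, ht⟩ := exists_KTB ha 0 BY P.hY
  have h0 : ∀ i : Fin Y.n, (i : ℕ) = 0 → mK (LB Y a 0 i) = 1 := fun i hi => by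
    rw [LB, if_pos hi, mK_zero]
  obtain ⟨J, hJ⟩ := exists_J0 P B.E BY.E (mK a) (fun _ => rfl) h0 fun i hi => by rw [LB, if_neg hi]
  obtain ⟨θ, hθ⟩ := exists_θ P h BY.E h0
  obtain ⟨e, he⟩ := sw_gen h h2
  obtain ⟨S, hS⟩ := B.E.exists_aut σ e he fun _ => rfl
  exact ⟨⟨Y, P, h, BY, t, ht, J, hJ, θ, ⟨ht.lv, t.hQ.trans mK_zero,
    fun k => by rw [ht.T, hθ, ep_succ, one_smul], by rw [ht.X0, hθ, ep_zero, neg_one_smul]⟩, S, hS⟩⟩

namespace DJ

variable (Z : DJ X σ a B)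

theorem pos_Y : 0 < Z.Y.n := by
  have := Z.P.n
  have := Z.P.two
  omega

theorem T_t' (y : Z.Y.W) : Z.BY.E.T y * Z.t.X0 = Z.BY.E.T (y * Z.Y.sN 0) := by
  rw [Z.isB.X0, sN_mk Z.pos_Y]
  exact T_z Z.BY.E mK_zero y

theorem t_T (y : Z.Y.W) : Z.t.X0 * Z.BY.E.T y = Z.BY.E.T (Z.Y.sN 0 * y) := by
  rw [Z.isB.X0, sN_mk Z.pos_Y]
  exact z_T Z.BY.E mK_zero y

theorem decomp (h : Z.BY.E.H) : ∃ h1 h2, h = Z.J h1 + Z.J h2 * Z.t.X0 := by
  have : h ∈ Submodule.span (KK Γ) (Set.range Z.BY.E.T) := by rw [Z.BY.E.T.span_eq]; trivial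
  induction this using Submodule.span_induction with
  | mem _ hx =>
    obtain ⟨y, rfl⟩ := hx
    obtain ⟨w, rfl | rfl⟩ := Z.P.cover y
    · exact ⟨B.E.T w, 0, by rw [Z.J_T, map_zero, zero_mul, add_zero]⟩
    · exact ⟨0, B.E.T w, by rw [Z.J_T, map_zero, zero_add, Z.T_t']⟩
  | zero => exact ⟨0, 0, by simp⟩
  | add _ _ _ _ k k' =>
    obtain ⟨b, c, rfl⟩ := k
    obtain ⟨b', c', rfl⟩ := k'
    exact ⟨b + b', c + c', by rw [map_add, map_add, add_mul]; abel⟩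
  | smul r _ _ k =>
    obtain ⟨b, c, rfl⟩ := k
    exact ⟨r • b, r • c, by rw [map_smul, map_smul, smul_add, smul_mul_assoc]⟩

theorem n_eq : Z.t.n = X.n := Z.isB.n.trans Z.P.n

theorem X0_sq : Z.t.X0 * Z.t.X0 = 1 := by
  have := Z.T_t' (Z.Y.sN 0)
  rwa [sN_sq, Z.BY.E.T_one, ← Z.isB.X0] at this

theorem T_t (y : Z.Y.W) : Z.BY.E.T y * Z.t.X0 = Z.BY.E.T (y * Z.Y.sN 0) := Z.T_t' y

theorem co_J (h : B.E.H) (w : X.W) : Z.BY.E.co (Z.J h) (Z.P.ι w) = B.E.co h w :=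
  F.L3.repr_map' (φ := RingHom.id _) (j := Z.J.toRingHom) (map_smul Z.J) B.E.T Z.BY.E.T Z.P.inj
    Z.J_T h w

theorem J_inj : Function.Injective Z.J := fun h h' e => B.E.T.ext_elem fun w =>
  (Z.co_J h w).symm.trans (e ▸ Z.co_J h' w)

theorem in_J {R : Subring (KK Γ)} {h : B.E.H} : In Z.BY.E R (Z.J h) ↔ In B.E R h := by
  refine ⟨fun k w => Z.co_J h w ▸ k _, fun k y => ?_⟩
  have := F.L3.repr_map (φ := RingHom.id _) (j := Z.J.toRingHom) (map_smul Z.J) B.E.T Z.BY.E.T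
    Z.J_T h y
  refine (this ▸ R.sum_mem fun w _ => ?_ :)
  split_ifs
  exacts [k w, R.zero_mem]

theorem θ_J (h : B.E.H) : Z.θ (Z.J h) = Z.J h := by
  have : ∀ i, Z.θ (Z.J (B.E.Ts i)) = Z.J (B.E.Ts i) := by
    rintro ⟨_ | i, hi⟩
    · rw [Z.J_T, ← sN_mk hi, Z.P.ι0, ← Z.T_t, ← Z.t_T, ← Z.isB.T 0, map_mul, map_mul, Z.th.X0,
        Z.th.T]
      simp
    · rw [Z.J_T, ← sN_mk hi, Z.P.ιk, ← Z.isB.T, Z.th.T]
  induction h using B.E.induction with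
  | h1 => rw [map_one, map_one]
  | ha b c hb hc => rw [map_add, map_add, hb, hc]
  | hs r b hb => rw [map_smul, map_smul, hb]
  | hm b i hb => rw [map_mul, map_mul, hb, this]

theorem exists_J {h : Z.BY.E.H} (hh : Z.θ h = h) : ∃ h', Z.J h' = h := by
  obtain ⟨h1, h2, rfl⟩ := Z.decomp h
  rw [map_add, map_mul, Z.θ_J, Z.θ_J, Z.th.X0, mul_neg, add_right_inj] at hh
  have : (2 : KK Γ) • (Z.J h2 * Z.t.X0) = 0 := by
    rw [two_smul]
    exact neg_eq_iff_add_eq_zero.1 hh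
  rw [(smul_eq_zero.1 this).resolve_left two_ne_zero, add_zero]
  exact ⟨h1, rfl⟩

theorem J_S (h : B.E.H) : Z.J (Z.S h) = Z.t.X0 * Z.J h * Z.t.X0 := by
  rw [← B.E.T.sum_repr h]
  simp only [map_sum, map_smul, Finset.mul_sum, Finset.sum_mul, mul_smul_comm, smul_mul_assoc,
    Z.S_T, Z.J_T, Z.t_T, Z.T_t, Z.P.ι_sw Z.sw]

theorem S_S (h : B.E.H) : Z.S (Z.S h) = h := by
  rw [← B.E.T.sum_repr h]
  simp only [map_sum, map_smul, Z.S_T, sw_sw Z.sw]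

theorem in_S {R : Subring (KK Γ)} {h : B.E.H} (hh : In B.E R h) : In B.E R (Z.S h) := fun w => by
  have := F.L3.repr_map' (φ := RingHom.id _) (j := Z.S.toRingHom) (map_smul Z.S) B.E.T B.E.T
    σ.injective Z.S_T h (σ w)
  rw [sw_sw Z.sw] at this
  exact (congrArg (· ∈ R) this).mpr (hh (σ w))

/-- `KL.exists_aut` -/
theorem S_CK (w : X.W) : Z.S (B.CK w) = B.CK (σ w) := by
  obtain ⟨e, he⟩ := sw_gen Z.sw Z.P.two
  obtain ⟨f, f1, f2⟩ := B.toKL.exists_aut σ e he fun _ => rfl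
  have : ∀ b, Z.S (B.j b) = B.j (f b) := fun b => by
    rw [← B.T.sum_repr b]
    simp only [map_sum, map_smul, B.j_smul, B.j_T, Z.S_T, f1]
  rw [B.CK_eq, B.CK_eq, this, f2]

theorem repr_S (h : B.E.H) (w : X.W) : B.CK.repr (Z.S h) (σ w) = B.CK.repr h w :=
  F.L3.repr_map' (φ := RingHom.id _) (j := Z.S.toRingHom) (map_smul Z.S) B.CK B.CK σ.injective
    Z.S_CK h w

/-- `J` commutes with `bk`; `exists_j`, `KL.eq_C` -/
theorem J_CK (w : X.W) : Z.J (B.CK w) = Z.BY.CK (Z.P.ι w) := by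
  obtain ⟨f, hf⟩ := exists_J0 Z.P B.toHA Z.BY.toHA (F.vU a) (fun _ => rfl)
    (fun i hi => by rw [LB, if_pos hi]; exact Units.ext rfl) fun i hi => by rw [LB, if_neg hi]
  have h1 := (F.L3.core Z.BY.toKL B.toKL (φ := RingHom.id _) (fun _ h => h) (fun _ => rfl) Z.P.inj
    (map_inv Z.P.ι) (j := f.toRingHom) (map_smul f) hf).1 w
  have : ∀ b, Z.J (B.j b) = Z.BY.j (f b) := fun b => by
    rw [← B.T.sum_repr b]
    simp only [map_sum, map_smul, B.j_smul, Z.BY.j_smul, B.j_T, Z.BY.j_T, Z.J_T, hf]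
  rw [B.CK_eq, Z.BY.CK_eq, this]
  exact congrArg _ h1

theorem repr_J (h : B.E.H) (w : X.W) : Z.BY.CK.repr (Z.J h) (Z.P.ι w) = B.CK.repr h w :=
  F.L3.repr_map' (φ := RingHom.id _) (j := Z.J.toRingHom) (map_smul Z.J) B.CK Z.BY.CK Z.P.inj
    Z.J_CK h w

theorem crd_J {e : B.E.H} (he : e * e = e) (h : Z.BY.Crd (Z.BY.lid (Z.J e))) :
    B.Crd (B.lid e) := by
  obtain ⟨U, hU⟩ := h
  refine ⟨Z.P.ι ⁻¹' U, Submodule.ext fun x => ?_⟩
  have e1 : x * e = x ↔ Z.J x * Z.J e = Z.J x := by rw [← map_mul, Z.J_inj.eq_iff]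
  rw [B.mem_lid he, e1, ← Z.BY.mem_lid (by rw [← map_mul, he]), hU, Z.BY.mem_spK, B.mem_spK]
  refine ⟨fun k w hw => k _ (by rwa [Z.repr_J]), fun k y hy => ?_⟩
  have := F.L3.repr_map (φ := RingHom.id _) (j := Z.J.toRingHom) (map_smul Z.J) B.CK Z.BY.CK
    Z.J_CK x y
  obtain ⟨w, -, hw⟩ := Finset.exists_ne_zero_of_sum_ne_zero (this ▸ hy :)
  split_ifs at hw with hwy
  · exact hwy ▸ k w hw
  · exact (hw rfl).elim

theorem cent_J {e : B.E.H} (he : ∀ h, e * h = h * e) (hs : Z.S e = e) (h : Z.BY.E.H) :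
    Z.J e * h = h * Z.J e := by
  obtain ⟨h1, h2, rfl⟩ := Z.decomp h
  have c1 : ∀ x, Commute (Z.J e) (Z.J x) := fun x => by
    rw [Commute, SemiconjBy, ← map_mul, ← map_mul, he]
  have c2 : Commute (Z.J e) Z.t.X0 := by
    have := Z.J_S e
    rw [hs] at this
    rw [Commute, SemiconjBy]
    conv_lhs => rw [this, mul_assoc, Z.X0_sq, mul_one]
  exact (c1 h1).add_right ((c1 h2).mul_right c2)

include Z in
include Z in
theorem le_sw {x y : X.W} : B.toKL.Le (σ x) (σ y) ↔ B.toKL.Le x y := by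
  obtain ⟨e, he⟩ := sw_gen Z.sw Z.P.two
  obtain ⟨f, f1, f2⟩ := B.toKL.exists_aut σ e he fun _ => rfl
  exact F.L3.le_iff B.toKL B.toKL (φ := RingHom.id _) (fun _ _ h => h) σ (j := f.toRingHom)
    (map_smul f) f1 f2 x y

include Z in
include Z in
theorem fam_sw (z : X.W) (χ : X.W → ℂ) : B.toKL.Fam (σ z) χ ↔ B.toKL.Fam z (χ ∘ σ) := by
  obtain ⟨e, he⟩ := sw_gen Z.sw Z.P.two
  exact B.toKL.fam_aut σ e he (fun _ => rfl) z χ

theorem blk_S (z : X.W) (e : B.E.H) : B.Blk (σ z) (Z.S e) ↔ B.Blk z e := by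
  have key : ∀ z e, B.Blk z e ↔ ∀ x y, B.toKL.Sim x z → B.toKL.Sim y z →
      B.CK.repr (e * B.CK y) x = if x = y then 1 else 0 := fun z e => by
    have e1 : ∀ x y : B.toKL.cell z, (1 : Matrix (B.toKL.cell z) (B.toKL.cell z) (KK Γ)) x y =
        if x.1 = y.1 then 1 else 0 := fun x y => by
      rw [Matrix.one_apply]
      exact if_congr Subtype.ext_iff rfl rfl
    exact ⟨fun k x y hx hy => (congrFun (congrFun k ⟨x, B.toKL.mem_cell.2 hx⟩)
      ⟨y, B.toKL.mem_cell.2 hy⟩).trans (e1 _ _), fun k => Matrix.ext fun x y =>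
        (k x y (B.toKL.mem_cell.1 x.2) (B.toKL.mem_cell.1 y.2)).trans (e1 x y).symm⟩
  have sim : ∀ x, B.toKL.Sim (σ x) (σ z) ↔ B.toKL.Sim x z := fun x => and_congr Z.le_sw Z.le_sw
  rw [key, key]
  have e2 : ∀ x y, B.CK.repr (Z.S e * B.CK (σ y)) (σ x) = B.CK.repr (e * B.CK y) x := fun x y => by
    rw [← Z.S_CK, ← map_mul, Z.repr_S]
  constructor
  · intro k x y hx hy
    rw [← e2, k _ _ ((sim x).2 hx) ((sim y).2 hy)]
    exact if_congr σ.injective.eq_iff rfl rfl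
  · intro k x y hx hy
    obtain ⟨x, rfl⟩ := σ.surjective x
    obtain ⟨y, rfl⟩ := σ.surjective y
    rw [e2, k _ _ ((sim x).1 hx) ((sim y).1 hy)]
    exact if_congr σ.injective.eq_iff.symm rfl rfl

theorem eig_S {κ : B.E.H} {x : X.W} {ν : KK Γ} (h : B.Eig κ x ν) : B.Eig (Z.S κ) (σ x) ν := by
  obtain ⟨U, U', h1, h2, h3, h4, h5⟩ := h
  have mem : ∀ {V : Set X.W} {b : B.E.H}, b ∈ B.spK V → Z.S b ∈ B.spK (σ '' V) := fun hb =>
    B.mem_spK.2 fun w hw => by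
      obtain ⟨w, rfl⟩ := σ.surjective w
      rw [Z.repr_S] at hw
      exact ⟨w, B.mem_spK.1 hb w hw, rfl⟩
  have low : ∀ {V : Set X.W}, B.LLow V → B.LLow (σ '' V) := fun hV => by
    rintro _ ⟨u, hu, rfl⟩ b
    rw [← Z.S_S b, ← Z.S_CK, ← map_mul]
    exact mem (hV u hu _)
  refine ⟨σ '' U, σ '' U', low h1, low h2, ⟨x, h3, rfl⟩, fun ⟨y, hy, e⟩ => h4 (σ.injective e ▸ hy),
    ?_⟩
  rintro _ ⟨u, hu, rfl⟩
  rw [← Z.S_CK, ← map_mul, ← map_smul, ← map_sub]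
  exact mem (h5 u hu)

theorem lead_J {lam : Γ →+ ℂ} {h : B.H} {h' : Z.BY.H} (e : Z.J (B.j h) = Z.BY.j h') {j : ℕ}
    {c : MonoidAlgebra ℂ X.W} {c' : MonoidAlgebra ℂ Z.Y.W} (hl : Lead lam Z.BY.toKL j h' c')
    (hc : ∀ w, c.coeff w = c'.coeff (Z.P.ι w)) : Lead lam B.toKL j h c := fun w => by
  have : B.T.repr h w = Z.BY.T.repr h' (Z.P.ι w) := IsFractionRing.injective (GA Γ) (KK Γ) (by
    rw [← B.co_j, ← Z.BY.co_j, ← e, Z.co_J])
  rw [this, hc]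
  exact hl _

end DJ

end

end Pool.Agent.P.MP_1a0ecf_al.K
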