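import Pool.Agent.P.MP_1a0ecf_al.K.D2
import Pool.Agent.P.MP_1a0ecf_al.K.AB

/-! Package D3: classes of cells in type D. -/

namespace Pool.Agent.P.MP_1a0ecf_al.K

open Sn
open scoped Classical

set_option linter.unusedSectionVars false

noncomputable section

variable {X : F.Cox} {Γ : Type} [AddCommGroup Γ] [LinearOrder Γ] [IsOrderedAddMonoid Γ]
  {σ : X.W ≃* X.W} {a : Γ} {B : KB X Γ fun _ => a}


namespace DJ

variable (Z : DJ X σ a B)

theorem exists_pre (k : ℕ) {U : List Box → Prop}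
    (hU : ∀ s u : List Box, Cl (dd a 0) s u → U s → U u) : ∃ e, Z.J e = Z.t.toTw.eU k U := by
  refine Z.exists_J ?_
  have h (s : List Box) : Cl (dd a 0) s (s.map br) := by
    rw [Cl, List.map_map]
    refine List.Perm.of_eq (List.map_congr_left fun x _ => ?_)
    simp [dd, br]
  rw [Z.th.eU]
  exact Z.t.toTw.eU_congr fun s _ => ⟨hU _ _ (h s).symm, hU _ _ (h s)⟩

theorem idem_pre {k : ℕ} {U : List Box → Prop} {e : B.E.H} (he : Z.J e = Z.t.toTw.eU k U) :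
    e * e = e := Z.J_inj (by
  rw [map_mul, he, Z.t.toTw.eU_mul]
  exact Z.t.toTw.eU_congr fun s _ => and_self_iff)

theorem CI_pre {e : B.E.H} (h : CI (Z.J e)) : CI e :=
  ⟨fun b => Z.J_inj (by rw [map_mul, map_mul, h.1]), Z.J_inj (by rw [map_mul, h.2])⟩

theorem CI_cls (s : List Box) : CI (Z.t.cls s) :=
  Z.t.CI_eU fun _ _ h h' => (Cl.of_perm _ h.symm).trans h'

theorem cls_pre (s : List Box) : ∃ e, Z.J e = Z.t.cls s :=
  Z.exists_pre _ fun _ _ h h' => h.symm.trans h'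

theorem eU_zero {k : ℕ} {U : List Box → Prop} (h : ∀ s ∈ tabs Z.t.lv k, ¬ U s) :
    Z.t.toTw.eU k U = 0 := by
  rw [Tw.eU, Finset.filter_false_of_mem h, Finset.sum_empty]

theorem tabs_eq : tabs Z.t.lv Z.t.n = tabs true X.n := by rw [Z.isB.lv, Z.n_eq]

theorem crd_pre {k : ℕ} (hk : k ≤ X.n) {U : List Box → Prop} (h : Up (om a 0) U)
    (hU : ∀ s u : List Box, Cl (dd a 0) s u → U s → U u) {e : B.E.H}
    (he : Z.J e = Z.t.toTw.eU k U) : B.Crd (B.lid e) :=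
  Z.crd_J (Z.idem_pre he) (he ▸ Z.t.crd (Z.n_eq ▸ hk) h hU)

theorem blk_or {s : List Box} {e : B.E.H} (he : Z.J e = Z.t.cls s) (z : X.W) :
    B.Blk z e ∨ B.lmK (B.toKL.cell z) e = 0 := by
  have h1 : ∀ u u' : List Box, Cl (dd a 0) u u' → (om a 0 s < om a 0 u ∨ Cl (dd a 0) u s) →
      om a 0 s < om a 0 u' ∨ Cl (dd a 0) u' s := fun u u' h h' =>
    h'.imp (fun e => h.om ▸ e) fun e => h.symm.trans e
  have h2 : ∀ u u' : List Box, Cl (dd a 0) u u' → om a 0 s < om a 0 u → om a 0 s < om a 0 u' :=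
    fun u u' h e => h.om ▸ e
  obtain ⟨e1, k1⟩ := Z.exists_pre Z.t.n h1
  obtain ⟨e2, k2⟩ := Z.exists_pre Z.t.n h2
  refine B.blk_or (e := e1) (e' := e2)
    (Z.CI_pre (k1 ▸ Z.t.CI_eU fun u u' h => h1 u u' (Cl.of_perm _ h)))
    (Z.CI_pre (k2 ▸ Z.t.CI_eU fun u u' h => h2 u u' (Cl.of_perm _ h)))
    (Z.crd_pre Z.n_eq.le (up_ge a 0 s) h1 k1) (Z.crd_pre Z.n_eq.le (up_gt a 0 _) h2 k2)
    (Z.J_inj ?_) (Z.idem_pre he) z
  rw [map_add, k1, k2, he]
  exact Z.t.eU_ge _ s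

/-- `1` is a finite sum of preimages of different `cls s` -/
theorem exists_cls (z : X.W) : ∃ s, Z.Cls z s := by
  by_contra hc
  have key (T : Finset (List Box)) (hT : T ⊆ tabs true X.n) : ∃ e,
      Z.J e = Z.t.toTw.eU Z.t.n (fun u => ∀ s ∈ T, ¬ Cl (dd a 0) u s) ∧ B.Blk z e := by
    induction T using Finset.induction_on with
    | empty =>
      refine ⟨1, ?_, B.lmK_one _⟩
      rw [map_one, ← Z.t.toTw.eU_top le_rfl]
      exact Z.t.toTw.eU_congr fun s _ => by simp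
    | insert s T _ ih =>
      obtain ⟨e, h1, h2⟩ := ih ((Finset.subset_insert _ _).trans hT)
      obtain ⟨d, hd⟩ := Z.cls_pre s
      have h0 := (Z.blk_or hd z).resolve_left fun h =>
        hc ⟨s, hT (Finset.mem_insert_self _ _), d, hd, h⟩
      refine ⟨e - e * d, ?_, ?_⟩
      · rw [map_sub, map_mul, h1, hd, KT.cls, Z.t.toTw.eU_mul, sub_eq_iff_eq_add,
          ← Z.t.toTw.eU_or _ fun u _ h h' => h s (Finset.mem_insert_self _ _) h'.2]
        refine Z.t.toTw.eU_congr fun u _ => ?_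
        simp only [Finset.forall_mem_insert]
        tauto
      · rw [KB.Blk, B.lmK_sub, B.lmK_mul (B.toKL.cvx_cell z), h0, mul_zero, sub_zero]
        exact h2
  obtain ⟨e, h1, h2⟩ := key _ subset_rfl
  have : e = 0 := Z.J_inj (by
    rw [h1, map_zero]
    exact Z.eU_zero fun u hu h => h u (Z.tabs_eq ▸ hu) (Cl.refl _ u))
  exact h2.ne (this ▸ B.lmK_zero _)

theorem S_fix {e : B.E.H} (h : ∀ b, Z.J e * b = b * Z.J e) : Z.S e = e := Z.J_inj (by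
  rw [Z.J_S, mul_assoc, h, ← mul_assoc, Z.X0_sq, one_mul])

theorem cent_S {e : B.E.H} (h : ∀ b, e * b = b * e) (b : B.E.H) : Z.S e * b = b * Z.S e := by
  rw [← Z.S_S b, ← map_mul, ← map_mul, h]

theorem CI_S {e : B.E.H} (h : CI e) : CI (Z.S e) := ⟨Z.cent_S h.1, by rw [← map_mul, h.2]⟩

theorem lid_S {e : B.E.H} {Y : Set X.W} (h : CI e) (hl : B.lid e = B.spK Y) :
    B.lid (Z.S e) = B.spK {x | σ x ∈ Y} := by
  ext b
  have e1 : b * Z.S e = b ↔ Z.S b * e = Z.S b :=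
    ⟨fun k => by rw [← Z.S_S e, ← map_mul, k], fun k => by rw [← Z.S_S b, ← map_mul, k]⟩
  rw [B.mem_lid (Z.CI_S h).2, e1, ← B.mem_lid h.2, hl, B.mem_spK, B.mem_spK]
  refine ⟨fun k w hw => k _ (by rwa [Z.repr_S]), fun k w hw => ?_⟩
  rw [← sw_sw Z.sw w] at hw ⊢
  rw [Z.repr_S] at hw
  exact k _ hw

include Z in
theorem le_sw' {x y : X.W} : B.toKL.Le (σ x) y ↔ B.toKL.Le x (σ y) := by
  rw [← Z.le_sw, sw_sw Z.sw]

variable {Z}

theorem Cls.congr {z : X.W} {s u : List Box} (h : Z.Cls z s) (hu : u ∈ tabs true X.n)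
    (hc : Cl (dd a 0) s u) : Z.Cls z u := ⟨hu, Z.t.cls_congr hc ▸ h.2⟩

theorem Cls.unique {z : X.W} {s u : List Box} (h : Z.Cls z s) (h' : Z.Cls z u) :
    Cl (dd a 0) s u := by
  obtain ⟨-, e, h1, h2⟩ := h
  obtain ⟨-, e', h3, h4⟩ := h'
  by_contra hc
  have : e * e' = 0 := Z.J_inj (by
    rw [map_mul, h1, h3, KT.cls, KT.cls, Z.t.toTw.eU_mul, map_zero]
    exact Z.eU_zero fun v _ k => hc (k.1.symm.trans k.2))
  refine h2.ne ?_
  rw [← B.lmK_zero, ← this, B.lmK_mul (B.toKL.cvx_cell z), show B.lmK _ e' = 1 from h4, mul_one]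

theorem Cls.sim {y z : X.W} {s : List Box} (h : Z.Cls z s) (h' : B.toKL.Sim y z) : Z.Cls y s :=
  ⟨h.1, h.2.imp fun e k => ⟨k.1, (B.blk_congr h' e).2 k.2⟩⟩

theorem Cls.sw {z : X.W} {s : List Box} (h : Z.Cls z s) : Z.Cls (σ z) s := by
  obtain ⟨hs, e, h1, h2⟩ := h
  refine ⟨hs, e, h1, ?_⟩
  rw [← Z.S_fix (e := e) (h1 ▸ (Z.CI_cls s).1)]
  exact (Z.blk_S z e).2 h2

theorem Cls.le_or {y z : X.W} {s : List Box} (hy : Z.Cls y s) (hz : Z.Cls z s) :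
    B.toKL.Le y z ∨ B.toKL.Le y (σ z) := by
  obtain ⟨-, e, h1, h2⟩ := hy
  obtain ⟨-, e0, h3, h4⟩ := hz
  obtain rfl : e0 = e := Z.J_inj (h3.trans h1.symm)
  obtain ⟨e', k1, k2, k3⟩ := B.cell_idem (Y := {x | B.toKL.Le x z ∨ B.toKL.Le x (σ z)})
    fun x y h h' => h'.imp h.trans h.trans
  have hS : Z.S e' = e' := B.CI_unique (Z.CI_S k1) k1 (by
    rw [Z.lid_S k1 k3, k3]
    congr 1
    ext x
    simp only [Set.mem_ofPred_eq, Z.le_sw', sw_sw Z.sw]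
    exact or_comm)
  have hC : CI (Z.J e') := ⟨Z.cent_J k1.1 hS, by rw [← map_mul, k1.2]⟩
  rcases Z.t.prim s _ hC (Z.in_J.2 k2) with h | h
  · have h0 : e' * e0 = 0 := Z.J_inj (by rw [map_mul, h1, h, map_zero])
    have hb := B.blk_of_mem k1 k3 (z := z) (Or.inl (B.toKL.le_refl z))
    refine absurd ?_ h4.ne
    rw [← B.lmK_zero, ← h0, B.lmK_mul (B.toKL.cvx_cell z), show B.lmK _ e' = 1 from hb, one_mul]
  · exact B.le_of_blk k1 k3 (Z.J_inj (by rw [map_mul, h1, h])) h2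

/-- The idempotent `e'` of the lower set `{x | Le x z ∨ Le x (σ z)}` is fixed by `S` (`CI_unique`),
so `J e'` is central and integral, and `KT.prim` gives `e' * e = e`. Hence `y ≤ z` or `y ≤ σ z`, and
symmetrically. -/
theorem Cls.sim_or {y z : X.W} {s : List Box} (hy : Z.Cls y s) (hz : Z.Cls z s) :
    B.toKL.Sim y z ∨ B.toKL.Sim y (σ z) := by
  rcases hy.le_or hz with h | h <;> rcases hz.le_or hy with h' | h'
  · exact Or.inl ⟨h, h'⟩
  · exact Or.inl ⟨h, (h'.trans (Z.le_sw.2 h)).trans (Z.le_sw'.2 h')⟩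
  · exact Or.inr ⟨h, ((Z.le_sw.2 h').trans (Z.le_sw'.2 h)).trans h'⟩
  · exact Or.inr ⟨h, Z.le_sw'.2 h'⟩

/-- central elements fixed by `S` act by scalars on a very even class -/
theorem Cls.scalar {z : X.W} {s : List Box} (h : Z.Cls z s) (hv : VE a X.n s) {η : B.E.H}
    (h1 : ∀ b, η * b = b * η) (h2 : Z.S η = η) :
    ∃ c : KK Γ, B.lmK (B.toKL.cell z) η = c • 1 := by
  obtain ⟨hs, e, k1, k2⟩ := h
  obtain ⟨c, hc⟩ := Z.t.toTw.cent_block (Z.cent_J h1 h2) s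
  have e1 : Z.t.cls s = Z.t.toTw.eU Z.t.n fun u => u.Perm s :=
    Z.t.toTw.eU_congr fun u hu => ⟨fun k => ve_perm (hv u (Z.tabs_eq ▸ hu) k)
      (hv s hs (Cl.refl _ s)) ((Cl.congr fun x y => dd_eq_rs (k := 0) Z.t.ha (by simp)).1 k),
      Cl.of_perm _⟩
  have e2 : η * e = c • e := Z.J_inj (by rw [map_mul, map_smul, k1, e1, hc])
  refine ⟨c, ?_⟩
  have := congrArg (B.lmK (B.toKL.cell z)) e2
  rwa [B.lmK_mul (B.toKL.cvx_cell z), B.lmK_smul, show B.lmK _ e = 1 from k2, mul_one] at this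

/-- Let `c` be the difference of the idempotents of `{x ≤ z}` and `{x ≤ z, ¬ z ≤ x}`, `κ = c - S c`;
it acts as the identity on the cell of `z`. For central `ζ` the elements `ζ + S ζ` and
`(ζ - S ζ) * κ` are central and fixed by `S`, so they act by scalars (`cent_J`, `cent_block`,
`ve_perm`). -/
theorem Cls.single {z : X.W} {s : List Box} (h : Z.Cls z s) (hv : VE a X.n s)
    (hn : ¬ B.toKL.Sim z (σ z)) {χ χ' : X.W → ℂ} (hχ : IsIrr χ) (hχ' : IsIrr χ')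
    (h1 : B.toKL.Fam z χ) (h2 : B.toKL.Fam z χ') : χ = χ' := by
  refine fam_single (fun b hb => ?_) hχ hχ' h1 h2
  obtain ⟨e, k1, -, k3⟩ := B.cell_idem (Y := {x | B.toKL.Le x z}) fun x y h h' => h.trans h'
  have l1 : B.lmK (B.toKL.cell z) e = 1 := B.blk_of_mem k1 k3 (B.toKL.le_refl z)
  have l2 : B.lmK (B.toKL.cell z) (Z.S e) = 0 := B.lmK_of_notMem (Z.CI_S k1) (Z.lid_S k1 k3)
    fun k => hn ⟨Z.le_sw'.1 k, k⟩
  have hζ (g : B.E.H) : B.j b * g = g * B.j b := by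
    obtain ⟨c, hc, g', hg⟩ := B.exists_den g
    refine smul_right_injective _ hc ?_
    simp only
    rw [← mul_smul_comm, ← smul_mul_assoc, ← hg, ← map_mul, ← map_mul, hb]
  generalize hj : B.j b = ζ at hζ
  have hζ' := Z.cent_S hζ
  have he' := Z.cent_S k1.1
  obtain ⟨c1, e1⟩ := h.scalar hv (η := ζ + Z.S ζ)
    (fun g => by rw [add_mul, mul_add, hζ, hζ']) (by rw [map_add, Z.S_S, add_comm])
  obtain ⟨c2, e2⟩ := h.scalar hv (η := (ζ - Z.S ζ) * (e - Z.S e))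
    (fun g => by
      have m1 : (ζ - Z.S ζ) * g = g * (ζ - Z.S ζ) := by rw [sub_mul, mul_sub, hζ, hζ']
      have m2 : (e - Z.S e) * g = g * (e - Z.S e) := by rw [sub_mul, mul_sub, k1.1, he']
      rw [mul_assoc, m2, ← mul_assoc, m1, mul_assoc])
    (by rw [map_mul, map_sub, map_sub, Z.S_S, Z.S_S, ← neg_sub ζ, ← neg_sub e, neg_mul_neg])
  rw [B.lmK_mul (B.toKL.cvx_cell z), B.lmK_sub _ e, l1, l2, sub_zero, mul_one, B.lmK_sub] at e2
  rw [B.lmK_add] at e1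
  refine B.lm_scalar' (c := (2 : KK Γ)⁻¹ * (c1 + c2)) ?_
  rw [hj, mul_smul, add_smul, ← e1, ← e2, add_add_sub_cancel, ← two_smul (KK Γ), smul_smul,
    inv_mul_cancel₀ two_ne_zero, one_smul]

end DJ

/-- `pow_cls`, `lead_XB`, `lead_J`, `map_uD` -/
theorem DJ.Cls.chx {a : ℝ} {B : KB X ℝ fun _ => a} {Z : DJ X σ a B} {z : X.W} {s : List Box}
    (h : Z.Cls z s) {χ : X.W → ℂ} (hχ : IsIrr χ) (hz : B.toKL.Fam z χ) (j : ℕ) :
    chx χ (∑ i ∈ Finset.range X.n, X.uD a i ^ j) =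
      (s.map fun x => ((dd a 0 x : ℝ) : ℂ) ^ j).sum * χ 1 := by
  obtain ⟨-, e, k1, k2⟩ := h
  obtain ⟨r, hr, hs⟩ := pow_cls Z.t j s
  have e1 : Z.BY.j (∑ k ∈ Finset.range X.n, (XB Z.BY.toKL k * XB Z.BY.toKL k - 1) ^ j) =
      ∑ k ∈ Finset.range Z.t.n, (Z.t.toTw.X k * Z.t.toTw.X k - 1) ^ j := by
    simp only [map_sum, map_pow, map_sub, map_mul, map_one, j_XB Z.isB, Z.n_eq]
  obtain ⟨g, hg⟩ := Z.exists_J
      (h := ∑ k ∈ Finset.range Z.t.n, (Z.t.toTw.X k * Z.t.toTw.X k - 1) ^ j) (by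
    simp only [map_sum, map_pow, map_sub, map_mul, map_one, Z.th.X, neg_mul_neg])
  obtain ⟨g0, rfl⟩ := B.exists_j (h := g) (Z.in_J.1 (by rw [hg, ← e1]; exact Z.BY.in_j _))
  have l1 : Lead Complex.ofRealHom.toAddMonoidHom Z.BY.toKL j
      (∑ k ∈ Finset.range X.n, (XB Z.BY.toKL k * XB Z.BY.toKL k - 1) ^ j)
      (∑ k ∈ Finset.range X.n, ((2 : ℂ) • Z.Y.uB a 0 k) ^ j) := Lead.sum _ fun k hk => by
    have := (lead_XB Z.isB (k := k) (Z.P.n ▸ Finset.mem_range.1 hk)).pow j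
    rwa [one_mul, Complex.ofReal_zero] at this
  have l2 : Lead Complex.ofRealHom.toAddMonoidHom B.toKL j g0
      (∑ k ∈ Finset.range X.n, ((2 : ℂ) • X.uD a k) ^ j) := by
    refine Z.lead_J (hg.trans e1.symm) l1 fun w => ?_
    have : ∑ k ∈ Finset.range X.n, ((2 : ℂ) • Z.Y.uB a 0 k) ^ j =
        MonoidAlgebra.mapDomainAlgHom ℂ ℂ Z.P.ι
          (∑ k ∈ Finset.range X.n, ((2 : ℂ) • X.uD a k) ^ j) := by
      rw [map_sum]
      refine Finset.sum_congr rfl fun k hk => ?_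
      rw [map_pow, map_smul, ← Z.P.map_uD a (Finset.mem_range.1 hk)]
      rfl
    rw [this]
    exact (Finsupp.mapDomain_apply Z.P.inj _ w).symm
  have l3 := B.lm_scalar k2 (a := g0) (r := r) (Z.J_inj (by
    rw [map_mul, map_smul, hg, k1, hs]))
  have := l2.chx hr l3 hχ hz
  simp only [smul_pow, ← Finset.smul_sum, map_smul, smul_eq_mul, mul_assoc] at this
  exact mul_left_cancel₀ (pow_ne_zero j two_ne_zero) this

end

end Pool.Agent.P.MP_1a0ecf_al.K
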