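import Pool.Agent.P.MP_1a0ecf_al.K.D3

/-! Package D4: families without stable characters are very even. -/

namespace Pool.Agent.P.MP_1a0ecf_al.K

open Sn
open scoped Classical

set_option linter.unusedSectionVars false

noncomputable section

variable {X : F.Cox} {σ : X.W ≃* X.W}

theorem d4_irr (σ : X.W ≃* X.W) {χ : X.W → ℂ} (h : IsIrr χ) : IsIrr (χ ∘ σ) := by
  refine (h.isCh.comp σ.toMonoidHom).vc.isIrr ?_ ?_
  · have e := h.ip_eq h
    rw [if_pos rfl] at e
    rw [← e, ip, ip]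
    congr 1
    exact Fintype.sum_equiv σ.toEquiv _ _ fun w => by simp
  · obtain ⟨m, h1, h2⟩ := h.one
    simp only [Function.comp, map_one, h2]
    exact_mod_cast h1

/-- `idem χ * c = c * idem (χ ∘ σ)` up to inverses, and different `idem` are orthogonal -/
theorem idem_twist (hσ : ∀ w, σ (σ w) = w) {c : MonoidAlgebra ℂ X.W}
    (h : ∀ w, c * X.gA (σ w) = X.gA w * c) {χ : X.W → ℂ} (hχ : IsIrr χ) (hn : χ ∘ σ ≠ χ) :
    idem χ * c = 0 := by
  have h1 : idem χ * c = c * idem (χ ∘ σ) := by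
    simp only [idem, smul_mul_assoc, mul_smul_comm, Finset.sum_mul, Finset.mul_sum,
      Function.comp, map_one]
    congr 1
    refine Fintype.sum_equiv σ.toEquiv _ _ fun w => ?_
    rw [← h]
    simp [hσ]
  have h2 := d4_irr σ hχ
  have h3 : idem χ * idem (χ ∘ σ) = 0 := by
    rw [h2.center_mul_idem hχ.idem_center, chx_idem, h2.ip_eq hχ, if_neg hn, mul_zero, zero_div,
      zero_smul]
  rw [← hχ.idem_mul_idem, mul_assoc, h1, ← mul_assoc,
    ← Subalgebra.mem_center_iff.1 hχ.idem_center c, mul_assoc, h3, mul_zero]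

theorem d4_unique {L : Fin X.n → ℝ} {D : F.KL X ℝ L} {lam : ℝ →+ ℂ} {j : ℕ} {h : D.H}
    {c c' : MonoidAlgebra ℂ X.W} (e : Lead lam D j h c) (e' : Lead lam D j h c') : c = c' :=
  MonoidAlgebra.coeff_injective (Finsupp.ext fun w => (e w).unique (e' w))

theorem d4_cl {a : ℝ} (s : List Box) : Cl (dd a 0) (s.map br) s := by
  rw [Cl, List.map_map]
  refine List.Perm.of_eq (List.map_congr_left fun x _ => ?_)
  simp [dd, br]

theorem d4_br (s : List Box) : (s.map br).map br = s := by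
  rw [List.map_map]
  exact (List.map_congr_left fun x _ => br_br x).trans (List.map_id s)

theorem d4_det {ι : Type} [Fintype ι] [d : DecidableEq ι] {lam : ℝ →+ ℂ} {j : ℕ} {r : F.ZG ℝ}
    {c : ℂ} {M : Matrix ι ι (F.ZG ℝ)} (hr : lead lam j r c) (hM : ∀ x y, lead lam j (M x y) 0)
    (h : (r • (1 : Matrix ι ι (F.ZG ℝ)) - M).det = 0) : c = 0 := by
  obtain rfl : d = fun a b => Classical.propDecidable (a = b) := Subsingleton.elim _ _
  exact lead_det hr hM h

/-- the odd power sums -/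
def d4f (j : ℕ) : Polynomial (KK ℝ) := Polynomial.X * (Polynomial.X * Polynomial.X - 1) ^ j

/-- the eigenvalue of the odd power sums -/
def d4r (a : ℝ) (j : ℕ) (u : List Box) : GA ℝ := (u.map fun x =>
  ((if x.1 = true then 1 else -1 : F.ZG ℝ) * (F.vU (dd a 0 x) : F.ZG ℝ)) *
    ((F.vU (dd a 0 x + dd a 0 x) : F.ZG ℝ) - (F.vU (0 : ℝ) : F.ZG ℝ)) ^ j).sum

theorem d4_lead (a : ℝ) (j : ℕ) (u : List Box) :
    lead Complex.ofRealHom.toAddMonoidHom j (d4r a j u)
      (u.map fun x => (if x.1 = true then 1 else -1) * ((4 * a : ℂ) * x.2) ^ j).sum := by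
  refine lead.list u fun x _ => ?_
  have h := (lead_zero (lam := Complex.ofRealHom.toAddMonoidHom)
    ((if x.1 = true then 1 else -1 : F.ZG ℝ) * (F.vU (dd a 0 x) : F.ZG ℝ))).mul
    ((lead_vU (lam := Complex.ofRealHom.toAddMonoidHom) (dd a 0 x + dd a 0 x) 0).pow j)
  rw [one_mul, zero_add] at h
  convert h using 2
  · rw [map_mul, F.spc_vU, mul_one]
    split_ifs <;> simp
  · congr 1
    simp [dd]
    ring

theorem d4_eval {a : ℝ} {B : KB X ℝ fun _ => a} (Z : DJ X σ a B) (j : ℕ) (u : List Box) :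
    (u.map fun x => (d4f j).eval (Z.t.toTw.ξ x)).sum = algebraMap (GA ℝ) (KK ℝ) (d4r a j u) := by
  rw [d4r, map_list_sum, List.map_map]
  refine congrArg List.sum (List.map_congr_left fun x _ => ?_)
  rw [Tw.ξ, Z.t.hQ, Z.t.hq, xi_mK]
  simp only [d4f, Function.comp, map_mul, map_pow, map_sub, alg_vU, Polynomial.eval_mul,
    Polynomial.eval_pow, Polynomial.eval_sub, Polynomial.eval_X, Polynomial.eval_one,
    mK_add, mK_zero, Units.val_mul, Units.val_one]
  split_ifs <;> simp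

theorem d4_odd {a : ℝ} {B : KB X ℝ fun _ => a} (Z : DJ X σ a B) (j : ℕ) (u : List Box) :
    ((u.map br).map fun x => (d4f j).eval (Z.t.toTw.ξ x)).sum =
      -(u.map fun x => (d4f j).eval (Z.t.toTw.ξ x)).sum := by
  induction u with
  | nil => simp
  | cons x u ih =>
    rw [List.map_cons, List.map_cons, List.map_cons, List.sum_cons, List.sum_cons, ih, Z.th.xi]
    simp only [d4f, Polynomial.eval_mul, Polynomial.eval_pow, Polynomial.eval_sub,
      Polynomial.eval_X, Polynomial.eval_one, neg_mul_neg]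
    ring

/-- the twisted element -/
theorem d4_elt {a : ℝ} {B : KB X ℝ fun _ => a} (Z : DJ X σ a B) (j : ℕ) :
    ∃ (c : B.H) (γ : MonoidAlgebra ℂ X.W), Lead Complex.ofRealHom.toAddMonoidHom B.toKL j c γ ∧
      (∀ w, γ * X.gA (σ w) = X.gA w * γ) ∧ Z.J (B.j (c * c)) =
        (∑ k ∈ Finset.range Z.t.n, Polynomial.aeval (Z.t.toTw.X k) (d4f j)) *
          ∑ k ∈ Finset.range Z.t.n, Polynomial.aeval (Z.t.toTw.X k) (d4f j) := by
  have hc := Z.t.toTw.aeval_sum_cent (d4f j)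
  have hθ : Z.θ (∑ k ∈ Finset.range Z.t.n, Polynomial.aeval (Z.t.toTw.X k) (d4f j)) =
      -∑ k ∈ Finset.range Z.t.n, Polynomial.aeval (Z.t.toTw.X k) (d4f j) := by
    simp only [d4f, map_sum, map_pow, map_sub, map_mul, map_one, Z.th.X, Polynomial.aeval_X,
      neg_mul, mul_neg, neg_neg, Finset.sum_neg_distrib]
  have e1 : Z.BY.j ((∑ k ∈ Finset.range X.n,
      XB Z.BY.toKL k * (XB Z.BY.toKL k * XB Z.BY.toKL k - 1) ^ j) * Z.BY.T (Z.Y.sN 0)) =
      (∑ k ∈ Finset.range Z.t.n, Polynomial.aeval (Z.t.toTw.X k) (d4f j)) * Z.t.X0 := by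
    simp only [d4f, map_sum, map_pow, map_sub, map_mul, map_one, j_XB Z.isB, Z.n_eq,
      Polynomial.aeval_X, Z.BY.j_T, Z.isB.X0]
  generalize ∑ k ∈ Finset.range Z.t.n, Polynomial.aeval (Z.t.toTw.X k) (d4f j) = W at *
  obtain ⟨g, hg⟩ := Z.exists_J (h := W * Z.t.X0) (by rw [map_mul, hθ, Z.th.X0, neg_mul_neg])
  obtain ⟨c, rfl⟩ := B.exists_j (h := g) (Z.in_J.1 (by rw [hg, ← e1]; exact Z.BY.in_j _))
  have l1 : Lead Complex.ofRealHom.toAddMonoidHom Z.BY.toKL j
      (∑ k ∈ Finset.range X.n, XB Z.BY.toKL k * (XB Z.BY.toKL k * XB Z.BY.toKL k - 1) ^ j)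
      (∑ k ∈ Finset.range X.n, Z.Y.gA (Z.Y.tB k) * ((2 : ℂ) • Z.Y.uB a 0 k) ^ j) :=
    Lead.sum _ fun k hk => by
      have := (lead_XB0 Z.BY.toKL k).mul
        ((lead_XB Z.isB (k := k) (Z.P.n ▸ Finset.mem_range.1 hk)).pow j)
      rwa [one_mul, Complex.ofReal_zero, zero_add] at this
  have l2 := l1.mul (Lead.T (Z.Y.sN 0))
  rw [add_zero] at l2
  generalize (∑ k ∈ Finset.range X.n, Z.Y.gA (Z.Y.tB k) * ((2 : ℂ) • Z.Y.uB a 0 k) ^ j) *
    Z.Y.gA (Z.Y.sN 0) = ω at l2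
  have l3 : Lead Complex.ofRealHom.toAddMonoidHom B.toKL j c (MonoidAlgebra.ofCoeff
      (Finsupp.equivFunOnFinite.symm fun w => ω.coeff (Z.P.ι w))) :=
    Z.lead_J (hg.trans e1.symm) l2 fun w => rfl
  refine ⟨c, _, l3, fun w => ?_, ?_⟩
  · have e2 : c * B.T (σ w) = B.T w * c := B.j_inj (Z.J_inj (by
      rw [map_mul, map_mul, map_mul, map_mul, hg, B.j_T, B.j_T, ← Z.S_T, Z.J_S, mul_assoc,
        ← mul_assoc Z.t.X0, ← mul_assoc Z.t.X0, Z.X0_sq, one_mul, ← mul_assoc, hc, mul_assoc]))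
    have k1 := l3.mul (Lead.T (σ w))
    have k2 := (Lead.T w).mul l3
    rw [add_zero, e2] at k1
    rw [zero_add] at k2
    exact d4_unique k1 k2
  · rw [map_mul, map_mul, hg, mul_assoc, ← mul_assoc Z.t.X0, ← hc, mul_assoc W, Z.X0_sq, mul_one]

/-- Fix `j`. `W = ∑ X k * (X k * X k - 1) ^ j` is central, `θ W = -W`; `W * X0 = J (j c)` with
`c * T (σ w) = T w * c`, `W * W = J (j (c * c))`, and `c` has a leading term of order `j`. If no
character of the family of `z` is stable, the leading term of `c * c` acts by zero on the cells of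
`z` and `σ z`. For `u` in the class let `J ε = eU n (· ~ u or · ~ u.map br)`; `ε ≠ 0` acts
nontrivially on one of the two cells, and `W * W` acts on `ε` by the square of a power sum. -/
theorem DJ.Cls.stab_or {a : ℝ} {B : KB X ℝ fun _ => a} {Z : DJ X σ a B} {z : X.W} {s : List Box}
    (h : Z.Cls z s) : (∃ χ, IsIrr χ ∧ χ ∘ σ = χ ∧ B.toKL.Fam z χ) ∨ VE a X.n s := by
  refine or_iff_not_imp_left.2 fun hn u hu hus => ?_
  have ha : (4 * a : ℂ) ≠ 0 := mul_ne_zero (by norm_num) (Complex.ofReal_ne_zero.2 Z.t.ha.ne')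
  refine br_of_psum ha fun j => ?_
  obtain ⟨c, γ, l1, l2, l3⟩ := d4_elt Z j
  obtain ⟨ε, hε⟩ := Z.exists_J
      (h := Z.t.toTw.eU Z.t.n fun v => v.Perm u ∨ v.Perm (u.map br)) (by
    rw [Z.th.eU]
    refine Z.t.toTw.eU_congr fun v _ => ⟨fun k => ?_, fun k => ?_⟩
    · refine k.symm.imp (fun k => ?_) fun k => ?_
      · simpa only [d4_br] using k.map br
      · simpa only [d4_br] using k.map br
    · refine k.symm.imp (fun k => ?_) fun k => k.map br
      simpa only [d4_br] using k.map br)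
  have hl : u.length = Z.t.n := (mem_tabs.1 hu).1.trans Z.n_eq.symm
  have h0 : ε ≠ 0 := fun k => by
    have := Z.t.toTw.eU_E (fun v => v.Perm u ∨ v.Perm (u.map br)) hl
    rw [← hε, k, map_zero, zero_mul, if_pos (Or.inl (List.Perm.refl u))] at this
    exact Z.t.toTw.E_ne (Z.isB.lv ▸ (mem_tabs.1 hu).2) hl.le this.symm
  obtain ⟨y, hy⟩ := not_forall.1 (mt (B.eq_zero_of_lmK (Z.idem_pre hε)) h0)
  obtain ⟨e, he⟩ := Z.cls_pre s
  have h1 : e * ε = ε := Z.J_inj (by
    rw [map_mul, he, hε, KT.cls, Z.t.toTw.eU_mul]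
    refine Z.t.toTw.eU_congr fun v _ => and_iff_right_of_imp fun k => ?_
    exact k.elim (fun k => (Cl.of_perm _ k).trans hus)
      fun k => (Cl.of_perm _ k).trans ((d4_cl u).trans hus))
  have h2 : Z.Cls y s := ⟨h.1, e, he, (Z.blk_or he y).resolve_right fun k => hy (by
    rw [← h1, B.lmK_mul (B.toKL.cvx_cell y), k, zero_mul])⟩
  have h3 : rho B.toKL (B.toKL.cell y) (γ * γ) = 0 := rho_eq_zero fun χ hχ k => by
    rw [← mul_assoc, idem_twist (sw_sw Z.sw) l2 hχ fun k' => hn ⟨χ, hχ, k', ?_⟩, zero_mul]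
    rcases h2.sim_or h with k2 | k2
    · rwa [F.KL.Fam, ← B.toKL.cell_eq k2]
    · rw [← k', ← Z.fam_sw]
      rwa [F.KL.Fam, ← B.toKL.cell_eq k2]
  have h4 : B.j (c * c) * ε = algebraMap (GA ℝ) (KK ℝ) (d4r a j u * d4r a j u) • ε :=
    Z.J_inj (by
      rw [map_mul, map_smul, l3, hε, Tw.eU, Finset.mul_sum, Finset.smul_sum]
      refine Finset.sum_congr rfl fun v hv => ?_
      simp only [Finset.mem_filter] at hv
      rw [mul_assoc, Z.t.toTw.aeval_sum_E _ (mem_tabs.1 hv.1).1, mul_smul_comm,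
        Z.t.toTw.aeval_sum_E _ (mem_tabs.1 hv.1).1, smul_smul, map_mul, ← d4_eval Z]
      rcases hv.2 with k | k
      · rw [(k.map _).sum_eq]
      · rw [(k.map _).sum_eq, d4_odd, neg_mul_neg])
  have h5 := B.det_eig (B.toKL.cvx_cell y) hy h4
  have h6 := (d4_lead a j u).mul (d4_lead a j u)
  refine mul_self_eq_zero.1 (d4_det h6 (fun x x' => ?_) h5)
  have := (l1.mul l1).lm (B.toKL.cell y) x x'
  rwa [h3] at this

end

end Pool.Agent.P.MP_1a0ecf_al.K
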