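import Pool.Agent.P.MP_1a0ecf_al.K.T3a

/-! Package T3: rows, low lists, supports. -/

namespace Pool.Agent.P.MP_1a0ecf_al.K

open Sn
open scoped Classical

set_option linter.unusedSectionVars false

noncomputable section

variable {Γ : Type} [AddCommGroup Γ] [LinearOrder Γ] [IsOrderedAddMonoid Γ]

variable {lv o : Bool} {l : List Box} {x z : Box}

/-- the number of entries in the component of `p` with content smaller than that of `p` -/
private def nb (l : List Box) (p : Box) : ℤ := (l.countP fun y => y.1 = p.1 ∧ y.2 < p.2 : ℕ)

private theorem nb_cons (y : Box) (l : List Box) (p : Box) :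
    nb (y :: l) p = nb l p + if y.1 = p.1 ∧ y.2 < p.2 then 1 else 0 := by
  unfold nb
  rw [List.countP_cons]
  simp

private theorem nb_up (l : List Box) (p : Box) :
    nb l (up p) = nb l p + Multiset.count p (l : Multiset Box) := by
  induction l with
  | nil => simp [nb]
  | cons y l ih =>
    rw [nb_cons, nb_cons, ih, ← Multiset.cons_coe, Multiset.count_cons]
    by_cases e : p = y
    · subst e
      simp [up]
      ring
    · have e' : y.1 = p.1 → y.2 ≠ p.2 := fun k k' => e (Prod.ext k k').symm
      rw [if_neg e, if_congr (P := _) (Q := y.1 = p.1 ∧ y.2 < p.2) ⟨fun k => ⟨k.1, by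
        have := e' k.1
        have := k.2
        simp only [up] at this
        omega⟩, fun k => ⟨k.1, by simp only [up]; omega⟩⟩ rfl rfl]
      simp only [add_zero]
      ring

private theorem nb_low (h : Std lv l) {p : Box} (hp : p.2 ≤ -(rows l p.1 : ℤ)) : nb l p = 0 := by
  unfold nb
  rw [List.countP_eq_zero.2, Nat.cast_zero]
  intro y hy k
  have h1 := lt_of_mem_t3 h hy
  rw [decide_eq_true_eq] at k
  rw [k.1] at h1
  omega

private theorem nb_nonneg (l : List Box) (p : Box) : 0 ≤ nb l p := Int.natCast_nonneg _

private theorem surv_rows {s u : List Box} (h : Surv s u) (hs : Std lv s) (hu : Std lv u) (i : Bool) :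
    rows s i ≤ rows u i := by
  induction h with
  | nil => exact le_rfl
  | @cons s u x z _ h1 h2 ih =>
    have h3 := ih (std_cons.1 hs).1 (std_cons.1 hu).1
    rw [rows_cons hs, rows_cons hu]
    by_cases e : x = low s i
    · have e1 : z.1 = i := by rw [← h1, e]; rfl
      rw [if_pos e]
      by_cases e' : z = low u i
      · rw [if_pos e']
        omega
      · have : rows s i ≠ rows u i := fun k => h2 (by rwa [e1]) (by rw [e, e1, low, low, k])
        omega
    · rw [if_neg e]
      omega

/-- below the newest box of a low list the counts dominate -/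
private theorem nb_head {s : List Box} (hs : Std lv s) (h : Std lv (z :: l)) (hl : Low o (z :: l))
    (hr : rows s z.1 ≤ rows (z :: l) z.1) {c : ℤ} (hc : c ≤ z.2) :
    nb s (z.1, c) ≤ nb (z :: l) (z.1, c) := by
  have hz : ok lv z := ok_of_mem h List.mem_cons_self
  have key : ∀ c, -(rows (z :: l) z.1 : ℤ) ≤ c → c < z.2 →
      bead lv (z :: l : List Box) (up (z.1, c)) = 0 ∧
      Multiset.count (z.1, c) (s : Multiset Box) ≤ Multiset.count (z.1, c) (z :: l : List Box) ∧
      nb s (z.1, c) ≤ nb (z :: l) (z.1, c) := by
    intro c h1
    induction c, h1 using Int.leInduction with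
    | base =>
      intro h2
      have h3 := low_head (x := low (z :: l) z.1) h hl rfl h2
      rw [if_pos rfl, aa, bead_low_t3 h le_rfl, if_pos (show ok lv (low (z :: l) z.1) from hz)] at h3
      refine ⟨by simp only [low] at h3; omega, ?_, ?_⟩
      · rw [cnt0_t3 (not_mem_low_t3 hs (by simp only; omega))]
        exact Nat.zero_le _
      · rw [nb_low hs (by simp only; omega)]
        exact nb_nonneg _ _
    | succ c h1 ih =>
      intro h2
      obtain ⟨i1, i2, i3⟩ := ih (by omega)
      have h3 := low_head (x := up (z.1, c)) h hl rfl h2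
      rw [if_neg fun k => by
        have := congrArg Prod.snd k
        simp only [up, low] at this
        omega, aa, i1] at h3
      have h4 := hs.bead01 (up (z.1, c))
      refine ⟨by simp only [up] at h3 ⊢; omega, ?_, ?_⟩
      · unfold bead at i1 h4
        rw [dn_up] at i1 h4
        simp only [up] at i1 h4
        omega
      · have j1 := nb_up s (z.1, c)
        have j2 := nb_up (z :: l) (z.1, c)
        simp only [up] at j1 j2
        omega
  by_cases e : c ≤ -(rows (z :: l) z.1 : ℤ)
  · rw [nb_low hs (by simp only; omega)]
    exact nb_nonneg _ _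
  · obtain ⟨-, i2, i3⟩ := key (c - 1) (by omega) (by omega)
    have j1 := nb_up s (z.1, c - 1)
    have j2 := nb_up (z :: l) (z.1, c - 1)
    simp only [up, sub_add_cancel] at j1 j2
    omega

private theorem surv_nb {s u : List Box} (h : Surv s u) (hs : Std lv s) (hu : Std lv u)
    (hl : Low o u) (p : Box) : nb s p ≤ nb u p := by
  induction h with
  | nil => exact le_rfl
  | @cons s u x z h0 h1 h2 ih =>
    have h3 := ih (std_cons.1 hs).1 (std_cons.1 hu).1 hl.tail
    by_cases e : z.1 = p.1 ∧ p.2 ≤ z.2
    · have := nb_head hs hu hl (surv_rows (h0.cons h1 h2) hs hu _) e.2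
      rwa [e.1] at this
    · rw [nb_cons, nb_cons, h1]
      split_ifs with c c' <;> first | omega | exact absurd ⟨c.1, not_lt.1 fun k => c' ⟨c.1, k⟩⟩ e

private theorem surv_perm {s u : List Box} (h : Surv s u) (hs : Std lv s) (hu : Std lv u)
    (hl : Low o u) (hp : s.Perm u) : s = u := by
  induction h with
  | nil => rfl
  | @cons s u x z h0 h1 h2 ih =>
    have e : x = z := by
      rcases lt_trichotomy x.2 z.2 with k | k | k
      · have h3 := low_head hu hl h1 k
        rw [← aa_perm hp, aa_lcons, (std_cons.1 hs).2, if_pos rfl, if_neg (up_ne x).symm,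
          if_neg (dn_ne x).symm] at h3
        split_ifs at h3 <;> omega
      · exact Prod.ext h1 k
      · have h3 := surv_nb h0 (std_cons.1 hs).1 (std_cons.1 hu).1 hl.tail (up z)
        have h4 : nb (x :: s) (up z) = nb (z :: u) (up z) := by
          unfold nb
          rw [hp.countP_eq]
        rw [nb_cons, nb_cons, if_neg fun k' => by
          have := k'.2
          simp only [up] at this
          omega, if_pos ⟨rfl, by simp [up]⟩] at h4
        omega
    subst e
    rw [ih (std_cons.1 hs).1 (std_cons.1 hu).1 hl.tail hp.cons_inv]

private theorem sum_nb {n : ℕ} (h : ∀ y ∈ l, |y.2| < n) :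
    ∑ p ∈ bx n, nb l p = l.length * n - (l.map Prod.snd).sum := by
  induction l with
  | nil => simp [nb]
  | cons y l ih =>
    have h1 := abs_lt.1 (h y List.mem_cons_self)
    have e : ((bx n).filter fun p => y.1 = p.1 ∧ y.2 < p.2) =
        (Finset.Ioc y.2 n).image fun c => (y.1, c) := by
      ext p
      simp only [Finset.mem_filter, mem_bx, Finset.mem_image, Finset.mem_Ioc, abs_le]
      constructor
      · rintro ⟨k1, k2, k3⟩
        exact ⟨p.2, ⟨k3, k1.2⟩, by rw [k2]⟩
      · rintro ⟨c, k, rfl⟩
        exact ⟨⟨by simp only; omega, k.2⟩, rfl, k.1⟩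
    simp only [nb_cons, Finset.sum_add_distrib, ih fun w hw => h w (List.mem_cons_of_mem y hw),
      Finset.sum_boole, e]
    rw [Finset.card_image_of_injective _ fun _ _ k => congrArg Prod.snd k, Int.card_Ioc,
      Int.toNat_of_nonneg (by omega), List.length_cons, List.map_cons, List.sum_cons]
    push_cast
    ring

private theorem surv_len {s u : List Box} (h : Surv s u) : s.length = u.length := by
  induction h with
  | nil => rfl
  | cons _ _ _ ih => rw [List.length_cons, List.length_cons, ih]

private theorem surv_diff (a b : Γ) {s u : List Box} (h : Surv s u) :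
    om a b s = om a b u + (2 * ((s.map Prod.snd).sum - (u.map Prod.snd).sum)) • a := by
  induction h with
  | nil => simp
  | @cons s u x z _ h1 _ ih =>
    unfold om at ih ⊢
    simp only [List.map_cons, List.sum_cons, ih, dd, h1]
    module

/-- The q-place. Invariants along `Surv`: same components; `rows s i ≤ rows u i`; for all `i`, `c`
the number of entries of `s` in the component `i` with content `< c` is at most that of `u` (for the
newest box `z` of `u`: `count s (i, c) ≤ count u (i, c)` for `c ≤ z.2`, by beads and `low_head`). So
the content sum of `s` is at least that of `u`, with equality only if `s.Perm u`. In that case the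
heads agree (else apply the inequality to the tails at `c = z.2 + 1`), so `s = u` by induction. -/
theorem surv_om {a : Γ} (ha : 0 < a) (b : Γ) {s u : List Box} (h : Surv s u) (hs : Std lv s)
    (hu : Std lv u) (hl : Low o u) : s = u ∨ om a b u < om a b s := by
  by_cases c : (u.map Prod.snd).sum < (s.map Prod.snd).sum
  · right
    rw [surv_diff a b h]
    exact lt_add_of_pos_right _ (zsmul_pos ha (by omega))
  · left
    refine surv_perm h hs hu hl ?_
    have b1 := hs.abs_lt.1
    have b2 := hu.abs_lt.1
    rw [← surv_len h] at b2
    have h1 := sum_nb b1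
    have h2 := sum_nb b2
    rw [← surv_len h] at h2
    have h3 := (Finset.sum_eq_sum_iff_of_le (s := bx s.length)
      fun p _ => surv_nb h hs hu hl p).1
      (le_antisymm (Finset.sum_le_sum fun p _ => surv_nb h hs hu hl p) (by omega))
    refine Multiset.coe_eq_coe.1 (Multiset.ext.2 fun p => ?_)
    by_cases e : |p.2| < s.length
    · have e' := abs_lt.1 e
      have j1 := nb_up s p
      have j2 := nb_up u p
      rw [h3 p (mem_bx.2 e.le), h3 (up p) (mem_bx.2 (abs_le.2 (by simp only [up]; omega)))] at j1
      omega
    · rw [cnt0_t3 fun k => e (b1 p k), cnt0_t3 fun k => e (b2 p k)]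

private theorem res_w {k : ℤ} {w w' : List Box} (hw : ∀ y ∈ w, y.1 = o) (hw' : ∀ y ∈ w', y.1 = o)
    (hr : w'.map (rs k) = w.map (rs k)) : w' = w := by
  induction w' generalizing w with
  | nil => exact (List.map_eq_nil_iff.1 hr.symm).symm
  | cons y' w' ih =>
    cases w with
    | nil => simp at hr
    | cons y w =>
      obtain ⟨e1, e2⟩ := List.cons.inj hr
      have e3 := (hw' y' List.mem_cons_self).trans (hw y List.mem_cons_self).symm
      rw [ih (fun u hu => hw u (List.mem_cons_of_mem _ hu))
        (fun u hu => hw' u (List.mem_cons_of_mem _ hu)) e2, Prod.ext e3 (?_ : y'.2 = y.2)]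
      simp only [rs, e3] at e1
      split_ifs at e1 <;> omega

private theorem res_v {a b : Γ} {k : ℤ} (ho : o = true → 0 < b + k • a)
    (ho' : o = false → b + k • a < 0) {v v' : List Box} (hv : ∀ y ∈ v, y.1 ≠ o)
    (hr : v'.map (rs k) = v.map (rs k)) : v' = v ∨ om a b v < om a b v' := by
  induction v' generalizing v with
  | nil => exact Or.inl (List.map_eq_nil_iff.1 hr.symm).symm
  | cons y' v' ih =>
    cases v with
    | nil => simp at hr
    | cons y v =>
      obtain ⟨e1, e2⟩ := List.cons.inj hr
      have h1 : y' = y ∨ dd a b y < dd a b y' := by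
        have h2 := hv y List.mem_cons_self
        obtain ⟨i, c⟩ := y
        obtain ⟨i', c'⟩ := y'
        cases i <;> cases i' <;> simp only [rs, Bool.false_eq_true, if_true, if_false] at e1
        · exact Or.inl (Prod.ext rfl (by simp only; omega))
        · have h3 := ho (by revert h2; cases o <;> simp)
          refine Or.inr (sub_pos.1 ?_)
          have : dd a b (true, c') - dd a b (false, c) = (b + k • a) + (b + k • a) := by
            simp only [dd, e1, Bool.false_eq_true, if_true, if_false]
            module
          rw [this]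
          exact add_pos h3 h3
        · have h3 := ho' (by revert h2; cases o <;> simp)
          refine Or.inr (sub_neg.1 ?_)
          have : dd a b (true, c) - dd a b (false, c') = (b + k • a) + (b + k • a) := by
            simp only [dd, ← e1, Bool.false_eq_true, if_true, if_false]
            module
          rw [this]
          exact add_neg h3 h3
        · exact Or.inl (Prod.ext rfl e1)
      have h2 := ih (fun u hu => hv u (List.mem_cons_of_mem _ hu)) e2
      simp only [om, List.map_cons, List.sum_cons] at h2 ⊢
      rcases h1 with rfl | h1 <;> rcases h2 with rfl | h2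
      · exact Or.inl rfl
      · exact Or.inr (add_lt_add_right h2 _)
      · exact Or.inr (add_lt_add_left h1 _)
      · exact Or.inr (add_lt_add h1 h2)

/-- The place of `Q ^ 2 * q ^ (2 * k) + 1`: `w'` lies in the component `o` (`base_mem`), so
`w' = w`, and every entry of `v'` is the entry of `v` or its partner, which has a larger `dd`. -/
theorem res_om {a b : Γ} {k : ℤ} (ho : o = true → 0 < b + k • a) (ho' : o = false → b + k • a < 0)
    {v w v' w' : List Box} (hs : Std true (v' ++ w')) (hv : ∀ y ∈ v, y.1 ≠ o) (hw : ∀ y ∈ w, y.1 = o)
    (hl : w'.length = w.length) (hr : (v' ++ w').map (rs k) = (v ++ w).map (rs k))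
    (h0 : (!o, 0) ∉ w') : v' ++ w' = v ++ w ∨ om a b (v ++ w) < om a b (v' ++ w') := by
  rw [List.map_append, List.map_append] at hr
  obtain ⟨e1, e2⟩ := List.append_inj' hr (by rw [List.length_map, List.length_map, hl])
  have hw' : ∀ y ∈ w', y.1 = o := fun y hy => by
    by_contra c
    have := base_mem hs.suffix hy
    rw [Bool.eq_not.2 c] at this
    exact h0 this
  rw [res_w hw hw' e2]
  rcases res_v ho ho' hv e1 with rfl | h
  · exact Or.inl rfl
  · refine Or.inr ?_
    simp only [om, List.map_append, List.sum_append] at h ⊢
    exact add_lt_add_left h _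

end

end Pool.Agent.P.MP_1a0ecf_al.K
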