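import Pool.Agent.P.MP_1a0ecf_al.K.W3
import Pool.Agent.P.MP_1a0ecf_al.K.T3

/-! Package Gam: the factors gamma, degrees of traces. -/

namespace Pool.Agent.P.MP_1a0ecf_al.K

open Sn
open scoped Classical

set_option linter.unusedSectionVars false

noncomputable section

variable {F H : Type} [Field F] [Ring H] [Algebra F H]

variable {Γ : Type} [AddCommGroup Γ] [LinearOrder Γ] [IsOrderedAddMonoid Γ]

theorem gp_perm (ξ : Box → F) (lv : Bool) (r : Box → Box → Prop) (z : Box) {s u : List Box}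
    (h : s.Perm u) : gp ξ lv r z s = gp ξ lv r z u := by
  rw [gp, gp, h.length_eq, Multiset.coe_eq_coe.2 h]

theorem gp_eq (ξ : Box → F) {lv : Bool} (r : Box → Box → Prop) (z : Box) {l : List Box}
    (h : Std lv l) {m : ℕ} (hm : l.length ≤ m) :
    gp ξ lv r z l = ∏ x ∈ bx m, if r x z then (ξ z - ξ x) ^ aa lv l x else 1 := by
  refine Finset.prod_subset (bx_mono hm) fun x _ hx => ?_
  have : aa lv l x = 0 := by
    by_contra e
    exact hx (mem_bx.2 (h.abs_lt.2 x e))
  rw [this, zpow_zero, ite_self]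

theorem gp_ne {ξ : Box → F} (hξ : Function.Injective ξ) (lv : Bool) {r : Box → Box → Prop}
    (hr : ∀ x, ¬ r x x) (z : Box) (l : List Box) : gp ξ lv r z l ≠ 0 := by
  refine Finset.prod_ne_zero_iff.2 fun x _ => ?_
  split_ifs with e
  · exact zpow_ne_zero _ (sub_ne_zero.2 fun e' => hr x (by rwa [hξ e'] at e))
  · exact one_ne_zero

theorem gp_cons {ξ : Box → F} (hξ : Function.Injective ξ) {lv : Bool} {r : Box → Box → Prop}
    (hr : ∀ x, ¬ r x x) (z : Box) {y : Box} {l : List Box} (h : Std lv (y :: l)) :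
    gp ξ lv r z (y :: l) = gp ξ lv r z l * ((if r y z then (ξ z - ξ y) ^ (-2 : ℤ) else 1) *
      (if r (up y) z then ξ z - ξ (up y) else 1) * if r (dn y) z then ξ z - ξ (dn y) else 1) := by
  obtain ⟨hl, hy⟩ := std_cons.1 h
  have h1 := hl.abs_lt.2 y (by omega)
  have m0 : y ∈ bx (l.length + 1) := mem_bx.2 (by push_cast; omega)
  have m1 : up y ∈ bx (l.length + 1) :=
    mem_bx.2 (by rw [abs_le] at h1 ⊢; simp only [up]; push_cast; omega)
  have m2 : dn y ∈ bx (l.length + 1) :=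
    mem_bx.2 (by rw [abs_le] at h1 ⊢; simp only [dn]; push_cast; omega)
  have p0 := Finset.prod_ite_eq' (bx (l.length + 1)) y
    fun w => if r w z then (ξ z - ξ w) ^ (-2 : ℤ) else 1
  have p1 := Finset.prod_ite_eq' (bx (l.length + 1)) (up y) fun w => if r w z then ξ z - ξ w else 1
  have p2 := Finset.prod_ite_eq' (bx (l.length + 1)) (dn y) fun w => if r w z then ξ z - ξ w else 1
  rw [if_pos m0] at p0
  rw [if_pos m1] at p1
  rw [if_pos m2] at p2
  rw [gp_eq ξ r z hl (Nat.le_succ _), gp, List.length_cons, ← p0, ← p1, ← p2,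
    ← Finset.prod_mul_distrib, ← Finset.prod_mul_distrib, ← Finset.prod_mul_distrib]
  refine Finset.prod_congr rfl fun w _ => ?_
  by_cases e : r w z
  · have hne : ξ z - ξ w ≠ 0 := sub_ne_zero.2 fun e' => hr w (by rwa [hξ e'] at e)
    simp only [e, if_true]
    rw [aa_lcons, zpow_add₀ hne, zpow_add₀ hne, sub_eq_add_neg (aa _ _ _), zpow_add₀ hne, mul_assoc,
      mul_assoc, mul_assoc]
    congr 2
    · split_ifs <;> simp
    · congr 1 <;> split_ifs <;> simp
  · simp [e]

theorem gam_append (ξ : Box → F) (lv : Bool) (r : Box → Box → Prop) {s u : List Box} (h : s.Perm u)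
    {c : F} (e : gam ξ lv r s = gam ξ lv r u * c) (w : List Box) :
    gam ξ lv r (w ++ s) = gam ξ lv r (w ++ u) * c := by
  induction w with
  | nil => exact e
  | cons y w ih =>
    rw [List.cons_append, List.cons_append, gam, gam, ih, gp_perm ξ lv r y (h.append_left w),
      mul_right_comm]

namespace Tw

variable (t : Tw F H)

theorem ga_ne {r : Box → Box → Prop} (hr : ∀ x, ¬ r x x) (s : List Box) : t.ga r s ≠ 0 := by
  induction s with
  | nil => exact one_ne_zero
  | cons z l ih => exact mul_ne_zero ih (gp_ne t.inj _ hr z l)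

private theorem ga_step (o : Bool) {p : Step} (hs : Std t.lv p.src) (hf : Fst o p.x p.z)
    (hn : ¬ Nb p.x p.z) : t.ga (fun x z => Fst o z x) p.tgt =
      t.ga (fun x z => Fst o z x) p.src * t.dat.N p.x p.z := by
  obtain ⟨u, x, z, l⟩ := p
  simp only [Step.src, Step.tgt] at hs hf hn ⊢
  have hs' := hs.swap fun e => hn e.symm
  have hr : ∀ x, ¬ Fst o x x := fun x e => e.ne rfl
  refine gam_append _ _ _ (List.Perm.swap z x l) ?_ u
  have a1 : Fst o x (up z) ∧ Fst o x (dn z) ∧ ¬ Fst o z (up x) ∧ ¬ Fst o z (dn x) := by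
    obtain ⟨i, c⟩ := x
    obtain ⟨j, d⟩ := z
    simp only [Fst, nb_iff, up, dn, ne_eq] at hf hn ⊢
    cases i <;> cases j <;> cases o <;> simp at hf hn ⊢ <;> omega
  rw [gam, gam, gam, gam, gp_cons (r := fun x z => Fst o z x) t.inj hr x (std_cons.1 hs'.suffix).1,
    gp_cons (r := fun x z => Fst o z x) t.inj hr z (std_cons.1 hs.suffix).1, if_pos hf, if_pos a1.1, if_pos a1.2.1,
    if_neg hf.asymm, if_neg a1.2.2.1, if_neg a1.2.2.2, t.N_eq hf.ne, zpow_neg, zpow_ofNat]
  ring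

/-- the swap rule: along a step the factor changes by `N x z` (`aa_lcons`, `N_eq`) -/
theorem ga_Nm (o : Bool) {s : List Box} (hs : Std t.lv s) :
    t.ga (fun x z => Fst o z x) s = t.ga (fun x z => Fst o z x) (bt t.lv o s) * t.Nm o s := by
  have key : ∀ {b s : List Box} {ps : List Step}, Std t.lv b → IsPath o b ps s →
      t.ga (fun x z => Fst o z x) s = t.ga (fun x z => Fst o z x) b * t.dat.Nms ps := by
    intro b s ps hb hp
    induction hp with
    | nil => rw [Dat.Nms, mul_one]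
    | cons hp hf hn ih => rw [t.ga_step o (hp.std hb) hf hn, ih, Dat.Nms, mul_assoc, mul_comm (t.dat.N _ _)]
  exact key (bt_spec o hs).1 (bt_spec o hs).2.2

variable {t}

theorem Lat.un_ga (Λ : Lat t) {o : Bool} {r : Box → Box → Prop} (h : Λ.H1 o r) {s : List Box}
    (hs : Std t.lv s) : Un Λ.R (t.ga r s / t.ga (fun x z => Fst o z x) s) := by
  induction hs with
  | nil => simpa [gam] using (Un.one : Un Λ.R (1 : F))
  | @cons l z hl hz ih =>
    rw [ga, ga, gam, gam, mul_div_mul_comm]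
    refine ih.mul ?_
    rw [gp, gp, ← Finset.prod_div_distrib]
    refine Un.prod fun x _ => ?_
    by_cases e0 : aa t.lv l x = 0
    · simpa [e0] using (Un.one : Un Λ.R (1 : F))
    by_cases e1 : x = z
    · subst e1
      rw [if_neg (h.1 x), if_neg fun e : Fst o x x => e.ne rfl, div_one]
      exact Un.one
    have o1 := ok_of_aa hl e0
    have o2 : K.ok t.lv z := ok_of_aa hl (by omega)
    have un : Un Λ.R (t.ξ z - t.ξ x) → Un Λ.R
        ((if r x z then (t.ξ z - t.ξ x) ^ aa t.lv l x else 1) /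
          if Fst o z x then (t.ξ z - t.ξ x) ^ aa t.lv l x else 1) := fun hu => by
      rw [div_eq_mul_inv]
      refine Un.mul ?_ (Un.inv ?_) <;> split_ifs
      exacts [hu.zpow _, Un.one, hu.zpow _, Un.one]
    rcases fst_or (o := o) e1 with hf | hf
    · rcases h.2 x z o1 o2 hf with hu | hu
      · exact un (by simpa using hu.neg)
      · rw [if_neg hu.2, if_neg hf.asymm, div_one]
        exact Un.one
    · rcases h.2 z x o2 o1 hf with hu | hu
      · exact un hu
      · rw [if_pos hu.1, if_pos hf, div_self (zpow_ne_zero _ (t.xi_sub_ne (Ne.symm e1)))]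
        exact Un.one

end Tw

theorem xi_mK (a b : Γ) (x : Box) :
    xi (mK b) (mK a) x = (if x.1 = true then 1 else -1) * (mK (dd a b x) : KK Γ) := by
  rw [xi, dd, mK_add, mK_zsmul, Units.val_mul]
  split_ifs
  · rw [one_mul]
  · rw [mK_neg, neg_mul, neg_mul, one_mul]

private theorem sg (x : Box) : (if x.1 = true then (1 : KK Γ) else -1) = 1 ∨
    (if x.1 = true then (1 : KK Γ) else -1) = -1 := by
  split_ifs <;> simp

theorem deg_xi (a b : Γ) (x : Box) : deg (xi (mK b) (mK a) x) = dd a b x := by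
  rw [xi_mK]
  split_ifs
  · rw [one_mul, deg_mK]
  · rw [neg_one_mul, deg_neg, deg_mK]

theorem lc_xi (a b : Γ) (x : Box) : lc (xi (mK b) (mK a) x) = if x.1 = true then 1 else -1 := by
  rw [xi_mK]
  split_ifs
  · rw [one_mul, lc_mK]
  · rw [neg_one_mul, lc_neg, lc_mK]

theorem xi_sub_lt {a b : Γ} {x y : Box} (h : dd a b y < dd a b x) :
    deg (xi (mK b) (mK a) x - xi (mK b) (mK a) y) = dd a b x ∧
      wd (xi (mK b) (mK a) x - xi (mK b) (mK a) y) = dd a b x - dd a b y ∧
      Un (ZZ Γ) (xi (mK b) (mK a) x - xi (mK b) (mK a) y) := by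
  have hb := binom h (sg x) (sg y)
  have hm : ∀ z : Box, xi (mK b) (mK a) z ∈ ZZ Γ := fun z => by
    rw [xi_mK]
    refine AA_le_ZZ (mul_mem ?_ (mK_mem _))
    split_ifs
    exacts [one_mem _, neg_mem (one_mem _)]
  rw [← xi_mK, ← xi_mK] at hb
  exact ⟨hb.2.1, hb.2.2.2, un_ZZ (sub_mem (hm x) (hm y)) hb.2.2.1⟩

theorem deg_xi_sub {a b : Γ} {x y : Box} (h : xi (mK b) (mK a) x ≠ xi (mK b) (mK a) y) :
    deg (xi (mK b) (mK a) x - xi (mK b) (mK a) y) = max (dd a b x) (dd a b y) := by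
  rcases lt_trichotomy (dd a b y) (dd a b x) with e | e | e
  · rw [(xi_sub_lt e).1, max_eq_left e.le]
  · have two : ∀ γ : Γ, deg ((2 : KK Γ) * (mK γ : KK Γ)) = γ := fun γ => by
      have := deg_rat (Γ := Γ) 2
      rw [Rat.cast_ofNat] at this
      have h2 : (2 : KK Γ) ≠ 0 := fun e => by
        have := lc_rat (Γ := Γ) 2
        rw [Rat.cast_ofNat, e, ← co_deg, co_zero] at this
        norm_num at this
      rw [deg_mul h2 (Units.ne_zero _), this, deg_mK, zero_add]
    rw [xi_mK, xi_mK, e] at h ⊢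
    rw [max_self]
    rcases sg (Γ := Γ) x with e1 | e1 <;> rcases sg (Γ := Γ) y with e2 | e2 <;> rw [e1, e2] at h ⊢
    · exact (h rfl).elim
    · rw [← two (dd a b x)]; congr 1; rw [two]; ring
    · rw [← two (dd a b x), ← deg_neg]; congr 1; rw [two]; ring
    · exact (h rfl).elim
  · rw [← neg_sub, deg_neg, (xi_sub_lt e).1, max_eq_right e.le]

theorem xi_inj {a : Γ} (ha : 0 < a) (b : Γ) : Function.Injective (xi (mK b) (mK a)) := by
  rintro ⟨i, c⟩ ⟨j, d⟩ h
  have h1 := congrArg lc h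
  have h2 := congrArg deg h
  rw [lc_xi, lc_xi] at h1
  rw [deg_xi, deg_xi] at h2
  obtain rfl : i = j := by
    cases i <;> cases j <;> first | rfl | norm_num at h1
  have h3 := (zsmul_left_strictMono ha).injective (add_left_cancel h2)
  simp only at h3
  rw [show c = d by omega]

theorem un_xi_sub {a b : Γ} {x y : Box} (h : dd a b x ≠ dd a b y) :
    Un (ZZ Γ) (xi (mK b) (mK a) x - xi (mK b) (mK a) y) := by
  rcases lt_or_gt_of_ne h with e | e
  · simpa using (xi_sub_lt e).2.2.neg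
  · exact (xi_sub_lt e).2.2

theorem xi_par {a b : Γ} {k : ℤ} (h : b + k • a = 0) (x : Box) :
    xi (mK b) (mK a) (par k x) = -xi (mK b) (mK a) x := by
  obtain ⟨i, c⟩ := x
  obtain rfl : b = -(k • a) := eq_neg_of_add_eq_zero_left h
  have e : dd a (-(k • a)) (par k (i, c)) = dd a (-(k • a)) (i, c) := by
    cases i <;> simp only [dd, par, if_true, Bool.false_eq_true, if_false] <;> module
  rw [xi_mK, xi_mK, e]
  cases i <;> simp [par]

namespace Tw

variable {H : Type} [Ring H] [Algebra (KK Γ) H] (t : Tw (KK Γ) H) {a b : Γ}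

/-- Induction with `tau_cons`. `deg (ξ z - ξ x) = max (dd z) (dd x)` for `x ≠ z` (`binom`, or
`ξ z - ξ x = 2 * ξ z`), and `∑ aa l x • dd x` is the degree of the constant (`prod_xi`). -/
theorem deg_tau (hQ : t.Q = mK b) (hq : t.q = mK a) {s : List Box} (hs : Std t.lv s)
    (hn : s.length ≤ t.n) :
    deg (t.τ (t.E s)) + wd (t.ga (fun x z => dd a b x < dd a b z) s) = 0 := by
  have hξ : t.ξ = xi (mK b) (mK a) := by rw [ξ, hQ, hq]
  have d1 : deg (1 : KK Γ) = 0 := deg_one
  have w1 : wd (1 : KK Γ) = 0 := by rw [wd, map_one, d1, add_zero]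
  induction hs with
  | nil => rw [E, Dat.E, t.τ_one, ga, gam, d1, w1, add_zero]
  | @cons l z hl hz ih =>
    rw [List.length_cons] at hn
    have ih := ih (by omega)
    have hr : ∀ x : Box, ¬ dd a b x < dd a b x := fun x => lt_irrefl _
    have hz' : z ∈ bx l.length := mem_bx.2 (hl.abs_lt.2 z (by omega))
    have c0 : (if t.lv = true then 1 else (t.Q : KK Γ)) ≠ 0 := by split_ifs <;> simp
    have c1 : deg (if t.lv = true then 1 else (t.Q : KK Γ)) =
        ∑ x ∈ bx l.length, aa t.lv l x • dd a b x := by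
      have := congrArg deg (t.prod_xi hl)
      rw [deg_prod _ _ fun x _ => zpow_ne_zero _ (xi_ne _ _ _)] at this
      simp only [deg_zpow, hξ, deg_xi] at this
      rw [this]
      split_ifs
      · rw [deg_neg]
      · rfl
    have c2 : deg (gp t.ξ t.lv (fun x y => x ≠ y) z l) = ∑ x ∈ bx l.length,
        if x ≠ z then aa t.lv l x • max (dd a b z) (dd a b x) else 0 := by
      rw [gp, deg_prod _ _ fun x _ => ?_]
      · refine Finset.sum_congr rfl fun x _ => ?_
        split_ifs with e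
        · rw [deg_zpow, hξ, deg_xi_sub fun e' => e (t.inj (by rw [← hξ] at e'; exact e'.symm))]
        · exact d1
      · split_ifs with e
        exacts [zpow_ne_zero _ (t.xi_sub_ne (Ne.symm e)), one_ne_zero]
    have c3 : wd (gp t.ξ t.lv (fun x z => dd a b x < dd a b z) z l) = ∑ x ∈ bx l.length,
        if dd a b x < dd a b z then aa t.lv l x • (dd a b z - dd a b x) else 0 := by
      rw [gp, wd_prod _ _ fun x _ => ?_]
      · refine Finset.sum_congr rfl fun x _ => ?_
        split_ifs with e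
        · rw [wd_zpow, hξ, (xi_sub_lt e).2.1]
        · exact w1
      · split_ifs with e
        exacts [zpow_ne_zero _ (t.xi_sub_ne fun e' => hr x (by rwa [e'] at e)), one_ne_zero]
    have c4 : ∑ x ∈ bx l.length, (if x = z then dd a b z else 0) = dd a b z := by
      rw [Finset.sum_ite_eq', if_pos hz']
    have c5 : deg (t.pp l z) + wd (gp t.ξ t.lv (fun x z => dd a b x < dd a b z) z l) = 0 := by
      have n1 : (t.ξ z)⁻¹ ≠ 0 := inv_ne_zero (xi_ne _ _ _)
      rw [pp, deg_mul (mul_ne_zero c0 n1) (inv_ne_zero (gp_ne t.inj _ (fun _ e => e rfl) z l)),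
        deg_mul c0 n1, deg_inv, deg_inv, c1, c2, c3, hξ, deg_xi, ← c4, ← Finset.sum_neg_distrib,
        ← Finset.sum_neg_distrib, ← Finset.sum_add_distrib, ← Finset.sum_add_distrib,
        ← Finset.sum_add_distrib, c4]
      refine Finset.sum_eq_zero fun x _ => ?_
      by_cases e : x = z
      · subst e
        rw [if_pos rfl, if_neg (not_not.2 rfl), if_neg (hr x), hz, one_smul]
        abel
      · rw [if_neg e, if_pos e]
        split_ifs with e'
        · rw [max_eq_left e'.le, smul_sub]; abel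
        · rw [max_eq_right (not_lt.1 e')]; abel
    rw [t.tau_cons (Std.cons hl hz) hn, deg_mul (t.pp_ne l z) (t.tau_E_ne hl (by omega)), ga, gam,
      wd_mul (t.ga_ne hr l) (gp_ne t.inj _ hr z l), ← add_zero (0 : Γ)]
    conv_rhs => arg 1; rw [← c5]
    conv_rhs => arg 2; rw [← ih]
    abel

/-- `Nm` is fixed by `bK`, so its width is twice its degree; `Ix` is stable under `Prod.swap`. -/
theorem deg_gram (hQ : t.Q = mK b) (hq : t.q = mK a) {f : H →+* H} (hb : Bar t (bK Γ) f) (o : Bool)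
    {k : ℕ} (hk : k ≤ t.n) {U : List Box → Prop} (hU : ∀ s u : List Box, s.Perm u → U s → U u) :
    deg (Matrix.of fun i j : Ix t.lv k U =>
      t.τ (t.g o i.1.1 i.1.2 * t.fl (t.g o j.1.1 j.1.2))).det +
      wd (t.cf (fun x z => dd a b x < dd a b z) o k U) = 0 ∧
    (Matrix.of fun i j : Ix t.lv k U =>
      t.τ (t.g o i.1.1 i.1.2 * t.fl (t.g o j.1.1 j.1.2))).det ≠ 0 ∧
    t.cf (fun x z => dd a b x < dd a b z) o k U ≠ 0 := by
  have hr : ∀ x : Box, ¬ dd a b x < dd a b x := fun x => lt_irrefl _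
  have mem : ∀ p : List Box × List Box, p ∈ Ix t.lv k U ↔
      (p.1 ∈ tabs t.lv k ∧ p.2 ∈ tabs t.lv k) ∧ p.1.Perm p.2 ∧ U p.1 := fun p => by
    rw [Ix, Finset.mem_filter, Finset.mem_product]
  have s1 : ∀ p ∈ Ix t.lv k U, Std t.lv p.1 := fun p hp => (mem_tabs.1 ((mem p).1 hp).1.1).2
  have s2 : ∀ p ∈ Ix t.lv k U, Std t.lv p.2 := fun p hp => (mem_tabs.1 ((mem p).1 hp).1.2).2
  have l1 : ∀ p ∈ Ix t.lv k U, p.1.length ≤ t.n := fun p hp =>
    (mem_tabs.1 ((mem p).1 hp).1.1).1.trans_le hk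
  have n1 : ∀ p ∈ Ix t.lv k U, t.Nm o p.1 ≠ 0 := fun p hp => t.ok.Nm_ne o (s1 p hp)
  have n2 : ∀ p ∈ Ix t.lv k U, t.Nm o p.2 ≠ 0 := fun p hp => t.ok.Nm_ne o (s2 p hp)
  have n3 : ∀ p ∈ Ix t.lv k U, t.τ (t.E p.1) ≠ 0 := fun p hp => t.tau_E_ne (s1 p hp) (l1 p hp)
  have n4 : ∀ p ∈ Ix t.lv k U, t.Nm o p.1 * t.Nm o p.2 * t.τ (t.E p.1) ≠ 0 := fun p hp =>
    mul_ne_zero (mul_ne_zero (n1 p hp) (n2 p hp)) (n3 p hp)
  have n5 : ∀ p ∈ Ix t.lv k U, t.ga (fun x z => dd a b x < dd a b z) p.1 / t.Nm o p.1 ≠ 0 :=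
    fun p hp => div_ne_zero (t.ga_ne hr _) (n1 p hp)
  have e : (Matrix.of fun i j : Ix t.lv k U =>
      t.τ (t.g o i.1.1 i.1.2 * t.fl (t.g o j.1.1 j.1.2))).det =
      ∏ p ∈ Ix t.lv k U, t.Nm o p.1 * t.Nm o p.2 * t.τ (t.E p.1) := by
    rw [← Finset.prod_coe_sort, ← Matrix.det_diagonal]
    congr 1
    ext i j
    rw [Matrix.of_apply, t.gram o hk, Matrix.diagonal_apply]
  have sw : ∑ p ∈ Ix t.lv k U, deg (t.Nm o p.2) = ∑ p ∈ Ix t.lv k U, deg (t.Nm o p.1) := by
    have hs : ∀ p ∈ Ix t.lv k U, p.swap ∈ Ix t.lv k U := fun p hp => by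
      obtain ⟨⟨h1, h2⟩, h3, h4⟩ := (mem p).1 hp
      exact (mem _).2 ⟨⟨h2, h1⟩, h3.symm, hU _ _ h3 h4⟩
    exact Finset.sum_nbij' Prod.swap Prod.swap hs hs (fun _ _ => rfl) (fun _ _ => rfl)
      fun _ _ => rfl
  refine ⟨?_, by rw [e]; exact Finset.prod_ne_zero_iff.2 n4, Finset.prod_ne_zero_iff.2 n5⟩
  rw [e, cf, deg_prod _ _ n4, wd_prod _ _ n5, ← Finset.sum_add_distrib, ← sub_eq_zero.2 sw,
    ← Finset.sum_sub_distrib]
  refine Finset.sum_congr rfl fun p hp => ?_
  have d := t.deg_tau hQ hq (s1 p hp) (l1 p hp)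
  rw [deg_mul (mul_ne_zero (n1 p hp) (n2 p hp)) (n3 p hp), deg_mul (n1 p hp) (n2 p hp),
    div_eq_mul_inv, wd_mul (t.ga_ne hr _) (inv_ne_zero (n1 p hp)), wd_inv, wd, wd,
    hb.Nm o (s1 p hp), eq_neg_of_add_eq_zero_left d, wd]
  abel

end Tw

end

end Pool.Agent.P.MP_1a0ecf_al.K
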