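import Pool.Agent.P.MP_1a0ecf_al.K.Gam
import Pool.Agent.P.MP_1a0ecf_al.K.T4

/-! Package Glue: integral central idempotents do not split classes. -/

namespace Pool.Agent.P.MP_1a0ecf_al.K

open Sn
open scoped Classical

set_option linter.unusedSectionVars false

noncomputable section

variable {F H : Type} [Field F] [Ring H] [Algebra F H]


theorem gl_far (lv : Bool) (m : ℤ) (x : Box) (l : List Box) :
    aa lv (x :: l : List Box) (par m x) = aa lv l (par m x) :=
  aa_cons_far (lv := lv) (l : Multiset Box) (par_ne m x) (par_not_nb m x)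

theorem gl_far' (lv : Bool) (m : ℤ) (x : Box) (l : List Box) :
    aa lv (par m x :: l : List Box) x = aa lv l x := by
  have := gl_far lv m (par m x) l
  rwa [par_par] at this

theorem gl_rs (m : ℤ) (x : Box) : rs m (par m x) = rs m x := (rs_eq_iff.2 (Or.inr rfl)).symm

namespace Tw

/-- weighted sums of idempotents -/
def wS (t : Tw F H) (k : ℕ) (V : List Box → Prop) (p : List Box → F) : H :=
  ∑ l ∈ tabs t.lv k with V l, p l • t.E l

/-- sums of arbitrary elements over standard lists -/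
def sS (t : Tw F H) (k : ℕ) (V : List Box → Prop) (f : List Box → H) : H :=
  ∑ l ∈ tabs t.lv k with V l, f l

theorem wS_mem (t : Tw F H) (k : ℕ) (V : List Box → Prop) (p : List Box → F) :
    t.wS k V p ∈ t.Hk k :=
  sum_mem fun _ hl => Subalgebra.smul_mem _
    (t.ok.E_mem (mem_tabs.1 (Finset.mem_filter.1 hl).1).1.le) _

theorem eU_img (t : Tw F H) {k j : ℕ} {V : List Box → Prop} {f : List Box → List Box}
    (hf : Function.Injective f) (h : ∀ l ∈ tabs t.lv k, V l → f l ∈ tabs t.lv j) :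
    t.eU j (fun s => ∃ l ∈ tabs t.lv k, V l ∧ s = f l) = t.sS k V fun l => t.E (f l) := by
  symm
  refine Finset.sum_bij (fun l _ => f l) (fun l hl => ?_) (fun _ _ _ _ e => hf e)
    (fun s hs => ?_) fun _ _ => rfl
  · simp only [Finset.mem_filter] at hl ⊢
    exact ⟨h l hl.1 hl.2, l, hl.1, hl.2, rfl⟩
  · simp only [Finset.mem_filter] at hs ⊢
    obtain ⟨-, l, h1, h2, rfl⟩ := hs
    exact ⟨l, ⟨h1, h2⟩, rfl⟩

theorem tr_sS (t : Tw F H) {k : ℕ} {V : List Box → Prop} {f : List Box → H} {p : List Box → F}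
    {a b : H} (h : ∀ l ∈ tabs t.lv k, V l → t.τ (f l * b) = p l * t.τ (t.E l * a)) :
    t.τ (t.sS k V f * b) = t.τ (t.wS k V p * a) := by
  rw [sS, wS, Finset.sum_mul, Finset.sum_mul, map_sum, map_sum]
  refine Finset.sum_congr rfl fun l hl => ?_
  rw [h l (Finset.mem_filter.1 hl).1 (Finset.mem_filter.1 hl).2, smul_mul_assoc, map_smul,
    smul_eq_mul]

theorem tr_step (t : Tw F H) {k : ℕ} (hk : k < t.n) {W V : List Box → Prop} {z : List Box → Box}
    (h1 : ∀ l ∈ tabs t.lv k, V l → Std t.lv (z l :: l))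
    (h2 : ∀ x l, l.length = k → Std t.lv (x :: l) → (W (x :: l) ↔ V l ∧ x = z l)) {a : H}
    (ha : a ∈ t.Hk k) :
    t.τ (t.eU (k + 1) W * a) = t.τ (t.wS k V (fun l => t.pp l (z l)) * a) := by
  rw [t.eU_congr (V := fun s => ∃ l ∈ tabs t.lv k, V l ∧ s = z l :: l) fun s hs => ?_,
    t.eU_img (f := fun l => z l :: l) (fun _ _ e => (List.cons.inj e).2) fun l hl hV =>
      mem_tabs.2 ⟨by rw [List.length_cons, (mem_tabs.1 hl).1], h1 l hl hV⟩]
  · refine t.tr_sS fun l hl hV => ?_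
    have e := (mem_tabs.1 hl).1
    exact t.tau_cons_mul (h1 l hl hV) (e ▸ hk) (e ▸ ha)
  · obtain ⟨e, hs⟩ := mem_tabs.1 hs
    obtain _ | ⟨x, l⟩ := s
    · simp at e
    have e' : l.length = k := by simpa using e
    rw [h2 x l e' hs]
    refine ⟨fun h => ⟨l, mem_tabs.2 ⟨e', (std_cons.1 hs).1⟩, h.1, by rw [← h.2]⟩, ?_⟩
    rintro ⟨l', -, h3, h4⟩
    obtain ⟨rfl, rfl⟩ := List.cons.inj h4
    exact ⟨h3, rfl⟩

theorem Lat.fin_step {t : Tw F H} (Λ : Lat t) {k : ℕ} {C V : List Box → Prop} {p : List Box → F}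
    (hp : ∀ l ∈ tabs t.lv k, C l → Un Λ.R (p l)) (hC : t.eU k C ∈ Λ.HR)
    (h0 : t.wS k C p ∈ Λ.HR) (h1 : t.wS k V p ∈ Λ.HR) (hV : ∀ l, V l → C l) :
    t.eU k V ∈ Λ.HR := by
  have hb := Λ.inv_mem (k := k) (S := (tabs t.lv k).filter C)
    (fun l hl => (mem_tabs.1 (Finset.mem_filter.1 hl).1).1)
    (fun l hl => hp l (Finset.mem_filter.1 hl).1 (Finset.mem_filter.1 hl).2) hC h0
  have := mul_mem hb h1
  rw [wS, Finset.mul_sum] at this
  convert this using 1
  refine Finset.sum_congr rfl fun l hl => ?_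
  obtain ⟨hl, hv⟩ := Finset.mem_filter.1 hl
  rw [mul_smul_comm, Finset.sum_mul, Finset.sum_eq_single_of_mem l
    (Finset.mem_filter.2 ⟨hl, hV l hv⟩) fun u hu e => by
      rw [smul_mul_assoc, t.ok.E_orth ((mem_tabs.1 (Finset.mem_filter.1 hu).1).1.trans
        (mem_tabs.1 hl).1.symm) e, smul_zero],
    smul_mul_assoc, t.ok.E_idem, smul_smul, mul_inv_cancel₀ (hp l hl (hV l hv)).2.2,
    _root_.one_smul]

variable {t : Tw F H} (Λ : Lat1 t) {m : ℤ}

/-- the hypotheses on the eigenvalues -/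
structure Lat1.Rs (Λ : Lat1 t) (m : ℤ) : Prop where
  lv : t.lv = true
  un : ∀ x y, rs m x ≠ rs m y → Un Λ.R (t.ξ x - t.ξ y)
  par : ∀ x, t.ξ (par m x) = -t.ξ x

variable {Λ}

theorem Lat1.Rs.pj (h : Λ.Rs m) (k : ℕ) (x : Box) : t.pj k (fun z => rs m z = rs m x) ∈ Λ.HR :=
  Λ.toLat.pj_mem k fun y z _ _ h1 h2 => h.un y z fun e => h2 (e ▸ h1)

theorem Lat1.Rs.cl (h : Λ.Rs m) {k : ℕ} (hk : k ≤ t.n) (u : List Box) :
    t.eU k (fun l => Cl (rs m) l u) ∈ Λ.HR :=
  Λ.toLat.eU_mem (rs m) (fun x y _ _ e => h.un x y e) hk fun s s' e h1 => by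
    rw [Cl, ← e]; exact h1

theorem Lat1.Rs.aap (h : Λ.Rs m) {s u : List Box} (hc : Cl (rs m) s u) (x : Box) :
    aa t.lv s x + aa t.lv s (K.par m x) = aa t.lv u x + aa t.lv u (K.par m x) := by
  rw [h.lv]
  exact aa_par hc x

/-- only the partner of `z` gives a factor that is not a unit, `ξ z - ξ (par z) = 2 * ξ z` -/
theorem Lat1.Rs.pp (h : Λ.Rs m) (l : List Box) (hl : Std t.lv l) (z : Box) :
    Un Λ.R (t.pp l z * 2 ^ aa t.lv l (K.par m z)) := by
  have e2 : (2 : F) ^ aa t.lv l (K.par m z) =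
      ∏ x ∈ bx l.length, if x = K.par m z then (2 : F) ^ aa t.lv l x else 1 := by
    rw [Finset.prod_ite_eq']
    split_ifs with hb
    · rfl
    · have : aa t.lv l (K.par m z) = 0 := by
        by_contra h0
        exact hb (mem_bx.2 (hl.abs_lt.2 _ h0))
      rw [this, zpow_zero]
  have e3 : t.ξ z - t.ξ (K.par m z) = 2 * t.ξ z := by rw [h.par]; ring
  have h2 : (2 : F) ≠ 0 := fun e => t.xi_sub_ne (par_ne m z).symm (by rw [e3, e, zero_mul])
  rw [Tw.pp, if_pos h.lv, one_mul, e2, gp, ← Finset.prod_inv_distrib, mul_assoc,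
    ← Finset.prod_mul_distrib]
  refine (Λ.toLat.un_xi z).inv.mul (Un.prod fun x _ => ?_)
  by_cases h1 : x = z
  · rw [if_neg (not_not.2 h1), if_neg (by rw [h1]; exact (par_ne m z).symm), inv_one, one_mul]
    exact Un.one
  rw [if_pos h1]
  by_cases h3 : x = K.par m z
  · rw [if_pos h3, h3, e3, mul_zpow, mul_inv, mul_right_comm,
      inv_mul_cancel₀ (zpow_ne_zero _ h2), one_mul]
    exact ((Λ.toLat.un_xi z).zpow _).inv
  · rw [if_neg h3, mul_one]
    exact ((h.un z x fun e => (rs_eq_iff.1 e).elim h1 h3).zpow _).inv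

/-- Case (iii): take `h` from `odd` for the idempotent of the shape of `l`; the trace of
`eU U * pj (rs = rs x) * (eU (shape of l) * h)` is a unit times `τ (..) / 2` if exactly one of the two
lists is in `U`. -/
theorem Lat1.Rs.move (h : Λ.Rs m) {l : List Box} {x : Box} (hn : l.length < t.n)
    (hx : Std t.lv (x :: l)) (hy : Std t.lv (K.par m x :: l)) {U : List Box → Prop}
    (hU : ∀ s u : List Box, s.Perm u → U s → U u) (he : t.eU (l.length + 1) U ∈ Λ.HR)
    (h1 : U (x :: l)) : U (K.par m x :: l) := by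
  by_contra h2
  have hl := (std_cons.1 hx).1
  have hne : t.eU l.length (fun u => u.Perm l) ≠ 0 := fun e => by
    have := t.eU_E (fun u => u.Perm l) (s := l) rfl
    rw [e, zero_mul, if_pos (List.Perm.refl l)] at this
    exact t.E_ne hl hn.le this.symm
  obtain ⟨a, ha, h3, h4⟩ := Λ.odd _ hn.le _ (t.eU_mem le_rfl _) hne
  have h5 := Λ.tau _ (mul_mem he (mul_mem (h.pj l.length x) h3))
  rw [← mul_assoc (t.pj _ _), t.pj_eU hn, ← mul_assoc, t.eU_mul,
    t.tr_step hn (V := fun u => u.Perm l) (z := fun _ => x) (fun u hu hp => ?_)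
      (fun y u _ hs => ?_) ha] at h5
  · have e : t.wS l.length (fun u => u.Perm l) (fun u => t.pp u x) =
        t.pp l x • t.eU l.length fun u => u.Perm l := by
      rw [wS, eU, Finset.smul_sum]
      refine Finset.sum_congr rfl fun u hu => ?_
      simp only [Finset.mem_filter] at hu
      rw [t.pp_perm hu.2]
    rw [e, smul_mul_assoc, map_smul, smul_eq_mul] at h5
    have h6 := h.pp l hl x
    rw [(std_cons.1 hy).2, zpow_one] at h6
    refine h4 ?_
    convert mul_mem h6.2.1 h5 using 1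
    have := t.pp_ne l x
    have := right_ne_zero_of_mul h6.2.2
    field_simp
  · exact std_cons.2 ⟨(mem_tabs.1 hu).2, by rw [aa_perm hp]; exact (std_cons.1 hx).2⟩
  · refine ⟨fun ⟨h6, y', u', e, h7, h8⟩ => ?_, fun ⟨h6, e⟩ =>
      ⟨e ▸ hU _ _ (h6.symm.cons x) h1, y, u, rfl, by rw [e], h6⟩⟩
    obtain ⟨rfl, rfl⟩ := List.cons.inj e
    refine ⟨h8, (rs_eq_iff.1 h7.symm).resolve_right fun e => h2 ?_⟩
    exact e ▸ hU _ _ (h8.cons y) h6

/-- Case (i). Every standard `l` in the class of `u` has exactly one addable box `z l` among `x`,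
`par x`, and `pp l (z l)` is a unit. `∑ (l in the class, V (z l :: l)) pp l (z l) • E l` is integral
by `dual` and `tau_cons_mul`, for `V = U` and `V = True`; use `inv_mem`. -/
theorem Lat1.Rs.one (h : Λ.Rs m) {u : List Box} {x : Box} (hn : u.length < t.n)
    (hA : aa t.lv u x + aa t.lv u (K.par m x) = 1) {U : List Box → Prop}
    (hU : ∀ s u : List Box, s.Perm u → U s → U u) (he : t.eU (u.length + 1) U ∈ Λ.HR) :
    t.eU u.length (fun l => Cl (rs m) l u ∧
      ∃ z, rs m z = rs m x ∧ aa t.lv l z = 1 ∧ U (z :: l)) ∈ Λ.HR := by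
  have _ := hU
  let z : List Box → Box := fun l => if aa t.lv l x = 1 then x else K.par m x
  have hz : ∀ l, Std t.lv l → Cl (rs m) l u → rs m (z l) = rs m x ∧ aa t.lv l (z l) = 1 ∧
      aa t.lv l (K.par m (z l)) = 0 := fun l hl hc => by
    have e := (h.aap hc x).trans hA
    have c1 := hl.aa_cases x
    have c2 := hl.aa_cases (K.par m x)
    by_cases h1 : aa t.lv l x = 1
    · rw [show z l = x from if_pos h1]
      exact ⟨rfl, h1, by omega⟩
    · rw [show z l = K.par m x from if_neg h1, par_par]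
      exact ⟨gl_rs m x, by omega, by omega⟩
  have hz' : ∀ l, Std t.lv l → Cl (rs m) l u → ∀ y, rs m y = rs m x → aa t.lv l y = 1 →
      y = z l := fun l hl hc y h1 h2 => by
    obtain ⟨k1, -, k3⟩ := hz l hl hc
    refine (rs_eq_iff.1 (k1.trans h1.symm)).resolve_right fun e => ?_
    rw [e, k3] at h2
    exact zero_ne_one h2
  have key : ∀ V : List Box → Prop, t.eU (u.length + 1) V ∈ Λ.HR →
      ∀ V' : List Box → Prop, (∀ l, V' l ↔ Cl (rs m) l u ∧
        ∃ y, rs m y = rs m x ∧ aa t.lv l y = 1 ∧ V (y :: l)) →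
      t.wS u.length V' (fun l => t.pp l (z l)) ∈ Λ.HR := fun V hV V' hV' => by
    refine Λ.dual _ hn.le _ (t.wS_mem _ _ _) fun a ha ha' => ?_
    have h5 := Λ.tau _ (mul_mem (mul_mem hV (mul_mem (h.pj u.length x) (h.cl hn.le u))) ha')
    rwa [t.pj_eU hn, t.eU_mul, t.tr_step hn (V := V') (z := z) (fun l hl hp => ?_)
      (fun y l _ hs => ?_) ha] at h5
    · exact std_cons.2 ⟨(mem_tabs.1 hl).2, (hz l (mem_tabs.1 hl).2 ((hV' l).1 hp).1).2.1⟩
    · obtain ⟨hl, hy⟩ := std_cons.1 hs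
      rw [hV']
      refine ⟨fun ⟨h6, y', l', e, h7, h8⟩ => ?_, fun ⟨⟨h6, y', h7, h8, h9⟩, e⟩ => ?_⟩
      · obtain ⟨rfl, rfl⟩ := List.cons.inj e
        exact ⟨⟨h8, y, h7, hy, h6⟩, hz' l hl h8 y h7 hy⟩
      · obtain rfl : y' = y := (hz' l hl h6 y' h7 h8).trans e.symm
        exact ⟨h9, y', l, rfl, h7, h6⟩
  have k0 := key (fun _ => True) (by rw [t.eU_top hn]; exact one_mem _) _ fun _ => Iff.rfl
  refine Λ.toLat.fin_step (p := fun l => t.pp l (z l)) (fun l hl hc => ?_) ?_ k0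
    (key U he _ fun _ => Iff.rfl) fun l ⟨h1, y, h2, h3, _⟩ => ⟨h1, y, h2, h3, trivial⟩
  · have := h.pp l (mem_tabs.1 hl).2 (z l)
    rwa [(hz l (mem_tabs.1 hl).2 hc.1).2.2, zpow_zero, mul_one] at this
  · rw [t.eU_congr (V := fun l => Cl (rs m) l u) fun l hl => ⟨fun h => h.1, fun hc =>
      ⟨hc, z l, (hz l (mem_tabs.1 hl).2 hc).1, (hz l (mem_tabs.1 hl).2 hc).2.1, trivial⟩⟩]
    exact h.cl hn.le u

/-- Case (ii): the same with two steps, cut by `fk` (`tau_two`). -/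
theorem Lat1.Rs.two (h : Λ.Rs m) {u : List Box} {x : Box} (hn : u.length + 1 < t.n)
    (hA : aa t.lv u x + aa t.lv u (K.par m x) = 2) {U : List Box → Prop}
    (hU : ∀ s u : List Box, s.Perm u → U s → U u) (he : t.eU (u.length + 2) U ∈ Λ.HR) :
    t.eU u.length (fun l => Cl (rs m) l u ∧ U (K.par m x :: x :: l)) ∈ Λ.HR := by
  have hn' : u.length < t.n := by omega
  have hz : ∀ l, Std t.lv l → Cl (rs m) l u → aa t.lv l x = 1 ∧ aa t.lv l (K.par m x) = 1 :=
    fun l hl hc => by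
      have e := (h.aap hc x).trans hA
      have c1 := hl.aa_cases x
      have c2 := hl.aa_cases (K.par m x)
      omega
  have s1 : ∀ l, Std t.lv l → Cl (rs m) l u → Std t.lv (K.par m x :: x :: l) := fun l hl hc =>
    std_cons.2 ⟨std_cons.2 ⟨hl, (hz l hl hc).1⟩, (gl_far _ m x l).trans (hz l hl hc).2⟩
  have s2 : ∀ l, Std t.lv l → Cl (rs m) l u → Std t.lv (x :: K.par m x :: l) := fun l hl hc =>
    std_cons.2 ⟨std_cons.2 ⟨hl, (hz l hl hc).2⟩, (gl_far' _ m x l).trans (hz l hl hc).1⟩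
  have hf : t.fk u.length ∈ Λ.HR := Λ.smul _ Λ.two.2.1 _ (add_mem (Λ.hT _) (Λ.toLat.one_smul
    (by rw [Units.val_inv_eq_inv_val]; exact Λ.hq.2.1)))
  have key : ∀ V : List Box → Prop, (∀ s u : List Box, s.Perm u → V s → V u) →
      t.eU (u.length + 2) V ∈ Λ.HR →
      t.wS u.length (fun l => Cl (rs m) l u ∧ V (K.par m x :: x :: l))
        (fun l => t.pp (x :: l) (K.par m x) * t.pp l x) ∈ Λ.HR := fun V hP hV => by
    refine Λ.dual _ hn'.le _ (t.wS_mem _ _ _) fun a ha ha' => ?_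
    have h5 := Λ.tau _ (mul_mem (mul_mem hV (mul_mem (h.pj (u.length + 1) x)
      (mul_mem (h.pj u.length x) (h.cl hn'.le u)))) (mul_mem hf ha'))
    rw [t.pj_eU hn', t.pj_eU hn, t.eU_mul, t.eU_congr (V := fun s =>
      (∃ l ∈ tabs t.lv u.length, (Cl (rs m) l u ∧ V (K.par m x :: x :: l)) ∧
        s = K.par m x :: x :: l) ∨ ∃ l ∈ tabs t.lv u.length,
        (Cl (rs m) l u ∧ V (K.par m x :: x :: l)) ∧ s = x :: K.par m x :: l) fun s hs => ?_,
      t.eU_or _ ?_,
      t.eU_img (f := fun l => K.par m x :: x :: l) (fun _ _ e => by simpa using e) fun l hl hc =>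
        mem_tabs.2 ⟨by simp [(mem_tabs.1 hl).1], s1 l (mem_tabs.1 hl).2 hc.1⟩,
      t.eU_img (f := fun l => x :: K.par m x :: l) (fun _ _ e => by simpa using e) fun l hl hc =>
        mem_tabs.2 ⟨by simp [(mem_tabs.1 hl).1], s2 l (mem_tabs.1 hl).2 hc.1⟩,
      sS, sS, ← Finset.sum_add_distrib] at h5
    · rw [← t.tr_sS (f := fun l => t.E (K.par m x :: x :: l) + t.E (x :: K.par m x :: l))
        (b := t.fk u.length * a) fun l hl hc => ?_]
      · exact h5
      · obtain ⟨e, hl⟩ := mem_tabs.1 hl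
        rw [← mul_assoc, ← e]
        exact t.tau_two (s1 l hl hc.1) (s2 l hl hc.1) (e ▸ hn) (e ▸ ha)
    · rintro s - ⟨l, -, -, rfl⟩ ⟨l', -, -, e⟩
      exact par_ne m x (List.cons.inj e).1
    · obtain ⟨e, hs⟩ := mem_tabs.1 hs
      constructor
      · rintro ⟨h6, y, _, rfl, h7, y', l, rfl, h8, h9⟩
        have hl : l ∈ tabs t.lv u.length :=
          mem_tabs.2 ⟨by simpa using e, (std_cons.1 (std_cons.1 hs).1).1⟩
        rcases rs_eq_iff.1 h7.symm with rfl | rfl <;> rcases rs_eq_iff.1 h8.symm with e' | e'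
        · exact absurd e'.symm hs.ne
        · exact Or.inr ⟨l, hl, ⟨h9, hP _ _ (List.Perm.swap _ _ _) (e' ▸ h6)⟩, by rw [e']⟩
        · exact Or.inl ⟨l, hl, ⟨h9, e' ▸ h6⟩, by rw [e']⟩
        · exact absurd e'.symm hs.ne
      · rintro (⟨l, -, hc, rfl⟩ | ⟨l, -, hc, rfl⟩)
        · exact ⟨hc.2, _, _, rfl, gl_rs m x, _, _, rfl, rfl, hc.1⟩
        · exact ⟨hP _ _ (List.Perm.swap _ _ _) hc.2, _, _, rfl, rfl, _, _, rfl, gl_rs m x, hc.1⟩
  refine Λ.toLat.fin_step (fun l hl hc => ?_) ?_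
    (key (fun _ => True) (fun _ _ _ h => h) (by rw [t.eU_top hn]; exact one_mem _))
    (key U hU he) fun l hc => ⟨hc.1, trivial⟩
  · have hl := (mem_tabs.1 hl).2
    obtain ⟨a1, a2⟩ := hz l hl hc.1
    have u1 := h.pp l hl x
    have u2 := h.pp (x :: l) (std_cons.2 ⟨hl, a1⟩) (K.par m x)
    rw [a2, zpow_one] at u1
    rw [par_par, show aa t.lv (x :: l : List Box) x = -1 from
      (aa_cons_self _ x l).trans (by rw [a1]; rfl), zpow_neg_one] at u2
    convert u2.mul u1 using 1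
    have := right_ne_zero_of_mul u1.2.2
    field_simp
  · simp only [and_true]
    exact h.cl hn'.le u

theorem Lat1.Rs.red (h : Λ.Rs m) {k : ℕ} (hk : k ≤ t.n) {U : List Box → Prop}
    (hU : ∀ s u : List Box, s.Perm u → U s → U u) (he : t.eU k U ∈ Λ.HR) (N : ℕ) :
    ∀ s ∈ tabs t.lv k, (∀ x, 0 ≤ aa t.lv s x + aa t.lv s (K.par m x)) →
      s.countP (fun x => x.1) = N → ∃ s0, Cl (rs m) s s0 ∧ (∀ x ∈ s0, x.1 = false) ∧
        (U s ↔ U s0) := by
  induction N with
  | zero =>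
    intro s _ _ h0
    exact ⟨s, Cl.refl _ s, fun x hx => by simpa using List.countP_eq_zero.1 h0 x hx, Iff.rfl⟩
  | succ N ih =>
    intro s hs hA h0
    obtain ⟨e, hs⟩ := mem_tabs.1 hs
    obtain ⟨x, hx, hx'⟩ := List.countP_pos_iff.1 (show 0 < s.countP fun x => x.1 by omega)
    obtain ⟨y, hy, hy'⟩ := exists_rem_comp hs hx
    obtain ⟨l, h1, h2⟩ := hs.exists_rem hy'
    have a1 := hA y
    have a2 := hs.aa_cases (K.par m y)
    have h3 : Std t.lv (K.par m y :: l) := std_cons.2 ⟨(std_cons.1 h1).1, by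
      rw [← gl_far _ m y l, aa_perm h2]; omega⟩
    have el : l.length + 1 = k := by rw [← e, ← h2.length_eq, List.length_cons]
    have hc : Cl (rs m) s (K.par m y :: l) := (Cl.of_perm _ h2.symm).trans
      ((Cl.cons_iff (gl_rs m y).symm).2 (Cl.refl _ l))
    have hy1 : y.1 = true := hy.trans hx'
    obtain ⟨s0, k1, k2, k3⟩ := ih (K.par m y :: l) (mem_tabs.2 ⟨el, h3⟩)
      (fun x => h.aap hc x ▸ hA x) (by
        rw [← h2.countP_eq, List.countP_cons_of_pos (by exact hy1)] at h0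
        rw [List.countP_cons_of_neg (by simp [par_fst, hy1])]
        omega)
    refine ⟨s0, hc.trans k1, k2, Iff.trans ⟨fun h4 => ?_, fun h4 => ?_⟩ k3⟩
    · exact h.move (by omega) h1 h3 hU (el ▸ he) (hU _ _ h2.symm h4)
    · have := h.move (by omega) h3 (by rwa [par_par]) hU (el ▸ he) h4
      rw [par_par] at this
      exact hU _ _ h2 this

theorem gl_one {s : List Box} (hs : Std t.lv s) {x : Box}
    (hA : aa t.lv s x + aa t.lv s (K.par m x) = -1) : ∃ y l, rs m y = rs m x ∧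
      Std t.lv (y :: l) ∧ (y :: l).Perm s ∧ aa t.lv l (K.par m y) = 0 := by
  have c1 := hs.aa_cases x
  have c2 := hs.aa_cases (K.par m x)
  by_cases h1 : aa t.lv s x = -1
  · obtain ⟨l, k1, k2⟩ := hs.exists_rem h1
    exact ⟨x, l, rfl, k1, k2, by rw [← gl_far _ m x l, aa_perm k2]; omega⟩
  · obtain ⟨l, k1, k2⟩ := hs.exists_rem (x := K.par m x) (by omega)
    exact ⟨_, l, gl_rs m x, k1, k2, by rw [par_par, ← gl_far' _ m x l, aa_perm k2]; omega⟩

theorem gl_two {s : List Box} (hs : Std t.lv s) {x : Box}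
    (hA : aa t.lv s x + aa t.lv s (K.par m x) = -2) : ∃ l, Std t.lv l ∧
      (K.par m x :: x :: l).Perm s ∧ aa t.lv l x + aa t.lv l (K.par m x) = 2 := by
  have c1 := hs.aa_cases x
  have c2 := hs.aa_cases (K.par m x)
  obtain ⟨l, k1, k2⟩ := hs.exists_rem (x := K.par m x) (by omega)
  obtain ⟨k3, k4⟩ := std_cons.1 k1
  obtain ⟨l', j1, j2⟩ := k3.exists_rem (x := x) (by rw [← gl_far' _ m x l, aa_perm k2]; omega)
  refine ⟨l', (std_cons.1 j1).1, (j2.cons _).trans k2, ?_⟩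
  rw [(std_cons.1 j1).2, ← gl_far _ m x l', aa_perm j2, k4]
  rfl

/-- Strong induction on the length. With `A x = aa s x + aa s (par x)` (`aa_par`): if some
`A x = -1` use `one`, if some `A x = -2` use `two` (`Std.exists_rem`); else `move` and induction on
the number of boxes in the component `true` reduce to lists in the component `false` (`Cl.perm`). -/
theorem Lat1.Rs.glue (h : Λ.Rs m) {k : ℕ} (hk : k ≤ t.n) {U : List Box → Prop}
    (hU : ∀ s u : List Box, s.Perm u → U s → U u) (he : t.eU k U ∈ Λ.HR) {s u : List Box}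
    (hs : s ∈ tabs t.lv k) (hu : u ∈ tabs t.lv k) (hc : Cl (rs m) s u) (h1 : U s) : U u := by
  induction k using Nat.strong_induction_on generalizing U s u with
  | _ k ih =>
  obtain ⟨es, ss⟩ := mem_tabs.1 hs
  obtain ⟨eu, su⟩ := mem_tabs.1 hu
  by_cases c1 : ∃ x, aa t.lv s x + aa t.lv s (K.par m x) = -1
  · obtain ⟨x, hx⟩ := c1
    obtain ⟨y, l, a1, a2, a3, -⟩ := gl_one ss hx
    obtain ⟨z, v, b1, b2, b3, b4⟩ := gl_one su ((h.aap hc x).symm.trans hx)
    have el : l.length + 1 = k := by rw [← es, ← a3.length_eq, List.length_cons]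
    have ev : v.length + 1 = k := by rw [← eu, ← b3.length_eq, List.length_cons]
    have hc' : Cl (rs m) l v := (Cl.cons_iff (a1.trans b1.symm)).1
      (((Cl.of_perm _ a3).trans hc).trans (Cl.of_perm _ b3.symm))
    have h2 := h.one (u := v) (x := z) (by omega) (by rw [(std_cons.1 b2).2, b4]; rfl) hU (ev ▸ he)
    obtain ⟨-, w, w1, w2, w3⟩ := ih v.length (by omega) (by omega)
      (fun s u hp ⟨k1, w, k2, k3, k4⟩ => ⟨(Cl.of_perm _ hp.symm).trans k1, w, k2,
        aa_perm hp w ▸ k3, hU _ _ (hp.cons w) k4⟩) h2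
      (mem_tabs.2 ⟨by omega, (std_cons.1 a2).1⟩) (mem_tabs.2 ⟨rfl, (std_cons.1 b2).1⟩) hc'
      ⟨hc', y, a1.trans b1.symm, (std_cons.1 a2).2, hU _ _ a3.symm h1⟩
    rcases rs_eq_iff.1 w1.symm with rfl | rfl
    · exact hU _ _ b3 w3
    · rw [b4] at w2
      exact absurd w2 zero_ne_one
  by_cases c2 : ∃ x, aa t.lv s x + aa t.lv s (K.par m x) = -2
  · obtain ⟨x, hx⟩ := c2
    obtain ⟨l, a1, a2, -⟩ := gl_two ss hx
    obtain ⟨v, b1, b2, b3⟩ := gl_two su ((h.aap hc x).symm.trans hx)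
    have el : l.length + 2 = k := by rw [← es, ← a2.length_eq]; rfl
    have ev : v.length + 2 = k := by rw [← eu, ← b2.length_eq]; rfl
    have hc' : Cl (rs m) l v := (Cl.cons_iff rfl).1 ((Cl.cons_iff rfl).1
      (((Cl.of_perm _ a2).trans hc).trans (Cl.of_perm _ b2.symm)))
    have h2 := h.two (u := v) (x := x) (by omega) b3 hU (ev ▸ he)
    exact hU _ _ b2 (ih v.length (by omega) (by omega)
      (fun s u hp ⟨k1, k2⟩ => ⟨(Cl.of_perm _ hp.symm).trans k1,
        hU _ _ ((hp.cons _).cons _) k2⟩) h2 (mem_tabs.2 ⟨by omega, a1⟩) (mem_tabs.2 ⟨rfl, b1⟩) hc'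
      ⟨hc', hU _ _ a2.symm h1⟩).2
  have hA : ∀ x, 0 ≤ aa t.lv s x + aa t.lv s (K.par m x) := fun x => by
    have d1 := ss.aa_cases x
    have d2 := ss.aa_cases (K.par m x)
    have d3 : _ ≠ _ := fun e => c1 ⟨x, e⟩
    have d4 : _ ≠ _ := fun e => c2 ⟨x, e⟩
    omega
  obtain ⟨s0, a1, a2, a3⟩ := h.red hk hU he _ s hs hA rfl
  obtain ⟨u0, b1, b2, b3⟩ := h.red hk hU he _ u hu (fun x => h.aap hc x ▸ hA x) rfl
  refine b3.2 (hU _ _ (((a1.symm.trans hc).trans b1).perm fun x hx y hy e => ?_) (a3.1 h1))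
  refine ((rs_eq_iff.1 e).resolve_right fun e' => ?_).symm
  have := b2 y hy
  rw [e', par_fst, a2 x hx] at this
  exact absurd this (by decide)

end Tw

end

end Pool.Agent.P.MP_1a0ecf_al.K
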