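import Pool.Agent.P.MP_1a0ecf_al.K.I0

/-! Package I1: two-sided cells of dihedral groups. -/

namespace Pool.Agent.P.MP_1a0ecf_al.F

open scoped Classical

noncomputable section

open I0 L1P

/-- rank two with generators `i`, `j` and longest element `w` -/
structure Dih (X : Cox) (i j : Fin X.n) (w : X.W) : Prop where
  ne : i ≠ j
  all : ∀ k, k = i ∨ k = j
  top : ∀ y, X.len (X.s i * y) < X.len y → X.len (X.s j * y) < X.len y → y = w
  max : ∀ y, y ≠ w → X.len y < X.len w
  three : 3 ≤ X.len w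

theorem exists_dih {X : Cox} {i j : Fin X.n} (hne : i ≠ j) (hall : ∀ k, k = i ∨ k = j)
    (h3 : 3 ≤ X.M i j) : ∃ w, Dih X i j w := by
  set a := X.cs.wordProd (CoxeterSystem.alternatingWord i j (X.M i j)) with ha
  have h1 : ∀ k, X.len (X.s k * a) + 1 ≤ X.M i j := fun k => by
    have e := X.cs.wordProd_braidWord_eq i j
    rw [CoxeterSystem.braidWord, CoxeterSystem.braidWord, X.M.symmetric j i] at e
    obtain ⟨p, hp⟩ : ∃ p, X.M i j = p + 1 := ⟨X.M i j - 1, by omega⟩
    have b : ∀ i' j', a = X.cs.wordProd (CoxeterSystem.alternatingWord i' j' (p + 1)) →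
        k = (if Even p then j' else i') → X.len (X.s k * a) + 1 ≤ X.M i j := fun i' j' e1 e2 => by
      rw [e1, CoxeterSystem.alternatingWord_succ', X.cs.wordProd_cons, ← e2, ss, hp]
      simpa using X.cs.length_wordProd_le (CoxeterSystem.alternatingWord i' j' p)
    rw [hp] at e ha
    by_cases c : Even p <;> rcases hall k with rfl | rfl
    · exact b _ _ (ha.trans e) (by rw [if_pos c])
    · exact b _ _ ha (by rw [if_pos c])
    · exact b _ _ ha (by rw [if_neg c])
    · exact b _ _ (ha.trans e) (by rw [if_neg c])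
  have h2 : ∀ y, X.len (X.s i * y) < X.len y → X.len (X.s j * y) < X.len y →
      y = a⁻¹ ∧ X.len y = X.M i j := fun y hi hj => by
    obtain ⟨v, e1, e2⟩ := X.two_desc (w := y⁻¹) hne (by rwa [← inv_s, len_inv, len_inv])
      (by rwa [← inv_s, len_inv, len_inv])
    by_cases hv : v = 1
    · rw [hv, one_mul] at e1
      rw [hv, len_inv] at e2
      exact ⟨by rw [ha, ← e1, inv_inv], by simpa [Cox0.len] using e2⟩
    obtain ⟨k, hk⟩ := X.cs.exists_rightDescent_of_ne_one hv
    have hk' : X.len (v * X.s k) < X.len v := hk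
    have c : X.len (v * X.s k * (X.s k * a)) ≤ X.len (v * X.s k) + X.len (X.s k * a) :=
      X.cs.length_mul_le _ _
    have := h1 k
    rw [mul_assoc, ss, ha, ← e1] at c
    rw [ha] at this
    omega
  obtain ⟨u, -, hu⟩ := Finset.exists_max_image Finset.univ X.len ⟨1, Finset.mem_univ _⟩
  have h4 : ∀ y, X.len u ≤ X.len y → y = a⁻¹ ∧ X.len y = X.M i j := fun y hy => by
    have b1 := len_s y i
    have b2 := len_s y j
    have b3 := hu (X.s i * y) (Finset.mem_univ _)
    have b4 := hu (X.s j * y) (Finset.mem_univ _)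
    exact h2 y (by omega) (by omega)
  obtain ⟨h5, h6⟩ := h4 u le_rfl
  exact ⟨u, hne, hall, fun y b1 b2 => (h2 y b1 b2).1.trans h5.symm,
    fun y hy => not_le.1 fun c => hy ((h4 y c).1.trans h5.symm), h6 ▸ h3⟩

namespace Dih

variable {X : Cox} {i j : Fin X.n} {w : X.W} (H : Dih X i j w)

theorem len_one : X.len 1 = 0 := X.cs.length_one

theorem len_simple (k : Fin X.n) : X.len (X.s k) = 1 := X.cs.length_simple k

theorem s_eq_one {x : X.W} {k : Fin X.n} : X.s k * x = 1 ↔ x = X.s k :=
  ⟨fun e => by rw [← ss x k, e, mul_one], fun e => by rw [e, X.cs.simple_mul_simple_self]⟩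

theorem s_eq {x y : X.W} {k : Fin X.n} : X.s k * x = y ↔ x = X.s k * y :=
  ⟨fun e => by rw [← e, ss], fun e => by rw [e, ss]⟩

include H

theorem symm : Dih X j i w :=
  ⟨H.ne.symm, fun k => (H.all k).symm, fun y a b => H.top y b a, H.max, H.three⟩

theorem inv : w⁻¹ = w := by_contra fun c => absurd (len_inv w) (H.max _ c).ne

theorem desc (k : Fin X.n) : X.len (X.s k * w) + 1 = X.len w := by
  have a := len_s w k
  have b := H.max (X.s k * w) fun e => by rw [e] at a; omega
  omega

theorem other {x : X.W} (hx : x ≠ 1) (h : X.len x < X.len (X.s i * x)) :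
    X.len (X.s j * x) < X.len x := by
  obtain ⟨k, hk⟩ := X.cs.exists_leftDescent_of_ne_one hx
  have hk' : X.len (X.s k * x) < X.len x := hk
  rcases H.all k with rfl | rfl
  · omega
  · exact hk'

theorem asc {x : X.W} (hx : x ≠ w) (h : X.len (X.s i * x) < X.len x) :
    X.len x < X.len (X.s j * x) := by
  have a := len_s x j
  by_contra c
  exact hx (H.top x h (by omega))

theorem len_two : X.len (X.s j * X.s i) = 2 := by
  have a := X.g6_asc H.ne.symm
  have b := len_s (X.s i) j
  rw [len_simple] at a b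
  omega

theorem uniq {x y : X.W} (h : X.len x = X.len y) (hx : X.len (X.s j * x) < X.len x)
    (hy : X.len (X.s j * y) < X.len y) : x = y := by
  induction hn : X.len x using Nat.strong_induction_on generalizing i j x y with
  | _ n ih =>
    have a := len_s x j
    have b := len_s y j
    rw [← ss x j, ← ss y j]
    congr 1
    by_cases c : X.len (X.s j * x) = 0
    · rw [X.cs.length_eq_zero_iff.1 c, X.cs.length_eq_zero_iff.1 (by
        change X.len (X.s j * y) = 0
        omega : X.cs.length (X.s j * y) = 0)]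
    · refine ih _ (hn ▸ hx) H.symm (by omega) (H.symm.other (fun e => c ?_) (by rwa [ss]))
        (H.symm.other (fun e => c ?_) (by rwa [ss])) rfl
      · rw [e, len_one]
      · rw [e, len_one] at b
        omega

theorem comm (h : ¬ IsConj (X.s i) (X.s j)) : X.s i * w = w * X.s i := by
  have a : X.len (w * X.s i) + 1 = X.len w := by
    rw [← len_inv, mul_inv_rev, H.inv, X.cs.inv_simple]
    exact H.desc i
  have b : ∀ k, X.len (w * X.s i) < X.len (X.s k * (w * X.s i)) → X.s k * w = w * X.s i :=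
    fun k hk => by
      have c := len_s (w * X.s i) k
      exact s_eq.2 (by_contra fun e => absurd (H.max _ (Ne.symm e)) (by omega))
  by_cases c : X.len (w * X.s i) < X.len (X.s i * (w * X.s i))
  · exact b i c
  have d := len_s (w * X.s i) i
  have e := b j (H.asc (fun e => by rw [e] at a; omega) (by omega))
  exact absurd (isConj_iff.2 ⟨w, by rw [← e, mul_inv_cancel_right]⟩) h

variable {Γ : Type} [AddCommGroup Γ] [LinearOrder Γ] [IsOrderedAddMonoid Γ]
  {L : Fin X.n → Γ} (D : KL X Γ L)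

theorem step (hi : 0 ≤ L i) (hij : L i ≤ L j) {y : X.W} (h1 : X.len (X.s i * y) < X.len y)
    (h2 : y ≠ w) (h3 : y ≠ X.s i) : D.Sim (X.s i * y) y := by
  rcases hi.eq_or_lt with e | e
  · exact D.i0_sim0 e.symm y
  · refine ⟨D.i0_down e hij h1 (H.asc h2 h1) (H.other (mt s_eq_one.1 h3) (by rwa [ss])), ?_⟩
    simpa only [ss] using D.i0_up (i := i) (x := X.s i * y) (by rwa [ss])

/-- equal parameters -/
theorem sim_eq (hi : 0 ≤ L i) (hij : L i = L j) {y : X.W} (h1 : y ≠ 1) (h2 : y ≠ w) :
    D.Sim y (X.s i) := by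
  have h3 := H.three
  have a : ∀ {i j : Fin X.n}, Dih X i j w → 0 ≤ L i → L i = L j →
      D.Sim (X.s j) (X.s i * X.s j) := fun {i j} H hi hij => by
    have b := H.symm.len_two
    simpa only [ss] using H.step D hi hij.le (y := X.s i * X.s j) (by rw [ss, len_simple, b]; omega)
      (fun e => by rw [e] at b; omega) fun e => by rw [e, len_simple] at b; omega
  have b : D.Sim (X.s j) (X.s i) := by
    have c := (a H hi hij).i0_inv
    rw [inv_s, X.cs.inv_simple] at c
    exact c.i0_trans (a H.symm (hij ▸ hi) hij.symm).i0_symm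
  induction hn : X.len y using Nat.strong_induction_on generalizing y with
  | _ n ih =>
    have c : ∀ {k k' : Fin X.n}, Dih X k k' w → 0 ≤ L k → L k = L k' → D.Sim (X.s k) (X.s i) →
        X.len (X.s k * y) < X.len y → D.Sim y (X.s i) := fun {k k'} H' hk hk' d e => by
      by_cases f : y = X.s k
      · rwa [f]
      · refine (H'.step D hk hk'.le e h2 f).i0_symm.i0_trans
          (ih _ (hn ▸ e) (mt s_eq_one.1 f) (fun g => ?_) rfl)
        have := H.max y h2
        rw [g] at e
        omega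
    have d := len_s y i
    by_cases e : X.len (X.s i * y) < X.len y
    · exact c H hi hij (D.i0_sim_refl _) e
    · exact c H.symm (hij ▸ hi) hij.symm b (H.other h1 (by omega))

theorem lower4 (hi : 0 < L i) (hj : 0 < L j) {x y : X.W} (h : D.Le x y) (hy : y ≠ 1) : x ≠ 1 := by
  refine D.i0_lower_r (S := {x | x ≠ 1}) (fun x hx => inv_ne_one.2 hx) (fun y hy k => ?_) x y h hy
  obtain ⟨r, hr⟩ := X.cs.exists_leftDescent_of_ne_one hy
  refine Submodule.span_mono (Set.image_mono fun x hx e => ?_)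
    (D.i0_suppC (i := r) (by rcases H.all r with rfl | rfl <;> assumption) hr _)
  rw [e, Set.mem_ofPred_eq, len_one] at hx
  omega

theorem lower1 (hi : 0 < L i) (hj : 0 < L j) {x : X.W} (h : D.Le x w) : x = w := by
  refine D.i0_lower_l (S := {w}) (fun x hx => ?_) (fun y hy k => ?_) x w h rfl
  · rw [Set.mem_singleton_iff.1 hx, H.inv]
    rfl
  · have a := H.desc k
    rw [Set.mem_singleton_iff.1 hy, D.i0_desc (i := k)
      (by rcases H.all k with rfl | rfl <;> assumption) (by omega)]
    exact Submodule.smul_mem _ _ (Submodule.subset_span ⟨w, rfl, rfl⟩)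

theorem C_eq (hi : 0 ≤ L i) (hij : L i < L j) {x : X.W} (h1 : X.len (X.s j * x) < X.len x)
    (h2 : X.len x < X.len (X.s i * x)) :
    ∃ c : ZG Γ, D.C (X.s i * x) = D.toHA.Ts i * D.C x + c • D.C x := by
  rcases hi.eq_or_lt with e | e
  · exact ⟨0, by rw [D.i0_C0 e.symm, zero_smul, add_zero]⟩
  · refine ⟨ev (-L i), ?_⟩
    rw [← D.i0_E_eq e hij h1 h2 fun y a b => ?_, KL.iE, add_mul, smul_mul_assoc, one_mul]
    rw [H.top y a b]
    refine H.max x fun c => ?_
    have := H.desc i
    rw [c] at h2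
    omega

theorem lower3 (hi : 0 ≤ L i) (hij : L i < L j) {x y : X.W} (h : D.Le x y)
    (hy : y ≠ 1 ∧ y ≠ X.s i) : x ≠ 1 ∧ x ≠ X.s i := by
  have hj := hi.trans_lt hij
  have a : ∀ x, X.len (X.s j * x) < X.len x → x ≠ 1 ∧ x ≠ X.s i := fun x hx => by
    constructor <;> rintro rfl
    · rw [len_one] at hx
      omega
    · rw [H.len_two, len_simple] at hx
      omega
  have a' : ∀ x, X.len (X.s j * x) < X.len x → X.s i * x ≠ 1 ∧ X.s i * x ≠ X.s i := fun x hx =>
    ⟨mt s_eq_one.1 (a x hx).2, fun e => (a x hx).1 (mul_eq_left.1 e)⟩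
  have b : D.spC {x | X.len (X.s j * x) < X.len x} ≤ D.spC {x | x ≠ 1 ∧ x ≠ X.s i} :=
    Submodule.span_mono (Set.image_mono a)
  have c : ∀ g ∈ D.spC {x | X.len (X.s j * x) < X.len x},
      D.toHA.Ts i * g ∈ D.spC {x | x ≠ 1 ∧ x ≠ X.s i} := fun g hg => by
    induction hg using Submodule.span_induction with
    | mem g hg =>
      obtain ⟨x, hx, rfl⟩ := hg
      have d := len_s x i
      have m1 : D.C x ∈ D.spC {x | x ≠ 1 ∧ x ≠ X.s i} := Submodule.subset_span ⟨x, a x hx, rfl⟩
      have m2 : D.C (X.s i * x) ∈ D.spC {x | x ≠ 1 ∧ x ≠ X.s i} :=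
        Submodule.subset_span ⟨_, a' x hx, rfl⟩
      by_cases e : X.len x < X.len (X.s i * x)
      · obtain ⟨c, hc⟩ := H.C_eq D hi hij hx e
        rw [← sub_eq_iff_eq_add.2 hc]
        exact sub_mem m2 (Submodule.smul_mem _ _ m1)
      rcases hi.eq_or_lt with f | f
      · rwa [D.i0_C0 f.symm]
      · rw [D.i0_desc f (by omega)]
        exact Submodule.smul_mem _ _ m1
    | zero => simp
    | add b c _ _ hb hc => rw [mul_add]; exact add_mem hb hc
    | smul r b _ hb => rw [mul_smul_comm]; exact Submodule.smul_mem _ _ hb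
  refine D.i0_lower_r (S := {x | x ≠ 1 ∧ x ≠ X.s i}) (fun x hx => ⟨inv_ne_one.2 hx.1, fun e => hx.2
    (by rw [← inv_inv x, e, X.cs.inv_simple])⟩) (fun y hy k => ?_) x y h hy
  have d := len_s y j
  by_cases e : X.len (X.s j * y) < X.len y
  · exact b (D.i0_suppC hj e _)
  have f := H.symm.other hy.1 (by omega)
  have g := H.other (x := X.s i * y) (mt s_eq_one.1 hy.2) (by rwa [ss])
  obtain ⟨r, hr⟩ := H.C_eq D hi hij g (by rwa [ss])
  rw [ss] at hr
  rw [hr, add_mul, mul_assoc, smul_mul_assoc]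
  exact add_mem (c _ (D.i0_suppC hj g _)) (Submodule.smul_mem _ _ (b (D.i0_suppC hj g _)))

theorem desc_sw : X.len (X.s j * (X.s i * w)) < X.len (X.s i * w) := by
  have a := H.desc i
  have b := H.three
  refine H.other (fun e => ?_) (by rw [ss]; omega)
  rw [e, len_one] at a
  omega

theorem lower2 (hi : 0 ≤ L i) (hij : L i < L j) (hc : X.s i * w = w * X.s i) {x y : X.W}
    (h : D.Le x y) (hy : y = w ∨ y = X.s i * w) : x = w ∨ x = X.s i * w := by
  have hj := hi.trans_lt hij
  have a := H.desc i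
  have a' := H.desc j
  have m1 : D.C w ∈ D.spC {x | x = w ∨ x = X.s i * w} := Submodule.subset_span ⟨_, Or.inl rfl, rfl⟩
  have m2 : D.C (X.s i * w) ∈ D.spC {x | x = w ∨ x = X.s i * w} :=
    Submodule.subset_span ⟨_, Or.inr rfl, rfl⟩
  refine D.i0_lower_l (S := {x | x = w ∨ x = X.s i * w}) ?_ ?_ x y h hy
  · rintro x (rfl | rfl)
    · exact Or.inl H.inv
    · exact Or.inr (by rw [inv_s, H.inv, hc])
  intro y hy k
  rcases H.all k with rfl | rfl <;> rcases hy with rfl | rfl
  · rcases hi.eq_or_lt with f | f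
    · rwa [D.i0_C0 f.symm]
    · rw [D.i0_desc f (by omega)]
      exact Submodule.smul_mem _ _ m1
  · obtain ⟨c, e⟩ := H.C_eq D hi hij H.desc_sw (by rw [ss]; omega)
    rw [ss] at e
    rw [← sub_eq_iff_eq_add.2 e]
    exact sub_mem m1 (Submodule.smul_mem _ _ m2)
  · rw [D.i0_desc hj (by omega)]
    exact Submodule.smul_mem _ _ m1
  · rw [D.i0_desc hj H.desc_sw]
    exact Submodule.smul_mem _ _ m2

theorem key (hi : 0 ≤ L i) (hij : L i < L j) {x u y : X.W} (eu : X.s i * u = x)
    (ey : X.s j * y = u) (h0 : X.len (X.s j * x) < X.len x) (h1 : X.len x < X.len u)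
    (h2 : X.len u < X.len y) (h3 : X.len y < X.len (X.s i * y)) (h4 : X.s i * y ≠ w) :
    ∃ z, X.len z < X.len y ∧ D.Le z y := by
  have hj := hi.trans_lt hij
  have h5 := H.asc h4 (by rwa [ss])
  have l1 := len_s y i
  have l2 := len_s (X.s i * y) j
  have l3 := len_s (X.s j * x) i
  have eu' : X.s i * x = u := by rw [← eu, ss]
  have ey' : X.s j * u = y := by rw [← ey, ss]
  have dy : X.len (X.s j * y) < X.len y := by rwa [ey]
  have s1 : D.iE j * (D.iE i * D.C y) - D.C (X.s j * (X.s i * y)) ∈ low D.toHA (X.len y + 1) := by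
    have b := D.i0_E_low hj h5
    rw [show X.len (X.s i * y) = X.len y + 1 by omega] at b
    rcases hi.eq_or_lt with f | f
    · rw [KL.iE.eq_1 D i, add_mul, D.i0_C0 f.symm, mul_add, add_sub_right_comm, smul_mul_assoc,
        one_mul, mul_smul_comm, KL.iE.eq_1 D j, add_mul _ _ (D.C y), D.i0_desc hj dy,
        smul_mul_assoc, one_mul, ← add_smul, smul_smul]
      exact add_mem b (Submodule.smul_mem _ _ (D.i0_mem_low.2 fun z hz => D.i0_p_lt hz))
    · rwa [D.i0_E_eq f hij dy h3 fun z a b => ?_]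
      rw [H.top z a b]
      exact h3.trans (H.max _ h4)
  by_contra hn
  push Not at hn
  obtain ⟨μ, hμ⟩ : ∃ μ : ZG Γ,
      D.iE j * (D.iE i * D.C y) - D.C (X.s j * (X.s i * y)) = μ • D.C y := by
    refine ⟨D.C.repr (D.iE j * (D.iE i * D.C y) - D.C (X.s j * (X.s i * y))) y,
      D.C.ext_elem fun z => ?_⟩
    rw [map_smul, Finsupp.smul_apply, D.C.repr_self, smul_eq_mul]
    by_cases e : z = y
    · rw [e, Finsupp.single_eq_same, mul_one]
    rw [Finsupp.single_eq_of_ne e, mul_zero]
    rcases lt_or_ge (X.len y) (X.len z) with c | c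
    · exact D.i0_repr_low s1 c
    rw [map_sub, Finsupp.sub_apply, D.C.repr_self,
      Finsupp.single_eq_of_ne (fun d => by rw [d] at c; omega), sub_zero]
    by_contra d
    rcases c.eq_or_lt with c | c
    · exact e (H.uniq c (D.mem_spC.1 (D.i0_suppE hj _) z d) dy)
    · exact hn z c (D.le_of_repr (a := D.iE j * D.iE i) (b := 1) (by rwa [mul_one, mul_assoc]))
  have pu : D.T.repr (D.C y) u = ev (-L j) := by
    rw [D.i0_p_desc hj dy (by rwa [ey']), ey', D.i0_p_self, mul_one]
  have px : D.T.repr (D.C y) (X.s j * x) = ev (-L j) * D.T.repr (D.C y) x := by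
    rw [D.i0_p_desc hj dy (by rwa [ss]), ss]
  have c1 := congrArg (fun a => D.T.repr a y) hμ
  have c2 := congrArg (fun a => D.T.repr a x) hμ
  simp only [map_sub, Finsupp.sub_apply, map_smul, Finsupp.smul_apply, smul_eq_mul, D.i0_coE, ey,
    eu, eu', pu, px, D.i0_p_self, D.i0_p_lt h3, if_pos h0, if_pos h1, if_pos h2,
    if_neg (lt_asymm h1), if_neg (lt_asymm h3)] at c1 c2
  have n1 : Neg (D.T.repr (D.C y) x) := D.i0_p_neg fun e => by rw [e] at h1; omega
  have n2 : Neg (ev (L i) * ev (-L j)) := by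
    rw [ev_mul]
    exact neg_ev (by simpa using hij)
  have n3 : Neg (D.T.repr (D.C (X.s j * (X.s i * y))) y) :=
    D.i0_p_neg fun e => by have := congrArg X.len e; omega
  have n4 : Neg (D.T.repr (D.C (X.s j * (X.s i * y))) x) :=
    D.i0_p_neg fun e => by rw [← e] at l2; omega
  have n5 : Neg (D.T.repr (D.C y) (X.s i * (X.s j * x))) :=
    D.i0_p_neg fun e => by rw [e] at l3; omega
  have n6 : Neg (ev (if X.len (X.s i * (X.s j * x)) < X.len (X.s j * x) then L i else -L i) *
      (ev (-L j) * D.T.repr (D.C y) x)) := by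
    rw [← mul_assoc, ev_mul]
    refine D.i0_p_mul ?_ _ _
    split_ifs
    · simpa using hij
    · exact add_neg_of_nonpos_of_neg (neg_nonpos.2 hi) (neg_lt_zero.2 hj)
  have n := ((((n1.add n2).sub n3).mul n1).add n4).sub (n5.add n6)
  refine not_neg (le_refl (0 : Γ)) ((congrArg Neg ?_).mp n)
  rw [ev_zero]
  linear_combination D.T.repr (D.C y) x * c1 - c2 + ev_cancel (L j)

/-- unequal parameters -/
theorem sim_ne (hi : 0 ≤ L i) (hij : L i < L j) (hc : X.s i * w = w * X.s i) {y : X.W}
    (h1 : y ≠ 1) (h2 : y ≠ X.s i) (h3 : y ≠ w) (h4 : y ≠ X.s i * w) : D.Sim y (X.s j) := by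
  have lw := H.desc i
  induction hn : X.len y using Nat.strong_induction_on generalizing y with
  | _ n ih =>
    have a : ∀ y, X.len y = n → y ≠ 1 → y ≠ X.s i → y ≠ w → y ≠ X.s i * w →
        X.len (X.s i * y) < X.len y → D.Sim y (X.s j) := fun y hn h1 h2 h3 h4 h =>
      (H.step D hi hij.le h h3 h2).i0_symm.i0_trans (ih _ (hn ▸ h) (mt s_eq_one.1 h2)
        (fun e => h1 (mul_eq_left.1 e)) (mt s_eq.1 h4) (fun e => h3 (mul_left_cancel e)) rfl)
    have l1 := len_s y i
    have l2 := len_s y⁻¹ i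
    have l3 := H.max y h3
    by_cases c1 : X.len (X.s i * y) < X.len y
    · exact a y hn h1 h2 h3 h4 c1
    by_cases c2 : X.len (X.s i * y⁻¹) < X.len y⁻¹
    · have b := a y⁻¹ (by rwa [len_inv]) (inv_ne_one.2 h1)
        (fun e => h2 (by rw [← inv_inv y, e, X.cs.inv_simple]))
        (fun e => h3 (by rw [← inv_inv y, e, H.inv]))
        (fun e => h4 (by rw [← inv_inv y, e, inv_s, H.inv, hc])) c2
      simpa only [inv_inv, X.cs.inv_simple] using b.i0_inv
    by_cases c3 : y = X.s j
    · rw [c3]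
      exact D.i0_sim_refl _
    have d1 := H.other h1 (by omega)
    have d2 := H.symm.other (x := X.s j * y) (mt s_eq_one.1 c3) (by rwa [ss])
    have d3 : X.s j * y ≠ X.s i := fun e => by
      rw [s_eq.1 e, inv_s, X.cs.inv_simple, ss, len_simple, H.symm.len_two] at c2
      omega
    have d4 := H.other (x := X.s i * (X.s j * y)) (mt s_eq_one.1 d3) (by rwa [ss])
    obtain ⟨z, e1, e2⟩ := H.key D hi hij rfl rfl d4 d2 d1 (by omega) (mt s_eq.1 h4)
    have e3 := H.lower3 D hi hij e2 ⟨h1, h2⟩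
    have f1 := ih _ (hn ▸ e1) e3.1 e3.2 (fun e => by rw [e] at e1; omega)
      (fun e => by rw [e] at e1; omega) rfl
    have f2 := ih _ (hn ▸ d1) (mt s_eq_one.1 c3) d3 (fun e => by rw [e] at d1; omega)
      (fun e => by rw [e] at d1; omega) rfl
    have f3 : D.Le y (X.s j * y) := by
      simpa only [ss] using D.i0_up (i := j) (x := X.s j * y) (by rwa [ss])
    exact ⟨f3.trans f2.1, f1.2.trans e2⟩

end Dih

end

end Pool.Agent.P.MP_1a0ecf_al.F
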