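import Pool.Agent.P.MP_1a0ecf_al.K.Inst

/-! Package IB: the towers of types A and B. -/

namespace Pool.Agent.P.MP_1a0ecf_al.K

open Sn
open scoped Classical

set_option linter.unusedSectionVars false

noncomputable section

variable {X : F.Cox} {R : Type} [Field R] {q : Fin X.n → Rˣ}

/-- the subalgebra generated by some generators (`HA.sp_mul`, `Cox.exists_word`, `T_word`) -/
theorem adjoin_Ts (E : F.HA X R q) (I : Set (Fin X.n)) :
    Subalgebra.toSubmodule (Algebra.adjoin R (E.Ts '' I)) = E.sp (Wp X I) := by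
  apply le_antisymm
  · intro a ha
    rw [Subalgebra.mem_toSubmodule] at ha
    induction ha using Algebra.adjoin_induction with
    | mem x hx =>
      obtain ⟨i, hi, rfl⟩ := hx
      exact Submodule.subset_span ⟨_, Subgroup.subset_closure ⟨i, hi, rfl⟩, rfl⟩
    | algebraMap r =>
      rw [Algebra.algebraMap_eq_smul_one, ← E.T_one]
      exact Submodule.smul_mem _ _ (Submodule.subset_span ⟨_, Subgroup.one_mem _, rfl⟩)
    | add x y _ _ hx hy => exact Submodule.add_mem _ hx hy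
    | mul x y _ _ hx hy => exact E.sp_mul hx hy
  · refine Submodule.span_le.2 ?_
    rintro _ ⟨w, hw, rfl⟩
    obtain ⟨l, h1, h2, rfl⟩ := X.exists_word hw
    rw [E.T_word h2]
    refine Subalgebra.list_prod_mem _ fun x hx => ?_
    obtain ⟨i, hi, rfl⟩ := List.mem_map.1 hx
    exact Algebra.subset_adjoin ⟨i, h1 i hi, rfl⟩

theorem tau_sp (E : F.HA X R q) {I : Set (Fin X.n)} {a : E.H} (ha : a ∈ E.sp (Wp X I)) {w : X.W}
    (hw : w ∉ Wp X I) : E.tau (a * E.T w) = 0 := by
  by_contra h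
  rw [← inv_inv w, E.tau_mul_T] at h
  exact hw ((Subgroup.inv_mem_iff _).1 (E.mem_sp.1 ha _ h))

theorem s_mem_Wp {I : Set (Fin X.n)} {i : Fin X.n} : X.s i ∈ Wp X I ↔ i ∈ I := by
  refine ⟨fun h => X.desc_mem h ?_, fun h => Subgroup.subset_closure ⟨i, h, rfl⟩⟩
  rw [X.cs.simple_mul_simple_self]
  simp [F.Cox0.len]

private theorem sN_eq {k : ℕ} (h : k < X.n) : X.sN k = X.s ⟨k, h⟩ := dif_pos h

private theorem sN_one {k : ℕ} (h : ¬ k < X.n) : X.sN k = 1 := dif_neg h

private theorem sN_inv (k : ℕ) : (X.sN k)⁻¹ = X.sN k := by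
  by_cases h : k < X.n
  · rw [sN_eq h, X.cs.inv_simple]
  · rw [sN_one h, inv_one]

private theorem sN_mem {I : Set (Fin X.n)} {k : ℕ} (h : ∀ hk : k < X.n, (⟨k, hk⟩ : Fin X.n) ∈ I) :
    X.sN k ∈ Subgroup.closure (X.s '' I) := by
  by_cases hk : k < X.n
  · rw [sN_eq hk]; exact Subgroup.subset_closure ⟨_, h hk, rfl⟩
  · rw [sN_one hk]; exact Subgroup.one_mem _

theorem tB_mem (k : ℕ) : X.tB k ∈ Wp X {i | (i : ℕ) < k + 1} := by
  induction k with
  | zero => exact sN_mem fun _ => Nat.zero_lt_one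
  | succ k ih =>
    have h1 : X.sN (k + 1) ∈ Subgroup.closure (X.s '' {i | (i : ℕ) < k + 1 + 1}) :=
      sN_mem fun _ => Nat.lt_succ_self _
    exact Subgroup.mul_mem _ (Subgroup.mul_mem _ h1 (Subgroup.closure_mono
      (Set.image_mono fun i hi => Nat.lt_succ_of_lt hi) ih)) h1

private theorem pM_two {m i j : ℕ} (h : i + 1 < j) : F.pathM 0 m i j = 2 := by
  unfold F.pathM
  rw [if_neg (by omega), if_neg (by omega)]

private theorem pM_three {m i : ℕ} : F.pathM 0 m (i + 1) (i + 2) = 3 := by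
  unfold F.pathM
  rw [if_neg (by omega), if_pos (by omega), if_neg (by omega)]

private theorem pM_three' {i : ℕ} : F.pathM 0 3 i (i + 1) = 3 := by
  unfold F.pathM
  rw [if_neg (by omega), if_pos (by omega), ite_self]

private theorem comm_s {i j : Fin X.n} (h : X.M i j = 2) : Commute (X.s i) (X.s j) := by
  have h1 := X.cs.simple_mul_simple_pow i j
  rw [h, pow_two, mul_eq_one_iff_eq_inv, mul_inv_rev, X.cs.inv_simple, X.cs.inv_simple] at h1
  exact h1

private theorem braid_s {i j : Fin X.n} (h : X.M i j = 3) :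
    X.s i * X.s j * X.s i = X.s j * X.s i * X.s j := by
  have h1 := X.cs.simple_mul_simple_pow i j
  rw [h, pow_three'] at h1
  have h2 : X.s i * X.s j * X.s i * (X.s j * X.s i * X.s j) = 1 := by
    simpa only [mul_assoc] using h1
  rw [mul_eq_one_iff_eq_inv, mul_inv_rev, mul_inv_rev, X.cs.inv_simple, X.cs.inv_simple] at h2
  rw [h2, mul_assoc]

private theorem not_comm (hX : X.Is (F.pathM 0 4)) : ∀ (k : ℕ) (hk : k + 1 < X.n),
    ¬ Commute (X.s ⟨k + 1, hk⟩) (X.tB k)
  | 0, hk => fun h => by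
    have h0 : 0 < X.n := by omega
    rw [F.Cox.tB, sN_eq h0] at h
    have hne : (⟨0, h0⟩ : Fin X.n) ≠ ⟨0 + 1, hk⟩ := by simp
    have a1 := X.g6_asc hne
    have a2 := X.g6_asc hne.symm
    obtain ⟨v, -, hv⟩ := X.two_desc (w := X.s ⟨0, h0⟩ * X.s ⟨0 + 1, hk⟩) hne
      (by rw [← h.eq, X.cs.simple_mul_simple_cancel_right]; exact a2)
      (by rw [X.cs.simple_mul_simple_cancel_right]; exact a1)
    have h4 : X.M ⟨0, h0⟩ ⟨0 + 1, hk⟩ = 4 := hX _ _
    have h5 := X.cs.length_mul_le (X.s ⟨0, h0⟩) (X.s ⟨0 + 1, hk⟩)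
    rw [X.cs.length_simple, X.cs.length_simple] at h5
    simp only [F.Cox0.len] at hv
    omega
  | k + 1, hk => fun h => by
    have h0 : k + 1 < X.n := by omega
    refine not_comm hX k h0 ?_
    rw [F.Cox.tB, sN_eq h0] at h
    have c1 : Commute (X.s ⟨k + 1 + 1, hk⟩) (X.tB k) := by
      refine Subgroup.closure_induction (p := fun w _ => Commute (X.s ⟨k + 1 + 1, hk⟩) w) ?_
        (Commute.one_right _) (fun _ _ _ _ a b => a.mul_right b) (fun _ _ a => a.inv_right)
        (tB_mem k)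
      rintro _ ⟨i, hi, rfl⟩
      exact (comm_s ((hX _ _).trans (pM_two (by simpa using hi)))).symm
    have b := braid_s (X := X) (i := ⟨k + 1, h0⟩) (j := ⟨k + 1 + 1, hk⟩) ((hX _ _).trans pM_three)
    have s1 := X.cs.simple_mul_simple_self ⟨k + 1, h0⟩
    have s2 := X.cs.simple_mul_simple_self ⟨k + 1 + 1, hk⟩
    change X.s _ * X.s _ = 1 at s1 s2
    generalize X.s ⟨k + 1, h0⟩ = a at *
    generalize X.s ⟨k + 1 + 1, hk⟩ = c at *
    generalize X.tB k = t at *
    have ia : a⁻¹ = a := inv_eq_of_mul_eq_one_right s1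
    have c2 := h.conj a
    rw [ia, show a * (a * t * a) * a = (a * a) * t * (a * a) by group, s1, one_mul, mul_one,
      b] at c2
    have c3 := (c1.mul_left c2).mul_left c1
    rw [show c * (c * a * c) * c = (c * c) * a * (c * c) by group, s2, one_mul, mul_one] at c3
    exact c3

private theorem len_up (hX : X.Is (F.pathM 0 4)) {k : ℕ} (hk : k + 1 < X.n) :
    X.len (X.tB k) < X.len (X.s ⟨k + 1, hk⟩ * X.tB k) ∧
      X.len (X.s ⟨k + 1, hk⟩ * X.tB k) < X.len (X.s ⟨k + 1, hk⟩ * X.tB k * X.s ⟨k + 1, hk⟩) := by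
  have a1 : ¬ X.len (X.tB k * X.s ⟨k + 1, hk⟩) < X.len (X.tB k) := fun h =>
    lt_irrefl (k + 1) (X.desc_mem (tB_mem k) h)
  have a2 : ¬ X.len (X.s ⟨k + 1, hk⟩ * X.tB k) < X.len (X.tB k) := fun h =>
    lt_irrefl (k + 1) (X.desc_mem (i := ⟨k + 1, hk⟩) (Subgroup.inv_mem _ (tB_mem k)) (by
      rw [F.Cox0.len, F.Cox0.len, X.cs.length_inv, ← X.cs.length_inv, mul_inv_rev, inv_inv,
        X.cs.inv_simple]
      exact h))
  have b1 := X.cs.length_mul_simple (X.tB k) ⟨k + 1, hk⟩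
  have b2 := X.cs.length_simple_mul (X.tB k) ⟨k + 1, hk⟩
  have b3 := X.cs.length_mul_simple (X.s ⟨k + 1, hk⟩ * X.tB k) ⟨k + 1, hk⟩
  have b4 := fun h1 h2 => not_comm hX k hk (X.swap_of_len (i := ⟨k + 1, hk⟩) (j := ⟨k + 1, hk⟩) h1 h2)
  simp only [F.Cox0.len, F.Cox0.s] at *
  refine ⟨by omega, ?_⟩
  by_contra hc
  exact b4 (by omega) (by omega)

/-- `tB k` does not commute with `sN (k + 1)`: the root `β k` of `tB k` is `sN k ... sN 1` applied
to `al 0`, it is supported on `0, ..., k`, its coordinate `k` is positive, so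
`B (β k) (al (k + 1)) < 0`. -/
theorem tB_notMem (hX : X.Is (F.pathM 0 4)) {k : ℕ} (hk : k < X.n) :
    X.tB k ∉ Wp X {i | (i : ℕ) < k} := by
  rcases k with _ | k
  · rw [F.Cox.tB, sN_eq hk, s_mem_Wp]
    exact lt_irrefl 0
  · intro h
    rw [F.Cox.tB, sN_eq hk] at h
    refine lt_irrefl (k + 1) (X.desc_mem (i := ⟨k + 1, hk⟩) h ?_)
    rw [X.cs.simple_mul_simple_cancel_right]
    exact (len_up hX hk).2

/-- `desc_mem`, `swap_of_len`, `tB_notMem` -/
theorem jm_eq (E : F.HA X R q) (hX : X.Is (F.pathM 0 4)) {k : ℕ} (hk : k < X.n) :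
    jm (E.T (X.sN 0)) (fun j => E.T (X.sN (j + 1))) k = E.T (X.tB k) := by
  induction k with
  | zero => rfl
  | succ k ih =>
    rw [jm, ih (by omega), F.Cox.tB, sN_eq hk, E.Ts_up (len_up hX hk).1, E.T_up _ _ (len_up hX hk).2]

private theorem T_sN_mem (E : F.HA X R q) {I : Set (Fin X.n)} {k : ℕ}
    (h : ∀ hk : k < X.n, (⟨k, hk⟩ : Fin X.n) ∈ I) :
    E.T (X.sN k) ∈ Algebra.adjoin R (E.Ts '' I) := by
  rw [← Subalgebra.mem_toSubmodule, adjoin_Ts]
  exact Submodule.subset_span ⟨_, sN_mem h, rfl⟩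

private theorem HkB (E : F.HA X R q) (k : ℕ) :
    Subalgebra.toSubmodule (Algebra.adjoin R (gens (E.T (X.sN 0)) (fun j => E.T (X.sN (j + 1))) k)) =
      E.sp (Wp X {i | (i : ℕ) < k}) := by
  rw [← adjoin_Ts]
  congr 1
  refine le_antisymm (Algebra.adjoin_le ?_) (Algebra.adjoin_mono ?_)
  · rintro _ (⟨h, rfl⟩ | ⟨j, h, rfl⟩)
    · exact T_sN_mem E fun _ => h
    · exact T_sN_mem E fun _ => h
  · rintro _ ⟨⟨_ | i, hi⟩, h, rfl⟩
    · exact Or.inl ⟨h, by rw [sN_eq hi]⟩
    · exact Or.inr ⟨i, h, by simp only [sN_eq hi]⟩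

private theorem HkA (E : F.HA X R q) (k : ℕ) :
    Subalgebra.toSubmodule (Algebra.adjoin R (gens 1 (fun j => E.T (X.sN j)) k)) =
      E.sp (Wp X {i | (i : ℕ) + 1 < k}) := by
  rw [← adjoin_Ts]
  congr 1
  refine le_antisymm (Algebra.adjoin_le ?_) (Algebra.adjoin_mono ?_)
  · rintro _ (⟨h, rfl⟩ | ⟨j, h, rfl⟩)
    · exact Subalgebra.one_mem _
    · exact T_sN_mem E fun _ => h
  · rintro _ ⟨⟨i, hi⟩, h, rfl⟩
    exact Or.inr ⟨i, h, by simp only [sN_eq hi]⟩

private theorem top_of (E : F.HA X R q) {A : Subalgebra R E.H} {I : Set (Fin X.n)}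
    (h : Subalgebra.toSubmodule A = E.sp (Wp X I)) (hI : ∀ i, i ∈ I) : A = ⊤ := by
  refine eq_top_iff.2 fun a _ => ?_
  rw [← Subalgebra.mem_toSubmodule, h, E.mem_sp]
  intro w _
  have : w ∈ Subgroup.closure (Set.range X.cs.simple) := by
    rw [X.cs.subgroup_closure_range_simple]; trivial
  exact Subgroup.closure_mono (by rintro _ ⟨i, rfl⟩; exact ⟨i, hI i, rfl⟩) this

private theorem flat_one (E : F.HA X R q) : E.flat 1 = 1 := by
  rw [← E.T_one, E.flat_T, inv_one]

private theorem tau_one (E : F.HA X R q) : E.tau 1 = 1 := by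
  rw [← E.T_one, E.tau_T, if_pos rfl]

theorem exists_twB (E : F.HA X R q) (hX : X.Is (F.pathM 0 4)) {Q q0 : Rˣ}
    (hq : ∀ i, q i = if (i : ℕ) = 0 then Q else q0) (hi : Function.Injective (xi Q q0))
    (an : ∀ a, E.tau (a * E.flat a) = 0 → a = 0) :
    ∃ t : Tw R E.H, IsB E t ∧ t.Q = Q ∧ t.q = q0 := by
  refine ⟨{ n := X.n, lv := true, Q := Q, q := q0, T := fun k => E.T (X.sN (k + 1))
            X0 := E.T (X.sN 0), τ := E.tau, fl := E.flat, inj := hi
            quad := fun k hk => ?_, braid := fun k hk => ?_, far := fun j k hj hk => ?_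
            X0_T := fun k h0 hk => ?_, X0_br := fun hk => ?_, X0_two := fun _ hk => ?_
            X0_one := fun h => absurd h (by decide), top := top_of E (HkB E _) fun i => i.2
            fl_one := flat_one E, fl_mul := E.flat_mul
            fl_T := fun k => by rw [E.flat_T, sN_inv], fl_X0 := by rw [E.flat_T, sN_inv]
            τ_one := tau_one E, τ_comm := E.tau_comm, aniso := an
            τT := fun k hk a ha => ?_, τX := fun _ k hk a ha => ?_ },
    ⟨rfl, rfl, fun _ => rfl, rfl, rfl, rfl, HkB E⟩, rfl, rfl⟩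
  · rw [sN_eq hk, E.Ts_sq, F.HA.ze, hq, if_neg (Nat.succ_ne_zero k)]
  · rw [sN_eq (by omega : k + 1 < X.n), sN_eq (by omega : k + 1 + 1 < X.n)]
    exact E.braid3 ((hX _ _).trans pM_three)
  · rw [sN_eq (by omega : j + 1 < X.n), sN_eq hk]
    exact E.braid2 ((hX _ _).trans (pM_two (by simpa using hj)))
  · rw [sN_eq (by omega : 0 < X.n), sN_eq hk]
    exact E.braid2 ((hX _ _).trans (pM_two (by simpa using h0)))
  · rw [sN_eq (by omega : 0 < X.n), sN_eq (by omega : 0 + 1 < X.n)]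
    exact E.braid4 (hX _ _)
  · rw [sN_eq hk, E.Ts_sq, F.HA.ze, hq, if_pos rfl]
  · rw [← Subalgebra.mem_toSubmodule, HkB] at ha
    refine tau_sp E ha ?_
    rw [sN_eq hk, s_mem_Wp]
    exact lt_irrefl (k + 1)
  · rw [← Subalgebra.mem_toSubmodule, HkB] at ha
    rw [jm_eq E hX hk]
    exact tau_sp E ha (tB_notMem hX hk)

theorem exists_twA (E : F.HA X R q) (hX : X.Is (F.pathM 0 3)) {q0 : Rˣ} (hq : ∀ i, q i = q0)
    (hi : Function.Injective (xi 1 q0)) (an : ∀ a, E.tau (a * E.flat a) = 0 → a = 0) :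
    ∃ t : Tw R E.H, IsA E t ∧ t.Q = 1 ∧ t.q = q0 := by
  refine ⟨{ n := X.n + 1, lv := false, Q := 1, q := q0, T := fun k => E.T (X.sN k)
            X0 := 1, τ := E.tau, fl := E.flat, inj := hi
            quad := fun k hk => ?_, braid := fun k hk => ?_, far := fun j k hj hk => ?_
            X0_T := fun k _ _ => by rw [one_mul, mul_one]
            X0_br := fun _ => by simp only [one_mul, mul_one]
            X0_two := fun h => absurd h (by decide), X0_one := fun _ => by simp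
            top := top_of E (HkA E _) fun i => Nat.succ_lt_succ i.2
            fl_one := flat_one E, fl_mul := E.flat_mul
            fl_T := fun k => by rw [E.flat_T, sN_inv], fl_X0 := flat_one E
            τ_one := tau_one E, τ_comm := E.tau_comm, aniso := an
            τT := fun k hk a ha => ?_, τX := fun h => absurd h (by decide) },
    ⟨rfl, rfl, fun _ => rfl, rfl, rfl, rfl, HkA E⟩, rfl, rfl⟩
  · rw [sN_eq (by omega : k < X.n), E.Ts_sq, F.HA.ze, hq]
  · rw [sN_eq (by omega : k < X.n), sN_eq (by omega : k + 1 < X.n)]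
    exact E.braid3 ((hX _ _).trans pM_three')
  · rw [sN_eq (by omega : j < X.n), sN_eq (by omega : k < X.n)]
    exact E.braid2 ((hX _ _).trans (pM_two hj))
  · rw [← Subalgebra.mem_toSubmodule, HkA] at ha
    refine tau_sp E ha ?_
    rw [sN_eq (by omega : k < X.n), s_mem_Wp]
    exact lt_irrefl (k + 1)

/-- `Cox.eq_of_isConj` -/
theorem conj_B (hX : X.Is (F.pathM 0 4)) {α : Type} (a b : α) (i j : Fin X.n)
    (h : IsConj (X.s i) (X.s j)) :
    (if (i : ℕ) = 0 then b else a) = if (j : ℕ) = 0 then b else a := by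
  refine X.eq_of_isConj (fun i : Fin X.n => if (i : ℕ) = 0 then b else a) (fun i j ho => ?_) h
  rw [hX, F.pathM] at ho
  by_cases e : (i : ℕ) = j
  · simp only [e]
  rw [if_neg e] at ho
  split_ifs at ho with h1 h2
  · exact absurd ho (by decide)
  · rw [if_neg (by omega), if_neg (by omega)]
  · exact absurd ho (by decide)

end

end Pool.Agent.P.MP_1a0ecf_al.K
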