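import Pool.Agent.P.MP_1a0ecf_al.K.KB
import Pool.Agent.P.MP_1a0ecf_al.K.V2

/-! Package KB1: existence and first properties of the extension to the fraction field. -/

namespace Pool.Agent.P.MP_1a0ecf_al.K

open scoped Classical

set_option linter.unusedSectionVars false

noncomputable section

section In

variable {X : F.Cox} {R : Type} [CommRing R] {q : Fin X.n → Rˣ} (D : F.HA X R q) {S : Subring R}

theorem in_T (S : Subring R) (w : X.W) : In D S (D.T w) := fun x => by
  simp only [F.HA.co, Module.Basis.repr_self, Finsupp.single_apply]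
  split_ifs
  exacts [S.one_mem, S.zero_mem]

theorem In.smul {r : R} (hr : r ∈ S) {a : D.H} (ha : In D S a) : In D S (r • a) := fun w => by
  simpa [F.HA.co] using S.mul_mem hr (ha w)

theorem In.flat {a : D.H} (ha : In D S a) : In D S (D.flat a) := fun w => by
  rw [D.co_flat]
  exact ha _

theorem In.tau {a : D.H} (ha : In D S a) : D.tau a ∈ S := ha 1

private theorem In.add' {a b : D.H} (ha : In D S a) (hb : In D S b) : In D S (a + b) := fun w => by
  simpa [F.HA.co] using S.add_mem (ha w) (hb w)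

private theorem In.sum' {f : X.W → D.H} (h : ∀ w, In D S (f w)) : In D S (∑ w, f w) := fun x => by
  simp only [F.HA.co, map_sum, Finsupp.coe_finsetSum, Finset.sum_apply]
  exact S.sum_mem fun w _ => h w x

/-- `HA.induction` on `b` is not available over `S`: write `b = ∑ co b w • T w`, induction on the
length of `w`, and `a * Ts i` by the rule. -/
theorem In.mul (hS : ∀ i, D.ze i ∈ S) {a b : D.H} (ha : In D S a) (hb : In D S b) :
    In D S (a * b) := by
  have h1 : ∀ i a, In D S a → In D S (a * D.Ts i) := fun i a ha => by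
    rw [← D.T.sum_repr a, Finset.sum_mul]
    refine In.sum' D fun w => ?_
    rw [smul_mul_assoc]
    refine In.smul D (ha w) ?_
    rcases X.cs.length_mul_simple w i with k | k
    · rw [D.T_up w i (by simp only [F.Cox0.len, F.Cox0.s]; omega)]
      exact in_T D S _
    · rw [D.T_down w i (by simp only [F.Cox0.len, F.Cox0.s]; omega)]
      exact In.add' D (in_T D S _) (In.smul D (hS i) (in_T D S _))
  have h2 : ∀ l : List (Fin X.n), ∀ a, In D S a → In D S (a * (l.map D.Ts).prod) := fun l => by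
    induction l with
    | nil => intro a ha; simpa using ha
    | cons i l ih => intro a ha; rw [List.map_cons, List.prod_cons, ← mul_assoc]; exact ih _ (h1 i a ha)
  rw [← D.T.sum_repr b, Finset.mul_sum]
  refine In.sum' D fun w => ?_
  rw [mul_smul_comm]
  obtain ⟨l, hl, rfl⟩ := X.cs.exists_isReduced w
  rw [D.T_word hl]
  exact In.smul D (hb _) (h2 l a ha)

/-- the integral form -/
def hr (hS : ∀ i, D.ze i ∈ S) : Subring D.H where
  carrier := {h | In D S h}
  mul_mem' ha hb := In.mul D hS ha hb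
  one_mem' := D.T_one ▸ in_T D S 1
  add_mem' ha hb w := by simpa [F.HA.co] using S.add_mem (ha w) (hb w)
  zero_mem' w := by simp [F.HA.co]
  neg_mem' ha w := by simpa [F.HA.co] using ha w

end In

variable {X : F.Cox} {Γ : Type} [AddCommGroup Γ] [LinearOrder Γ] [IsOrderedAddMonoid Γ]
  {L : Fin X.n → Γ}

theorem aniso {q : Fin X.n → (KK Γ)ˣ} (E : F.HA X (KK Γ) q) (a : E.H)
    (h : E.tau (a * E.flat a) = 0) : a = 0 := by
  rw [E.tau_mul_flat] at h
  exact E.T.ext_elem fun w => by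
    rw [map_zero]
    exact eq_zero_of_sum_sq _ _ h w (Finset.mem_univ w)

theorem neg_iff {r : GA Γ} : F.Neg r ↔ Lt (algebraMap (GA Γ) (KK Γ) r) 0 := by
  simp only [F.Neg, Lt, co_alg, Int.cast_eq_zero]

theorem alg_vU (γ : Γ) : algebraMap (GA Γ) (KK Γ) (F.vU γ : F.ZG Γ) = (mK γ : KK Γ) := rfl

/-- `exists_HA`, `HA.exists_map`, `HA.exists_bar`; the transition matrix from `T` to `C` is
invertible over the group ring (`Module.Basis.invertibleToMatrix`), so the `j (C w)` form a basis. -/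
theorem exists_KB (D : F.KL X Γ L) (hL : ∀ i j, IsConj (X.s i) (X.s j) → L i = L j) :
    ∃ B : KB X Γ L, B.toKL = D := by
  obtain ⟨E⟩ := F.exists_HA X (KK Γ) (fun i => mK (L i)) fun i j h => by rw [hL i j h]
  obtain ⟨j, j1, j2, -⟩ := D.toHA.exists_map E (algebraMap (GA Γ) (KK Γ)) fun i => alg_vU _
  obtain ⟨bk, b1, b2⟩ := E.exists_bar (bK Γ) fun i => by rw [bK_mK, mK_neg]
  have hs : ⊤ ≤ Submodule.span (KK Γ) (Set.range fun w => j (D.C w)) := by
    rw [← E.T.span_eq, Submodule.span_le]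
    rintro _ ⟨w, rfl⟩
    rw [← j2, ← D.C.sum_repr (D.T w), map_sum]
    refine Submodule.sum_mem _ fun x _ => ?_
    rw [j1]
    exact Submodule.smul_mem _ _ (Submodule.subset_span ⟨x, rfl⟩)
  exact ⟨⟨D, E, j, j1, j2, bk, b1, b2, basisOfTopLeSpanOfCardEqFinrank _ hs
    (Module.finrank_eq_card_basis E.T).symm, fun w => by
      rw [coe_basisOfTopLeSpanOfCardEqFinrank]⟩, rfl⟩

namespace KB

variable (B : KB X Γ L)

theorem ze_mem {R : Subring (KK Γ)} (hR : AA Γ ≤ R) (i : Fin X.n) : B.E.ze i ∈ R := by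
  refine hR (sub_mem (mK_mem _) ?_)
  rw [← mK_neg]
  exact mK_mem _

theorem co_j (a : B.H) (w : X.W) :
    B.E.co (B.j a) w = algebraMap (GA Γ) (KK Γ) (B.T.repr a w) := by
  conv_lhs => rw [← B.T.sum_repr a, map_sum]
  simp only [B.j_smul, B.j_T]
  exact congrFun (B.E.T.repr_sum_self _) w

theorem repr_j (a : B.H) (w : X.W) :
    B.CK.repr (B.j a) w = algebraMap (GA Γ) (KK Γ) (B.C.repr a w) := by
  conv_lhs => rw [← B.C.sum_repr a, map_sum]
  simp only [B.j_smul, ← B.CK_eq]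
  exact congrFun (B.CK.repr_sum_self _) w

theorem j_inj : Function.Injective B.j := fun a b h => B.T.ext_elem fun w =>
  IsFractionRing.injective (GA Γ) (KK Γ) (by rw [← co_j, ← co_j, h])

theorem in_j (a : B.H) : In B.E (AA Γ) (B.j a) := fun w => ⟨_, (B.co_j a w).symm⟩

theorem exists_j {h : B.E.H} (hh : In B.E (AA Γ) h) : ∃ a, B.j a = h := by
  choose r hr using hh
  refine ⟨∑ w, r w • B.T w, B.E.T.ext_elem fun w => (B.co_j _ w).trans ?_⟩
  rw [B.T.repr_sum_self]
  exact hr w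

theorem exists_den (h : B.E.H) : ∃ c : KK Γ, c ≠ 0 ∧ ∃ a, B.j a = c • h := by
  obtain ⟨b, hb⟩ := IsLocalization.exist_integer_multiples_of_finite (nonZeroDivisors (GA Γ))
    fun w => B.E.co h w
  refine ⟨algebraMap (GA Γ) (KK Γ) b, IsFractionRing.to_map_ne_zero_of_mem_nonZeroDivisors b.2,
    B.exists_j fun w => ?_⟩
  obtain ⟨r, hr⟩ := hb w
  refine ⟨r, hr.trans ?_⟩
  rw [F.HA.co, F.HA.co, map_smul, Finsupp.smul_apply, Algebra.smul_def, smul_eq_mul]

theorem bk_j (a : B.H) : B.bk (B.j a) = B.j (B.bar a) := by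
  have e : ∀ w, B.j (B.bar (B.T w)) = B.E.Ti w⁻¹ := fun w => by
    rw [← mul_one (B.j _), ← B.E.T_mul_Ti w⁻¹, ← mul_assoc, ← B.j_T, ← map_mul, B.bar_T, map_one,
      one_mul]
  rw [← B.T.sum_repr a]
  simp only [map_sum, B.j_smul, B.bk_smul, B.bar_smul, B.j_T, B.bk_T, e, bK_alg]
  rfl

theorem bk_CK (w : X.W) : B.bk (B.CK w) = B.CK w := by
  rw [B.CK_eq, bk_j, B.bar_C]

theorem repr_bk (h : B.E.H) (w : X.W) : B.CK.repr (B.bk h) w = bK Γ (B.CK.repr h w) := by
  conv_lhs => rw [← B.CK.sum_repr h, map_sum]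
  simp only [B.bk_smul, bk_CK]
  exact congrFun (B.CK.repr_sum_self _) w

theorem flat_j (a : B.H) : B.E.flat (B.j a) = B.j (B.toHA.flat a) := by
  rw [← B.T.sum_repr a]
  simp only [map_sum, B.j_smul, map_smul, B.j_T, F.HA.flat_T]

theorem flat_CK (w : X.W) : B.E.flat (B.CK w) = B.CK w⁻¹ := by
  rw [B.CK_eq, B.CK_eq, flat_j, B.toKL.flat_C]

theorem ip_eq (a b : B.E.H) : B.ip a b = ∑ w, B.E.co a w * B.E.co b w := B.E.tau_mul_flat a b

theorem ip_comm (a b : B.E.H) : B.ip a b = B.ip b a := by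
  simp only [ip_eq, mul_comm]

theorem ip_mul_left (z a b : B.E.H) : B.ip (z * a) b = B.ip a (B.E.flat z * b) := by
  rw [ip, ip, B.E.flat_mul, B.E.flat_flat, mul_assoc, B.E.tau_comm, mul_assoc]

theorem ip_mul_right (z a b : B.E.H) : B.ip (a * z) b = B.ip a (b * B.E.flat z) := by
  rw [ip, ip, B.E.flat_mul, B.E.flat_flat, mul_assoc]

theorem ip_repr (a b : B.E.H) :
    B.ip a b = ∑ x, ∑ y, B.CK.repr a x * B.ip (B.CK x) (B.CK y) * B.CK.repr b y := by
  conv_lhs => rw [ip, ← B.CK.sum_repr a, ← B.CK.sum_repr b, map_sum, Finset.sum_mul_sum]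
  simp only [map_sum, map_smul, smul_mul_assoc, mul_smul_comm, smul_eq_mul, ip]
  exact Finset.sum_congr rfl fun x _ => Finset.sum_congr rfl fun y _ => by ring

theorem co_CK (x y : X.W) : Lt (B.E.co (B.CK x) y - if x = y then 1 else 0) 0 := by
  have h := neg_iff.1 (B.C_neg x y)
  rw [← co_j, map_sub, B.j_T, ← B.CK_eq] at h
  simpa [F.HA.co, Finsupp.single_apply] using h

theorem repr_T (x y : X.W) : Lt (B.CK.repr (B.E.T x) y - if x = y then 1 else 0) 0 := by
  have h := neg_iff.1 (B.toKL.T_neg x y)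
  rw [← repr_j, map_sub, B.j_T, ← B.CK_eq] at h
  simpa [Finsupp.single_apply] using h

theorem gram_CK (x y : X.W) : Lt (B.ip (B.CK x) (B.CK y) - if x = y then 1 else 0) 0 := by
  have h1 : ∀ x y : X.W, Le (if x = y then (1 : KK Γ) else 0) 0 := fun x y => by
    split_ifs
    exacts [(OO Γ).one_mem, Le.zero 0]
  have e : (if x = y then (1 : KK Γ) else 0) =
      ∑ w, (if x = w then (1 : KK Γ) else 0) * if y = w then 1 else 0 := by
    simp
  rw [ip_eq, e, ← Finset.sum_sub_distrib]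
  refine Lt.sum fun w _ => ?_
  have k1 := (B.co_CK x w).mul_le ((B.co_CK y w).le.add (h1 y w))
  have k2 := (h1 x w).mul_lt (B.co_CK y w)
  rw [add_zero] at k1 k2
  convert k1.add k2 using 1
  ring

theorem in_iff {R : Subring (KK Γ)} (hR : AA Γ ≤ R) {h : B.E.H} :
    In B.E R h ↔ ∀ w, B.CK.repr h w ∈ R := by
  constructor
  · intro hh w
    rw [← B.E.T.sum_repr h]
    simp only [map_sum, map_smul, Finsupp.coe_finsetSum, Finset.sum_apply, Finsupp.smul_apply,
      smul_eq_mul]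
    refine R.sum_mem fun x _ => R.mul_mem (hh x) (hR ⟨B.C.repr (B.T x) w, ?_⟩)
    rw [← repr_j, B.j_T]
  · intro hh
    rw [← B.CK.sum_repr h]
    refine In.sum' _ fun x => In.smul _ (hh x) fun w => ?_
    rw [B.CK_eq]
    exact hR (B.in_j _ w)

theorem mem_spK {Y : Set X.W} {h : B.E.H} : h ∈ B.spK Y ↔ ∀ w, B.CK.repr h w ≠ 0 → w ∈ Y := by
  rw [spK, B.CK.mem_span_image]
  exact ⟨fun h w hw => h (Finsupp.mem_support_iff.2 hw),
    fun h w hw => h w (Finsupp.mem_support_iff.1 hw)⟩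

theorem CK_mem_spK {Y : Set X.W} {w : X.W} : B.CK w ∈ B.spK Y ↔ w ∈ Y :=
  B.CK.self_mem_span_image

theorem spK_inter (Y Y' : Set X.W) : B.spK (Y ∩ Y') = B.spK Y ⊓ B.spK Y' := by
  ext h
  simp only [Submodule.mem_inf, mem_spK, Set.mem_inter_iff, imp_and, forall_and]

theorem spK_union (Y Y' : Set X.W) : B.spK (Y ∪ Y') = B.spK Y ⊔ B.spK Y' := by
  rw [spK, Set.image_union, Submodule.span_union]
  rfl

theorem mem_lid {e h : B.E.H} (he : e * e = e) : h ∈ B.lid e ↔ h * e = h := by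
  constructor
  · rintro ⟨x, rfl⟩
    rw [LinearMap.mulRight_apply, mul_assoc, he]
  · exact fun k => ⟨h, k⟩

theorem lid_mul {e e' : B.E.H} (he : e * e = e) (he' : e' * e' = e') (h : e * e' = e' * e) :
    B.lid (e * e') = B.lid e ⊓ B.lid e' := by
  ext a
  rw [Submodule.mem_inf, B.mem_lid he, B.mem_lid he', B.mem_lid (e := e * e') (by
    rw [mul_assoc, ← mul_assoc e', ← h, mul_assoc, he', ← mul_assoc, he])]
  refine ⟨fun k => ⟨?_, ?_⟩, fun k => by rw [← mul_assoc, k.1, k.2]⟩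
  · rw [← k, h, mul_assoc, mul_assoc, he]
  · rw [← k, mul_assoc, mul_assoc, he']

theorem llow_of_lid {e : B.E.H} {Y : Set X.W} (h : B.lid e = B.spK Y) : B.LLow Y := by
  intro u hu a
  obtain ⟨x, hx⟩ : B.CK u ∈ B.lid e := h ▸ B.CK_mem_spK.2 hu
  rw [← h, ← hx]
  exact ⟨a * x, mul_assoc _ _ _⟩

/-- clear denominators, `KL.le_of_repr` -/
theorem le_of_repr {x y : X.W} {a b : B.E.H} (h : B.CK.repr (a * B.CK y * b) x ≠ 0) :
    B.toKL.Le x y := by
  obtain ⟨c, hc, a', ha⟩ := B.exists_den a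
  obtain ⟨d, hd, b', hb⟩ := B.exists_den b
  refine B.toKL.le_of_repr (a := a') (b := b') fun k => ?_
  have e := B.repr_j (a' * B.C y * b') x
  rw [k, map_zero, map_mul B.j, map_mul B.j, ha, hb, ← B.CK_eq, smul_mul_assoc, smul_mul_assoc,
    mul_smul_comm, map_smul, map_smul] at e
  exact mul_ne_zero hc (mul_ne_zero hd h) e

theorem mul_mem_spK {Y : Set X.W} (hY : ∀ x y, B.toKL.Le x y → y ∈ Y → x ∈ Y) {a : B.E.H}
    (ha : a ∈ B.spK Y) (b c : B.E.H) : b * a * c ∈ B.spK Y := by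
  induction ha using Submodule.span_induction with
  | mem x hx =>
    obtain ⟨y, hy, rfl⟩ := hx
    exact B.mem_spK.2 fun w hw => hY w y (B.le_of_repr hw) hy
  | zero => simp
  | add a a' _ _ k k' => rw [mul_add, add_mul]; exact add_mem k k'
  | smul r a _ k => rw [mul_smul_comm, smul_mul_assoc]; exact Submodule.smul_mem _ _ k

theorem lmK_j (S : Finset X.W) (a : B.H) :
    B.lmK S (B.j a) = (B.toKL.lm S a).map (algebraMap (GA Γ) (KK Γ)) := by
  ext x y : 1
  simp only [lmK, F.KL.lm, Matrix.map_apply, Matrix.of_apply]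
  rw [B.CK_eq, ← map_mul, repr_j]

theorem lmK_one (S : Finset X.W) : B.lmK S 1 = 1 := by
  ext x y : 1
  simp only [lmK, Matrix.of_apply, one_mul, Module.Basis.repr_self, Finsupp.single_apply,
    Matrix.one_apply, Subtype.coe_inj]
  exact if_congr eq_comm rfl rfl

theorem lmK_zero (S : Finset X.W) : B.lmK S 0 = 0 := by
  ext x y : 1
  simp [lmK]

theorem lmK_add (S : Finset X.W) (a b : B.E.H) : B.lmK S (a + b) = B.lmK S a + B.lmK S b := by
  ext x y : 1
  simp [lmK, add_mul]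

theorem lmK_sub (S : Finset X.W) (a b : B.E.H) : B.lmK S (a - b) = B.lmK S a - B.lmK S b := by
  ext x y : 1
  simp [lmK, sub_mul]

theorem lmK_smul (S : Finset X.W) (c : KK Γ) (a : B.E.H) : B.lmK S (c • a) = c • B.lmK S a := by
  ext x y : 1
  simp [lmK]

theorem lmK_sum {ι : Type} (S : Finset X.W) (s : Finset ι) (f : ι → B.E.H) :
    B.lmK S (∑ i ∈ s, f i) = ∑ i ∈ s, B.lmK S (f i) := by
  ext x y : 1
  simp [lmK, Finset.sum_mul, Matrix.sum_apply]

theorem lmK_mul {S : Finset X.W} (hS : B.toKL.Cvx S) (a b : B.E.H) :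
    B.lmK S (a * b) = B.lmK S a * B.lmK S b := by
  ext x y : 1
  have e : B.CK.repr (a * b * B.CK y) x =
      ∑ z, B.CK.repr (a * B.CK z) x * B.CK.repr (b * B.CK y) z := by
    conv_lhs => rw [mul_assoc, ← B.CK.sum_repr (b * B.CK y)]
    simp only [Finset.mul_sum, mul_smul_comm, map_sum, map_smul, Finsupp.coe_finsetSum,
      Finset.sum_apply, Finsupp.smul_apply, smul_eq_mul, mul_comm]
  simp only [lmK, Matrix.mul_apply, Matrix.of_apply]
  rw [e, Finset.sum_coe_sort S fun z => B.CK.repr (a * B.CK z) x * B.CK.repr (b * B.CK y) z]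
  refine (Finset.sum_subset (Finset.subset_univ _) fun z _ hz => by_contra fun k => hz ?_).symm
  refine hS x z y (B.le_of_repr (a := a) (b := 1) ?_) (B.le_of_repr (a := b) (b := 1) ?_) x.2 y.2
  · rw [mul_one]; exact left_ne_zero_of_mul k
  · rw [mul_one]; exact right_ne_zero_of_mul k

end KB

end

end Pool.Agent.P.MP_1a0ecf_al.K
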