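import Pool.Agent.P.MP_1a0ecf_al.K.Tw
import Pool.Agent.P.MP_1a0ecf_al.K.KB1
import Pool.Agent.P.MP_1a0ecf_al.F.Face

/-! Towers inside Hecke algebras, type D inside type B. Definitions only. -/

namespace Pool.Agent.P.MP_1a0ecf_al.K

open Sn
open scoped Classical

set_option linter.unusedSectionVars false

noncomputable section

section

variable {X : F.Cox} {R : Type} [Field R] {q : Fin X.n → Rˣ}

/-- the tower of type A -/
structure IsA (E : F.HA X R q) (t : Tw R E.H) : Prop where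
  n : t.n = X.n + 1
  lv : t.lv = false
  T : ∀ k, t.T k = E.T (X.sN k)
  X0 : t.X0 = 1
  τ : t.τ = E.tau
  fl : t.fl = E.flat
  Hk : ∀ k, Subalgebra.toSubmodule (t.Hk k) = E.sp (Wp X {i | (i : ℕ) + 1 < k})

/-- the tower of type B -/
structure IsB (E : F.HA X R q) (t : Tw R E.H) : Prop where
  n : t.n = X.n
  lv : t.lv = true
  T : ∀ k, t.T k = E.T (X.sN (k + 1))
  X0 : t.X0 = E.T (X.sN 0)
  τ : t.τ = E.tau
  fl : t.fl = E.flat
  Hk : ∀ k, Subalgebra.toSubmodule (t.Hk k) = E.sp (Wp X {i | (i : ℕ) < k})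

/-- the integral form given by the basis `T` -/
def mkLat (E : F.HA X R q) (t : Tw R E.H) (S : Subring R) (hS : ∀ i, E.ze i ∈ S)
    (hQ : Un S (t.Q : R)) (hq : Un S (t.q : R)) (hT : ∀ k, In E S (t.T k)) (hX : In E S t.X0) :
    t.Lat := ⟨S, hr E hS, fun _ hr _ hh => In.smul E hr hh, hQ, hq, hT, hX⟩

end

variable {X : F.Cox} {Γ : Type} [AddCommGroup Γ] [LinearOrder Γ] [IsOrderedAddMonoid Γ]
  {L : Fin X.n → Γ}

/-- a tower in the Hecke algebra over the fraction field, with integral minors -/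
structure KT (B : KB X Γ L) (a b : Γ) extends Tw (KK Γ) B.E.H where
  ha : 0 < a
  hQ : Q = mK b
  hq : q = mK a
  hτ : τ = B.E.tau
  hfl : fl = B.E.flat
  bar : Tw.Bar toTw (bK Γ) B.bk
  inT : ∀ k, In B.E (AA Γ) (T k)
  inX : In B.E (AA Γ) X0
  par : ∀ k, ∃ I, Subalgebra.toSubmodule (toTw.Hk k) = B.E.sp (Wp X I)
  int : ∀ k ≤ n, ∀ U, Up (om a b) U → ∃ N : ℕ, ∀ g : List Box × List Box → X.W,
    2 ^ N * (toTw.cf (fun x z => dd a b x < dd a b z) true k U *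
      toTw.mn true k U fun i => B.E.T.coord (g i)) ∈ AA Γ

/-- the idempotent of a class of shapes -/
def KT.cls {B : KB X Γ L} {a b : Γ} (t : KT B a b) (s : List Box) : B.E.H :=
  t.toTw.eU t.n fun u => Cl (dd a b) u s

/-- all shapes of the class are symmetric -/
def VE (a : Γ) (n : ℕ) (s : List Box) : Prop :=
  ∀ u ∈ tabs true n, Cl (dd a 0) u s → (u.map br).Perm u

/-- the weights of type B -/
abbrev LB (Y : F.Cox) (a b : Γ) : Fin Y.n → Γ := fun i => if (i : ℕ) = 0 then b else a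

/-- Jucys-Murphy elements of type B over the group ring -/
def XB (D : F.KL X Γ L) : ℕ → D.H := jm (D.T (X.sN 0)) fun k => D.T (X.sN (k + 1))

/-- Jucys-Murphy elements of type A over the group ring -/
def XA (D : F.KL X Γ L) : ℕ → D.H := jm 1 fun k => D.T (X.sN k)

/-- type D inside type B -/
structure DB (X Y : F.Cox) where
  n : Y.n = X.n
  two : 2 ≤ X.n
  hX : X.Is F.dM
  hY : Y.Is (F.pathM 0 4)
  ι : X.W →* Y.W
  ι0 : ι (X.sN 0) = Y.sN 0 * Y.sN 1 * Y.sN 0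
  ιk : ∀ k, ι (X.sN (k + 1)) = Y.sN (k + 1)

/-- the Hecke algebra of type D inside type B, with all data -/
structure DJ (X : F.Cox) (σ : X.W ≃* X.W) (a : Γ) (B : KB X Γ fun _ => a) where
  Y : F.Cox
  P : DB X Y
  sw : F.Cox.IsSw σ
  BY : KB Y Γ (LB Y a 0)
  t : KT BY a 0
  isB : IsB BY.E t.toTw
  J : B.E.H →ₐ[KK Γ] BY.E.H
  J_T : ∀ w, J (B.E.T w) = BY.E.T (P.ι w)
  θ : BY.E.H →ₐ[KK Γ] BY.E.H
  th : Tw.Th t.toTw θ
  S : B.E.H →ₐ[KK Γ] B.E.H
  S_T : ∀ w, S (B.E.T w) = B.E.T (σ w)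

/-- the cell of `z` belongs to the class of `s` -/
def DJ.Cls {σ : X.W ≃* X.W} {a : Γ} {B : KB X Γ fun _ => a} (Z : DJ X σ a B) (z : X.W)
    (s : List Box) : Prop := s ∈ tabs true X.n ∧ ∃ e, Z.J e = Z.t.cls s ∧ B.Blk z e

end

end Pool.Agent.P.MP_1a0ecf_al.K
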