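import Pool.Agent.P.MP_1a0ecf_al.K.Val
import Pool.Agent.P.MP_1a0ecf_al.F.L3

/-! The Hecke algebra over the fraction field, cells, leading terms. Definitions only. -/

namespace Pool.Agent.P.MP_1a0ecf_al.K

open scoped Classical

set_option linter.unusedSectionVars false

noncomputable section

/-- all coefficients lie in `S` -/
def In {X : F.Cox} {R : Type} [CommRing R] {q : Fin X.n → Rˣ} (D : F.HA X R q) (S : Subring R)
    (h : D.H) : Prop := ∀ w, D.co h w ∈ S

/-- the parabolic subgroup of a set of generators -/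
def Wp (X : F.Cox) (I : Set (Fin X.n)) : Set X.W := (Subgroup.closure (X.s '' I) : Subgroup X.W)

/-- a Kazhdan-Lusztig datum together with its extension to the fraction field -/
structure KB (X : F.Cox) (Γ : Type) [AddCommGroup Γ] [LinearOrder Γ] [IsOrderedAddMonoid Γ]
    (L : Fin X.n → Γ) extends F.KL X Γ L where
  E : F.HA X (KK Γ) fun i => mK (L i)
  j : H →+* E.H
  j_smul : ∀ r a, j (r • a) = algebraMap (GA Γ) (KK Γ) r • j a
  j_T : ∀ w, j (T w) = E.T w
  bk : E.H →+* E.H
  bk_smul : ∀ r a, bk (r • a) = bK Γ r • bk a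
  bk_T : ∀ w, bk (E.T w) = E.Ti w⁻¹
  CK : Module.Basis X.W (KK Γ) E.H
  CK_eq : ∀ w, CK w = j (C w)

/-- central idempotents -/
def CI {H : Type} [Ring H] (e : H) : Prop := (∀ a, e * a = a * e) ∧ e * e = e

namespace KB

variable {X : F.Cox} {Γ : Type} [AddCommGroup Γ] [LinearOrder Γ] [IsOrderedAddMonoid Γ]
  {L : Fin X.n → Γ}

variable (B : KB X Γ L)

/-- the form with orthonormal basis `T` -/
def ip (a b : B.E.H) : KK Γ := B.E.tau (a * B.E.flat b)

/-- coordinate subspaces -/
def spK (Y : Set X.W) : Submodule (KK Γ) B.E.H := Submodule.span (KK Γ) (B.CK '' Y)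

def Crd (J : Submodule (KK Γ) B.E.H) : Prop := ∃ Y, J = B.spK Y

/-- subspaces spanned by constant combinations of the basis -/
def RatS (J : Submodule (KK Γ) B.E.H) : Prop :=
  ∃ (ι : Type) (_ : Fintype ι) (M : Matrix X.W ι ℚ) (g : ι → X.W), M.submatrix g id = 1 ∧
    J = Submodule.span (KK Γ) (Set.range fun i => ∑ w, (M w i : KK Γ) • B.CK w)

/-- the left ideal of an element -/
def lid (e : B.E.H) : Submodule (KK Γ) B.E.H := LinearMap.range (LinearMap.mulRight (KK Γ) e)

/-- the matrix of left multiplication -/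
def lmK (S : Finset X.W) (h : B.E.H) : Matrix S S (KK Γ) :=
  Matrix.of fun x y => B.CK.repr (h * B.CK y) x

/-- `e` acts as the identity on the cell of `z` -/
def Blk (z : X.W) (e : B.E.H) : Prop := B.lmK (B.toKL.cell z) e = 1

/-- `e` is not split by integral central idempotents -/
def Prim (R : Subring (KK Γ)) (e : B.E.H) : Prop :=
  ∀ e', CI e' → In B.E R e' → e' * e = 0 ∨ e' * e = e

/-- sets that span left ideals -/
def LLow (Y : Set X.W) : Prop := ∀ u ∈ Y, ∀ h, h * B.CK u ∈ B.spK Y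

/-- `κ` acts by `ν` on a subquotient of left ideals that contains `x` -/
def Eig (κ : B.E.H) (x : X.W) (ν : KK Γ) : Prop := ∃ Y Y' : Set X.W, B.LLow Y ∧ B.LLow Y' ∧ x ∈ Y ∧
  x ∉ Y' ∧ ∀ u ∈ Y, κ * B.CK u - ν • B.CK u ∈ B.spK Y'

end KB

section Lead

variable {Γ : Type} [AddCommGroup Γ] (lam : Γ →+ ℂ)

/-- the specialisation `v ^ γ ↦ exp (lam γ * h)` -/
def ps : F.ZG Γ →+* PowerSeries ℂ :=
  (AddMonoidAlgebra.lift ℤ (PowerSeries ℂ) Γ
    { toFun := fun γ => PowerSeries.rescale (lam γ.toAdd) (PowerSeries.exp ℂ)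
      map_one' := by simp
      map_mul' := fun x y => by
        rw [toAdd_mul, map_add, PowerSeries.exp_mul_exp_eq_exp_add] }).toRingHom

/-- `r = c * h ^ j + ...` -/
def lead (j : ℕ) (r : F.ZG Γ) (c : ℂ) : Prop :=
  (∀ i < j, PowerSeries.coeff i (ps lam r) = 0) ∧ PowerSeries.coeff j (ps lam r) = c

variable {X : F.Cox} [LinearOrder Γ] [IsOrderedAddMonoid Γ] {L : Fin X.n → Γ} (D : F.KL X Γ L)

/-- `h = a * h ^ j + ...` -/
def Lead (j : ℕ) (h : D.H) (a : MonoidAlgebra ℂ X.W) : Prop :=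
  ∀ w, lead lam j (D.T.repr h w) (a.coeff w)

/-- the action of the group algebra on the specialised module of `S` -/
def rho (S : Finset X.W) (a : MonoidAlgebra ℂ X.W) : Matrix S S ℂ :=
  ∑ w, a.coeff w • (D.lm S (D.T w)).map (F.spc Γ)

end Lead

end

end Pool.Agent.P.MP_1a0ecf_al.K
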