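import Pool.Agent.P.MP_1a0ecf_al.K.KB1
import Pool.Agent.P.MP_1a0ecf_al.K.Lin

/-! Package KB2: the wedge lemma for subspaces, coordinate subspaces, induction. -/

namespace Pool.Agent.P.MP_1a0ecf_al.K

open scoped Classical

set_option linter.unusedSectionVars false

noncomputable section

variable {X : F.Cox} {Γ : Type} [AddCommGroup Γ] [LinearOrder Γ] [IsOrderedAddMonoid Γ]
  {L : Fin X.n → Γ}


namespace KB

variable (B : KB X Γ L)

/-- the columns of a matrix as elements of the algebra -/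
private def vec {ι : Type} (P : Matrix X.W ι (KK Γ)) (i : ι) : B.E.H := ∑ w, P w i • B.CK w

private theorem repr_vec {ι : Type} (P : Matrix X.W ι (KK Γ)) (i : ι) (w : X.W) :
    B.CK.repr (B.vec P i) w = P w i := congrFun (B.CK.repr_sum_self fun w => P w i) w

private theorem vec_mul {ι κ : Type} [Fintype κ] (Q : Matrix X.W κ (KK Γ)) (N : Matrix κ ι (KK Γ))
    (i : ι) : B.vec (Q * N) i = ∑ k, N k i • B.vec Q k := by
  simp only [vec, Matrix.mul_apply, Finset.sum_smul, Finset.smul_sum, smul_smul]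
  rw [Finset.sum_comm]
  exact Finset.sum_congr rfl fun k _ => Finset.sum_congr rfl fun w _ => by rw [mul_comm]

private theorem span_vec {ι κ : Type} [Fintype κ] (Q : Matrix X.W κ (KK Γ))
    (N : Matrix κ ι (KK Γ)) : Submodule.span (KK Γ) (Set.range (B.vec (Q * N))) ≤
      Submodule.span (KK Γ) (Set.range (B.vec Q)) := by
  rw [Submodule.span_le]
  rintro _ ⟨i, rfl⟩
  rw [vec_mul]
  exact Submodule.sum_mem _ fun k _ => Submodule.smul_mem _ _ (Submodule.subset_span ⟨k, rfl⟩)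

private theorem gram_vec {ι : Type} (P : Matrix X.W ι (KK Γ)) :
    (Matrix.of fun i j => B.ip (B.vec P i) (B.vec P j)) =
      P.transpose * (Matrix.of fun x y => B.ip (B.CK x) (B.CK y)) * P := by
  ext i j
  rw [Matrix.of_apply, ip_repr, Finset.sum_comm]
  simp only [repr_vec, Matrix.mul_apply, Finset.sum_mul, Matrix.transpose_apply, Matrix.of_apply]

/-- WEDGE. Apply `wedge` to the matrix of the `C`-coordinates of the `f i`; it is `Z * (T`-coordinates`)`
with `Z` over `AA` (`minors_mul`), and `G` is the Gram matrix of `CK`. -/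
theorem ratS_of_wedge {ι : Type} [Fintype ι] (f : ι → B.E.H) (U : Matrix ι ι (KK Γ)) (c : KK Γ)
    (hc : c ≠ 0) (hint : ∀ g : ι → X.W, c * (Matrix.of fun i j => B.E.co (f j) (g i)).det ∈ AA Γ)
    (hbar : ∀ j, B.bk (f j) = ∑ i, U i j • f i)
    (h0 : (Matrix.of fun i j => B.ip (f i) (f j)).det ≠ 0)
    (hdeg : deg (Matrix.of fun i j => B.ip (f i) (f j)).det + deg U.det + wd c ≤ 0) :
    B.RatS (Submodule.span (KK Γ) (Set.range f)) := by
  obtain ⟨F, hF⟩ : ∃ F : Matrix X.W ι (KK Γ), F = Matrix.of fun w j => B.CK.repr (f j) w := ⟨_, rfl⟩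
  have e0 : B.vec F = f := funext fun j => by
    rw [hF]
    exact B.CK.sum_repr (f j)
  have e1 : F = (Matrix.of fun w y => B.CK.repr (B.E.T y) w) *
      Matrix.of fun y j => B.E.co (f j) y := by
    ext w j
    rw [hF, Matrix.of_apply, Matrix.mul_apply]
    conv_lhs => rw [← B.E.T.sum_repr (f j)]
    simp only [map_sum, map_smul, Finsupp.coe_finsetSum, Finset.sum_apply, Finsupp.smul_apply,
      smul_eq_mul, Matrix.of_apply, mul_comm]
  have e2 := B.gram_vec F
  rw [e0] at e2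
  rw [e2] at h0 hdeg
  obtain ⟨M, g, h1, h2, h3⟩ := wedge F _ U c hc (fun g => by
      rw [e1]
      exact minors_mul (AA Γ) _ (fun w y => (B.in_iff le_rfl).1 (in_T B.E _ y) w) _ c hint g)
    (by
      ext w j
      rw [hF, Matrix.map_apply, Matrix.of_apply, ← repr_bk, hbar, Matrix.mul_apply]
      simp only [map_sum, map_smul, Finsupp.coe_finsetSum, Finset.sum_apply, Finsupp.smul_apply,
        smul_eq_mul, Matrix.of_apply, mul_comm]) B.gram_CK h0 hdeg
  refine ⟨ι, inferInstance, M, g, h1, ?_⟩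
  show _ = Submodule.span (KK Γ) (Set.range (B.vec (M.map fun r => (r : KK Γ))))
  rw [← e0]
  refine le_antisymm ?_ ?_
  · nth_rewrite 1 [h2]
    exact B.span_vec _ _
  · have : (M.map fun r => (r : KK Γ)) = F * (F.submatrix g id)⁻¹ := by
      nth_rewrite 1 [h2]
      rw [Matrix.mul_assoc, Matrix.mul_nonsing_inv _ h3.isUnit, Matrix.mul_one]
    rw [this]
    exact B.span_vec _ _

private theorem ip_CK (a : B.E.H) (z : X.W) :
    B.ip a (B.CK z) = ∑ x, B.CK.repr a x * B.ip (B.CK x) (B.CK z) := by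
  rw [ip_repr]
  simp [Finsupp.single_apply]

private theorem repr_mul (a e : B.E.H) (x : X.W) :
    B.CK.repr (a * e) x = ∑ y, B.CK.repr (B.CK y * e) x * B.CK.repr a y := by
  conv_lhs => rw [← B.CK.sum_repr a, Finset.sum_mul]
  simp only [smul_mul_assoc, map_sum, map_smul, Finsupp.coe_finsetSum, Finset.sum_apply,
    Finsupp.smul_apply, smul_eq_mul, mul_comm]

/-- COORD: `coord_mat` for the matrix of `h ↦ h * e` in the basis `CK`. -/
theorem crd_of_idem {e : B.E.H} (hi : e * e = e) (hf : B.E.flat e = e) (hz : In B.E (ZZ Γ) e)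
    (h : B.RatS (B.lid e)) : B.Crd (B.lid e) := by
  obtain ⟨ι, _, M, g, hM, hJ⟩ := h
  obtain ⟨P, hP⟩ : ∃ P : Matrix X.W ι (KK Γ), P = M.map fun r => (r : KK Γ) := ⟨_, rfl⟩
  replace hJ : B.lid e = Submodule.span (KK Γ) (Set.range (B.vec P)) := hP ▸ hJ
  obtain ⟨Y, h1, h2⟩ := coord_mat M g hM (Matrix.of fun x y => B.ip (B.CK x) (B.CK y))
    (Matrix.of fun x y => B.CK.repr (B.CK y * e) x) B.gram_CK
    (by ext x y; exact B.ip_comm _ _)
    (by
      ext y z
      have k := B.ip_mul_right e (B.CK y) (B.CK z)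
      rw [hf, ip_CK, B.ip_comm (B.CK y), ip_CK] at k
      simp only [Matrix.mul_apply, Matrix.transpose_apply, Matrix.of_apply]
      rw [k]
      exact Finset.sum_congr rfl fun x _ => by rw [mul_comm, ip_comm])
    (by
      rw [← hP]
      ext x i
      have k : B.vec P i * e = B.vec P i :=
        (B.mem_lid hi).1 (hJ ▸ Submodule.subset_span ⟨i, rfl⟩)
      rw [← B.repr_vec P i x, ← k, repr_mul, Matrix.mul_apply]
      simp only [repr_vec, Matrix.of_apply])
    (by
      rw [← hP]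
      have k : ∀ y, ∃ c : ι → KK Γ, ∑ i, c i • B.vec P i = B.CK y * e := fun y =>
        (Submodule.mem_span_range_iff_exists_fun _).1 (hJ ▸ ⟨B.CK y, rfl⟩)
      choose c hc using k
      refine ⟨Matrix.of fun i y => c y i, ?_⟩
      ext x y
      rw [Matrix.of_apply, ← hc]
      refine Eq.trans ?_ (B.repr_vec _ y x)
      rw [vec_mul]
      rfl)
    (fun x y => (B.in_iff AA_le_ZZ).1 (In.mul B.E (B.ze_mem AA_le_ZZ)
      ((B.in_iff AA_le_ZZ).2 fun w => by
        rw [Module.Basis.repr_self, Finsupp.single_apply]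
        split_ifs
        exacts [one_mem _, zero_mem _]) hz) x)
  refine ⟨Y, ?_⟩
  rw [hJ]
  refine le_antisymm (Submodule.span_le.2 ?_) (Submodule.span_le.2 ?_)
  · rintro _ ⟨i, rfl⟩
    refine B.mem_spK.2 fun w hw => by_contra fun k => hw ?_
    rw [repr_vec, hP, Matrix.map_apply, h1 w k, Rat.cast_zero]
  · rintro _ ⟨w, hw, rfl⟩
    obtain ⟨r, hr⟩ := h2 w hw
    refine (Submodule.mem_span_range_iff_exists_fun _).2 ⟨fun i => r i, B.CK.ext_elem fun x => ?_⟩
    have k := congrArg (fun t : ℚ => (t : KK Γ)) (congrFun hr x)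
    simp only [Matrix.mulVec, dotProduct, Pi.single_apply, Rat.cast_sum, Rat.cast_mul,
      apply_ite (Rat.cast : ℚ → KK Γ), Rat.cast_one, Rat.cast_zero] at k
    simp only [map_sum, map_smul, Finsupp.coe_finsetSum, Finset.sum_apply, Finsupp.smul_apply,
      smul_eq_mul, repr_vec, Module.Basis.repr_self, Finsupp.single_apply, hP, Matrix.map_apply,
      eq_comm (a := w), mul_comm]
    exact k

/-- the Gram determinant of constant combinations -/
theorem gram_rat {ι : Type} [Fintype ι] (M : Matrix X.W ι ℚ) (g : ι → X.W)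
    (hM : M.submatrix g id = 1) :
    (Matrix.of fun i j => B.ip (∑ w, (M w i : KK Γ) • B.CK w) (∑ w, (M w j : KK Γ) • B.CK w)).det ≠ 0 ∧
    deg (Matrix.of fun i j =>
      B.ip (∑ w, (M w i : KK Γ) • B.CK w) (∑ w, (M w j : KK Γ) • B.CK w)).det = 0 := by
  obtain ⟨k1, k2⟩ := gram_unit (om_rat M) (g := g) (by rw [rs_rat, hM]) B.gram_CK
  obtain ⟨k3, k4, -⟩ := deg_eq_of k1 k2
  have e := B.gram_vec (M.map fun r => (r : KK Γ))
  exact ⟨fun k => k3 (by rw [← k]; exact congrArg Matrix.det e.symm),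
    (congrArg (fun N => deg (Matrix.det N)) e).trans k4⟩

private theorem ratS_of_wedge' {ι : Type} [Fintype ι] [k : DecidableEq ι] (f : ι → B.E.H)
    (U : Matrix ι ι (KK Γ)) (c : KK Γ)
    (hc : c ≠ 0) (hint : ∀ g : ι → X.W, c * (Matrix.of fun i j => B.E.co (f j) (g i)).det ∈ AA Γ)
    (hbar : ∀ j, B.bk (f j) = ∑ i, U i j • f i)
    (h0 : (Matrix.of fun i j => B.ip (f i) (f j)).det ≠ 0)
    (hdeg : deg (Matrix.of fun i j => B.ip (f i) (f j)).det + deg U.det + wd c ≤ 0) :
    B.RatS (Submodule.span (KK Γ) (Set.range f)) := by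
  obtain rfl : k = fun a b => Classical.propDecidable (a = b) := Subsingleton.elim _ _
  exact B.ratS_of_wedge f U c hc hint hbar h0 hdeg

private theorem det_tri' {ι R : Type} [Fintype ι] [k : DecidableEq ι] [CommRing R]
    (M : Matrix ι ι R) (lt : ι → ι → Prop)
    (tr : ∀ a b c, lt a b → lt b c → lt a c) (ir : ∀ a, ¬ lt a a)
    (h : ∀ i j, M i j ≠ 0 → i = j ∨ lt i j) : M.det = ∏ i, M i i := by
  obtain rfl : k = fun a b => Classical.propDecidable (a = b) := Subsingleton.elim _ _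
  exact det_tri M lt tr ir h

private theorem det_mem' {ι F : Type} [Fintype ι] [k : DecidableEq ι] [CommRing F] (R : Subring F)
    (M : Matrix ι ι F) (h : ∀ i j, M i j ∈ R) : M.det ∈ R := by
  obtain rfl : k = fun a b => Classical.propDecidable (a = b) := Subsingleton.elim _ _
  exact det_mem R M h

/-- minimal in its coset -/
private def Mn (I : Set (Fin X.n)) (x : X.W) : Prop :=
  ∀ v ∈ Subgroup.closure (X.s '' I), X.len (x * v) = X.len x + X.len v

private theorem co_T_mul {I : Set (Fin X.n)} {x : X.W} (hx : Mn I x) {a : B.E.H}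
    (ha : a ∈ B.E.sp (Wp X I)) (w : X.W) : B.E.co (B.E.T x * a) w = B.E.co a (x⁻¹ * w) := by
  have e : B.E.T x * a = ∑ u, B.E.co a u • B.E.T (x * u) := by
    conv_lhs => rw [← B.E.T.sum_repr a, Finset.mul_sum]
    refine Finset.sum_congr rfl fun u _ => ?_
    rw [mul_smul_comm]
    by_cases k : B.E.co a u = 0
    · rw [k, show B.E.T.repr a u = 0 from k, zero_smul, zero_smul]
    · rw [B.E.T_mul_of_len (hx u (B.E.mem_sp.1 ha u k))]
  rw [e]
  simp [F.HA.co, Finsupp.single_apply, ← eq_inv_mul_iff_mul_eq]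

private theorem ip_T_mul {I : Set (Fin X.n)} {x y : X.W} (hx : Mn I x) (hy : Mn I y) {a b : B.E.H}
    (ha : a ∈ B.E.sp (Wp X I)) (hb : b ∈ B.E.sp (Wp X I)) :
    B.ip (B.E.T x * a) (B.E.T y * b) = if x = y then B.ip a b else 0 := by
  simp only [ip_eq, B.co_T_mul hx ha, B.co_T_mul hy hb]
  split_ifs with h
  · subst h
    exact Equiv.sum_comp (Equiv.mulLeft x⁻¹) fun w => B.E.co a w * B.E.co b w
  · refine Finset.sum_eq_zero fun w _ => by_contra fun k => h ?_
    have k1 : x⁻¹ * w ∈ Subgroup.closure (X.s '' I) := B.E.mem_sp.1 ha _ (left_ne_zero_of_mul k)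
    have k2 : y⁻¹ * w ∈ Subgroup.closure (X.s '' I) := B.E.mem_sp.1 hb _ (right_ne_zero_of_mul k)
    have k3 : x⁻¹ * y ∈ Subgroup.closure (X.s '' I) := by
      convert mul_mem k1 (inv_mem k2) using 1
      group
    have k4 := hx _ k3
    have k5 := hy _ (inv_mem k3)
    rw [mul_inv_cancel_left] at k4
    rw [mul_inv_rev, inv_inv, mul_inv_cancel_left] at k5
    exact inv_mul_eq_one.1 (X.cs.length_eq_zero_iff.1 (by
      simp only [F.Cox0.len] at k4 k5
      omega))

/-- GECK. Let `b i` be the constant combinations that span `sp (Wp I) * e`. Use the family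
`T x * b i`, `x` minimal in its coset (`Cox.exists_coset`; two minimal elements `x`, `x'` with
`x u = x' u'` are equal). The Gram matrix is block diagonal (`T_mul_of_len`), `bk` is unitriangular
in the length of `x` (`Ti_tri`, `det_tri`), `c` is a power of a common denominator of `M`. -/
theorem geck (I : Set (Fin X.n)) {e : B.E.H} (he : e ∈ B.E.sp (Wp X I))
    (h : B.RatS ((B.E.sp (Wp X I)).map (LinearMap.mulRight (KK Γ) e))) : B.RatS (B.lid e) := by
  obtain ⟨ι, _, M, g, hM, hJ⟩ := h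
  obtain ⟨g1, g2⟩ := B.gram_rat M g hM
  obtain ⟨b, hb⟩ : ∃ b : ι → B.E.H, ∀ i, b i = ∑ w, (M w i : KK Γ) • B.CK w := ⟨_, fun _ => rfl⟩
  simp only [← hb] at g1 g2 hJ
  obtain ⟨J, hJ'⟩ : ∃ J, J = (B.E.sp (Wp X I)).map (LinearMap.mulRight (KK Γ) e) := ⟨_, rfl⟩
  rw [← hJ'] at hJ
  have j0 : ∀ i, b i ∈ J := fun i => hJ ▸ Submodule.subset_span ⟨i, rfl⟩
  have j1 : ∀ a ∈ J, ∃ a' ∈ B.E.sp (Wp X I), a' * e = a := fun a ha => by
    rw [hJ'] at ha
    exact ha
  have j2 : ∀ a ∈ B.E.sp (Wp X I), a * e ∈ J := fun a ha => hJ' ▸ ⟨a, ha, rfl⟩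
  have j3 : ∀ i, b i ∈ B.E.sp (Wp X I) := fun i => by
    obtain ⟨a, ha, k⟩ := j1 _ (j0 i)
    exact k ▸ B.E.sp_mul ha he
  have j4 : ∀ u ∈ Wp X I, B.E.T u ∈ B.E.sp (Wp X I) := fun u hu =>
    Submodule.subset_span ⟨u, hu, rfl⟩
  obtain ⟨f, hf⟩ : ∃ f : {x // Mn I x} × ι → B.E.H, ∀ p, f p = B.E.T p.1 * b p.2 :=
    ⟨_, fun _ => rfl⟩
  have key : ∀ (S : Submodule (KK Γ) B.E.H) (y : X.W),
      (∀ p : {x // Mn I x} × ι, X.len p.1 ≤ X.len y → f p ∈ S) → ∀ a ∈ J, B.E.T y * a ∈ S := by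
    intro S y hS a ha
    obtain ⟨x, u, rfl, hu, -, hx⟩ := X.exists_coset I y
    obtain ⟨a', ha', rfl⟩ := j1 a ha
    have k := j2 _ (B.E.sp_mul (j4 u hu) ha')
    rw [hJ] at k
    obtain ⟨c, hc⟩ := (Submodule.mem_span_range_iff_exists_fun _).1 k
    rw [← B.E.T_mul_of_len (hx u hu), mul_assoc, ← mul_assoc (B.E.T u), ← hc, Finset.mul_sum]
    refine S.sum_mem fun i _ => ?_
    rw [mul_smul_comm]
    refine S.smul_mem _ ?_
    have := hS (⟨x, hx⟩, i) (by rw [hx u hu]; exact Nat.le_add_right _ _)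
    rwa [hf] at this
  have s1 : B.lid e = Submodule.span (KK Γ) (Set.range f) := by
    refine le_antisymm ?_ (Submodule.span_le.2 ?_)
    · rintro _ ⟨a, rfl⟩
      rw [← B.E.T.sum_repr a, map_sum]
      refine Submodule.sum_mem _ fun w _ => ?_
      rw [map_smul]
      refine Submodule.smul_mem _ _ (key _ w (fun p _ => Submodule.subset_span (Set.mem_range_self p)) e ?_)
      have := j2 _ (j4 1 (one_mem (Subgroup.closure (X.s '' I))))
      rwa [B.E.T_one, one_mul] at this
    · rintro _ ⟨p, rfl⟩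
      obtain ⟨a, -, k⟩ := j1 _ (j0 p.2)
      exact ⟨B.E.T p.1 * a, by rw [hf, ← k, ← mul_assoc]; rfl⟩
  have b1 : ∀ q : {x // Mn I x} × ι, ∃ c : {x // Mn I x} × ι → KK Γ,
      (∀ p, c p ≠ 0 → X.len p.1 < X.len q.1) ∧ B.bk (f q) - f q = ∑ p, c p • f p := fun q => by
    have k0 : B.bk (b q.2) = b q.2 := by
      rw [hb]
      simp only [map_sum, B.bk_smul, bk_CK, map_ratCast]
    have k1 : ∀ a ∈ B.E.sp {y | X.len y < X.len q.1}, a * b q.2 ∈
        Submodule.span (KK Γ) (f '' {p | X.len p.1 < X.len q.1}) := fun a ha => by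
      induction ha using Submodule.span_induction with
      | mem x hx =>
        obtain ⟨y, hy, rfl⟩ := hx
        exact key _ y (fun p hp => Submodule.subset_span
          (Set.mem_image_of_mem f (hp.trans_lt hy))) _ (j0 _)
      | zero => simp
      | add a a' _ _ k k' => rw [add_mul]; exact add_mem k k'
      | smul r a _ k => rw [smul_mul_assoc]; exact Submodule.smul_mem _ _ k
    obtain ⟨c, hc, k2⟩ := (Finsupp.mem_span_image_iff_linearCombination _).1
      (k1 _ (B.E.Ti_tri q.1))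
    refine ⟨c, fun p hp => hc (Finsupp.mem_support_iff.2 hp), ?_⟩
    rw [Finsupp.linearCombination_apply,
      Finsupp.sum_fintype c (fun i a => a • f i) fun _ => zero_smul _ _] at k2
    rw [k2, hf, map_mul, k0, B.bk_T, _root_.sub_mul]
  choose c c1 c2 using b1
  obtain ⟨d, hd⟩ := IsLocalization.exist_integer_multiples_of_finite (nonZeroDivisors ℤ)
    fun p : X.W × ι => M p.1 p.2
  have e1 : (Matrix.of fun p q => B.ip (f p) (f q)) =
      Matrix.kronecker (1 : Matrix {x // Mn I x} {x // Mn I x} (KK Γ))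
        (Matrix.of fun i j => B.ip (b i) (b j)) := by
    ext p q
    rw [Matrix.of_apply, hf, hf, B.ip_T_mul p.1.2 q.1.2 (j3 _) (j3 _)]
    simp [Matrix.one_apply, Subtype.coe_inj]
  have e2 : (Matrix.of fun p q => B.ip (f p) (f q)).det =
      (Matrix.of fun i j => B.ip (b i) (b j)).det ^ Fintype.card {x // Mn I x} := by
    rw [e1, Matrix.kronecker, Matrix.det_kronecker, Matrix.det_one, one_pow, one_mul]
  have e3 : (1 + Matrix.of fun p q => c q p).det = 1 := by
    rw [det_tri' _ (fun p q : {x // Mn I x} × ι => X.len p.1 < X.len q.1) (fun _ _ _ => lt_trans)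
      (fun _ => lt_irrefl _)]
    · refine Finset.prod_eq_one fun p _ => ?_
      rw [Matrix.add_apply, Matrix.one_apply_eq, Matrix.of_apply,
        not_not.1 fun k => lt_irrefl _ (c1 p p k), add_zero]
    · intro p q k
      refine (em _).imp_right fun k' => c1 q p ?_
      rwa [Matrix.add_apply, Matrix.one_apply_ne k', zero_add] at k
  have d0 : ((d : ℤ) : KK Γ) ≠ 0 := Int.cast_ne_zero.2 (nonZeroDivisors.coe_ne_zero d)
  rw [s1]
  refine B.ratS_of_wedge' f (1 + Matrix.of fun p q => c q p)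
    (((d : ℤ) : KK Γ) ^ Fintype.card ({x // Mn I x} × ι)) (pow_ne_zero _ d0) (fun k => ?_)
    (fun q => ?_) (e2 ▸ pow_ne_zero _ g1) ?_
  · rw [← Matrix.det_smul]
    refine det_mem' _ _ fun p q => ?_
    have k1 : In B.E (AA Γ) (((d : ℤ) : KK Γ) • b q.2) := (B.in_iff le_rfl).2 fun w => by
      obtain ⟨n, hn⟩ := hd (w, q.2)
      have k2 := congrArg (fun t : ℚ => (t : KK Γ)) hn
      simp only [eq_intCast, zsmul_eq_mul, Rat.cast_mul, Rat.cast_intCast] at k2
      rw [map_smul, Finsupp.smul_apply, hb, smul_eq_mul,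
        congrFun (B.CK.repr_sum_self fun w => (M w q.2 : KK Γ)) w, ← k2]
      exact intCast_mem _ _
    have k2 := In.mul B.E (B.ze_mem le_rfl) (in_T B.E _ q.1) k1 (k p)
    rwa [mul_smul_comm, ← hf, F.HA.co, map_smul] at k2
  · rw [← sub_add_cancel (B.bk (f q)) (f q), c2]
    simp [add_smul, Finset.sum_add_distrib, Matrix.one_apply, add_comm]
  · rw [e2, e3, deg_pow, g2, deg_one, ← Rat.cast_intCast, ← Rat.cast_pow, wd_rat]
    simp

end KB

end

end Pool.Agent.P.MP_1a0ecf_al.K
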