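import Pool.Agent.P.MP_1a0ecf_al.K.KB1
import Pool.Agent.P.MP_1a0ecf_al.K.Lin

/-! Package KB3: the central idempotent of a lower set, blocks and cells. -/

namespace Pool.Agent.P.MP_1a0ecf_al.K

open scoped Classical

set_option linter.unusedSectionVars false

noncomputable section

variable {X : F.Cox} {Γ : Type} [AddCommGroup Γ] [LinearOrder Γ] [IsOrderedAddMonoid Γ]
  {L : Fin X.n → Γ}

namespace KB3P

theorem inv_mem {ι : Type} [Fintype ι] {R : Subring (KK Γ)} {G : Matrix ι ι (KK Γ)}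
    (h : ∀ x y, G x y ∈ R) (hd : Un R G.det) (x y : ι) : G⁻¹ x y ∈ R := by
  rw [Matrix.inv_def, Ring.inverse_eq_inv', Matrix.smul_apply, smul_eq_mul, Matrix.adjugate_apply]
  refine R.mul_mem hd.2.1 (det_mem R _ fun i j => ?_)
  rw [Matrix.updateRow_apply]
  split_ifs
  · rw [Pi.single_apply]
    split_ifs
    exacts [R.one_mem, R.zero_mem]
  · exact h i j

theorem gram_inv {ι : Type} [Fintype ι] [d : DecidableEq ι] {G : Matrix ι ι (KK Γ)}
    (hG : ∀ x y, Lt (G x y - if x = y then 1 else 0) 0) :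
    IsUnit G.det ∧ ((∀ x y, G x y ∈ ZZ Γ) → ∀ x y, G⁻¹ x y ∈ ZZ Γ) ∧ OM G⁻¹ ∧ rsM G⁻¹ = 1 := by
  obtain rfl : d = fun _ _ => Classical.propDecidable _ := Subsingleton.elim _ _
  obtain ⟨h1, h2⟩ := gram_res hG
  have h3 : co G.det 0 = 1 := by rw [co_det h1, h2, Matrix.det_one]
  have h4 : Le G.det 0 := det_mem (OO Γ) G h1
  have h5 := deg_eq_of h4 (by rw [h3]; exact one_ne_zero)
  have h6 : OM G⁻¹ := inv_mem (R := OO Γ) h1 (un_OO h4 (by rw [h3]; exact one_ne_zero))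
  refine ⟨h5.1.isUnit, fun g => inv_mem g (un_ZZ (det_mem _ G g) (Or.inl (h5.2.2.trans h3))), h6,
    ?_⟩
  have h7 := rs_mul h6 h1
  rwa [Matrix.nonsing_inv_mul _ h5.1.isUnit, rs_one, h2, Matrix.mul_one, eq_comm] at h7

theorem sym_const' {W : Type} [Fintype W] [d : DecidableEq W] (Z G : Matrix W W (KK Γ))
    (hG : ∀ x y, Lt (G x y - if x = y then 1 else 0) 0) (hZ : Z.transpose * G = G * Z)
    (hA : ∀ x y, Z x y ∈ AA Γ) (hb : ∀ x y, bK Γ (Z x y) = Z x y) (f : Polynomial ℤ) (hf : f.Monic)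
    (h0 : Polynomial.aeval Z f = 0) (x y : W) : Z x y = Z y x := by
  obtain rfl : d = fun _ _ => Classical.propDecidable _ := Subsingleton.elim _ _
  exact sym_const Z G hG hZ hA hb f hf h0 x y

theorem lt_of_co {a : KK Γ} {p : Prop} [Decidable p] (h : Le a 0)
    (h' : co a 0 = if p then 1 else 0) : Lt (a - if p then 1 else 0) 0 := by
  have h1 : (if p then 1 else 0 : KK Γ) = ((if p then 1 else 0 : ℚ) : KK Γ) := by
    split_ifs <;> simp
  rw [h1]
  refine Le.lt_of_co (by rw [sub_eq_add_neg]; exact h.add (le_rat _).neg) ?_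
  rw [co_sub, co_rat, if_pos rfl, h', sub_self]

theorem co_of_lt {a : KK Γ} {p : Prop} [Decidable p] (h : Lt (a - if p then 1 else 0) 0) :
    Le a 0 ∧ co a 0 = if p then 1 else 0 := by
  have h1 : (if p then 1 else 0 : KK Γ) = ((if p then 1 else 0 : ℚ) : KK Γ) := by
    split_ifs <;> simp
  rw [h1] at h
  have h2 := h 0 le_rfl
  rw [co_sub, co_rat, if_pos rfl, sub_eq_zero] at h2
  exact ⟨by simpa using h.le.add (le_rat (if p then 1 else 0)), h2⟩

variable (B : KB X Γ L)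

theorem flat_one : B.E.flat 1 = 1 := by rw [← B.E.T_one, B.E.flat_T, inv_one]

theorem ip_sub (a a' b : B.E.H) : B.ip (a - a') b = B.ip a b - B.ip a' b := by
  simp only [KB.ip, _root_.sub_mul, map_sub]

theorem ip_smul (r : KK Γ) (a b : B.E.H) : B.ip (r • a) b = r * B.ip a b := by
  simp only [KB.ip, smul_mul_assoc, map_smul, smul_eq_mul]

theorem ip_sum {ι : Type} (s : Finset ι) (f : ι → B.E.H) (b : B.E.H) :
    B.ip (∑ i ∈ s, f i) b = ∑ i ∈ s, B.ip (f i) b := by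
  simp only [KB.ip, Finset.sum_mul, map_sum]

theorem ip_zero (b : B.E.H) : B.ip 0 b = 0 := by simp only [KB.ip, zero_mul, map_zero]

theorem ip_mem (a b : B.H) : B.ip (B.j a) (B.j b) ∈ ZZ Γ := by
  rw [B.ip_eq]
  exact AA_le_ZZ (Subring.sum_mem _ fun w _ => Subring.mul_mem _ (B.in_j a w) (B.in_j b w))

theorem expand {Y : Set X.W} {S : Finset X.W} (hS : ∀ x, x ∈ S ↔ x ∈ Y) {a : B.E.H}
    (ha : a ∈ B.spK Y) : a = ∑ u : S, B.CK.repr a u • B.CK u := by
  rw [Finset.sum_coe_sort S fun u => B.CK.repr a u • B.CK u]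
  conv_lhs => rw [← B.CK.sum_repr a]
  refine (Finset.sum_subset (Finset.subset_univ S) fun u _ hu => ?_).symm
  rw [not_not.1 fun h => hu ((hS u).2 (B.mem_spK.1 ha u h)), zero_smul]

theorem mul_CK {e : B.E.H} {Y : Set X.W} (h : CI e) (hl : B.lid e = B.spK Y) {u : X.W}
    (hu : u ∈ Y) : e * B.CK u = B.CK u := by
  rw [h.1, ← B.mem_lid h.2, hl]
  exact B.CK_mem_spK.2 hu

theorem mul_mem {e : B.E.H} {Y : Set X.W} (h : CI e) (hl : B.lid e = B.spK Y) (a : B.E.H) :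
    e * a ∈ B.spK Y := by
  rw [← hl, h.1]
  exact ⟨a, rfl⟩

theorem map_inj {S : Finset X.W} {M N : Matrix S S (GA Γ)}
    (h : M.map (algebraMap (GA Γ) (KK Γ)) = N.map (algebraMap (GA Γ) (KK Γ))) : M = N :=
  Matrix.map_injective (IsFractionRing.injective (GA Γ) (KK Γ)) h

theorem map_scal (S : Finset X.W) (r : GA Γ) :
    (r • (1 : Matrix S S (GA Γ))).map (algebraMap (GA Γ) (KK Γ)) =
      algebraMap (GA Γ) (KK Γ) r • 1 := by
  ext x y : 1
  simp only [Matrix.map_apply, Matrix.smul_apply, Matrix.one_apply, smul_eq_mul]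
  split_ifs <;> simp

end KB3P

open KB3P

namespace KB

variable (B : KB X Γ L)

/-- `x = e * (1 - flat e)` has `x * flat x = 0`. -/
theorem flat_CI {e : B.E.H} (h : CI e) : B.E.flat e = e := by
  have h1 : B.E.flat e * B.E.flat e = B.E.flat e := by rw [← B.E.flat_mul, h.2]
  have h2 : e * (1 - B.E.flat e) = 0 := by
    refine aniso B.E _ ?_
    rw [B.E.flat_mul, map_sub, flat_one, B.E.flat_flat, h.1, mul_assoc, ← mul_assoc e, mul_sub,
      mul_one, h.2, sub_self, zero_mul, mul_zero, map_zero]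
  rw [mul_sub, mul_one, sub_eq_zero] at h2
  have h3 := congrArg B.E.flat h2
  rw [B.E.flat_mul, B.E.flat_flat] at h3
  exact h3.trans h2.symm

/-- CELL. `e = ∑ (u ∈ Y) r u • CK u` with `G r = (ip 1 (CK u))`, `G` the Gram matrix of the `CK u`,
`u ∈ Y`, whose determinant lies in `AA` and is `1` modulo `Lt · 0` (`un_ZZ`). The orthogonal
complement of `spK Y` is a two-sided ideal too. -/
theorem cell_idem {Y : Set X.W} (hY : ∀ x y, B.toKL.Le x y → y ∈ Y → x ∈ Y) :
    ∃ e, CI e ∧ In B.E (ZZ Γ) e ∧ B.lid e = B.spK Y := by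
  set S : Finset X.W := Finset.univ.filter (· ∈ Y) with hS0
  have hS : ∀ x, x ∈ S ↔ x ∈ Y := fun x => by simp [hS0]
  set G : Matrix S S (KK Γ) := Matrix.of fun x y => B.ip (B.CK x) (B.CK y) with hG
  obtain ⟨g1, g2, -, -⟩ := gram_inv (G := G) fun x y => by
    simpa only [hG, Matrix.of_apply, Subtype.ext_iff] using B.gram_CK x y
  have g3 : ∀ x y, G x y ∈ ZZ Γ := fun x y => by
    simp only [hG, Matrix.of_apply, B.CK_eq]
    exact ip_mem B _ _
  have g4 := g2 g3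
  set b : S → KK Γ := fun u => B.ip 1 (B.CK u) with hb
  set r : S → KK Γ := Matrix.vecMul b G⁻¹ with hr
  have hrG : Matrix.vecMul r G = b := by
    rw [hr, Matrix.vecMul_vecMul, Matrix.nonsing_inv_mul _ g1, Matrix.vecMul_one]
  have hrZ : ∀ u, r u ∈ ZZ Γ := fun u => Subring.sum_mem _ fun v _ => Subring.mul_mem _ (by
    simp only [hb, B.CK_eq]
    rw [← map_one B.j]
    exact ip_mem B _ _) (g4 v u)
  obtain ⟨e, he⟩ : ∃ e, e = ∑ u : S, r u • B.CK u := ⟨_, rfl⟩
  have heY : e ∈ B.spK Y := he ▸ Submodule.sum_mem _ fun u _ =>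
    Submodule.smul_mem _ _ (B.CK_mem_spK.2 ((hS u).1 u.2))
  have h1 : ∀ u : S, B.ip (1 - e) (B.CK u) = 0 := fun u => by
    rw [KB3P.ip_sub, he, KB3P.ip_sum, sub_eq_zero]
    simp only [KB3P.ip_smul]
    exact (congrFun hrG u).symm
  have h2 : ∀ a ∈ B.spK Y, B.ip (1 - e) a = 0 := fun a ha => by
    rw [expand B hS ha, B.ip_comm, KB3P.ip_sum]
    exact Finset.sum_eq_zero fun u _ => by rw [KB3P.ip_smul, B.ip_comm, h1, mul_zero]
  have hm : ∀ a ∈ B.spK Y, ∀ b c, b * a * c ∈ B.spK Y := fun a ha => B.mul_mem_spK hY ha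
  have h3 : ∀ a ∈ B.spK Y, a * e = a := fun a ha => by
    have h4 : a * (1 - e) = 0 := aniso B.E _ ((B.ip_mul_left a (1 - e) _).trans (h2 _ (by
      simpa only [mul_one] using hm _ (by simpa only [one_mul] using hm a ha 1 (1 - e)) _ 1)))
    rwa [mul_sub, mul_one, sub_eq_zero, eq_comm] at h4
  have h4 : ∀ a ∈ B.spK Y, e * a = a := fun a ha => by
    have h4 : (1 - e) * a = 0 := aniso B.E _ ((B.ip_mul_right a (1 - e) _).trans (h2 _
      (hm a ha _ _)))
    rwa [_root_.sub_mul, one_mul, sub_eq_zero, eq_comm] at h4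
  refine ⟨e, ⟨fun a => ?_, h3 e heY⟩, fun w => ?_, ?_⟩
  · rw [← h3 (e * a) (by simpa only [one_mul] using hm e heY 1 a), mul_assoc,
      h4 (a * e) (by simpa only [mul_one] using hm e heY a 1)]
  · rw [he]
    simp only [F.HA.co, map_sum, map_smul, Finsupp.coe_finsetSum, Finset.sum_apply,
      Finsupp.smul_apply, smul_eq_mul, B.CK_eq]
    exact Subring.sum_mem _ fun u _ => Subring.mul_mem _ (hrZ u) (AA_le_ZZ (B.in_j _ w))
  · ext a
    rw [B.mem_lid (h3 e heY)]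
    exact ⟨fun h => h ▸ (by simpa only [mul_one] using hm e heY a 1), h3 a⟩

theorem CI_unique {e e' : B.E.H} (h : CI e) (h' : CI e') (hl : B.lid e = B.lid e') : e = e' := by
  have h1 : e * e' = e := (B.mem_lid h'.2).1 (hl ▸ (B.mem_lid h.2).2 h.2)
  have h2 : e' * e = e' := (B.mem_lid h.2).1 (hl ▸ (B.mem_lid h'.2).2 h'.2)
  rw [← h1, h.1, h2]

theorem lower_of_CI {e : B.E.H} {Y : Set X.W} (h : CI e) (hl : B.lid e = B.spK Y) (x y : X.W)
    (hxy : B.toKL.Le x y) (hy : y ∈ Y) : x ∈ Y := by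
  have key : ∀ a : B.H, B.j a ∈ B.spK Y → a ∈ B.toKL.spC Y := fun a ha =>
    B.toKL.mem_spC.2 fun w hw => B.mem_spK.1 ha w (by
      rw [B.repr_j]
      exact fun h0 => hw (IsFractionRing.injective (GA Γ) (KK Γ) (h0.trans (map_zero _).symm)))
  refine (B.toKL.lower_iff Y).2 (fun u hu i => ⟨key _ ?_, key _ ?_⟩) x y hxy hy
  · rw [map_mul, ← B.CK_eq, ← mul_CK B h hl hu, ← mul_assoc, ← h.1, mul_assoc]
    exact mul_mem B h hl _
  · rw [map_mul, ← B.CK_eq, ← mul_CK B h hl hu, mul_assoc]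
    exact mul_mem B h hl _

/-- `e * CK x = ∑ (u ∈ Y) r u • CK u` with `r = G⁻¹ (ip (CK x) (CK u))`, all in `OO`. -/
theorem ip_eC {e : B.E.H} {Y : Set X.W} (h : CI e) (hl : B.lid e = B.spK Y) (x y : X.W) :
    Lt (B.ip (e * B.CK x) (B.CK y) - if x = y ∧ x ∈ Y then 1 else 0) 0 := by
  set S : Finset X.W := Finset.univ.filter (· ∈ Y) with hS0
  have hS : ∀ x, x ∈ S ↔ x ∈ Y := fun x => by simp [hS0]
  set G : Matrix X.W X.W (KK Γ) := Matrix.of fun x y => B.ip (B.CK x) (B.CK y) with hG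
  obtain ⟨a1, a2⟩ := gram_res (G := G) B.gram_CK
  obtain ⟨g1, -, g2, g3⟩ := gram_inv (G := G.submatrix (Subtype.val : S → X.W) Subtype.val)
    fun x y => by simpa only [hG, Matrix.submatrix_apply, Matrix.of_apply, Subtype.ext_iff]
      using B.gram_CK x y
  set R : Matrix X.W S (KK Γ) := Matrix.of fun x u => B.CK.repr (e * B.CK x) u with hR
  have h1 : ∀ x y, B.ip (e * B.CK x) (B.CK y) =
      (R * G.submatrix (Subtype.val : S → X.W) id : Matrix X.W X.W (KK Γ)) x y :=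
    fun x y => by
      rw [expand B hS (mul_mem B h hl (B.CK x)), KB3P.ip_sum]
      simp only [KB3P.ip_smul]
      rfl
  have h2 : R * G.submatrix (Subtype.val : S → X.W) (Subtype.val : S → X.W) =
      G.submatrix id (Subtype.val : S → X.W) := by
    ext x u : 1
    refine (h1 x u).symm.trans ?_
    rw [B.ip_mul_left, B.flat_CI h, mul_CK B h hl ((hS u).1 u.2)]
    rfl
  have h3 : R = G.submatrix id (Subtype.val : S → X.W) *
      (G.submatrix (Subtype.val : S → X.W) (Subtype.val : S → X.W))⁻¹ := by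
    rw [← h2, Matrix.mul_assoc, Matrix.mul_nonsing_inv _ g1, Matrix.mul_one]
  have b1 : OM (G.submatrix id (Subtype.val : S → X.W)) := fun i j => a1 _ _
  have b2 : OM (G.submatrix (Subtype.val : S → X.W) id) := fun i j => a1 _ _
  rw [h1, h3]
  refine lt_of_co (((b1.mul g2).mul b2) x y) ?_
  change rsM _ x y = _
  rw [rs_mul (b1.mul g2) b2, rs_mul b1 g2, g3, Matrix.mul_one, Matrix.mul_apply]
  change ∑ u : S, rsM G x u * rsM G u y = _
  rw [a2, Finset.sum_coe_sort S fun u => (1 : Matrix X.W X.W ℚ) x u * (1 : Matrix X.W X.W ℚ) u y]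
  simp only [Matrix.one_apply, ite_mul, one_mul, zero_mul, Finset.sum_ite_eq, hS]
  by_cases h4 : x = y <;> by_cases h5 : x ∈ Y <;> simp [h4, h5]

theorem ip_eT {e : B.E.H} {Y : Set X.W} (h : CI e) (hl : B.lid e = B.spK Y) (x y : X.W) :
    Lt (B.ip (e * B.E.T x) (B.E.T y) - if x = y ∧ x ∈ Y then 1 else 0) 0 := by
  set P : Matrix X.W X.W (KK Γ) := Matrix.of fun x w => B.CK.repr (B.E.T x) w with hP
  set M : Matrix X.W X.W (KK Γ) := Matrix.of fun x y => B.ip (e * B.CK x) (B.CK y) with hM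
  obtain ⟨a1, a2⟩ := gram_res (G := P) B.repr_T
  have b1 : OM M := fun x y => (co_of_lt (B.ip_eC h hl x y)).1
  have h1 : B.ip (e * B.E.T x) (B.E.T y) = (P * (M * P.transpose)) x y := by
    conv_lhs => rw [← B.CK.sum_repr (B.E.T x), Finset.mul_sum, KB3P.ip_sum]
    refine Finset.sum_congr rfl fun u _ => ?_
    rw [mul_smul_comm, KB3P.ip_smul, B.ip_comm]
    conv_lhs => rw [← B.CK.sum_repr (B.E.T y), KB3P.ip_sum]
    refine congrArg _ (Finset.sum_congr rfl fun v _ => ?_)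
    rw [KB3P.ip_smul, B.ip_comm, mul_comm]
    rfl
  rw [h1]
  refine lt_of_co ((a1.mul (b1.mul a1.tr)) x y) ?_
  change rsM _ x y = _
  rw [rs_mul a1 (b1.mul a1.tr), rs_mul b1 a1.tr, rs_tr, a2, Matrix.transpose_one, Matrix.mul_one,
    Matrix.one_mul]
  exact (co_of_lt (B.ip_eC h hl x y)).2

theorem blk_of_mem {e : B.E.H} {Y : Set X.W} (h : CI e) (hl : B.lid e = B.spK Y) {z : X.W}
    (hz : z ∈ Y) : B.Blk z e := by
  ext x y : 1
  simp only [lmK, Matrix.of_apply]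
  rw [mul_CK B h hl (B.lower_of_CI h hl _ _ (B.toKL.mem_cell.1 y.2).1 hz), Module.Basis.repr_self,
    Finsupp.single_apply, Matrix.one_apply]
  simp only [Subtype.ext_iff, eq_comm]

theorem lmK_of_notMem {e : B.E.H} {Y : Set X.W} (h : CI e) (hl : B.lid e = B.spK Y) {z : X.W}
    (hz : z ∉ Y) : B.lmK (B.toKL.cell z) e = 0 := by
  ext x y : 1
  by_contra h0
  exact hz (B.lower_of_CI h hl _ _ (B.toKL.mem_cell.1 x.2).2
    (B.mem_spK.1 (mul_mem B h hl (B.CK y)) x h0))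

theorem blk_congr {y z : X.W} (h : B.toKL.Sim y z) (e : B.E.H) : B.Blk y e ↔ B.Blk z e := by
  rw [Blk, Blk, B.toKL.cell_eq h]

theorem Blk.ne {B : KB X Γ L} {z : X.W} {e : B.E.H} (h : B.Blk z e) :
    B.lmK (B.toKL.cell z) e ≠ 0 := by
  rw [Blk] at h
  rw [h]
  have hz : z ∈ B.toKL.cell z := B.toKL.mem_cell.2 ⟨B.toKL.le_refl z, B.toKL.le_refl z⟩
  intro h0
  simpa using congrFun (congrFun h0 ⟨z, hz⟩) ⟨z, hz⟩

theorem blk_or {e e' d : B.E.H} (h : CI e) (h' : CI e') (hc : B.Crd (B.lid e))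
    (hc' : B.Crd (B.lid e')) (hd : e = e' + d) (hi : d * d = d) (z : X.W) :
    B.Blk z d ∨ B.lmK (B.toKL.cell z) d = 0 := by
  obtain ⟨Y, hY⟩ := hc
  obtain ⟨Y', hY'⟩ := hc'
  have h1 : B.lmK (B.toKL.cell z) d = B.lmK (B.toKL.cell z) e - B.lmK (B.toKL.cell z) e' := by
    rw [hd, B.lmK_add, add_sub_cancel_left]
  have h2 := B.lmK_mul (B.toKL.cvx_cell z) d d
  rw [hi] at h2
  rw [Blk]
  by_cases a : z ∈ Y <;> by_cases b : z ∈ Y'
  · right
    rw [h1, B.blk_of_mem h hY a, B.blk_of_mem h' hY' b, sub_self]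
  · left
    rw [h1, B.blk_of_mem h hY a, B.lmK_of_notMem h' hY' b, sub_zero]
  · left
    rw [h2, h1, B.lmK_of_notMem h hY a, B.blk_of_mem h' hY' b]
    simp
  · right
    rw [h1, B.lmK_of_notMem h hY a, B.lmK_of_notMem h' hY' b, sub_self]

theorem le_of_blk {e : B.E.H} {Y : Set X.W} (h : CI e) (hl : B.lid e = B.spK Y) {d : B.E.H}
    (hd : e * d = d) {z : X.W} (hz : B.Blk z d) : z ∈ Y := by
  by_contra h0
  refine hz.ne ?_
  rw [← hd, B.lmK_mul (B.toKL.cvx_cell z), B.lmK_of_notMem h hl h0, zero_mul]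

/-- apply `Prim` to the idempotent of `{x | Le x z}` -/
theorem sim_of_blk {e : B.E.H} (h : B.Prim (ZZ Γ) e) {y z : X.W} (hy : B.Blk y e) (hz : B.Blk z e) :
    B.toKL.Sim y z := by
  have key : ∀ y z, B.Blk y e → B.Blk z e → B.toKL.Le y z := fun y z hy hz => by
    obtain ⟨e', h1, h2, h3⟩ := B.cell_idem (Y := {x | B.toKL.Le x z}) fun _ _ a b => a.trans b
    rcases h e' h1 h2 with h4 | h4
    · refine (hz.ne ?_).elim
      have h5 := B.lmK_mul (B.toKL.cvx_cell z) e' e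
      rwa [h4, B.lmK_zero, B.blk_of_mem h1 h3 (B.toKL.le_refl z), one_mul, eq_comm] at h5
    · exact B.le_of_blk h1 h3 h4 hy
  exact ⟨key y z hy hz, key z y hz hy⟩

/-- the trace of left multiplication by `e` vanishes, and it is the rank (`LinearMap.IsProj.trace`) -/
theorem eq_zero_of_lmK {e : B.E.H} (hi : e * e = e) (h : ∀ z, B.lmK (B.toKL.cell z) e = 0) :
    e = 0 := by
  have := Module.Finite.of_basis B.CK
  have h1 : IsIdempotentElem (LinearMap.mulLeft (KK Γ) e) := by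
    rw [IsIdempotentElem, Module.End.mul_eq_comp, ← LinearMap.mulLeft_mul, hi]
  have h2 : LinearMap.trace (KK Γ) _ (LinearMap.mulLeft (KK Γ) e) = 0 := by
    rw [LinearMap.trace_eq_matrix_trace _ B.CK, Matrix.trace]
    refine Finset.sum_eq_zero fun z _ => ?_
    have hz : z ∈ B.toKL.cell z := B.toKL.mem_cell.2 ⟨B.toKL.le_refl z, B.toKL.le_refl z⟩
    rw [Matrix.diag_apply, LinearMap.toMatrix_apply]
    exact congrFun (congrFun (h z) ⟨z, hz⟩) ⟨z, hz⟩
  simpa using LinearMap.congr_fun ((LinearMap.IsIdempotentElem.trace_eq_zero_iff h1).1 h2) 1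

theorem lm_scalar {z : X.W} {e : B.E.H} (h : B.Blk z e) {a : B.H} {r : GA Γ}
    (ha : B.j a * e = algebraMap (GA Γ) (KK Γ) r • e) : B.toKL.lm (B.toKL.cell z) a = r • 1 := by
  have h1 := B.lmK_mul (B.toKL.cvx_cell z) (B.j a) e
  rw [Blk] at h
  rw [ha, B.lmK_smul, h, mul_one, B.lmK_j, ← map_scal] at h1
  exact (map_inj h1).symm

theorem lm_scalar' {z : X.W} {a : B.H} {c : KK Γ}
    (ha : B.lmK (B.toKL.cell z) (B.j a) = c • 1) : ∃ r : GA Γ, B.toKL.lm (B.toKL.cell z) a = r • 1 := by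
  have hz : z ∈ B.toKL.cell z := B.toKL.mem_cell.2 ⟨B.toKL.le_refl z, B.toKL.le_refl z⟩
  rw [B.lmK_j] at ha
  have h1 := congrFun (congrFun ha ⟨z, hz⟩) ⟨z, hz⟩
  simp only [Matrix.map_apply, Matrix.smul_apply, Matrix.one_apply_eq, smul_eq_mul, mul_one] at h1
  rw [← h1, ← map_scal] at ha
  exact ⟨_, map_inj ha⟩

/-- a nonzero column of `lmK S e` lies in the kernel -/
theorem det_eig {S : Finset X.W} (hS : B.toKL.Cvx S) {e : B.E.H} (he : B.lmK S e ≠ 0) {a : B.H}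
    {r : GA Γ} (ha : B.j a * e = algebraMap (GA Γ) (KK Γ) r • e) :
    (r • (1 : Matrix S S (GA Γ)) - B.toKL.lm S a).det = 0 := by
  have h1 := B.lmK_mul hS (B.j a) e
  rw [ha, B.lmK_smul, B.lmK_j] at h1
  refine IsFractionRing.injective (GA Γ) (KK Γ) ?_
  rw [map_zero, RingHom.map_det, RingHom.mapMatrix_apply, Matrix.map_sub _ (map_sub _), map_scal]
  by_contra h0
  refine he ?_
  have h2 : (algebraMap (GA Γ) (KK Γ) r • 1 - (B.toKL.lm S a).map (algebraMap (GA Γ) (KK Γ))) *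
      B.lmK S e = 0 := by rw [_root_.sub_mul, smul_mul_assoc, one_mul, h1, sub_self]
  exact ((Matrix.isUnit_iff_isUnit_det _).2 (Ne.isUnit h0)).mul_right_eq_zero.1 h2

/-- `sym_const` with the Gram matrix `ip ((1 - e') * CK x) (CK y)`, `e'` the idempotent of `Y'`. -/
theorem lm_symm {Y Y' : Set X.W} (hY : ∀ x y, B.toKL.Le x y → y ∈ Y → x ∈ Y)
    (hY' : ∀ x y, B.toKL.Le x y → y ∈ Y' → x ∈ Y') {S : Finset X.W}
    (hS : ∀ x, x ∈ S ↔ x ∈ Y ∧ x ∉ Y') {a : B.H} (hf : B.toHA.flat a = a) (hb : B.bar a = a)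
    {f : Polynomial ℤ} (hm : f.Monic) (h0 : B.toKL.lm S (Polynomial.aeval a f) = 0) (x y : S) :
    B.toKL.lm S a x y = B.toKL.lm S a y x := by
  obtain ⟨e, h1, -, h3⟩ := B.cell_idem hY'
  have hc : B.toKL.Cvx S := fun x y z a b hx hz => (hS y).2
    ⟨hY y z b ((hS z).1 hz).1, fun h => ((hS x).1 hx).2 (hY' x y a h)⟩
  have hfe : B.E.flat (1 - e) = 1 - e := by rw [map_sub, flat_one, B.flat_CI h1]
  have hce : ∀ b, (1 - e) * b = b * (1 - e) := fun b => by rw [_root_.sub_mul, mul_sub, h1.1]; simp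
  set G : Matrix S S (KK Γ) := Matrix.of fun x y => B.ip ((1 - e) * B.CK x) (B.CK y) with hG
  have k1 : ∀ x y : S, ∑ u, B.lmK S (B.j a) u x * G u y =
      B.ip ((1 - e) * (B.j a * B.CK x)) (B.CK y) := fun x y => by
    conv_rhs => rw [← B.CK.sum_repr (B.j a * B.CK x), Finset.mul_sum, KB3P.ip_sum]
    simp only [mul_smul_comm, KB3P.ip_smul]
    refine (Finset.sum_coe_sort S fun u => B.CK.repr (B.j a * B.CK x) u *
      B.ip ((1 - e) * B.CK u) (B.CK y)).trans (Finset.sum_subset (Finset.subset_univ S) ?_)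
    intro u _ hu
    by_cases h4 : u ∈ Y'
    · rw [_root_.sub_mul, one_mul, mul_CK B h1 h3 h4, sub_self, KB3P.ip_zero, mul_zero]
    · refine mul_eq_zero_of_left (not_not.1 fun h5 => hu ((hS u).2 ⟨hY u x
        (B.le_of_repr (a := B.j a) (b := 1) (by rwa [mul_one])) ((hS x).1 x.2).1, h4⟩)) _
  have k2 : ∀ x y : S, G x y = G y x := fun x y => by
    simp only [hG, Matrix.of_apply]
    rw [B.ip_mul_left, hfe, B.ip_comm]
  let ψ : B.H →+* Matrix S S (KK Γ) :=
    { toFun := fun b => B.lmK S (B.j b)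
      map_one' := by rw [map_one, B.lmK_one]
      map_mul' := fun b c => by rw [map_mul, B.lmK_mul hc]
      map_zero' := by rw [map_zero, B.lmK_zero]
      map_add' := fun b c => by rw [map_add, B.lmK_add] }
  have k3 := sym_const' (B.lmK S (B.j a)) G (fun x y => by
      have h4 := (B.gram_CK x y).add (B.ip_eC h1 h3 x y).neg
      rw [if_neg (show ¬((x : X.W) = y ∧ (x : X.W) ∈ Y') from fun h => ((hS x).1 x.2).2 h.2)]
        at h4
      simp only [hG, Matrix.of_apply, Subtype.ext_iff]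
      rw [_root_.sub_mul, one_mul, KB3P.ip_sub]
      convert h4 using 1
      ring)
    (by
      ext x y : 1
      simp only [Matrix.mul_apply, Matrix.transpose_apply]
      rw [k1, Finset.sum_congr rfl fun u _ => by rw [k2 x u, mul_comm], k1, ← mul_assoc,
        B.ip_mul_left, B.E.flat_mul, hfe, B.flat_j, hf, ← hce, mul_assoc, B.ip_comm])
    (fun x y => by rw [B.lmK_j]; exact ⟨_, rfl⟩)
    (fun x y => by
      simp only [lmK, Matrix.of_apply]
      rw [← B.repr_bk, map_mul, B.bk_j, hb, B.bk_CK])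
    f hm (by
      have h4 : ψ (Polynomial.aeval a f) = 0 := by
        change B.lmK S (B.j _) = 0
        rw [B.lmK_j, h0, Matrix.map_zero _ (map_zero _)]
      rw [Polynomial.aeval_def, Polynomial.hom_eval₂] at h4
      rw [Polynomial.aeval_def, ← h4]
      exact congrArg (fun φ => Polynomial.eval₂ φ (B.lmK S (B.j a)) f) (RingHom.ext_int _ _)) x y
  rw [B.lmK_j] at k3
  exact IsFractionRing.injective (GA Γ) (KK Γ) k3

end KB

end

end Pool.Agent.P.MP_1a0ecf_al.K
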