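import Pool.Agent.P.MP_1a0ecf_al.K.Inst
import Pool.Agent.P.MP_1a0ecf_al.K.KB2
import Pool.Agent.P.MP_1a0ecf_al.K.KB3
import Pool.Agent.P.MP_1a0ecf_al.K.Glue

/-! Package Sep: separation and gluing of cells by the classes of shapes. -/

namespace Pool.Agent.P.MP_1a0ecf_al.K

open Sn
open scoped Classical

set_option linter.unusedSectionVars false

noncomputable section

variable {X : F.Cox} {Γ : Type} [AddCommGroup Γ] [LinearOrder Γ] [IsOrderedAddMonoid Γ]
  {L : Fin X.n → Γ}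


namespace KT

variable {B : KB X Γ L} {a b : Γ} (t : KT B a b)

/-- `dual`: test with `T w⁻¹`, `w ∈ Wp I` (`tau_mul_T`, `mem_sp`); `odd`: `exists_odd`. -/
theorem exists_lat1 : ∃ Λ : t.toTw.Lat1, Λ.R = ZZ Γ ∧ ∀ h, h ∈ Λ.HR ↔ In B.E (ZZ Γ) h := by
  have hz := B.ze_mem (AA_le_ZZ (Γ := Γ))
  have key : ∀ k, ∀ x ∈ t.toTw.Hk k, ∀ w, B.E.co x w ≠ 0 → B.E.T w⁻¹ ∈ t.toTw.Hk k := by
    intro k x hx w hw
    obtain ⟨I, hI⟩ := t.par k
    have h1 : x ∈ B.E.sp (Wp X I) := hI ▸ hx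
    have h2 : B.E.T w⁻¹ ∈ B.E.sp (Wp X I) :=
      Submodule.subset_span ⟨w⁻¹, Subgroup.inv_mem _ (B.E.mem_sp.1 h1 w hw), rfl⟩
    rw [← hI] at h2
    exact h2
  have hco : ∀ (c : KK Γ) (x : B.E.H) (w : X.W), B.E.co (c • x) w = c * B.E.co x w := by
    intro c x w
    simp only [F.HA.co, map_smul, Finsupp.smul_apply, smul_eq_mul]
  refine ⟨{ mkLat B.E t.toTw (ZZ Γ) hz (by rw [t.hQ]; exact (un_mK b).mono AA_le_ZZ)
              (by rw [t.hq]; exact (un_mK a).mono AA_le_ZZ) (fun k w => AA_le_ZZ (t.inT k w))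
              (fun w => AA_le_ZZ (t.inX w)) with
            tau := fun h hh => ?_
            dual := fun k _ x hx H w => ?_
            odd := fun k _ x hx h0 => ?_
            two := ?_ }, rfl, fun _ => Iff.rfl⟩
  · rw [t.hτ]
    exact In.tau B.E hh
  · by_cases hw : B.E.co x w = 0
    · rw [hw]
      exact zero_mem _
    · have := H _ (key k x hx w hw) (in_T B.E _ _)
      rwa [t.hτ, B.E.tau_mul_T] at this
  · have h1 : ∃ w, B.E.co x w ≠ 0 := by
      by_contra h1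
      push Not at h1
      exact h0 (B.E.T.ext_elem fun w => by simpa [F.HA.co] using h1 w)
    obtain ⟨c, h2, w, h3⟩ := exists_odd (fun w => B.E.co x w) h1
    have hw : B.E.co x w ≠ 0 := fun e => h3 (by rw [e, mul_zero, zero_div]; exact zero_mem _)
    refine ⟨c • B.E.T w⁻¹, Subalgebra.smul_mem _ (key k x hx w hw) c, ?_, ?_⟩
    · rw [mul_smul_comm, ← smul_mul_assoc]
      exact In.mul B.E hz (fun u => by rw [hco]; exact AA_le_ZZ (h2 u)) (in_T B.E _ _)
    · rw [mul_smul_comm, map_smul, t.hτ, B.E.tau_mul_T, smul_eq_mul]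
      exact h3
  · have h1 := (binom (γ := a) (δ := -a) (neg_lt_self t.ha) (Or.inl rfl) (Or.inr rfl)).2.2.1
    rw [one_mul, neg_one_mul, sub_neg_eq_add] at h1
    change Un (ZZ Γ) _
    rw [t.hq, ← mK_neg]
    exact un_ZZ (AA_le_ZZ (add_mem (mK_mem _) (mK_mem _))) h1

private theorem un_dd {x y : Box} (h : dd a b x ≠ dd a b y) :
    Un (ZZ Γ) (t.toTw.ξ x - t.toTw.ξ y) := by
  have := un_xi_sub h
  rwa [← t.hQ, ← t.hq] at this

theorem eU_in {k : ℕ} (hk : k ≤ t.n) {U : List Box → Prop}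
    (hU : ∀ s u : List Box, Cl (dd a b) s u → U s → U u) : In B.E (ZZ Γ) (t.toTw.eU k U) := by
  obtain ⟨Λ, h1, h2⟩ := t.exists_lat1
  exact (h2 _).1 (Λ.toLat.eU_mem (dd a b) (fun x y _ _ h => h1 ▸ t.un_dd h) hk
    fun s u e => hU s u (List.Perm.of_eq e))

private theorem eU_idem (k : ℕ) (U : List Box → Prop) :
    t.toTw.eU k U * t.toTw.eU k U = t.toTw.eU k U := by
  rw [Tw.eU_mul]
  exact t.toTw.eU_congr fun _ _ => and_self_iff

theorem CI_eU {U : List Box → Prop} (hU : ∀ s u : List Box, s.Perm u → U s → U u) :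
    CI (t.toTw.eU t.n U) :=
  ⟨fun x => t.toTw.eU_cent le_rfl hU (t.toTw.w3_top x), t.eU_idem _ U⟩

private theorem fam_mem' {lv : Bool} {k : ℕ} {U : List Box → Prop} {p : List Box × List Box}
    (h : p ∈ Ix lv k U) : p.1 ∈ tabs lv k ∧ p.2 ∈ tabs lv k := by
  simp only [Ix, Finset.mem_filter, Finset.mem_product] at h
  exact h.1

private theorem wedge1 (B : KB X Γ L) {ι : Type} [Fintype ι] [d : DecidableEq ι] (f : ι → B.E.H)
    (c : KK Γ) (hc : c ≠ 0)
    (hint : ∀ g : ι → X.W, c * (Matrix.of fun i j => B.E.co (f j) (g i)).det ∈ AA Γ)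
    (hbar : ∀ j, B.bk (f j) = f j) (h0 : (Matrix.of fun i j => B.ip (f i) (f j)).det ≠ 0)
    (hdeg : deg (Matrix.of fun i j => B.ip (f i) (f j)).det + wd c ≤ 0) :
    B.RatS (Submodule.span (KK Γ) (Set.range f)) := by
  obtain rfl : d = fun _ _ => Classical.propDecidable _ := Subsingleton.elim _ _
  exact B.ratS_of_wedge f 1 c hc hint (fun j => by rw [hbar]; simp [Matrix.one_apply]) h0
    (by rw [Matrix.det_one, deg_one, add_zero]; exact hdeg)

/-- `ratS_of_wedge` for the family `g` with `U = 1`, `c = 2 ^ N * cf` (`deg_gram`, `Bar.g`), then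
`span_g`, `geck`, `crd_of_idem`. -/
theorem crd {k : ℕ} (hk : k ≤ t.n) {U : List Box → Prop} (h : Up (om a b) U)
    (hU : ∀ s u : List Box, Cl (dd a b) s u → U s → U u) : B.Crd (B.lid (t.toTw.eU k U)) := by
  obtain ⟨N, hN⟩ := t.int k hk U h
  obtain ⟨I, hI⟩ := t.par k
  obtain ⟨g1, g2, g3⟩ := t.toTw.deg_gram t.hQ t.hq t.bar true hk h.perm
  rw [t.hτ, t.hfl] at g1 g2
  have h2 : (2 : KK Γ) ^ N ≠ 0 := pow_ne_zero _ two_ne_zero
  have h1 := wedge1 B (fun i : Ix t.lv k U => t.toTw.g true i.1.1 i.1.2)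
    (2 ^ N * t.toTw.cf (fun x z => dd a b x < dd a b z) true k U) (mul_ne_zero h2 g3)
    (fun g => by
      have := hN fun p => if hp : p ∈ Ix t.lv k U then g ⟨p, hp⟩ else 1
      rw [← mul_assoc, Tw.mn] at this
      have e : (Matrix.of fun i j : Ix t.lv k U => B.E.co (t.toTw.g true j.1.1 j.1.2) (g i)) =
          Matrix.of fun i j : Ix t.lv k U => B.E.T.coord
            (if hp : i.1 ∈ Ix t.lv k U then g ⟨i.1, hp⟩ else 1) (t.toTw.g true j.1.1 j.1.2) := by
        ext1 i j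
        simp only [Matrix.of_apply, dif_pos i.2]
        rfl
      rw [e]
      exact this)
    (fun j => by
      have hj := fam_mem' j.2
      exact t.bar.g true hk hj.1 hj.2) g2
    (by
      have e : (2 : KK Γ) ^ N = ((2 ^ N : ℚ) : KK Γ) := by push_cast; rfl
      rw [wd_mul h2 g3, e, wd_rat, zero_add]
      exact g1.le)
  rw [t.toTw.span_g true hk h.perm, hI] at h1
  have h3 : t.toTw.eU k U ∈ B.E.sp (Wp X I) := hI ▸ t.toTw.eU_mem le_rfl U
  exact B.crd_of_idem (t.eU_idem k U) (by rw [← t.hfl, Tw.fl_eU]) (t.eU_in hk hU) (B.geck I h3 h1)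

theorem eU_ge (k : ℕ) (s : List Box) :
    t.toTw.eU k (fun u => om a b s < om a b u ∨ Cl (dd a b) u s) =
      t.toTw.eU k (fun u => om a b s < om a b u) + t.toTw.eU k fun u => Cl (dd a b) u s :=
  t.toTw.eU_or k fun _ _ h h' => h.ne' h'.om

/-- `cent_idem`. If `lv = true` and `b + m • a = 0` for some `m` use `Rs.glue`; otherwise `dd` is
injective on the allowed boxes and a class is one shape (`Cl.perm`). -/
theorem prim (s : List Box) : B.Prim (ZZ Γ) (t.cls s) := by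
  intro e he hi
  obtain ⟨U, hU, rfl⟩ := t.toTw.cent_idem he.1 he.2
  obtain ⟨Λ, h1, h2⟩ := t.exists_lat1
  have key : ∀ u ∈ tabs t.lv t.n, ∀ v ∈ tabs t.lv t.n, Cl (dd a b) u v → U u → U v := by
    intro u hu v hv hc
    by_cases h : t.lv = true ∧ ∃ m : ℤ, b + m • a = 0
    · obtain ⟨hl, m, hm⟩ := h
      have hr : Λ.Rs m := ⟨hl, fun x y e => h1 ▸ t.un_dd fun e' => e ((dd_eq_rs t.ha hm).1 e'),
        fun x => by
          have := xi_par hm x
          rwa [← t.hQ, ← t.hq] at this⟩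
      exact hr.glue le_rfl hU ((h2 _).2 hi) hu hv
        ((Cl.congr fun _ _ => dd_eq_rs t.ha hm).1 hc)
    · refine hU _ _ (hc.perm fun x hx y hy e => ?_)
      by_cases hl : t.lv = true
      · exact dd_inj t.ha (fun m hm => h ⟨hl, m, hm⟩) e
      · have k1 := (ok_of_mem (mem_tabs.1 hu).2 hx).resolve_left hl
        have k2 := (ok_of_mem (mem_tabs.1 hv).2 hy).resolve_left hl
        have k3 := dd_lt (x := x) (y := y) t.ha b (k1.trans k2.symm)
        have k4 := dd_lt (x := y) (y := x) t.ha b (k2.trans k1.symm)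
        rw [e] at k3 k4
        simp only [lt_self_iff_false, false_iff] at k3 k4
        exact Prod.ext (k1.trans k2.symm) (by omega)
  rw [KT.cls, Tw.eU_mul]
  by_cases h : ∃ u ∈ tabs t.lv t.n, U u ∧ Cl (dd a b) u s
  · obtain ⟨u, hu, k1, k2⟩ := h
    exact Or.inr (t.toTw.eU_congr fun v hv =>
      ⟨fun h => h.2, fun h => ⟨key u hu v hv (k2.trans h.symm) k1, h⟩⟩)
  · refine Or.inl (Finset.sum_eq_zero fun u hu => (h ⟨u, ?_⟩).elim)
    simpa only [Finset.mem_filter] using hu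

theorem blk_or (s : List Box) (z : X.W) :
    B.Blk z (t.cls s) ∨ B.lmK (B.toKL.cell z) (t.cls s) = 0 :=
  B.blk_or (t.CI_eU (up_ge a b s).perm) (t.CI_eU (up_gt a b (om a b s)).perm)
    (t.crd le_rfl (up_ge a b s) fun _ _ h h' =>
      h'.imp (fun e => e.trans_eq h.om) fun e => h.symm.trans e)
    (t.crd le_rfl (up_gt a b (om a b s)) fun _ _ h h' => h'.trans_eq h.om) (t.eU_ge _ s)
    (t.eU_idem _ _) z

/-- `1 = ∑ E s` and `E s = cls s * E s` -/
theorem exists_blk (z : X.W) : ∃ s ∈ tabs t.lv t.n, B.Blk z (t.cls s) := by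
  by_contra h
  refine KB.Blk.ne (B := B) (z := z) (B.lmK_one _) ?_
  rw [← t.toTw.eU_top le_rfl, Tw.eU, B.lmK_sum]
  refine Finset.sum_eq_zero fun s hs => ?_
  simp only [Finset.mem_filter, and_true] at hs
  have e := t.toTw.eU_E (fun u => Cl (dd a b) u s) (mem_tabs.1 hs).1
  rw [if_pos (Cl.refl _ s)] at e
  rw [← e, B.lmK_mul (B.toKL.cvx_cell z)]
  rw [show B.lmK _ (t.toTw.eU t.n fun u => Cl (dd a b) u s) = 0 from
    (t.blk_or s z).resolve_left fun k => h ⟨s, hs, k⟩, zero_mul]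

theorem cls_congr {s u : List Box} (h : Cl (dd a b) s u) : t.cls s = t.cls u :=
  t.toTw.eU_congr fun _ _ => ⟨fun e => e.trans h, fun e => e.trans h.symm⟩

theorem aeval_cls (f : Polynomial (KK Γ)) (s : List Box) (c : KK Γ)
    (h : ∀ u ∈ tabs t.lv t.n, Cl (dd a b) u s → (u.map fun x => f.eval (t.toTw.ξ x)).sum = c) :
    (∑ k ∈ Finset.range t.n, Polynomial.aeval (t.toTw.X k) f) * t.cls s = c • t.cls s := by
  rw [KT.cls, Tw.eU, Finset.mul_sum, Finset.smul_sum]
  refine Finset.sum_congr rfl fun u hu => ?_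
  simp only [Finset.mem_filter] at hu
  rw [t.toTw.aeval_sum_E f (mem_tabs.1 hu.1).1, h u hu.1 hu.2]

end KT

end

end Pool.Agent.P.MP_1a0ecf_al.K
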