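import Pool.Agent.P.MP_1a0ecf_al.K.SnB

/-! Seminormal systems, part 2: the data, the axioms, S1 and S2. -/

namespace Pool.Agent.P.MP_1a0ecf_al.K.Sn

open scoped Classical

set_option linter.unusedSectionVars false

noncomputable section

/-- the data of a seminormal system; `qi` is the inverse of `q` -/
structure Dat (R H : Type) where
  pr : ℕ → Box → H
  T : ℕ → H
  al : Box → Box → R
  q : R
  qi : R

namespace Dat

variable {R H : Type} [CommRing R] [Ring H] (D : Dat R H)

/-- the scalar of a double swap -/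
def N (x y : Box) : R := (D.q - D.al x y) * (D.al x y + D.qi)

/-- the idempotent of a list -/
def E : List Box → H
  | [] => 1
  | x :: l => D.pr l.length x * E l

/-- the idempotent of a list placed above the position `k` -/
def Eo (k : ℕ) : List Box → H
  | [] => 1
  | x :: u => D.pr (u.length + k) x * Eo k u

/-- `E s T ... T E b` along a path -/
def ups (b : List Box) : List Step → H
  | [] => D.E b
  | p :: ps => D.E p.tgt * D.T p.l.length * ups b ps

/-- `E b T ... T E s` along a path -/
def dns (b : List Box) : List Step → H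
  | [] => D.E b
  | p :: ps => dns b ps * D.T p.l.length * D.E p.tgt

/-- the product of the generators along a path -/
def Tp : List Step → H
  | [] => 1
  | p :: ps => D.T p.l.length * Tp ps

/-- the reversed product -/
def Tq : List Step → H
  | [] => 1
  | p :: ps => Tq ps * D.T p.l.length

/-- the norm of a path -/
def Nms : List Step → R
  | [] => 1
  | p :: ps => D.N p.x p.z * Nms ps

/-- `up` of the chosen path -/
def U (lv o : Bool) (s : List Box) : H := D.ups (bt lv o s) (pth lv o s)

/-- `dn` of the chosen path -/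
def V (lv o : Bool) (s : List Box) : H := D.dns (bt lv o s) (pth lv o s)

/-- the norm of the chosen path -/
def Nm (lv o : Bool) (s : List Box) : R := D.Nms (pth lv o s)

/-- scaled matrix units -/
def g (lv o : Bool) (s t : List Box) : H := D.U lv o s * D.V lv o t

theorem E_append (u l : List Box) : D.E (u ++ l) = D.Eo l.length u * D.E l := by
  induction u with
  | nil => simp [Eo]
  | cons x u ih => rw [List.cons_append, E, Eo, ih, List.length_append, mul_assoc]

variable {D}

theorem comm_E {a : H} {l : List Box} (h : ∀ j < l.length, ∀ x, Commute a (D.pr j x)) :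
    Commute a (D.E l) := by
  induction l with
  | nil => exact Commute.one_right a
  | cons x l ih =>
    exact (h _ (by simp) x).mul_right (ih fun j hj => h j (by simp; omega))

theorem comm_Eo {a : H} {k : ℕ} (h : ∀ j, k ≤ j → ∀ x, Commute a (D.pr j x)) (u : List Box) :
    Commute a (D.Eo k u) := by
  induction u with
  | nil => exact Commute.one_right a
  | cons x u ih => exact (h _ (by omega) x).mul_right ih

end Dat

/-- the axioms of a seminormal system of height `n` -/
structure Ok {K H : Type} [Field K] [Ring H] [Algebra K H] (lv : Bool) (n : ℕ) (B : Finset Box)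
    (D : Dat K H) (Hk : ℕ → Subalgebra K H) : Prop where
  comm : ∀ j k x y, D.pr j x * D.pr k y = D.pr k y * D.pr j x
  orth : ∀ k x y, D.pr k x * D.pr k y = if x = y then D.pr k x else 0
  top : ∀ k x, n ≤ k → D.pr k x = 0
  sum : ∀ k < n, ∑ x ∈ B, D.pr k x = 1
  quad : ∀ k, k + 1 < n → D.T k * D.T k = 1 + (D.q - D.qi) • D.T k
  braid : ∀ k, k + 2 < n → D.T k * D.T (k + 1) * D.T k = D.T (k + 1) * D.T k * D.T (k + 1)
  far : ∀ k j x, k + 1 < n → j ≠ k → j ≠ k + 1 → D.T k * D.pr j x = D.pr j x * D.T k
  off : ∀ k x y x' y', ¬ (x' = x ∧ y' = y) → ¬ (x' = y ∧ y' = x) →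
    D.pr k x' * D.pr (k + 1) y' * D.T k * (D.pr k x * D.pr (k + 1) y) = 0
  diag : ∀ k x y, x ≠ y → D.pr k x * D.pr (k + 1) y * D.T k * (D.pr k x * D.pr (k + 1) y) =
    D.al x y • (D.pr k x * D.pr (k + 1) y)
  same : ∀ k x, D.pr k x * D.pr (k + 1) x = 0
  al_up : ∀ x, D.al x (up x) = D.q
  al_dn : ∀ x, D.al x (dn x) = -D.qi
  al_far : ∀ x y, x ≠ y → ¬ Nb x y → D.N x y ≠ 0
  al_add : ∀ x y, x ≠ y → D.al x y + D.al y x = D.q - D.qi
  qqi : D.q * D.qi = 1
  q_add : D.q + D.qi ≠ 0
  base : ∀ x, D.pr 0 x ≠ 0 → aa lv 0 x = 1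
  zero : ∀ h ∈ Hk 0, ∃ c : K, h = c • (1 : H)
  span : ∀ k < n, ∀ h ∈ Hk (k + 1), h ∈ Submodule.span K {g : H | ∃ a ∈ Hk k, ∃ b ∈ Hk k,
    (∃ x, g = a * D.pr k x * b) ∨ ∃ j, j + 1 = k ∧ g = a * D.T j * b}
  cent : ∀ k j x, k ≤ j → ∀ h ∈ Hk k, h * D.pr j x = D.pr j x * h
  pr_mem : ∀ k j x, k < j → D.pr k x ∈ Hk j
  T_mem : ∀ k j, k + 1 < j → D.T k ∈ Hk j

namespace Ok

variable {K H : Type} [Field K] [Ring H] [Algebra K H] {lv : Bool} {n : ℕ} {B : Finset Box}
  {D : Dat K H} {Hk : ℕ → Subalgebra K H} (h : Ok lv n B D Hk)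
include h

theorem pr_E (j : ℕ) (x : Box) (l : List Box) : Commute (D.pr j x) (D.E l) :=
  Dat.comm_E fun k _ y => h.comm j k x y

theorem pr_Eo (j : ℕ) (x : Box) (k : ℕ) (u : List Box) : Commute (D.pr j x) (D.Eo k u) :=
  Dat.comm_Eo (fun k _ y => h.comm j k x y) u

theorem E_E (s t : List Box) : Commute (D.E s) (D.E t) :=
  Dat.comm_E fun j _ x => (h.pr_E j x s).symm

theorem E_Eo (s : List Box) (k : ℕ) (u : List Box) : Commute (D.E s) (D.Eo k u) :=
  Dat.comm_Eo (fun j _ x => (h.pr_E j x s).symm) u

theorem Eo_mul (k : ℕ) {u v : List Box} (hl : u.length = v.length) :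
    D.Eo k u * D.Eo k v = if u = v then D.Eo k u else 0 := by
  induction u generalizing v with
  | nil => rw [List.length_eq_zero_iff.1 hl.symm, if_pos rfl, Dat.Eo, one_mul]
  | cons x u ih =>
    obtain _ | ⟨y, v⟩ := v
    · simp at hl
    · have hl' : u.length = v.length := by simpa using hl
      rw [Dat.Eo, Dat.Eo, ← hl', mul_assoc, ← mul_assoc (D.Eo k u), ← (h.pr_Eo _ y k u).eq, mul_assoc,
        ← mul_assoc, h.orth, ih hl']
      by_cases e : x = y <;> by_cases e' : u = v <;> simp [e, e']

omit h in
theorem Eo_zero (u : List Box) : D.Eo 0 u = D.E u := by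
  induction u with
  | nil => rfl
  | cons x u ih => rw [Dat.Eo, Dat.E, ih, add_zero]

theorem E_mul {s t : List Box} (hl : s.length = t.length) :
    D.E s * D.E t = if s = t then D.E s else 0 := by
  simpa only [Eo_zero] using h.Eo_mul 0 hl

theorem E_idem (s : List Box) : D.E s * D.E s = D.E s := by rw [h.E_mul rfl, if_pos rfl]

theorem E_orth {s t : List Box} (hl : s.length = t.length) (hne : s ≠ t) : D.E s * D.E t = 0 := by
  rw [h.E_mul hl, if_neg hne]

theorem E_mem {l : List Box} {k : ℕ} (hl : l.length ≤ k) : D.E l ∈ Hk k := by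
  induction l with
  | nil => exact one_mem _
  | cons x l ih =>
    rw [List.length_cons] at hl
    exact mul_mem (h.pr_mem _ _ x (by omega)) (ih (by omega))

theorem length_le {l : List Box} (hl : D.E l ≠ 0) : l.length ≤ n := by
  obtain _ | ⟨x, l⟩ := l
  · exact Nat.zero_le n
  · by_contra hn
    exact hl (by rw [Dat.E, h.top _ _ (by simp at hn; omega), zero_mul])

theorem pr_zero {k : ℕ} {x : Box} (hx : x ∉ B) : D.pr k x = 0 := by
  by_cases hk : k < n
  · rw [← mul_one (D.pr k x), ← h.sum k hk, Finset.mul_sum]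
    exact Finset.sum_eq_zero fun y hy => by rw [h.orth, if_neg fun e : x = y => hx (e ▸ hy)]
  · exact h.top k x (by omega)

theorem mem_lists {l : List Box} (hl : D.E l ≠ 0) : l ∈ lists B l.length := by
  refine Sn.mem_lists.2 ⟨rfl, ?_⟩
  induction l with
  | nil => simp
  | cons x l ih =>
    intro y hy
    rcases List.mem_cons.1 hy with rfl | hy
    · by_contra hn
      exact hl (by rw [Dat.E, h.pr_zero hn, zero_mul])
    · exact ih (right_ne_zero_of_mul hl) y hy

theorem sum_E {k : ℕ} (hk : k ≤ n) : ∑ l ∈ lists B k, D.E l = 1 := by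
  induction k with
  | zero => simp [lists, Dat.E]
  | succ k ih =>
    rw [sum_lists_succ, ← ih (by omega)]
    refine Finset.sum_congr rfl fun l hl => ?_
    simp only [Dat.E, (Sn.mem_lists.1 hl).1]
    rw [← Finset.sum_mul, h.sum k (by omega), one_mul]

theorem E_split (u l : List Box) (x z : Box) : D.E (u ++ x :: z :: l) =
    D.Eo (l.length + 2) u * D.E l * (D.pr l.length z * D.pr (l.length + 1) x) := by
  rw [Dat.E_append, Dat.E, Dat.E, ← mul_assoc (D.pr _ x), List.length_cons, h.comm,
    (((h.pr_E _ z l).mul_left (h.pr_E _ x l))).eq, mul_assoc]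
  rfl

theorem T_out {l : List Box} (hk : l.length + 1 < n) (u l' : List Box) (hl : l'.length = l.length) :
    Commute (D.T l.length) (D.Eo (l.length + 2) u * D.E l') :=
  (Dat.comm_Eo (fun j hj x => h.far _ j x hk (by omega) (by omega)) u).mul_right
    (Dat.comm_E fun j hj x => h.far _ j x hk (by omega) (by omega))

/-- the local form of `E t * T k * E s` -/
theorem ETE (u u' l l' : List Box) (x z x' z' : Box) (hu : u'.length = u.length)
    (hl : l'.length = l.length) :
    D.E (u' ++ x' :: z' :: l') * D.T l.length * D.E (u ++ x :: z :: l) =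
      if u' = u ∧ l' = l then D.Eo (l.length + 2) u * D.E l *
        (D.pr l.length z' * D.pr (l.length + 1) x' * D.T l.length *
          (D.pr l.length z * D.pr (l.length + 1) x)) else 0 := by
  by_cases hk : l.length + 1 < n
  · rw [h.E_split, h.E_split, hl]
    set W := D.Eo (l.length + 2) u * D.E l
    set W' := D.Eo (l.length + 2) u' * D.E l'
    set P := D.pr l.length z * D.pr (l.length + 1) x
    set P' := D.pr l.length z' * D.pr (l.length + 1) x'
    have c1 : Commute (D.T l.length) W := h.T_out hk u l rfl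
    have c2 : Commute P' W :=
      ((h.pr_Eo _ _ _ _).mul_right (h.pr_E _ _ _)).mul_left
        ((h.pr_Eo _ _ _ _).mul_right (h.pr_E _ _ _))
    have e : W' * P' * D.T l.length * (W * P) = W' * W * (P' * D.T l.length * P) := by
      have := (c2.mul_left c1).eq
      calc _ = W' * ((P' * D.T l.length) * W) * P := by simp only [mul_assoc]
        _ = _ := by rw [this]; simp only [mul_assoc]
    have e2 : W' * W = if u' = u ∧ l' = l then W else 0 := by
      have : W' * W = D.Eo (l.length + 2) u' * D.Eo (l.length + 2) u * (D.E l' * D.E l) := by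
        calc _ = D.Eo (l.length + 2) u' * (D.E l' * D.Eo (l.length + 2) u) * D.E l := by
              simp only [W, W', mul_assoc]
          _ = _ := by rw [(h.E_Eo l' _ u).eq]; simp only [mul_assoc]
      rw [this, h.Eo_mul _ hu, h.E_mul hl]
      by_cases e1 : u' = u <;> by_cases e2 : l' = l <;> simp [e1, e2, W]
    rw [e, e2]
    split_ifs
    · rfl
    · rw [zero_mul]
  · rw [h.E_split u l, h.top (l.length + 1) x (by omega)]
    simp

theorem ETE_off {u l t : List Box} {x z : Box} (ht : t.length = (u ++ x :: z :: l).length)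
    (h1 : t ≠ u ++ x :: z :: l) (h2 : t ≠ u ++ z :: x :: l) :
    D.E t * D.T l.length * D.E (u ++ x :: z :: l) = 0 := by
  simp only [List.length_append, List.length_cons] at ht
  obtain ⟨u', r, rfl, hu⟩ : ∃ u' r, t = u' ++ r ∧ u'.length = u.length :=
    ⟨t.take u.length, t.drop u.length, by simp, by simp; omega⟩
  rw [List.length_append] at ht
  obtain _ | ⟨x', _ | ⟨z', l'⟩⟩ := r
  · simp at ht; omega
  · simp at ht; omega
  · rw [h.ETE u u' l l' x z x' z' hu (by simp at ht; omega)]
    split_ifs with e
    · obtain ⟨rfl, rfl⟩ := e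
      rw [h.off _ _ _ _ _ (fun e => h1 (by rw [e.1, e.2])) (fun e => h2 (by rw [e.1, e.2])), mul_zero]
    · rfl

theorem E_same (u l : List Box) (x : Box) : D.E (u ++ x :: x :: l) = 0 := by
  rw [h.E_split, h.same, mul_zero]

theorem ETE_diag (u l : List Box) (x z : Box) :
    D.E (u ++ x :: z :: l) * D.T l.length * D.E (u ++ x :: z :: l) =
      D.al z x • D.E (u ++ x :: z :: l) := by
  by_cases e : z = x
  · rw [e, h.E_same]; simp
  · rw [h.ETE u u l l x z x z rfl rfl, if_pos ⟨rfl, rfl⟩, h.diag _ _ _ e, h.E_split, mul_smul_comm]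

theorem T_E (u l : List Box) (x z : Box) : D.T l.length * D.E (u ++ x :: z :: l) =
    D.E (u ++ z :: x :: l) * D.T l.length * D.E (u ++ x :: z :: l) +
      D.al z x • D.E (u ++ x :: z :: l) := by
  by_cases h0 : D.E (u ++ x :: z :: l) = 0
  · rw [h0]; simp
  have hne : u ++ z :: x :: l ≠ u ++ x :: z :: l := fun e => by
    obtain rfl : z = x := by simpa using (List.cons.inj (List.append_cancel_left e)).1
    exact h0 (h.E_same u l z)
  have hlen : (u ++ z :: x :: l).length = (u ++ x :: z :: l).length := by simp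
  rw [← h.ETE_diag, ← one_mul (D.T l.length * _), ← h.sum_E (h.length_le h0), Finset.sum_mul]
  simp only [← mul_assoc]
  refine Finset.sum_eq_add _ _ hne (fun t ht hc => h.ETE_off (Sn.mem_lists.1 ht).1 hc.2 hc.1)
    (fun hn => ?_) fun hn => (hn (h.mem_lists h0)).elim
  by_cases h1 : D.E (u ++ z :: x :: l) = 0
  · rw [h1]; simp
  · exact (hn (hlen ▸ h.mem_lists h1)).elim

theorem ETETE (u l : List Box) (x z : Box) :
    D.E (u ++ x :: z :: l) * D.T l.length * D.E (u ++ z :: x :: l) * D.T l.length *
      D.E (u ++ x :: z :: l) = D.N z x • D.E (u ++ x :: z :: l) := by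
  by_cases h0 : D.E (u ++ x :: z :: l) = 0
  · rw [h0]; simp
  have hk : l.length + 1 < n := by
    have := h.length_le h0
    simp at this
    omega
  set s := D.E (u ++ x :: z :: l)
  set t := D.E (u ++ z :: x :: l)
  have e1 : D.T l.length * s = t * D.T l.length * s + D.al z x • s := h.T_E u l x z
  have e2 : s * D.T l.length * s = D.al z x • s := h.ETE_diag u l x z
  have e3 : s * s = s := h.E_idem _
  have e4 : s * D.T l.length * (D.T l.length * s) = s + ((D.q - D.qi) * D.al z x) • s := by
    rw [mul_assoc, ← mul_assoc (D.T _), h.quad _ hk, add_mul, one_mul, mul_add, e3, smul_mul_assoc,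
      mul_smul_comm, ← mul_assoc, e2, smul_smul]
  rw [e1, mul_add, mul_smul_comm, e2, smul_smul] at e4
  have e5 : D.N z x = 1 + (D.q - D.qi) * D.al z x - D.al z x * D.al z x := by
    rw [Dat.N]; linear_combination h.qqi
  rw [e5, sub_smul, add_smul, one_smul, ← e4]
  simp only [mul_assoc, add_sub_cancel_right]

theorem N_symm {x y : Box} (hxy : x ≠ y) : D.N x y = D.N y x := by
  have := h.al_add x y hxy
  rw [Dat.N, Dat.N, show D.al y x = D.q - D.qi - D.al x y by linear_combination this]
  ring

theorem ne_of_E {u l : List Box} {x z : Box} (h0 : D.E (u ++ x :: z :: l) ≠ 0) : x ≠ z := by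
  rintro rfl
  exact h0 (h.E_same u l x)

theorem swap_ne {u l : List Box} {x z : Box} (h0 : D.E (u ++ x :: z :: l) ≠ 0) (hn : ¬ Nb x z) :
    D.E (u ++ z :: x :: l) ≠ 0 := fun e => by
  have := h.ETETE u l x z
  rw [e, mul_zero, zero_mul, zero_mul] at this
  exact smul_ne_zero (h.al_far z x (h.ne_of_E h0).symm fun e => hn e.symm) h0 this.symm

theorem move_ne {w u v : List Box} {x : Box} (h0 : D.E (w ++ (u ++ x :: v)) ≠ 0)
    (hu : ∀ y ∈ u, ¬ Nb x y) : D.E (w ++ x :: (u ++ v)) ≠ 0 := by
  induction u generalizing w with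
  | nil => exact h0
  | cons y u ih =>
    have h1 := ih (w := w ++ [y]) (by simpa using h0) fun y' hy => hu y' (List.mem_cons_of_mem _ hy)
    rw [List.append_assoc] at h1
    exact h.swap_ne h1 fun hn => hu y List.mem_cons_self hn.symm

theorem E_pattern {x z : Box} (hn : Nb x z) (v : List Box) : D.E (x :: z :: x :: v) = 0 := by
  by_contra h0
  have hk : v.length + 2 < n := by
    have := h.length_le h0
    simp at this
    omega
  have e1 := h.T_E [x] v z x
  have e2 := h.T_E [] (x :: v) x z
  have z1 : D.E ([x] ++ x :: z :: v) = 0 := h.E_same [] (z :: v) x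
  have z2 : D.E ([] ++ z :: x :: x :: v) = 0 := h.E_same [z] v x
  rw [z1, zero_mul, zero_mul, zero_add] at e1
  rw [z2, zero_mul, zero_mul, zero_add] at e2
  simp only [List.cons_append, List.nil_append, List.length_cons] at e1 e2
  have b := congrArg (· * D.E (x :: z :: x :: v)) (h.braid _ hk)
  simp only [mul_assoc, e1, e2, mul_smul_comm, smul_smul] at b
  have b2 := sub_eq_zero.2 b
  rw [← sub_smul, smul_eq_zero, or_iff_left h0] at b2
  apply h.q_add
  rcases hn with rfl | rfl
  · have a2 : D.al (up x) x = -D.qi := by simpa only [dn_up] using h.al_dn (up x)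
    rw [h.al_up, a2] at b2
    linear_combination (-1 : K) * b2 - (D.q + D.qi) * h.qqi
  · have a2 : D.al (dn x) x = D.q := by simpa only [up_dn] using h.al_up (dn x)
    rw [h.al_dn, a2] at b2
    linear_combination b2 - (D.q + D.qi) * h.qqi

theorem suffix_ne {u l : List Box} (h0 : D.E (u ++ l) ≠ 0) : D.E l ≠ 0 := by
  rw [Dat.E_append] at h0
  exact right_ne_zero_of_mul h0

/-- S1 -/
theorem std {l : List Box} (h0 : D.E l ≠ 0) : Std lv l := by
  induction hn : l.length using Nat.strong_induction_on generalizing l with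
  | _ m ih =>
    subst hn
    obtain _ | ⟨x, _ | ⟨z, l⟩⟩ := l
    · exact Std.nil
    · exact Std.cons Std.nil (h.base x (left_ne_zero_of_mul h0))
    · have h1 : Std lv (z :: l) := ih _ (by simp) (h.suffix_ne (u := [x]) h0) rfl
      obtain ⟨h2, h3⟩ := std_cons.1 h1
      refine Std.cons h1 ?_
      have hne : x ≠ z := h.ne_of_E (u := []) h0
      by_cases hb : Nb x z
      · rw [← Multiset.cons_coe, aa_cons_nb _ hb.symm]
        rcases h2.aa_nb h3 hb.symm with e | e
        · omega
        · obtain ⟨u, v, rfl, huv⟩ := h2.split_rem e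
          exact (h.move_ne (w := [x, z]) h0 (fun y hy => (huv y hy).2) (h.E_pattern hb _)).elim
      · have h4 : Std lv (x :: l) :=
          ih _ (by simp) (h.suffix_ne (u := [z]) (h.swap_ne (u := []) h0 hb)) rfl
        rw [← Multiset.cons_coe, aa_cons_far _ hne fun e => hb e.symm]
        exact (std_cons.1 h4).2

theorem sum_tabs {k : ℕ} (hk : k ≤ n) : ∑ l ∈ tabs lv k, D.E l = 1 := by
  rw [← h.sum_E hk, ← Finset.sum_filter_ne_zero, ← Finset.sum_filter_ne_zero (lists B k)]
  refine Finset.sum_congr (Finset.ext fun l => ?_) fun _ _ => rfl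
  simp only [Finset.mem_filter, mem_tabs]
  exact ⟨fun e => ⟨e.1.1 ▸ h.mem_lists e.2, e.2⟩,
    fun e => ⟨⟨(Sn.mem_lists.1 e.1).1, h.std e.2⟩, e.2⟩⟩

theorem cent_E {k : ℕ} {a : H} (ha : a ∈ Hk k) (x : Box) : Commute a (D.pr k x) :=
  h.cent k k x le_rfl a ha

/-- S2 -/
theorem s2 {k : ℕ} (hk : k ≤ n) {a : H} (ha : a ∈ Hk k) {s t : List Box} (hs : s.length = k)
    (ht : t.length = k) : (¬ s.Perm t → D.E s * a * D.E t = 0) ∧
      (s = t → ∃ c : K, D.E s * a * D.E t = c • D.E s) := by
  induction k generalizing a s t with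
  | zero =>
    obtain rfl := List.length_eq_zero_iff.1 hs
    obtain rfl := List.length_eq_zero_iff.1 ht
    obtain ⟨c, rfl⟩ := h.zero a ha
    exact ⟨fun e => (e (List.Perm.refl _)).elim, fun _ => ⟨c, by simp [Dat.E]⟩⟩
  | succ k ih =>
    obtain _ | ⟨x, s⟩ := s
    · simp at hs
    obtain _ | ⟨y, t⟩ := t
    · simp at ht
    have hs' : s.length = k := by simpa using hs
    have ht' : t.length = k := by simpa using ht
    have ih' := @ih (by omega)
    refine Submodule.span_induction (p := fun a _ =>
      (¬ (x :: s).Perm (y :: t) → D.E (x :: s) * a * D.E (y :: t) = 0) ∧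
      (x :: s = y :: t → ∃ c : K, D.E (x :: s) * a * D.E (y :: t) = c • D.E (x :: s)))
      ?_ ?_ ?_ ?_ (h.span k (by omega) a ha)
    · rintro _ ⟨a, ha, b, hb, ⟨z, rfl⟩ | ⟨j, rfl, rfl⟩⟩
      · have e : D.E (x :: s) * (a * D.pr k z * b) * D.E (y :: t) =
            D.pr k x * D.pr k z * D.pr k y * (D.E s * (a * b) * D.E t) := by
          have c1 : Commute (D.pr k z) (D.E s * a) := (h.pr_E _ _ _).mul_right (h.cent_E ha z).symm
          have c2 : Commute (D.pr k y) (D.E s * a * b) :=
            ((h.pr_E _ _ _).mul_right (h.cent_E ha y).symm).mul_right (h.cent_E hb y).symm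
          rw [Dat.E, Dat.E, hs', ht']
          calc _ = D.pr k x * ((D.E s * a) * D.pr k z) * b * D.pr k y * D.E t := by
                simp only [mul_assoc]
            _ = D.pr k x * D.pr k z * ((D.E s * a * b) * D.pr k y) * D.E t := by
                rw [← c1.eq]; simp only [mul_assoc]
            _ = _ := by rw [← c2.eq]; simp only [mul_assoc]
        rw [e]
        have i1 := ih' (mul_mem ha hb) hs' ht'
        refine ⟨fun hp => ?_, fun e => ?_⟩
        · by_cases e : x = y
          · subst e
            rw [i1.1 fun e => hp (e.cons x), mul_zero]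
          · rw [h.comm k k x z, mul_assoc (D.pr k z), h.orth, if_neg e]; simp
        · obtain ⟨rfl, rfl⟩ := List.cons.inj e
          obtain ⟨c, hc⟩ := i1.2 rfl
          rw [hc, h.comm k k x z, mul_assoc (D.pr k z), h.orth, if_pos rfl, h.orth, Dat.E, hs']
          split_ifs with e
          · exact ⟨c, by rw [e, mul_smul_comm]⟩
          · exact ⟨0, by simp⟩
      · have e : D.E (x :: s) * (a * D.T j * b) * D.E (y :: t) =
            ∑ u ∈ lists B (j + 1), ∑ v ∈ lists B (j + 1),
              D.E s * a * D.E u * (D.E (x :: u) * D.T j * D.E (y :: v)) * (D.E v * b * D.E t) := by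
          have c1 : Commute (D.pr (j + 1) x) (D.E s * a) :=
            (h.pr_E _ _ _).mul_right (h.cent_E ha x).symm
          have c2 : Commute (D.pr (j + 1) y) b := (h.cent_E hb y).symm
          have e1 : D.E (x :: s) * (a * D.T j * b) * D.E (y :: t) =
              D.E s * a * 1 * (D.pr (j + 1) x * D.T j * D.pr (j + 1) y) * (1 * b * D.E t) := by
            rw [Dat.E, Dat.E, hs', ht', mul_one, one_mul]
            calc _ = (D.pr (j + 1) x * (D.E s * a)) * D.T j * (b * D.pr (j + 1) y) * D.E t := by
                  simp only [mul_assoc]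
              _ = _ := by rw [c1.eq, ← c2.eq]; simp only [mul_assoc]
          rw [e1]
          conv_lhs => rw [← h.sum_E (k := j + 1) (by omega)]
          simp only [Finset.mul_sum, Finset.sum_mul]
          rw [Finset.sum_comm]
          refine Finset.sum_congr rfl fun u hu => Finset.sum_congr rfl fun v hv => ?_
          rw [Dat.E, Dat.E, (Sn.mem_lists.1 hu).1, (Sn.mem_lists.1 hv).1, (h.pr_E _ x u).eq]
          have i1 := h.E_idem u
          have i2 := h.E_idem v
          calc _ = D.E s * a * (D.E u * D.E u) * (D.pr (j + 1) x * D.T j * D.pr (j + 1) y) *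
                (D.E v * D.E v * b * D.E t) := by rw [i1, i2]
            _ = _ := by simp only [mul_assoc]
        have mid : ∀ u v : List Box, u.length = j + 1 → v.length = j + 1 →
            D.E (x :: u) * D.T j * D.E (y :: v) ≠ 0 → (x :: u).Perm (y :: v) ∧
              (x = y → ∃ c : K, D.E (x :: u) * D.T j * D.E (y :: v) = c • D.E (x :: u)) := by
          intro u v hu hv h0
          obtain _ | ⟨z, v⟩ := v
          · simp at hv
          obtain rfl : v.length = j := by simpa using hv
          by_cases e1 : x :: u = y :: z :: v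
          · rw [e1]
            exact ⟨List.Perm.refl _, fun _ => ⟨_, h.ETE_diag [] v y z⟩⟩
          · by_cases e2 : x :: u = z :: y :: v
            · refine ⟨e2 ▸ List.Perm.swap y z v, fun e => ?_⟩
              obtain ⟨rfl, rfl⟩ := List.cons.inj e2
              exact (e1 (by rw [e])).elim
            · exact (h0 (h.ETE_off (u := []) (by simp [hu]) e1 e2)).elim
        rw [e]
        refine ⟨fun hp => Finset.sum_eq_zero fun u hu => Finset.sum_eq_zero fun v hv => ?_,
          fun e => ?_⟩
        · have hu' := (Sn.mem_lists.1 hu).1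
          have hv' := (Sn.mem_lists.1 hv).1
          by_contra h0
          have p1 : s.Perm u := by
            by_contra e
            exact h0 (by rw [(ih' ha hs' hu').1 e, zero_mul, zero_mul])
          have p2 : v.Perm t := by
            by_contra e
            exact h0 (by rw [(ih' hb hv' ht').1 e, mul_zero])
          exact hp ((p1.cons x).trans ((mid u v hu' hv'
            (right_ne_zero_of_mul (left_ne_zero_of_mul h0))).1.trans (p2.cons y)))
        · obtain ⟨rfl, rfl⟩ := List.cons.inj e
          suffices hh : _ ∈ Submodule.span K {D.E (x :: s)} by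
            obtain ⟨c, hc⟩ := Submodule.mem_span_singleton.1 hh
            exact ⟨c, hc.symm⟩
          refine Submodule.sum_mem _ fun u hu => Submodule.sum_mem _ fun v hv => ?_
          have hu' := (Sn.mem_lists.1 hu).1
          have hv' := (Sn.mem_lists.1 hv).1
          by_cases h0 : D.E (x :: u) * D.T j * D.E (x :: v) = 0
          · rw [h0]; simp
          obtain ⟨c, hc⟩ := (mid u v hu' hv' h0).2 rfl
          obtain ⟨c', hc'⟩ := (ih' (mul_mem (mul_mem (mul_mem (mul_mem ha (h.E_mem hu'.le))
            (h.E_mem hu'.le)) (h.E_mem hv'.le)) hb) hs' hs').2 rfl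
          refine Submodule.mem_span_singleton.2 ⟨c * c', ?_⟩
          have c1 : Commute (D.pr (j + 1) x) (D.E s * a * D.E u) :=
            ((h.pr_E _ _ _).mul_right (h.cent_E ha x).symm).mul_right (h.pr_E _ _ _)
          rw [hc, Dat.E, Dat.E, hu', hs', mul_smul, ← mul_smul_comm c', ← hc', mul_smul_comm,
            smul_mul_assoc, ← mul_assoc (D.E s * a * D.E u), ← c1.eq]
          simp only [mul_assoc]
    · exact ⟨fun _ => by simp, fun _ => ⟨0, by simp⟩⟩
    · rintro a b - - i1 i2
      refine ⟨fun e => by rw [mul_add, add_mul, i1.1 e, i2.1 e, add_zero], fun e => ?_⟩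
      obtain ⟨c, hc⟩ := i1.2 e
      obtain ⟨c', hc'⟩ := i2.2 e
      exact ⟨c + c', by rw [mul_add, add_mul, hc, hc', add_smul]⟩
    · rintro r a - i1
      refine ⟨fun e => by rw [mul_smul_comm, smul_mul_assoc, i1.1 e, smul_zero], fun e => ?_⟩
      obtain ⟨c, hc⟩ := i1.2 e
      exact ⟨r * c, by rw [mul_smul_comm, smul_mul_assoc, hc, mul_smul]⟩

end Ok

end

end Pool.Agent.P.MP_1a0ecf_al.K.Sn
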