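import Pool.Agent.P.MP_1a0ecf_al.K.Sn

/-! Seminormal systems, part 3: S3 (matrix units, triangularity) and naturality. -/

namespace Pool.Agent.P.MP_1a0ecf_al.K.Sn

open scoped Classical

set_option linter.unusedSectionVars false

noncomputable section

namespace Dat

section Nat

variable {R H R' H' : Type} [CommRing R] [Ring H] [CommRing R'] [Ring H'] {D : Dat R H}
  {D' : Dat R' H'}

theorem map_E (f : H →+* H') (hp : ∀ k x, f (D.pr k x) = D'.pr k x) (l : List Box) :
    f (D.E l) = D'.E l := by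
  induction l with
  | nil => exact map_one f
  | cons x l ih => rw [E, E, map_mul, hp, ih]

theorem map_ups (f : H →+* H') (hp : ∀ k x, f (D.pr k x) = D'.pr k x)
    (hT : ∀ k, f (D.T k) = D'.T k) (b : List Box) (ps : List Step) :
    f (D.ups b ps) = D'.ups b ps := by
  induction ps with
  | nil => exact map_E f hp b
  | cons p ps ih => rw [ups, ups, map_mul, map_mul, map_E f hp, hT, ih]

theorem map_dns (f : H →+* H') (hp : ∀ k x, f (D.pr k x) = D'.pr k x)
    (hT : ∀ k, f (D.T k) = D'.T k) (b : List Box) (ps : List Step) :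
    f (D.dns b ps) = D'.dns b ps := by
  induction ps with
  | nil => exact map_E f hp b
  | cons p ps ih => rw [dns, dns, map_mul, map_mul, map_E f hp, hT, ih]

theorem map_g (f : H →+* H') (hp : ∀ k x, f (D.pr k x) = D'.pr k x)
    (hT : ∀ k, f (D.T k) = D'.T k) (lv o : Bool) (s t : List Box) :
    f (D.g lv o s t) = D'.g lv o s t := by
  rw [g, g, map_mul, U, V, map_ups f hp hT, map_dns f hp hT, U, V]

theorem map_Nms (φ : R →+* R') (hN : ∀ x y, x ≠ y → φ (D.N x y) = D'.N x y) {o : Bool}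
    {b s : List Box} {ps : List Step} (h : IsPath o b ps s) : φ (D.Nms ps) = D'.Nms ps := by
  induction h with
  | nil => exact map_one φ
  | cons _ hf _ ih => rw [Nms, Nms, map_mul, hN _ _ hf.ne, ih]

theorem map_Nm (φ : R →+* R') (hN : ∀ x y, x ≠ y → φ (D.N x y) = D'.N x y) {lv : Bool} (o : Bool)
    {s : List Box} (h : Std lv s) : φ (D.Nm lv o s) = D'.Nm lv o s :=
  map_Nms φ hN (bt_spec o h).2.2

theorem Tp_mem {S : Type} [SetLike S H] [SubmonoidClass S H] {A : S} (hT : ∀ k, D.T k ∈ A)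
    (ps : List Step) : D.Tp ps ∈ A := by
  induction ps with
  | nil => exact one_mem A
  | cons p ps ih => exact mul_mem (hT _) ih

theorem Tq_mem {S : Type} [SetLike S H] [SubmonoidClass S H] {A : S} (hT : ∀ k, D.T k ∈ A)
    (ps : List Step) : D.Tq ps ∈ A := by
  induction ps with
  | nil => exact one_mem A
  | cons p ps ih => exact mul_mem ih (hT _)

end Nat

end Dat

/-- an anti-automorphism that fixes the data -/
structure Fl {K H : Type} [Field K] [Ring H] [Algebra K H] (D : Dat K H) (fl : H →ₗ[K] H) :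
    Prop where
  one : fl 1 = 1
  mul : ∀ a b, fl (a * b) = fl b * fl a
  pr : ∀ k x, fl (D.pr k x) = D.pr k x
  T : ∀ k, fl (D.T k) = D.T k

namespace Ok

variable {K H : Type} [Field K] [Ring H] [Algebra K H] {lv : Bool} {n : ℕ} {B : Finset Box}
  {D : Dat K H} {Hk : ℕ → Subalgebra K H} (h : Ok lv n B D Hk)
include h

section Path

variable {o : Bool} {b s : List Box} {ps : List Step}

theorem E_ups (hp : IsPath o b ps s) : D.E s * D.ups b ps = D.ups b ps := by
  cases hp with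
  | nil => exact h.E_idem b
  | cons _ _ _ => rw [Dat.ups, ← mul_assoc, ← mul_assoc, h.E_idem]

theorem dns_E (hp : IsPath o b ps s) : D.dns b ps * D.E s = D.dns b ps := by
  cases hp with
  | nil => exact h.E_idem b
  | cons _ _ _ => rw [Dat.dns, mul_assoc, h.E_idem]

theorem ups_E (b : List Box) (ps : List Step) : D.ups b ps * D.E b = D.ups b ps := by
  induction ps with
  | nil => exact h.E_idem b
  | cons p ps ih => rw [Dat.ups, mul_assoc, ih]

theorem E_dns (b : List Box) (ps : List Step) : D.E b * D.dns b ps = D.dns b ps := by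
  induction ps with
  | nil => exact h.E_idem b
  | cons p ps ih => rw [Dat.dns, ← mul_assoc, ← mul_assoc, ih]

theorem dns_ups (hp : IsPath o b ps s) : D.dns b ps * D.ups b ps = D.Nms ps • D.E b := by
  induction hp with
  | nil => rw [Dat.dns, Dat.ups, Dat.Nms, h.E_idem, one_smul]
  | @cons ps p hp hf hn ih =>
    have e := h.ETETE p.u p.l p.z p.x
    rw [Dat.dns, Dat.ups, Dat.Nms, ← h.dns_E hp, ← h.E_ups hp]
    calc _ = D.dns b ps * (D.E p.src * D.T p.l.length * (D.E p.tgt * D.E p.tgt) * D.T p.l.length *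
          D.E p.src) * D.ups b ps := by simp only [mul_assoc]
      _ = _ := by
        rw [h.E_idem, Step.src, Step.tgt, e, mul_smul_comm, smul_mul_assoc, ← Step.src, h.dns_E hp,
          ih, smul_smul]

theorem ups_dns (hp : IsPath o b ps s) : D.ups b ps * D.dns b ps = D.Nms ps • D.E s := by
  induction hp with
  | nil => rw [Dat.dns, Dat.ups, Dat.Nms, h.E_idem, one_smul]
  | @cons ps p hp hf hn ih =>
    have e := h.ETETE p.u p.l p.x p.z
    rw [Dat.dns, Dat.ups, Dat.Nms]
    calc _ = D.E p.tgt * D.T p.l.length * (D.ups b ps * D.dns b ps) * D.T p.l.length *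
          D.E p.tgt := by simp only [mul_assoc]
      _ = _ := by
        rw [ih, mul_smul_comm, smul_mul_assoc, smul_mul_assoc, Step.src, Step.tgt, e, smul_smul,
          h.N_symm hf.ne, mul_comm]

theorem Nms_ne (hp : IsPath o b ps s) : D.Nms ps ≠ 0 := by
  induction hp with
  | nil => exact one_ne_zero
  | cons _ hf hn ih => exact mul_ne_zero (h.al_far _ _ hf.ne hn) ih

omit h in
theorem pos_lt (p : Step) : p.l.length + 1 < p.tgt.length := by
  simp [Step.tgt]; omega

theorem ups_mem (hp : IsPath o b ps s) {k : ℕ} (hk : b.length ≤ k) : D.ups b ps ∈ Hk k := by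
  induction hp with
  | nil => exact h.E_mem hk
  | @cons ps p hp hf hn ih =>
    have e := (IsPath.cons hp hf hn).perm.length_eq
    have := pos_lt p
    exact mul_mem (mul_mem (h.E_mem (by omega)) (h.T_mem _ _ (by omega))) ih

theorem dns_mem (hp : IsPath o b ps s) {k : ℕ} (hk : b.length ≤ k) : D.dns b ps ∈ Hk k := by
  induction hp with
  | nil => exact h.E_mem hk
  | @cons ps p hp hf hn ih =>
    have e := (IsPath.cons hp hf hn).perm.length_eq
    have := pos_lt p
    exact mul_mem (mul_mem ih (h.T_mem _ _ (by omega))) (h.E_mem (by omega))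

theorem Tp_mem (hp : IsPath o b ps s) {k : ℕ} (hk : b.length ≤ k) : D.Tp ps ∈ Hk k := by
  induction hp with
  | nil => exact one_mem _
  | @cons ps p hp hf hn ih =>
    have e := (IsPath.cons hp hf hn).perm.length_eq
    have := pos_lt p
    exact mul_mem (h.T_mem _ _ (by omega)) ih

theorem Tq_mem (hp : IsPath o b ps s) {k : ℕ} (hk : b.length ≤ k) : D.Tq ps ∈ Hk k := by
  induction hp with
  | nil => exact one_mem _
  | @cons ps p hp hf hn ih =>
    have e := (IsPath.cons hp hf hn).perm.length_eq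
    have := pos_lt p
    exact mul_mem ih (h.T_mem _ _ (by omega))

/-- a ring endomorphism with `pr ↦ pr`, `T ↦ T - c` (the bar involution) fixes `ups` -/
theorem bar_ups (f : H →+* H) (hpr : ∀ k x, f (D.pr k x) = D.pr k x)
    (hT : ∀ k, k + 1 < n → ∃ c : K, f (D.T k) = D.T k - c • (1 : H)) (hb : b.length ≤ n)
    (hp : IsPath o b ps s) : f (D.ups b ps) = D.ups b ps := by
  induction hp with
  | nil => exact Dat.map_E f hpr b
  | @cons ps p hp hf hn ih =>
    have e := (IsPath.cons hp hf hn).perm.length_eq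
    have := pos_lt p
    obtain ⟨c, hc⟩ := hT p.l.length (by omega)
    have z : D.E p.tgt * D.ups b ps = 0 := by
      rw [← h.E_ups hp, ← mul_assoc, h.E_orth p.perm.length_eq fun e => ?_, zero_mul]
      exact hf.ne (List.cons.inj (List.append_cancel_left e)).1
    rw [Dat.ups, map_mul, map_mul, Dat.map_E f hpr, ih, hc, mul_sub, sub_mul, mul_smul_comm, mul_one,
      smul_mul_assoc, z, smul_zero, sub_zero]

theorem bar_dns (f : H →+* H) (hpr : ∀ k x, f (D.pr k x) = D.pr k x)
    (hT : ∀ k, k + 1 < n → ∃ c : K, f (D.T k) = D.T k - c • (1 : H)) (hb : b.length ≤ n)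
    (hp : IsPath o b ps s) : f (D.dns b ps) = D.dns b ps := by
  induction hp with
  | nil => exact Dat.map_E f hpr b
  | @cons ps p hp hf hn ih =>
    have e := (IsPath.cons hp hf hn).perm.length_eq
    have := pos_lt p
    obtain ⟨c, hc⟩ := hT p.l.length (by omega)
    have z : D.dns b ps * D.E p.tgt = 0 := by
      rw [← h.dns_E hp, mul_assoc, h.E_orth p.perm.length_eq.symm fun e => ?_, mul_zero]
      exact hf.ne (List.cons.inj (List.append_cancel_left e)).1.symm
    rw [Dat.dns, map_mul, map_mul, Dat.map_E f hpr, ih, hc, mul_sub, sub_mul, mul_smul_comm, mul_one,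
      smul_mul_assoc, z, smul_zero, sub_zero]

theorem fl_E {fl : H →ₗ[K] H} (F : Fl D fl) (l : List Box) : fl (D.E l) = D.E l := by
  induction l with
  | nil => exact F.one
  | cons x l ih => rw [Dat.E, F.mul, ih, F.pr, (h.pr_E _ x l).eq]

theorem fl_ups {fl : H →ₗ[K] H} (F : Fl D fl) (b : List Box) (ps : List Step) :
    fl (D.ups b ps) = D.dns b ps := by
  induction ps with
  | nil => exact h.fl_E F b
  | cons p ps ih => rw [Dat.ups, Dat.dns, F.mul, F.mul, ih, F.T, h.fl_E F, mul_assoc]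

theorem fl_dns {fl : H →ₗ[K] H} (F : Fl D fl) (b : List Box) (ps : List Step) :
    fl (D.dns b ps) = D.ups b ps := by
  induction ps with
  | nil => exact h.fl_E F b
  | cons p ps ih => rw [Dat.ups, Dat.dns, F.mul, F.mul, ih, F.T, h.fl_E F, mul_assoc]

omit h in
theorem fl_Tp {fl : H →ₗ[K] H} (F : Fl D fl) (ps : List Step) : fl (D.Tp ps) = D.Tq ps := by
  induction ps with
  | nil => exact F.one
  | cons p ps ih => rw [Dat.Tp, Dat.Tq, F.mul, ih, F.T]

end Path

section Units

variable (o : Bool) {s t u v : List Box}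

theorem E_U (hs : Std lv s) : D.E s * D.U lv o s = D.U lv o s := h.E_ups (bt_spec o hs).2.2

theorem V_E (hs : Std lv s) : D.V lv o s * D.E s = D.V lv o s := h.dns_E (bt_spec o hs).2.2

theorem U_E (s : List Box) : D.U lv o s * D.E (bt lv o s) = D.U lv o s := h.ups_E _ _

theorem E_V (s : List Box) : D.E (bt lv o s) * D.V lv o s = D.V lv o s := h.E_dns _ _

theorem V_U (hs : Std lv s) : D.V lv o s * D.U lv o s = D.Nm lv o s • D.E (bt lv o s) :=
  h.dns_ups (bt_spec o hs).2.2

theorem U_V (hs : Std lv s) : D.g lv o s s = D.Nm lv o s • D.E s := h.ups_dns (bt_spec o hs).2.2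

theorem Nm_ne (hs : Std lv s) : D.Nm lv o s ≠ 0 := h.Nms_ne (bt_spec o hs).2.2

omit h in
theorem U_bt (hs : Std lv s) : D.U lv o (bt lv o s) = D.E (bt lv o s) := by
  rw [Dat.U, pth_bt o hs, bt_bt o hs, Dat.ups]

omit h in
theorem V_bt (hs : Std lv s) : D.V lv o (bt lv o s) = D.E (bt lv o s) := by
  rw [Dat.V, pth_bt o hs, bt_bt o hs, Dat.dns]

omit h in
theorem Nm_bt (hs : Std lv s) : D.Nm lv o (bt lv o s) = 1 := by
  rw [Dat.Nm, pth_bt o hs, Dat.Nms]

theorem U_mem (hs : Std lv s) {k : ℕ} (hk : s.length ≤ k) : D.U lv o s ∈ Hk k :=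
  h.ups_mem (bt_spec o hs).2.2 (by rwa [(bt_perm o hs).length_eq])

theorem V_mem (hs : Std lv s) {k : ℕ} (hk : s.length ≤ k) : D.V lv o s ∈ Hk k :=
  h.dns_mem (bt_spec o hs).2.2 (by rwa [(bt_perm o hs).length_eq])

theorem g_mem (hs : Std lv s) (ht : Std lv t) {k : ℕ} (hk : s.length ≤ k) (hk' : t.length ≤ k) :
    D.g lv o s t ∈ Hk k := mul_mem (h.U_mem o hs hk) (h.V_mem o ht hk')

theorem E_g (hs : Std lv s) (t : List Box) : D.E s * D.g lv o s t = D.g lv o s t := by
  rw [Dat.g, ← mul_assoc, h.E_U o hs]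

theorem g_E (s : List Box) (ht : Std lv t) : D.g lv o s t * D.E t = D.g lv o s t := by
  rw [Dat.g, mul_assoc, h.V_E o ht]

theorem g_mul_g (ht : Std lv t) (hu : Std lv u) (hl : t.length = u.length) (hst : bt lv o s = bt lv o t)
    (v : List Box) : D.g lv o s t * D.g lv o u v =
      if t = u then D.Nm lv o t • D.g lv o s v else 0 := by
  split_ifs with e
  · subst e
    rw [Dat.g, Dat.g, Dat.g, mul_assoc, ← mul_assoc (D.V lv o t), h.V_U o ht, smul_mul_assoc,
      mul_smul_comm, ← mul_assoc, ← hst, h.U_E]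
  · rw [← h.g_E o s ht, ← h.E_g o hu v, mul_assoc, ← mul_assoc (D.E t), h.E_orth hl e, zero_mul,
      mul_zero]

theorem fl_g {fl : H →ₗ[K] H} (F : Fl D fl) (s t : List Box) :
    fl (D.g lv o s t) = D.g lv o t s := by
  rw [Dat.g, F.mul, Dat.U, Dat.V, h.fl_ups F, h.fl_dns F, Dat.g, Dat.U, Dat.V]

theorem bar_g (f : H →+* H) (hpr : ∀ k x, f (D.pr k x) = D.pr k x)
    (hT : ∀ k, k + 1 < n → ∃ c : K, f (D.T k) = D.T k - c • (1 : H)) (hs : Std lv s) (ht : Std lv t)
    (hs' : s.length ≤ n) (ht' : t.length ≤ n) : f (D.g lv o s t) = D.g lv o s t := by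
  rw [Dat.g, map_mul, Dat.U, Dat.V,
    h.bar_ups f hpr hT (by rwa [(bt_perm o hs).length_eq]) (bt_spec o hs).2.2,
    h.bar_dns f hpr hT (by rwa [(bt_perm o ht).length_eq]) (bt_spec o ht).2.2]

/-- `E s * Hk k * E t` is the line of `g s t` -/
theorem EaE {k : ℕ} (hk : k ≤ n) {a : H} (ha : a ∈ Hk k) (hs : Std lv s) (ht : Std lv t)
    (hl : s.length = k) (hp : s.Perm t) : ∃ c : K, D.E s * a * D.E t = c • D.g lv o s t := by
  have hl' : t.length = k := hp.length_eq ▸ hl
  have hb := bt_eq o hs ht hp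
  have lb : (bt lv o s).length = k := (bt_perm o hs).length_eq.trans hl
  obtain ⟨c, hc⟩ := (h.s2 hk (mul_mem (mul_mem (h.V_mem o hs hl.le) ha) (h.U_mem o ht hl'.le))
    lb lb).2 rfl
  have e : D.V lv o s * a * D.U lv o t = c • D.E (bt lv o s) := by
    rw [← hc, ← mul_assoc, ← mul_assoc, h.E_V, mul_assoc _ (D.U lv o t), hb, h.U_E]
  refine ⟨(D.Nm lv o s)⁻¹ * (D.Nm lv o t)⁻¹ * c, ?_⟩
  have e1 : D.E s = (D.Nm lv o s)⁻¹ • D.g lv o s s := by
    rw [h.U_V o hs, smul_smul, inv_mul_cancel₀ (h.Nm_ne o hs), one_smul]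
  have e2 : D.E t = (D.Nm lv o t)⁻¹ • D.g lv o t t := by
    rw [h.U_V o ht, smul_smul, inv_mul_cancel₀ (h.Nm_ne o ht), one_smul]
  rw [e1, e2, smul_mul_assoc, smul_mul_assoc, mul_smul_comm, smul_smul, mul_smul _ c]
  congr 1
  calc _ = D.U lv o s * (D.V lv o s * a * D.U lv o t) * D.V lv o t := by
        simp only [Dat.g, mul_assoc]
    _ = _ := by rw [e, mul_smul_comm, smul_mul_assoc, h.U_E, Dat.g]

/-- every element of `Hk k` is a combination of the `g s t` -/
theorem expand {k : ℕ} (hk : k ≤ n) {a : H} (ha : a ∈ Hk k) : ∃ c : List Box → List Box → K,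
    (∀ s ∈ tabs lv k, ∀ t ∈ tabs lv k, s.Perm t → D.E s * a * D.E t = c s t • D.g lv o s t) ∧
    a = ∑ s ∈ tabs lv k, ∑ t ∈ tabs lv k with s.Perm t, c s t • D.g lv o s t := by
  have key : ∀ s t : List Box, ∃ c : K, s ∈ tabs lv k → t ∈ tabs lv k → s.Perm t →
      D.E s * a * D.E t = c • D.g lv o s t := by
    intro s t
    by_cases e : s ∈ tabs lv k ∧ t ∈ tabs lv k ∧ s.Perm t
    · obtain ⟨c, hc⟩ := h.EaE o hk ha (mem_tabs.1 e.1).2 (mem_tabs.1 e.2.1).2 (mem_tabs.1 e.1).1 e.2.2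
      exact ⟨c, fun _ _ _ => hc⟩
    · exact ⟨0, fun h1 h2 h3 => (e ⟨h1, h2, h3⟩).elim⟩
  choose c hc using key
  refine ⟨c, fun s hs t ht => hc s t hs ht, ?_⟩
  conv_lhs => rw [← one_mul a, ← mul_one (1 * a), ← h.sum_tabs hk]
  rw [Finset.sum_mul, Finset.sum_mul]
  refine Finset.sum_congr rfl fun s hs => ?_
  rw [Finset.mul_sum, Finset.sum_filter]
  refine Finset.sum_congr rfl fun t ht => ?_
  split_ifs with e
  · exact hc s t hs ht e
  · exact (h.s2 hk ha (mem_tabs.1 hs).1 (mem_tabs.1 ht).1).1 e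

/-- the span of the `U u`, `u` of the shape of `s` with fewer than `m` inversions -/
def _root_.Pool.Agent.P.MP_1a0ecf_al.K.Sn.Dat.Lw (D : Dat K H) (lv o : Bool) (s : List Box) (m : ℕ) :
    Submodule K H :=
  Submodule.span K {a | ∃ u, Std lv u ∧ u.Perm s ∧ inv o u < m ∧ a = D.U lv o u}

omit h in
theorem Lw_mono (s : List Box) {m m' : ℕ} (hm : m ≤ m') : D.Lw lv o s m ≤ D.Lw lv o s m' :=
  Submodule.span_mono fun _ ⟨u, h1, h2, h3, h4⟩ => ⟨u, h1, h2, h3.trans_le hm, h4⟩

theorem T_Lw {k m : ℕ} (hk : k + 1 < s.length) (hn : s.length ≤ n) {a : H}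
    (ha : a ∈ D.Lw lv o s m) : D.T k * a ∈ D.Lw lv o s (m + 1) := by
  refine Submodule.span_induction (p := fun a _ => D.T k * a ∈ D.Lw lv o s (m + 1)) ?_
    (by simp) (fun a b _ _ i1 i2 => by rw [mul_add]; exact add_mem i1 i2)
    (fun c a _ i1 => by rw [mul_smul_comm]; exact Submodule.smul_mem _ c i1) ha
  rintro _ ⟨w, h1, h2, h3, rfl⟩
  have hw := h2.length_eq
  obtain ⟨u, r, rfl, hu⟩ : ∃ u r, w = u ++ r ∧ r.length = k + 2 :=
    ⟨w.take (w.length - (k + 2)), w.drop (w.length - (k + 2)), by simp, by simp; omega⟩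
  obtain _ | ⟨x, _ | ⟨z, l⟩⟩ := r
  · simp at hu
  · simp at hu
  obtain rfl : l.length = k := by simpa using hu
  rw [← h.E_U o h1, ← mul_assoc, h.T_E, add_mul, smul_mul_assoc, h.E_U o h1]
  refine add_mem ?_ (Submodule.smul_mem _ _ (Submodule.subset_span ⟨_, h1, h2, by omega, rfl⟩))
  by_cases h0 : D.E (u ++ z :: x :: l) = 0
  · rw [h0]; simp
  have h4 := h.std h0
  have hp : (u ++ z :: x :: l).Perm (u ++ x :: z :: l) := (List.Perm.swap x z l).append_left u
  have hb := bt_eq o h4 h1 hp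
  obtain ⟨c, hc⟩ := h.EaE o (k := s.length) hn
    (mul_mem (h.T_mem l.length _ hk) (h.U_mem o h1 hw.le)) h4 (bt_spec o h4).1
    (hp.length_eq.trans hw) (bt_perm o h4).symm
  rw [Dat.g, V_bt o h4, h.U_E, hb, mul_assoc, mul_assoc, h.U_E] at hc
  rw [mul_assoc, h.E_U o h1, mul_assoc, hc]
  have := inv_swap_le o u l z x
  exact Submodule.smul_mem _ _ (Submodule.subset_span ⟨_, h4, hp.trans h2, by omega, rfl⟩)

theorem Tp_path {b : List Box} {ps : List Step} (hb : Std lv b) (hl : Low o b) (hn : b.length ≤ n)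
    (hp : IsPath o b ps s) : D.Tp ps * D.E b - D.ups b ps ∈ D.Lw lv o b (inv o s) := by
  induction hp with
  | nil => simp [Dat.Tp, Dat.ups]
  | @cons ps p hp hf hnb ih =>
    have e := (IsPath.cons hp hf hnb).perm.length_eq
    have hlt := pos_lt p
    have i1 := h.T_Lw o (k := p.l.length) (by omega) hn ih
    have hs := hp.std hb
    have hbt : bt lv o p.src = b :=
      low_unique (bt_spec o hs).1 hb ((bt_perm o hs).trans hp.perm) (bt_spec o hs).2.1 hl
    obtain ⟨c, hc⟩ := h.EaE o hn (h.ups_mem hp le_rfl) hs hb hp.perm.length_eq hp.perm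
    have e2 : D.ups b ps = c • D.U lv o p.src := by
      rw [h.E_ups hp, h.ups_E] at hc
      rw [hc, Dat.g]
      congr 1
      conv_lhs => rw [← hbt, V_bt o hs, h.U_E]
    have e3 : D.T p.l.length * D.ups b ps = D.ups b (p :: ps) + D.al p.x p.z • D.ups b ps := by
      conv_lhs => rw [← h.E_ups hp, ← mul_assoc, Step.src, h.T_E, add_mul, smul_mul_assoc, mul_assoc,
        ← Step.src, h.E_ups hp]
      rfl
    have e4 : D.Tp (p :: ps) * D.E b - D.ups b (p :: ps) =
        D.T p.l.length * (D.Tp ps * D.E b - D.ups b ps) + D.al p.x p.z • D.ups b ps := by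
      rw [mul_sub, e3, Dat.Tp, mul_assoc]; abel
    rw [e4, inv_tgt hf]
    refine add_mem i1 (Submodule.smul_mem _ _ ?_)
    rw [e2]
    exact Submodule.smul_mem _ _ (Submodule.subset_span ⟨_, hs, hp.perm, by omega, rfl⟩)

/-- triangularity, left form -/
theorem Tp_E (hs : Std lv s) (hn : s.length ≤ n) :
    D.Tp (pth lv o s) * D.E (bt lv o s) - D.U lv o s ∈ D.Lw lv o (bt lv o s) (inv o s) :=
  h.Tp_path o (bt_spec o hs).1 (bt_spec o hs).2.1 (by rwa [(bt_perm o hs).length_eq])
    (bt_spec o hs).2.2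

/-- triangularity, two-sided form -/
theorem Tp_E_Tq {fl : H →ₗ[K] H} (F : Fl D fl) (hs : Std lv s) (ht : Std lv t) (hp : s.Perm t)
    (hn : s.length ≤ n) :
    D.Tp (pth lv o s) * D.E (bt lv o s) * D.Tq (pth lv o t) - D.g lv o s t ∈
      Submodule.span K {a | ∃ u v, Std lv u ∧ Std lv v ∧ u.Perm s ∧ v.Perm s ∧
        inv o u + inv o v < inv o s + inv o t ∧ a = D.g lv o u v} := by
  have hb := bt_eq o hs ht hp
  set S := Submodule.span K {a | ∃ u v, Std lv u ∧ Std lv v ∧ u.Perm s ∧ v.Perm s ∧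
        inv o u + inv o v < inv o s + inv o t ∧ a = D.g lv o u v}
  have key : ∀ {i j : ℕ}, i + j ≤ inv o s + inv o t + 1 → ∀ a ∈ D.Lw lv o (bt lv o s) i,
      ∀ b ∈ D.Lw lv o (bt lv o s) j, a * fl b ∈ S := by
    intro i j hij a ha b hb
    refine Submodule.span_induction (p := fun a _ => a * fl b ∈ S) ?_ (by simp)
      (fun a a' _ _ i1 i2 => by rw [add_mul]; exact add_mem i1 i2)
      (fun c a _ i1 => by rw [smul_mul_assoc]; exact S.smul_mem c i1) ha
    rintro _ ⟨u, h1, h2, h3, rfl⟩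
    refine Submodule.span_induction (p := fun b _ => D.U lv o u * fl b ∈ S) ?_ (by simp)
      (fun a a' _ _ i1 i2 => by rw [map_add, mul_add]; exact add_mem i1 i2)
      (fun c a _ i1 => by rw [map_smul, mul_smul_comm]; exact S.smul_mem c i1) hb
    rintro _ ⟨v, h4, h5, h6, rfl⟩
    exact Submodule.subset_span ⟨u, v, h1, h4, h2.trans (bt_perm o hs), h5.trans (bt_perm o hs),
      by omega, by rw [Dat.U, Dat.U, h.fl_ups F]; rfl⟩
  have a1 := h.Tp_E o hs hn
  have a2 := h.Tp_E o ht (hp.length_eq ▸ hn)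
  rw [← hb] at a2
  have a3 : D.U lv o s ∈ D.Lw lv o (bt lv o s) (inv o s + 1) :=
    Submodule.subset_span ⟨s, hs, (bt_perm o hs).symm, by omega, rfl⟩
  have a4 : D.U lv o t ∈ D.Lw lv o (bt lv o s) (inv o t + 1) :=
    Submodule.subset_span ⟨t, ht, hp.symm.trans (bt_perm o hs).symm, by omega, rfl⟩
  have a5 : D.Tp (pth lv o t) * D.E (bt lv o s) ∈ D.Lw lv o (bt lv o s) (inv o t + 1) := by
    simpa using add_mem (Lw_mono o _ (Nat.le_succ _) a2) a4
  have b1 := key (by omega) _ a1 _ a5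
  have b2 := key (by omega) _ a3 _ a2
  have fU : fl (D.U lv o t) = D.V lv o t := h.fl_ups F _ _
  have := add_mem b1 b2
  rw [map_sub, F.mul, h.fl_E F, fl_Tp F, fU] at this
  convert this using 1
  rw [Dat.g, sub_mul, mul_sub, mul_assoc _ (D.E _) (D.E _ * _), ← mul_assoc (D.E _), h.E_idem,
    mul_assoc]
  abel

end Units

end Ok

end

end Pool.Agent.P.MP_1a0ecf_al.K.Sn
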