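import Mathlib

/-! Seminormal systems, part 1: boxes, beads, standard lists, orders and paths. -/

namespace Pool.Agent.P.MP_1a0ecf_al.K.Sn

open scoped Classical

noncomputable section

/-- a box: component (`true` is `+`) and content -/
abbrev Box : Type := Bool × ℤ

/-- content plus one -/
def up (x : Box) : Box := (x.1, x.2 + 1)

/-- content minus one -/
def dn (x : Box) : Box := (x.1, x.2 - 1)

/-- neighbours -/
def Nb (x y : Box) : Prop := y = up x ∨ y = dn x

/-- beads of a multiset of boxes; `lv = true` is level two, `lv = false` has only `+` -/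
def bead (lv : Bool) (m : Multiset Box) (x : Box) : ℤ :=
  (if x.2 ≤ 0 ∧ (lv = true ∨ x.1 = true) then 1 else 0) - m.count x + m.count (dn x)

/-- `1` for addable, `-1` for removable boxes, else `0` -/
def aa (lv : Bool) (m : Multiset Box) (x : Box) : ℤ := bead lv m x - bead lv m (up x)

/-- standard lists, the newest box first -/
inductive Std (lv : Bool) : List Box → Prop
  | nil : Std lv []
  | cons {l : List Box} {x : Box} : Std lv l → aa lv l x = 1 → Std lv (x :: l)

/-- the boxes of content at most `n` in absolute value -/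
def bx (n : ℕ) : Finset Box := Finset.univ ×ˢ Finset.Icc (-(n : ℤ)) n

/-- all lists of length `k` with entries in `B` -/
def lists (B : Finset Box) : ℕ → Finset (List Box)
  | 0 => {[]}
  | k + 1 => (B ×ˢ lists B k).image fun p => p.1 :: p.2

/-- the standard lists of length `k` -/
def tabs (lv : Bool) (k : ℕ) : Finset (List Box) := (lists (bx k) k).filter (Std lv)

/-- `x` comes before `z` in the order that starts with the component `o` -/
def Fst (o : Bool) (x z : Box) : Prop := (x.1 = o ∧ z.1 ≠ o) ∨ (x.1 = z.1 ∧ z.2 < x.2)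

/-- the number of inversions -/
def inv (o : Bool) : List Box → ℕ
  | [] => 0
  | x :: l => inv o l + l.countP fun z => Fst o x z

/-- no admissible swap lowers the number of inversions -/
def Low (o : Bool) (l : List Box) : Prop := l.IsChain fun x z => Fst o x z → Nb x z

/-- a swap of two consecutive entries -/
structure Step where
  u : List Box
  x : Box
  z : Box
  l : List Box

/-- before the swap `x` is older than `z` -/
def Step.src (p : Step) : List Box := p.u ++ p.z :: p.x :: p.l

/-- after the swap `x` is newer than `z` -/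
def Step.tgt (p : Step) : List Box := p.u ++ p.x :: p.z :: p.l

/-- paths of increasing admissible swaps, the last step first -/
inductive IsPath (o : Bool) (b : List Box) : List Step → List Box → Prop
  | nil : IsPath o b [] b
  | cons {ps : List Step} {p : Step} : IsPath o b ps p.src → Fst o p.x p.z → ¬ Nb p.x p.z →
      IsPath o b (p :: ps) p.tgt

theorem up_dn (x : Box) : up (dn x) = x := by simp [up, dn]

theorem dn_up (x : Box) : dn (up x) = x := by simp [up, dn]

theorem up_ne (x : Box) : up x ≠ x := fun h => by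
  have := congrArg Prod.snd h
  simp [up] at this

theorem dn_ne (x : Box) : dn x ≠ x := fun h => by
  have := congrArg Prod.snd h
  simp [dn] at this

theorem up_ne_dn (x : Box) : up x ≠ dn x := fun h => by
  have := congrArg Prod.snd h
  simp [up, dn] at this
  omega

theorem eq_up_iff {x y : Box} : y = up x ↔ x = dn y :=
  ⟨fun h => by rw [h, dn_up], fun h => by rw [h, up_dn]⟩

theorem Nb.symm {x y : Box} (h : Nb x y) : Nb y x := by
  rcases h with h | h
  · exact Or.inr (eq_up_iff.1 h)
  · exact Or.inl (eq_up_iff.2 h)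

theorem nb_iff {x y : Box} : Nb x y ↔ x.1 = y.1 ∧ (y.2 = x.2 + 1 ∨ y.2 = x.2 - 1) := by
  obtain ⟨a, b⟩ := x
  obtain ⟨c, d⟩ := y
  simp only [Nb, up, dn, Prod.mk.injEq]
  tauto

theorem Nb.ne {x y : Box} (h : Nb x y) : x ≠ y := by
  rintro rfl
  rw [nb_iff] at h
  omega

theorem bead_cons (lv : Bool) (y : Box) (m : Multiset Box) (x : Box) :
    bead lv (y ::ₘ m) x = bead lv m x - (if x = y then 1 else 0) + if x = up y then 1 else 0 := by
  unfold bead
  rw [Multiset.count_cons, Multiset.count_cons]
  have e : dn x = y ↔ x = up y := by rw [eq_up_iff, eq_comm]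
  simp only [e]
  push_cast
  ring

theorem aa_cons (lv : Bool) (y : Box) (m : Multiset Box) (x : Box) :
    aa lv (y ::ₘ m) x = aa lv m x - (if x = y then 2 else 0) + (if x = up y then 1 else 0) +
      if x = dn y then 1 else 0 := by
  unfold aa
  rw [bead_cons, bead_cons]
  have e1 : up x = y ↔ x = dn y := by rw [eq_comm, eq_up_iff]
  have e2 : up x = up y ↔ x = y := ⟨fun h => by rw [← dn_up x, h, dn_up], fun h => by rw [h]⟩
  simp only [e1, e2]
  split_ifs <;> ring

theorem aa_lcons (lv : Bool) (y : Box) (l : List Box) (x : Box) :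
    aa lv (y :: l : List Box) x = aa lv l x - (if x = y then 2 else 0) +
      (if x = up y then 1 else 0) + if x = dn y then 1 else 0 := aa_cons lv y l x

theorem aa_cons_far {lv : Bool} {y x : Box} (m : Multiset Box) (h : x ≠ y) (h' : ¬ Nb y x) :
    aa lv (y ::ₘ m) x = aa lv m x := by
  rw [aa_cons, if_neg h, if_neg fun e => h' (Or.inl e), if_neg fun e => h' (Or.inr e)]
  ring

theorem aa_cons_nb {lv : Bool} {y x : Box} (m : Multiset Box) (h : Nb y x) :
    aa lv (y ::ₘ m) x = aa lv m x + 1 := by
  rw [aa_cons, if_neg h.ne.symm]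
  rcases h with rfl | rfl
  · rw [if_pos rfl, if_neg (up_ne_dn y)]; ring
  · rw [if_neg (up_ne_dn y).symm, if_pos rfl]; ring

theorem aa_cons_self (lv : Bool) (y : Box) (m : Multiset Box) :
    aa lv (y ::ₘ m) y = aa lv m y - 2 := by
  rw [aa_cons, if_pos rfl, if_neg (up_ne y).symm, if_neg (dn_ne y).symm]
  ring

theorem aa_zero (lv : Bool) (x : Box) :
    aa lv 0 x = if x.2 = 0 ∧ (lv = true ∨ x.1 = true) then 1 else 0 := by
  simp only [aa, bead, up, Multiset.count_zero]
  by_cases h : lv = true ∨ x.1 = true
  · simp only [h, and_true]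
    split_ifs <;> omega
  · simp [h]

theorem aa_perm {lv : Bool} {s t : List Box} (h : s.Perm t) (x : Box) : aa lv s x = aa lv t x := by
  rw [Multiset.coe_eq_coe.2 h]

theorem std_cons {lv : Bool} {x : Box} {l : List Box} :
    Std lv (x :: l) ↔ Std lv l ∧ aa lv l x = 1 :=
  ⟨fun h => by cases h; exact ⟨‹_›, ‹_›⟩, fun h => Std.cons h.1 h.2⟩

theorem Std.bead01 {lv : Bool} {l : List Box} (h : Std lv l) (x : Box) :
    bead lv l x = 0 ∨ bead lv l x = 1 := by
  induction h generalizing x with
  | nil =>
    simp only [bead, Multiset.coe_nil, Multiset.count_zero]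
    split_ifs <;> simp
  | @cons l y _ hy ih =>
    rw [← Multiset.cons_coe, bead_cons]
    have h1 := ih x
    have h2 := ih y
    have h3 := ih (up y)
    unfold aa at hy
    by_cases e : x = y
    · subst e
      rw [if_pos rfl, if_neg (up_ne x).symm]; omega
    · by_cases e' : x = up y
      · subst e'
        rw [if_neg e, if_pos rfl]; omega
      · rw [if_neg e, if_neg e']; omega

theorem Std.aa_cases {lv : Bool} {l : List Box} (h : Std lv l) (x : Box) :
    aa lv l x = 1 ∨ aa lv l x = 0 ∨ aa lv l x = -1 := by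
  have h1 := h.bead01 x
  have h2 := h.bead01 (up x)
  unfold aa
  omega

/-- a neighbour of an addable box is not addable -/
theorem Std.aa_nb {lv : Bool} {l : List Box} (h : Std lv l) {x z : Box} (hz : aa lv l z = 1)
    (hn : Nb z x) : aa lv l x = 0 ∨ aa lv l x = -1 := by
  have h1 := h.bead01 x
  have h2 := h.bead01 (up x)
  have h3 := h.bead01 z
  have h4 := h.bead01 (up z)
  unfold aa at hz ⊢
  rcases hn with rfl | rfl
  · omega
  · rw [up_dn] at h2 ⊢; omega

theorem Std.suffix {lv : Bool} {u l : List Box} (h : Std lv (u ++ l)) : Std lv l := by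
  induction u with
  | nil => exact h
  | cons x u ih => exact ih (std_cons.1 h).1

theorem Std.ne {lv : Bool} {x z : Box} {l : List Box} (h : Std lv (x :: z :: l)) : x ≠ z := by
  rintro rfl
  obtain ⟨h1, h2⟩ := std_cons.1 h
  obtain ⟨_, h4⟩ := std_cons.1 h1
  rw [← Multiset.cons_coe, aa_cons_self] at h2
  omega

theorem Std.congr {lv : Bool} {u l l' : List Box} (h : Std lv (u ++ l)) (h' : Std lv l')
    (hp : l.Perm l') : Std lv (u ++ l') := by
  induction u with
  | nil => exact h'
  | cons x u ih =>
    obtain ⟨h1, h2⟩ := (std_cons (l := u ++ l)).1 h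
    exact Std.cons (l := u ++ l') (ih h1) (by rw [← aa_perm (hp.append_left u)]; exact h2)

theorem Std.swap {lv : Bool} {u l : List Box} {x z : Box} (h : Std lv (u ++ x :: z :: l))
    (hn : ¬ Nb x z) : Std lv (u ++ z :: x :: l) := by
  have h0 := h.suffix
  have hne := h0.ne
  obtain ⟨h1, h2⟩ := std_cons.1 h0
  obtain ⟨h3, h4⟩ := std_cons.1 h1
  refine h.congr (Std.cons (Std.cons h3 ?_) ?_) (List.Perm.swap z x l)
  · rwa [← Multiset.cons_coe, aa_cons_far _ hne fun e => hn e.symm] at h2
  · rwa [← Multiset.cons_coe, aa_cons_far _ hne.symm hn]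

theorem aa_nonneg_of_not_mem {lv : Bool} {l : List Box} {x : Box} (hx : x ∉ l) : 0 ≤ aa lv l x := by
  induction l with
  | nil => rw [Multiset.coe_nil, aa_zero]; split_ifs <;> simp
  | cons y l ih =>
    rw [List.mem_cons, not_or] at hx
    have := ih hx.2
    rw [aa_lcons, if_neg hx.1]
    split_ifs <;> omega

/-- the entries after the last copy of a removable box are far from it -/
theorem Std.split_rem {lv : Bool} {l : List Box} (h : Std lv l) {x : Box} (hx : aa lv l x = -1) :
    ∃ u v, l = u ++ x :: v ∧ ∀ y ∈ u, y ≠ x ∧ ¬ Nb x y := by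
  induction h with
  | nil => rw [Multiset.coe_nil, aa_zero] at hx; split_ifs at hx
  | @cons l y hl hy ih =>
    by_cases e : y = x
    · exact ⟨[], l, by rw [e]; rfl, by simp⟩
    · have hn : ¬ Nb y x := fun hn => by
        rw [← Multiset.cons_coe, aa_cons_nb _ hn] at hx
        have := hl.aa_cases x
        omega
      rw [← Multiset.cons_coe, aa_cons_far _ (Ne.symm e) hn] at hx
      obtain ⟨u, v, rfl, huv⟩ := ih hx
      refine ⟨y :: u, v, rfl, fun w hw => ?_⟩
      rcases List.mem_cons.1 hw with rfl | hw
      · exact ⟨e, fun h => hn h.symm⟩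
      · exact huv w hw

/-- a removable box can be moved to the front -/
theorem Std.move {lv : Bool} {x : Box} {u v : List Box} (h : Std lv (u ++ x :: v))
    (hu : ∀ y ∈ u, ¬ Nb x y) : Std lv (x :: (u ++ v)) := by
  induction u with
  | nil => exact h
  | cons y u ih =>
    obtain ⟨h1, h2⟩ := std_cons.1 h
    have h3 := ih h1 fun w hw => hu w (List.mem_cons_of_mem _ hw)
    have h4 : Std lv (y :: x :: (u ++ v)) :=
      Std.cons h3 (by rw [← h2]; exact aa_perm List.perm_middle.symm y)
    exact Std.swap (u := []) h4 fun hn => hu y List.mem_cons_self hn.symm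

theorem Std.exists_rem {lv : Bool} {l : List Box} (h : Std lv l) {x : Box} (hx : aa lv l x = -1) :
    ∃ l', Std lv (x :: l') ∧ (x :: l').Perm l := by
  obtain ⟨u, v, rfl, huv⟩ := h.split_rem hx
  exact ⟨u ++ v, h.move fun y hy => (huv y hy).2, List.perm_middle.symm⟩

theorem Std.abs_lt {lv : Bool} {l : List Box} (h : Std lv l) :
    (∀ x ∈ l, |x.2| < l.length) ∧ ∀ x, aa lv l x ≠ 0 → |x.2| ≤ l.length := by
  induction h with
  | nil =>
    refine ⟨by simp, fun x hx => ?_⟩
    rw [Multiset.coe_nil, aa_zero] at hx
    split_ifs at hx with h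
    · simp [h.1]
    · exact (hx rfl).elim
  | @cons l y hl hy ih =>
    have h1 := ih.2 y (by omega)
    rw [List.length_cons]
    push_cast
    refine ⟨fun x hx => ?_, fun x hx => ?_⟩
    · rcases List.mem_cons.1 hx with rfl | hx
      · omega
      · have := ih.1 x hx; omega
    · by_cases e : x = y
      · subst e; omega
      · by_cases hn : Nb y x
        · rw [nb_iff] at hn
          rw [abs_le] at h1 ⊢
          omega
        · rw [← Multiset.cons_coe, aa_cons_far _ e hn] at hx
          have := ih.2 x hx; omega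

theorem mem_bx {n : ℕ} {x : Box} : x ∈ bx n ↔ |x.2| ≤ n := by
  simp [bx, abs_le]

theorem mem_lists {B : Finset Box} {k : ℕ} {l : List Box} :
    l ∈ lists B k ↔ l.length = k ∧ ∀ x ∈ l, x ∈ B := by
  induction k generalizing l with
  | zero =>
    simp only [lists, Finset.mem_singleton, List.length_eq_zero_iff]
    exact ⟨fun h => ⟨h, by simp [h]⟩, fun h => h.1⟩
  | succ k ih =>
    simp only [lists, Finset.mem_image, Finset.mem_product, ih]
    constructor
    · rintro ⟨⟨x, l⟩, ⟨h1, h2, h3⟩, rfl⟩
      refine ⟨by simpa using h2, fun y hy => ?_⟩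
      rcases List.mem_cons.1 hy with rfl | hy
      exacts [h1, h3 y hy]
    · rintro ⟨h1, h2⟩
      obtain _ | ⟨x, l⟩ := l
      · simp at h1
      · exact ⟨(x, l), ⟨h2 x (by simp), by simpa using h1, fun y hy => h2 y (by simp [hy])⟩, rfl⟩

theorem sum_lists_succ {M : Type*} [AddCommMonoid M] (B : Finset Box) (k : ℕ) (f : List Box → M) :
    ∑ l ∈ lists B (k + 1), f l = ∑ l ∈ lists B k, ∑ x ∈ B, f (x :: l) := by
  rw [lists, Finset.sum_image, Finset.sum_product_right]
  rintro ⟨x, l⟩ _ ⟨y, l'⟩ _ h
  simpa using h

theorem mem_tabs {lv : Bool} {k : ℕ} {l : List Box} : l ∈ tabs lv k ↔ l.length = k ∧ Std lv l := by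
  rw [tabs, Finset.mem_filter, mem_lists]
  refine ⟨fun h => ⟨h.1.1, h.2⟩, fun h => ⟨⟨h.1, fun x hx => mem_bx.2 ?_⟩, h.2⟩⟩
  have := h.2.abs_lt.1 x hx
  rw [h.1] at this
  exact this.le

theorem sum_aa {lv : Bool} {l : List Box} (h : Std lv l) {n : ℕ} (hn : l.length ≤ n) :
    ∑ x ∈ bx n, aa lv l x = if lv = true then 2 else 1 := by
  induction h with
  | nil =>
    simp only [Multiset.coe_nil, aa_zero, bx, Finset.sum_product, Fintype.sum_bool]
    cases lv <;> simp [Finset.sum_ite_eq']
  | @cons l y hl hy ih =>
    rw [List.length_cons] at hn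
    have h1 := hl.abs_lt.2 y (by omega)
    have m0 : y ∈ bx n := mem_bx.2 (by omega)
    have m1 : up y ∈ bx n := mem_bx.2 (by rw [abs_le] at h1 ⊢; simp only [up]; omega)
    have m2 : dn y ∈ bx n := mem_bx.2 (by rw [abs_le] at h1 ⊢; simp only [dn]; omega)
    simp only [aa_lcons, Finset.sum_add_distrib, Finset.sum_sub_distrib, ih (by omega),
      Finset.sum_ite_eq', m0, m1, m2, if_true]
    ring

theorem fst_or {o : Bool} {x z : Box} (h : x ≠ z) : Fst o x z ∨ Fst o z x := by
  obtain ⟨a, b⟩ := x
  obtain ⟨c, d⟩ := z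
  simp only [Fst, ne_eq, Prod.mk.injEq, not_and] at h ⊢
  cases a <;> cases c <;> cases o <;> simp at h ⊢ <;> omega

theorem Fst.asymm {o : Bool} {x z : Box} (h : Fst o x z) : ¬ Fst o z x := by
  obtain ⟨a, b⟩ := x
  obtain ⟨c, d⟩ := z
  simp only [Fst, ne_eq] at h ⊢
  cases a <;> cases c <;> cases o <;> simp at h ⊢ <;> omega

theorem Fst.ne {o : Bool} {x z : Box} (h : Fst o x z) : x ≠ z := by
  rintro rfl
  exact h.asymm h

theorem inv_swap (o : Bool) (u l : List Box) (x z : Box) :
    inv o (u ++ x :: z :: l) + (if Fst o z x then 1 else 0) =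
      inv o (u ++ z :: x :: l) + if Fst o x z then 1 else 0 := by
  induction u with
  | nil =>
    simp only [List.nil_append, inv, List.countP_cons, decide_eq_true_eq]
    omega
  | cons y u ih =>
    have : (u ++ x :: z :: l).countP (fun w => Fst o y w) =
        (u ++ z :: x :: l).countP fun w => Fst o y w :=
      ((List.Perm.swap z x l).append_left u).countP_eq _
    simp only [List.cons_append, inv]
    omega

theorem inv_tgt {o : Bool} {p : Step} (h : Fst o p.x p.z) : inv o p.tgt = inv o p.src + 1 := by
  have := inv_swap o p.u p.l p.x p.z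
  rwa [if_pos h, if_neg h.asymm] at this

theorem inv_swap_le (o : Bool) (u l : List Box) (x z : Box) :
    inv o (u ++ x :: z :: l) ≤ inv o (u ++ z :: x :: l) + 1 := by
  have := inv_swap o u l x z
  split_ifs at this <;> omega

theorem Step.perm (p : Step) : p.tgt.Perm p.src := (List.Perm.swap p.z p.x p.l).append_left p.u

theorem IsPath.perm {o : Bool} {b s : List Box} {ps : List Step} (h : IsPath o b ps s) :
    s.Perm b := by
  induction h with
  | nil => exact List.Perm.refl _
  | cons _ _ _ ih => exact (Step.perm _).trans ih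

theorem IsPath.std {lv o : Bool} {b s : List Box} {ps : List Step} (h : IsPath o b ps s)
    (hb : Std lv b) : Std lv s := by
  induction h with
  | nil => exact hb
  | cons _ _ hn ih => exact Std.swap ih fun e => hn e.symm

theorem IsPath.inv_eq {o : Bool} {b s : List Box} {ps : List Step} (h : IsPath o b ps s) :
    inv o s = inv o b + ps.length := by
  induction h with
  | nil => rfl
  | cons _ hf _ ih => rw [inv_tgt hf, ih, List.length_cons, add_assoc]

theorem exists_path {lv : Bool} (o : Bool) {s : List Box} (h : Std lv s) :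
    ∃ b ps, Std lv b ∧ Low o b ∧ IsPath o b ps s := by
  induction hn : inv o s using Nat.strong_induction_on generalizing s with
  | _ n ih =>
    by_cases hl : Low o s
    · exact ⟨s, [], h, hl, IsPath.nil⟩
    · rw [Low, List.isChain_iff_forall_rel_of_append_cons_cons] at hl
      push Not at hl
      obtain ⟨x, z, u, l, rfl, hf, hnb⟩ := hl
      have e := inv_tgt (p := ⟨u, x, z, l⟩) hf
      obtain ⟨b, ps, h1, h2, h3⟩ := ih _ (by rw [← hn]; exact lt_of_lt_of_eq (Nat.lt_succ_self _) e.symm)
        (h.swap hnb) rfl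
      exact ⟨b, ⟨u, x, z, l⟩ :: ps, h1, h2, IsPath.cons (p := ⟨u, x, z, l⟩) h3 hf hnb⟩

/-- KEY: if `x` is addable to `l` and the low list `u ++ y :: l` continues `l` by a box `y` that
comes after `x`, then neither `x` nor its lower neighbour is ever added -/
theorem never {lv o : Bool} {u l : List Box} {x y : Box} (hs : Std lv (u ++ y :: l))
    (hl : Low o (u ++ y :: l)) (hx : aa lv l x = 1) (hf : Fst o x y) :
    ∀ w ∈ u ++ [y], Fst o x w ∧ w ≠ dn x := by
  induction u with
  | nil =>
    intro w hw
    obtain rfl : w = y := by simpa using hw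
    refine ⟨hf, fun e => ?_⟩
    obtain ⟨h1, h2⟩ := std_cons.1 hs
    have := h1.aa_nb hx (Or.inr e)
    omega
  | cons v u ih =>
    obtain ⟨h1, h2⟩ := (std_cons (l := u ++ y :: l)).1 hs
    have ih' := ih h1 (List.IsChain.tail hl)
    have hb : bead lv (u ++ y :: l : List Box) x = bead lv l x := by
      have key : ∀ u' : List Box, (∀ w ∈ u', Fst o x w ∧ w ≠ dn x) →
          bead lv (u' ++ l : List Box) x = bead lv l x := by
        intro u' hu'
        induction u' with
        | nil => rfl
        | cons w u' ih2 =>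
          have hw := hu' w List.mem_cons_self
          rw [List.cons_append, ← Multiset.cons_coe, bead_cons, if_neg hw.1.ne,
            if_neg fun e => hw.2 (eq_up_iff.1 e), ih2 fun w' h' => hu' w' (List.mem_cons_of_mem _ h')]
          ring
      have := key (u ++ [y]) ih'
      rwa [List.append_assoc] at this
    have hv : v ≠ dn x := by
      rintro rfl
      have b1 := h1.bead01 (dn x)
      have b2 := (h1.suffix.suffix (u := [y])).bead01 (up x)
      have b3 := (h1.suffix.suffix (u := [y])).bead01 x
      unfold aa at h2 hx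
      rw [up_dn, hb] at h2
      omega
    obtain ⟨w, r, hw⟩ : ∃ w r, u ++ [y] = w :: r := by
      cases u with
      | nil => exact ⟨y, [], rfl⟩
      | cons a u => exact ⟨a, u ++ [y], rfl⟩
    have hw' := ih' w (by rw [hw]; exact List.mem_cons_self)
    have hch : Fst o v w → Nb v w := by
      have e : v :: u ++ y :: l = v :: w :: (r ++ l) := by
        have : u ++ y :: l = (w :: r) ++ l := by rw [← hw]; simp
        simp [this]
      rw [Low, e] at hl
      exact (List.isChain_cons_cons.1 hl).1
    intro w' hw2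
    rcases List.mem_cons.1 hw2 with rfl | hw2
    · refine ⟨?_, hv⟩
      obtain ⟨a, b⟩ := x
      obtain ⟨c, d⟩ := w'
      obtain ⟨e, f⟩ := w
      simp only [Fst, nb_iff, dn, ne_eq, Prod.mk.injEq, not_and] at hw' hch hv ⊢
      cases a <;> cases c <;> cases e <;> cases o <;> simp at hw' hch hv ⊢ <;> omega
    · exact ih' w' hw2

theorem never_count {lv o : Bool} {u l : List Box} {x y : Box} (hs : Std lv (u ++ y :: l))
    (hl : Low o (u ++ y :: l)) (hx : aa lv l x = 1) (hf : Fst o x y) :
    (u ++ y :: l).count x = l.count x := by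
  have h := never hs hl hx hf
  have e : u ++ y :: l = (u ++ [y]) ++ l := by simp
  rw [e, List.count_append, List.count_eq_zero.2 fun hm => (h x hm).1.ne rfl, zero_add]

/-- two different lists of the same length have a first difference -/
theorem first_diff {s t : List Box} (hl : s.length = t.length) (hne : s ≠ t) :
    ∃ u x v y l, s = u ++ x :: l ∧ t = v ++ y :: l ∧ x ≠ y := by
  induction s generalizing t with
  | nil => exact (hne (List.length_eq_zero_iff.1 hl.symm).symm).elim
  | cons x s ih =>
    obtain _ | ⟨y, t⟩ := t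
    · simp at hl
    · by_cases e : s = t
      · subst e
        exact ⟨[], x, [], y, s, rfl, rfl, fun e => hne (by rw [e])⟩
      · obtain ⟨u, a, v, b, l, rfl, rfl, h⟩ := ih (by simpa using hl) e
        exact ⟨x :: u, a, y :: v, b, l, rfl, rfl, h⟩

theorem low_unique {lv o : Bool} {s t : List Box} (hs : Std lv s) (ht : Std lv t) (hp : s.Perm t)
    (ls : Low o s) (lt : Low o t) : s = t := by
  by_contra hne
  obtain ⟨u, x, v, y, l, rfl, rfl, h⟩ := first_diff hp.length_eq hne
  rcases fst_or (o := o) h with hf | hf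
  · have h1 := never_count ht lt (std_cons.1 hs.suffix).2 hf
    have h2 := hp.count_eq x
    rw [h1, List.count_append, List.count_cons_self] at h2
    omega
  · have h1 := never_count hs ls (std_cons.1 ht.suffix).2 hf
    have h2 := hp.count_eq y
    rw [h1, List.count_append, List.count_cons_self] at h2
    omega

/-- the low list and the chosen path that leads from it to `s` -/
def btp (lv o : Bool) (s : List Box) : List Box × List Step :=
  if h : ∃ p : List Box × List Step, Std lv p.1 ∧ Low o p.1 ∧ IsPath o p.1 p.2 s then h.choose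
  else (s, [])

/-- the row tableau of the shape of `s` -/
def bt (lv o : Bool) (s : List Box) : List Box := (btp lv o s).1

/-- the chosen path from `bt lv o s` to `s` -/
def pth (lv o : Bool) (s : List Box) : List Step := (btp lv o s).2

theorem bt_spec {lv : Bool} (o : Bool) {s : List Box} (h : Std lv s) :
    Std lv (bt lv o s) ∧ Low o (bt lv o s) ∧ IsPath o (bt lv o s) (pth lv o s) s := by
  have hex : ∃ p : List Box × List Step, Std lv p.1 ∧ Low o p.1 ∧ IsPath o p.1 p.2 s := by
    obtain ⟨b, ps, h⟩ := exists_path o h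
    exact ⟨(b, ps), h⟩
  unfold bt pth btp
  rw [dif_pos hex]
  exact hex.choose_spec

theorem bt_perm {lv : Bool} (o : Bool) {s : List Box} (h : Std lv s) : (bt lv o s).Perm s :=
  (bt_spec o h).2.2.perm.symm

theorem bt_eq {lv : Bool} (o : Bool) {s t : List Box} (hs : Std lv s) (ht : Std lv t)
    (hp : s.Perm t) : bt lv o s = bt lv o t :=
  low_unique (bt_spec o hs).1 (bt_spec o ht).1
    ((bt_perm o hs).trans (hp.trans (bt_perm o ht).symm)) (bt_spec o hs).2.1 (bt_spec o ht).2.1

theorem bt_bt {lv : Bool} (o : Bool) {s : List Box} (h : Std lv s) :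
    bt lv o (bt lv o s) = bt lv o s := bt_eq o (bt_spec o h).1 h (bt_perm o h)

theorem pth_bt {lv : Bool} (o : Bool) {s : List Box} (h : Std lv s) :
    pth lv o (bt lv o s) = [] := by
  have := (bt_spec o (bt_spec o h).1).2.2.inv_eq
  rw [bt_bt o h] at this
  exact List.length_eq_zero_iff.1 (by omega)

end

end Pool.Agent.P.MP_1a0ecf_al.K.Sn
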