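import Pool.Agent.P.MP_1a0ecf_al.K.Tw

/-! Package T3, first half: rows, low lists. -/

namespace Pool.Agent.P.MP_1a0ecf_al.K

open Sn
open scoped Classical

set_option linter.unusedSectionVars false

noncomputable section

variable {lv o : Bool} {l : List Box} {x z : Box}

theorem cnt0_t3 {y : Box} (h : y ∉ l) : Multiset.count y (l : Multiset Box) = 0 :=
  Multiset.count_eq_zero.2 fun k => h (Multiset.mem_coe.1 k)

theorem cnt1_t3 {y : Box} (h : y ∈ l) : 0 < Multiset.count y (l : Multiset Box) :=
  Multiset.count_pos.2 (Multiset.mem_coe.2 h)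

private theorem aa_empty {i : Bool} (h : ∀ y ∈ l, y.1 ≠ i) (hx : x.1 = i) :
    aa lv l x = aa lv 0 x := by
  have k : ∀ y : Box, y.1 = i → bead lv l y = bead lv 0 y := fun y hy => by
    unfold bead
    rw [cnt0_t3 fun m => h y m hy, cnt0_t3 fun m => h (dn y) m hy, Multiset.count_zero,
      Multiset.count_zero]
  unfold aa
  rw [k x hx, k (up x) hx]

private theorem ok_aux (h : ∀ y ∈ l, ok lv y) (hx : aa lv l x ≠ 0) : ok lv x := by
  by_contra c
  refine hx ?_
  rw [aa_empty (i := x.1) (fun y hy e => c (by have := h y hy; unfold ok at this ⊢; rwa [← e])) rfl,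
    aa_zero, if_neg fun e => c e.2]

private theorem ok_mem (h : Std lv l) : ∀ y ∈ l, ok lv y := by
  induction h with
  | nil => simp
  | cons _ hx ih =>
    intro y hy
    rcases List.mem_cons.1 hy with rfl | hy
    · exact ok_aux ih (by rw [hx]; exact one_ne_zero)
    · exact ih y hy

theorem ok_of_aa (h : Std lv l) (hx : aa lv l x ≠ 0) : ok lv x := ok_aux (ok_mem h) hx

theorem ok_of_mem (h : Std lv l) (hx : x ∈ l) : ok lv x := ok_mem h x hx

/-- a nonempty component contains its base box -/
theorem base_mem (h : Std lv l) (hx : x ∈ l) : (x.1, 0) ∈ l := by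
  induction h generalizing x with
  | nil => simp at hx
  | @cons l y _ hy ih =>
    rcases List.mem_cons.1 hx with rfl | hx
    · by_cases e : ∃ w ∈ l, w.1 = x.1
      · obtain ⟨w, hw, e⟩ := e
        exact List.mem_cons_of_mem _ (e ▸ ih hw)
      · rw [aa_empty (i := x.1) (fun w hw e' => e ⟨w, hw, e'⟩) rfl, aa_zero] at hy
        have h0 : x.2 = 0 := by
          by_contra c
          rw [if_neg fun k => c k.1] at hy
          exact zero_ne_one hy
        exact List.mem_cons.2 (Or.inl (Prod.ext rfl h0.symm))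
    · exact List.mem_cons_of_mem _ (ih hx)

theorem aa_of_empty {i : Bool} (h : ∀ y ∈ l, y.1 ≠ i) (hx : x.1 = i) : aa lv l x = aa lv 0 x :=
  aa_empty h hx

private theorem up_mem (h : Std lv l) (hx : x ∈ l) (h0 : x.2 < 0) : up x ∈ l := by
  by_contra c
  have h1 := h.bead01 (up x)
  have h2 := cnt1_t3 hx
  unfold bead at h1
  rw [dn_up, cnt0_t3 c, if_pos ⟨by simp only [up]; omega, (ok_of_mem h hx : ok lv x)⟩] at h1
  omega

private theorem above_mem (h : Std lv l) (hx : x ∈ l) {c : ℤ} (h1 : x.2 ≤ c) (h2 : c ≤ 0) :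
    (x.1, c) ∈ l := by
  induction c, h1 using Int.leInduction with
  | base => exact hx
  | succ c _ ih => exact up_mem h (ih (by omega)) (by simp only; omega)

/-- Invariant: the boxes `(i, c)`, `c ≤ 0`, of `l` are those with `-rows < c`. -/
theorem mem_iff_rows (h : Std lv l) (hx : x.2 ≤ 0) : x ∈ l ↔ -(rows l x.1 : ℤ) < x.2 := by
  have k : ∀ S : Finset ℤ, (S.image fun c => (x.1, c)).card = S.card := fun S =>
    Finset.card_image_of_injective S fun _ _ e => congrArg Prod.snd e
  constructor
  · intro hm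
    have h1 : (Finset.Icc x.2 0).image (fun c => (x.1, c)) ⊆
        l.toFinset.filter fun y => y.1 = x.1 ∧ y.2 ≤ 0 := fun y hy => by
      obtain ⟨c, hc, rfl⟩ := Finset.mem_image.1 hy
      rw [Finset.mem_Icc] at hc
      exact Finset.mem_filter.2 ⟨List.mem_toFinset.2 (above_mem h hm hc.1 hc.2), rfl, hc.2⟩
    have h2 : _ ≤ rows l x.1 := Finset.card_le_card h1
    rw [k, Int.card_Icc] at h2
    omega
  · intro hm
    by_contra c
    have h1 : (l.toFinset.filter fun y => y.1 = x.1 ∧ y.2 ≤ 0) ⊆
        (Finset.Ioc x.2 0).image fun c => (x.1, c) := fun y hy => by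
      obtain ⟨h1, h2, h3⟩ := Finset.mem_filter.1 hy
      refine Finset.mem_image.2 ⟨y.2, Finset.mem_Ioc.2 ⟨not_le.1 fun e => c ?_, h3⟩, by rw [← h2]⟩
      have := above_mem h (List.mem_toFinset.1 h1) e hx
      rwa [h2] at this
    have h2 : rows l x.1 ≤ _ := Finset.card_le_card h1
    rw [k, Int.card_Ioc] at h2
    omega

theorem not_mem_low_t3 (h : Std lv l) (hx : x.2 ≤ -(rows l x.1 : ℤ)) : x ∉ l := fun m => by
  have := (mem_iff_rows h (by omega)).1 m
  omega

theorem lt_of_mem_t3 (h : Std lv l) (hx : x ∈ l) : -(rows l x.1 : ℤ) < x.2 :=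
  not_le.1 fun e => not_mem_low_t3 h e hx

theorem bead_low_t3 (h : Std lv l) (hx : x.2 ≤ -(rows l x.1 : ℤ)) :
    bead lv l x = if ok lv x then 1 else 0 := by
  unfold bead
  rw [cnt0_t3 (not_mem_low_t3 h hx), cnt0_t3 (not_mem_low_t3 h (x := dn x) (by simp only [dn]; omega))]
  by_cases e : ok lv x
  · rw [if_pos e, if_pos ⟨by omega, e⟩]
    rfl
  · rw [if_neg e, if_neg fun k => e k.2]
    rfl

theorem low_add (h : Std lv l) {i : Bool} (hi : ok lv (i, 0)) : aa lv l (low l i) = 1 := by
  have h1 : bead lv l (low l i) = 1 := by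
    rw [bead_low_t3 h le_rfl]
    exact if_pos hi
  have h2 : bead lv l (up (low l i)) = 0 := by
    have h3 := h.bead01 (up (low l i))
    unfold bead at h3 ⊢
    rw [dn_up, cnt0_t3 (not_mem_low_t3 h (x := low l i) le_rfl)] at h3 ⊢
    by_cases e : (up (low l i)).2 ≤ 0
    · have := cnt1_t3 ((mem_iff_rows h e).2 (by simp only [up, low]; omega))
      split_ifs at h3 ⊢ <;> omega
    · rw [if_neg fun k => e k.1] at h3 ⊢
      omega
  unfold aa
  rw [h1, h2, sub_zero]

theorem below_low (h : Std lv l) (hx : x.2 < (low l x.1).2) : aa lv l x = 0 := by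
  simp only [low] at hx
  unfold aa
  rw [bead_low_t3 h hx.le, bead_low_t3 h (x := up x) (by simp only [up]; omega)]
  exact sub_self _

theorem rows_cons (h : Std lv (x :: l)) (i : Bool) :
    rows (x :: l) i = rows l i + if x = low l i then 1 else 0 := by
  obtain ⟨h1, h2⟩ := std_cons.1 h
  unfold rows
  rw [List.toFinset_cons, Finset.filter_insert]
  by_cases e : x = low l i
  · have e1 : x.1 = i := by rw [e]; rfl
    have e2 : x.2 = -(rows l i : ℤ) := by rw [e]; rfl
    rw [if_pos e, if_pos ⟨e1, by omega⟩, Finset.card_insert_of_notMem fun m =>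
      not_mem_low_t3 h1 (by rw [e1, e2]) (List.mem_toFinset.1 (Finset.mem_filter.1 m).1)]
  · rw [if_neg e, add_zero]
    split_ifs with c
    · rw [Finset.insert_eq_of_mem]
      refine Finset.mem_filter.2 ⟨List.mem_toFinset.2 ((mem_iff_rows h1 c.2).2 ?_), c⟩
      rcases lt_trichotomy x.2 (-(rows l x.1 : ℤ)) with k | k | k
      · rw [below_low h1 k] at h2
        exact absurd h2 zero_ne_one
      · exact absurd (Prod.ext c.1 (by rw [k, c.1]; rfl)) e
      · exact k
    · rfl

theorem low_split (h : Low o l) :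
    ∃ v w, l = v ++ w ∧ (∀ y ∈ v, y.1 ≠ o) ∧ ∀ y ∈ w, y.1 = o := by
  induction l with
  | nil => exact ⟨[], [], rfl, by simp, by simp⟩
  | cons y l ih =>
    obtain ⟨v, w, rfl, hv, hw⟩ := ih h.tail
    by_cases e : y.1 = o
    · cases v with
      | nil => exact ⟨[], y :: w, rfl, hv, List.forall_mem_cons.2 ⟨e, hw⟩⟩
      | cons u v =>
        have h1 := hv u List.mem_cons_self
        exact absurd (e.symm.trans (nb_iff.1 ((List.isChain_cons_cons.1 h).1 (Or.inl ⟨e, h1⟩))).1).symm
          h1
    · exact ⟨y :: v, w, rfl, List.forall_mem_cons.2 ⟨e, hv⟩, hw⟩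

private theorem low_of_empty (h : Std lv (z :: l)) (h0 : ∀ y ∈ l, y.1 ≠ z.1) : z = low l z.1 := by
  obtain ⟨h1, h2⟩ := std_cons.1 h
  rw [aa_empty h0 rfl, aa_zero] at h2
  have h3 : z.2 = 0 := by
    by_contra c
    rw [if_neg fun k => c k.1] at h2
    exact zero_ne_one h2
  have h4 : ¬ -(rows l z.1 : ℤ) < 0 := fun e =>
    h0 (z.1, 0) ((mem_iff_rows h1 (x := (z.1, 0)) le_rfl).2 e) rfl
  exact Prod.ext rfl (by simp only [low]; omega)

private theorem same_comp {y : Box} (h : Std lv (z :: y :: l)) (hl : Low o (z :: y :: l))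
    (hz : z ≠ low (y :: l) z.1) : y.1 = z.1 := by
  by_contra c
  refine hz (low_of_empty h ?_)
  have h1 : z.1 ≠ o := fun k =>
    c (nb_iff.1 ((List.isChain_cons_cons.1 hl).1 (Or.inl ⟨k, fun k' => c (k'.trans k.symm)⟩))).1.symm
  have h2 : y.1 = o := by
    revert h1 c
    cases z.1 <;> cases y.1 <;> cases o <;> simp
  obtain ⟨v, w, e, hv, hw⟩ := low_split hl.tail
  cases v with
  | nil =>
    intro u hu k
    exact h1 (k.symm.trans (hw u (by rwa [show y :: l = w from e] at hu)))
  | cons u v =>
    obtain ⟨rfl, -⟩ := List.cons.inj e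
    exact absurd h2 (hv _ List.mem_cons_self)

private theorem head_dn {y : Box} (h : Std lv (z :: y :: l)) (hl : Low o (z :: y :: l))
    (hz : z ≠ low (y :: l) z.1) (ih : ∀ x : Box, x.1 = y.1 → x.2 < y.2 →
      aa lv (y :: l : List Box) x = if x = low (y :: l) y.1 then 1 else 0) : y = dn z := by
  have h1 := same_comp h hl hz
  rcases lt_trichotomy z.2 y.2 with k | k | k
  · have h2 := ih z h1.symm k
    rw [(std_cons.1 h).2, h1, if_neg hz] at h2
    exact absurd h2 one_ne_zero
  · exact absurd (Prod.ext h1.symm k) h.ne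
  · have h2 := nb_iff.1 ((List.isChain_cons_cons.1 hl).1 (Or.inr ⟨h1.symm, k⟩))
    exact Prod.ext h1 (by simp only [dn]; omega)

/-- the newest box of a low list is the lowest removable box of its component -/
theorem low_head (h : Std lv (z :: l)) (hl : Low o (z :: l)) (h1 : x.1 = z.1) (h2 : x.2 < z.2) :
    aa lv (z :: l : List Box) x = if x = low (z :: l) z.1 then 1 else 0 := by
  induction l generalizing x z with
  | nil =>
    have e := low_of_empty h (by simp)
    have e2 : z.2 = 0 := by rw [e]; simp [low, rows]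
    have e3 := rows_cons h z.1
    rw [if_pos e] at e3
    rw [aa_lcons, below_low Std.nil (by simp only [low, rows]; simp; omega),
      if_neg fun k => by rw [k] at h2; omega, if_neg fun k => by rw [k] at h2; simp [up] at h2]
    have e4 : low [z] z.1 = dn z := Prod.ext rfl (by simp only [low, dn, e3]; simp [rows]; omega)
    rw [e4]
    simp
  | cons y l ih =>
    obtain ⟨h3, h4⟩ := std_cons.1 h
    have e3 := rows_cons h z.1
    rw [aa_lcons, if_neg fun k => by rw [k] at h2; omega,
      if_neg fun k => by rw [k] at h2; simp [up] at h2]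
    by_cases e : z = low (y :: l) z.1
    · rw [if_pos e] at e3
      have e2 : z.2 = -(rows (y :: l) z.1 : ℤ) := congrArg Prod.snd e
      have e4 : low (z :: y :: l) z.1 = dn z := Prod.ext rfl (by simp only [low, dn, e3]; omega)
      rw [e4, below_low h3 (by rw [h1]; simp only [low]; omega)]
      simp
    · rw [if_neg e, add_zero] at e3
      have e4 : low (z :: y :: l) z.1 = low (y :: l) z.1 := by simp only [low, e3]
      have ih' := fun x => ih (x := x) h3 hl.tail
      have e5 := head_dn h hl e ih'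
      have e6 : y.1 = z.1 := by rw [e5]; rfl
      have e7 : y.2 = z.2 - 1 := by rw [e5]; rfl
      rw [e4, ← e5]
      by_cases c : x = y
      · subst c
        have := lt_of_mem_t3 h3 List.mem_cons_self
        rw [if_pos rfl, if_neg fun k => this.ne' (by rw [e6]; exact congrArg Prod.snd k), aa_lcons,
          (std_cons.1 h3).2, if_pos rfl, if_neg (up_ne x).symm, if_neg (dn_ne x).symm]
        rfl
      · have c' : x.2 ≠ y.2 := fun k => c (Prod.ext (h1.trans e6.symm) k)
        rw [if_neg c, ih' x (h1.trans e6.symm) (by omega), e6]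
        simp

theorem low_struct (h : Std lv (z :: l)) (hl : Low o (z :: l)) (hz : z ≠ low l z.1) :
    (low l z.1).2 < z.2 - 1 ∧ ∀ x : Box, x.1 = z.1 → x.2 < z.2 →
      aa lv l x = if x = low l z.1 then 1 else if x = dn z then -1 else 0 := by
  cases l with
  | nil => exact absurd (low_of_empty h (by simp)) hz
  | cons y l =>
    obtain ⟨h3, h4⟩ := std_cons.1 h
    have ih' := fun x => low_head (x := x) h3 hl.tail
    have e5 := head_dn h hl hz ih'
    have e6 : y.1 = z.1 := by rw [e5]; rfl
    have e7 : y.2 = z.2 - 1 := by rw [e5]; rfl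
    have e8 := lt_of_mem_t3 h3 List.mem_cons_self
    rw [e6] at e8
    refine ⟨by simp only [low]; omega, fun x h1 h2 => ?_⟩
    rw [← e5]
    by_cases c : x = y
    · subst c
      rw [if_neg fun k => e8.ne' (congrArg Prod.snd k), if_pos rfl, aa_lcons,
        (std_cons.1 h3).2, if_pos rfl, if_neg (up_ne x).symm, if_neg (dn_ne x).symm]
      rfl
    · have c' : x.2 ≠ y.2 := fun k => c (Prod.ext (h1.trans e6.symm) k)
      rw [if_neg c, ih' x (h1.trans e6.symm) (by omega), e6]

end

end Pool.Agent.P.MP_1a0ecf_al.K
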