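import Mathlib

/-! Group rings of ordered groups, their fraction fields, degrees. Definitions only. -/

namespace Pool.Agent.P.MP_1a0ecf_al.K

open scoped Classical

set_option linter.unusedSectionVars false

noncomputable section

variable (Γ : Type) [AddCommGroup Γ] [LinearOrder Γ] [IsOrderedAddMonoid Γ]

abbrev GA : Type := AddMonoidAlgebra ℤ Γ

abbrev KK : Type := FractionRing (GA Γ)

/-- expansion in decreasing powers -/
def hA : GA Γ →+* HahnSeries Γ ℚ :=
  (AddMonoidAlgebra.lift ℤ (HahnSeries Γ ℚ) Γ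
    { toFun := fun γ => HahnSeries.single (-γ.toAdd) 1
      map_one' := by simp
      map_mul' := fun x y => by
        rw [HahnSeries.single_mul_single, toAdd_mul, neg_add, one_mul] }).toRingHom

theorem hA_single (γ : Γ) (n : ℤ) :
    hA Γ (AddMonoidAlgebra.single γ n) = HahnSeries.single (-γ) (n : ℚ) := by
  simp only [hA, AlgHom.toRingHom_eq_coe, RingHom.coe_coe, AddMonoidAlgebra.lift_single,
    MonoidHom.coe_mk, OneHom.coe_mk, toAdd_ofAdd]
  rw [← Int.cast_smul_eq_zsmul ℚ]
  ext δ
  simp [HahnSeries.coeff_single]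

theorem hA_coeff (a : GA Γ) (γ : Γ) : (hA Γ a).coeff (-γ) = (a.coeff γ : ℚ) := by
  induction a using AddMonoidAlgebra.induction_linear with
  | zero => simp
  | add a b ha hb => simp [ha, hb]
  | single δ n =>
    rw [hA_single, HahnSeries.coeff_single, AddMonoidAlgebra.coeff_single, Finsupp.single_apply]
    by_cases h : δ = γ
    · simp [h]
    · simp [h, Ne.symm h]

theorem hA_inj : Function.Injective (hA Γ) := fun a b h =>
  AddMonoidAlgebra.coeff_injective (Finsupp.ext fun γ => by
    have := hA_coeff Γ a γ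
    rw [h, hA_coeff] at this
    exact_mod_cast this.symm)

def hK : KK Γ →+* HahnSeries Γ ℚ := IsFractionRing.lift (hA_inj Γ)

/-- the bar involution of the group ring -/
def bA : GA Γ →+* GA Γ := AddMonoidAlgebra.mapDomainRingHom ℤ (negAddMonoidHom : Γ →+ Γ)

theorem bA_inj : Function.Injective (bA Γ) :=
  AddMonoidAlgebra.mapDomain_injective neg_injective

/-- the bar involution of the fraction field -/
def bK : KK Γ →+* KK Γ :=
  IsFractionRing.lift (g := (algebraMap (GA Γ) (KK Γ)).comp (bA Γ))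
    ((IsFractionRing.injective (GA Γ) (KK Γ)).comp (bA_inj Γ))

/-- the group ring inside its fraction field -/
def AA : Subring (KK Γ) := (algebraMap (GA Γ) (KK Γ)).range

variable {Γ}

/-- the monomial `v ^ γ` -/
def mK (γ : Γ) : (KK Γ)ˣ where
  val := algebraMap (GA Γ) (KK Γ) (AddMonoidAlgebra.single γ 1)
  inv := algebraMap (GA Γ) (KK Γ) (AddMonoidAlgebra.single (-γ) 1)
  val_inv := by
    rw [← map_mul, AddMonoidAlgebra.single_mul_single, add_neg_cancel, one_mul]; exact map_one _
  inv_val := by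
    rw [← map_mul, AddMonoidAlgebra.single_mul_single, neg_add_cancel, one_mul]; exact map_one _

/-- the coefficient of `v ^ γ` -/
def co (x : KK Γ) (γ : Γ) : ℚ := (hK Γ x).coeff (-γ)

/-- the top exponent (zero for `x = 0`) -/
def deg (x : KK Γ) : Γ := -(hK Γ x).order

/-- the leading coefficient -/
def lc (x : KK Γ) : ℚ := (hK Γ x).leadingCoeff

/-- the width -/
def wd (x : KK Γ) : Γ := deg x + deg (bK Γ x)

/-- all exponents are at most `γ` -/
def Le (x : KK Γ) (γ : Γ) : Prop := ∀ δ, γ < δ → co x δ = 0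

/-- all exponents are smaller than `γ` -/
def Lt (x : KK Γ) (γ : Γ) : Prop := ∀ δ, γ ≤ δ → co x δ = 0

/-- integer coefficients -/
def IsZ (x : KK Γ) : Prop := ∀ γ, ∃ n : ℤ, co x γ = n

/-- the specialisation `v ^ γ ↦ 1` -/
def spA : GA Γ →+* ℂ := (AddMonoidAlgebra.lift ℤ ℂ Γ 1).toRingHom

/-- the specialisation on the image of the group ring -/
def sp (x : KK Γ) : ℂ := if h : x ∈ AA Γ then spA h.choose else 0

/-- `u` and its inverse lie in `R` -/
def Un {F : Type} [Field F] (R : Subring F) (u : F) : Prop := u ∈ R ∧ u⁻¹ ∈ R ∧ u ≠ 0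

end

end Pool.Agent.P.MP_1a0ecf_al.K
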