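import Pool.Agent.P.MP_1a0ecf_al.K.Sn3
import Pool.Agent.P.MP_1a0ecf_al.K.Val

/-! Hecke towers of types A and B over a field. Definitions only. -/

namespace Pool.Agent.P.MP_1a0ecf_al.K

open Sn
open scoped Classical

set_option linter.unusedSectionVars false

noncomputable section

/-- the eigenvalue attached to a box -/
def xi {F : Type} [Field F] (Q q : Fˣ) (x : Box) : F :=
  (if x.1 = true then (Q : F) else -((Q⁻¹ : Fˣ) : F)) * ((q ^ (2 * x.2) : Fˣ) : F)

/-- boxes of the allowed components -/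
def ok (lv : Bool) (x : Box) : Prop := lv = true ∨ x.1 = true

/-- the box in the other component -/
def br (x : Box) : Box := (!x.1, x.2)

/-- the residue modulo `Q ^ 2 * q ^ (2 * k) + 1` -/
def rs (k : ℤ) (x : Box) : ℤ := if x.1 = true then x.2 else x.2 + k

/-- the other box with the same residue -/
def par (k : ℤ) (x : Box) : Box := if x.1 = true then (false, x.2 - k) else (true, x.2 + k)

/-- the number of rows of the component `i` -/
def rows (l : List Box) (i : Bool) : ℕ := (l.toFinset.filter fun x => x.1 = i ∧ x.2 ≤ 0).card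

/-- the lowest addable box of the component `i` -/
def low (l : List Box) (i : Bool) : Box := (i, -(rows l i : ℤ))

/-- the lists `s` that survive the local conditions attached to `b` -/
inductive Surv : List Box → List Box → Prop
  | nil : Surv [] []
  | cons {s b : List Box} {x z : Box} : Surv s b → x.1 = z.1 → (z ≠ low b z.1 → x ≠ low b z.1) →
      Surv (x :: s) (z :: b)

/-- every entry `x` is replaced by the two entries `br x`, `x` -/
def dbl : List Box → List Box
  | [] => []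
  | x :: l => br x :: x :: dbl l

/-- the exponent of the eigenvalue of a box -/
def dd {Γ : Type} [AddCommGroup Γ] (a b : Γ) (x : Box) : Γ :=
  (if x.1 = true then b else -b) + (2 * x.2) • a

/-- the sum of the exponents -/
def om {Γ : Type} [AddCommGroup Γ] (a b : Γ) (s : List Box) : Γ := (s.map (dd a b)).sum

/-- same multiset of values -/
def Cl {α : Type} (κ : Box → α) (s t : List Box) : Prop := (s.map κ).Perm (t.map κ)

/-- upper sets of shapes -/
structure Up {Γ : Type} [LinearOrder Γ] (ω : List Box → Γ) (U : List Box → Prop) : Prop where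
  om : ∀ s t : List Box, s.Perm t → ω s = ω t
  perm : ∀ s t : List Box, s.Perm t → U s → U t
  up : ∀ s t : List Box, s.length = t.length → ω s < ω t → U s → U t

/-- pairs of standard lists of one shape in `U` -/
def Ix (lv : Bool) (k : ℕ) (U : List Box → Prop) : Finset (List Box × List Box) :=
  (tabs lv k ×ˢ tabs lv k).filter fun p => p.1.Perm p.2 ∧ U p.1

section

variable {F : Type} [Field F] (ξ : Box → F) (lv : Bool) (r : Box → Box → Prop)

/-- the product of the `(ξ z - ξ x) ^ aa l x` over the boxes `x` with `r x z` -/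
def gp (z : Box) (l : List Box) : F :=
  ∏ x ∈ bx l.length, if r x z then (ξ z - ξ x) ^ aa lv l x else 1

/-- the product of the `gp` along a list -/
def gam : List Box → F
  | [] => 1
  | z :: l => gam l * gp ξ lv r z l

end

/-- Jucys-Murphy elements -/
def jm {H : Type} [Ring H] (X0 : H) (T : ℕ → H) : ℕ → H
  | 0 => X0
  | k + 1 => T k * jm X0 T k * T k

/-- the generators of the `k`-th subalgebra -/
def gens {H : Type} (X0 : H) (T : ℕ → H) (k : ℕ) : Set H :=
  {h | (0 < k ∧ h = X0) ∨ ∃ j, j + 1 < k ∧ h = T j}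

/-- a Hecke tower with `n` positions; `lv = true` is type B, `lv = false` is type A -/
structure Tw (F H : Type) [Field F] [Ring H] [Algebra F H] where
  n : ℕ
  lv : Bool
  Q : Fˣ
  q : Fˣ
  T : ℕ → H
  X0 : H
  τ : H →ₗ[F] F
  fl : H →ₗ[F] H
  inj : Function.Injective (xi Q q)
  quad : ∀ k, k + 1 < n → T k * T k = 1 + ((q : F) - (q⁻¹ : Fˣ)) • T k
  braid : ∀ k, k + 2 < n → T k * T (k + 1) * T k = T (k + 1) * T k * T (k + 1)
  far : ∀ j k, j + 1 < k → k + 1 < n → T j * T k = T k * T j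
  X0_T : ∀ k, 0 < k → k + 1 < n → X0 * T k = T k * X0
  X0_br : 1 < n → X0 * T 0 * X0 * T 0 = T 0 * X0 * T 0 * X0
  X0_two : lv = true → 0 < n → X0 * X0 = 1 + ((Q : F) - (Q⁻¹ : Fˣ)) • X0
  X0_one : lv = false → X0 = (Q : F) • 1
  top : Algebra.adjoin F (gens X0 T n) = ⊤
  fl_one : fl 1 = 1
  fl_mul : ∀ a b, fl (a * b) = fl b * fl a
  fl_T : ∀ k, fl (T k) = T k
  fl_X0 : fl X0 = X0
  τ_one : τ 1 = 1
  τ_comm : ∀ a b, τ (a * b) = τ (b * a)
  aniso : ∀ a, τ (a * fl a) = 0 → a = 0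
  τT : ∀ k, k + 1 < n → ∀ a ∈ Algebra.adjoin F (gens X0 T (k + 1)), τ (a * T k) = 0
  τX : lv = true → ∀ k < n, ∀ a ∈ Algebra.adjoin F (gens X0 T k), τ (a * jm X0 T k) = 0

namespace Tw

variable {F H : Type} [Field F] [Ring H] [Algebra F H] (t : Tw F H)

abbrev X : ℕ → H := jm t.X0 t.T

abbrev Hk (k : ℕ) : Subalgebra F H := Algebra.adjoin F (gens t.X0 t.T k)

abbrev ξ : Box → F := xi t.Q t.q

abbrev ze : F := (t.q : F) - (t.q⁻¹ : Fˣ)

/-- eigenprojectors of the Jucys-Murphy elements -/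
def pr (k : ℕ) (x : Box) : H :=
  if k < t.n ∧ x ∈ bx t.n then Polynomial.aeval (t.X k) (Lagrange.basis (bx t.n) t.ξ x) else 0

/-- the seminormal data -/
def dat : Dat F H :=
  ⟨t.pr, t.T, fun x y => t.ze * t.ξ y / (t.ξ y - t.ξ x), t.q, (t.q⁻¹ : Fˣ)⟩

abbrev E (l : List Box) : H := t.dat.E l

abbrev g (o : Bool) (s u : List Box) : H := t.dat.g t.lv o s u

abbrev Nm (o : Bool) (s : List Box) : F := t.dat.Nm t.lv o s

abbrev ga (r : Box → Box → Prop) (s : List Box) : F := gam t.ξ t.lv r s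

/-- the projector on a set of eigenvalues -/
def pj (k : ℕ) (A : Box → Prop) : H := ∑ x ∈ bx t.n with A x, t.pr k x

/-- the sum of the idempotents of the standard lists in `U` -/
def eU (k : ℕ) (U : List Box → Prop) : H := ∑ s ∈ tabs t.lv k with U s, t.E s

/-- the ratio `τ (E (z :: l)) / τ (E l)` -/
def pp (l : List Box) (z : Box) : F :=
  (if t.lv = true then 1 else (t.Q : F)) * (t.ξ z)⁻¹ * (gp t.ξ t.lv (fun x y => x ≠ y) z l)⁻¹

/-- the idempotent of the trivial representation of `T k` -/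
def fk (k : ℕ) : H := ((t.q : F) + (t.q⁻¹ : Fˣ))⁻¹ • (t.T k + ((t.q⁻¹ : Fˣ) : F) • 1)

/-- the normalising factor of the wedge of the matrix units -/
def cf (r : Box → Box → Prop) (o : Bool) (k : ℕ) (U : List Box → Prop) : F :=
  ∏ p ∈ Ix t.lv k U, t.ga r p.1 / t.Nm o p.1

/-- a minor of the matrix units -/
def mn (o : Bool) (k : ℕ) (U : List Box → Prop) (φ : List Box × List Box → H →ₗ[F] F) : F :=
  (Matrix.of fun i j : Ix t.lv k U => φ i.1 (t.g o j.1.1 j.1.2)).det

/-- the idempotent of the doubled lists of `l` -/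
def ep : List Box → H
  | [] => 1
  | x :: l => ep l * ((t.pr (2 * l.length) x * t.pr (2 * l.length + 1) (br x) +
      t.pr (2 * l.length) (br x) * t.pr (2 * l.length + 1) x) * t.fk (2 * l.length))

/-- an integral form -/
structure Lat where
  R : Subring F
  HR : Subring H
  smul : ∀ r ∈ R, ∀ h ∈ HR, r • h ∈ HR
  hQ : Un R (t.Q : F)
  hq : Un R (t.q : F)
  hT : ∀ k, t.T k ∈ HR
  hX : t.X0 ∈ HR

/-- a self-dual integral form in which two is not invertible -/
structure Lat1 extends Lat t where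
  tau : ∀ h ∈ HR, t.τ h ∈ R
  dual : ∀ k ≤ t.n, ∀ a ∈ t.Hk k, (∀ h ∈ t.Hk k, h ∈ HR → t.τ (a * h) ∈ R) → a ∈ HR
  odd : ∀ k ≤ t.n, ∀ a ∈ t.Hk k, a ≠ 0 → ∃ h ∈ t.Hk k, a * h ∈ HR ∧ t.τ (a * h) / 2 ∉ R
  two : Un R ((t.q : F) + (t.q⁻¹ : Fˣ))

variable {t}

/-- the relation `r` agrees with the order `o` up to units -/
def Lat.H1 (Λ : Lat t) (o : Bool) (r : Box → Box → Prop) : Prop :=
  (∀ x, ¬ r x x) ∧ ∀ x y, ok t.lv x → ok t.lv y → Fst o x y →
    Un Λ.R (t.ξ x - t.ξ y) ∨ (r y x ∧ ¬ r x y)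

/-- integral elements with the right leading coefficient -/
def Lat.HasY {Γ : Type} [LinearOrder Γ] (Λ : Lat t) (o : Bool) (k : ℕ) (ω : List Box → Γ) : Prop :=
  ∀ b ∈ tabs t.lv k, Low o b → ∃ c : List Box → F, ∑ s ∈ tabs t.lv k, c s • t.E s ∈ Λ.HR ∧
    (∀ s ∈ tabs t.lv k, c s ≠ 0 → s = b ∨ ω b < ω s) ∧
      Un Λ.R (c b / t.ga (fun x z => Fst o z x) b)

/-- the bar involution of a tower -/
structure Bar (t : Tw F H) (φ : F →+* F) (f : H →+* H) : Prop where
  smul : ∀ r a, f (r • a) = φ r • f a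
  Q : φ t.Q = (t.Q⁻¹ : Fˣ)
  q : φ t.q = (t.q⁻¹ : Fˣ)
  T : ∀ k, k + 1 < t.n → f (t.T k) * t.T k = 1
  X0 : 0 < t.n → f t.X0 * t.X0 = 1

/-- the sign automorphism of a tower with `Q = 1` -/
structure Th (t : Tw F H) (θ : H →ₐ[F] H) : Prop where
  lv : t.lv = true
  Q : t.Q = 1
  T : ∀ k, θ (t.T k) = t.T k
  X0 : θ t.X0 = -t.X0

end Tw

end

end Pool.Agent.P.MP_1a0ecf_al.K
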