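import Pool.Agent.P.MP_1a0ecf_al.K.Val

/-! Package V1: coefficients, degrees, leading coefficients. -/

namespace Pool.Agent.P.MP_1a0ecf_al.K

open scoped Classical

set_option linter.unusedSectionVars false

noncomputable section

variable {Γ : Type} [AddCommGroup Γ] [LinearOrder Γ] [IsOrderedAddMonoid Γ]


instance : CharZero (KK Γ) :=
  haveI := algebraRat.charZero (HahnSeries Γ ℚ)
  RingHom.charZero (hK Γ)

theorem hK_alg (a : GA Γ) : hK Γ (algebraMap (GA Γ) (KK Γ) a) = hA Γ a := IsFractionRing.lift_algebraMap _ _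

theorem hK_ne {x : KK Γ} (h : x ≠ 0) : hK Γ x ≠ 0 := (map_ne_zero (hK Γ)).2 h

theorem hK_rat (r : ℚ) : hK Γ (r : KK Γ) = HahnSeries.single 0 r := by
  rw [map_ratCast]; rfl

theorem hK_mK (γ : Γ) : hK Γ (mK γ : KK Γ) = HahnSeries.single (-γ) 1 := by
  show hK Γ (algebraMap (GA Γ) (KK Γ) _) = _
  rw [hK_alg, hA_single, Int.cast_one]

theorem co_alg (a : GA Γ) (γ : Γ) : co (algebraMap (GA Γ) (KK Γ) a) γ = a.coeff γ := by
  unfold co; rw [hK_alg, hA_coeff]

theorem co_ext {x y : KK Γ} (h : ∀ γ, co x γ = co y γ) : x = y := by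
  apply (hK Γ).injective
  ext γ
  simpa [co] using h (-γ)

theorem co_zero (γ : Γ) : co (0 : KK Γ) γ = 0 := by simp [co]

theorem co_add (x y : KK Γ) (γ : Γ) : co (x + y) γ = co x γ + co y γ := by simp [co]

theorem co_neg (x : KK Γ) (γ : Γ) : co (-x) γ = -co x γ := by simp [co]

theorem co_sub (x y : KK Γ) (γ : Γ) : co (x - y) γ = co x γ - co y γ := by simp [co]

theorem co_sum {ι : Type} (s : Finset ι) (f : ι → KK Γ) (γ : Γ) :
    co (∑ i ∈ s, f i) γ = ∑ i ∈ s, co (f i) γ := by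
  unfold co; rw [map_sum, HahnSeries.coeff_sum]

theorem co_rat_mul (r : ℚ) (x : KK Γ) (γ : Γ) : co ((r : KK Γ) * x) γ = r * co x γ := by
  unfold co; rw [map_mul, hK_rat, HahnSeries.coeff_single_zero_mul]

theorem co_rat (r : ℚ) (γ : Γ) : co (r : KK Γ) γ = if γ = 0 then r else 0 := by
  unfold co; rw [hK_rat, HahnSeries.coeff_single]; simp

theorem mK_zero : mK (0 : Γ) = 1 := Units.ext (map_one (algebraMap (GA Γ) (KK Γ)))

theorem mK_add (γ δ : Γ) : mK (γ + δ) = mK γ * mK δ := by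
  apply Units.ext
  simp only [mK, Units.val_mul]
  rw [← map_mul, AddMonoidAlgebra.single_mul_single, one_mul]

theorem mK_neg (γ : Γ) : mK (-γ) = (mK γ)⁻¹ := by
  rw [eq_inv_iff_mul_eq_one, ← mK_add, neg_add_cancel, mK_zero]

theorem mK_zsmul (k : ℤ) (γ : Γ) : mK (k • γ) = mK γ ^ k := by
  let φ : Multiplicative Γ →* (KK Γ)ˣ :=
    { toFun := fun γ => mK γ.toAdd, map_one' := mK_zero, map_mul' := fun a b => mK_add _ _ }
  exact map_zpow φ (Multiplicative.ofAdd γ) k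

theorem mK_mem (γ : Γ) : (mK γ : KK Γ) ∈ AA Γ := ⟨_, rfl⟩

theorem co_mK (γ δ : Γ) : co (mK γ : KK Γ) δ = if δ = γ then 1 else 0 := by
  unfold co; rw [hK_mK, HahnSeries.coeff_single]; simp

theorem co_mK_mul (γ δ : Γ) (x : KK Γ) : co ((mK γ : KK Γ) * x) δ = co x (δ - γ) := by
  unfold co; rw [map_mul, hK_mK, HahnSeries.coeff_single_mul, one_mul]
  congr 1; abel

theorem co_deg (x : KK Γ) : co x (deg x) = lc x := by
  unfold co deg lc; rw [neg_neg, HahnSeries.leadingCoeff_eq]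

theorem lc_ne_zero {x : KK Γ} (h : x ≠ 0) : lc x ≠ 0 := HahnSeries.leadingCoeff_ne_zero.2 (hK_ne h)

theorem lc_mul (x y : KK Γ) : lc (x * y) = lc x * lc y := by
  unfold lc; rw [map_mul, HahnSeries.leadingCoeff_mul]

theorem lc_one : lc (1 : KK Γ) = 1 := by
  unfold lc; rw [map_one, HahnSeries.leadingCoeff_one]

theorem lc_neg (x : KK Γ) : lc (-x) = -lc x := by
  unfold lc; rw [map_neg, HahnSeries.leadingCoeff_neg]

theorem lc_inv (x : KK Γ) : lc x⁻¹ = (lc x)⁻¹ := by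
  rcases eq_or_ne x 0 with rfl | hx
  · simp [lc]
  · apply eq_inv_of_mul_eq_one_left
    rw [← lc_mul, inv_mul_cancel₀ hx, lc_one]

theorem lc_mK (γ : Γ) : lc (mK γ : KK Γ) = 1 := by
  unfold lc; rw [hK_mK, HahnSeries.leadingCoeff_of_single]

theorem lc_rat (r : ℚ) : lc (r : KK Γ) = r := by
  unfold lc; rw [hK_rat, HahnSeries.leadingCoeff_of_single]

theorem deg_zero : deg (0 : KK Γ) = 0 := by simp [deg]

theorem deg_one : deg (1 : KK Γ) = 0 := by simp [deg]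

theorem deg_mul {x y : KK Γ} (hx : x ≠ 0) (hy : y ≠ 0) : deg (x * y) = deg x + deg y := by
  unfold deg; rw [map_mul, HahnSeries.order_mul (hK_ne hx) (hK_ne hy), neg_add]

theorem deg_neg (x : KK Γ) : deg (-x) = deg x := by
  unfold deg; rw [map_neg, HahnSeries.order_neg]

theorem deg_inv (x : KK Γ) : deg x⁻¹ = -deg x := by
  rcases eq_or_ne x 0 with rfl | hx
  · simp [deg_zero]
  · apply eq_neg_of_add_eq_zero_left
    rw [← deg_mul (inv_ne_zero hx) hx, inv_mul_cancel₀ hx, deg_one]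

theorem deg_mK (γ : Γ) : deg (mK γ : KK Γ) = γ := by
  unfold deg; rw [hK_mK, HahnSeries.order_single one_ne_zero, neg_neg]

theorem deg_rat (r : ℚ) : deg (r : KK Γ) = 0 := by
  rcases eq_or_ne r 0 with rfl | hr
  · simp [deg_zero]
  · unfold deg; rw [hK_rat, HahnSeries.order_single hr, neg_zero]

theorem deg_pow' (x : KK Γ) (k : ℕ) : deg (x ^ k) = k • deg x := by
  unfold deg; rw [map_pow, HahnSeries.order_pow, neg_nsmul]

theorem deg_zpow (x : KK Γ) (k : ℤ) : deg (x ^ k) = k • deg x := by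
  cases k with
  | ofNat n => simp [deg_pow']
  | negSucc n => rw [zpow_negSucc, deg_inv, deg_pow', negSucc_zsmul]

theorem deg_pow (x : KK Γ) (k : ℕ) : deg (x ^ k) = k • deg x := deg_pow' x k

theorem deg_prod {ι : Type} (s : Finset ι) (f : ι → KK Γ) (h : ∀ i ∈ s, f i ≠ 0) :
    deg (∏ i ∈ s, f i) = ∑ i ∈ s, deg (f i) := by
  induction s using Finset.cons_induction with
  | empty => simp [deg_one]
  | cons a s ha ih =>
    have h1 : ∀ i ∈ s, f i ≠ 0 := fun i hi => h i (Finset.mem_cons_of_mem hi)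
    rw [Finset.prod_cons, Finset.sum_cons, deg_mul (h a (Finset.mem_cons_self _ _))
      (Finset.prod_ne_zero_iff.2 h1), ih h1]

theorem le_deg (x : KK Γ) : Le x (deg x) := fun _ hδ =>
  HahnSeries.coeff_eq_zero_of_lt_order (neg_lt.1 hδ)

theorem le_iff {x : KK Γ} {γ : Γ} : Le x γ ↔ x = 0 ∨ deg x ≤ γ := by
  constructor
  · intro h
    by_contra hc
    push Not at hc
    exact lc_ne_zero hc.1 (by rw [← co_deg]; exact h _ hc.2)
  · rintro (rfl | h) δ hδ
    · exact co_zero δ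
    · exact le_deg x δ (h.trans_lt hδ)

theorem lt_iff {x : KK Γ} {γ : Γ} : Lt x γ ↔ x = 0 ∨ deg x < γ := by
  constructor
  · intro h
    by_contra hc
    push Not at hc
    exact lc_ne_zero hc.1 (by rw [← co_deg]; exact h _ hc.2)
  · rintro (rfl | h) δ hδ
    · exact co_zero δ
    · exact le_deg x δ (h.trans_le hδ)

theorem Lt.le {x : KK Γ} {γ : Γ} (h : Lt x γ) : Le x γ := fun δ hδ => h δ hδ.le

theorem Le.mono {x : KK Γ} {γ δ : Γ} (h : Le x γ) (h' : γ ≤ δ) : Le x δ := fun e he =>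
  h e (h'.trans_lt he)

theorem Le.lt {x : KK Γ} {γ δ : Γ} (h : Le x γ) (h' : γ < δ) : Lt x δ := fun e he =>
  h e (h'.trans_le he)

theorem Le.lt_of_co {x : KK Γ} {γ : Γ} (h : Le x γ) (h' : co x γ = 0) : Lt x γ := fun e he => by
  rcases he.eq_or_lt with rfl | he
  · exact h'
  · exact h e he

theorem Le.zero (γ : Γ) : Le (0 : KK Γ) γ := fun δ _ => co_zero δ

theorem Lt.zero (γ : Γ) : Lt (0 : KK Γ) γ := fun δ _ => co_zero δ

theorem Le.add {x y : KK Γ} {γ : Γ} (h : Le x γ) (h' : Le y γ) : Le (x + y) γ := fun δ hδ => by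
  rw [co_add, h δ hδ, h' δ hδ, add_zero]

theorem Lt.add {x y : KK Γ} {γ : Γ} (h : Lt x γ) (h' : Lt y γ) : Lt (x + y) γ := fun δ hδ => by
  rw [co_add, h δ hδ, h' δ hδ, add_zero]

theorem Le.neg {x : KK Γ} {γ : Γ} (h : Le x γ) : Le (-x) γ := fun δ hδ => by
  rw [co_neg, h δ hδ, neg_zero]

theorem Lt.neg {x : KK Γ} {γ : Γ} (h : Lt x γ) : Lt (-x) γ := fun δ hδ => by
  rw [co_neg, h δ hδ, neg_zero]

theorem Le.sum {ι : Type} {s : Finset ι} {f : ι → KK Γ} {γ : Γ} (h : ∀ i ∈ s, Le (f i) γ) :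
    Le (∑ i ∈ s, f i) γ := fun δ hδ => by
  rw [co_sum]; exact Finset.sum_eq_zero fun i hi => h i hi δ hδ

theorem Lt.sum {ι : Type} {s : Finset ι} {f : ι → KK Γ} {γ : Γ} (h : ∀ i ∈ s, Lt (f i) γ) :
    Lt (∑ i ∈ s, f i) γ := fun δ hδ => by
  rw [co_sum]; exact Finset.sum_eq_zero fun i hi => h i hi δ hδ

theorem Le.mul {x y : KK Γ} {γ δ : Γ} (h : Le x γ) (h' : Le y δ) : Le (x * y) (γ + δ) := by
  rcases eq_or_ne x 0 with rfl | hx
  · rw [zero_mul]; exact Le.zero _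
  rcases eq_or_ne y 0 with rfl | hy
  · rw [mul_zero]; exact Le.zero _
  refine le_iff.2 (Or.inr ?_)
  rw [deg_mul hx hy]
  exact add_le_add ((le_iff.1 h).resolve_left hx) ((le_iff.1 h').resolve_left hy)

theorem Lt.mul_le {x y : KK Γ} {γ δ : Γ} (h : Lt x γ) (h' : Le y δ) : Lt (x * y) (γ + δ) := by
  rcases eq_or_ne x 0 with rfl | hx
  · rw [zero_mul]; exact Lt.zero _
  rcases eq_or_ne y 0 with rfl | hy
  · rw [mul_zero]; exact Lt.zero _
  refine lt_iff.2 (Or.inr ?_)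
  rw [deg_mul hx hy]
  exact add_lt_add_of_lt_of_le ((lt_iff.1 h).resolve_left hx) ((le_iff.1 h').resolve_left hy)

theorem Le.mul_lt {x y : KK Γ} {γ δ : Γ} (h : Le x γ) (h' : Lt y δ) : Lt (x * y) (γ + δ) := by
  rcases eq_or_ne x 0 with rfl | hx
  · rw [zero_mul]; exact Lt.zero _
  rcases eq_or_ne y 0 with rfl | hy
  · rw [mul_zero]; exact Lt.zero _
  refine lt_iff.2 (Or.inr ?_)
  rw [deg_mul hx hy]
  exact add_lt_add_of_le_of_lt ((le_iff.1 h).resolve_left hx) ((lt_iff.1 h').resolve_left hy)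

theorem deg_eq_of' {x : KK Γ} {γ : Γ} (h : Le x γ) (h' : co x γ ≠ 0) :
    x ≠ 0 ∧ deg x = γ ∧ lc x = co x γ := by
  have h1 : x ≠ 0 := by rintro rfl; exact h' (co_zero γ)
  have h2 : deg x = γ := le_antisymm ((le_iff.1 h).resolve_left h1)
    (not_lt.1 fun hc => h' (le_deg x γ hc))
  exact ⟨h1, h2, by rw [← co_deg, h2]⟩

theorem co_mul_top {x y : KK Γ} {γ δ : Γ} (h : Le x γ) (h' : Le y δ) :
    co (x * y) (γ + δ) = co x γ * co y δ := by
  by_cases h1 : co x γ = 0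
  · rw [h1, zero_mul]; exact (h.lt_of_co h1).mul_le h' _ le_rfl
  by_cases h2 : co y δ = 0
  · rw [h2, mul_zero]; exact h.mul_lt (h'.lt_of_co h2) _ le_rfl
  obtain ⟨a1, a2, a3⟩ := deg_eq_of' h h1
  obtain ⟨b1, b2, b3⟩ := deg_eq_of' h' h2
  rw [← a3, ← b3, ← lc_mul, ← co_deg, deg_mul a1 b1, a2, b2]

theorem deg_eq_of {x : KK Γ} {γ : Γ} (h : Le x γ) (h' : co x γ ≠ 0) :
    x ≠ 0 ∧ deg x = γ ∧ lc x = co x γ := deg_eq_of' h h'

/-- the larger term decides -/
theorem deg_add_of_lt {x y : KK Γ} (hx : x ≠ 0) (h : Lt y (deg x)) :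
    x + y ≠ 0 ∧ deg (x + y) = deg x ∧ lc (x + y) = lc x := by
  have h1 : co (x + y) (deg x) = lc x := by rw [co_add, h _ le_rfl, add_zero, co_deg]
  have := deg_eq_of ((le_deg x).add h.le) (by rw [h1]; exact lc_ne_zero hx)
  exact ⟨this.1, this.2.1, this.2.2.trans h1⟩

/-- Take the largest degree `m` among the nonzero `f i`: the coefficient at `m + m` is a positive
sum of squares. -/
theorem le_of_sum_sq {ι : Type} (s : Finset ι) (f : ι → KK Γ) {γ : Γ}
    (h : Le (∑ i ∈ s, f i * f i) (γ + γ)) : ∀ i ∈ s, Le (f i) γ := by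
  intro i hi
  by_contra hc
  rw [le_iff] at hc
  push Not at hc
  obtain ⟨j, hj, hm⟩ := (s.filter fun j => f j ≠ 0).exists_max_image (fun j => deg (f j))
    ⟨i, Finset.mem_filter.2 ⟨hi, hc.1⟩⟩
  rw [Finset.mem_filter] at hj
  have h1 : γ < deg (f j) := hc.2.trans_le (hm i (Finset.mem_filter.2 ⟨hi, hc.1⟩))
  have h2 : ∀ k ∈ s, Le (f k) (deg (f j)) := fun k hk => by
    rcases eq_or_ne (f k) 0 with h0 | h0
    · rw [h0]; exact Le.zero _
    · exact le_iff.2 (Or.inr (hm k (Finset.mem_filter.2 ⟨hk, h0⟩)))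
  have h3 := h _ (add_lt_add h1 h1)
  rw [co_sum, Finset.sum_congr rfl fun k hk => co_mul_top (h2 k hk) (h2 k hk),
    Finset.sum_eq_zero_iff_of_nonneg fun k _ => mul_self_nonneg _] at h3
  have h4 := h3 j hj.1
  rw [co_deg, mul_self_eq_zero] at h4
  exact lc_ne_zero hj.2 h4

theorem eq_zero_of_sum_sq {ι : Type} (s : Finset ι) (f : ι → KK Γ)
    (h : ∑ i ∈ s, f i * f i = 0) : ∀ i ∈ s, f i = 0 := by
  intro i hi
  by_contra hc
  obtain ⟨j, hj, hm⟩ := (s.filter fun j => f j ≠ 0).exists_max_image (fun j => deg (f j))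
    ⟨i, Finset.mem_filter.2 ⟨hi, hc⟩⟩
  rw [Finset.mem_filter] at hj
  have h2 : ∀ k ∈ s, Le (f k) (deg (f j)) := fun k hk => by
    rcases eq_or_ne (f k) 0 with h0 | h0
    · rw [h0]; exact Le.zero _
    · exact le_iff.2 (Or.inr (hm k (Finset.mem_filter.2 ⟨hk, h0⟩)))
  have h3 : co (∑ i ∈ s, f i * f i) (deg (f j) + deg (f j)) = 0 := by rw [h, co_zero]
  rw [co_sum, Finset.sum_congr rfl fun k hk => co_mul_top (h2 k hk) (h2 k hk),
    Finset.sum_eq_zero_iff_of_nonneg fun k _ => mul_self_nonneg _] at h3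
  have h4 := h3 j hj.1
  rw [co_deg, mul_self_eq_zero] at h4
  exact lc_ne_zero hj.2 h4

variable (Γ) in
/-- elements of degree at most zero -/
def OO : Subring (KK Γ) where
  carrier := {x | Le x 0}
  mul_mem' ha hb := by simpa using Le.mul ha hb
  one_mem' := le_iff.2 (Or.inr deg_one.le)
  add_mem' ha hb := Le.add ha hb
  zero_mem' := Le.zero 0
  neg_mem' ha := Le.neg ha

variable (Γ) in
/-- the residue -/
def res : OO Γ →+* ℚ where
  toFun x := co (x : KK Γ) 0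
  map_one' := by simpa using co_rat (Γ := Γ) 1 0
  map_mul' x y := by simpa using co_mul_top x.2 y.2
  map_zero' := co_zero 0
  map_add' x y := co_add _ _ _

theorem un_OO {x : KK Γ} (h : Le x 0) (h' : co x 0 ≠ 0) : Un (OO Γ) x := by
  obtain ⟨h1, h2, -⟩ := deg_eq_of h h'
  exact ⟨h, le_iff.2 (Or.inr (by rw [deg_inv, h2, neg_zero])), h1⟩

end

end Pool.Agent.P.MP_1a0ecf_al.K
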