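import Pool.Agent.P.MP_1a0ecf_al.K.W1a
import Pool.Agent.P.MP_1a0ecf_al.K.V2

/-! Package W1: a Hecke tower is a seminormal system. -/

namespace Pool.Agent.P.MP_1a0ecf_al.K

open Sn
open scoped Classical

set_option linter.unusedSectionVars false

noncomputable section

variable {F H : Type} [Field F] [Ring H] [Algebra F H]

section Lag

open Polynomial

theorem lag_sum (a : H) {S : Finset Box} {v : Box → F} (hv : Function.Injective v)
    (hS : S.Nonempty) : ∑ x ∈ S, aeval a (Lagrange.basis S v x) = 1 := by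
  rw [← map_sum, Lagrange.sum_basis hv.injOn hS, map_one]

theorem lag_eig {a : H} {S : Finset Box} {v : Box → F} (h : aeval a (Lagrange.nodal S v) = 0)
    {x : Box} (hx : x ∈ S) :
    a * aeval a (Lagrange.basis S v x) = v x • aeval a (Lagrange.basis S v x) := by
  have e : (X - C (v x)) * Lagrange.basis S v x =
      C (∏ y ∈ S.erase x, (v x - v y)⁻¹) * Lagrange.nodal S v := by
    rw [Lagrange.nodal_eq_mul_nodal_erase hx, Lagrange.basis, Lagrange.nodal, map_prod,
      mul_left_comm, ← Finset.prod_mul_distrib]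
    rfl
  have := congrArg (aeval a) e
  rw [map_mul, map_mul, h, mul_zero, map_sub, aeval_X, aeval_C, sub_mul, ← Algebra.smul_def] at this
  exact sub_eq_zero.1 this

theorem aeval_mul_eig {a p : H} {c : F} (h : a * p = c • p) (f : F[X]) :
    aeval a f * p = f.eval c • p := by
  induction f using Polynomial.induction_on' with
  | add f g hf hg => rw [map_add, add_mul, hf, hg, eval_add, add_smul]
  | monomial m d =>
    have : a ^ m * p = c ^ m • p := by
      induction m with
      | zero => simp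
      | succ m ih => rw [pow_succ, mul_assoc, h, mul_smul_comm, ih, smul_smul, pow_succ']
    rw [aeval_monomial, eval_monomial, ← Algebra.smul_def, smul_mul_assoc, this, smul_smul]

theorem bx_nonempty (n : ℕ) : (bx n).Nonempty := ⟨(true, 0), mem_bx.2 (by simp)⟩

theorem bx_mono {k n : ℕ} (h : k ≤ n) : bx k ⊆ bx n := fun x hx => by
  rw [mem_bx] at hx ⊢
  omega

theorem nodal_dvd {S S' : Finset Box} (h : S ⊆ S') (v : Box → F) :
    Lagrange.nodal S v ∣ Lagrange.nodal S' v := Finset.prod_dvd_prod_of_subset _ _ _ h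

end Lag

namespace Tw

variable (t : Tw F H)

open Polynomial in
private theorem X0_ann (hn : 0 < t.n) : aeval (t.X 0) (Lagrange.nodal (bx 0) t.ξ) = 0 := by
  have e : bx 0 = {(true, 0), (false, 0)} := by decide
  rw [e, Lagrange.nodal, Finset.prod_pair (by decide)]
  simp only [map_mul, map_sub, aeval_X, aeval_C, ξ, xi, mul_zero, zpow_zero, Units.val_one, mul_one,
    if_true, Bool.false_eq_true, if_false, Algebra.algebraMap_eq_smul_one]
  change (t.X0 - _) * (t.X0 - _) = 0
  simp only [sub_mul, mul_sub, t.X0_sq hn, smul_mul_assoc, mul_smul_comm, one_mul, mul_one, smul_smul,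
    mul_neg, Units.inv_mul, sub_smul, neg_smul, one_smul, smul_sub]
  abel

private theorem phi_X {k : ℕ} (hk : k + 1 < t.n) :
    t.X (k + 1) * (t.T k * t.X k - t.X k * t.T k) = (t.T k * t.X k - t.X k * t.T k) * t.X k := by
  have h1 := t.T_X hk
  have h2 := t.X_T hk
  have c := t.X_comm (k := k) (j := k + 1) (by omega) hk
  set A := t.X k
  set B := t.X (k + 1)
  set T := t.T k
  have e1 : B * (T * A - A * T) = B * (T * A) - A * (B * T) := by
    rw [mul_sub, ← mul_assoc B A, ← c, mul_assoc]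
  have e2 : (T * A - A * T) * A = T * A * A - A * (T * A) := by rw [sub_mul, mul_assoc A]
  have h3 : B * T = T * A + t.ze • B := by rw [h1, sub_add_cancel]
  have e3 : B * (T * A) = T * A * A + t.ze • (A * B) := by
    rw [← mul_assoc, h3, add_mul, smul_mul_assoc, c]
  rw [e1, e2, e3, h3, mul_add, mul_smul_comm]
  abel

private theorem phi_sq {k : ℕ} (hk : k + 1 < t.n) :
    (t.T k * t.X k - t.X k * t.T k) * (t.T k * t.X k - t.X k * t.T k) =
      -((t.X (k + 1) - (t.q : F) ^ 2 • t.X k) *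
        (t.X (k + 1) - ((t.q⁻¹ : Fˣ) : F) ^ 2 • t.X k)) := by
  have h1 := t.T_X hk
  have h2 := t.X_T hk
  have c := t.X_comm (k := k) (j := k + 1) (by omega) hk
  have hq := t.quad k hk
  set A := t.X k
  set B := t.X (k + 1)
  set T := t.T k
  have f1 : T * A - A * T = (B - A) * T - t.ze • B := by rw [h1, sub_mul]; abel
  have f2 : T * A - A * T = T * (A - B) + t.ze • B := by rw [h2, mul_sub]; abel
  have g1 : B * (T * B) = T * (A * B) + t.ze • (B * B) := by
    rw [← mul_assoc, ← mul_assoc, h1, sub_mul, smul_mul_assoc, sub_add_cancel]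
  have g2 : A * (T * A) = T * (A * B) - t.ze • (A * B) := by
    rw [← mul_assoc, h2, sub_mul, smul_mul_assoc, mul_assoc, c]
  have hz : (t.q : F) ^ 2 + ((t.q⁻¹ : Fˣ) : F) ^ 2 = t.ze * t.ze + 2 := by
    have : (t.q : F) * (t.q⁻¹ : Fˣ) = 1 := Units.mul_inv _
    linear_combination 2 * this
  have hz2 : (t.q : F) ^ 2 * ((t.q⁻¹ : Fˣ) : F) ^ 2 = 1 := by rw [← mul_pow, Units.mul_inv, one_pow]
  have r : (B - (t.q : F) ^ 2 • A) * (B - ((t.q⁻¹ : Fˣ) : F) ^ 2 • A) =
      B * B - (t.ze * t.ze + 2) • (A * B) + A * A := by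
    rw [← hz]
    simp only [sub_mul, mul_sub, smul_mul_assoc, mul_smul_comm, smul_smul, ← c, add_smul,
      mul_comm (((t.q⁻¹ : Fˣ) : F) ^ 2), hz2, one_smul, smul_sub]
    abel
  have l : ((B - A) * T - t.ze • B) * (T * (A - B) + t.ze • B) =
      (B - A) * (T * T) * (A - B) + t.ze • ((B - A) * T * B) - t.ze • (B * T * (A - B)) -
        (t.ze * t.ze) • (B * B) := by
    simp only [sub_mul ((B - A) * T), mul_add, smul_mul_assoc, mul_smul_comm, smul_smul, mul_assoc]
    abel
  rw [r]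
  conv_lhs => rw [f1]; arg 2; rw [← f1, f2]
  rw [l, hq]
  simp only [mul_add, add_mul, sub_mul, mul_sub, mul_one, smul_mul_assoc, mul_smul_comm, mul_assoc,
    g1, g2, ← c, smul_sub, smul_add, smul_smul, add_smul, two_smul]
  abel

open Polynomial in
private theorem ann {k : ℕ} (hk : k < t.n) : aeval (t.X k) (Lagrange.nodal (bx k) t.ξ) = 0 := by
  induction k with
  | zero => exact t.X0_ann hk
  | succ k ih =>
    have ih := ih (by omega)
    set Φ := t.T k * t.X k - t.X k * t.T k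
    have int : ∀ f : F[X], aeval (t.X (k + 1)) f * Φ = Φ * aeval (t.X k) f := by
      intro f
      induction f using Polynomial.induction_on' with
      | add f g hf hg => rw [map_add, map_add, add_mul, mul_add, hf, hg]
      | monomial m d =>
        rw [aeval_monomial, aeval_monomial, ← Algebra.smul_def, ← Algebra.smul_def, smul_mul_assoc,
          mul_smul_comm, (SemiconjBy.pow_right (t.phi_X hk).symm m).eq]
    have e1 : aeval (t.X (k + 1)) (Lagrange.nodal (bx k) t.ξ) *
        ((t.X (k + 1) - (t.q : F) ^ 2 • t.X k) *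
          (t.X (k + 1) - ((t.q⁻¹ : Fˣ) : F) ^ 2 • t.X k)) = 0 := by
      rw [← neg_eq_zero, ← mul_neg, ← t.phi_sq hk, ← mul_assoc, int, ih, mul_zero, zero_mul]
    set N := aeval (t.X (k + 1)) (Lagrange.nodal (bx (k + 1)) t.ξ)
    have e2 : N * N * N = 0 := by
      rw [← mul_one (N * N * N), ← lag_sum (t.X k) t.inj (bx_nonempty k), Finset.mul_sum]
      refine Finset.sum_eq_zero fun x hx => ?_
      have eig := lag_eig ih hx
      set P := aeval (t.X k) (Lagrange.basis (bx k) t.ξ x)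
      have cP : t.X (k + 1) * P = P * t.X (k + 1) :=
        Algebra.commute_of_mem_adjoin_singleton_of_commute
          (aeval_mem_adjoin_singleton F (t.X k)) (t.X_comm hk (by omega))
      have hx' := mem_bx.1 hx
      obtain ⟨c1, h1⟩ := nodal_dvd (bx_mono (Nat.le_succ k)) t.ξ
      obtain ⟨c2, h2⟩ : Polynomial.X - C (t.ξ (up x)) ∣ Lagrange.nodal (bx (k + 1)) t.ξ :=
        Finset.dvd_prod_of_mem _ (mem_bx.2 (by
          rw [abs_le] at hx' ⊢; simp only [up]; push_cast; omega))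
      obtain ⟨c3, h3⟩ : Polynomial.X - C (t.ξ (dn x)) ∣ Lagrange.nodal (bx (k + 1)) t.ξ :=
        Finset.dvd_prod_of_mem _ (mem_bx.2 (by
          rw [abs_le] at hx' ⊢; simp only [dn]; push_cast; omega))
      have e3 : N * N * N = aeval (t.X (k + 1)) (c1 * c2 * c3) *
          (aeval (t.X (k + 1)) (Lagrange.nodal (bx k) t.ξ) *
            aeval (t.X (k + 1)) ((Polynomial.X - C (t.ξ (up x))) * (Polynomial.X - C (t.ξ (dn x))))) := by
        have pid : ∀ m : F[X], m = Lagrange.nodal (bx k) t.ξ * c1 →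
            m = (Polynomial.X - C (t.ξ (up x))) * c2 → m = (Polynomial.X - C (t.ξ (dn x))) * c3 →
            m * m * m = c1 * c2 * c3 * (Lagrange.nodal (bx k) t.ξ *
              ((Polynomial.X - C (t.ξ (up x))) * (Polynomial.X - C (t.ξ (dn x))))) := by
          intro m h1 h2 h3
          conv_lhs => arg 1; arg 1; rw [h1]
          conv_lhs => arg 1; arg 2; rw [h2]
          conv_lhs => arg 2; rw [h3]
          ring
        have := congrArg (aeval (t.X (k + 1))) (pid _ h1 h2 h3)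
        rwa [map_mul, map_mul, map_mul _ (c1 * c2 * c3), map_mul _ (Lagrange.nodal _ _)] at this
      have one : ∀ c : F, (t.X (k + 1) - c • t.X k) * P =
          aeval (t.X (k + 1)) (Polynomial.X - C (c * t.ξ x)) * P := by
        intro c
        rw [map_sub, aeval_X, aeval_C, sub_mul, sub_mul, smul_mul_assoc, eig, ← Algebra.smul_def,
          smul_smul]
      have cm : ∀ f : F[X], aeval (t.X (k + 1)) f * P = P * aeval (t.X (k + 1)) f := fun f =>
        (Algebra.commute_of_mem_adjoin_singleton_of_commute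
          (aeval_mem_adjoin_singleton F (t.X (k + 1))) cP.symm).symm
      have e4 : aeval (t.X (k + 1)) ((Polynomial.X - C (t.ξ (up x))) * (Polynomial.X - C (t.ξ (dn x)))) * P =
          (t.X (k + 1) - (t.q : F) ^ 2 • t.X k) *
            (t.X (k + 1) - ((t.q⁻¹ : Fˣ) : F) ^ 2 • t.X k) * P := by
        rw [mul_assoc, one, cm (Polynomial.X - _), ← mul_assoc, one, mul_assoc, ← cm, ← mul_assoc, ← map_mul, ξ,
          xi_up, xi_dn]
      rw [e3, mul_assoc, mul_assoc (aeval _ (Lagrange.nodal _ _)), e4,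
        ← mul_assoc (aeval _ (Lagrange.nodal _ _)), e1, zero_mul, mul_zero]
    have fN : t.fl N = N := t.fl_aeval (t.fl_X _) _
    have e5 : N * N = 0 := t.aniso _ (by
      rw [t.fl_mul, fN, ← mul_assoc, e2, zero_mul, map_zero])
    exact t.aniso _ (by rw [fN, e5, map_zero])

/-- Section 1 of the notes: `Φ = T k * X k - X k * T k` intertwines `X (k + 1)` and `X k`,
`Φ * Φ` is up to sign `(q X k - X (k + 1) / q) (X k / q - q X (k + 1))`; a self-adjoint nilpotent
element vanishes. -/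
theorem X_ann {k : ℕ} (hk : k < t.n) :
    Polynomial.aeval (t.X k) (Lagrange.nodal (bx t.n) t.ξ) = 0 := by
  obtain ⟨c, hc⟩ := nodal_dvd (bx_mono hk.le) t.ξ
  rw [hc, map_mul, t.ann hk, zero_mul]

theorem X_pr (k : ℕ) (x : Box) : t.X k * t.pr k x = t.ξ x • t.pr k x := by
  unfold pr
  split_ifs with e
  · exact lag_eig (t.X_ann e.1) e.2
  · simp

theorem pr_X (k : ℕ) (x : Box) : t.pr k x * t.X k = t.ξ x • t.pr k x := by
  rw [← X_pr]
  exact (t.comm_pr x fun _ => Commute.refl _).symm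

theorem aeval_pr (k : ℕ) (x : Box) (f : Polynomial F) :
    Polynomial.aeval (t.X k) f * t.pr k x = f.eval (t.ξ x) • t.pr k x := aeval_mul_eig (t.X_pr k x) f

theorem pr_top {k : ℕ} (x : Box) (hk : t.n ≤ k) : t.pr k x = 0 := if_neg fun e => by omega

theorem sum_pr {k : ℕ} (hk : k < t.n) : ∑ x ∈ bx t.n, t.pr k x = 1 := by
  rw [← lag_sum (t.X k) t.inj (bx_nonempty t.n)]
  exact Finset.sum_congr rfl fun x hx => if_pos ⟨hk, hx⟩

theorem pr_comm (j k : ℕ) (x y : Box) : t.pr j x * t.pr k y = t.pr k y * t.pr j x :=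
  t.comm_pr y fun hk => (t.comm_pr x fun hj => t.X_comm hk hj).symm

theorem pr_orth {k : ℕ} {x y : Box} (h : x ≠ y) : t.pr k x * t.pr k y = 0 := by
  have e : t.pr k x * t.X k * t.pr k y = t.pr k x * (t.X k * t.pr k y) := mul_assoc _ _ _
  rw [pr_X, X_pr, smul_mul_assoc, mul_smul_comm, ← sub_eq_zero, ← sub_smul] at e
  exact (smul_eq_zero.1 e).resolve_left (t.xi_sub_ne h)

theorem pr_idem (k : ℕ) (x : Box) : t.pr k x * t.pr k x = t.pr k x := by
  by_cases e : k < t.n ∧ x ∈ bx t.n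
  · conv_rhs => rw [← mul_one (t.pr k x), ← t.sum_pr e.1, Finset.mul_sum,
      Finset.sum_eq_single_of_mem x e.2 fun y _ hy => t.pr_orth hy.symm]
  · rw [pr, if_neg e, zero_mul]

theorem X_eq {k : ℕ} (hk : k < t.n) : t.X k = ∑ x ∈ bx t.n, t.ξ x • t.pr k x := by
  rw [← mul_one (t.X k), ← t.sum_pr hk, Finset.mul_sum]
  simp only [X_pr]

private theorem loc {k : ℕ} (hk : k + 1 < t.n) (x y x' y' : Box) :
    (t.ξ x - t.ξ y') • (t.pr k x' * t.pr (k + 1) y' * t.T k * (t.pr k x * t.pr (k + 1) y)) =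
      -(t.ze * t.ξ y) • (t.pr k x' * t.pr (k + 1) y' * (t.pr k x * t.pr (k + 1) y)) ∧
    (t.ξ x' - t.ξ y) • (t.pr k x' * t.pr (k + 1) y' * t.T k * (t.pr k x * t.pr (k + 1) y)) =
      -(t.ze * t.ξ y) • (t.pr k x' * t.pr (k + 1) y' * (t.pr k x * t.pr (k + 1) y)) := by
  set P := t.pr k x * t.pr (k + 1) y
  set P' := t.pr k x' * t.pr (k + 1) y'
  have a1 : t.X k * P = t.ξ x • P := by rw [← mul_assoc, X_pr, smul_mul_assoc]
  have a2 : t.X (k + 1) * P = t.ξ y • P := by
    rw [show P = _ from t.pr_comm _ _ _ _, ← mul_assoc, X_pr, smul_mul_assoc]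
  have a3 : P' * t.X k = t.ξ x' • P' := by
    rw [show P' = _ from t.pr_comm _ _ _ _, mul_assoc, pr_X, mul_smul_comm]
  have a4 : P' * t.X (k + 1) = t.ξ y' • P' := by rw [mul_assoc, pr_X, mul_smul_comm]
  have b1 := congrArg (fun z => P' * z * P) (t.T_X hk)
  have b2 := congrArg (fun z => P' * z * P) (t.X_T hk)
  simp only [mul_sub, sub_mul, mul_smul_comm, smul_mul_assoc] at b1 b2
  rw [← mul_assoc P', mul_assoc _ (t.X k), a1, ← mul_assoc P', mul_assoc P' (t.X (k + 1)) P, a2,
    a4] at b1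
  rw [← mul_assoc P', a3, ← mul_assoc P', mul_assoc _ (t.X (k + 1)), a2,
    mul_assoc P' (t.X (k + 1)) P, a2] at b2
  simp only [mul_smul_comm, smul_mul_assoc, smul_smul] at b1 b2
  constructor
  · rw [sub_smul, b1, neg_smul]; abel
  · rw [sub_smul, b2, neg_smul]; abel

private theorem PP (k : ℕ) (x y x' y' : Box) :
    t.pr k x' * t.pr (k + 1) y' * (t.pr k x * t.pr (k + 1) y) =
      t.pr k x' * t.pr k x * (t.pr (k + 1) y' * t.pr (k + 1) y) := by
  rw [mul_assoc, ← mul_assoc (t.pr (k + 1) y'), t.pr_comm (k + 1) k y' x]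
  simp only [mul_assoc]

theorem N_eq {x y : Box} (h : x ≠ y) :
    t.dat.N x y = (t.ξ x - t.ξ (up y)) * (t.ξ x - t.ξ (dn y)) / (t.ξ x - t.ξ y) ^ 2 := by
  have h1 := t.xi_sub_ne h
  have h2 := t.xi_sub_ne h.symm
  have h3 : (t.q : F) ≠ 0 := Units.ne_zero _
  simp only [Dat.N, dat, ξ, xi_up, xi_dn, ze, Units.val_inv_eq_inv_val] at h1 h2 ⊢
  field_simp
  ring

theorem pr_zero_base {x : Box} (h : t.pr 0 x ≠ 0) : aa t.lv 0 x = 1 := by
  have hn : 0 < t.n := by
    by_contra e
    exact h (t.pr_top x (by omega))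
  have h1 := t.aeval_pr 0 x (Lagrange.nodal (bx 0) t.ξ)
  rw [t.ann hn, zero_mul] at h1
  have h2 := (smul_eq_zero.1 h1.symm).resolve_right h
  rw [Lagrange.eval_nodal, Finset.prod_eq_zero_iff] at h2
  obtain ⟨y, hy, e⟩ := h2
  obtain rfl := t.inj (sub_eq_zero.1 e)
  have h3 : x.2 = 0 := by simpa using mem_bx.1 hy
  rw [aa_zero]
  refine if_pos ⟨h3, ?_⟩
  cases e2 : t.lv
  · have h4 := t.X_pr 0 x
    change t.X0 * _ = _ at h4
    rw [t.X0_one e2, smul_mul_assoc, one_mul, ← sub_eq_zero, ← sub_smul] at h4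
    have h5 : t.ξ (true, 0) = t.ξ x := by
      rw [← sub_eq_zero.1 ((smul_eq_zero.1 h4).resolve_right h)]
      simp [xi]
    exact Or.inr (by rw [← t.inj h5])
  · exact Or.inl rfl

/-- `span`: the span of `Hk k`, `Hk k * T (k - 1) * Hk k` and `Hk k * X k` is stable under left
multiplication by `T (k - 1)` (induction on `k`, three cases for the element of `Hk k`). -/
theorem ok : Ok t.lv t.n (bx t.n) t.dat t.Hk where
  comm := t.pr_comm
  orth k x y := by
    split_ifs with e
    · rw [← e]; exact t.pr_idem k x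
    · exact t.pr_orth e
  top k x hk := t.pr_top x hk
  sum k hk := t.sum_pr hk
  quad := t.quad
  braid := t.braid
  far k j x hk h1 h2 := t.comm_pr x fun hj => by
    rcases lt_or_gt_of_ne h1 with e | e
    · exact t.T_X_hi e hk
    · exact t.T_X_lo (by omega) hj
  off k x y x' y' h1 h2 := by
    change t.pr k x' * t.pr (k + 1) y' * t.T k * (t.pr k x * t.pr (k + 1) y) = 0
    by_cases hk : k + 1 < t.n
    · have z : t.pr k x' * t.pr (k + 1) y' * (t.pr k x * t.pr (k + 1) y) = 0 := by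
        rw [t.PP]
        by_cases e : x' = x
        · rw [t.pr_orth (x := y') fun e' => h1 ⟨e, e'⟩, mul_zero]
        · rw [t.pr_orth e, zero_mul]
      have l := t.loc hk x y x' y'
      rw [z, smul_zero] at l
      by_cases e : x' = y
      · exact (smul_eq_zero.1 l.1).resolve_left (t.xi_sub_ne fun e' => h2 ⟨e, e'.symm⟩)
      · exact (smul_eq_zero.1 l.2).resolve_left (t.xi_sub_ne e)
    · rw [t.pr_top (k := k + 1) y (by omega), mul_zero, mul_zero]
  diag k x y h := by
    change t.pr k x * t.pr (k + 1) y * t.T k * (t.pr k x * t.pr (k + 1) y) =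
      (t.ze * t.ξ y / (t.ξ y - t.ξ x)) • (t.pr k x * t.pr (k + 1) y)
    by_cases hk : k + 1 < t.n
    · have l := (t.loc hk x y x y).1
      rw [t.PP, pr_idem, pr_idem] at l
      have h1 := t.xi_sub_ne h
      have h2 := t.xi_sub_ne h.symm
      rw [← inv_smul_smul₀ h1 (_ * t.T k * _), l, smul_smul]
      congr 1
      field_simp
      ring
    · rw [t.pr_top (k := k + 1) y (by omega)]; simp
  same k x := by
    change t.pr k x * t.pr (k + 1) x = 0
    by_cases hk : k + 1 < t.n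
    · have l := (t.loc hk x x x x).1
      rw [t.PP, pr_idem, pr_idem, sub_self, zero_smul] at l
      exact (smul_eq_zero.1 l.symm).resolve_left
        (neg_ne_zero.2 (mul_ne_zero t.ze_ne (xi_ne _ _ _)))
    · rw [t.pr_top (k := k + 1) x (by omega), mul_zero]
  al_up x := by
    change t.ze * t.ξ (up x) / (t.ξ (up x) - t.ξ x) = t.q
    rw [div_eq_iff (t.xi_sub_ne (up_ne x)), ξ, xi_up]
    linear_combination (-(t.q : F) * xi t.Q t.q x) * (Units.mul_inv t.q)
  al_dn x := by
    change t.ze * t.ξ (dn x) / (t.ξ (dn x) - t.ξ x) = -((t.q⁻¹ : Fˣ) : F)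
    rw [div_eq_iff (t.xi_sub_ne (dn_ne x)), ξ, xi_dn]
    linear_combination (((t.q⁻¹ : Fˣ) : F) * xi t.Q t.q x) * (Units.mul_inv t.q)
  al_far x y h hn := by
    rw [t.N_eq h]
    exact div_ne_zero (mul_ne_zero (t.xi_sub_ne fun e => hn (Nb.symm (Or.inl e)))
      (t.xi_sub_ne fun e => hn (Nb.symm (Or.inr e)))) (pow_ne_zero _ (t.xi_sub_ne h))
  al_add x y h := by
    change t.ze * t.ξ y / (t.ξ y - t.ξ x) + t.ze * t.ξ x / (t.ξ x - t.ξ y) = t.ze
    have h1 := t.xi_sub_ne h
    have h2 := t.xi_sub_ne h.symm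
    field_simp
    ring
  qqi := Units.mul_inv _
  q_add := t.q_add
  base x := t.pr_zero_base
  zero a ha := by
    have e : gens t.X0 t.T 0 = ∅ := by ext; simp [gens]
    rw [Hk, e, Algebra.adjoin_empty, Algebra.mem_bot] at ha
    obtain ⟨c, rfl⟩ := ha
    exact ⟨c, Algebra.algebraMap_eq_smul_one c⟩
  span k hk a ha := by
    refine Submodule.span_le.2 ?_ (t.span_X hk ha)
    rintro _ ⟨a, ha, b, hb, rfl | rfl | ⟨j, hj, rfl⟩⟩
    · rw [← mul_one a, ← t.sum_pr hk, Finset.mul_sum, Finset.sum_mul]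
      exact Submodule.sum_mem _ fun x _ => Submodule.subset_span ⟨a, ha, b, hb, Or.inl ⟨x, rfl⟩⟩
    · rw [t.X_eq hk, Finset.mul_sum, Finset.sum_mul]
      refine Submodule.sum_mem _ fun x _ => ?_
      rw [mul_smul_comm, smul_mul_assoc]
      exact Submodule.smul_mem _ _ (Submodule.subset_span ⟨a, ha, b, hb, Or.inl ⟨x, rfl⟩⟩)
    · exact Submodule.subset_span ⟨a, ha, b, hb, Or.inr ⟨j, hj, rfl⟩⟩
  cent k j x h a ha := t.comm_pr x fun hj => t.Hk_X h hj ha
  pr_mem k j x h := t.pr_mem x h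
  T_mem k j h := t.T_mem h

theorem flo : Fl t.dat t.fl where
  one := t.fl_one
  mul := t.fl_mul
  pr k x := by
    change t.fl (t.pr k x) = t.pr k x
    unfold pr
    split_ifs
    · exact t.fl_aeval (t.fl_X k) _
    · exact map_zero _
  T := t.fl_T

/-- `X k` acts on `E l` by the eigenvalue of the entry number `k` -/
theorem X_E (u l : List Box) (x : Box) :
    t.X l.length * t.E (u ++ x :: l) = t.ξ x • t.E (u ++ x :: l) := by
  have e : t.E (u ++ x :: l) = t.pr l.length x * t.E (u ++ x :: l) := by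
    have c := (t.ok.pr_Eo l.length x (x :: l).length u).eq
    rw [E, Dat.E_append, Dat.E, ← mul_assoc (t.pr _ _)]
    change _ = t.dat.pr _ _ * _ * _
    rw [c, mul_assoc, ← mul_assoc (t.dat.pr _ _)]
    congr 2
    exact (t.pr_idem _ _).symm
  rw [e, ← mul_assoc, X_pr, smul_mul_assoc]

theorem aeval_sum_E (f : Polynomial F) {s : List Box} (hs : s.length = t.n) :
    (∑ k ∈ Finset.range t.n, Polynomial.aeval (t.X k) f) * t.E s =
      (s.map fun x => f.eval (t.ξ x)).sum • t.E s := by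
  have key : ∀ l u : List Box, (∑ k ∈ Finset.range l.length, Polynomial.aeval (t.X k) f) *
      t.E (u ++ l) = (l.map fun x => f.eval (t.ξ x)).sum • t.E (u ++ l) := by
    intro l
    induction l with
    | nil => simp
    | cons x l ih =>
      intro u
      have i1 := ih (u ++ [x])
      rw [List.append_assoc, List.singleton_append] at i1
      rw [List.length_cons, Finset.sum_range_succ, add_mul, i1, aeval_mul_eig (t.X_E u l x),
        List.map_cons, List.sum_cons, add_smul, add_comm]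
  simpa only [hs, List.nil_append] using key s []

theorem pr_eq_zero {k : ℕ} {x : Box} (h : ¬ K.ok t.lv x) : t.pr k x = 0 := by
  by_cases hk : k < t.n
  · rw [← mul_one (t.pr k x), ← t.ok.sum_E hk.le, Finset.mul_sum]
    refine Finset.sum_eq_zero fun l hl => ?_
    by_contra h0
    have h1 : t.dat.E (x :: l) ≠ 0 := by rwa [Dat.E, (mem_lists.1 hl).1]
    have key : ∀ l : List Box, Std t.lv l → ∀ y, ¬ K.ok t.lv y → aa t.lv l y = 0 := by
      intro l hl
      induction hl with
      | nil => exact fun y hy => by rw [Multiset.coe_nil, aa_zero, if_neg fun e => hy e.2]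
      | @cons l z _ hz ih =>
        intro y hy
        have hz' : K.ok t.lv z := by
          by_contra e
          rw [ih z e] at hz
          omega
        have hne : y.1 ≠ z.1 := fun e => hy (by unfold K.ok at hz' ⊢; rwa [e])
        rw [← Multiset.cons_coe, aa_cons_far _ (fun e => hne (by rw [e]))
          (fun e => hne (nb_iff.1 e).1.symm), ih y hy]
    obtain ⟨h2, h3⟩ := std_cons.1 (t.ok.std h1)
    rw [key l h2 x h] at h3
    omega
  · exact t.pr_top x (by omega)

/-- an eigenvector of `X k` on the right is fixed by the projector -/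
theorem eq_pr {k : ℕ} (hk : k < t.n) (p : Box → H) (σ : Box → Box) (hσ : Function.Injective σ)
    (hb : ∀ x, σ x ∈ bx t.n ↔ x ∈ bx t.n) (hs : ∑ x ∈ bx t.n, p x = 1)
    (he : ∀ x, t.X k * p x = t.ξ (σ x) • p x) {x : Box}
    (hx : x ∈ bx t.n) : p x = t.pr k (σ x) := by
  have z1 : ∀ y z, z ≠ σ y → t.pr k z * p y = 0 := fun y z hz => by
    have e : t.pr k z * t.X k * p y = t.pr k z * (t.X k * p y) := mul_assoc _ _ _
    rw [pr_X, he, smul_mul_assoc, mul_smul_comm, ← sub_eq_zero, ← sub_smul] at e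
    exact (smul_eq_zero.1 e).resolve_left (t.xi_sub_ne hz)
  have a1 : p x = t.pr k (σ x) * p x := by
    conv_lhs => rw [← one_mul (p x), ← t.sum_pr hk, Finset.sum_mul,
      Finset.sum_eq_single_of_mem (σ x) ((hb x).2 hx) fun z _ hz => z1 x z hz]
  have a2 : t.pr k (σ x) = t.pr k (σ x) * p x := by
    conv_lhs => rw [← mul_one (t.pr k (σ x)), ← hs, Finset.mul_sum,
      Finset.sum_eq_single_of_mem x hx fun y _ hy => z1 y _ fun e => hy (hσ e).symm]
  exact a1.trans a2.symm

variable {t}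

theorem Bar.X {φ : F →+* F} {f : H →+* H} (h : Bar t φ f) {k : ℕ} (hk : k < t.n) :
    f (t.X k) * t.X k = 1 := by
  induction k with
  | zero => exact h.X0 hk
  | succ k ih =>
    rw [X_succ, map_mul, map_mul]
    calc _ = f (t.T k) * (f (t.X k) * (f (t.T k) * t.T k) * t.X k) * t.T k := by
          simp only [mul_assoc]
      _ = 1 := by rw [h.T k hk, mul_one, ih (by omega), mul_one, h.T k hk]

theorem Bar.xi {φ : F →+* F} {f : H →+* H} (h : Bar t φ f) (x : Box) : φ (t.ξ x) = (t.ξ x)⁻¹ := by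
  have h1 := h.Q
  have h2 := h.q
  simp only [ξ, K.xi, Units.val_inv_eq_inv_val, Units.val_zpow_eq_zpow_val] at h1 h2 ⊢
  rw [map_mul, map_zpow₀, h2, mul_inv, inv_zpow]
  congr 1
  split_ifs
  · exact h1
  · rw [map_neg, map_inv₀, h1, inv_neg]

theorem Bar.T' {φ : F →+* F} {f : H →+* H} (h : Bar t φ f) {k : ℕ} (hk : k + 1 < t.n) :
    f (t.T k) = t.T k - t.ze • 1 := by
  conv_lhs => rw [← mul_one (f (t.T k)), ← t.T_inv hk, ← mul_assoc, h.T k hk, one_mul]

/-- `f (pr k x)` is a polynomial in `(X k)⁻¹` and acts on `pr k y` by `[x = y]`. -/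
theorem Bar.pr {φ : F →+* F} {f : H →+* H} (h : Bar t φ f) (k : ℕ) (x : Box) :
    f (t.pr k x) = t.pr k x := by
  by_cases e : k < t.n ∧ x ∈ bx t.n
  · have i1 := h.X e.1
    have i2 : t.X k * f (t.X k) = 1 := by
      set Y := ∑ y ∈ bx t.n, (t.ξ y)⁻¹ • t.pr k y
      have r : t.X k * Y = 1 := by
        rw [Finset.mul_sum, ← t.sum_pr e.1]
        exact Finset.sum_congr rfl fun y _ => by
          rw [mul_smul_comm, X_pr, inv_smul_smul₀ (xi_ne _ _ _)]
      rw [← mul_one (f (t.X k)), ← r, ← mul_assoc (f _), i1, one_mul]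
    refine t.eq_pr e.1 (fun y => f (t.pr k y)) id Function.injective_id (fun _ => Iff.rfl)
      (by rw [← map_sum, t.sum_pr e.1, map_one]) (fun y => ?_) e.2
    have := congrArg (fun z => t.X k * f z) (t.X_pr k y)
    simp only [map_mul, h.smul, h.xi, ← mul_assoc, i2, one_mul, mul_smul_comm] at this
    rw [id, this, smul_inv_smul₀ (xi_ne _ _ _), ← this]
  · rw [Tw.pr, if_neg e, map_zero]

theorem Bar.g {φ : F →+* F} {f : H →+* H} (h : Bar t φ f) (o : Bool) {k : ℕ} (hk : k ≤ t.n)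
    {s u : List Box} (hs : s ∈ tabs t.lv k) (hu : u ∈ tabs t.lv k) : f (t.g o s u) = t.g o s u :=
  t.ok.bar_g o f h.pr (fun _ hj => ⟨_, h.T' hj⟩) (mem_tabs.1 hs).2 (mem_tabs.1 hu).2
    ((mem_tabs.1 hs).1.trans_le hk) ((mem_tabs.1 hu).1.trans_le hk)

theorem Bar.Nm {φ : F →+* F} {f : H →+* H} (h : Bar t φ f) (o : Bool) {s : List Box}
    (hs : Std t.lv s) : φ (t.Nm o s) = t.Nm o s := by
  refine Dat.map_Nm φ (fun x y hxy => ?_) o hs
  have h1 := t.xi_sub_ne hxy
  have h2 : t.ξ x ≠ 0 := xi_ne _ _ _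
  have h3 : t.ξ y ≠ 0 := xi_ne _ _ _
  have h4 : (t.q : F) ≠ 0 := Units.ne_zero _
  have h5 : (t.ξ x)⁻¹ - (t.ξ y)⁻¹ ≠ 0 := sub_ne_zero.2 fun e => hxy (t.inj (inv_injective e))
  rw [t.N_eq hxy, map_div₀, map_mul, map_pow, map_sub, map_sub, map_sub, h.xi, h.xi, h.xi, h.xi,
    div_eq_div_iff (pow_ne_zero _ h5) (pow_ne_zero _ h1)]
  simp only [ξ, xi_up, xi_dn, Units.val_inv_eq_inv_val] at h2 h3 ⊢
  field_simp
  ring

theorem Th.X {θ : H →ₐ[F] H} (h : Th t θ) (k : ℕ) : θ (t.X k) = -t.X k := by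
  induction k with
  | zero => exact h.X0
  | succ k ih => rw [X_succ, map_mul, map_mul, h.T, ih, mul_neg, neg_mul]

theorem Th.xi {θ : H →ₐ[F] H} (h : Th t θ) (x : Box) : t.ξ (br x) = -t.ξ x := by
  obtain ⟨a, c⟩ := x
  cases a <;> simp [ξ, K.xi, br, h.Q]

theorem br_br (x : Box) : br (br x) = x := by simp [br]

theorem Th.pr {θ : H →ₐ[F] H} (h : Th t θ) (k : ℕ) (x : Box) :
    θ (t.pr k x) = t.pr k (br x) := by
  have hb : ∀ x, br x ∈ bx t.n ↔ x ∈ bx t.n := fun x => by simp only [mem_bx, br]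
  by_cases e : k < t.n ∧ x ∈ bx t.n
  · refine t.eq_pr e.1 (fun y => θ (t.pr k y)) br (Function.LeftInverse.injective br_br) hb
      (by rw [← map_sum, t.sum_pr e.1, map_one]) (fun y => ?_) e.2
    have := congrArg θ (t.X_pr k y)
    rw [map_mul, map_smul, h.X, neg_mul] at this
    rw [h.xi, neg_smul, ← this, neg_neg]
  · rw [Tw.pr, Tw.pr, if_neg e, if_neg (by rwa [hb]), map_zero]

theorem Th.E {θ : H →ₐ[F] H} (h : Th t θ) (s : List Box) : θ (t.E s) = t.E (s.map br) := by
  induction s with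
  | nil => exact map_one θ
  | cons x s ih =>
    rw [List.map_cons, Tw.E, Tw.E, Dat.E, Dat.E, map_mul, ih, List.length_map]
    exact congrArg (· * _) (h.pr _ x)

theorem Th.invol {θ : H →ₐ[F] H} (h : Th t θ) (a : H) : θ (θ a) = a := by
  have ha : a ∈ Algebra.adjoin F (gens t.X0 t.T t.n) := by rw [t.top]; trivial
  refine Algebra.adjoin_induction (p := fun a _ => θ (θ a) = a) ?_ (fun r => ?_)
    (fun a b _ _ i1 i2 => ?_) (fun a b _ _ i1 i2 => ?_) ha
  · rintro _ (⟨-, rfl⟩ | ⟨j, -, rfl⟩)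
    · rw [h.X0, map_neg, h.X0, neg_neg]
    · rw [h.T, h.T]
  · rw [AlgHom.commutes, AlgHom.commutes]
  · rw [map_add, map_add, i1, i2]
  · rw [map_mul, map_mul, i1, i2]

end Tw

end

end Pool.Agent.P.MP_1a0ecf_al.K
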