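import Pool.Agent.P.MP_1a0ecf_al.K.Tw

/-! Package W1, first part: the relations of the Jucys-Murphy elements. -/

namespace Pool.Agent.P.MP_1a0ecf_al.K

open Sn
open scoped Classical

set_option linter.unusedSectionVars false

noncomputable section

variable {F H : Type} [Field F] [Ring H] [Algebra F H]

theorem xi_ne (Q q : Fˣ) (x : Box) : xi Q q x ≠ 0 := by
  unfold xi
  refine mul_ne_zero ?_ (Units.ne_zero _)
  split_ifs
  · exact Units.ne_zero _
  · exact neg_ne_zero.2 (Units.ne_zero _)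

theorem xi_up (Q q : Fˣ) (x : Box) : xi Q q (up x) = (q : F) ^ 2 * xi Q q x := by
  have e : q ^ (2 * (x.2 + 1)) = q ^ 2 * q ^ (2 * x.2) := by
    rw [mul_add, zpow_add, mul_comm]; rfl
  simp only [xi, up, e, Units.val_mul, Units.val_pow_eq_pow_val]
  exact mul_left_comm _ _ _

theorem xi_dn (Q q : Fˣ) (x : Box) : xi Q q (dn x) = ((q⁻¹ : Fˣ) : F) ^ 2 * xi Q q x := by
  conv_rhs => rw [← up_dn x, xi_up, ← mul_assoc, ← mul_pow, Units.inv_mul, one_pow, one_mul]

namespace Tw

variable (t : Tw F H)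

theorem xi_sub_ne {x y : Box} (h : x ≠ y) : t.ξ x - t.ξ y ≠ 0 := sub_ne_zero.2 fun e => h (t.inj e)

theorem ze_ne : t.ze ≠ 0 := fun e => by
  have h1 := t.xi_sub_ne (up_ne (true, 0))
  have h2 : (t.q : F) * (t.q⁻¹ : Fˣ) = 1 := Units.mul_inv _
  apply h1
  rw [ξ, xi_up]
  linear_combination (xi t.Q t.q (true, 0) * t.q) * e + xi t.Q t.q (true, 0) * h2

theorem q_add : (t.q : F) + (t.q⁻¹ : Fˣ) ≠ 0 := fun e => by
  have h1 := t.xi_sub_ne (up_ne_dn (true, 0))
  apply h1
  rw [ξ, xi_up, xi_dn]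
  linear_combination (xi t.Q t.q (true, 0) * ((t.q : F) - (t.q⁻¹ : Fˣ))) * e

theorem X_succ (k : ℕ) : t.X (k + 1) = t.T k * t.X k * t.T k := rfl

theorem T_mem {k j : ℕ} (h : k + 1 < j) : t.T k ∈ t.Hk j :=
  Algebra.subset_adjoin (Or.inr ⟨k, h, rfl⟩)

theorem X_mem {k j : ℕ} (h : k < j) : t.X k ∈ t.Hk j := by
  induction k with
  | zero => exact Algebra.subset_adjoin (Or.inl ⟨h, rfl⟩)
  | succ k ih => exact mul_mem (mul_mem (t.T_mem h) (ih (by omega))) (t.T_mem h)

theorem Hk_mono {k j : ℕ} (h : k ≤ j) : t.Hk k ≤ t.Hk j := by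
  refine Algebra.adjoin_mono ?_
  rintro a (⟨h1, h2⟩ | ⟨i, hi, e⟩)
  exacts [Or.inl ⟨h1.trans_le h, h2⟩, Or.inr ⟨i, hi.trans_le h, e⟩]

theorem pr_mem {k j : ℕ} (x : Box) (h : k < j) : t.pr k x ∈ t.Hk j := by
  unfold pr
  split_ifs
  · exact Algebra.adjoin_le (Set.singleton_subset_iff.2 (t.X_mem h))
      (Polynomial.aeval_mem_adjoin_singleton F (t.X k))
  · exact zero_mem _

theorem comm_Hk {k : ℕ} {b : H} (h0 : 0 < k → Commute t.X0 b)
    (hT : ∀ j, j + 1 < k → Commute (t.T j) b) {a : H} (ha : a ∈ t.Hk k) : Commute a b := by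
  refine (Algebra.commute_of_mem_adjoin_of_forall_mem_commute ha ?_).symm
  rintro c (⟨hk, rfl⟩ | ⟨j, hj, rfl⟩)
  exacts [(h0 hk).symm, (hT j hj).symm]

theorem comm_pr {k : ℕ} {a : H} (x : Box) (h : k < t.n → Commute a (t.X k)) :
    Commute a (t.pr k x) := by
  unfold pr
  split_ifs with e
  · exact Algebra.commute_of_mem_adjoin_singleton_of_commute
      (Polynomial.aeval_mem_adjoin_singleton F (t.X k)) (h e.1)
  · exact Commute.zero_right a

theorem X0_sq (hn : 0 < t.n) : t.X0 * t.X0 = 1 + ((t.Q : F) - (t.Q⁻¹ : Fˣ)) • t.X0 := by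
  cases e : t.lv
  · rw [t.X0_one e, smul_mul_assoc, one_mul, smul_smul, smul_smul, sub_mul, Units.inv_mul, sub_smul,
      one_smul, add_sub_cancel]
  · exact t.X0_two e hn

theorem T_inv {k : ℕ} (hk : k + 1 < t.n) : t.T k * (t.T k - t.ze • 1) = 1 := by
  rw [mul_sub, t.quad k hk, mul_smul_comm, mul_one, add_sub_cancel_right]

theorem inv_T {k : ℕ} (hk : k + 1 < t.n) : (t.T k - t.ze • 1) * t.T k = 1 := by
  rw [sub_mul, t.quad k hk, smul_mul_assoc, one_mul, add_sub_cancel_right]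

theorem T_X {k : ℕ} (hk : k + 1 < t.n) :
    t.T k * t.X k = t.X (k + 1) * t.T k - t.ze • t.X (k + 1) := by
  rw [← mul_one (t.T k * t.X k), ← t.T_inv hk, ← mul_assoc, ← X_succ, mul_sub, mul_smul_comm,
    mul_one]

theorem X_T {k : ℕ} (hk : k + 1 < t.n) :
    t.X k * t.T k = t.T k * t.X (k + 1) - t.ze • t.X (k + 1) := by
  rw [← one_mul (t.X k * t.T k), ← t.inv_T hk, mul_assoc, ← mul_assoc (t.T k), ← X_succ, sub_mul,
    smul_mul_assoc, one_mul]

theorem T_X_hi {j k : ℕ} (hkj : k < j) (hj : j + 1 < t.n) : Commute (t.T j) (t.X k) := by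
  induction k with
  | zero => exact (t.X0_T j hkj hj).symm
  | succ k ih =>
    have c : Commute (t.T j) (t.T k) := (t.far k j hkj hj).symm
    exact (c.mul_right (ih (by omega))).mul_right c

theorem T_X_lo {j k : ℕ} (hjk : j + 1 < k) (hk : k < t.n) : Commute (t.T j) (t.X k) := by
  induction k with
  | zero => omega
  | succ k ih =>
    by_cases e : j + 1 < k
    · have c : Commute (t.T j) (t.T k) := t.far j k e hk
      exact (c.mul_right (ih e (by omega))).mul_right c
    · obtain rfl : k = j + 1 := by omega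
      have b := t.braid j hk
      have c := (t.T_X_hi (j := j + 1) (k := j) (by omega) hk).eq
      change t.T j * _ = _ * t.T j
      rw [X_succ, X_succ]
      calc _ = t.T j * t.T (j + 1) * t.T j * t.X j * t.T j * t.T (j + 1) := by
            simp only [mul_assoc]
        _ = t.T (j + 1) * t.T j * (t.T (j + 1) * t.X j) * t.T j * t.T (j + 1) := by
            rw [b]; simp only [mul_assoc]
        _ = t.T (j + 1) * t.T j * t.X j * (t.T (j + 1) * t.T j * t.T (j + 1)) := by
            rw [c]; simp only [mul_assoc]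
        _ = _ := by rw [← b]; simp only [mul_assoc]

theorem X0_X {k : ℕ} (hk : k < t.n) : Commute t.X0 (t.X k) := by
  induction k with
  | zero => exact Commute.refl _
  | succ k ih =>
    rcases Nat.eq_zero_or_pos k with rfl | h0
    · have := t.X0_br hk
      change t.X0 * (t.T 0 * t.X0 * t.T 0) = t.T 0 * t.X0 * t.T 0 * t.X0
      rw [← this]; simp only [mul_assoc]
    · have c : Commute t.X0 (t.T k) := t.X0_T k h0 hk
      exact (c.mul_right (ih (by omega))).mul_right c

/-- `X k` commutes with `Hk k` (induction, braid relations) -/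
theorem Hk_X {k j : ℕ} (h : k ≤ j) (hj : j < t.n) {a : H} (ha : a ∈ t.Hk k) :
    a * t.X j = t.X j * a :=
  t.comm_Hk (fun _ => t.X0_X hj) (fun _ hi => t.T_X_lo (by omega) hj) ha

theorem Hk_T {k j : ℕ} (h : k ≤ j) (hj : j + 1 < t.n) {a : H} (ha : a ∈ t.Hk k) :
    a * t.T j = t.T j * a :=
  t.comm_Hk (fun _ => t.X0_T j (by omega) hj) (fun i _ => t.far i j (by omega) hj) ha

theorem X_comm {k j : ℕ} (hk : k < t.n) (hj : j < t.n) : t.X k * t.X j = t.X j * t.X k := by
  rcases lt_trichotomy k j with e | rfl | e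
  · exact t.Hk_X le_rfl hj (t.X_mem e)
  · rfl
  · exact (t.Hk_X le_rfl hk (t.X_mem e)).symm

/-- the double coset decomposition -/
theorem span_X {k : ℕ} (hk : k < t.n) {a : H} (ha : a ∈ t.Hk (k + 1)) :
    a ∈ Submodule.span F {g : H | ∃ a ∈ t.Hk k, ∃ b ∈ t.Hk k,
      g = a * b ∨ g = a * t.X k * b ∨ ∃ j, j + 1 = k ∧ g = a * t.T j * b} := by
  induction k generalizing a with
  | zero =>
    set S := Submodule.span F {g : H | ∃ a ∈ t.Hk 0, ∃ b ∈ t.Hk 0,
      g = a * b ∨ g = a * t.X 0 * b ∨ ∃ j, j + 1 = 0 ∧ g = a * t.T j * b}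
    have h1 : (1 : H) ∈ S := Submodule.subset_span ⟨1, one_mem _, 1, one_mem _, Or.inl (by simp)⟩
    have h2 : t.X0 ∈ S :=
      Submodule.subset_span ⟨1, one_mem _, 1, one_mem _, Or.inr (Or.inl (by simp [jm]))⟩
    suffices hh : a ∈ Submodule.span F {1, t.X0} from
      Submodule.span_le.2 (by rintro _ (rfl | rfl); exacts [h1, h2]) hh
    have m1 : (1 : H) ∈ Submodule.span F {1, t.X0} := Submodule.subset_span (by simp)
    have m2 : t.X0 ∈ Submodule.span F {1, t.X0} := Submodule.subset_span (by simp)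
    refine Algebra.adjoin_induction (p := fun a _ => a ∈ Submodule.span F {1, t.X0}) ?_
      (fun r => ?_) (fun _ _ _ _ => add_mem) (fun a b _ _ i1 i2 => ?_) ha
    · rintro _ (⟨-, rfl⟩ | ⟨j, hj, rfl⟩)
      · exact m2
      · omega
    · rw [Algebra.algebraMap_eq_smul_one]; exact Submodule.smul_mem _ _ m1
    · obtain ⟨c, d, rfl⟩ := Submodule.mem_span_pair.1 i1
      obtain ⟨c', d', rfl⟩ := Submodule.mem_span_pair.1 i2
      simp only [add_mul, mul_add, smul_mul_assoc, mul_smul_comm, one_mul, mul_one, t.X0_sq hk]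
      refine add_mem (Submodule.smul_mem _ _ (add_mem ?_ ?_))
        (Submodule.smul_mem _ _ (add_mem ?_ ?_)) <;> refine Submodule.smul_mem _ _ ?_
      exacts [m1, m2, m2, add_mem m1 (Submodule.smul_mem _ _ m2)]
  | succ k ih =>
    set S := Submodule.span F {g : H | ∃ a ∈ t.Hk (k + 1), ∃ b ∈ t.Hk (k + 1),
      g = a * b ∨ g = a * t.X (k + 1) * b ∨ ∃ j, j + 1 = k + 1 ∧ g = a * t.T j * b}
    have s1 : ∀ a ∈ t.Hk (k + 1), ∀ b ∈ t.Hk (k + 1), a * b ∈ S := fun a ha b hb =>
      Submodule.subset_span ⟨a, ha, b, hb, Or.inl rfl⟩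
    have s2 : ∀ a ∈ t.Hk (k + 1), ∀ b ∈ t.Hk (k + 1), a * t.X (k + 1) * b ∈ S := fun a ha b hb =>
      Submodule.subset_span ⟨a, ha, b, hb, Or.inr (Or.inl rfl)⟩
    have s3 : ∀ a ∈ t.Hk (k + 1), ∀ b ∈ t.Hk (k + 1), a * t.T k * b ∈ S := fun a ha b hb =>
      Submodule.subset_span ⟨a, ha, b, hb, Or.inr (Or.inr ⟨k, rfl, rfl⟩)⟩
    have mono := t.Hk_mono (Nat.le_succ k)
    have left : ∀ c : H, (∀ a ∈ t.Hk (k + 1), ∀ b ∈ t.Hk (k + 1), c * (a * b) ∈ S ∧
        c * (a * t.X (k + 1) * b) ∈ S ∧ c * (a * t.T k * b) ∈ S) → ∀ s ∈ S, c * s ∈ S := by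
      intro c hc s hs
      refine Submodule.span_induction (p := fun s _ => c * s ∈ S) ?_ (by simp)
        (fun a b _ _ i1 i2 => by rw [mul_add]; exact add_mem i1 i2)
        (fun r a _ i1 => by rw [mul_smul_comm]; exact S.smul_mem r i1) hs
      rintro _ ⟨a, ha, b, hb, rfl | rfl | ⟨j, hj, rfl⟩⟩
      · exact (hc a ha b hb).1
      · exact (hc a ha b hb).2.1
      · obtain rfl : j = k := by omega
        exact (hc a ha b hb).2.2
    have low : ∀ c ∈ t.Hk (k + 1), ∀ s ∈ S, c * s ∈ S := fun c hc => left c fun a ha b hb =>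
      ⟨s1 c hc _ (mul_mem ha hb), by simpa only [mul_assoc] using s2 _ (mul_mem hc ha) b hb,
        by simpa only [mul_assoc] using s3 _ (mul_mem hc ha) b hb⟩
    have top : ∀ s ∈ S, t.T k * s ∈ S := by
      refine left _ fun a ha b hb => ⟨by simpa using s3 1 (one_mem _) _ (mul_mem ha hb), ?_, ?_⟩
      · have e : t.T k * (a * t.X (k + 1) * b) =
            t.X k * t.T k * (a * b) + t.ze • (a * t.X (k + 1) * b) := by
          rw [t.X_T hk, t.Hk_X le_rfl hk ha, sub_mul, smul_mul_assoc]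
          simp only [mul_assoc, sub_add_cancel]
        rw [e]
        exact add_mem (s3 _ (t.X_mem (by omega)) _ (mul_mem ha hb)) (S.smul_mem _ (s2 a ha b hb))
      · refine Submodule.span_induction (p := fun a _ => t.T k * (a * t.T k * b) ∈ S) ?_ (by simp)
          (fun a a' _ _ i1 i2 => by rw [add_mul, add_mul, mul_add]; exact add_mem i1 i2)
          (fun r a _ i1 => by
            rw [smul_mul_assoc, smul_mul_assoc, mul_smul_comm]; exact S.smul_mem r i1)
          (ih (by omega) ha)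
        have key : ∀ a' ∈ t.Hk k, ∀ b' ∈ t.Hk k, ∀ g : H, t.T k * (a' * g * b' * t.T k * b) =
            a' * (t.T k * g * t.T k) * (b' * b) := by
          intro a' ha' b' hb' g
          calc _ = (t.T k * a') * g * (b' * t.T k) * b := by simp only [mul_assoc]
            _ = _ := by
              rw [← t.Hk_T le_rfl hk ha', t.Hk_T le_rfl hk hb']; simp only [mul_assoc]
        rintro _ ⟨a', ha', b', hb', rfl | rfl | ⟨j, rfl, rfl⟩⟩
        · have := key a' ha' b' hb' 1
          rw [mul_one, mul_one, t.quad k hk, mul_add, add_mul, mul_one, mul_smul_comm,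
            smul_mul_assoc] at this
          rw [this]
          exact add_mem (s1 _ (mono ha') _ (mul_mem (mono hb') hb))
            (S.smul_mem _ (s3 _ (mono ha') _ (mul_mem (mono hb') hb)))
        · rw [key a' ha' b' hb']
          exact s2 _ (mono ha') _ (mul_mem (mono hb') hb)
        · rw [key a' ha' b' hb', ← t.braid j hk]
          have m : t.T j ∈ t.Hk (j + 1 + 1) := t.T_mem (by omega)
          simpa only [mul_assoc] using
            s3 _ (mul_mem (mono ha') m) _ (mul_mem m (mul_mem (mono hb') hb))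
    have all : ∀ s ∈ S, a * s ∈ S := by
      refine Algebra.adjoin_induction (p := fun a _ => ∀ s ∈ S, a * s ∈ S) ?_
        (fun r s hs => ?_) (fun a b _ _ i1 i2 s hs => ?_) (fun a b _ _ i1 i2 s hs => ?_) ha
      · rintro _ (⟨-, rfl⟩ | ⟨j, hj, rfl⟩)
        · exact low _ (t.X_mem (k := 0) (by omega))
        · by_cases e : j = k
          · rw [e]; exact top
          · exact low _ (t.T_mem (by omega))
      · rw [← Algebra.smul_def]; exact S.smul_mem r hs
      · rw [add_mul]; exact add_mem (i1 s hs) (i2 s hs)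
      · rw [mul_assoc]; exact i1 _ (i2 s hs)
    simpa using all _ (s1 1 (one_mem _) 1 (one_mem _))

theorem fl_X (k : ℕ) : t.fl (t.X k) = t.X k := by
  induction k with
  | zero => exact t.fl_X0
  | succ k ih => rw [X_succ, t.fl_mul, t.fl_mul, ih, t.fl_T, mul_assoc]

theorem fl_fl (a : H) : t.fl (t.fl a) = a := by
  have ha : a ∈ Algebra.adjoin F (gens t.X0 t.T t.n) := by rw [t.top]; trivial
  refine Algebra.adjoin_induction (p := fun a _ => t.fl (t.fl a) = a) ?_ (fun r => ?_)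
    (fun a b _ _ i1 i2 => ?_) (fun a b _ _ i1 i2 => ?_) ha
  · rintro _ (⟨-, rfl⟩ | ⟨j, -, rfl⟩)
    · rw [t.fl_X0, t.fl_X0]
    · rw [t.fl_T, t.fl_T]
  · rw [Algebra.algebraMap_eq_smul_one, map_smul, map_smul, t.fl_one, t.fl_one]
  · rw [map_add, map_add, i1, i2]
  · rw [t.fl_mul, t.fl_mul, i1, i2]

theorem fl_mem {k : ℕ} {a : H} (ha : a ∈ t.Hk k) : t.fl a ∈ t.Hk k := by
  refine Algebra.adjoin_induction (p := fun a _ => t.fl a ∈ t.Hk k) ?_ (fun r => ?_)
    (fun a b _ _ i1 i2 => ?_) (fun a b _ _ i1 i2 => ?_) ha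
  · rintro _ (⟨h, rfl⟩ | ⟨j, h, rfl⟩)
    · rw [t.fl_X0]; exact t.X_mem (k := 0) h
    · rw [t.fl_T]; exact t.T_mem h
  · rw [Algebra.algebraMap_eq_smul_one, map_smul, t.fl_one]
    exact Subalgebra.smul_mem _ (one_mem _) r
  · rw [map_add]; exact add_mem i1 i2
  · rw [t.fl_mul]; exact mul_mem i2 i1

theorem fl_aeval {a : H} (ha : t.fl a = a) (p : Polynomial F) :
    t.fl (Polynomial.aeval a p) = Polynomial.aeval a p := by
  induction p using Polynomial.induction_on' with
  | add p q hp hq => rw [map_add, map_add, hp, hq]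
  | monomial m c =>
    rw [Polynomial.aeval_monomial, ← Algebra.smul_def, map_smul]
    congr 1
    induction m with
    | zero => rw [pow_zero, t.fl_one]
    | succ m ih => rw [pow_succ, t.fl_mul, ih, ha, ← pow_succ', pow_succ]

end Tw

end

end Pool.Agent.P.MP_1a0ecf_al.K
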