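import Pool.Agent.P.MP_1a0ecf_al.K.W1

/-! Package W2: the traces of the idempotents. -/

namespace Pool.Agent.P.MP_1a0ecf_al.K

open Sn
open scoped Classical

set_option linter.unusedSectionVars false

noncomputable section

variable {F H : Type} [Field F] [Ring H] [Algebra F H]

open Polynomial in
theorem w2_key {ι : Type} [DecidableEq ι] (A R : Finset ι) (ξ p : ι → F) (hinj : Function.Injective ξ)
    (h0 : ∀ x, ξ x ≠ 0) (c : F) (hd : ∀ y ∈ R, y ∉ A)
    (hdeg : A.card = R.card + 1 ∨ (A.card = R.card + 2 ∧ ∑ x ∈ A, p x * ξ x = 0))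
    (hrem : ∀ y ∈ R, ∑ x ∈ A, p x * ξ x / (ξ x - ξ y) = 0)
    (hz : -(∑ x ∈ A, p x) * ∏ x ∈ A, -ξ x = c * ∏ y ∈ R, -ξ y) {z : ι} (hzA : z ∈ A) :
    p z * ξ z * ∏ x ∈ A.erase z, (ξ z - ξ x) = c * ∏ y ∈ R, (ξ z - ξ y) := by
  set P : F[X] := ∑ x ∈ A, C (p x * ξ x) * Lagrange.nodal (A.erase x) ξ with hP
  have e : P = C c * Lagrange.nodal R ξ := by
    refine eq_of_degree_sub_lt_of_eval_finset_eq (insert 0 (R.image ξ)) ?_ fun u hu => ?_
    · rw [Finset.card_insert_of_notMem (by simp [h0]), Finset.card_image_of_injective _ hinj,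
        degree_lt_iff_coeff_zero]
      intro m hm
      rw [coeff_sub, coeff_C_mul, coeff_eq_zero_of_natDegree_lt (p := Lagrange.nodal R ξ)
        (by rw [Lagrange.natDegree_nodal]; omega), mul_zero, sub_zero, hP, finsetSum_coeff]
      have e1 : ∀ x ∈ A, (Lagrange.nodal (A.erase x) ξ).natDegree = A.card - 1 := fun x hx => by
        rw [Lagrange.natDegree_nodal, Finset.card_erase_of_mem hx]
      by_cases hm' : A.card - 1 < m
      · refine Finset.sum_eq_zero fun x hx => ?_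
        rw [coeff_C_mul, coeff_eq_zero_of_natDegree_lt (by rwa [e1 x hx]), mul_zero]
      · rcases hdeg with h1 | ⟨h1, h2⟩
        · omega
        · rw [← h2]
          refine Finset.sum_congr rfl fun x hx => ?_
          rw [coeff_C_mul, show m = (Lagrange.nodal (A.erase x) ξ).natDegree by rw [e1 x hx]; omega,
            coeff_natDegree, Lagrange.nodal_monic.leadingCoeff, mul_one]
    · rw [hP, eval_finsetSum, eval_mul, eval_C, Lagrange.eval_nodal]
      simp only [eval_mul, eval_C, Lagrange.eval_nodal]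
      rcases Finset.mem_insert.1 hu with rfl | hu
      · simp only [zero_sub]
        rw [← hz, neg_mul, Finset.sum_mul, ← Finset.sum_neg_distrib]
        refine Finset.sum_congr rfl fun x hx => ?_
        rw [← Finset.mul_prod_erase A _ hx]
        ring
      · obtain ⟨y, hy, rfl⟩ := Finset.mem_image.1 hu
        rw [Finset.prod_eq_zero hy (sub_self _), mul_zero,
          ← mul_zero (-∏ x ∈ A, (ξ y - ξ x)), ← hrem y hy, Finset.mul_sum]
        refine Finset.sum_congr rfl fun x hx => ?_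
        have h1 : ξ x - ξ y ≠ 0 := sub_ne_zero.2 fun e => hd y hy (hinj e ▸ hx)
        rw [← Finset.mul_prod_erase A _ hx]
        field_simp
        ring
  have e2 := congrArg (eval (ξ z)) e
  rw [hP, eval_finsetSum, Finset.sum_eq_single z (fun x hx hxz => ?_) fun h => (h hzA).elim] at e2
  · simpa only [eval_mul, eval_C, Lagrange.eval_nodal] using e2
  · rw [eval_mul, Lagrange.eval_nodal, Finset.prod_eq_zero
      (Finset.mem_erase.2 ⟨Ne.symm hxz, hzA⟩) (sub_self _), mul_zero]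

theorem w2_prod {lv : Bool} {l : List Box} (hl : Std lv l) (S : Finset Box) (f : Box → F) :
    ∏ x ∈ S, f x ^ aa lv l x =
      (∏ x ∈ S with aa lv l x = 1, f x) * (∏ x ∈ S with aa lv l x = -1, f x)⁻¹ := by
  rw [Finset.prod_filter, Finset.prod_filter, ← Finset.prod_inv_distrib, ← Finset.prod_mul_distrib]
  refine Finset.prod_congr rfl fun x _ => ?_
  rcases hl.aa_cases x with e | e | e <;> simp [e]

theorem w2_card {lv : Bool} {l : List Box} (hl : Std lv l) :
    ((bx l.length).filter fun x => aa lv l x = 1).card =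
      ((bx l.length).filter fun x => aa lv l x = -1).card + if lv = true then 2 else 1 := by
  have e := sum_aa hl le_rfl
  have e2 : ∑ x ∈ bx l.length, aa lv l x = ∑ x ∈ bx l.length,
      ((if aa lv l x = 1 then (1 : ℤ) else 0) - if aa lv l x = -1 then (1 : ℤ) else 0) :=
    Finset.sum_congr rfl fun x _ => by rcases hl.aa_cases x with e | e | e <;> simp [e]
  rw [e2, Finset.sum_sub_distrib, Finset.sum_boole, Finset.sum_boole] at e
  split_ifs at e ⊢ <;> omega

namespace Tw

variable (t : Tw F H)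

/-- `g s u * g u s` and `g u s * g s u` -/
theorem tau_perm {s u : List Box} (hs : Std t.lv s) (hu : Std t.lv u) (h : s.Perm u) :
    t.τ (t.E s) = t.τ (t.E u) := by
  have hb := bt_eq true hs hu h
  have e1 := t.ok.g_mul_g true hu hu rfl hb s
  have e2 := t.ok.g_mul_g true hs hs rfl hb.symm u
  rw [if_pos rfl, t.ok.U_V true hs] at e1
  rw [if_pos rfl, t.ok.U_V true hu] at e2
  have e3 := t.τ_comm (t.g true s u) (t.g true u s)
  rw [e1, e2, map_smul, map_smul, map_smul, map_smul, smul_comm] at e3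
  exact mul_left_cancel₀ (t.ok.Nm_ne true hu) (mul_left_cancel₀ (t.ok.Nm_ne true hs) e3)

theorem pp_perm {s u : List Box} (h : s.Perm u) (z : Box) : t.pp s z = t.pp u z := by
  rw [pp, pp, gp, gp, h.length_eq, Multiset.coe_eq_coe.2 h]

theorem pp_ne (l : List Box) (z : Box) : t.pp l z ≠ 0 := by
  refine mul_ne_zero (mul_ne_zero ?_ (inv_ne_zero (xi_ne _ _ _))) (inv_ne_zero ?_)
  · split_ifs <;> simp
  · refine Finset.prod_ne_zero_iff.2 fun x _ => ?_
    split_ifs with h
    · exact zpow_ne_zero _ (t.xi_sub_ne (Ne.symm h))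
    · exact one_ne_zero

theorem w2_xi {l : List Box} (hl : Std t.lv l) {m : ℕ} (hm : l.length ≤ m) :
    ∏ x ∈ bx m, t.ξ x ^ aa t.lv l x = if t.lv = true then -1 else (t.Q : F) := by
  induction hl with
  | nil =>
    have e : ∀ x : Box, t.ξ x ^ aa t.lv ([] : List Box) x =
        if x.2 = 0 then (if t.lv = true ∨ x.1 = true then t.ξ x else 1) else 1 := by
      intro x
      rw [Multiset.coe_nil, aa_zero]
      by_cases h1 : x.2 = 0 <;> by_cases h2 : t.lv = true ∨ x.1 = true <;> simp [h1, h2]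
    simp only [e, bx, Finset.prod_product, Fintype.prod_bool, Finset.prod_ite_eq']
    cases t.lv <;> simp [xi]
  | @cons l y hl hy ih =>
    rw [List.length_cons] at hm
    have hb := abs_le.1 (hl.abs_lt.2 y (by omega))
    have e : ∀ x : Box, t.ξ x ^ aa t.lv (y :: l : List Box) x = t.ξ x ^ aa t.lv l x *
        (if x = y then (t.ξ x ^ 2)⁻¹ else 1) * (if x = up y then t.ξ x else 1) *
          if x = dn y then t.ξ x else 1 := by
      intro x
      have h0 : t.ξ x ≠ 0 := xi_ne _ _ _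
      rw [aa_lcons, zpow_add₀ h0, zpow_add₀ h0, zpow_sub₀ h0, div_eq_mul_inv]
      congr 1
      · congr 1
        · congr 1
          split_ifs <;> simp [zpow_ofNat]
        · split_ifs <;> simp
      · split_ifs <;> simp
    have m1 : y ∈ bx m := mem_bx.2 (abs_le.2 ⟨by omega, by omega⟩)
    have m2 : up y ∈ bx m := mem_bx.2 (abs_le.2 ⟨by simp only [up]; omega, by simp only [up]; omega⟩)
    have m3 : dn y ∈ bx m := mem_bx.2 (abs_le.2 ⟨by simp only [dn]; omega, by simp only [dn]; omega⟩)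
    simp only [e, Finset.prod_mul_distrib, Finset.prod_ite_eq', m1, m2, m3, if_true]
    rw [ih (by omega), ξ, xi_up, xi_dn]
    have h0 : xi t.Q t.q y ≠ 0 := xi_ne _ _ _
    have h1 : (t.q : F) ≠ 0 := t.q.ne_zero
    rw [Units.val_inv_eq_inv_val]
    field_simp

/-- the product of the `ξ x ^ aa l x` does not change when a box is added -/
theorem prod_xi {l : List Box} (hl : Std t.lv l) :
    ∏ x ∈ bx l.length, t.ξ x ^ aa t.lv l x = if t.lv = true then -1 else (t.Q : F) :=
  t.w2_xi hl le_rfl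

theorem w2_sum {l : List Box} (hn : l.length < t.n) :
    ∑ x ∈ bx l.length with aa t.lv l x = 1, t.E (x :: l) = t.E l := by
  have e : ∑ x ∈ bx t.n, t.E (x :: l) = t.E l := by
    simp only [Dat.E]
    rw [← Finset.sum_mul, t.ok.sum _ hn, one_mul]
  rw [← e]
  refine Finset.sum_subset (fun x hx => ?_) fun x _ hx => ?_
  · have := mem_bx.1 (Finset.mem_filter.1 hx).1
    exact mem_bx.2 (by omega)
  · by_contra h0
    obtain ⟨h1, h2⟩ := std_cons.1 (t.ok.std h0)
    exact hx (Finset.mem_filter.2 ⟨mem_bx.2 (h1.abs_lt.2 x (by omega)), h2⟩)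

theorem w2_ET (l : List Box) (x z : Box) :
    t.τ (t.E (x :: z :: l) * t.T l.length) = t.dat.al z x * t.τ (t.E (x :: z :: l)) := by
  have e := congrArg t.τ (t.ok.ETE_diag [] l x z)
  rw [t.τ_comm, ← mul_assoc, t.ok.E_idem, map_smul] at e
  exact e

/-- (TAU) of section 1. With `p z = τ (E (z :: l))` the polynomial
`∑ z addable, p z * ξ z * ∏ (x addable, x ≠ z) (u - ξ x)` has degree at most the number of removable
boxes (`sum_aa`, and `τX` in level two), vanishes at `ξ y` for removable `y` (`Std.exists_rem`,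
`tau_perm`, `τT`, `Ok.ETE_diag`), and its value at zero is known from `∑ p z = τ (E l)`. -/
theorem tau_cons {l : List Box} {z : Box} (h : Std t.lv (z :: l)) (hn : l.length < t.n) :
    t.τ (t.E (z :: l)) = t.pp l z * t.τ (t.E l) := by
  obtain ⟨hl, hz⟩ := std_cons.1 h
  have h0 : ∀ x, t.ξ x ≠ 0 := xi_ne _ _
  set A := (bx l.length).filter fun x => aa t.lv l x = 1 with hA
  set R := (bx l.length).filter fun x => aa t.lv l x = -1 with hR
  have hc : A.card = R.card + if t.lv = true then 2 else 1 := w2_card hl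
  have hzA : z ∈ A := Finset.mem_filter.2 ⟨mem_bx.2 (hl.abs_lt.2 z (by omega)), hz⟩
  have hd : ∀ y ∈ R, y ∉ A := fun y h1 h2 => by
    have := (Finset.mem_filter.1 h1).2
    have := (Finset.mem_filter.1 h2).2
    omega
  have key := w2_key A R t.ξ (fun x => t.τ (t.E (x :: l))) t.inj h0
    ((if t.lv = true then 1 else (t.Q : F)) * t.τ (t.E l)) hd ?_ (fun y hy => ?_) ?_ hzA
  · have e1 : gp t.ξ t.lv (fun x y => x ≠ y) z l =
        ∏ x ∈ bx l.length, (if x ≠ z then t.ξ z - t.ξ x else 1) ^ aa t.lv l x :=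
      Finset.prod_congr rfl fun x _ => by split_ifs <;> simp
    have e2 : (∏ x ∈ R, if x ≠ z then t.ξ z - t.ξ x else 1) = ∏ x ∈ R, (t.ξ z - t.ξ x) :=
      Finset.prod_congr rfl fun x hx => if_pos fun e : x = z => hd x hx (e ▸ hzA)
    have e3 : ∏ x ∈ A.erase z, (t.ξ z - t.ξ x) ≠ 0 := Finset.prod_ne_zero_iff.2 fun x hx =>
      t.xi_sub_ne (Finset.ne_of_mem_erase hx).symm
    rw [pp, e1, w2_prod hl, ← hA, ← hR, e2, ← Finset.prod_filter, Finset.filter_ne', mul_inv,
      inv_inv]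
    have := h0 z
    field_simp
    linear_combination key
  · by_cases hv : t.lv = true
    · refine Or.inr ⟨by rw [hc, if_pos hv], ?_⟩
      rw [← t.τX hv _ hn _ (t.ok.E_mem (le_refl l.length)), t.τ_comm]
      change _ = t.τ (t.X l.length * t.E l)
      rw [← t.w2_sum hn, Finset.mul_sum, map_sum]
      refine Finset.sum_congr rfl fun x _ => ?_
      have e := t.X_E [] l x
      rw [List.nil_append] at e
      rw [e, map_smul, smul_eq_mul, mul_comm]
    · exact Or.inl (by rw [hc, if_neg hv])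
  · obtain ⟨l', h1, h2⟩ := hl.exists_rem (Finset.mem_filter.1 hy).2
    have e0 : l'.length + 1 = l.length := h2.length_eq
    have e1 := t.τT l'.length (by omega) _ (t.ok.E_mem (l := y :: l') le_rfl)
    change t.τ (t.E (y :: l') * _) = 0 at e1
    rw [← t.w2_sum (l := y :: l') (by rw [h2.length_eq]; exact hn), Finset.sum_mul, map_sum] at e1
    simp only [h2.length_eq, aa_perm h2, w2_ET] at e1
    refine mul_left_cancel₀ t.ze_ne ?_
    rw [mul_zero, ← e1, Finset.mul_sum]
    refine Finset.sum_congr rfl fun x hx => ?_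
    have hx' := (Finset.mem_filter.1 hx).2
    rw [t.tau_perm (Std.cons h1 (by rwa [aa_perm h2])) (Std.cons hl hx') (h2.cons x)]
    simp only [dat]
    ring
  · have e1 := t.prod_xi hl
    rw [w2_prod hl, ← hA, ← hR, mul_inv_eq_iff_eq_mul₀
      (Finset.prod_ne_zero_iff.2 fun x _ => h0 x)] at e1
    rw [← map_sum, t.w2_sum hn, Finset.prod_neg, Finset.prod_neg, e1, hc, pow_add]
    split_ifs <;> ring

theorem tau_E_ne {l : List Box} (h : Std t.lv l) (hn : l.length ≤ t.n) : t.τ (t.E l) ≠ 0 := by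
  induction l with
  | nil =>
    rw [E, Dat.E, t.τ_one]
    exact one_ne_zero
  | cons z l ih =>
    rw [List.length_cons] at hn
    rw [t.tau_cons h (by omega)]
    exact mul_ne_zero (t.pp_ne l z) (ih (std_cons.1 h).1 (by omega))

theorem E_ne {l : List Box} (h : Std t.lv l) (hn : l.length ≤ t.n) : t.E l ≠ 0 := fun e =>
  t.tau_E_ne h hn (by rw [e, map_zero])

theorem w2_red {l : List Box} (hn : l.length ≤ t.n) {a : H} (ha : a ∈ t.Hk l.length) :
    ∃ c : F, ∀ b, t.E l * b = b → b * t.E l = b → t.τ (b * a) = c * t.τ b := by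
  obtain ⟨c, hc⟩ := (t.ok.s2 hn ha (s := l) (t := l) rfl rfl).2 rfl
  refine ⟨c, fun b h1 h2 => ?_⟩
  calc t.τ (b * a) = t.τ (t.E l * (b * t.E l * a)) := by rw [h2, ← mul_assoc, h1]
    _ = t.τ (b * (t.E l * a * t.E l)) := by rw [t.τ_comm]; simp only [mul_assoc]
    _ = _ := by rw [hc, mul_smul_comm, h2, map_smul, smul_eq_mul]

theorem w2_EE (u l : List Box) : t.E (u ++ l) * t.E l = t.E (u ++ l) := by
  rw [E, Dat.E_append, mul_assoc, t.ok.E_idem]

theorem w2_EE' (u l : List Box) : t.E l * t.E (u ++ l) = t.E (u ++ l) := by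
  rw [(t.ok.E_E _ _).eq, w2_EE]

/-- `E l * a * E l = c • E l` by `Ok.s2` -/
theorem tau_cons_mul {l : List Box} {z : Box} (h : Std t.lv (z :: l)) (hn : l.length < t.n) {a : H}
    (ha : a ∈ t.Hk l.length) : t.τ (t.E (z :: l) * a) = t.pp l z * t.τ (t.E l * a) := by
  obtain ⟨c, hc⟩ := t.w2_red hn.le ha
  rw [hc (t.E (z :: l)) (t.w2_EE' [z] l) (t.w2_EE [z] l), hc _ (t.ok.E_idem l) (t.ok.E_idem l),
    t.tau_cons h hn]
  ring

theorem fk_idem {k : ℕ} (hk : k + 1 < t.n) : t.fk k * t.fk k = t.fk k := by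
  have e : (t.T k + ((t.q⁻¹ : Fˣ) : F) • (1 : H)) * (t.T k + ((t.q⁻¹ : Fˣ) : F) • (1 : H)) =
      ((t.q : F) + (t.q⁻¹ : Fˣ)) • (t.T k + ((t.q⁻¹ : Fˣ) : F) • (1 : H)) := by
    have e1 : (t.q : F) * (t.q⁻¹ : Fˣ) = 1 := t.q.mul_inv
    simp only [mul_add, add_mul, t.quad k hk, smul_mul_assoc, mul_smul_comm, mul_one, one_mul]
    rw [Units.val_inv_eq_inv_val] at e1
    match_scalars
    · linear_combination -e1
    · ring
  rw [fk, smul_mul_assoc, mul_smul_comm, e, smul_smul, smul_smul, mul_assoc,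
    inv_mul_cancel₀ t.q_add, mul_one]

theorem fl_fk (k : ℕ) : t.fl (t.fk k) = t.fk k := by
  rw [fk, map_smul, map_add, map_smul, t.fl_T, t.fl_one]

/-- the diagonal entries of `fk` add up to one; `tau_perm` -/
theorem tau_two {l : List Box} {x y : Box} (h : Std t.lv (y :: x :: l)) (h' : Std t.lv (x :: y :: l))
    (hn : l.length + 1 < t.n) {a : H} (ha : a ∈ t.Hk l.length) :
    t.τ ((t.E (y :: x :: l) + t.E (x :: y :: l)) * t.fk l.length * a) =
      t.pp (x :: l) y * t.pp l x * t.τ (t.E l * a) := by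
  obtain ⟨c, hc⟩ := t.w2_red (by omega) ha
  have e1 : t.E l * t.fk l.length = t.fk l.length * t.E l := by
    rw [fk, smul_mul_assoc, mul_smul_comm, add_mul, mul_add, smul_mul_assoc, mul_smul_comm,
      t.Hk_T le_rfl hn (t.ok.E_mem le_rfl), one_mul, mul_one]
  have a1 : t.E l * t.E (y :: x :: l) = t.E (y :: x :: l) := t.w2_EE' [y, x] l
  have a2 : t.E l * t.E (x :: y :: l) = t.E (x :: y :: l) := t.w2_EE' [x, y] l
  have a3 : t.E (y :: x :: l) * t.E l = t.E (y :: x :: l) := t.w2_EE [y, x] l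
  have a4 : t.E (x :: y :: l) * t.E l = t.E (x :: y :: l) := t.w2_EE [x, y] l
  have e2 : t.τ ((t.E (y :: x :: l) + t.E (x :: y :: l)) * t.fk l.length) =
      t.τ (t.E (y :: x :: l)) := by
    have e3 := t.ok.al_add x y h'.ne
    have e4 := t.q_add
    rw [fk, mul_smul_comm, add_mul, mul_add, mul_add, mul_smul_comm, mul_smul_comm, mul_one, mul_one]
    simp only [map_smul, map_add, w2_ET, smul_eq_mul]
    rw [t.tau_perm h' h (List.Perm.swap y x l), inv_mul_eq_iff_eq_mul₀ e4]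
    change _ = (t.q : F) - (t.q⁻¹ : Fˣ) at e3
    linear_combination t.τ (t.E (y :: x :: l)) * e3
  rw [hc _ (by rw [← mul_assoc, mul_add, a1, a2])
    (by rw [mul_assoc, ← e1, ← mul_assoc, add_mul, a3, a4]), hc _ (t.ok.E_idem l) (t.ok.E_idem l),
    e2, t.tau_cons h hn, t.tau_cons (std_cons.1 h).1 (by omega)]
  ring

/-- the Gram matrix of the matrix units is diagonal -/
theorem gram (o : Bool) {k : ℕ} (hk : k ≤ t.n) {U : List Box → Prop} (i j : Ix t.lv k U) :
    t.τ (t.g o i.1.1 i.1.2 * t.fl (t.g o j.1.1 j.1.2)) =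
      if i = j then t.Nm o i.1.1 * t.Nm o i.1.2 * t.τ (t.E i.1.1) else 0 := by
  have _ := hk
  obtain ⟨⟨s, u⟩, hi⟩ := i
  obtain ⟨⟨s', u'⟩, hj⟩ := j
  simp only [Subtype.mk.injEq, Prod.mk.injEq]
  simp only [Ix, Finset.mem_filter, Finset.mem_product, mem_tabs] at hi hj
  obtain ⟨⟨⟨a1, a2⟩, a3, a4⟩, a5, -⟩ := hi
  obtain ⟨⟨⟨b1, b2⟩, b3, b4⟩, -, -⟩ := hj
  rw [t.ok.fl_g o t.flo, t.ok.g_mul_g o a4 b4 (a3.trans b3.symm) (bt_eq o a2 a4 a5)]
  by_cases e1 : u = u'
  · rw [if_pos e1, map_smul, smul_eq_mul]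
    by_cases e2 : s = s'
    · rw [if_pos ⟨e2, e1⟩, ← e2, t.ok.U_V o a2, map_smul, smul_eq_mul]
      ring
    · rw [if_neg fun e => e2 e.1, ← t.ok.E_g o a2, t.τ_comm, ← t.ok.g_E o s b2, mul_assoc,
        t.ok.E_orth (b1.trans a1.symm) (Ne.symm e2), mul_zero, map_zero, mul_zero]
  · rw [if_neg e1, if_neg fun e => e1 e.2, map_zero]

theorem g_ne (o : Bool) {k : ℕ} (hk : k ≤ t.n) {s u : List Box} (hs : s ∈ tabs t.lv k)
    (hu : u ∈ tabs t.lv k) (h : s.Perm u) : t.g o s u ≠ 0 := by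
  intro e
  obtain ⟨a1, a2⟩ := mem_tabs.1 hs
  obtain ⟨-, a4⟩ := mem_tabs.1 hu
  have e1 := t.ok.g_mul_g o a4 a4 rfl (bt_eq o a2 a4 h) s
  rw [if_pos rfl, t.ok.U_V o a2, show t.dat.g t.lv o s u = 0 from e, zero_mul] at e1
  exact smul_ne_zero (t.ok.Nm_ne o a4) (smul_ne_zero (t.ok.Nm_ne o a2)
    (t.E_ne a2 (by omega))) e1.symm

end Tw

end

end Pool.Agent.P.MP_1a0ecf_al.K
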