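import Pool.Agent.P.MP_1a0ecf_al.K.W2

/-! Package W3: sums of idempotents, central elements, integrality of projectors. -/

namespace Pool.Agent.P.MP_1a0ecf_al.K

open Sn
open scoped Classical

set_option linter.unusedSectionVars false

noncomputable section

variable {F H : Type} [Field F] [Ring H] [Algebra F H]


theorem w3_eig {a v : H} {c : F} (h : a * v = c • v) (f : Polynomial F) :
    Polynomial.aeval a f * v = f.eval c • v := by
  induction f using Polynomial.induction_on with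
  | C r => rw [Polynomial.aeval_C, Polynomial.eval_C, Algebra.smul_def]
  | add f g hf hg => rw [map_add, add_mul, hf, hg, Polynomial.eval_add, add_smul]
  | monomial n r ih =>
    rw [pow_succ, ← mul_assoc, map_mul, Polynomial.aeval_X, mul_assoc, h, mul_smul_comm, ih,
      Polynomial.eval_mul_X, smul_smul, mul_comm]

theorem w3_unit {R : Subring F} {u : R} (h : Un R (u : F)) : IsUnit u :=
  IsUnit.of_mul_eq_one ⟨_, h.2.1⟩ (Subtype.ext (mul_inv_cancel₀ h.2.2))

theorem w3_br (x : Box) : br (br x) = x := by simp [br]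

namespace Tw

variable (t : Tw F H)

theorem w3_tabs {k : ℕ} {s : List Box} (hs : s.length = k) (h : t.E s ≠ 0) : s ∈ tabs t.lv k :=
  mem_tabs.2 ⟨hs, t.ok.std h⟩

theorem w3_ite (k : ℕ) (U : List Box → Prop) :
    t.eU k U = ∑ s ∈ tabs t.lv k, if U s then t.E s else 0 := Finset.sum_filter _ _

theorem w3_lists (k : ℕ) (U : List Box → Prop) :
    t.eU k U = ∑ s ∈ lists (bx t.n) k, if U s then t.E s else 0 := by
  rw [w3_ite]
  have key : ∀ s, (if U s then t.E s else 0) ≠ 0 → t.E s ≠ 0 := fun s h e => h (by simp [e])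
  refine Finset.sum_bij_ne_zero (fun s _ _ => s) (fun s hs h => ?_) (fun _ _ _ _ _ _ e => e)
    (fun s hs h => ⟨s, t.w3_tabs (mem_lists.1 hs).1 (key s h), h, rfl⟩) fun _ _ _ => rfl
  have := t.ok.mem_lists (key s h)
  rwa [(mem_tabs.1 hs).1] at this

theorem w3_cent {k : ℕ} (hk : k ≤ t.n) {c : List Box → F}
    (hc : ∀ s u : List Box, s.Perm u → c s = c u) {a : H} (ha : a ∈ t.Hk k) :
    (∑ s ∈ tabs t.lv k, c s • t.E s) * a = a * ∑ s ∈ tabs t.lv k, c s • t.E s := by
  have h1 : ∑ l ∈ tabs t.lv k, t.E l = 1 := t.ok.sum_tabs hk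
  have e1 : (∑ s ∈ tabs t.lv k, c s • t.E s) * a =
      (∑ s ∈ tabs t.lv k, c s • t.E s) * a * ∑ l ∈ tabs t.lv k, t.E l := by rw [h1, mul_one]
  have e2 : a * ∑ s ∈ tabs t.lv k, c s • t.E s =
      (∑ l ∈ tabs t.lv k, t.E l) * a * ∑ s ∈ tabs t.lv k, c s • t.E s := by rw [h1, one_mul]
  rw [e1, e2, Finset.sum_mul, Finset.sum_mul_sum, Finset.sum_mul (f := t.E), Finset.sum_mul_sum]
  refine Finset.sum_congr rfl fun s hs => Finset.sum_congr rfl fun u hu => ?_
  rw [smul_mul_assoc, smul_mul_assoc, mul_smul_comm]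
  by_cases h : s.Perm u
  · rw [hc s u h]
  · rw [(t.ok.s2 hk ha (mem_tabs.1 hs).1 (mem_tabs.1 hu).1).1 h, smul_zero, smul_zero]

theorem w3_top (a : H) : a ∈ t.Hk t.n := by
  rw [show t.Hk t.n = ⊤ from t.top]
  exact Algebra.mem_top

theorem w3_expand {z : H} {c : List Box → F} (h : ∀ s ∈ tabs t.lv t.n, z * t.E s = c s • t.E s) :
    z = ∑ s ∈ tabs t.lv t.n, c s • t.E s := by
  have h1 : ∑ l ∈ tabs t.lv t.n, t.E l = 1 := t.ok.sum_tabs le_rfl
  rw [← Finset.sum_congr rfl h, ← Finset.mul_sum, h1, mul_one]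

theorem eU_mem {k j : ℕ} (h : k ≤ j) (U : List Box → Prop) : t.eU k U ∈ t.Hk j :=
  sum_mem fun _ hs => t.ok.E_mem ((mem_tabs.1 (Finset.mem_filter.1 hs).1).1.le.trans h)

theorem eU_top {k : ℕ} (hk : k ≤ t.n) : t.eU k (fun _ => True) = 1 := by
  rw [w3_ite]
  simp only [if_true]
  exact t.ok.sum_tabs hk

theorem eU_congr {k : ℕ} {U V : List Box → Prop} (h : ∀ s ∈ tabs t.lv k, U s ↔ V s) :
    t.eU k U = t.eU k V := by
  rw [w3_ite, w3_ite]
  exact Finset.sum_congr rfl fun s hs => by rw [h s hs]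

theorem eU_E {k : ℕ} (U : List Box → Prop) {s : List Box} (hs : s.length = k) :
    t.eU k U * t.E s = if U s then t.E s else 0 := by
  by_cases h0 : t.E s = 0
  · simp [h0]
  rw [w3_ite, Finset.sum_mul, Finset.sum_eq_single_of_mem s (t.w3_tabs hs h0) fun u hu e => by
    rw [ite_mul, zero_mul, t.ok.E_orth ((mem_tabs.1 hu).1.trans hs.symm) e, ite_self],
    ite_mul, zero_mul, t.ok.E_idem]

theorem eU_mul (k : ℕ) (U V : List Box → Prop) :
    t.eU k U * t.eU k V = t.eU k fun s => U s ∧ V s := by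
  rw [t.w3_ite k V, t.w3_ite k fun s => U s ∧ V s, Finset.mul_sum]
  refine Finset.sum_congr rfl fun s hs => ?_
  rw [mul_ite, mul_zero, t.eU_E U (mem_tabs.1 hs).1]
  by_cases h1 : U s <;> by_cases h2 : V s <;> simp [h1, h2]

theorem eU_or (k : ℕ) {U V : List Box → Prop} (h : ∀ s ∈ tabs t.lv k, U s → ¬ V s) :
    t.eU k (fun s => U s ∨ V s) = t.eU k U + t.eU k V := by
  rw [w3_ite, w3_ite, w3_ite, ← Finset.sum_add_distrib]
  refine Finset.sum_congr rfl fun s hs => ?_
  have := h s hs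
  by_cases h1 : U s <;> by_cases h2 : V s <;> simp_all

theorem eU_comm (k j : ℕ) (U V : List Box → Prop) :
    t.eU k U * t.eU j V = t.eU j V * t.eU k U :=
  (Commute.sum_left _ _ _ fun s _ => Commute.sum_right _ _ _ fun u _ => t.ok.E_E s u).eq

theorem E_eU {k : ℕ} (U : List Box → Prop) {s : List Box} (hs : s.length = k) :
    t.E s * t.eU k U = if U s then t.E s else 0 := by
  rw [← t.eU_E U hs]
  exact (Commute.sum_right _ _ _ fun u _ => t.ok.E_E s u).eq

theorem fl_eU (k : ℕ) (U : List Box → Prop) : t.fl (t.eU k U) = t.eU k U := by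
  rw [eU, map_sum]
  exact Finset.sum_congr rfl fun s _ => t.ok.fl_E t.flo s

theorem eU_succ {k : ℕ} (hk : k < t.n) (U : List Box → Prop) :
    t.eU (k + 1) U = ∑ x ∈ bx t.n, t.pr k x * t.eU k fun l => U (x :: l) := by
  have _ := hk
  rw [w3_lists, sum_lists_succ, Finset.sum_comm]
  refine Finset.sum_congr rfl fun x _ => ?_
  rw [w3_lists, Finset.mul_sum]
  refine Finset.sum_congr rfl fun l hl => ?_
  rw [mul_ite, mul_zero, ← (mem_lists.1 hl).1]
  rfl

theorem pj_eU {k : ℕ} (hk : k < t.n) (A : Box → Prop) (U : List Box → Prop) :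
    t.pj k A * t.eU k U = t.eU (k + 1) fun s => ∃ x l, s = x :: l ∧ A x ∧ U l := by
  rw [t.eU_succ hk, pj, Finset.sum_filter, Finset.sum_mul]
  refine Finset.sum_congr rfl fun x _ => ?_
  by_cases h : A x
  · rw [if_pos h]
    congr 1
    exact t.eU_congr fun s _ => by simp [h]
  · rw [if_neg h, zero_mul, t.eU_congr (V := fun _ => False) fun s _ => by simp [h], w3_ite]
    simp

/-- `Ok.s2` -/
theorem eU_cent {k : ℕ} (hk : k ≤ t.n) {U : List Box → Prop}
    (hU : ∀ s u : List Box, s.Perm u → U s → U u) {a : H} (ha : a ∈ t.Hk k) :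
    t.eU k U * a = a * t.eU k U := by
  have := t.w3_cent hk (c := fun s => if U s then 1 else 0)
    (fun s u h => by rw [show U s ↔ U u from ⟨hU s u h, hU u s h.symm⟩]) ha
  simp only [ite_smul, one_smul, zero_smul] at this
  rwa [w3_ite]

/-- the ideal of `U` is spanned by the matrix units -/
theorem span_g (o : Bool) {k : ℕ} (hk : k ≤ t.n) {U : List Box → Prop}
    (hU : ∀ s u : List Box, s.Perm u → U s → U u) :
    Submodule.span F (Set.range fun i : Ix t.lv k U => t.g o i.1.1 i.1.2) =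
      (Subalgebra.toSubmodule (t.Hk k)).map (LinearMap.mulRight F (t.eU k U)) := by
  have key : ∀ s, ∀ u ∈ tabs t.lv k, t.g o s u * t.eU k U = if U u then t.g o s u else 0 :=
    fun s u hu => by
      have e : t.g o s u * t.E u = t.g o s u := t.ok.g_E o s (mem_tabs.1 hu).2
      rw [← e, mul_assoc, t.E_eU U (mem_tabs.1 hu).1, mul_ite, mul_zero]
  refine le_antisymm (Submodule.span_le.2 ?_) ?_
  · rintro _ ⟨⟨⟨s, u⟩, hi⟩, rfl⟩
    obtain ⟨h1, h2, h3⟩ := Finset.mem_filter.1 hi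
    obtain ⟨hs, hu⟩ := Finset.mem_product.1 h1
    refine ⟨t.g o s u, t.ok.g_mem o (mem_tabs.1 hs).2 (mem_tabs.1 hu).2 (mem_tabs.1 hs).1.le
      (mem_tabs.1 hu).1.le, ?_⟩
    rw [LinearMap.mulRight_apply, key s u hu, if_pos (hU s u h2 h3)]
  · rintro _ ⟨a, ha, rfl⟩
    obtain ⟨c, -, e⟩ := t.ok.expand o hk ha
    rw [e, map_sum]
    refine Submodule.sum_mem _ fun s hs => ?_
    rw [map_sum]
    refine Submodule.sum_mem _ fun u hu => ?_
    obtain ⟨hu, hp⟩ := Finset.mem_filter.1 hu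
    rw [map_smul, LinearMap.mulRight_apply, key s u hu]
    refine Submodule.smul_mem _ _ ?_
    split_ifs with h
    · exact Submodule.subset_span ⟨⟨(s, u), Finset.mem_filter.2
        ⟨Finset.mem_product.2 ⟨hs, hu⟩, hp, hU u s hp.symm h⟩⟩, rfl⟩
    · exact Submodule.zero_mem _

/-- central elements act by scalars on the shapes -/
theorem cent_scalar {z : H} (hz : ∀ a, z * a = a * z) : ∃ c : List Box → F,
    (∀ s u : List Box, s.Perm u → c s = c u) ∧ ∀ s ∈ tabs t.lv t.n, z * t.E s = c s • t.E s := by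
  have key : ∀ m : Multiset Box, ∃ c : F, ∀ s ∈ tabs t.lv t.n, (s : Multiset Box) = m →
      z * t.E s = c • t.E s := fun m => by
    by_cases h : ∃ u ∈ tabs t.lv t.n, (u : Multiset Box) = m
    · obtain ⟨u, hu, rfl⟩ := h
      obtain ⟨hl, hu⟩ := mem_tabs.1 hu
      obtain ⟨c, hc⟩ := (t.ok.s2 le_rfl (t.w3_top z) hl hl).2 rfl
      have e0 : t.E u * z = c • t.E u := by
        rw [← hc, mul_assoc, hz, ← mul_assoc, t.ok.E_idem]
      refine ⟨c, fun s hs e => ?_⟩
      obtain ⟨-, hs⟩ := mem_tabs.1 hs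
      have hp : s.Perm u := Multiset.coe_eq_coe.1 e
      have e1 : t.g true s u * t.E u = t.g true s u := t.ok.g_E true s hu
      have e2 : t.g true s u * t.g true u s = (t.Nm true u * t.Nm true s) • t.E s := by
        rw [t.ok.g_mul_g true hu hu rfl (bt_eq true hs hu hp), if_pos rfl, t.ok.U_V true hs,
          smul_smul]
      have e3 : z * t.g true s u = c • t.g true s u := by
        rw [hz, ← e1, mul_assoc, e0, mul_smul_comm]
      refine smul_right_injective H (mul_ne_zero (t.ok.Nm_ne true hu) (t.ok.Nm_ne true hs)) ?_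
      show (t.Nm true u * t.Nm true s) • _ = (t.Nm true u * t.Nm true s) • _
      rw [← mul_smul_comm, ← e2, ← mul_assoc, e3, smul_mul_assoc, e2, smul_comm]
    · exact ⟨0, fun s hs e => absurd ⟨s, hs, e⟩ h⟩
  choose c hc using key
  exact ⟨fun s => c s, fun s u h => congrArg c (Multiset.coe_eq_coe.2 h), fun s hs => hc _ s hs rfl⟩

theorem cent_idem {z : H} (hz : ∀ a, z * a = a * z) (hi : z * z = z) : ∃ U : List Box → Prop,
    (∀ s u : List Box, s.Perm u → U s → U u) ∧ z = t.eU t.n U := by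
  obtain ⟨c, h1, h2⟩ := t.cent_scalar hz
  refine ⟨fun s => c s = 1, fun s u h e => (h1 s u h).symm.trans e, ?_⟩
  rw [t.w3_expand h2, w3_ite]
  refine Finset.sum_congr rfl fun s hs => ?_
  split_ifs with h
  · rw [h, one_smul]
  · have e := h2 s hs
    rw [← hi, mul_assoc, h2 s hs, mul_smul_comm, h2 s hs, ← sub_eq_zero] at e
    refine smul_right_injective H (sub_ne_zero.2 h) ?_
    show (c s - 1) • c s • t.E s = (c s - 1) • (0 : H)
    rw [smul_zero, sub_smul, one_smul, e]

theorem cent_block {z : H} (hz : ∀ a, z * a = a * z) (s : List Box) :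
    ∃ c : F, z * t.eU t.n (fun u => u.Perm s) = c • t.eU t.n fun u => u.Perm s := by
  obtain ⟨c, h1, h2⟩ := t.cent_scalar hz
  refine ⟨c s, ?_⟩
  rw [eU, Finset.mul_sum, Finset.smul_sum]
  refine Finset.sum_congr rfl fun u hu => ?_
  simp only [Finset.mem_filter] at hu
  rw [h2 u hu.1, h1 u s hu.2]

theorem aeval_sum_cent (f : Polynomial F) (a : H) :
    (∑ k ∈ Finset.range t.n, Polynomial.aeval (t.X k) f) * a =
      a * ∑ k ∈ Finset.range t.n, Polynomial.aeval (t.X k) f := by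
  rw [t.w3_expand fun s hs => t.aeval_sum_E f (mem_tabs.1 hs).1]
  exact t.w3_cent le_rfl (fun s u h => (h.map _).sum_eq) (t.w3_top a)

variable {t}

theorem Lat.X_mem (Λ : Lat t) (k : ℕ) : t.X k ∈ Λ.HR := by
  induction k with
  | zero => exact Λ.hX
  | succ k ih => exact mul_mem (mul_mem (Λ.hT k) ih) (Λ.hT k)

theorem Lat.un_xi (Λ : Lat t) (x : Box) : Un Λ.R (t.ξ x) := by
  have hz : ∀ {u : F}, Un Λ.R u → ∀ m : ℤ, u ^ m ∈ Λ.R := fun hu m => by
    obtain ⟨j, rfl | rfl⟩ := m.eq_nat_or_neg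
    · rw [zpow_natCast]; exact pow_mem hu.1 j
    · rw [zpow_neg, zpow_natCast, ← inv_pow]; exact pow_mem hu.2.1 j
  refine ⟨?_, ?_, xi_ne _ _ x⟩
  · rw [ξ, xi, Units.val_zpow_eq_zpow_val, Units.val_inv_eq_inv_val]
    refine mul_mem ?_ (hz Λ.hq _)
    split_ifs
    · exact Λ.hQ.1
    · exact neg_mem Λ.hQ.2.1
  · rw [ξ, xi, Units.val_zpow_eq_zpow_val, Units.val_inv_eq_inv_val, mul_inv, ← zpow_neg]
    refine mul_mem ?_ (hz Λ.hq _)
    split_ifs
    · exact Λ.hQ.2.1
    · rw [inv_neg, inv_inv]; exact neg_mem Λ.hQ.1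

theorem Lat.one_smul (Λ : Lat t) {r : F} (h : r ∈ Λ.R) : r • (1 : H) ∈ Λ.HR :=
  Λ.smul r h 1 (one_mem _)

theorem Lat.w3_aeval (Λ : Lat t) {a : H} (ha : a ∈ Λ.HR) (f : Polynomial Λ.R) :
    Polynomial.aeval a (f.map Λ.R.subtype) ∈ Λ.HR := by
  induction f using Polynomial.induction_on with
  | C r =>
    rw [Polynomial.map_C, Polynomial.aeval_C, Algebra.algebraMap_eq_smul_one]
    exact Λ.one_smul r.2
  | add f g hf hg => rw [Polynomial.map_add, map_add]; exact add_mem hf hg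
  | monomial n r ih =>
    rw [pow_succ, ← mul_assoc, Polynomial.map_mul, map_mul, Polynomial.map_X, Polynomial.aeval_X]
    exact mul_mem ih ha

/-- (PROJ). In `R[u]` the products of the `u - ξ x` over the allowed boxes with `A x` and with
`¬ A x` are coprime (`Polynomial.isCoprime_X_sub_C_of_isUnit_sub`, `IsCoprime.prod_left`). -/
theorem Lat.pj_mem (Λ : Lat t) (k : ℕ) {A : Box → Prop}
    (h : ∀ x y, K.ok t.lv x → K.ok t.lv y → A x → ¬ A y → Un Λ.R (t.ξ x - t.ξ y)) :
    t.pj k A ∈ Λ.HR := by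
  by_cases hk : k < t.n
  swap
  · exact sum_mem fun x _ => by rw [pr, if_neg fun h => hk h.1]; exact zero_mem _
  let ξR : Box → Λ.R := fun x => ⟨t.ξ x, (Λ.un_xi x).1⟩
  let P : (Box → Prop) → Polynomial Λ.R := fun B =>
    ∏ x ∈ bx t.n with K.ok t.lv x ∧ B x, (Polynomial.X - Polynomial.C (ξR x))
  have hP : ∀ B, ∀ y ∈ bx t.n, K.ok t.lv y → B y →
      ((P B).map Λ.R.subtype).eval (t.ξ y) = 0 := fun B y hy h1 h2 => by
    rw [Polynomial.map_prod, Polynomial.eval_prod]
    exact Finset.prod_eq_zero (Finset.mem_filter.2 ⟨hy, h1, h2⟩) (by simp [ξR])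
  obtain ⟨a, b, e⟩ : IsCoprime (P A) (P fun x => ¬ A x) :=
    IsCoprime.prod_left fun x hx => IsCoprime.prod_right fun y hy => by
      simp only [Finset.mem_filter] at hx hy
      exact Polynomial.isCoprime_X_sub_C_of_isUnit_sub
        (w3_unit (h x y hx.2.1 hy.2.1 hx.2.2 hy.2.2))
  have h1 : ∑ x ∈ bx t.n, t.pr k x = 1 := t.ok.sum k hk
  have key : t.pj k A = Polynomial.aeval (t.X k) ((b * P fun x => ¬ A x).map Λ.R.subtype) *
      ∑ x ∈ bx t.n, t.pr k x := by
    rw [pj, Finset.sum_filter, Finset.mul_sum]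
    refine Finset.sum_congr rfl fun y hy => ?_
    by_cases ho : K.ok t.lv y
    swap
    · simp [t.pr_eq_zero ho]
    rw [w3_eig (t.X_pr k y)]
    split_ifs with hA
    · have := congrArg (fun f => (Polynomial.map Λ.R.subtype f).eval (t.ξ y)) e
      simp only [Polynomial.map_add, Polynomial.map_one, Polynomial.eval_add, Polynomial.eval_one,
        Polynomial.map_mul _ (q := P A), Polynomial.eval_mul, hP A y hy ho hA, mul_zero,
        zero_add] at this
      rw [this, _root_.one_smul]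
    · rw [Polynomial.map_mul, Polynomial.eval_mul, hP _ y hy ho hA, mul_zero, zero_smul]
  rw [key, h1, mul_one]
  exact Λ.w3_aeval (Λ.X_mem k) _

/-- Induction on `k`: `eU (k + 1) U` is the sum over the values `δ` of `κ` on `bx n` of
`pj k (κ · = δ) * eU k (U (x :: ·))`, `x` any box with `κ x = δ`. -/
theorem Lat.eU_mem (Λ : Lat t) {α : Type} (κ : Box → α)
    (h : ∀ x y, K.ok t.lv x → K.ok t.lv y → κ x ≠ κ y → Un Λ.R (t.ξ x - t.ξ y)) {k : ℕ} (hk : k ≤ t.n)
    {U : List Box → Prop} (hU : ∀ s u : List Box, s.map κ = u.map κ → U s → U u) :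
    t.eU k U ∈ Λ.HR := by
  induction k generalizing U with
  | zero =>
    have e := t.eU_E U (k := 0) (s := []) rfl
    rw [show t.E [] = 1 from rfl, mul_one] at e
    rw [e]
    split_ifs
    · exact one_mem _
    · exact zero_mem _
  | succ k ih =>
    rw [t.eU_succ hk, ← Finset.sum_fiberwise_of_maps_to (g := κ) (t := (bx t.n).image κ)
      fun x hx => Finset.mem_image_of_mem κ hx]
    refine sum_mem fun δ hδ => ?_
    obtain ⟨z, -, rfl⟩ := Finset.mem_image.1 hδ
    have e : ∑ x ∈ bx t.n with κ x = κ z, t.pr k x * t.eU k (fun l => U (x :: l)) =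
        t.pj k (fun x => κ x = κ z) * t.eU k fun l => U (z :: l) := by
      rw [pj, Finset.sum_mul]
      refine Finset.sum_congr (by congr) fun x hx => ?_
      have e := (Finset.mem_filter.1 hx).2
      rw [t.eU_congr (V := fun l => U (z :: l)) fun s _ =>
        ⟨hU _ _ (by simp [e]), hU _ _ (by simp [e])⟩]
    rw [e]
    exact mul_mem (Λ.pj_mem k fun x y h1 h2 h3 h4 => h x y h1 h2 fun e => h4 (e ▸ h3))
      (ih (Nat.le_of_succ_le hk) fun s u e => hU _ _ (by simp [e]))

/-- `f = ∏ (u - p l)` kills the element on the block and has unit constant term. -/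
theorem Lat.inv_mem (Λ : Lat t) {k : ℕ} {S : Finset (List Box)} (hS : ∀ l ∈ S, l.length = k)
    {p : List Box → F} (hp : ∀ l ∈ S, Un Λ.R (p l)) (h1 : ∑ l ∈ S, t.E l ∈ Λ.HR)
    (h2 : ∑ l ∈ S, p l • t.E l ∈ Λ.HR) : ∑ l ∈ S, (p l)⁻¹ • t.E l ∈ Λ.HR := by
  let pR : List Box → Λ.R := fun l => if h : p l ∈ Λ.R then ⟨p l, h⟩ else 0
  have hpR : ∀ l ∈ S, (pR l : F) = p l := fun l hl => by simp only [pR, dif_pos (hp l hl).1]
  let f : Polynomial Λ.R := ∏ l ∈ S, (Polynomial.X - Polynomial.C (pR l))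
  have hf : ∀ u : F, (f.map Λ.R.subtype).eval u = ∏ l ∈ S, (u - p l) := fun u => by
    rw [Polynomial.map_prod, Polynomial.eval_prod]
    exact Finset.prod_congr rfl fun l hl => by simp [hpR l hl]
  have hd : ∀ u : F, u * (f.divX.map Λ.R.subtype).eval u + ∏ l ∈ S, (0 - p l) =
      ∏ l ∈ S, (u - p l) := fun u => by
    have := congrArg (fun g => (Polynomial.map Λ.R.subtype g).eval u) (Polynomial.X_mul_divX_add f)
    simp only [Polynomial.map_add, Polynomial.map_mul, Polynomial.map_X, Polynomial.map_C,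
      Polynomial.eval_add, Polynomial.eval_mul, Polynomial.eval_X, Polynomial.eval_C] at this
    rw [← hf u, ← this, ← hf 0, ← Polynomial.coeff_zero_eq_eval_zero, Polynomial.coeff_map]
  have hc0 : ∏ l ∈ S, (0 - p l) ≠ 0 := Finset.prod_ne_zero_iff.2 fun l hl => by
    rw [zero_sub]; exact neg_ne_zero.2 (hp l hl).2.2
  have hc : -(∏ l ∈ S, (0 - p l))⁻¹ ∈ Λ.R := by
    rw [← Finset.prod_inv_distrib]
    refine neg_mem (prod_mem fun l hl => ?_)
    rw [zero_sub, inv_neg]
    exact neg_mem (hp l hl).2.1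
  have ha : ∀ l ∈ S, (∑ m ∈ S, p m • t.E m) * t.E l = p l • t.E l := fun l hl => by
    rw [Finset.sum_mul, Finset.sum_eq_single_of_mem l hl fun m hm e => by
      rw [smul_mul_assoc, t.ok.E_orth ((hS m hm).trans (hS l hl).symm) e, smul_zero],
      smul_mul_assoc, t.ok.E_idem]
  have := Λ.smul _ hc _ (mul_mem (Λ.w3_aeval h2 f.divX) h1)
  rw [Finset.mul_sum, Finset.smul_sum] at this
  convert this using 2 with l hl
  rw [w3_eig (ha l hl), smul_smul]
  congr 1
  have e := hd (p l)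
  rw [Finset.prod_eq_zero hl (f := fun m => p l - p m) (sub_self _)] at e
  have h0 := (hp l hl).2.2
  field_simp
  linear_combination e

theorem Th.eU {θ : H →ₐ[F] H} (h : Th t θ) (k : ℕ) (U : List Box → Prop) :
    θ (t.eU k U) = t.eU k fun s => U (s.map br) := by
  have hm : ∀ s ∈ lists (bx t.n) k, s.map br ∈ lists (bx t.n) k := fun s hs =>
    mem_lists.2 ⟨by rw [List.length_map, (mem_lists.1 hs).1], fun x hx => by
      obtain ⟨y, hy, rfl⟩ := List.mem_map.1 hx
      exact mem_bx.2 (mem_bx.1 ((mem_lists.1 hs).2 y hy) :)⟩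
  have hi : ∀ s : List Box, (s.map br).map br = s := fun s => by
    rw [List.map_map, show br ∘ br = id from funext w3_br, List.map_id]
  rw [w3_lists, w3_lists, map_sum]
  refine Finset.sum_nbij' (fun s => s.map br) (fun s => s.map br) hm hm (fun s _ => hi s)
    (fun s _ => hi s) fun s _ => ?_
  simp only [hi]
  split_ifs
  · exact h.E s
  · exact map_zero _

end Tw

end

end Pool.Agent.P.MP_1a0ecf_al.K
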